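import Pool.Agent.P.MP_a1177c_nt.LC.Defs
import Pool.Agent.Lib.PNT.PrimeSums

namespace Pool.Agent.P.MP_a1177c_nt.LC

open Finset Filter MR MR.StructAux
open scoped ComplexConjugate Topology

namespace APDivAux

/-- The left end of the block `j`. -/
noncomputable def u (h : ℝ) (j : ℕ) : ℕ := ⌊Real.exp (j * h)⌋₊

lemma u_mono {h : ℝ} (hh : 0 < h) : Monotone (u h) := fun i j hij =>
  Nat.floor_le_floor (Real.exp_le_exp.2 (mul_le_mul_of_nonneg_right (by exact_mod_cast hij) hh.le))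

lemma mem_blk {h : ℝ} {j n : ℕ} (hn : n ∈ Ioc (u h j) (u h (j + 1))) :
    Real.exp (j * h) < n ∧ (n : ℝ) ≤ Real.exp ((j + 1) * h) := by
  obtain ⟨h1, h2⟩ := mem_Ioc.1 hn
  refine ⟨(Nat.floor_lt (Real.exp_pos _).le).1 h1, ?_⟩
  have := (Nat.le_floor_iff (Real.exp_pos _).le).1 h2
  simpa using this

lemma sum_blocks {h : ℝ} (hh : 0 < h) (g : ℕ → ℝ) (N : ℕ) :
    ∑ j ∈ range N, ∑ n ∈ Ioc (u h j) (u h (j + 1)), g n = ∑ n ∈ Ioc (u h 0) (u h N), g n := by
  induction N with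
  | zero => simp
  | succ N ih =>
    rw [sum_range_succ, ih, sum_Ioc_consecutive _ (u_mono hh (Nat.zero_le _))
      (u_mono hh (Nat.le_succ _))]

/-- Each block carries mass at least `c / (j + 1)`. -/
lemma blk_mass {q a : ℕ} (hq : 0 < q) (ha : a.Coprime q) {h : ℝ} (hh : 0 < h) :
    ∃ c : ℝ, 0 < c ∧ ∀ᶠ j : ℕ in atTop, c / (j + 1) ≤
      ∑ p ∈ (Ioc (u h j) (u h (j + 1))).filter (fun p => p.Prime ∧ p ≡ a [MOD q]),
        (1 : ℝ) / p := by
  have : NeZero q := ⟨hq.ne'⟩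
  have hu : IsUnit (a : ZMod q) := (ZMod.isUnit_iff_coprime a q).2 ha
  have he : 1 < Real.exp h := Real.one_lt_exp_iff.2 hh
  have h1 := Pool.Agent.Lib.PNT.prime_sum_AP_tendsto hu (α := 1) (β := Real.exp h) zero_le_one
    he.le (f := fun _ => 1) (M := 1) (fun _ _ => by simp)
    (Eventually.of_forall fun _ _ => continuousAt_const)
  have h2 : Tendsto (fun j : ℕ => Real.exp (j * h)) atTop atTop :=
    Real.tendsto_exp_atTop.comp (tendsto_natCast_atTop_atTop.atTop_mul_const hh)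
  have h3 := h1.comp h2
  have hφ : (0 : ℝ) < q.totient := by exact_mod_cast Nat.totient_pos.2 hq
  set d : ℝ := (q.totient : ℝ)⁻¹ * ∫ _ in (1 : ℝ)..Real.exp h, (1 : ℝ) with hd
  have hd0 : 0 < d := by
    rw [hd, intervalIntegral.integral_const, smul_eq_mul, mul_one]
    exact mul_pos (inv_pos.2 hφ) (by linarith)
  refine ⟨d / 2 / (h * Real.exp h), by positivity, ?_⟩
  filter_upwards [h3.eventually (lt_mem_nhds (half_lt_self hd0))] with j hj
  have e1 : ⌊Real.exp (j * h)⌋₊ = u h j := rfl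
  have e2 : ⌊Real.exp h * Real.exp (j * h)⌋₊ = u h (j + 1) := by
    rw [u, ← Real.exp_add]; congr 2; push_cast; ring
  simp only [Function.comp, e2, one_mul, e1] at hj
  have e3 : (Ioc (u h j) (u h (j + 1))).filter (fun p : ℕ => p.Prime ∧ (p : ZMod q) = a) =
      (Ioc (u h j) (u h (j + 1))).filter (fun p => p.Prime ∧ p ≡ a [MOD q]) :=
    filter_congr fun p _ => by rw [ZMod.natCast_eq_natCast_iff]
  rw [e3, sum_div] at hj
  have hj1 : (0 : ℝ) < j + 1 := by positivity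
  rw [div_div, div_le_iff₀ (by positivity), sum_mul]
  refine hj.le.trans (sum_le_sum fun p hp => ?_)
  obtain ⟨hp1, hp2⟩ := mem_blk (mem_filter.1 hp).1
  have hp0 : (0 : ℝ) < p := (Real.exp_pos _).trans hp1
  have hl : Real.log p ≤ (j + 1) * h := (Real.log_le_iff_le_exp hp0).2 hp2
  have hK : Real.exp ((j + 1) * h) = Real.exp h * Real.exp (j * h) := by
    rw [← Real.exp_add]; congr 1; ring
  rw [div_le_iff₀ (Real.exp_pos _), one_div, mul_assoc, ← div_eq_inv_mul, le_div_iff₀ hp0]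
  calc Real.log p * p ≤ ((j + 1) * h) * Real.exp ((j + 1) * h) :=
        mul_le_mul hl hp2 hp0.le (by positivity)
    _ = h * Real.exp h * (j + 1) * Real.exp (j * h) := by rw [hK]; ring

lemma cos_blk {h t : ℝ} (hh : 0 < h) (ht : |t| * h ≤ 1 / 4) {j n : ℕ}
    (hn : n ∈ Ioc (u h j) (u h (j + 1))) :
    Real.cos (t * (j * h)) - 1 / 4 ≤ Real.cos (t * Real.log n) := by
  obtain ⟨hp1, hp2⟩ := mem_blk hn
  have hp0 : (0 : ℝ) < n := (Real.exp_pos _).trans hp1
  have hl : Real.log n ≤ (j + 1) * h := (Real.log_le_iff_le_exp hp0).2 hp2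
  have hl' : j * h < Real.log n := (Real.lt_log_iff_exp_lt hp0).2 hp1
  have h1 := Real.abs_cos_sub_cos_le (t * (j * h)) (t * Real.log n)
  rw [← mul_sub, abs_mul] at h1
  have h2 : |j * h - Real.log n| ≤ h := by rw [abs_le]; constructor <;> linarith
  have h3 := mul_le_mul_of_nonneg_left h2 (abs_nonneg t)
  linarith [le_abs_self (Real.cos (t * (j * h)) - Real.cos (t * Real.log n))]

lemma cos_or (x : ℝ) : -1 / 2 ≤ Real.cos x ∨ -1 / 2 ≤ Real.cos (2 * x) := by
  rcases le_or_gt (-1 / 2) (Real.cos x) with h | h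
  · exact Or.inl h
  · right; rw [Real.cos_two_mul]; nlinarith

end APDivAux

open APDivAux in
/-- The primes of a progression do not pretend to be `-n^{it}`, uniformly for bounded `t`. -/
theorem ap_div {q a : ℕ} (hq : 0 < q) (ha : a.Coprime q) (T Λ : ℝ) : ∀ᶠ x : ℝ in atTop,
    ∀ t : ℝ, |t| ≤ T → Λ ≤ ∑ p ∈ (range (⌊Real.exp x⌋₊ + 1)).filter
      (fun p => p.Prime ∧ p ≡ a [MOD q]), (1 + Real.cos (t * Real.log p)) / p := by
  set h : ℝ := 1 / (4 * (|T| + 1)) with hhd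
  have hh : 0 < h := by positivity
  obtain ⟨c, hc, hev⟩ := blk_mass hq ha hh
  obtain ⟨j₀, hj₀⟩ := eventually_atTop.1 hev
  have hdiv : Tendsto (fun M : ℕ => c / 8 * (∑ j ∈ range M, (1 : ℝ) / (j + 1) -
      ∑ j ∈ range j₀, (1 : ℝ) / (j + 1))) atTop atTop :=
    Tendsto.const_mul_atTop (by positivity)
      (tendsto_atTop_add_const_right _ _ Real.tendsto_sum_range_one_div_nat_succ_atTop)
  obtain ⟨M, hM, hMj⟩ := ((hdiv.eventually_ge_atTop (2 * Λ)).and (eventually_ge_atTop j₀)).exists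
  filter_upwards [eventually_ge_atTop (((2 * M : ℕ) : ℝ) * h)] with x hx t ht
  have hth : |t| * h ≤ 1 / 4 := by
    have h1 : |t| ≤ |T| + 1 := by linarith [le_abs_self T]
    calc |t| * h ≤ (|T| + 1) * h := mul_le_mul_of_nonneg_right h1 hh.le
      _ = 1 / 4 := by rw [hhd]; field_simp
  have hw : ∀ p : ℕ, 0 ≤ (1 + Real.cos (t * Real.log p)) / p := fun p =>
    div_nonneg (by linarith [Real.neg_one_le_cos (t * Real.log p)]) (Nat.cast_nonneg p)
  set W : ℕ → ℝ := fun j => ∑ p ∈ (Ioc (u h j) (u h (j + 1))).filter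
    (fun p => p.Prime ∧ p ≡ a [MOD q]), (1 + Real.cos (t * Real.log p)) / p with hW
  have hW0 : ∀ j, 0 ≤ W j := fun j => sum_nonneg fun p _ => hw p
  have hWl : ∀ j, j₀ ≤ j → -1 / 2 ≤ Real.cos (t * (j * h)) → c / 4 / (j + 1) ≤ W j := by
    intro j hj hcos
    calc c / 4 / (j + 1) = 1 / 4 * (c / (j + 1)) := by ring
      _ ≤ 1 / 4 * ∑ p ∈ (Ioc (u h j) (u h (j + 1))).filter (fun p => p.Prime ∧ p ≡ a [MOD q]),
          (1 : ℝ) / p := by linarith [hj₀ j hj]
      _ ≤ W j := by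
          rw [mul_sum]
          refine sum_le_sum fun p hp => ?_
          have := cos_blk hh hth (mem_filter.1 hp).1
          rw [mul_one_div]
          exact div_le_div_of_nonneg_right (by linarith) (Nat.cast_nonneg p)
  have hpair : ∀ j, j₀ ≤ j → c / 8 * (1 / (j + 1)) ≤ W j + W (2 * j) := by
    intro j hj
    have hj1 : (0 : ℝ) < j + 1 := by positivity
    rcases cos_or (t * (j * h)) with h1 | h1
    · have h2 := hWl j hj h1
      have h3 : c / 8 * (1 / (j + 1)) ≤ c / 4 / (j + 1) := by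
        rw [mul_one_div]; exact div_le_div_of_nonneg_right (by linarith) hj1.le
      linarith [hW0 (2 * j)]
    · have h2 := hWl (2 * j) (by omega) (by
        rwa [show t * (((2 * j : ℕ) : ℝ) * h) = 2 * (t * (j * h)) by push_cast; ring])
      have h3 : c / 8 * (1 / (j + 1)) ≤ c / 4 / (((2 * j : ℕ) : ℝ) + 1) := by
        rw [mul_one_div, div_le_div_iff₀ hj1 (by positivity)]
        push_cast; nlinarith
      linarith [hW0 j]
  have hA : ∑ j ∈ Ico j₀ M, W j ≤ ∑ j ∈ range (2 * M), W j :=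
    sum_le_sum_of_subset_of_nonneg
      (fun j hj => mem_range.2 (by have := (mem_Ico.1 hj).2; omega)) fun j _ _ => hW0 j
  have hB : ∑ j ∈ Ico j₀ M, W (2 * j) ≤ ∑ j ∈ range (2 * M), W j := by
    rw [← sum_image (s := Ico j₀ M) (g := fun j => 2 * j) (f := W)
      fun i _ j _ hij => by simpa using hij]
    refine sum_le_sum_of_subset_of_nonneg (fun j hj => ?_) fun j _ _ => hW0 j
    obtain ⟨i, hi, rfl⟩ := mem_image.1 hj
    exact mem_range.2 (by have := (mem_Ico.1 hi).2; omega)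
  have hC : 2 * Λ ≤ ∑ j ∈ Ico j₀ M, W j + ∑ j ∈ Ico j₀ M, W (2 * j) := by
    rw [← sum_Ico_eq_sub _ hMj, mul_sum] at hM
    rw [← sum_add_distrib]
    exact hM.trans (sum_le_sum fun j hj => hpair j (mem_Ico.1 hj).1)
  have hD : ∑ j ∈ range (2 * M), W j ≤ ∑ p ∈ (range (⌊Real.exp x⌋₊ + 1)).filter
      (fun p => p.Prime ∧ p ≡ a [MOD q]), (1 + Real.cos (t * Real.log p)) / p := by
    simp only [hW, sum_filter]
    rw [sum_blocks hh]
    refine sum_le_sum_of_subset_of_nonneg (fun n hn => ?_) fun n _ _ => ?_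
    · have h1 : u h (2 * M) ≤ ⌊Real.exp x⌋₊ := Nat.floor_le_floor (Real.exp_le_exp.2 hx)
      exact mem_range.2 (by have := (mem_Ioc.1 hn).2; omega)
    · split_ifs
      · exact hw n
      · exact le_rfl
  linarith

end Pool.Agent.P.MP_a1177c_nt.LC
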