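import Pool.Agent.P.MP_a1177c_nt.LC.Mom4

namespace Pool.Agent.P.MP_a1177c_nt.LC

open Finset Filter MR MR.StructAux
open scoped ComplexConjugate Topology

namespace CellAux

/-- The number of solutions of a linear congruence. -/
lemma card_sol_le {D m₁ m₂ : ℕ} (hD : 0 < D) :
    ((range D).filter fun l => m₂ ≡ l * m₁ [MOD D]).card ≤ Nat.gcd m₁ D := by
  set g := Nat.gcd m₁ D with hg
  have hgpos : 0 < g := Nat.gcd_pos_of_pos_right _ hD
  obtain ⟨D', hD'⟩ : g ∣ D := Nat.gcd_dvd_right _ _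
  have hD'pos : 0 < D' := Nat.pos_of_mul_pos_left (hD' ▸ hD)
  rw [← card_range g]
  refine card_le_card_of_injOn (fun l => l / D') ?_ ?_
  · intro l hl
    have h1 := mem_range.1 (mem_filter.1 (mem_coe.1 hl)).1
    simp only [coe_range, Set.mem_Iio]
    rw [Nat.div_lt_iff_lt_mul hD'pos, ← hD']; exact h1
  · intro l hl l' hl' h
    have h1 := (mem_filter.1 (mem_coe.1 hl)).2
    have h2 := (mem_filter.1 (mem_coe.1 hl')).2
    have h3 : l * m₁ ≡ l' * m₁ [MOD D] := h1.symm.trans h2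
    have h4 := Nat.ModEq.cancel_right_div_gcd hD h3
    rw [Nat.gcd_comm, ← hg, hD', Nat.mul_div_cancel_left _ hgpos] at h4
    have h5 : l / D' = l' / D' := h
    rw [← Nat.div_add_mod l D', ← Nat.div_add_mod l' D', h5, h4]

/-- The number of pairs `(D, l)` attached to a pair `(m₁, m₂)`. -/
lemma count_le (X n m₁ m₂ : ℕ) (h0 : 0 < m₁) (hn : m₁ ≤ n) :
    ∑ D ∈ Icc 1 X, ∑ l ∈ (range D).filter (fun l => l.Coprime D),
      (if m₂ ≡ l * m₁ [MOD D] ∧ ¬ m₁.Coprime D then (1 : ℝ) else 0) ≤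
      X * ∑ g ∈ Icc 2 n, if g ∣ m₁ ∧ g ∣ m₂ then (1 : ℝ) else 0 := by
  have h1 : ∀ D ∈ Icc 1 X, ∑ l ∈ (range D).filter (fun l => l.Coprime D),
      (if m₂ ≡ l * m₁ [MOD D] ∧ ¬ m₁.Coprime D then (1 : ℝ) else 0) ≤
      ∑ g ∈ Icc 2 n, if g ∣ m₁ ∧ g ∣ m₂ then (if g ∣ D then (g : ℝ) else 0) else 0 := by
    intro D hD
    have hD0 : 0 < D := (mem_Icc.1 hD).1
    have hnn : ∀ g ∈ Icc 2 n,
        0 ≤ if g ∣ m₁ ∧ g ∣ m₂ then (if g ∣ D then (g : ℝ) else 0) else 0 := by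
      intro g _; split_ifs <;> positivity
    by_cases hex : ∃ l, m₂ ≡ l * m₁ [MOD D] ∧ ¬ m₁.Coprime D
    · obtain ⟨l, hl, hc⟩ := hex
      have hg1 : Nat.gcd m₁ D ∣ m₁ := Nat.gcd_dvd_left _ _
      have hg2 : Nat.gcd m₁ D ∣ D := Nat.gcd_dvd_right _ _
      have hg3 : Nat.gcd m₁ D ∣ m₂ :=
        ((hl.of_dvd hg2).dvd_iff dvd_rfl).2 (hg1.mul_left _)
      have hgpos : 0 < Nat.gcd m₁ D := Nat.gcd_pos_of_pos_right _ hD0
      have hmem : Nat.gcd m₁ D ∈ Icc 2 n := by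
        refine mem_Icc.2 ⟨?_, (Nat.le_of_dvd h0 hg1).trans hn⟩
        have : Nat.gcd m₁ D ≠ 1 := hc
        omega
      refine le_trans ?_ (single_le_sum hnn hmem)
      rw [if_pos ⟨hg1, hg3⟩, if_pos hg2, sum_boole]
      have : (((range D).filter (fun l => l.Coprime D)).filter
          fun l => m₂ ≡ l * m₁ [MOD D] ∧ ¬ m₁.Coprime D).card ≤ Nat.gcd m₁ D := by
        refine le_trans (card_le_card fun x hx => ?_) (card_sol_le (m₂ := m₂) hD0)
        simp only [mem_filter] at hx ⊢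
        exact ⟨hx.1.1, hx.2.1⟩
      exact_mod_cast this
    · rw [sum_eq_zero fun l _ => if_neg fun h => hex ⟨l, h⟩]
      exact sum_nonneg hnn
  refine (sum_le_sum h1).trans ?_
  rw [sum_comm, mul_sum]
  refine sum_le_sum fun g hg => ?_
  have hg0 : 0 < g := by have := (mem_Icc.1 hg).1; omega
  split_ifs with h
  · rw [← sum_filter, sum_const, nsmul_eq_mul, mul_one]
    have h2 : ((Icc 1 X).filter fun D => g ∣ D).card = X / g := by
      rw [← Nat.Ioc_filter_dvd_card_eq_div]; rfl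
    rw [h2]
    exact_mod_cast Nat.div_mul_le_self X g
  · simp

lemma lt_of_coprime {w g : ℕ} (hg : 2 ≤ g) (h : g.Coprime (4 * WW w)) : w < g := by
  by_contra hc
  have hp : (g.minFac).Prime := Nat.minFac_prime (by omega)
  have h1 : g.minFac ∣ g := Nat.minFac_dvd g
  have h2 : g.minFac ≤ w := (Nat.minFac_le (by omega)).trans (by omega)
  have h3 : g.minFac ∣ 4 * WW w := by
    by_cases h4 : g.minFac = 2
    · rw [h4]; exact Dvd.dvd.mul_right (by norm_num) _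
    · refine Dvd.dvd.mul_left ?_ _
      refine dvd_prod_of_mem (fun p : ℕ => p) (mem_filter.2 ⟨mem_Icc.2 ⟨?_, h2⟩, hp⟩)
      have := hp.two_le
      omega
  exact hp.one_lt.ne' (Nat.eq_one_of_dvd_coprimes h h1 h3)

/-- The mass of the multiples of `g`. -/
lemma mass_dvd_le (w P g : ℕ) (hP : 1 ≤ P) (a b : ℝ) (ha : 1 ≤ a) (hg : 2 ≤ g) :
    ∑ m ∈ range (2 * P + 1), (if g ∣ m then cp (4 * WW w) a b P m else 0) ≤
      Real.log (2 * P) + (if w < g then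
        (((4 * WW w : ℕ) : ℝ) / (4 * WW w).totient) * (2 * P / g) else 0) := by
  have hP' : (1 : ℝ) ≤ P := by exact_mod_cast hP
  have hL : 0 ≤ Real.log (2 * P) := Real.log_nonneg (by linarith)
  have e : ∀ m : ℕ, (if g ∣ m then cp (4 * WW w) a b P m else 0) =
      (if g ∣ m then c1 a b P m else 0) + (if g ∣ m then c2 (4 * WW w) a b P m else 0) := by
    intro m; split_ifs <;> simp [cp]
  simp only [e, sum_add_distrib]
  refine add_le_add ?_ ?_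
  · have : ∀ m ∈ range (2 * P + 1), (if g ∣ m then c1 a b P m else 0) ≤
        if m = g then Real.log (2 * P) else 0 := by
      intro m hm
      have hm' : m ≤ 2 * P := Nat.lt_succ_iff.1 (mem_range.1 hm)
      by_cases h1 : g ∣ m
      · rw [if_pos h1, c1]
        split_ifs with h2 h3 h3
        · have : (0 : ℝ) < ((m : ℤ) : ℝ) := by have := h2.1; nlinarith
          refine Real.log_le_log this ?_
          exact_mod_cast hm'
        · exfalso
          have hp : m.Prime := by simpa using h2.2.2.1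
          rcases (Nat.dvd_prime hp).1 h1 with h | h
          · omega
          · exact h3 h.symm
        · exact hL
        · exact le_rfl
      · rw [if_neg h1]; split_ifs
        · exact hL
        · exact le_rfl
    refine (sum_le_sum this).trans ?_
    rw [sum_ite_eq']
    split_ifs
    · exact le_rfl
    · exact hL
  · set κ : ℝ := ((4 * WW w : ℕ) : ℝ) / (4 * WW w).totient with hκ
    have hκ0 : 0 ≤ κ := by positivity
    have : ∀ m ∈ range (2 * P + 1), (if g ∣ m then c2 (4 * WW w) a b P m else 0) ≤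
        if w < g then (if m ≠ 0 ∧ g ∣ m then κ else 0) else 0 := by
      intro m _
      by_cases h1 : g ∣ m
      · rw [if_pos h1, c2]
        by_cases h2 : a * P < ((m : ℤ) : ℝ) ∧ (((m : ℤ) : ℝ)) ≤ b * P ∧
            Int.gcd m (4 * WW w : ℕ) = 1 ∧ (m : ℤ) % 4 = 1
        · rw [if_pos h2]
          have h3 : m.Coprime (4 * WW w) := by
            have := h2.2.2.1
            rwa [Int.gcd_natCast_natCast] at this
          have h4 : m ≠ 0 := by have := h2.2.2.2; omega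
          rw [if_pos (lt_of_coprime hg (h3.coprime_dvd_left h1)), if_pos ⟨h4, h1⟩]
        · rw [if_neg h2]; split_ifs <;> positivity
      · rw [if_neg h1]; split_ifs <;> positivity
    refine (sum_le_sum this).trans ?_
    split_ifs with h
    · rw [← sum_filter, sum_const, nsmul_eq_mul, Nat.card_multiples', mul_comm]
      refine mul_le_mul_of_nonneg_left ?_ hκ0
      have := @Nat.cast_div_le ℝ _ _ _ (2 * P) g
      simpa using this
    · simp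

lemma sum_inv_sq_le (w n : ℕ) (hw : 1 ≤ w) :
    ∑ g ∈ Icc 2 n, (if w < g then 1 / (g : ℝ) ^ 2 else (0 : ℝ)) ≤ (1 : ℝ) / w := by
  rw [← sum_filter]
  have h1 : (Icc 2 n).filter (fun g => w < g) ⊆ Ioc w (max n w) := by
    intro g hg
    simp only [mem_filter, mem_Icc, mem_Ioc] at hg ⊢
    exact ⟨hg.2, hg.1.2.trans (le_max_left _ _)⟩
  refine (sum_le_sum_of_subset_of_nonneg h1 fun _ _ _ => by positivity).trans ?_
  have h2 := sum_Ioc_inv_sq_le_sub (α := ℝ) (k := w) (n := max n w) (by omega) (le_max_right _ _)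
  simp only [one_div]
  have h3 : (0 : ℝ) ≤ ((max n w : ℕ) : ℝ)⁻¹ := by positivity
  linarith

lemma noncop_le (w P X : ℕ) (hw : 1 ≤ w) (hP : 1 ≤ P) (a b a' b' : ℝ) (ha : 1 ≤ a)
    (ha' : 1 ≤ a') :
    ∑ D ∈ Icc 1 X, ∑ l ∈ (range D).filter (fun l => l.Coprime D),
      ∑ m₁ ∈ range (2 * P + 1), ∑ m₂ ∈ range (2 * P + 1),
        (if m₂ ≡ l * m₁ [MOD D] ∧ ¬ m₁.Coprime D then
          cp (4 * WW w) a b P m₁ * cp (4 * WW w) a' b' P m₂ else 0) ≤
      X * (4 * P * Real.log (2 * P) ^ 2 +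
        8 * ((((4 * WW w : ℕ) : ℝ) / (4 * WW w).totient) ^ 2 / w) * (P : ℝ) ^ 2) := by
  have hP' : (1 : ℝ) ≤ P := by exact_mod_cast hP
  set κ : ℝ := ((4 * WW w : ℕ) : ℝ) / (4 * WW w).totient with hκ
  set A : ℕ → ℝ := fun m => cp (4 * WW w) a b P m with hA
  set B : ℕ → ℝ := fun m => cp (4 * WW w) a' b' P m with hB
  have hA0 : ∀ m, 0 ≤ A m := fun m => cp_nonneg _ _ _ _ _
  have hB0 : ∀ m, 0 ≤ B m := fun m => cp_nonneg _ _ _ _ _
  have e1 : ∑ D ∈ Icc 1 X, ∑ l ∈ (range D).filter (fun l => l.Coprime D),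
      ∑ m₁ ∈ range (2 * P + 1), ∑ m₂ ∈ range (2 * P + 1),
        (if m₂ ≡ l * m₁ [MOD D] ∧ ¬ m₁.Coprime D then A m₁ * B m₂ else 0) =
      ∑ m₁ ∈ range (2 * P + 1), ∑ m₂ ∈ range (2 * P + 1), A m₁ * B m₂ *
        ∑ D ∈ Icc 1 X, ∑ l ∈ (range D).filter (fun l => l.Coprime D),
          (if m₂ ≡ l * m₁ [MOD D] ∧ ¬ m₁.Coprime D then (1 : ℝ) else 0) := by
    simp only [mul_sum, mul_ite, mul_one, mul_zero]
    symm
    simp only [sum_comm (s := range (2 * P + 1)) (t := Icc 1 X)]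
    refine sum_congr rfl fun D _ => ?_
    simp only [sum_comm (s := range (2 * P + 1))
      (t := (range D).filter (fun l => l.Coprime D))]
  refine e1.trans_le ?_
  have e2 : ∀ m₁ ∈ range (2 * P + 1), ∀ m₂ ∈ range (2 * P + 1), A m₁ * B m₂ *
        ∑ D ∈ Icc 1 X, ∑ l ∈ (range D).filter (fun l => l.Coprime D),
          (if m₂ ≡ l * m₁ [MOD D] ∧ ¬ m₁.Coprime D then (1 : ℝ) else 0) ≤
      X * ∑ g ∈ Icc 2 (2 * P), (if g ∣ m₁ then A m₁ else 0) * (if g ∣ m₂ then B m₂ else 0) := by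
    intro m₁ hm₁ m₂ _
    by_cases h0 : A m₁ = 0
    · simp [h0]
    have h1 : 0 < m₁ := by
      have := (support_cp h0).1
      have h2 : (0 : ℝ) < ((m₁ : ℤ) : ℝ) := by nlinarith
      exact_mod_cast h2
    refine (mul_le_mul_of_nonneg_left
      (count_le X (2 * P) m₁ m₂ h1 (Nat.lt_succ_iff.1 (mem_range.1 hm₁)))
      (mul_nonneg (hA0 _) (hB0 _))).trans_eq ?_
    rw [mul_left_comm, mul_sum]
    congr 1
    refine sum_congr rfl fun g _ => ?_
    by_cases h2 : g ∣ m₁ <;> by_cases h3 : g ∣ m₂ <;> simp [h2, h3]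
  refine (sum_le_sum fun m₁ h₁ => sum_le_sum fun m₂ h₂ => e2 m₁ h₁ m₂ h₂).trans ?_
  simp only [← mul_sum]
  refine mul_le_mul_of_nonneg_left ?_ (Nat.cast_nonneg X)
  have e3 : ∑ m₁ ∈ range (2 * P + 1), ∑ m₂ ∈ range (2 * P + 1), ∑ g ∈ Icc 2 (2 * P),
      (if g ∣ m₁ then A m₁ else 0) * (if g ∣ m₂ then B m₂ else 0) =
      ∑ g ∈ Icc 2 (2 * P), (∑ m₁ ∈ range (2 * P + 1), if g ∣ m₁ then A m₁ else 0) *
        ∑ m₂ ∈ range (2 * P + 1), if g ∣ m₂ then B m₂ else 0 := by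
    simp only [sum_mul_sum, sum_comm (s := range (2 * P + 1)) (t := Icc 2 (2 * P))]
  rw [e3]
  have e4 : ∀ g ∈ Icc 2 (2 * P), (∑ m₁ ∈ range (2 * P + 1), if g ∣ m₁ then A m₁ else 0) *
        (∑ m₂ ∈ range (2 * P + 1), if g ∣ m₂ then B m₂ else 0) ≤
      2 * Real.log (2 * P) ^ 2 +
        8 * κ ^ 2 * (P : ℝ) ^ 2 * (if w < g then 1 / (g : ℝ) ^ 2 else 0) := by
    intro g hg
    have hg2 := (mem_Icc.1 hg).1
    have h1 := mass_dvd_le w P g hP a b ha hg2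
    have h2 := mass_dvd_le w P g hP a' b' ha' hg2
    have h3 : 0 ≤ ∑ m₁ ∈ range (2 * P + 1), if g ∣ m₁ then A m₁ else 0 :=
      sum_nonneg fun m _ => by split_ifs; exacts [hA0 m, le_rfl]
    have h4 : 0 ≤ ∑ m₁ ∈ range (2 * P + 1), if g ∣ m₁ then B m₁ else 0 :=
      sum_nonneg fun m _ => by split_ifs; exacts [hB0 m, le_rfl]
    refine (mul_le_mul h1 h2 h4 (h3.trans h1)).trans ?_
    rw [← hκ]
    split_ifs
    · have : 8 * κ ^ 2 * (P : ℝ) ^ 2 * (1 / (g : ℝ) ^ 2) = 2 * (κ * (2 * P / g)) ^ 2 := by ring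
      rw [this]
      nlinarith [sq_nonneg (Real.log (2 * P) - κ * (2 * P / g))]
    · nlinarith [sq_nonneg (Real.log (2 * P))]
  refine (sum_le_sum e4).trans ?_
  rw [sum_add_distrib, sum_const, ← mul_sum, nsmul_eq_mul, Nat.card_Icc]
  have h5 := sum_inv_sq_le w (2 * P) hw
  have h6 : ((2 * P + 1 - 2 : ℕ) : ℝ) ≤ 2 * P := by exact_mod_cast (by omega)
  have h7 : 0 ≤ 8 * κ ^ 2 * (P : ℝ) ^ 2 := by positivity
  have h8 := mul_le_mul_of_nonneg_left h5 h7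
  have h9 := mul_le_mul_of_nonneg_right h6 (by positivity : 0 ≤ 2 * Real.log (2 * P) ^ 2)
  have h10 : 8 * κ ^ 2 * (P : ℝ) ^ 2 * (1 / w) = 8 * (κ ^ 2 / w) * (P : ℝ) ^ 2 := by ring
  linarith

lemma log_sq_small {δ : ℝ} (hδ : 0 < δ) :
    ∀ᶠ P : ℕ in atTop, Real.log (2 * P) ^ 2 ≤ δ * P := by
  have h1 := (Real.isLittleO_pow_log_id_atTop (n := 2)).bound (c := δ / 2) (by positivity)
  have h2 : Tendsto (fun P : ℕ => 2 * (P : ℝ)) atTop atTop :=
    tendsto_natCast_atTop_atTop.const_mul_atTop (by norm_num)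
  filter_upwards [h2.eventually h1] with P hP
  simp only [id, Real.norm_eq_abs] at hP
  rw [abs_of_nonneg (by positivity), abs_of_nonneg (by positivity)] at hP
  linarith

/-- Orthogonality: the mean square over the slopes. -/
lemma mean_sq (D : ℕ) (hD : 0 < D) (s : Finset ℕ) (A B : ℕ → ℝ) :
    ∑ l ∈ (range D).filter (fun l => l.Coprime D),
      (∑ m₁ ∈ s, ∑ m₂ ∈ s,
        if m₂ ≡ l * m₁ [MOD D] ∧ m₁.Coprime D then A m₁ * B m₂ else 0) ^ 2 ≤
      ((1 / (D.totient : ℝ)) * ∑ χ : DirichletCharacter ℂ D, ‖∑ m ∈ s, (A m : ℂ) * χ m‖ ^ 4 +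
       (1 / (D.totient : ℝ)) * ∑ χ : DirichletCharacter ℂ D, ‖∑ m ∈ s, (B m : ℂ) * χ m‖ ^ 4)
        / 2 := by
  classical
  have : NeZero D := ⟨hD.ne'⟩
  set W : ZMod D → ℝ := fun u => ∑ m₁ ∈ s, ∑ m₂ ∈ s,
    if (m₂ : ZMod D) = u * m₁ ∧ IsUnit (m₁ : ZMod D) then A m₁ * B m₂ else 0 with hW
  set U : Finset (ZMod D) := univ.filter IsUnit with hU
  have h1 : ∑ l ∈ (range D).filter (fun l => l.Coprime D),
      (∑ m₁ ∈ s, ∑ m₂ ∈ s,
        if m₂ ≡ l * m₁ [MOD D] ∧ m₁.Coprime D then A m₁ * B m₂ else 0) ^ 2 ≤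
      ∑ u ∈ U, W u ^ 2 := by
    have e : ∀ l : ℕ, (∑ m₁ ∈ s, ∑ m₂ ∈ s,
        if m₂ ≡ l * m₁ [MOD D] ∧ m₁.Coprime D then A m₁ * B m₂ else 0) = W l := by
      intro l
      refine sum_congr rfl fun m₁ _ => sum_congr rfl fun m₂ _ => if_congr ?_ rfl rfl
      rw [← ZMod.natCast_eq_natCast_iff, ZMod.isUnit_iff_coprime, Nat.cast_mul]
    simp only [e]
    rw [← sum_image (f := fun u => W u ^ 2) (g := fun l : ℕ => (l : ZMod D))]
    · refine sum_le_sum_of_subset_of_nonneg ?_ fun _ _ _ => sq_nonneg _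
      intro u hu
      obtain ⟨l, hl, rfl⟩ := mem_image.1 hu
      exact mem_filter.2 ⟨mem_univ _, (ZMod.isUnit_iff_coprime _ _).2 (mem_filter.1 hl).2⟩
    · intro l hl l' hl' h
      have h2 := mem_range.1 (mem_filter.1 (mem_coe.1 hl)).1
      have h3 := mem_range.1 (mem_filter.1 (mem_coe.1 hl')).1
      exact Nat.ModEq.eq_of_lt_of_lt ((ZMod.natCast_eq_natCast_iff _ _ _).1 h) h2 h3
  refine h1.trans ?_
  have h2 := Lib.LargeSieve.orth_inj D U (fun u hu => (mem_filter.1 hu).2) fun u => (W u : ℂ)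
  have h3 : ∀ χ : DirichletCharacter ℂ D, ∑ u ∈ U, (W u : ℂ) * χ u =
      conj (∑ m ∈ s, (A m : ℂ) * χ m) * ∑ m ∈ s, (B m : ℂ) * χ m := by
    intro χ
    rw [map_sum, sum_mul_sum]
    simp only [hW, map_mul, Complex.conj_ofReal, Complex.ofReal_sum, sum_mul]
    rw [sum_comm]
    refine sum_congr rfl fun m₁ _ => ?_
    rw [sum_comm]
    refine sum_congr rfl fun m₂ _ => ?_
    by_cases hu : IsUnit (m₁ : ZMod D)
    · have e : ∀ u : ZMod D, ((m₂ : ZMod D) = u * m₁ ∧ IsUnit (m₁ : ZMod D)) ↔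
          u = m₂ * (m₁ : ZMod D)⁻¹ := by
        intro u
        constructor
        · rintro ⟨h, -⟩
          rw [h, mul_assoc, ZMod.mul_inv_of_unit _ hu, mul_one]
        · rintro rfl
          exact ⟨by rw [mul_assoc, ZMod.inv_mul_of_unit _ hu, mul_one], hu⟩
      simp only [e, apply_ite ((↑) : ℝ → ℂ), Complex.ofReal_zero, ite_mul, zero_mul]
      rw [sum_ite_eq', Lib.LargeSieve.conj_apply χ hu]
      have e2 : ((A m₁ * B m₂ : ℝ) : ℂ) * χ (m₂ * (m₁ : ZMod D)⁻¹) =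
          A m₁ * χ (m₁ : ZMod D)⁻¹ * (B m₂ * χ m₂) := by
        rw [map_mul]; push_cast; ring
      rw [← e2]
      split_ifs with h
      · rfl
      · rw [χ.map_nonunit fun h' => h (mem_filter.2 ⟨mem_univ _, h'⟩), mul_zero]
    · simp [hu, χ.map_nonunit hu]
  simp only [h3, norm_mul, Complex.norm_conj, Complex.norm_real, Real.norm_eq_abs, sq_abs] at h2
  have hφ : (0 : ℝ) < D.totient := by exact_mod_cast Nat.totient_pos.2 hD
  have h4 : ∑ u ∈ U, W u ^ 2 = (1 / (D.totient : ℝ)) * ∑ χ : DirichletCharacter ℂ D,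
      (‖∑ m ∈ s, (A m : ℂ) * χ m‖ * ‖∑ m ∈ s, (B m : ℂ) * χ m‖) ^ 2 := by
    rw [h2]; field_simp
  rw [h4, ← mul_add, mul_div_assoc, ← sum_add_distrib, sum_div]
  refine mul_le_mul_of_nonneg_left (sum_le_sum fun χ _ => ?_) (by positivity)
  nlinarith [sq_nonneg (‖∑ m ∈ s, (A m : ℂ) * χ m‖ ^ 2 - ‖∑ m ∈ s, (B m : ℂ) * χ m‖ ^ 2)]

end CellAux

open CellAux

/-- The terms that are not prime to the modulus. -/
theorem noncop {K ε : ℝ} (hK : 1 ≤ K) (hε : 0 < ε) : ∀ᶠ w : ℕ in atTop, ∀ᶠ P : ℕ in atTop,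
    ∀ a b a' b' : ℝ, 1 ≤ a → b ≤ 2 → 1 ≤ a' → b' ≤ 2 →
    ∑ D ∈ Icc 1 ⌊K * P⌋₊, ∑ l ∈ (range D).filter (fun l => l.Coprime D),
      ∑ m₁ ∈ range (2 * P + 1), ∑ m₂ ∈ range (2 * P + 1),
        (if m₂ ≡ l * m₁ [MOD D] ∧ ¬ m₁.Coprime D then
          cp (4 * WW w) a b P m₁ * cp (4 * WW w) a' b' P m₂ else 0) ≤ ε * (P : ℝ) ^ 3 := by
  have hK0 : 0 < K := by linarith
  filter_upwards [kappa_tendsto.eventually (ge_mem_nhds (show (0 : ℝ) < ε / (16 * K) by positivity)),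
    eventually_ge_atTop 1] with w hw hw1
  filter_upwards [log_sq_small (δ := ε / (8 * K)) (by positivity), eventually_ge_atTop 1]
    with P hP hP1 a b a' b' ha _ ha' _
  refine (noncop_le w P _ hw1 hP1 a b a' b' ha ha').trans ?_
  have hP0 : (0 : ℝ) ≤ P := Nat.cast_nonneg P
  have h1 : (⌊K * P⌋₊ : ℝ) ≤ K * P := Nat.floor_le (by positivity)
  have h2 := mul_le_mul_of_nonneg_left hP (by positivity : (0 : ℝ) ≤ 4 * P)
  have h3 := mul_le_mul_of_nonneg_left hw (by positivity : (0 : ℝ) ≤ 8 * (P : ℝ) ^ 2)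
  calc _ ≤ K * P * (4 * P * (ε / (8 * K) * P) + 8 * (P : ℝ) ^ 2 * (ε / (16 * K))) := by
        refine mul_le_mul h1 (by linarith) (by positivity) (by positivity)
    _ = ε * (P : ℝ) ^ 3 := by field_simp; ring

/-- Primes minus model is small along almost all lattices. -/
theorem cell {K η ε : ℝ} (hK : 1 ≤ K) (hη : 0 < η) (hε : 0 < ε) : ∀ᶠ w : ℕ in atTop,
    ∀ a b a' b' : ℝ, 1 ≤ a → a ≤ b → b ≤ 2 → 1 ≤ a' → a' ≤ b' → b' ≤ 2 → ∀ᶠ P : ℕ in atTop,
    ∑ D ∈ Ioc ⌊η * P⌋₊ ⌊K * P⌋₊, ∑ l ∈ (range D).filter (fun l => l.Coprime D),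
      |∑ m₁ ∈ range (2 * P + 1), ∑ m₂ ∈ range (2 * P + 1),
        if m₂ ≡ l * m₁ [MOD D] then cb (4 * WW w) a b P m₁ * cb (4 * WW w) a' b' P m₂ else 0| ≤
      ε * (P : ℝ) ^ 3 := by
  have hK0 : 0 < K := by linarith
  set δ : ℝ := ε / (2 * K ^ 2) with hδ
  have hδ0 : 0 < δ := by positivity
  filter_upwards [noncop hK (half_pos hε), mom4 (ε := ε * δ / 2) hK hη (by positivity)]
    with w hw1 hw2 a b a' b' ha hab hb ha' hab' hb'
  filter_upwards [hw1, hw2 a b ha hab hb, hw2 a' b' ha' hab' hb', eventually_ge_atTop 1]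
    with P h1 h2 h3 hP1
  replace h1 := h1 a b a' b' ha hb ha' hb'
  have hP0 : (0 : ℝ) < P := by exact_mod_cast hP1
  set s := range (2 * P + 1) with hs
  set A : ℕ → ℝ := fun m => cb (4 * WW w) a b P m with hA
  set B : ℕ → ℝ := fun m => cb (4 * WW w) a' b' P m with hB
  set T₁ : ℕ → ℕ → ℝ := fun D l => ∑ m₁ ∈ s, ∑ m₂ ∈ s,
    if m₂ ≡ l * m₁ [MOD D] ∧ m₁.Coprime D then A m₁ * B m₂ else 0 with hT₁
  set T₂ : ℕ → ℕ → ℝ := fun D l => ∑ m₁ ∈ s, ∑ m₂ ∈ s,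
    if m₂ ≡ l * m₁ [MOD D] ∧ ¬ m₁.Coprime D then
      cp (4 * WW w) a b P m₁ * cp (4 * WW w) a' b' P m₂ else 0 with hT₂
  have hT₂0 : ∀ D l, 0 ≤ T₂ D l := fun D l => sum_nonneg fun _ _ => sum_nonneg fun _ _ => by
    split_ifs
    · exact mul_nonneg (cp_nonneg _ _ _ _ _) (cp_nonneg _ _ _ _ _)
    · exact le_rfl
  have e1 : ∀ D l : ℕ, |∑ m₁ ∈ s, ∑ m₂ ∈ s, if m₂ ≡ l * m₁ [MOD D] then A m₁ * B m₂ else 0| ≤
      (δ * P / 2 + T₁ D l ^ 2 / (2 * δ * P)) + T₂ D l := by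
    intro D l
    have e : (∑ m₁ ∈ s, ∑ m₂ ∈ s, if m₂ ≡ l * m₁ [MOD D] then A m₁ * B m₂ else 0) =
        T₁ D l + ∑ m₁ ∈ s, ∑ m₂ ∈ s,
          if m₂ ≡ l * m₁ [MOD D] ∧ ¬ m₁.Coprime D then A m₁ * B m₂ else 0 := by
      simp only [hT₁, ← sum_add_distrib]
      refine sum_congr rfl fun m₁ _ => sum_congr rfl fun m₂ _ => ?_
      by_cases h4 : m₂ ≡ l * m₁ [MOD D]
      · by_cases h5 : m₁.Coprime D
        · rw [if_pos h4, if_pos ⟨h4, h5⟩, if_neg fun h => h.2 h5, add_zero]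
        · rw [if_pos h4, if_neg fun h => h5 h.2, if_pos ⟨h4, h5⟩, zero_add]
      · rw [if_neg h4, if_neg fun h => h4 h.1, if_neg fun h => h4 h.1, add_zero]
    rw [e]
    refine (abs_add_le _ _).trans (add_le_add ?_ ?_)
    · have h4 : 0 < δ * P := by positivity
      have h5 : δ * P / 2 + T₁ D l ^ 2 / (2 * δ * P) - |T₁ D l| =
          (δ * P - |T₁ D l|) ^ 2 / (2 * δ * P) := by
        rw [← sq_abs (T₁ D l)]; field_simp; ring
      have h6 : 0 ≤ (δ * P - |T₁ D l|) ^ 2 / (2 * δ * P) := by positivity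
      linarith
    · refine (abs_sum_le_sum_abs _ _).trans (sum_le_sum fun m₁ _ => ?_)
      refine (abs_sum_le_sum_abs _ _).trans (sum_le_sum fun m₂ _ => ?_)
      split_ifs
      · rw [abs_mul]
        exact mul_le_mul (abs_cb_le _ _ _ _ _) (abs_cb_le _ _ _ _ _) (abs_nonneg _)
          (cp_nonneg _ _ _ _ _)
      · simp
  refine (sum_le_sum fun D _ => sum_le_sum fun l _ => e1 D l).trans ?_
  simp only [sum_add_distrib]
  have hX : (⌊K * P⌋₊ : ℝ) ≤ K * P := Nat.floor_le (by positivity)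
  have b1 : ∑ D ∈ Ioc ⌊η * P⌋₊ ⌊K * P⌋₊, ∑ l ∈ (range D).filter (fun l => l.Coprime D),
      δ * P / 2 ≤ ε / 4 * (P : ℝ) ^ 3 := by
    have h4 : ∀ D ∈ Ioc ⌊η * P⌋₊ ⌊K * P⌋₊, ∑ l ∈ (range D).filter (fun l => l.Coprime D),
        δ * P / 2 ≤ K * P * (δ * P / 2) := by
      intro D hD
      rw [sum_const, nsmul_eq_mul]
      refine mul_le_mul_of_nonneg_right (le_trans ?_ hX) (by positivity)
      exact_mod_cast ((card_filter_le _ _).trans_eq (card_range D)).trans (mem_Ioc.1 hD).2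
    refine (sum_le_sum h4).trans ?_
    rw [sum_const, nsmul_eq_mul, Nat.card_Ioc]
    have h5 : ((⌊K * P⌋₊ - ⌊η * P⌋₊ : ℕ) : ℝ) ≤ K * P :=
      le_trans (by exact_mod_cast Nat.sub_le _ _) hX
    refine (mul_le_mul_of_nonneg_right h5 (by positivity)).trans_eq ?_
    rw [hδ]; field_simp; ring
  have b2 : ∑ D ∈ Ioc ⌊η * P⌋₊ ⌊K * P⌋₊, ∑ l ∈ (range D).filter (fun l => l.Coprime D),
      T₁ D l ^ 2 / (2 * δ * P) ≤ ε / 4 * (P : ℝ) ^ 3 := by
    simp only [← sum_div]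
    have h4 := sum_le_sum fun D (hD : D ∈ Ioc ⌊η * P⌋₊ ⌊K * P⌋₊) =>
      mean_sq D (lt_of_le_of_lt (Nat.zero_le _) (mem_Ioc.1 hD).1) s A B
    rw [← sum_div, sum_add_distrib] at h4
    rw [div_le_iff₀ (by positivity)]
    refine h4.trans ?_
    have h5 : ε / 4 * (P : ℝ) ^ 3 * (2 * δ * P) = ε * δ / 2 * (P : ℝ) ^ 4 := by ring
    rw [h5]
    linarith
  have b3 : ∑ D ∈ Ioc ⌊η * P⌋₊ ⌊K * P⌋₊, ∑ l ∈ (range D).filter (fun l => l.Coprime D),
      T₂ D l ≤ ε / 2 * (P : ℝ) ^ 3 := by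
    refine le_trans (sum_le_sum_of_subset_of_nonneg ?_
      fun D _ _ => sum_nonneg fun l _ => hT₂0 D l) h1
    intro D hD
    have := mem_Ioc.1 hD
    exact mem_Icc.2 ⟨by omega, this.2⟩
  linarith

end Pool.Agent.P.MP_a1177c_nt.LC
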