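import Pool.Agent.P.MP_a1177c_nt.LC.Geo

namespace Pool.Agent.P.MP_a1177c_nt.LC

open Finset Filter MR MR.StructAux
open scoped ComplexConjugate Topology

namespace FarAux

/-- A partner of determinant `cont h`. -/
def par (h : G) : G := ⟨-Int.gcdB h.re h.im, Int.gcdA h.re h.im⟩

lemma det_par {h : G} (hc : cont h = 1) : det h (par h) = 1 := by
  have := Int.gcd_eq_gcd_ab h.re h.im
  rw [cont] at hc
  rw [hc] at this
  simp only [det, par]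
  push_cast at this
  linarith

/-- The slope of the second vector modulo the determinant. -/
def lm (h₁ h₂ : G) : ℕ := (det h₂ (par h₁) % det h₁ h₂).toNat

lemma lm_cast {h₁ h₂ : G} (hD : det h₁ h₂ ≠ 0) :
    (lm h₁ h₂ : ℤ) = det h₂ (par h₁) % det h₁ h₂ :=
  Int.toNat_of_nonneg (Int.emod_nonneg _ hD)

lemma lm_dvd {h₁ h₂ : G} (hD : det h₁ h₂ ≠ 0) :
    det h₁ h₂ ∣ det h₂ (par h₁) - lm h₁ h₂ := by
  rw [lm_cast hD]
  exact ⟨det h₂ (par h₁) / det h₁ h₂, by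
    linarith [Int.emod_add_mul_ediv (det h₂ (par h₁)) (det h₁ h₂)]⟩

lemma lm_lt {h₁ h₂ : G} (hD : det h₁ h₂ ≠ 0) : lm h₁ h₂ < (det h₁ h₂).natAbs := by
  have h1 := Int.emod_lt_abs (det h₂ (par h₁)) hD
  rw [← lm_cast hD, ← Int.natCast_natAbs] at h1
  exact_mod_cast h1

lemma re_eq {h₁ : G} (hc : cont h₁ = 1) (h₂ : G) :
    h₂.re = det h₂ (par h₁) * h₁.re + det h₁ h₂ * (par h₁).re := by
  have := det_par hc
  simp only [det] at this ⊢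
  linear_combination (-h₂.re) * this

lemma im_eq {h₁ : G} (hc : cont h₁ = 1) (h₂ : G) :
    h₂.im = det h₂ (par h₁) * h₁.im + det h₁ h₂ * (par h₁).im := by
  have := det_par hc
  simp only [det] at this ⊢
  linear_combination (-h₂.im) * this

lemma dvd_re {h₁ h₂ : G} (hc : cont h₁ = 1) (hD : det h₁ h₂ ≠ 0) :
    det h₁ h₂ ∣ h₂.re - lm h₁ h₂ * h₁.re := by
  obtain ⟨c, hc'⟩ := lm_dvd hD
  refine ⟨c * h₁.re + (par h₁).re, ?_⟩
  have := re_eq hc h₂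
  linear_combination this + h₁.re * hc'

lemma dvd_im {h₁ h₂ : G} (hc : cont h₁ = 1) (hD : det h₁ h₂ ≠ 0) :
    det h₁ h₂ ∣ h₂.im - lm h₁ h₂ * h₁.im := by
  obtain ⟨c, hc'⟩ := lm_dvd hD
  refine ⟨c * h₁.im + (par h₁).im, ?_⟩
  have := im_eq hc h₂
  linear_combination this + h₁.im * hc'

lemma lm_coprime {h₁ h₂ : G} (hc : cont h₁ = 1) (hc₂ : cont h₂ = 1) (hD : det h₁ h₂ ≠ 0) :
    (lm h₁ h₂).Coprime (det h₁ h₂).natAbs := by
  set g := Nat.gcd (lm h₁ h₂) (det h₁ h₂).natAbs with hg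
  have h1 : (g : ℤ) ∣ lm h₁ h₂ := Int.natCast_dvd_natCast.2 (Nat.gcd_dvd_left _ _)
  have h2 : (g : ℤ) ∣ det h₁ h₂ := Int.natCast_dvd.2 (Nat.gcd_dvd_right _ _)
  have h3 : (g : ℤ) ∣ h₂.re := by
    have := dvd_add (h2.trans (dvd_re hc hD)) (h1.mul_right h₁.re)
    simpa using this
  have h4 : (g : ℤ) ∣ h₂.im := by
    have := dvd_add (h2.trans (dvd_im hc hD)) (h1.mul_right h₁.im)
    simpa using this
  have h5 : g ∣ cont h₂ := Int.dvd_gcd h3 h4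
  rw [hc₂] at h5
  exact Nat.dvd_one.1 h5

lemma exists_iff {h₁ h₂ : G} (hc : cont h₁ = 1) (hD : det h₁ h₂ ≠ 0) (m₁ m₂ : ℕ) :
    (∃ h : G, det h h₁ = m₁ ∧ det h h₂ = m₂) ↔ m₂ ≡ lm h₁ h₂ * m₁ [MOD (det h₁ h₂).natAbs] := by
  rw [Nat.modEq_iff_dvd, Int.natCast_natAbs, abs_dvd]
  push_cast
  obtain ⟨c, hc'⟩ := lm_dvd hD
  have hp := det_par hc
  have hre := re_eq hc h₂
  have him := im_eq hc h₂
  constructor
  · rintro ⟨h, e1, e2⟩
    refine ⟨-(c * m₁) - det h (par h₁), ?_⟩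
    rw [← e1, ← e2]
    have e3 : det h h₂ = det h₂ (par h₁) * det h h₁ + det h₁ h₂ * det h (par h₁) := by
      have : det h h₂ = h.re * h₂.im - h.im * h₂.re := rfl
      rw [this]
      nth_rewrite 1 [hre, him]
      simp only [det]; ring
    rw [e3]
    linear_combination (-det h h₁) * hc'
  · rintro ⟨k, hk⟩
    refine ⟨⟨(-k - c * m₁) * h₁.re - m₁ * (par h₁).re, (-k - c * m₁) * h₁.im - m₁ * (par h₁).im⟩,
      ?_, ?_⟩
    · simp only [det] at hp ⊢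
      linear_combination (m₁ : ℤ) * hp
    · simp only [det] at hc' hk ⊢
      linear_combination (m₁ : ℤ) * hc' + hk

lemma abs_re_mul_le {X : ℝ} {a b c d : ℤ} (ha : (a : ℝ) ^ 2 ≤ X) (hb : (b : ℝ) ^ 2 ≤ X)
    (hc : (c : ℝ) ^ 2 ≤ X) (hd : (d : ℝ) ^ 2 ≤ X) : |((a * b - c * d : ℤ) : ℝ)| ≤ 2 * X := by
  push_cast
  rw [abs_le]
  constructor <;> nlinarith [sq_nonneg ((a : ℝ) - b), sq_nonneg ((a : ℝ) + b),
    sq_nonneg ((c : ℝ) - d), sq_nonneg ((c : ℝ) + d)]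

lemma quot_mem {D : ℕ} {Y X : ℝ} {M : ℕ} (hY : 0 < Y) (hD : Y < D) (hM : X ≤ M * Y) {n : ℤ}
    (hn : |(n : ℝ)| ≤ X) (hd : (D : ℤ) ∣ n) : n / D ∈ Icc (-(M : ℤ)) M := by
  obtain ⟨k, rfl⟩ := hd
  have hD0 : (0 : ℝ) < D := hY.trans hD
  have hD1 : (D : ℤ) ≠ 0 := by exact_mod_cast hD0.ne'
  rw [Int.mul_ediv_cancel_left _ hD1, mem_Icc, ← abs_le]
  push_cast at hn
  rw [abs_mul, abs_of_pos hD0] at hn
  have h1 : |(k : ℝ)| ≤ M := by
    by_contra h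
    push Not at h
    have h0 : (0 : ℝ) ≤ M := Nat.cast_nonneg M
    nlinarith
  exact_mod_cast h1

/-- The number of pairs with given determinant size and slope. -/
lemma card_fibre {D l M : ℕ} {Y X : ℝ} (hY : 0 < Y) (hD : Y < D) (hM : 2 * X ≤ M * Y)
    (S : Finset (G × G)) (hS : ∀ x ∈ S, det x.1 x.2 ≠ 0 ∧ (nm x.1 : ℝ) ≤ X ∧ (nm x.2 : ℝ) ≤ X ∧
      (D : ℤ) ∣ x.2.re - l * x.1.re ∧ (D : ℤ) ∣ x.2.im - l * x.1.im) :
    S.card ≤ (2 * M + 1) ^ 4 := by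
  rcases S.eq_empty_or_nonempty with rfl | ⟨g, hg⟩
  · simp
  obtain ⟨g0, g1, g2, g3, g4⟩ := hS g hg
  have hre : ∀ a : G, (nm a : ℝ) ≤ X → (a.re : ℝ) ^ 2 ≤ X := fun a h => by
    rw [nm_real] at h; nlinarith [sq_nonneg (a.im : ℝ)]
  have him : ∀ a : G, (nm a : ℝ) ≤ X → (a.im : ℝ) ^ 2 ≤ X := fun a h => by
    rw [nm_real] at h; nlinarith [sq_nonneg (a.re : ℝ)]
  have hdv : ∀ a b c d : ℤ, (D : ℤ) ∣ b - l * a → (D : ℤ) ∣ d - l * c →
      (D : ℤ) ∣ a * d - b * c := fun a b c d h1 h2 => by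
    have : a * d - b * c = a * (d - l * c) - (b - l * a) * c := by ring
    rw [this]
    exact dvd_sub (h2.mul_left _) (h1.mul_right _)
  set I : Finset ℤ := Icc (-(M : ℤ)) M with hI
  have hIc : I.card = 2 * M + 1 := by
    rw [hI, Int.card_Icc]; omega
  let f : G × G → (ℤ × ℤ) × (ℤ × ℤ) := fun x =>
    (((x.1.re * g.2.re - x.2.re * g.1.re) / D, (x.1.re * g.2.im - x.2.re * g.1.im) / D),
      ((x.1.im * g.2.re - x.2.im * g.1.re) / D, (x.1.im * g.2.im - x.2.im * g.1.im) / D))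
  have hcard : ((I ×ˢ I) ×ˢ (I ×ˢ I)).card = (2 * M + 1) ^ 4 := by
    simp only [card_product, hIc]; ring
  rw [← hcard]
  refine card_le_card_of_injOn f (fun x hx => ?_) (fun x hx y hy hxy => ?_)
  · obtain ⟨-, x1, x2, x3, x4⟩ := hS x hx
    simp only [coe_product, Set.mem_prod, mem_coe, f]
    refine ⟨⟨?_, ?_⟩, ?_, ?_⟩
    · exact quot_mem hY hD hM (abs_re_mul_le (hre _ x1) (hre _ g2) (hre _ x2) (hre _ g1))
        (hdv _ _ _ _ x3 g3)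
    · exact quot_mem hY hD hM (abs_re_mul_le (hre _ x1) (him _ g2) (hre _ x2) (him _ g1))
        (hdv _ _ _ _ x3 g4)
    · exact quot_mem hY hD hM (abs_re_mul_le (him _ x1) (hre _ g2) (him _ x2) (hre _ g1))
        (hdv _ _ _ _ x4 g3)
    · exact quot_mem hY hD hM (abs_re_mul_le (him _ x1) (him _ g2) (him _ x2) (him _ g1))
        (hdv _ _ _ _ x4 g4)
  · obtain ⟨-, -, -, x3, x4⟩ := hS x hx
    obtain ⟨-, -, -, y3, y4⟩ := hS y hy
    simp only [f, Prod.mk.injEq] at hxy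
    obtain ⟨⟨e1, e2⟩, e3, e4⟩ := hxy
    have key : ∀ a b : ℤ, (D : ℤ) ∣ a → (D : ℤ) ∣ b → a / D = b / D → a = b := fun a b h1 h2 h => by
      rw [← Int.mul_ediv_cancel' h1, ← Int.mul_ediv_cancel' h2, h]
    have f1 := key _ _ (hdv _ _ _ _ x3 g3) (hdv _ _ _ _ y3 g3) e1
    have f2 := key _ _ (hdv _ _ _ _ x3 g4) (hdv _ _ _ _ y3 g4) e2
    have f3 := key _ _ (hdv _ _ _ _ x4 g3) (hdv _ _ _ _ y4 g3) e3
    have f4 := key _ _ (hdv _ _ _ _ x4 g4) (hdv _ _ _ _ y4 g4) e4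
    rw [det] at g0
    refine Prod.ext (Zsqrtd.ext ?_ ?_) (Zsqrtd.ext ?_ ?_) <;> refine mul_left_cancel₀ g0 ?_
    · linear_combination g.1.re * f2 - g.1.im * f1
    · linear_combination g.1.re * f4 - g.1.im * f3
    · linear_combination g.2.re * f2 - g.2.im * f1
    · linear_combination g.2.re * f4 - g.2.im * f3

lemma abs_det_le {X : ℝ} {a b : G} (ha : (nm a : ℝ) ≤ X) (hb : (nm b : ℝ) ≤ X) :
    |(det a b : ℝ)| ≤ X := by
  have h0 : (0 : ℝ) ≤ nm a := Nat.cast_nonneg _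
  have h1 : (0 : ℝ) ≤ nm b := Nat.cast_nonneg _
  have h2 : ((dot a b : ℤ) : ℝ) ^ 2 + ((det a b : ℤ) : ℝ) ^ 2 = (nm a : ℝ) * nm b := by
    exact_mod_cast dot_sq_add_det_sq a b
  refine abs_le_of_sq_le_sq' ?_ (h0.trans ha) |> abs_le.2
  nlinarith [sq_nonneg ((dot a b : ℤ) : ℝ), mul_le_mul ha hb h1 (h0.trans ha)]

lemma sum_cells {a : ℕ → ℝ} (ha : Monotone a) (x c : ℝ) (J : ℕ) :
    (if a 0 < x ∧ x ≤ a J then c else 0) =
      ∑ i ∈ range J, if a i < x ∧ x ≤ a (i + 1) then c else 0 := by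
  induction J with
  | zero => rw [sum_range_zero, if_neg fun h => absurd (h.1.trans_le h.2) (lt_irrefl _)]
  | succ J ih =>
    rw [sum_range_succ, ← ih]
    have h1 : a 0 ≤ a J := ha (Nat.zero_le _)
    have h2 : a J ≤ a (J + 1) := ha (Nat.le_succ _)
    by_cases h : x ≤ a J
    · rw [if_neg (c := a J < x ∧ _) fun h' => absurd (h'.1.trans_le h) (lt_irrefl _), add_zero]
      exact if_congr ⟨fun h' => ⟨h'.1, h⟩, fun h' => ⟨h'.1, h.trans h2⟩⟩ rfl rfl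
    · rw [if_neg (c := a 0 < x ∧ x ≤ a J) fun h' => h h'.2, zero_add]
      push Not at h
      exact if_congr ⟨fun h' => ⟨h, h'.2⟩, fun h' => ⟨h1.trans_lt h, h'.2⟩⟩ rfl rfl

lemma cells {β : ℝ} (h1 : 1 ≤ β) {J : ℕ} (hJ : 0 < J) (P : ℕ) (x c : ℝ) :
    (if 1 * (P : ℝ) < x ∧ x ≤ β * P then c else 0) =
      ∑ i ∈ range J, if (1 + i * (β - 1) / J) * (P : ℝ) < x ∧
        x ≤ (1 + (i + 1) * (β - 1) / J) * P then c else 0 := by
  have hJ' : (0 : ℝ) < J := by exact_mod_cast hJ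
  have hm : Monotone fun i : ℕ => (1 + i * (β - 1) / J) * (P : ℝ) := fun i j hij => by
    have : (i : ℝ) ≤ j := by exact_mod_cast hij
    have h2 : 0 ≤ β - 1 := by linarith
    dsimp only
    gcongr
  have := sum_cells hm x c J
  have e : (1 + (J : ℝ) * (β - 1) / J) = β := by field_simp; ring
  simp only [e, Nat.cast_zero, zero_mul, zero_div, add_zero, Nat.cast_add, Nat.cast_one] at this
  exact this

lemma c1_split {β : ℝ} (h1 : 1 ≤ β) {J : ℕ} (hJ : 0 < J) (P : ℕ) (m : ℤ) :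
    c1 1 β P m = ∑ i ∈ range J, c1 (1 + i * (β - 1) / J) (1 + (i + 1) * (β - 1) / J) P m := by
  by_cases h : m.natAbs.Prime ∧ m % 4 = 1
  · simp only [c1, h, and_true]
    convert cells h1 hJ P m (Real.log m)
  · simp only [c1, h, and_false, if_false, sum_const_zero]

lemma c2_split (q : ℕ) {β : ℝ} (h1 : 1 ≤ β) {J : ℕ} (hJ : 0 < J) (P : ℕ) (m : ℤ) :
    c2 q 1 β P m =
      ∑ i ∈ range J, c2 q (1 + i * (β - 1) / J) (1 + (i + 1) * (β - 1) / J) P m := by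
  by_cases h : Int.gcd m q = 1 ∧ m % 4 = 1
  · simp only [c2, h, and_true]
    convert cells h1 hJ P m ((q : ℝ) / q.totient)
  · simp only [c2, h, and_false, if_false, sum_const_zero]

end FarAux

open FarAux

/-- The number of pairs giving the same lattice is bounded. -/
theorem sum_far_le {K η : ℝ} (hK : 1 ≤ K) (hη : 0 < η) : ∃ (C : ℝ) (lm : G → G → ℕ), 0 < C ∧
    (∀ h₁ h₂ : G, cont h₁ = 1 → det h₁ h₂ ≠ 0 → ∀ m₁ m₂ : ℕ,
      (∃ h : G, det h h₁ = m₁ ∧ det h h₂ = m₂) ↔ m₂ ≡ lm h₁ h₂ * m₁ [MOD (det h₁ h₂).natAbs]) ∧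
    ∀ (P : ℕ) (t : ℕ → ℕ → ℝ), 0 < P → (∀ D l, 0 ≤ t D l) →
      ∑ h₁ ∈ An 0 (K * P), ∑ h₂ ∈ An 0 (K * P),
        (if η * P < |(det h₁ h₂ : ℝ)| then t (det h₁ h₂).natAbs (lm h₁ h₂) else 0) ≤
        C * ∑ D ∈ Ioc ⌊η * P⌋₊ ⌊K * P⌋₊, ∑ l ∈ (range D).filter (fun l => l.Coprime D), t D l := by
  classical
  set M : ℕ := ⌈2 * K / η⌉₊ with hM
  refine ⟨((2 * M + 1) ^ 4 : ℕ), FarAux.lm, by positivity,
    fun h₁ h₂ hc hD m₁ m₂ => exists_iff hc hD m₁ m₂, fun P t hP ht => ?_⟩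
  have hP' : (0 : ℝ) < P := by exact_mod_cast hP
  have hY : 0 < η * P := mul_pos hη hP'
  have hMY : 2 * (K * P) ≤ M * (η * P) := by
    have h1 : 2 * K / η ≤ M := Nat.le_ceil _
    rw [div_le_iff₀ hη] at h1
    nlinarith
  rw [← sum_product', ← sum_filter, sum_sigma']
  set S := (An 0 (K * P) ×ˢ An 0 (K * P)).filter fun x : G × G => η * P < |(det x.1 x.2 : ℝ)|
    with hS
  have hmem : ∀ x ∈ S, cont x.1 = 1 ∧ cont x.2 = 1 ∧ (nm x.1 : ℝ) ≤ K * P ∧ (nm x.2 : ℝ) ≤ K * P ∧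
      η * P < ((det x.1 x.2).natAbs : ℝ) ∧ det x.1 x.2 ≠ 0 := fun x hx => by
    obtain ⟨h1, h2⟩ := mem_filter.1 hx
    obtain ⟨h3, h4⟩ := mem_product.1 h1
    obtain ⟨a1, -, a2⟩ := (mem_An le_rfl).1 h3
    obtain ⟨b1, -, b2⟩ := (mem_An le_rfl).1 h4
    refine ⟨a1, b1, a2, b2, by rwa [Nat.cast_natAbs, Int.cast_abs], fun h0 => ?_⟩
    rw [h0] at h2
    simp at h2
    linarith
  let g : G × G → (Σ _ : ℕ, ℕ) := fun x => ⟨(det x.1 x.2).natAbs, FarAux.lm x.1 x.2⟩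
  have hmaps : ∀ x ∈ S, g x ∈ (Ioc ⌊η * P⌋₊ ⌊K * P⌋₊).sigma
      fun D => (range D).filter fun l => l.Coprime D := fun x hx => by
    obtain ⟨a1, b1, a2, b2, h2, h0⟩ := hmem x hx
    simp only [g, mem_sigma, mem_Ioc, mem_filter, mem_range]
    refine ⟨⟨(Nat.floor_lt hY.le).2 h2, Nat.le_floor ?_⟩, lm_lt h0, lm_coprime a1 b1 h0⟩
    rw [Nat.cast_natAbs, Int.cast_abs]
    exact abs_det_le a2 b2
  rw [← sum_fiberwise_of_maps_to hmaps, mul_sum]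
  refine sum_le_sum fun y hy => ?_
  have h1 : ∑ x ∈ S with g x = y, t (det x.1 x.2).natAbs (FarAux.lm x.1 x.2) =
      ((S.filter fun x => g x = y).card : ℝ) * t y.1 y.2 := by
    rw [← nsmul_eq_mul, ← sum_const]
    refine sum_congr rfl fun x hx => ?_
    rw [← (mem_filter.1 hx).2]
  rw [h1]
  refine mul_le_mul_of_nonneg_right ?_ (ht _ _)
  have hyD : η * P < (y.1 : ℝ) := (Nat.floor_lt hY.le).1 (mem_Ioc.1 (mem_sigma.1 hy).1).1
  refine Nat.cast_le.2 (card_fibre (l := y.2) hY hyD hMY _ fun x hx => ?_)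
  obtain ⟨hx1, hx2⟩ := mem_filter.1 hx
  obtain ⟨a1, -, a2, b2, -, h0⟩ := hmem x hx1
  subst hx2
  exact ⟨h0, a2, b2, Int.natAbs_dvd.2 (dvd_re a1 h0), Int.natAbs_dvd.2 (dvd_im a1 h0)⟩

/-- Recovering a point from two determinants. -/
theorem det_smul_eq (h h₁ h₂ : G) :
    (det h₁ h₂ : G) * h = (det h h₂ : G) * h₁ - (det h h₁ : G) * h₂ := by
  ext
  · simp [det, Zsqrtd.re_mul]; ring
  · simp [det, Zsqrtd.im_mul]; ring

/-- Splitting the interval into cells. -/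
theorem cb_split (q : ℕ) {β : ℝ} (h1 : 1 ≤ β) {J : ℕ} (hJ : 0 < J) (P : ℕ) (m : ℤ) :
    cb q 1 β P m = ∑ i ∈ range J, cb q (1 + i * (β - 1) / J) (1 + (i + 1) * (β - 1) / J) P m := by
  simp only [cb, sum_sub_distrib]
  rw [c1_split h1 hJ, c2_split q h1 hJ]

theorem cp_split (q : ℕ) {β : ℝ} (h1 : 1 ≤ β) {J : ℕ} (hJ : 0 < J) (P : ℕ) (m : ℤ) :
    cp q 1 β P m = ∑ i ∈ range J, cp q (1 + i * (β - 1) / J) (1 + (i + 1) * (β - 1) / J) P m := by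
  simp only [cp, sum_add_distrib]
  rw [c1_split h1 hJ, c2_split q h1 hJ]

end Pool.Agent.P.MP_a1177c_nt.LC
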