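import Pool.Agent.P.MP_a1177c_nt.LC.Near
import Pool.Agent.P.MP_a1177c_nt.LC.Cell
import Pool.Agent.P.MP_a1177c_nt.LC.Far

namespace Pool.Agent.P.MP_a1177c_nt.LC

open Finset Filter MR MR.StructAux
open scoped ComplexConjugate Topology

namespace BilinAux

/-- A Lipschitz cutoff. -/
noncomputable def om0 (t : ℝ) : ℝ := max 0 (min 1 (2 - t))

lemma om0_nonneg (t : ℝ) : 0 ≤ om0 t := le_max_left _ _

lemma om0_le_one (t : ℝ) : om0 t ≤ 1 := max_le zero_le_one (min_le_left _ _)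

lemma om0_eq_one {t : ℝ} (h : t ≤ 1) : om0 t = 1 := by
  rw [om0, min_eq_left (by linarith), max_eq_right zero_le_one]

lemma om0_eq_zero {t : ℝ} (h : 2 ≤ t) : om0 t = 0 :=
  max_eq_left ((min_le_right _ _).trans (by linarith))

lemma om0_lip (s t : ℝ) : |om0 s - om0 t| ≤ |s - t| := by
  have h1 := le_abs_self (s - t)
  have h2 := neg_abs_le (s - t)
  rw [abs_le]
  simp only [om0, max_def, min_def]
  constructor <;> split_ifs <;> linarith

lemma support_cb {q : ℕ} {a b : ℝ} {P : ℕ} {m : ℤ} (h : cb q a b P m ≠ 0) :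
    a * P < m ∧ (m : ℝ) ≤ b * P := by
  refine support_cp (q := q) fun h0 => h ?_
  have := abs_cb_le q a b P m
  rw [h0] at this
  exact abs_nonpos_iff.1 this

lemma abs_cb_mul_le (q : ℕ) (a b a' b' : ℝ) (P : ℕ) (m m' : ℤ) :
    |cb q a b P m * cb q a' b' P m'| ≤ cp q a b P m * cp q a' b' P m' := by
  rw [abs_mul]
  exact mul_le_mul (abs_cb_le _ _ _ _ _) (abs_cb_le _ _ _ _ _) (abs_nonneg _) (cp_nonneg _ _ _ _ _)

/-- The quadratic form giving the norm in terms of the two determinants. -/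
def Qf (h₁ h₂ : G) (x y : ℝ) : ℝ := y ^ 2 * nm h₁ - 2 * (x * y) * dot h₁ h₂ + x ^ 2 * nm h₂

lemma nm_formula (h h₁ h₂ : G) :
    (det h₁ h₂ : ℝ) ^ 2 * nm h = Qf h₁ h₂ (det h h₁) (det h h₂) := by
  simp only [Qf, nm_real, det, dot]; push_cast; ring

lemma abs_dot_le {h₁ h₂ : G} {X : ℝ} (n1 : (nm h₁ : ℝ) ≤ X) (n2 : (nm h₂ : ℝ) ≤ X) :
    |(dot h₁ h₂ : ℝ)| ≤ X := by
  have h0 : 0 ≤ X := (Nat.cast_nonneg _).trans n1
  have h1 : (dot h₁ h₂ : ℝ) ^ 2 + (det h₁ h₂ : ℝ) ^ 2 = (nm h₁ : ℝ) * nm h₂ := by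
    exact_mod_cast dot_sq_add_det_sq h₁ h₂
  have h2 : (nm h₁ : ℝ) * nm h₂ ≤ X * X := mul_le_mul n1 n2 (Nat.cast_nonneg _) h0
  exact abs_le.2 (abs_le_of_sq_le_sq' (by nlinarith [sq_nonneg (det h₁ h₂ : ℝ)]) h0)

lemma abs_mul_sub_le {x y x' y' R δ : ℝ} (hx : |x| ≤ R) (hy' : |y'| ≤ R) (h1 : |x - x'| ≤ δ)
    (h2 : |y - y'| ≤ δ) : |x * y - x' * y'| ≤ 2 * R * δ := by
  have h3 : x * y - x' * y' = x * (y - y') + (x - x') * y' := by ring
  have hR : 0 ≤ R := (abs_nonneg _).trans hx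
  have hδ : 0 ≤ δ := (abs_nonneg _).trans h1
  rw [h3]
  refine (abs_add_le _ _).trans ?_
  rw [abs_mul, abs_mul]
  have := mul_le_mul hx h2 (abs_nonneg _) hR
  have := mul_le_mul h1 hy' (abs_nonneg _) hδ
  linarith

lemma Qf_lip {h₁ h₂ : G} {X : ℝ} (n1 : (nm h₁ : ℝ) ≤ X) (n2 : (nm h₂ : ℝ) ≤ X)
    {x y x' y' R δ : ℝ} (hx : |x| ≤ R) (hy : |y| ≤ R) (hx' : |x'| ≤ R) (hy' : |y'| ≤ R)
    (h1 : |x - x'| ≤ δ) (h2 : |y - y'| ≤ δ) :
    |Qf h₁ h₂ x y - Qf h₁ h₂ x' y'| ≤ 8 * R * δ * X := by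
  have a1 := abs_mul_sub_le hx hx' h1 h1
  have a2 := abs_mul_sub_le hy hy' h2 h2
  have a3 := abs_mul_sub_le hx hy' h1 h2
  have a4 := abs_dot_le n1 n2
  have h0 : 0 ≤ 2 * R * δ := (abs_nonneg _).trans a1
  have h3 : Qf h₁ h₂ x y - Qf h₁ h₂ x' y' = (y * y - y' * y') * nm h₁ +
      (-2) * ((x * y - x' * y') * dot h₁ h₂) + (x * x - x' * x') * nm h₂ := by
    simp only [Qf]; ring
  rw [h3]
  refine (abs_add_three _ _ _).trans ?_
  rw [abs_mul, abs_mul, abs_mul, abs_mul, Nat.abs_cast, Nat.abs_cast]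
  have b1 := mul_le_mul a2 n1 (Nat.cast_nonneg _) h0
  have b2 := mul_le_mul a1 n2 (Nat.cast_nonneg _) h0
  have b3 := mul_le_mul a3 a4 (abs_nonneg _) h0
  have b4 : |(-2 : ℝ)| = 2 := by norm_num
  rw [b4]
  linarith

lemma Qf_le {h₁ h₂ : G} {X : ℝ} (n1 : (nm h₁ : ℝ) ≤ X) (n2 : (nm h₂ : ℝ) ≤ X)
    {x y R : ℝ} (hx : |x| ≤ R) (hy : |y| ≤ R) : Qf h₁ h₂ x y ≤ 8 * R * R * X := by
  have hR : 0 ≤ R := (abs_nonneg _).trans hx
  have := Qf_lip n1 n2 hx hy (x' := 0) (y' := 0) (by simpa using hR) (by simpa using hR)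
    (δ := R) (by simpa using hx) (by simpa using hy)
  have h0 : Qf h₁ h₂ 0 0 = 0 := by simp [Qf]
  rw [h0, sub_zero] at this
  exact (le_abs_self _).trans this

open Classical in
lemma far_sum {h₁ h₂ : G} (hD : det h₁ h₂ ≠ 0) (P : ℕ) (cong : ℕ → ℕ → Prop)
    [∀ a b, Decidable (cong a b)]
    (hl : ∀ m₁ m₂ : ℕ, (∃ h : G, det h h₁ = m₁ ∧ det h h₂ = m₂) ↔ cong m₁ m₂)
    (F : ℤ → ℤ → ℝ) (hF : ∀ x y, F x y ≠ 0 → (P < x ∧ x ≤ 2 * P) ∧ P < y ∧ y ≤ 2 * P)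
    (T : Finset G) (hT : ∀ h, F (det h h₁) (det h h₂) ≠ 0 → h ∈ T) :
    ∑ h ∈ T, F (det h h₁) (det h h₂) = ∑ m₁ ∈ range (2 * P + 1), ∑ m₂ ∈ range (2 * P + 1),
      if cong m₁ m₂ then F m₁ m₂ else 0 := by
  rw [← sum_product']
  have key : ∀ h, F (det h h₁) (det h h₂) ≠ 0 →
      (((det h h₁).toNat : ℕ) : ℤ) = det h h₁ ∧ (((det h h₂).toNat : ℕ) : ℤ) = det h h₂ := by
    intro h hh
    have := hF _ _ hh
    omega
  refine sum_bij_ne_zero (fun h _ _ => ((det h h₁).toNat, (det h h₂).toNat)) ?_ ?_ ?_ ?_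
  · intro h _ hh
    have := hF _ _ hh
    simp only [mem_product, mem_range]
    omega
  · intro a _ ha b _ hb hab
    obtain ⟨e1, e2⟩ := Prod.ext_iff.1 hab
    simp only at e1 e2
    have a1 := key a ha
    have b1 := key b hb
    have e3 : det a h₁ = det b h₁ := by omega
    have e4 : det a h₂ = det b h₂ := by omega
    have e5 : (det h₁ h₂ : G) * a = (det h₁ h₂ : G) * b := by
      rw [det_smul_eq a, det_smul_eq b, e3, e4]
    exact mul_left_cancel₀ (by exact_mod_cast hD) e5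
  · rintro ⟨m₁, m₂⟩ _ hm
    simp only at hm
    have hc : cong m₁ m₂ := by
      by_contra hc; exact hm (if_neg hc)
    rw [if_pos hc] at hm
    obtain ⟨h, e1, e2⟩ := (hl _ _).2 hc
    have : F (det h h₁) (det h h₂) ≠ 0 := by rwa [e1, e2]
    exact ⟨h, hT h this, this, by simp [e1, e2]⟩
  · intro h _ hh
    have a1 := key h hh
    simp only
    rw [if_pos ((hl _ _).1 ⟨h, a1.1.symm, a1.2.symm⟩), a1.1, a1.2]

/-- The left end of a cell. -/
noncomputable def lo (β : ℝ) (J i : ℕ) : ℝ := 1 + i * (β - 1) / J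

/-- The right end of a cell. -/
noncomputable def hi (β : ℝ) (J i : ℕ) : ℝ := 1 + (i + 1) * (β - 1) / J

lemma one_le_lo {β : ℝ} (h1 : 1 ≤ β) (J i : ℕ) : 1 ≤ lo β J i := by
  have : 0 ≤ β - 1 := by linarith
  have : 0 ≤ i * (β - 1) / J := by positivity
  simp only [lo]; linarith

lemma hi_sub_lo (β : ℝ) (J i : ℕ) : hi β J i = lo β J i + (β - 1) / J := by
  simp only [lo, hi]; ring

lemma lo_le_hi {β : ℝ} (h1 : 1 ≤ β) (J i : ℕ) : lo β J i ≤ hi β J i := by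
  have : 0 ≤ β - 1 := by linarith
  have : 0 ≤ (β - 1) / J := by positivity
  rw [hi_sub_lo]; linarith

lemma hi_le_two {β : ℝ} (_h1 : 1 ≤ β) (h2 : β ≤ 2) {J i : ℕ} (h : i < J) : hi β J i ≤ 2 := by
  have hJ : (0 : ℝ) < J := by exact_mod_cast (by omega : 0 < J)
  have h3 : (i : ℝ) + 1 ≤ J := by exact_mod_cast h
  have : ((i : ℝ) + 1) * (β - 1) / J ≤ 1 := by
    rw [div_le_one hJ]
    have : (0 : ℝ) ≤ i := Nat.cast_nonneg _
    nlinarith
  simp only [hi]; linarith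

/-- The sum over a lattice for a pair of cells. -/
noncomputable def tc (q : ℕ) (β : ℝ) (J P D l i j : ℕ) : ℝ :=
  |∑ m₁ ∈ range (2 * P + 1), ∑ m₂ ∈ range (2 * P + 1),
    if m₂ ≡ l * m₁ [MOD D] then
      cb q (lo β J i) (hi β J i) P m₁ * cb q (lo β J j) (hi β J j) P m₂ else 0|

lemma cell_near {q P J i : ℕ} {β : ℝ} (h1 : 1 ≤ β) (h2 : β ≤ 2) (hi' : i < J) {m : ℤ}
    (h : cb q (lo β J i) (hi β J i) P m ≠ 0) :
    ((P : ℤ) < m ∧ m ≤ 2 * P) ∧ |(m : ℝ)| ≤ 2 * P ∧ |lo β J i * P| ≤ 2 * P ∧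
      |(m : ℝ) - lo β J i * P| ≤ P / J := by
  obtain ⟨a1, a2⟩ := support_cb h
  have b1 := one_le_lo h1 J i
  have b2 := hi_le_two h1 h2 hi'
  have b3 := lo_le_hi h1 J i
  have hP : (0 : ℝ) ≤ P := Nat.cast_nonneg _
  have c1 : (P : ℝ) < m := by nlinarith
  have c2 : (m : ℝ) ≤ 2 * P := by nlinarith
  have hJ : (0 : ℝ) < J := by exact_mod_cast (by omega : 0 < J)
  refine ⟨⟨by exact_mod_cast c1, by exact_mod_cast c2⟩, ?_, ?_, ?_⟩
  · rw [abs_of_nonneg (by linarith)]; exact c2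
  · rw [abs_of_nonneg (by positivity)]; nlinarith
  · rw [abs_of_nonneg (by linarith)]
    rw [hi_sub_lo] at a2
    have : (β - 1) / J * P ≤ P / J := by
      rw [div_mul_eq_mul_div]
      exact div_le_div_of_nonneg_right (by nlinarith) hJ.le
    linarith

lemma far_cell {q P J i j : ℕ} {K K' η β : ℝ} (hK : 1 ≤ K) (hη : 0 < η) (h1 : 1 ≤ β) (h2 : β ≤ 2)
    (hi' : i < J) (hj' : j < J) (hP : 0 < P) {h₁ h₂ : G} (n1 : (nm h₁ : ℝ) ≤ K * P)
    (n2 : (nm h₂ : ℝ) ≤ K * P) (hD : η * P < |(det h₁ h₂ : ℝ)|) (l : ℕ)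
    (hl : ∀ m₁ m₂ : ℕ, (∃ h : G, det h h₁ = m₁ ∧ det h h₂ = m₂) ↔
      m₂ ≡ l * m₁ [MOD (det h₁ h₂).natAbs]) (hK' : 32 * K / η ^ 2 ≤ K') :
    |∑ h ∈ disc ⌊K' * P⌋₊, om0 (nm h / (K * P)) *
      (cb q (lo β J i) (hi β J i) P (det h h₁) * cb q (lo β J j) (hi β J j) P (det h h₂))| ≤
      tc q β J P (det h₁ h₂).natAbs l i j + 16 / (J * η ^ 2) * ∑ h ∈ disc ⌊K' * P⌋₊,
        cp q (lo β J i) (hi β J i) P (det h h₁) * cp q (lo β J j) (hi β J j) P (det h h₂) := by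
  have hPR : (0 : ℝ) < P := by exact_mod_cast hP
  have hJ : (0 : ℝ) < J := by exact_mod_cast (by omega : 0 < J)
  have hηP : 0 < η * P := by positivity
  have hD0 : det h₁ h₂ ≠ 0 := by
    intro h; rw [h] at hD; simp at hD; linarith
  have hD2 : (η * P) ^ 2 ≤ (det h₁ h₂ : ℝ) ^ 2 := by
    rw [← sq_abs (det h₁ h₂ : ℝ)]
    exact pow_le_pow_left₀ hηP.le hD.le 2
  have hD3 : (0 : ℝ) < (det h₁ h₂ : ℝ) ^ 2 := lt_of_lt_of_le (by positivity) hD2
  set om := om0 (Qf h₁ h₂ (lo β J i * P) (lo β J j * P) / (det h₁ h₂ : ℝ) ^ 2 / (K * P)) with hom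
  have e1 := far_sum hD0 P (fun m₁ m₂ => m₂ ≡ l * m₁ [MOD (det h₁ h₂).natAbs]) hl
    (fun x y => cb q (lo β J i) (hi β J i) P x * cb q (lo β J j) (hi β J j) P y)
    (fun x y h => ⟨(cell_near h1 h2 hi' (left_ne_zero_of_mul h)).1,
      (cell_near h1 h2 hj' (right_ne_zero_of_mul h)).1⟩) (disc ⌊K' * P⌋₊) (by
      intro h hh
      have a1 := cell_near h1 h2 hi' (left_ne_zero_of_mul hh)
      have a2 := cell_near h1 h2 hj' (right_ne_zero_of_mul hh)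
      rw [mem_disc]
      refine ⟨?_, Nat.le_floor ?_⟩
      · rintro rfl
        have := a1.1.1
        simp [det] at this
        omega
      · have a3 := Qf_le n1 n2 a1.2.1 a2.2.1
        rw [← nm_formula] at a3
        have a4 : (η * P) ^ 2 * nm h ≤ 8 * (2 * P) * (2 * P) * (K * P) :=
          (mul_le_mul_of_nonneg_right hD2 (Nat.cast_nonneg _)).trans a3
        have a5 : (nm h : ℝ) ≤ 32 * K / η ^ 2 * P := by
          rw [div_mul_eq_mul_div, le_div_iff₀ (by positivity)]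
          have : (P : ℝ) ^ 2 * (nm h * η ^ 2) ≤ (P : ℝ) ^ 2 * (32 * K * P) := by linarith
          exact le_of_mul_le_mul_left this (by positivity)
        exact a5.trans (mul_le_mul_of_nonneg_right hK' hPR.le))
  have e2 : ∑ h ∈ disc ⌊K' * P⌋₊, om0 (nm h / (K * P)) *
      (cb q (lo β J i) (hi β J i) P (det h h₁) * cb q (lo β J j) (hi β J j) P (det h h₂)) =
      om * ∑ h ∈ disc ⌊K' * P⌋₊,
        cb q (lo β J i) (hi β J i) P (det h h₁) * cb q (lo β J j) (hi β J j) P (det h h₂) +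
      ∑ h ∈ disc ⌊K' * P⌋₊, (om0 (nm h / (K * P)) - om) *
      (cb q (lo β J i) (hi β J i) P (det h h₁) * cb q (lo β J j) (hi β J j) P (det h h₂)) := by
    rw [mul_sum, ← sum_add_distrib]
    exact sum_congr rfl fun h _ => by ring
  rw [e2]
  refine (abs_add_le _ _).trans (add_le_add ?_ ?_)
  · rw [abs_mul, e1, abs_of_nonneg (om0_nonneg _)]
    exact mul_le_of_le_one_left (abs_nonneg _) (om0_le_one _)
  · refine (abs_sum_le_sum_abs _ _).trans ?_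
    rw [mul_sum]
    refine sum_le_sum fun h _ => ?_
    by_cases hh : cb q (lo β J i) (hi β J i) P (det h h₁) *
        cb q (lo β J j) (hi β J j) P (det h h₂) = 0
    · rw [hh, mul_zero, abs_zero]
      exact mul_nonneg (by positivity) (mul_nonneg (cp_nonneg _ _ _ _ _) (cp_nonneg _ _ _ _ _))
    have a1 := cell_near h1 h2 hi' (left_ne_zero_of_mul hh)
    have a2 := cell_near h1 h2 hj' (right_ne_zero_of_mul hh)
    rw [abs_mul]
    refine mul_le_mul ?_ (abs_cb_mul_le _ _ _ _ _ _ _ _) (abs_nonneg _) (by positivity)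
    refine (om0_lip _ _).trans ?_
    have a3 := Qf_lip n1 n2 a1.2.1 a2.2.1 a1.2.2.1 a2.2.2.1 a1.2.2.2 a2.2.2.2
    rw [← nm_formula] at a3
    have hKP : 0 < K * P := by positivity
    have a4 : (nm h : ℝ) / (K * P) -
        Qf h₁ h₂ (lo β J i * P) (lo β J j * P) / (det h₁ h₂ : ℝ) ^ 2 / (K * P) =
        ((det h₁ h₂ : ℝ) ^ 2 * nm h - Qf h₁ h₂ (lo β J i * P) (lo β J j * P)) /
          ((det h₁ h₂ : ℝ) ^ 2 * (K * P)) := by
      field_simp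
    rw [a4, abs_div, abs_of_pos (mul_pos hD3 hKP), div_le_iff₀ (mul_pos hD3 hKP)]
    refine a3.trans ?_
    have a5 : 8 * (2 * (P : ℝ)) * (P / J) * (K * P) = 16 / (J * η ^ 2) * ((η * P) ^ 2 * (K * P)) := by
      field_simp; ring
    rw [a5]
    exact mul_le_mul_of_nonneg_left (mul_le_mul_of_nonneg_right hD2 hKP.le) (by positivity)

lemma far_pair {q P J : ℕ} {K K' η β : ℝ} (hK : 1 ≤ K) (hη : 0 < η) (h1 : 1 ≤ β) (h2 : β ≤ 2)
    (hJ : 0 < J) (hP : 0 < P) {h₁ h₂ : G} (n1 : (nm h₁ : ℝ) ≤ K * P)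
    (n2 : (nm h₂ : ℝ) ≤ K * P) (hD : η * P < |(det h₁ h₂ : ℝ)|) (l : ℕ)
    (hl : ∀ m₁ m₂ : ℕ, (∃ h : G, det h h₁ = m₁ ∧ det h h₂ = m₂) ↔
      m₂ ≡ l * m₁ [MOD (det h₁ h₂).natAbs]) (hK' : 32 * K / η ^ 2 ≤ K') :
    |∑ h ∈ disc ⌊K' * P⌋₊, om0 (nm h / (K * P)) *
      (cb q 1 β P (det h h₁) * cb q 1 β P (det h h₂))| ≤
      ∑ i ∈ range J, ∑ j ∈ range J, tc q β J P (det h₁ h₂).natAbs l i j +
        16 / (J * η ^ 2) * ∑ h ∈ disc ⌊K' * P⌋₊, cp q 1 β P (det h h₁) * cp q 1 β P (det h h₂) := by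
  have e1 : ∑ h ∈ disc ⌊K' * P⌋₊, om0 (nm h / (K * P)) *
      (cb q 1 β P (det h h₁) * cb q 1 β P (det h h₂)) =
      ∑ i ∈ range J, ∑ j ∈ range J, ∑ h ∈ disc ⌊K' * P⌋₊, om0 (nm h / (K * P)) *
      (cb q (lo β J i) (hi β J i) P (det h h₁) * cb q (lo β J j) (hi β J j) P (det h h₂)) := by
    simp only [cb_split q h1 hJ, sum_mul_sum]
    simp only [mul_sum]
    rw [sum_comm]
    exact sum_congr rfl fun i _ => sum_comm
  have e2 : 16 / (J * η ^ 2) * ∑ h ∈ disc ⌊K' * P⌋₊, cp q 1 β P (det h h₁) * cp q 1 β P (det h h₂) =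
      ∑ i ∈ range J, ∑ j ∈ range J, 16 / (J * η ^ 2) * ∑ h ∈ disc ⌊K' * P⌋₊,
        cp q (lo β J i) (hi β J i) P (det h h₁) * cp q (lo β J j) (hi β J j) P (det h h₂) := by
    simp only [cp_split q h1 hJ, sum_mul_sum]
    simp only [mul_sum]
    rw [sum_comm]
    exact sum_congr rfl fun i _ => sum_comm
  rw [e1, e2, ← sum_add_distrib]
  refine (abs_sum_le_sum_abs _ _).trans (sum_le_sum fun i hi' => ?_)
  rw [← sum_add_distrib]
  refine (abs_sum_le_sum_abs _ _).trans (sum_le_sum fun j hj' => ?_)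
  exact far_cell hK hη h1 h2 (mem_range.1 hi') (mem_range.1 hj') hP n1 n2 hD l hl hK'

lemma near_pair {q P : ℕ} {K K' β : ℝ} (hK : 1 ≤ K) (hP : 0 < P) (h₁ h₂ : G) :
    |∑ h ∈ disc ⌊K' * P⌋₊, om0 (nm h / (K * P)) *
      (cb q 1 β P (det h h₁) * cb q 1 β P (det h h₂))| ≤
      ∑ h ∈ disc ⌊2 * K * P⌋₊, cp q 1 β P (det h h₁) * cp q 1 β P (det h h₂) := by
  classical
  have hPR : (0 : ℝ) < P := by exact_mod_cast hP
  have hKP : 0 < K * P := by positivity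
  refine (abs_sum_le_sum_abs _ _).trans ?_
  rw [← sum_filter_of_ne (p := fun h => h ∈ disc ⌊2 * K * P⌋₊)]
  · refine le_trans (sum_le_sum fun h _ => ?_) (sum_le_sum_of_subset_of_nonneg
      (fun h hh => (mem_filter.1 hh).2)
      fun h _ _ => mul_nonneg (cp_nonneg _ _ _ _ _) (cp_nonneg _ _ _ _ _))
    rw [abs_mul, abs_of_nonneg (om0_nonneg _)]
    exact (mul_le_of_le_one_left (abs_nonneg _) (om0_le_one _)).trans
      (abs_cb_mul_le _ _ _ _ _ _ _ _)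
  · intro h hh hne
    rw [mem_disc] at hh ⊢
    refine ⟨hh.1, Nat.le_floor ?_⟩
    by_contra hc
    refine hne ?_
    rw [om0_eq_zero, zero_mul, abs_zero]
    rw [le_div_iff₀ hKP]
    linarith

lemma cauchy {P : ℕ} {K K' : ℝ} (hK : 1 ≤ K) (hK' : K ≤ K') (hP : 0 < P) (c : ℤ → ℝ)
    (f f' : G → ℝ) (hf : ∀ h, |f h| ≤ 1) (hf' : ∀ h, |f' h| ≤ 1) :
    (∑ h ∈ An 0 (K * P), ∑ h' ∈ An 0 (K * P), f h * f' h' * c (det h h')) ^ 2 ≤
      9 * (K * P) * ∑ h₁ ∈ An 0 (K * P), ∑ h₂ ∈ An 0 (K * P),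
        |∑ h ∈ disc ⌊K' * P⌋₊, om0 (nm h / (K * P)) * (c (det h h₁) * c (det h h₂))| := by
  have hPR : (0 : ℝ) < P := by exact_mod_cast hP
  have hKP : 0 < K * P := by positivity
  set A := An 0 (K * P)
  let S : G → ℝ := fun h => ∑ h' ∈ A, f' h' * c (det h h')
  have e1 : ∑ h ∈ A, ∑ h' ∈ A, f h * f' h' * c (det h h') = ∑ h ∈ A, f h * S h := by
    simp only [S, mul_sum, mul_assoc]
  have e2 : ∑ h ∈ A, f h ^ 2 ≤ 9 * (K * P) := by
    refine le_trans ?_ (card_An_le 0 hKP.le)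
    rw [card_eq_sum_ones]
    push_cast
    refine sum_le_sum fun h _ => ?_
    rw [← sq_abs]
    exact pow_le_one₀ (abs_nonneg _) (hf h)
  have e3 : ∑ h ∈ A, S h ^ 2 ≤ ∑ h ∈ disc ⌊K' * P⌋₊, om0 (nm h / (K * P)) * S h ^ 2 := by
    refine le_trans (le_of_eq (sum_congr rfl fun h hh => ?_)) (sum_le_sum_of_subset_of_nonneg
      (fun h hh => ?_) fun h _ _ => mul_nonneg (om0_nonneg _) (sq_nonneg _))
    · rw [om0_eq_one, one_mul]
      rw [div_le_one hKP]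
      exact ((mem_An le_rfl).1 hh).2.2
    · exact mem_disc.2 ⟨ne_of_mem_An hh, Nat.le_floor (((mem_An le_rfl).1 hh).2.2.trans
        (mul_le_mul_of_nonneg_right hK' hPR.le))⟩
  have e4 : ∑ h ∈ disc ⌊K' * P⌋₊, om0 (nm h / (K * P)) * S h ^ 2 =
      ∑ h₁ ∈ A, ∑ h₂ ∈ A, (f' h₁ * f' h₂) *
        ∑ h ∈ disc ⌊K' * P⌋₊, om0 (nm h / (K * P)) * (c (det h h₁) * c (det h h₂)) := by
    simp only [S, sq, sum_mul_sum]
    simp only [mul_sum]
    rw [sum_comm]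
    refine sum_congr rfl fun h₁ _ => ?_
    rw [sum_comm]
    exact sum_congr rfl fun h₂ _ => sum_congr rfl fun h _ => by ring
  rw [e1]
  refine (sum_mul_sq_le_sq_mul_sq _ _ _).trans (mul_le_mul e2 (e3.trans ?_)
    (sum_nonneg fun _ _ => sq_nonneg _) (by positivity))
  rw [e4]
  refine sum_le_sum fun h₁ _ => sum_le_sum fun h₂ _ => (le_abs_self _).trans ?_
  rw [abs_mul, abs_mul]
  exact mul_le_of_le_one_left (abs_nonneg _)
    (mul_le_one₀ (hf' _) (abs_nonneg _) (hf' _))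

end BilinAux

open BilinAux in
/-- The bilinear form with kernel primes minus model is small, local form. -/
theorem bilin {K ε β : ℝ} (hK : 1 ≤ K) (hε : 0 < ε) (h1 : 1 ≤ β) (h2 : β ≤ 2) :
    ∀ᶠ w : ℕ in atTop, ∀ᶠ P : ℕ in atTop, ∀ f f' : G → ℝ, (∀ h, |f h| ≤ 1) → (∀ h, |f' h| ≤ 1) →
      |∑ h ∈ An 0 (K * P), ∑ h' ∈ An 0 (K * P), f h * f' h' * cb (4 * WW w) 1 β P (det h h')| ≤
        ε * (P : ℝ) ^ 2 := by
  have hK0 : 0 < K := by linarith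
  set δ : ℝ := ε ^ 2 / (27 * K) with hδ
  have hδ0 : 0 < δ := by positivity
  obtain ⟨η, hη, hnear⟩ := near_diag hK hδ0
  set K' : ℝ := 32 * K / η ^ 2 + K with hK'
  have hK'1 : K ≤ K' := by
    have : 0 ≤ 32 * K / η ^ 2 := by positivity
    linarith
  have hK'2 : 32 * K / η ^ 2 ≤ K' := by linarith
  obtain ⟨C, hC, hall⟩ := near_all hK (hK.trans hK'1)
  obtain ⟨J, hJ⟩ := exists_nat_gt (16 * C / (η ^ 2 * δ))
  have hJR : (0 : ℝ) < J := lt_trans (by positivity) hJ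
  have hJ0 : 0 < J := by exact_mod_cast hJR
  obtain ⟨C', lm, hC', hlm, hfar⟩ := sum_far_le hK hη
  have hε' : 0 < δ / (C' * J ^ 2) := by positivity
  filter_upwards [cell hK hη hε'] with w hw
  have hq : 0 < 4 * WW w := by have := (odd_WW w).pos; omega
  have hcells := (eventually_all_finset (range J)).2 fun i hi' =>
    (eventually_all_finset (range J)).2 fun j hj' =>
      hw (lo β J i) (hi β J i) (lo β J j) (hi β J j) (one_le_lo h1 J i) (lo_le_hi h1 J i)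
        (hi_le_two h1 h2 (mem_range.1 hi')) (one_le_lo h1 J j) (lo_le_hi h1 J j)
        (hi_le_two h1 h2 (mem_range.1 hj'))
  filter_upwards [hcells, hnear _ hq, hall _ hq, eventually_gt_atTop 0] with P hc hn ha hP
  intro f f' hf hf'
  have hPR : (0 : ℝ) < P := by exact_mod_cast hP
  set q := 4 * WW w
  set A := An 0 (K * P) with hA
  have b1 := cauchy hK hK'1 hP (cb q 1 β P) f f' hf hf'
  have b2 := hn β h2
  have b3 := ha β h2
  have b4 := hfar P (fun D l => ∑ i ∈ range J, ∑ j ∈ range J, tc q β J P D l i j) hP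
    fun D l => sum_nonneg fun _ _ => sum_nonneg fun _ _ => abs_nonneg _
  have b5 : ∑ D ∈ Ioc ⌊η * P⌋₊ ⌊K * P⌋₊, ∑ l ∈ (range D).filter (fun l => l.Coprime D),
      ∑ i ∈ range J, ∑ j ∈ range J, tc q β J P D l i j ≤ δ / C' * (P : ℝ) ^ 3 := by
    have e1 : ∑ D ∈ Ioc ⌊η * P⌋₊ ⌊K * P⌋₊, ∑ l ∈ (range D).filter (fun l => l.Coprime D),
        ∑ i ∈ range J, ∑ j ∈ range J, tc q β J P D l i j = ∑ i ∈ range J, ∑ j ∈ range J,
        ∑ D ∈ Ioc ⌊η * P⌋₊ ⌊K * P⌋₊, ∑ l ∈ (range D).filter (fun l => l.Coprime D),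
          tc q β J P D l i j := by
      rw [sum_congr rfl fun D _ => sum_comm, sum_comm]
      refine sum_congr rfl fun i _ => ?_
      rw [sum_congr rfl fun D _ => sum_comm, sum_comm]
    rw [e1]
    refine (sum_le_sum fun i hi' => sum_le_sum fun j hj' => hc i hi' j hj').trans (le_of_eq ?_)
    simp only [sum_const, card_range, nsmul_eq_mul]
    field_simp
  have b6 : ∑ h₁ ∈ A, ∑ h₂ ∈ A, ∑ h ∈ disc ⌊K' * P⌋₊,
      cp q 1 β P (det h h₁) * cp q 1 β P (det h h₂) ≤ C * (P : ℝ) ^ 3 := by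
    rw [sum_congr rfl fun D _ => sum_comm, sum_comm]
    refine le_trans (sum_le_sum fun h _ => ?_) b3
    rw [← sum_mul_sum, ← sq]
    exact pow_le_pow_left₀ (sum_nonneg fun _ _ => cp_nonneg _ _ _ _ _)
      (sum_le_sum_of_subset_of_nonneg (An_subset_disc _ _) fun _ _ _ => cp_nonneg _ _ _ _ _) 2
  have b7 : ∑ h₁ ∈ A, ∑ h₂ ∈ A, |∑ h ∈ disc ⌊K' * P⌋₊, om0 (nm h / (K * P)) *
      (cb q 1 β P (det h h₁) * cb q 1 β P (det h h₂))| ≤
      ∑ h₁ ∈ A, ∑ h₂ ∈ A, ((∑ h ∈ disc ⌊2 * K * P⌋₊, if |(det h₁ h₂ : ℝ)| ≤ η * P then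
          cp q 1 β P (det h h₁) * cp q 1 β P (det h h₂) else 0) +
        (if η * P < |(det h₁ h₂ : ℝ)| then
          ∑ i ∈ range J, ∑ j ∈ range J, tc q β J P (det h₁ h₂).natAbs (lm h₁ h₂) i j else 0) +
        16 / (J * η ^ 2) * ∑ h ∈ disc ⌊K' * P⌋₊,
          cp q 1 β P (det h h₁) * cp q 1 β P (det h h₂)) := by
    refine sum_le_sum fun h₁ m1 => sum_le_sum fun h₂ m2 => ?_
    have m3 := (mem_An le_rfl).1 m1
    have m4 := (mem_An le_rfl).1 m2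
    by_cases hD : |(det h₁ h₂ : ℝ)| ≤ η * P
    · simp only [hD, if_true, not_lt.2 hD, if_false, add_zero]
      refine (near_pair hK hP h₁ h₂).trans (le_add_of_nonneg_right (mul_nonneg (by positivity)
        (sum_nonneg fun _ _ => mul_nonneg (cp_nonneg _ _ _ _ _) (cp_nonneg _ _ _ _ _))))
    · simp only [hD, if_false, not_le.1 hD, if_true, sum_const_zero, zero_add]
      have hD0 : det h₁ h₂ ≠ 0 := by
        intro h; rw [h] at hD; exact hD (by simpa using (mul_pos hη hPR).le)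
      exact far_pair hK hη h1 h2 hJ0 hP m3.2.2 m4.2.2 (not_le.1 hD) _ (hlm h₁ h₂ m3.1 hD0) hK'2
  simp only [sum_add_distrib, ← mul_sum] at b7
  have b8 : ∑ h₁ ∈ A, ∑ h₂ ∈ A, (∑ h ∈ disc ⌊2 * K * P⌋₊, if |(det h₁ h₂ : ℝ)| ≤ η * P then
      cp q 1 β P (det h h₁) * cp q 1 β P (det h h₂) else 0) ≤ δ * (P : ℝ) ^ 3 := by
    rw [sum_congr rfl fun D _ => sum_comm, sum_comm]
    exact b2
  have b9 := b4.trans (mul_le_mul_of_nonneg_left b5 hC'.le)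
  have b10 : C' * (δ / C' * (P : ℝ) ^ 3) = δ * (P : ℝ) ^ 3 := by field_simp
  have b11 : 16 / (J * η ^ 2) * (C * (P : ℝ) ^ 3) ≤ δ * (P : ℝ) ^ 3 := by
    rw [← mul_assoc]
    refine mul_le_mul_of_nonneg_right ?_ (by positivity)
    rw [div_lt_iff₀ (by positivity)] at hJ
    rw [div_mul_eq_mul_div, div_le_iff₀ (by positivity)]
    linarith
  have b12 := (mul_le_mul_of_nonneg_left b6 (show 0 ≤ 16 / (J * η ^ 2) by positivity)).trans b11
  rw [b10] at b9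
  have b13 := b7.trans (add_le_add (add_le_add b8 b9) b12)
  have b14 := b1.trans (mul_le_mul_of_nonneg_left b13 (by positivity))
  refine abs_le.2 (abs_le_of_sq_le_sq' (b14.trans (le_of_eq ?_)) (by positivity))
  rw [hδ]
  field_simp
  ring

end Pool.Agent.P.MP_a1177c_nt.LC
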