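import Pool.Agent.P.MP_a1177c_nt.LC.Geo

namespace Pool.Agent.P.MP_a1177c_nt.LC

open Finset Filter MR MR.StructAux
open scoped ComplexConjugate Topology

namespace ConeAux

lemma far_Q {Q : ℝ} {e : G × G} (he : e ∈ Far Q) : 1 ≤ Q := by
  have h := (mem_product.1 (mem_filter.1 he).1).1
  obtain ⟨h1, h2⟩ := mem_disc.1 h
  exact Nat.floor_pos.1 ((nm_pos h1).trans_le h2)

lemma far_iff {Q : ℝ} {e : G × G} (he : e ∈ Far Q) :
    det e.1 e.2 = 1 ∧ (nm e.1 : ℝ) ≤ Q ∧ (nm e.2 : ℝ) ≤ Q ∧ Q < nm (e.1 + e.2) :=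
  (mem_Far (zero_le_one.trans (far_Q he))).1 he

lemma nm_add (a b : G) : (nm (a + b) : ℤ) = nm a + 2 * dot a b + nm b := by
  simp [nm_int, dot]; ring

lemma two_dot_int (a b : G) : 2 * dot a b ≤ (nm a : ℤ) + nm b := by
  simp only [nm_int, dot]
  nlinarith [sq_nonneg (a.re - b.re), sq_nonneg (a.im - b.im)]

lemma det_sw (a b : G) : det a b = -det b a := by simp [det]; ring

lemma nm_cone {e : G × G} (he : det e.1 e.2 = 1) (w : G) : (nm w : ℤ) =
    det w e.2 ^ 2 * nm e.1 + 2 * det w e.2 * det e.1 w * dot e.1 e.2 + det e.1 w ^ 2 * nm e.2 := by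
  have := nm_act e (co e w)
  rwa [act_co he] at this

/-- the three vector identity, in squared form -/
lemma three (a b c : G) :
    det a b ^ 2 * (nm c : ℤ) ≤ 2 * (det b c ^ 2 * nm a + det c a ^ 2 * nm b) := by
  have h1 : det a b * c.re = -(det b c * a.re + det c a * b.re) := by simp only [det]; ring
  have h2 : det a b * c.im = -(det b c * a.im + det c a * b.im) := by simp only [det]; ring
  have e : det a b ^ 2 * (nm c : ℤ) = (det a b * c.re) ^ 2 + (det a b * c.im) ^ 2 := by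
    rw [nm_int]; ring
  rw [e, h1, h2, nm_int, nm_int]
  nlinarith [sq_nonneg (det b c * a.re - det c a * b.re), sq_nonneg (det b c * a.im - det c a * b.im)]

lemma three_real (a b c : G) : (det a b : ℝ) ^ 2 * (nm c : ℝ) ≤
    2 * ((det b c : ℝ) ^ 2 * nm a + (det c a : ℝ) ^ 2 * nm b) := by
  exact_mod_cast three a b c

end ConeAux

open ConeAux

theorem far_dot {Q : ℝ} {e : G × G} (he : e ∈ Far Q) : 0 ≤ dot e.1 e.2 := by
  obtain ⟨h1, h2, h3, h4⟩ := far_iff he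
  have a1 : (nm e.1 : ℤ) < nm (e.1 + e.2) := by exact_mod_cast h2.trans_lt h4
  have a2 : (nm e.2 : ℤ) < nm (e.1 + e.2) := by exact_mod_cast h3.trans_lt h4
  have a3 := dot_sq_add_det_sq e.1 e.2
  rw [nm_add] at a1 a2
  rw [h1] at a3
  by_contra hc
  have b1 : -2 * dot e.1 e.2 + 1 ≤ nm e.1 := by omega
  have b2 : -2 * dot e.1 e.2 + 1 ≤ nm e.2 := by omega
  have b3 := mul_le_mul b1 b2 (by omega) (by omega)
  nlinarith

namespace ConeAux

/-- the squares of the coordinates are controlled by the norm -/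
lemma coord_le {Q : ℝ} {e : G × G} (he : e ∈ Far Q) {w : G} (h : InCone e w) :
    det w e.2 ^ 2 * nm e.1 + det e.1 w ^ 2 * nm e.2 ≤ (nm w : ℤ) := by
  rw [nm_cone (far_iff he).1 w]
  have := far_dot he
  have h1 := h.1
  have h2 := h.2
  have : 0 ≤ 2 * det w e.2 * det e.1 w * dot e.1 e.2 := by positivity
  linarith

lemma no_short {Q : ℝ} {e : G × G} (he : e ∈ Far Q) {w : G} (h : InCone e w) : Q < nm w := by
  obtain ⟨h1, -, -, h4⟩ := far_iff he
  refine h4.trans_le ?_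
  have hB := far_dot he
  have : (nm (e.1 + e.2) : ℤ) ≤ nm w := by
    rw [nm_cone h1 w, nm_add]
    have a1 : 1 ≤ det w e.2 ^ 2 := one_le_pow₀ h.1
    have a2 : 1 ≤ det e.1 w ^ 2 := one_le_pow₀ h.2
    have a3 : 1 ≤ det w e.2 * det e.1 w := one_le_mul_of_one_le_of_one_le h.1 h.2
    have b1 := mul_le_mul_of_nonneg_right a1 (Int.natCast_nonneg (nm e.1))
    have b2 := mul_le_mul_of_nonneg_right a2 (Int.natCast_nonneg (nm e.2))
    have b3 := mul_le_mul_of_nonneg_right a3 hB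
    linarith
  exact_mod_cast this

lemma not_cone {Q : ℝ} {e : G × G} (he : e ∈ Far Q) {w : G} (h : (nm w : ℝ) ≤ Q) :
    ¬ (1 ≤ det w e.2 ∧ 1 ≤ det e.1 w) := fun h' => absurd (no_short he h') (not_lt.2 h)

lemma eq_fst {e : G × G} (he : det e.1 e.2 = 1) {w : G} (h1 : det w e.2 = 1) (h2 : det e.1 w = 0) :
    w = e.1 := by
  rw [← act_co he w, co, h1, h2]; simp [act]

lemma eq_snd {e : G × G} (he : det e.1 e.2 = 1) {w : G} (h1 : det w e.2 = 0) (h2 : det e.1 w = 1) :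
    w = e.2 := by
  rw [← act_co he w, co, h1, h2]; simp [act]

end ConeAux

theorem far_fst_inj {Q : ℝ} {e e' : G × G} (he : e ∈ Far Q) (he' : e' ∈ Far Q)
    (h : e.1 = e'.1) : e = e' := by
  obtain ⟨h1, -, h3, -⟩ := far_iff he
  obtain ⟨h1', -, h3', -⟩ := far_iff he'
  have a1 := not_cone he h3'
  have a2 := not_cone he' h3
  have a3 := det_sw e.2 e'.2
  rw [← h, h1] at a2
  have a4 : det e.1 e'.2 = 1 := by rw [h, h1']
  rw [a4] at a1
  exact Prod.ext h (eq_snd h1 (by omega) a4).symm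

theorem far_snd_inj {Q : ℝ} {e e' : G × G} (he : e ∈ Far Q) (he' : e' ∈ Far Q)
    (h : e.2 = e'.2) : e = e' := by
  obtain ⟨h1, h2, -, -⟩ := far_iff he
  obtain ⟨h1', h2', -, -⟩ := far_iff he'
  have a1 := not_cone he h2'
  have a2 := not_cone he' h2
  have a3 := det_sw e.1 e'.1
  rw [← h, h1] at a2
  have a4 : det e'.1 e.2 = 1 := by rw [h, h1']
  rw [a4] at a1
  exact Prod.ext (eq_fst h1 a4 (by omega)).symm h

theorem card_Far_le {Q : ℝ} (hQ : 0 ≤ Q) : ((Far Q).card : ℝ) ≤ 9 * Q := by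
  refine le_trans ?_ (card_disc_floor_le hQ)
  exact_mod_cast card_le_card_of_injOn Prod.fst
    (fun e he => (mem_product.1 (mem_filter.1 he).1).1) fun e he e' he' h => far_fst_inj he he' h

namespace ConeAux

lemma descend {Q : ℝ} (hQ : 1 ≤ Q) {w : G} (h1 : cont w = 1) (h2 : Q < nm w) (n : ℕ) :
    ∀ e : G × G, det e.1 e.2 = 1 → (nm e.1 : ℝ) ≤ Q → (nm e.2 : ℝ) ≤ Q → InCone e w →
      det w e.2 + det e.1 w ≤ n → ∃ e ∈ Far Q, InCone e w := by
  induction n with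
  | zero =>
    intro e _ _ _ h hn
    have := h.1
    have := h.2
    omega
  | succ n ih =>
    intro e hd ha hb h hn
    by_cases hS : Q < nm (e.1 + e.2)
    · exact ⟨e, (mem_Far (by linarith)).2 ⟨hd, ha, hb, hS⟩, h⟩
    push Not at hS
    have x1 := h.1
    have y1 := h.2
    have e1 : det (e.1 + e.2) w = det e.1 w - det w e.2 := by simp [det]; ring
    have e2 : det w (e.1 + e.2) = det w e.2 - det e.1 w := by simp [det]; ring
    have e3 : det (e.1 + e.2) e.2 = det e.1 e.2 := by simp [det]; ring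
    have e4 : det e.1 (e.1 + e.2) = det e.1 e.2 := by simp [det]; ring
    rcases lt_trichotomy (det w e.2) (det e.1 w) with hlt | heq | hgt
    · refine ih (e.1 + e.2, e.2) (e3.trans hd) hS hb ⟨x1, ?_⟩ ?_
      · simp only [e1]; omega
      · simp only [e1]; push_cast at hn; omega
    · exfalso
      have c1 := cont_co hd w
      rw [h1, cont, co, heq] at c1
      simp only [Int.gcd_self] at c1
      have c2 : det e.1 w = 1 := by omega
      have c3 : w = e.1 + e.2 := by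
        rw [← act_co hd w, co, heq, c2]; simp [act]
      rw [← c3] at hS
      linarith
    · refine ih (e.1, e.1 + e.2) (e4.trans hd) ha hS ⟨?_, y1⟩ ?_
      · simp only [e2]; omega
      · simp only [e2]; push_cast at hn; omega

end ConeAux

theorem exists_cone {Q : ℝ} (hQ : 1 ≤ Q) {w : G} (h1 : cont w = 1) (h2 : Q < nm w) :
    ∃ e ∈ Far Q, InCone e w := by
  have hn : (1 : ℤ) < w.re ^ 2 + w.im ^ 2 := by
    rw [← nm_int]; exact_mod_cast hQ.trans_lt h2
  have hre : w.re ≠ 0 := by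
    intro h
    rw [cont, h, Int.gcd_zero_left] at h1
    rcases Int.natAbs_eq_iff.1 h1 with h3 | h3 <;> simp [h, h3] at hn
  have him : w.im ≠ 0 := by
    intro h
    rw [cont, h, Int.gcd_zero_right] at h1
    rcases Int.natAbs_eq_iff.1 h1 with h3 | h3 <;> simp [h, h3] at hn
  have key : ∀ e : G × G, det e.1 e.2 = 1 → e.1.re ^ 2 + e.1.im ^ 2 = 1 →
      e.2.re ^ 2 + e.2.im ^ 2 = 1 → InCone e w → ∃ e ∈ Far Q, InCone e w := by
    intro e hd ha hb h
    refine descend hQ h1 h2 (det w e.2 + det e.1 w).toNat e hd ?_ ?_ h (Int.self_le_toNat _)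
    · have : (nm e.1 : ℤ) = 1 := (nm_int _).trans ha
      have : (nm e.1 : ℝ) = 1 := by exact_mod_cast this
      linarith
    · have : (nm e.2 : ℤ) = 1 := (nm_int _).trans hb
      have : (nm e.2 : ℝ) = 1 := by exact_mod_cast this
      linarith
  rcases lt_or_gt_of_ne hre with a | a <;> rcases lt_or_gt_of_ne him with b | b
  · exact key (⟨-1, 0⟩, ⟨0, -1⟩) (by simp [det]) (by simp) (by simp)
      ⟨by simp only [det]; omega, by simp only [det]; omega⟩
  · exact key (⟨0, 1⟩, ⟨-1, 0⟩) (by simp [det]) (by simp) (by simp)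
      ⟨by simp only [det]; omega, by simp only [det]; omega⟩
  · exact key (⟨0, -1⟩, ⟨1, 0⟩) (by simp [det]) (by simp) (by simp)
      ⟨by simp only [det]; omega, by simp only [det]; omega⟩
  · exact key (⟨1, 0⟩, ⟨0, 1⟩) (by simp [det]) (by simp) (by simp)
      ⟨by simp only [det]; omega, by simp only [det]; omega⟩

theorem cone_unique {Q : ℝ} {e e' : G × G} (he : e ∈ Far Q) (he' : e' ∈ Far Q) {w : G}
    (h : InCone e w) (h' : InCone e' w) : e = e' := by
  obtain ⟨h1, h2, h3, -⟩ := far_iff he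
  obtain ⟨h1', h2', h3', -⟩ := far_iff he'
  have n1 := not_cone he h2'
  have n2 := not_cone he h3'
  have n3 := not_cone he' h2
  have n4 := not_cone he' h3
  rw [det_sw e'.1 e.1] at n3
  rw [det_sw e.2 e'.2] at n4
  obtain ⟨x1, y1⟩ := h
  obtain ⟨x2, y2⟩ := h'
  have r1 : det w e.2 = det w e'.2 * det e'.1 e.2 + det e'.1 w * det e'.2 e.2 := by
    simp only [det] at h1' ⊢; linear_combination (-(w.re * e.2.im - w.im * e.2.re)) * h1'
  have r2 : det e.1 w = det w e'.2 * det e.1 e'.1 + det e'.1 w * det e.1 e'.2 := by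
    simp only [det] at h1' ⊢; linear_combination (-(e.1.re * w.im - e.1.im * w.re)) * h1'
  have r3 : det w e'.2 = det e.1 e'.2 * det w e.2 - det e'.2 e.2 * det e.1 w := by
    simp only [det] at h1 ⊢; linear_combination (-(w.re * e'.2.im - w.im * e'.2.re)) * h1
  have r4 : det e'.1 e.2 * det e.1 e'.2 - det e.1 e'.1 * det e'.2 e.2 = 1 := by
    simp only [det] at h1 h1' ⊢
    linear_combination (e'.1.re * e'.2.im - e'.1.im * e'.2.re) * h1 + h1'
  generalize det w e.2 = x at *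
  generalize det e.1 w = y at *
  generalize det w e'.2 = x' at *
  generalize det e'.1 w = y' at *
  by_cases ha : 1 ≤ det e'.1 e.2
  · have b0 : det e.1 e'.1 ≤ 0 := by omega
    have d1 : 1 ≤ det e.1 e'.2 := by
      by_contra hc
      have : det e.1 e'.2 ≤ 0 := by omega
      nlinarith
    have b1 : det e.1 e'.1 = 0 := by omega
    have a1 : det e'.1 e.2 = 1 := by
      rw [b1] at r4
      nlinarith
    exact far_fst_inj he he' (eq_fst h1 a1 b1).symm
  · exfalso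
    have a0 : det e'.1 e.2 ≤ 0 := by omega
    have c1 : 1 ≤ det e'.2 e.2 := by
      by_contra hc
      have : det e'.2 e.2 ≤ 0 := by omega
      nlinarith
    have d0 : det e.1 e'.2 ≤ 0 := by omega
    nlinarith

/-- Coordinates of a point of a good cone. -/
theorem nm_co_bounds {Q K : ℝ} (hQ : 0 < Q) (hK : 0 < K) {e : G × G} (he : e ∈ FarG Q K) {w : G}
    (h : InCone e w) :
    (nm w : ℝ) ≤ 2 * Q * nm (co e w) ∧ Q / K * nm (co e w) ≤ nm w := by
  obtain ⟨he, g1, g2⟩ := mem_filter.1 he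
  obtain ⟨h1, h2, h3, -⟩ := far_iff he
  have e1 : (nm (co e w) : ℝ) = (det w e.2 : ℝ) ^ 2 + (det e.1 w : ℝ) ^ 2 := by
    rw [nm_real]; simp [co]
  have e2 : (nm w : ℝ) = (det w e.2 : ℝ) ^ 2 * nm e.1 +
      2 * det w e.2 * det e.1 w * dot e.1 e.2 + (det e.1 w : ℝ) ^ 2 * nm e.2 := by
    exact_mod_cast nm_cone h1 w
  have e3 : (det w e.2 : ℝ) ^ 2 * nm e.1 + (det e.1 w : ℝ) ^ 2 * nm e.2 ≤ nm w := by
    exact_mod_cast coord_le he h
  have b0 : (0 : ℝ) ≤ dot e.1 e.2 := by exact_mod_cast far_dot he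
  have b1 : 2 * (dot e.1 e.2 : ℝ) ≤ nm e.1 + nm e.2 := by exact_mod_cast two_dot_int e.1 e.2
  rw [e1]
  generalize (det w e.2 : ℝ) = x at *
  generalize (det e.1 w : ℝ) = y at *
  constructor
  · have a1 : x ^ 2 * nm e.1 ≤ x ^ 2 * Q := by gcongr
    have a2 : y ^ 2 * nm e.2 ≤ y ^ 2 * Q := by gcongr
    have a3 : 2 * x * y * dot e.1 e.2 ≤ (x ^ 2 + y ^ 2) * dot e.1 e.2 :=
      mul_le_mul_of_nonneg_right (by nlinarith [sq_nonneg (x - y)]) b0
    have a4 : (x ^ 2 + y ^ 2) * dot e.1 e.2 ≤ (x ^ 2 + y ^ 2) * Q :=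
      mul_le_mul_of_nonneg_left (by linarith) (by positivity)
    linarith
  · have a1 : x ^ 2 * (Q / K) ≤ x ^ 2 * nm e.1 := by gcongr
    have a2 : y ^ 2 * (Q / K) ≤ y ^ 2 * nm e.2 := by gcongr
    linarith

/-- Coordinates of a partner. -/
theorem nm_co_partner {Q K X₀ X V : ℝ} (hQ : 0 < Q) (hK : 0 < K) (h0 : 0 < X₀) {e : G × G}
    (he : e ∈ FarG Q K) {w w' : G} (h : InCone e w) (h1 : X₀ ≤ nm w) (h2 : (nm w : ℝ) ≤ X)
    (h3 : (nm w' : ℝ) ≤ X) (hV : |(det w w' : ℝ)| ≤ V) :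
    (nm (co e w') : ℝ) ≤ 4 * (K * X ^ 2 / (Q * X₀) + V ^ 2 * Q / X₀) := by
  have hb := (nm_co_bounds hQ hK he h).2
  obtain ⟨he, -, -⟩ := mem_filter.1 he
  obtain ⟨-, g2, g3, -⟩ := far_iff he
  have e1 : ∀ u : G, (nm (co e u) : ℝ) = (det u e.2 : ℝ) ^ 2 + (det e.1 u : ℝ) ^ 2 := fun u => by
    rw [nm_real]; simp [co]
  have t1 := three_real w' e.2 w
  have t2 := three_real e.1 w' w
  have s1 : (det e.2 w : ℝ) ^ 2 = (det w e.2 : ℝ) ^ 2 := by rw [det_sw]; push_cast; ring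
  have s2 : (det w' w : ℝ) ^ 2 = (det w w' : ℝ) ^ 2 := by rw [det_sw]; push_cast; ring
  have s3 : (det w e.1 : ℝ) ^ 2 = (det e.1 w : ℝ) ^ 2 := by rw [det_sw]; push_cast; ring
  rw [s1] at t1
  rw [s2, s3] at t2
  have hV2 : (det w w' : ℝ) ^ 2 ≤ V ^ 2 := by
    rw [← sq_abs]; gcongr
  have hX : 0 < X := h0.trans_le (h1.trans h2)
  have c1 : (nm (co e w) : ℝ) ≤ K * X / Q := by
    rw [le_div_iff₀ hQ]
    rw [div_mul_eq_mul_div, div_le_iff₀ hK] at hb
    nlinarith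
  rw [e1] at c1
  rw [e1]
  have e2 : 4 * (K * X ^ 2 / (Q * X₀) + V ^ 2 * Q / X₀) = 4 * (K * X / Q * X + V ^ 2 * Q) / X₀ := by
    field_simp
  rw [e2, le_div_iff₀ h0]
  have a1 : ((det w' e.2 : ℝ) ^ 2 + (det e.1 w' : ℝ) ^ 2) * X₀ ≤
      ((det w' e.2 : ℝ) ^ 2 + (det e.1 w' : ℝ) ^ 2) * nm w := by gcongr
  have a2 : ((det w e.2 : ℝ) ^ 2 + (det e.1 w : ℝ) ^ 2) * nm w' ≤ K * X / Q * X := by gcongr
  have a3 : (det w w' : ℝ) ^ 2 * nm e.1 ≤ V ^ 2 * Q := by gcongr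
  have a4 : (det w w' : ℝ) ^ 2 * nm e.2 ≤ V ^ 2 * Q := by gcongr
  have a5 : 0 ≤ K * X / Q * X := by positivity
  linarith

/-- Few points lie in cones with a short generator. -/
theorem card_bad_cone : ∃ C : ℝ, 0 < C ∧ ∀ (Q K X₀ X : ℝ) (d : ℕ) (T : Finset G), 1 ≤ Q → 4 ≤ K →
    0 < X₀ → 0 < d → d * Q ≤ X → (∀ w ∈ T, cont w = 1 ∧ X₀ ≤ nm w ∧ (nm w : ℝ) ≤ X) →
    (∀ w ∈ T, ∃ e ∈ Far Q, e ∉ FarG Q K ∧ InCone e w) →
    (∀ w ∈ T, ∀ w' ∈ T, (d : ℤ) ∣ det w w') →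
    (T.card : ℝ) ≤ C * (X / d) * √(X / X₀) / √K := by
  classical
  refine ⟨1800, by norm_num, fun Q K X₀ X d T hQ hK h0 hd hdQ hT hbad hdv => ?_⟩
  have hQ0 : 0 < Q := by linarith
  have hK0 : 0 < K := by linarith
  have hd1 : (1 : ℝ) ≤ d := by exact_mod_cast hd
  have hX : 0 < X := by nlinarith
  have hQK : Q / K ≤ Q / 4 := by gcongr
  let F : G → Finset G := fun a => T.filter fun w => (det a w : ℝ) ^ 2 ≤ 4 * X / Q
  have hsub : T ⊆ (disc ⌊Q / K⌋₊).biUnion F := by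
    intro w hw
    obtain ⟨e, he, hg, hc⟩ := hbad w hw
    obtain ⟨g1, g2, g3, g4⟩ := far_iff he
    have hm := mem_product.1 (mem_filter.1 he).1
    have e3 : (det w e.2 : ℝ) ^ 2 * nm e.1 + (det e.1 w : ℝ) ^ 2 * nm e.2 ≤ nm w := by
      exact_mod_cast coord_le he hc
    have e4 : (nm (e.1 + e.2) : ℝ) ≤ 2 * (nm e.1 + nm e.2) := by
      have := two_dot_int e.1 e.2
      have : (nm (e.1 + e.2) : ℤ) ≤ 2 * (nm e.1 + nm e.2) := by rw [nm_add]; linarith
      exact_mod_cast this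
    have e5 := (hT w hw).2.2
    have p1 : 0 ≤ (det w e.2 : ℝ) ^ 2 * nm e.1 := by positivity
    have p2 : 0 ≤ (det e.1 w : ℝ) ^ 2 * nm e.2 := by positivity
    by_cases ha : (nm e.1 : ℝ) < Q / K
    · refine mem_biUnion.2 ⟨e.1, mem_disc.2 ⟨(mem_disc.1 hm.1).1, Nat.le_floor ha.le⟩,
        mem_filter.2 ⟨hw, ?_⟩⟩
      have : (det e.1 w : ℝ) ^ 2 * (Q / 4) ≤ (det e.1 w : ℝ) ^ 2 * nm e.2 :=
        mul_le_mul_of_nonneg_left (by linarith) (by positivity)
      rw [le_div_iff₀ hQ0]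
      linarith
    · have hb : (nm e.2 : ℝ) < Q / K := by
        by_contra hb
        exact hg (mem_filter.2 ⟨he, not_lt.1 ha, not_lt.1 hb⟩)
      refine mem_biUnion.2 ⟨e.2, mem_disc.2 ⟨(mem_disc.1 hm.2).1, Nat.le_floor hb.le⟩,
        mem_filter.2 ⟨hw, ?_⟩⟩
      have : (det w e.2 : ℝ) ^ 2 * (Q / 4) ≤ (det w e.2 : ℝ) ^ 2 * nm e.1 :=
        mul_le_mul_of_nonneg_left (by linarith) (by positivity)
      have s1 : (det e.2 w : ℝ) ^ 2 = (det w e.2 : ℝ) ^ 2 := by rw [det_sw]; push_cast; ring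
      rw [le_div_iff₀ hQ0, s1]
      linarith
  have hsQ : 0 < √Q := Real.sqrt_pos.2 hQ0
  have hF : ∀ a ∈ disc ⌊Q / K⌋₊, ((F a).card : ℝ) ≤
      45 * (X / d) * √(X / X₀) / √Q * (1 / √(nm a)) := by
    intro a ha
    obtain ⟨a0, a1⟩ := mem_disc.1 ha
    have a2 : (0 : ℝ) < nm a := by exact_mod_cast nm_pos a0
    have a3 : (nm a : ℝ) ≤ Q := by
      have : (nm a : ℝ) ≤ ⌊Q / K⌋₊ := by exact_mod_cast a1
      have := Nat.floor_le (show 0 ≤ Q / K by positivity)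
      linarith
    have hs : 0 < √(nm a : ℝ) := Real.sqrt_pos.2 a2
    have := pc (T := F a) (X₀ := X₀) (X := X) (V := 4 * X / (√Q * √(nm a))) h0 hd (by positivity)
      (fun w hw => hT w (mem_filter.1 hw).1) (fun w hw w' hw' => ?_)
      (fun w hw w' hw' => hdv w (mem_filter.1 hw).1 w' (mem_filter.1 hw').1)
    · refine this.trans ?_
      have b1 : √Q * √(nm a) ≤ Q := by
        calc √Q * √(nm a) ≤ √Q * √Q := by gcongr
          _ = Q := Real.mul_self_sqrt hQ0.le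
      have b2 : 1 ≤ X / (√Q * √(nm a)) / d := by
        rw [le_div_iff₀ (by positivity), le_div_iff₀ (by positivity)]
        nlinarith
      have b3 : 2 * (4 * X / (√Q * √(nm a))) / d + 1 ≤ 9 * (X / (√Q * √(nm a)) / d) := by
        have : 2 * (4 * X / (√Q * √(nm a))) / d = 8 * (X / (√Q * √(nm a)) / d) := by ring
        linarith
      calc _ ≤ 9 * (X / (√Q * √(nm a)) / d) * (5 * √(X / X₀)) := by gcongr
        _ = _ := by field_simp; ring
    · obtain ⟨m1, m2⟩ := mem_filter.1 hw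
      obtain ⟨m1', m2'⟩ := mem_filter.1 hw'
      have t := three_real w w' a
      have s1 : (det w' a : ℝ) ^ 2 = (det a w' : ℝ) ^ 2 := by rw [det_sw]; push_cast; ring
      rw [s1] at t
      have c1 : (det a w' : ℝ) ^ 2 * nm w ≤ 4 * X / Q * X := by
        have := (hT w m1).2.2
        gcongr
      have c2 : (det a w : ℝ) ^ 2 * nm w' ≤ 4 * X / Q * X := by
        have := (hT w' m1').2.2
        gcongr
      refine abs_le_of_sq_le_sq' ?_ (by positivity) |> abs_le.2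
      rw [div_pow, mul_pow, mul_pow, Real.sq_sqrt hQ0.le, Real.sq_sqrt a2.le,
        le_div_iff₀ (by positivity)]
      have c3 : (det w w' : ℝ) ^ 2 * nm a ≤ 16 * X ^ 2 / Q := by
        have : 16 * X ^ 2 / Q = 2 * (4 * X / Q * X + 4 * X / Q * X) := by ring
        linarith
      rw [le_div_iff₀ hQ0] at c3
      linarith
  calc (T.card : ℝ) ≤ ((disc ⌊Q / K⌋₊).biUnion F).card := by exact_mod_cast card_le_card hsub
    _ ≤ ∑ a ∈ disc ⌊Q / K⌋₊, ((F a).card : ℝ) := by exact_mod_cast card_biUnion_le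
    _ ≤ ∑ a ∈ disc ⌊Q / K⌋₊, 45 * (X / d) * √(X / X₀) / √Q * (1 / √(nm a)) := sum_le_sum hF
    _ = 45 * (X / d) * √(X / X₀) / √Q * ∑ a ∈ disc ⌊Q / K⌋₊, 1 / √(nm a) := by rw [mul_sum]
    _ ≤ 45 * (X / d) * √(X / X₀) / √Q * (40 * √(Q / K)) := by
        gcongr
        refine (sum_inv_sqrt_le _).trans ?_
        gcongr
        exact Nat.floor_le (by positivity)
    _ = _ := by
        rw [Real.sqrt_div hQ0.le]
        have := Real.sqrt_pos.2 hK0
        field_simp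
        ring

end Pool.Agent.P.MP_a1177c_nt.LC
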