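import Pool.Agent.P.MP_a1177c_nt.LC.Defs
import Pool.Agent.P.MP_a1177c_nt.MR.Kernel
import Pool.Agent.P.MP_a1177c_nt.MR.ExpSmall
import Pool.Agent.P.MP_a1177c_nt.MR.LamK

/-! Basic lattice lemmas on the Gaussian integers. -/

namespace Pool.Agent.P.MP_a1177c_nt.LC

open Finset Filter MR MR.StructAux
open scoped ComplexConjugate Topology

/-- Weighted count of the partners of a primitive point. -/
theorem sum_partners {w : G} {X₀ X B : ℝ} (h0 : 0 < X₀) (h1 : cont w = 1) (h2 : X₀ ≤ nm w)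
    (h3 : (nm w : ℝ) ≤ X) {T : Finset G} (hT : ∀ w' ∈ T, (nm w' : ℝ) ≤ X) (c : ℤ → ℝ)
    (hc : ∀ j, 0 ≤ c j) (hB : ∀ J : Finset ℤ, ∑ j ∈ J, c j ≤ B) :
    ∑ w' ∈ T, c (det w w') ≤ 5 * √(X / X₀) * B := by
  have ha : w ≠ 0 := ne_zero_of_cont h1
  have hX : 0 ≤ X := (Nat.cast_nonneg _).trans h3
  rw [← sum_fiberwise_of_maps_to (t := T.image fun i => det w i) (g := fun i => det w i)
    (fun i hi => mem_image_of_mem _ hi)]
  refine le_trans (sum_le_sum fun j _ => ?_)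
    ((mul_sum _ _ _).ge.trans (mul_le_mul_of_nonneg_left (hB _) (by positivity)))
  rw [sum_congr rfl (g := fun _ => c j) (fun i hi => by rw [(mem_filter.1 hi).2]), sum_const,
    nsmul_eq_mul]
  refine mul_le_mul_of_nonneg_right ?_ (hc j)
  have h4 := line_count ha h3 j (T.filter fun i => det w i = j) (fun b hb =>
    ⟨(mem_filter.1 hb).2, hT b (mem_filter.1 hb).1⟩)
  have h5 : √(X / nm w) ≤ √(X / X₀) := by gcongr
  rw [h1] at h4
  push_cast at h4
  linarith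

namespace GeoAux

lemma card_mult_le {V : ℝ} {d : ℕ} (hd : 0 < d) (hV0 : 0 ≤ V) (J : Finset ℤ) :
    ∑ j ∈ J, (if (d : ℤ) ∣ j ∧ |(j : ℝ)| ≤ V then (1 : ℝ) else 0) ≤ 2 * V / d + 1 := by
  classical
  have hd' : (0 : ℝ) < d := by exact_mod_cast hd
  rw [← sum_filter, sum_const, nsmul_eq_mul, mul_one]
  set n := ⌊V / d⌋₊ with hn
  have h1 : (J.filter fun j : ℤ => (d : ℤ) ∣ j ∧ |(j : ℝ)| ≤ V).card ≤ (Icc (-(n : ℤ)) n).card := by
    refine card_le_card_of_injOn (fun j => j / d) (fun j hj => ?_) (fun j hj k hk h => ?_)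
    · obtain ⟨-, ⟨t, rfl⟩, h2⟩ := mem_filter.1 hj
      have h3 : (t.natAbs : ℝ) ≤ V / d := by
        rw [le_div_iff₀ hd', Nat.cast_natAbs, Int.cast_abs]
        push_cast at h2
        rw [abs_mul, abs_of_pos hd'] at h2
        linarith
      have h4 : t.natAbs ≤ n := Nat.le_floor h3
      simp only [coe_Icc, Set.mem_Icc]
      rw [Int.mul_ediv_cancel_left _ (by exact_mod_cast hd.ne')]
      omega
    · obtain ⟨-, h2, -⟩ := mem_filter.1 hj
      obtain ⟨-, h3, -⟩ := mem_filter.1 hk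
      exact (Int.ediv_left_inj h2 h3).1 h
  rw [Int.card_Icc] at h1
  have h2 : ((J.filter fun j : ℤ => (d : ℤ) ∣ j ∧ |(j : ℝ)| ≤ V).card : ℝ) ≤ 2 * n + 1 := by
    exact_mod_cast (by omega :
      (J.filter fun j : ℤ => (d : ℤ) ∣ j ∧ |(j : ℝ)| ≤ V).card ≤ 2 * n + 1)
  have h3 : (n : ℝ) ≤ V / d := Nat.floor_le (by positivity)
  rw [mul_div_assoc]
  linarith

/-- The Gauss circle estimate. -/
lemma circle : ∃ C : ℝ, 0 < C ∧ ∀ y : ℕ,
    |((disc y).card : ℝ) - Real.pi * y| ≤ C * (y : ℝ) ^ ((2 : ℝ) / 3) := by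
  obtain ⟨C, hC, h⟩ := expsum_small
  refine ⟨C, hC, fun y => ?_⟩
  rcases Nat.eq_zero_or_pos y with rfl | hy
  · simp
  have h1 := h y 0 hy
  simp only [chi_zero, sum_const, nsmul_eq_mul, mul_one, if_true, Int.cast_zero, abs_zero,
    add_zero, one_mul] at h1
  rw [← Real.norm_eq_abs, ← Complex.norm_real]
  push_cast at h1 ⊢
  exact h1

lemma dvd_of_dvd_mul_prim {d n : ℕ} {b : G} (hb : cont b = 1)
    (h : ((d : ℤ) : G) ∣ ((n : ℤ) : G) * b) : d ∣ n := by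
  obtain ⟨h3, h4⟩ := (Zsqrtd.intCast_dvd _ _).1 h
  simp only [Zsqrtd.re_mul, Zsqrtd.im_mul, Zsqrtd.re_intCast, Zsqrtd.im_intCast, mul_zero,
    zero_mul, add_zero] at h3 h4
  obtain ⟨x, y, hxy⟩ := bezout_of_cont hb
  have : (d : ℤ) ∣ n := by
    have e : (n : ℤ) = n * b.re * x + n * b.im * y := by linear_combination (-(n : ℤ)) * hxy
    rw [e]
    exact dvd_add (h3.mul_right _) (h4.mul_right _)
  exact_mod_cast this

lemma not_dvd_both {p : ℕ} (hp : p.Prime) {h : G} (h1 : cont h = 1) (a : (p : ℤ) ∣ h.re)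
    (b : (p : ℤ) ∣ h.im) : False := by
  have := Int.dvd_gcd a b
  rw [cont] at h1
  rw [h1] at this
  exact hp.one_lt.ne' (Nat.dvd_one.1 this)

end GeoAux

open GeoAux

/-- Primitive points with small mutual determinants, all divisible by `d`. -/
theorem pc {T : Finset G} {X₀ X V : ℝ} {d : ℕ} (h0 : 0 < X₀) (hd : 0 < d) (hV0 : 0 ≤ V)
    (hT : ∀ w ∈ T, cont w = 1 ∧ X₀ ≤ nm w ∧ (nm w : ℝ) ≤ X)
    (hV : ∀ w ∈ T, ∀ w' ∈ T, |(det w w' : ℝ)| ≤ V)
    (hdv : ∀ w ∈ T, ∀ w' ∈ T, (d : ℤ) ∣ det w w') :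
    (T.card : ℝ) ≤ (2 * V / d + 1) * (5 * √(X / X₀)) := by
  classical
  rcases T.eq_empty_or_nonempty with rfl | ⟨w, hw⟩
  · simp only [card_empty, Nat.cast_zero]; positivity
  have h := sum_partners h0 (hT w hw).1 (hT w hw).2.1 (hT w hw).2.2 (T := T)
    (fun w' hw' => (hT w' hw').2.2) _ (fun j => by split_ifs <;> norm_num) (card_mult_le hd hV0)
  rw [sum_congr rfl (g := fun _ => (1 : ℝ)) fun w' hw' => if_pos ⟨hdv w hw w' hw', hV w hw w' hw'⟩]
    at h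
  simpa [mul_comm] using h

/-- Lattice points in an annulus. -/
theorem card_annulus : ∃ C : ℝ, 0 < C ∧ ∀ y₁ y₂ : ℝ, 0 ≤ y₁ → y₁ ≤ y₂ →
    (((disc ⌊y₂⌋₊).filter fun a => y₁ < nm a).card : ℝ) ≤
      4 * (y₂ - y₁) + C * (y₂ + 1) ^ ((2 : ℝ) / 3) := by
  classical
  obtain ⟨C, hC, h⟩ := circle
  refine ⟨2 * C + 4, by positivity, fun y₁ y₂ h1 h2 => ?_⟩
  have e : ((disc ⌊y₂⌋₊).filter fun a => y₁ < nm a) = disc ⌊y₂⌋₊ \ disc ⌊y₁⌋₊ := by
    ext a
    simp only [mem_filter, Finset.mem_sdiff, mem_disc, Nat.le_floor_iff h1, not_and, not_le]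
    tauto
  have hs : disc ⌊y₁⌋₊ ⊆ disc ⌊y₂⌋₊ := disc_mono (Nat.floor_le_floor h2)
  rw [e, card_sdiff_of_subset hs, Nat.cast_sub (card_le_card hs)]
  have a1 := (abs_le.1 (h ⌊y₁⌋₊)).1
  have a2 := (abs_le.1 (h ⌊y₂⌋₊)).2
  have b1 := Nat.floor_le h1
  have b2 := Nat.floor_le (h1.trans h2)
  have b3 := Nat.lt_floor_add_one y₁
  have c1 : (⌊y₁⌋₊ : ℝ) ^ ((2 : ℝ) / 3) ≤ (y₂ + 1) ^ ((2 : ℝ) / 3) :=
    Real.rpow_le_rpow (by positivity) (by linarith) (by norm_num)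
  have c2 : (⌊y₂⌋₊ : ℝ) ^ ((2 : ℝ) / 3) ≤ (y₂ + 1) ^ ((2 : ℝ) / 3) :=
    Real.rpow_le_rpow (by positivity) (by linarith) (by norm_num)
  have c3 : 1 ≤ (y₂ + 1) ^ ((2 : ℝ) / 3) := Real.one_le_rpow (by linarith) (by norm_num)
  have d1 : Real.pi * (⌊y₂⌋₊ - ⌊y₁⌋₊) ≤ 4 * (y₂ - y₁ + 1) :=
    calc Real.pi * (⌊y₂⌋₊ - ⌊y₁⌋₊) ≤ Real.pi * (y₂ - y₁ + 1) := by
          have := Real.pi_pos
          gcongr ?_ * ?_
          linarith
      _ ≤ 4 * (y₂ - y₁ + 1) := by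
          have := Real.pi_le_four
          gcongr
  nlinarith

theorem sum_inv_sqrt_le (y : ℕ) : ∑ a ∈ disc y, 1 / √(nm a) ≤ 40 * √y := by
  classical
  induction y using Nat.strong_induction_on with
  | _ y ih =>
    rcases Nat.eq_zero_or_pos y with rfl | hy
    · simp
    have hy' : (0 : ℝ) < y := by exact_mod_cast hy
    have hs : disc (y / 4) ⊆ disc y := disc_mono (Nat.div_le_self _ _)
    rw [← sum_sdiff hs]
    have h1 := ih (y / 4) (by omega)
    have h2 : √((y / 4 : ℕ) : ℝ) ≤ √y / 2 := by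
      rw [Real.sqrt_le_iff]
      refine ⟨by positivity, ?_⟩
      rw [div_pow, Real.sq_sqrt hy'.le]
      exact Nat.cast_div_le.trans (by norm_num)
    have hq : 0 < √(y : ℝ) := Real.sqrt_pos.2 hy'
    have h3 : ∑ a ∈ disc y \ disc (y / 4), 1 / √(nm a : ℝ) ≤ 9 * y * (2 / √y) := by
      refine (sum_le_card_nsmul _ _ (2 / √y) fun a ha => ?_).trans ?_
      · obtain ⟨h4, h5⟩ := mem_sdiff.1 ha
        rw [mem_disc] at h4 h5
        have h6 : y ≤ 4 * nm a := by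
          by_contra h7
          exact h5 ⟨h4.1, by omega⟩
        have h7 : √y / 2 ≤ √(nm a : ℝ) := by
          refine Real.le_sqrt_of_sq_le ?_
          rw [div_pow, Real.sq_sqrt hy'.le]
          have : (y : ℝ) ≤ 4 * nm a := by exact_mod_cast h6
          linarith
        calc 1 / √(nm a : ℝ) ≤ 1 / (√y / 2) := by gcongr
          _ = 2 / √y := by field_simp
      · rw [nsmul_eq_mul]
        gcongr
        exact_mod_cast (card_le_card sdiff_subset).trans (card_disc_le y)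
    have h4 : 9 * y * (2 / √y) = 18 * √(y : ℝ) := by
      nth_rewrite 1 [← Real.mul_self_sqrt hy'.le]
      field_simp
      ring
    linarith

theorem nm_dvd_det {δ w w' : G} (h : δ ∣ w) (h' : δ ∣ w') : (nm δ : ℤ) ∣ det w w' := by
  obtain ⟨a, rfl⟩ := h
  obtain ⟨b, rfl⟩ := h'
  refine ⟨det a b, ?_⟩
  simp [det, nm_int, Zsqrtd.re_mul, Zsqrtd.im_mul]; ring

theorem gp_dvd_iff {p : ℕ} (hp : p.Prime) (h4 : p % 4 = 1) (w : G) :
    gp p ∣ w ↔ (p : ℤ) ∣ det (gp p) w := by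
  have hn := nm_gp hp h4
  refine ⟨fun h => by simpa [hn] using nm_dvd_det (dvd_refl (gp p)) h, fun h => ?_⟩
  have hpr : Prime (gp p) := prime_of_nm_prime (by rw [hn]; exact hp)
  have h1 : gp p ∣ ((p : ℤ) : G) := by
    rw [Int.cast_natCast, ← hn, ← mul_star_eq, hn]; exact dvd_mul_right _ _
  have h2 : ((p : ℤ) : G) ∣ star (gp p) * w - gp p * star w := by
    refine (Zsqrtd.intCast_dvd _ _).2 ⟨?_, ?_⟩
    · have : (star (gp p) * w - gp p * star w).re = 0 := by simp [Zsqrtd.re_mul]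
      rw [this]; exact dvd_zero _
    · have : (star (gp p) * w - gp p * star w).im = 2 * det (gp p) w := by
        simp [Zsqrtd.im_mul, det]; ring
      rw [this]; exact h.mul_left _
  have h3 : gp p ∣ star (gp p) * w := by
    have := (h1.trans h2).add (dvd_mul_right (gp p) (star w))
    rwa [sub_add_cancel] at this
  refine (hpr.dvd_or_dvd h3).resolve_left fun h5 => ?_
  refine not_star_dvd_self (π := star (gp p)) (by rw [nm_star, hn]; exact hp)
    (by rw [nm_star, hn]; omega) ?_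
  rwa [star_star]

theorem cont_gp {p : ℕ} (hp : p.Prime) (h4 : p % 4 = 1) : cont (gp p) = 1 := by
  have h := nm_dvd (cont_dvd (gp p))
  rw [nm_gp hp h4, nm_intCast, Int.natAbs_natCast, sq] at h
  exact Nat.isUnit_iff.1 (hp.prime.squarefree _ h)

theorem dvd_nm_iff {p : ℕ} (hp : p.Prime) (h4 : p % 4 = 1) (w : G) :
    p ∣ nm w ↔ gp p ∣ w ∨ star (gp p) ∣ w := by
  have hn := nm_gp hp h4
  constructor
  · intro h
    have hpr : Prime (gp p) := prime_of_nm_prime (by rw [hn]; exact hp)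
    have h1 : gp p ∣ w * star w := by
      rw [mul_star_eq]
      refine Dvd.dvd.trans ?_ (Nat.cast_dvd_cast h)
      rw [← hn, ← mul_star_eq, hn]; exact dvd_mul_right _ _
    refine (hpr.dvd_or_dvd h1).imp id fun ⟨c, hc⟩ => ⟨star c, ?_⟩
    rw [← star_star w, hc, star_mul']
  · rintro (h | h)
    · simpa [hn] using nm_dvd h
    · simpa [hn] using nm_dvd h

theorem cont_of_mul {a b : G} (h : cont (a * b) = 1) : cont b = 1 := by
  have := dvd_cont ((cont_dvd b).mul_left a)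
  rw [h] at this
  exact Nat.dvd_one.1 this

theorem cont_mul_of_coprime {a b : G} (ha : cont a = 1) (hb : cont b = 1)
    (h : (nm a).Coprime (nm b)) : cont (a * b) = 1 := by
  have hd := cont_dvd (a * b)
  have h1 : cont (a * b) ∣ nm a := dvd_of_dvd_mul_prim hb (by
    rw [Int.cast_natCast (nm a), ← mul_star_eq a, mul_comm a (star a), mul_assoc]
    exact hd.mul_left _)
  have h2 : cont (a * b) ∣ nm b := dvd_of_dvd_mul_prim ha (by
    rw [Int.cast_natCast (nm b), ← mul_star_eq b, mul_comm b (star b), mul_assoc, mul_comm b a]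
    exact hd.mul_left _)
  exact Nat.eq_one_of_dvd_coprimes h h1 h2

/-- A positive proportion of points is primitive. -/
theorem card_An_lower : ∃ c : ℝ, 0 < c ∧ ∀ᶠ y : ℝ in atTop, c * y ≤ (An 0 y).card := by
  classical
  obtain ⟨C, hC, h⟩ := circle
  refine ⟨1 / 8, by norm_num, ?_⟩
  have ht : Tendsto (fun y : ℝ => y ^ ((1 : ℝ) / 3)) atTop atTop :=
    tendsto_rpow_atTop (by norm_num)
  filter_upwards [ht.eventually_ge_atTop (296 * C), eventually_ge_atTop (2 : ℝ)] with y hy1 hy2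
  set n := ⌊y⌋₊ with hn
  have hy0 : 0 ≤ y := by linarith
  have hsub : disc n ⊆ An 0 y ∪ (Ioc 1 (n + 36)).biUnion fun d : ℕ =>
      (disc n).filter fun a => ((d : ℤ) : G) ∣ a := by
    intro a ha
    rw [mem_union]
    obtain ⟨h1, h2⟩ := mem_disc.1 ha
    by_cases hc : cont a = 1
    · exact Or.inl (mem_filter.2 ⟨ha, hc, by exact_mod_cast nm_pos h1⟩)
    · refine Or.inr (mem_biUnion.2 ⟨cont a, mem_Ioc.2 ⟨?_, ?_⟩, mem_filter.2 ⟨ha, cont_dvd a⟩⟩)
      · have := MR.cont_pos h1; omega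
      · have h3 := nm_le_of_dvd h1 (cont_dvd a)
        rw [nm_intCast, Int.natAbs_natCast] at h3
        nlinarith
  have hcard : ∀ d : ℕ, d ≠ 0 → ((disc n).filter fun a => ((d : ℤ) : G) ∣ a).card =
      (disc (n / d ^ 2)).card := fun d hd => by
    have := sum_disc_dvd n (d := ((d : ℤ) : G)) (by exact_mod_cast hd) (fun _ => (1 : ℕ))
    simpa [nm_natCast] using this
  have h1 : ((disc n).card : ℝ) ≤
      (An 0 y).card + ∑ d ∈ Ioc 1 (n + 36), ((disc (n / d ^ 2)).card : ℝ) := by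
    have := (card_le_card hsub).trans ((card_union_le _ _).trans
      (Nat.add_le_add_left card_biUnion_le _))
    rw [sum_congr rfl fun d hd => hcard d (by have := (mem_Ioc.1 hd).1; omega)] at this
    exact_mod_cast this
  rw [← sum_Ioc_consecutive _ (show 1 ≤ 36 by norm_num) (show 36 ≤ n + 36 by omega)] at h1
  have hn0 : (0 : ℝ) ≤ n := Nat.cast_nonneg _
  have hny : (n : ℝ) ≤ y := Nat.floor_le hy0
  have hny' : y < n + 1 := Nat.lt_floor_add_one y
  have hdiv : ∀ d : ℕ, ((n / d ^ 2 : ℕ) : ℝ) ≤ n * ((d : ℝ) ^ 2)⁻¹ := fun d => by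
    rw [← div_eq_mul_inv]; exact_mod_cast Nat.cast_div_le
  have hpow : ∀ m : ℕ, m ≤ n → (m : ℝ) ^ ((2 : ℝ) / 3) ≤ y ^ ((2 : ℝ) / 3) := fun m hm =>
    Real.rpow_le_rpow (by positivity) (le_trans (by exact_mod_cast hm) hny) (by norm_num)
  have h2 : ∑ d ∈ Ioc 1 36, ((disc (n / d ^ 2)).card : ℝ) ≤
      Real.pi * n * (3 / 4) + 35 * (C * y ^ ((2 : ℝ) / 3)) := by
    have a1 : ∑ d ∈ Ioc 1 36, ((d : ℕ) ^ 2 : ℝ)⁻¹ ≤ 3 / 4 := by
      rw [← sum_Ioc_consecutive _ (show 1 ≤ 2 by norm_num) (show 2 ≤ 36 by norm_num)]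
      have := sum_Ioc_inv_sq_le_sub (α := ℝ) (show 2 ≠ 0 by norm_num) (show 2 ≤ 36 by norm_num)
      norm_num at this ⊢
      linarith
    calc _ ≤ ∑ d ∈ Ioc 1 36, (Real.pi * n * ((d : ℕ) ^ 2 : ℝ)⁻¹ + C * y ^ ((2 : ℝ) / 3)) := by
          refine sum_le_sum fun d _ => ?_
          have b1 := (abs_le.1 (h (n / d ^ 2))).2
          have b2 := mul_le_mul_of_nonneg_left (hdiv d) Real.pi_pos.le
          have b3 := mul_le_mul_of_nonneg_left (hpow (n / d ^ 2) (Nat.div_le_self _ _)) hC.le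
          linarith
      _ ≤ _ := by
          rw [sum_add_distrib, ← mul_sum]
          have := mul_le_mul_of_nonneg_left a1 (mul_nonneg Real.pi_pos.le hn0)
          simp only [sum_const, Nat.card_Ioc, nsmul_eq_mul]
          norm_num at this ⊢
          linarith
  have h3 : ∑ d ∈ Ioc 36 (n + 36), ((disc (n / d ^ 2)).card : ℝ) ≤ n / 4 := by
    have a1 := sum_Ioc_inv_sq_le_sub (α := ℝ) (show 36 ≠ 0 by norm_num)
      (show 36 ≤ n + 36 by omega)
    have a2 : (0 : ℝ) ≤ ((n + 36 : ℕ) : ℝ)⁻¹ := by positivity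
    calc _ ≤ ∑ d ∈ Ioc 36 (n + 36), 9 * n * ((d : ℕ) ^ 2 : ℝ)⁻¹ := by
          refine sum_le_sum fun d _ => ?_
          have b1 : ((disc (n / d ^ 2)).card : ℝ) ≤ 9 * ((n / d ^ 2 : ℕ) : ℝ) := by
            exact_mod_cast card_disc_le _
          have := hdiv d
          linarith
      _ ≤ 9 * n * (36 : ℝ)⁻¹ := by
          rw [← mul_sum]
          gcongr
          push_cast at a1 a2 ⊢
          linarith
      _ = n / 4 := by ring
  have h4 := (abs_le.1 (h n)).1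
  have h5 := mul_le_mul_of_nonneg_left (hpow n le_rfl) hC.le
  have h6 : 296 * (C * y ^ ((2 : ℝ) / 3)) ≤ y := by
    have e : y = y ^ ((1 : ℝ) / 3) * y ^ ((2 : ℝ) / 3) := by
      rw [← Real.rpow_add (by linarith)]; norm_num
    have : 0 ≤ y ^ ((2 : ℝ) / 3) := by positivity
    nlinarith
  have h7 : 3 * n ≤ Real.pi * n := mul_le_mul_of_nonneg_right Real.pi_gt_three.le hn0
  have h8 : 0 ≤ C * y ^ ((2 : ℝ) / 3) := by positivity
  linarith

theorem ln_lt {p : ℕ} (hp : p.Prime) (h : G) : ln p h < p + 1 := by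
  have : NeZero p := ⟨hp.ne_zero⟩
  unfold ln
  split_ifs
  · omega
  · exact (ZMod.val_lt _).trans (Nat.lt_succ_self p)

theorem ln_eq_iff {p : ℕ} (hp : p.Prime) {h h' : G} (h1 : cont h = 1) (h2 : cont h' = 1) :
    ln p h = ln p h' ↔ (p : ℤ) ∣ det h h' := by
  have := Fact.mk hp
  have hp' : Prime (p : ℤ) := Nat.prime_iff_prime_int.1 hp
  unfold ln det
  split_ifs with a b b
  · exact iff_of_true rfl (dvd_sub (a.mul_right _) (b.mul_left _))
  · refine iff_of_false (ZMod.val_lt _).ne' fun c => ?_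
    rcases hp'.dvd_or_dvd ((dvd_sub_right (a.mul_right _)).1 c) with d | d
    · exact not_dvd_both hp h1 a d
    · exact b d
  · refine iff_of_false (ZMod.val_lt _).ne fun c => ?_
    rcases hp'.dvd_or_dvd ((dvd_sub_left (b.mul_left _)).1 c) with d | d
    · exact a d
    · exact not_dvd_both hp h2 b d
  · rw [← ZMod.intCast_zmod_eq_zero_iff_dvd] at a b ⊢
    rw [(ZMod.val_injective p).eq_iff, ← div_eq_mul_inv, ← div_eq_mul_inv, div_eq_div_iff a b]
    push_cast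
    constructor <;> intro c <;> linear_combination -c

/-- Splitting the frequencies modulo four. -/
theorem sum_freq_le (K : ℕ) (F : ℤ → ℝ) (hF : ∀ k, 0 ≤ F k) :
    ∑ k ∈ Icc (-(K : ℤ)) K, F k ≤ ∑ r ∈ range 4, ∑ k ∈ Icc (-(K : ℤ)) K, F (4 * k + r) := by
  rw [← sum_product' (f := fun (r : ℕ) (k : ℤ) => F (4 * k + r)),
    ← sum_image (g := fun x : ℕ × ℤ => 4 * x.2 + x.1) (f := F) (fun x hx y hy h => by
      simp only [coe_product, coe_range, Set.mem_prod, Set.mem_Iio] at hx hy h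
      ext <;> omega)]
  refine sum_le_sum_of_subset_of_nonneg (fun k hk => ?_) fun _ _ _ => hF _
  rw [mem_Icc] at hk
  refine mem_image.2 ⟨((k % 4).toNat, k / 4), ?_, ?_⟩
  · simp only [mem_product, mem_range, mem_Icc]; omega
  · simp only; omega

/-- Mean value theorem for primitive points. -/
theorem mv_chi {T : Finset G} {X₀ X : ℝ} (h0 : 0 < X₀) (hX : 1 ≤ X)
    (hT : ∀ w ∈ T, cont w = 1 ∧ X₀ ≤ nm w ∧ (nm w : ℝ) ≤ X) (K : ℕ) (c : G → ℂ) :
    ∑ k ∈ Icc (-(K : ℤ)) K, ‖∑ w ∈ T, c w * chi k w‖ ^ 2 ≤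
      270 * √(X / X₀) * (K + X) * ∑ w ∈ T, ‖c w‖ ^ 2 := by
  have hF : Fam T id X₀ X 1 1 := ⟨h0, fun w hw => (hT w hw).2.1, fun w hw => (hT w hw).2.2,
    fun w hw => (hT w hw).1.le, fun z => card_le_one.2 fun a ha b hb =>
      (mem_filter.1 ha).2.trans (mem_filter.1 hb).2.symm⟩
  simpa using hF.mean_value hX K c

theorem mv_ek {T : Finset G} {X₀ X : ℝ} (h0 : 0 < X₀) (hX : 1 ≤ X)
    (hT : ∀ w ∈ T, cont w = 1 ∧ X₀ ≤ nm w ∧ (nm w : ℝ) ≤ X) (K : ℕ) (c : G → ℂ) :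
    ∑ k ∈ Icc (-(K : ℤ)) K, ‖∑ w ∈ T, c w * ek k w‖ ^ 2 ≤
      1080 * √(X / X₀) * (K + X) * ∑ w ∈ T, ‖c w‖ ^ 2 := by
  refine (sum_freq_le K (fun k => ‖∑ w ∈ T, c w * ek k w‖ ^ 2) fun _ => by positivity).trans ?_
  refine (sum_le_card_nsmul _ _ (270 * √(X / X₀) * (K + X) * ∑ w ∈ T, ‖c w‖ ^ 2)
    fun r _ => ?_).trans (le_of_eq (by simp; ring))
  have h := mv_chi h0 hX hT K fun w => c w * ek r w
  rw [sum_congr rfl (g := fun w => ‖c w‖ ^ 2) fun w hw => by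
    rw [norm_mul, norm_ek _ (ne_zero_of_cont (hT w hw).1), mul_one]] at h
  refine le_trans (le_of_eq (sum_congr rfl fun k _ => ?_)) h
  congr 2
  refine sum_congr rfl fun w hw => ?_
  rw [ek_add _ _ (ne_zero_of_cont (hT w hw).1), ek_four_mul]; ring

end Pool.Agent.P.MP_a1177c_nt.LC
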