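import Pool.Agent.P.MP_a1177c_nt.LC.Sieve

namespace Pool.Agent.P.MP_a1177c_nt.LC

open Finset Filter MR MR.StructAux
open scoped ComplexConjugate Topology

namespace UBAux

lemma periodic_sum {f : ℕ → ℝ} {d : ℕ} (hd : 0 < d) (hp : ∀ j, f (d + j) = f j)
    (h0 : ∀ j, 0 ≤ f j) (l : ℕ) :
    |∑ j ∈ range l, f j - l / d * ∑ j ∈ range d, f j| ≤ ∑ j ∈ range d, f j := by
  have d0 : (0 : ℝ) < d := by exact_mod_cast hd
  have S0 : 0 ≤ ∑ j ∈ range d, f j := sum_nonneg fun j _ => h0 j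
  induction l using Nat.strong_induction_on with
  | _ l ih =>
    rcases lt_or_ge l d with h | h
    · have a1 : ∑ j ∈ range l, f j ≤ ∑ j ∈ range d, f j :=
        sum_le_sum_of_subset_of_nonneg (range_mono h.le) fun j _ _ => h0 j
      have a2 : 0 ≤ ∑ j ∈ range l, f j := sum_nonneg fun j _ => h0 j
      have a3 : (l : ℝ) / d ≤ 1 := (div_le_one d0).2 (by exact_mod_cast h.le)
      have a4 : (0 : ℝ) ≤ l / d := by positivity
      rw [abs_le]
      constructor <;> nlinarith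
    · obtain ⟨k, rfl⟩ := Nat.exists_eq_add_of_le h
      have := ih k (by omega)
      rw [sum_range_add]
      simp only [hp]
      convert this using 2
      push_cast
      field_simp
      ring

lemma sum_range_zmod (d : ℕ) [NeZero d] (g : ZMod d → ℝ) :
    ∑ j ∈ range d, g j = ∑ x, g x := by
  refine sum_bij' (fun j _ => (j : ZMod d)) (fun x _ => x.val) (fun _ _ => mem_univ _)
    (fun x _ => mem_range.2 (ZMod.val_lt x)) (fun j hj => ZMod.val_cast_of_lt (mem_range.1 hj))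
    (fun x _ => ZMod.natCast_zmod_val x) fun _ _ => rfl

lemma ap_sum (d : ℕ) [NeZero d] (g : ZMod d → ℝ) (hg : ∀ x, 0 ≤ g x) (n r : ℤ)
    (hr : d.Coprime r.natAbs) (l : ℕ) :
    |∑ j ∈ range l, g ((n + j * r : ℤ) : ZMod d) - l / d * ∑ x, g x| ≤ ∑ x, g x := by
  have hu : IsUnit (r : ZMod d) := by
    rw [ZMod.coe_int_isUnit_iff_isCoprime, Int.isCoprime_iff_gcd_eq_one]
    exact hr
  obtain ⟨u, hu⟩ := hu
  have e : ∑ j ∈ range d, g ((n + j * r : ℤ) : ZMod d) = ∑ x, g x := by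
    have := sum_range_zmod d fun x => g (n + x * u)
    rw [← Equiv.sum_comp ((Units.mulRight u).trans (Equiv.addLeft (n : ZMod d))) g]
    refine Eq.trans ?_ this
    refine sum_congr rfl fun j _ => ?_
    rw [hu]
    push_cast
    rfl
  rw [← e]
  refine periodic_sum (f := fun j => g ((n + j * r : ℤ) : ZMod d)) (NeZero.pos d) (fun j => ?_)
    (fun j => hg _) l
  congr 1
  push_cast
  simp

lemma count_dvd {d : ℕ} (hd : 0 < d) (n r : ℤ) (hr : d.Coprime r.natAbs) (l : ℕ) :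
    |(((range l).filter fun j : ℕ => (d : ℤ) ∣ n + j * r).card : ℝ) - l / d| ≤ 1 := by
  have : NeZero d := ⟨hd.ne'⟩
  have := ap_sum d (fun x => if x = 0 then 1 else 0) (fun x => by split_ifs <;> norm_num) n r hr l
  simp only [ZMod.intCast_zmod_eq_zero_iff_dvd] at this
  simpa using this

lemma sum_isUnit (d : ℕ) [NeZero d] :
    ∑ x : ZMod d, (if IsUnit x then (1 : ℝ) else 0) = d.totient := by
  rw [← sum_range_zmod, sum_boole, Nat.totient_eq_card_coprime]
  congr 2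
  ext j
  simp only [mem_filter, ZMod.isUnit_iff_coprime, Nat.coprime_comm]

lemma totient_real {n : ℕ} (hn : 0 < n) :
    (n.totient : ℝ) / n = ∏ p ∈ n.primeFactors, (1 - (p : ℝ)⁻¹) := by
  have h := congrArg (fun x : ℚ => (x : ℝ)) (Nat.totient_eq_mul_prod_factors n)
  have n0 : (n : ℝ) ≠ 0 := by exact_mod_cast hn.ne'
  push_cast at h
  rw [h]
  field_simp

lemma one_le_ratio {n : ℕ} (hn : 0 < n) : (1 : ℝ) ≤ n / n.totient := by
  have : (0 : ℝ) < n.totient := by exact_mod_cast Nat.totient_pos.2 hn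
  rw [one_le_div this]
  exact_mod_cast Nat.totient_le n

lemma ratio_le {n : ℕ} (hn : 0 < n) : (n : ℝ) / n.totient ≤ n :=
  div_le_self (by positivity) (by exact_mod_cast Nat.totient_pos.2 hn)

lemma exists_part {q R : ℕ} (hq : 0 < q) (hR : 0 < R) : ∃ d : ℕ, 0 < d ∧ d ∣ q ∧ d.Coprime R ∧
    (q : ℝ) / q.totient * (d.totient / d) ≤ R / R.totient := by
  have pr : ∀ p ∈ q.primeFactors \ R.primeFactors, p.Prime := fun p hp =>
    Nat.prime_of_mem_primeFactors (mem_sdiff.1 hp).1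
  have d0 : 0 < ∏ p ∈ q.primeFactors \ R.primeFactors, p := prod_pos fun p hp => (pr p hp).pos
  refine ⟨_, d0, (prod_dvd_prod_of_subset _ _ _ sdiff_subset).trans (Nat.prod_primeFactors_dvd q),
    Nat.Coprime.prod_left fun p hp => (pr p hp).coprime_iff_not_dvd.2 fun h =>
      (mem_sdiff.1 hp).2 (Nat.mem_primeFactors.2 ⟨pr p hp, h, hR.ne'⟩), ?_⟩
  have b : ∀ p : ℕ, p.Prime → 0 ≤ 1 - (p : ℝ)⁻¹ ∧ 1 - (p : ℝ)⁻¹ ≤ 1 := fun p hp =>
    ⟨sub_nonneg.2 (inv_le_one_of_one_le₀ (by exact_mod_cast hp.one_le)),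
      sub_le_self _ (by positivity)⟩
  have key : ((∏ p ∈ q.primeFactors \ R.primeFactors, p).totient : ℝ) /
      (∏ p ∈ q.primeFactors \ R.primeFactors, p : ℕ) * (R.totient / R) ≤ q.totient / q := by
    rw [totient_real d0, totient_real hR, totient_real hq, Nat.primeFactors_prod pr,
      ← prod_union sdiff_disjoint, sdiff_union_self_eq_union]
    refine prod_le_prod_of_subset_of_le_one subset_union_left (fun p hp => (b p ?_).1)
      fun p hp _ => (b p ?_).2
    all_goals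
      rcases mem_union.1 hp with h | h <;> exact Nat.prime_of_mem_primeFactors h
  have q0 : (0 : ℝ) < q := by exact_mod_cast hq
  have R0 : (0 : ℝ) < R := by exact_mod_cast hR
  have q1 : (0 : ℝ) < q.totient := by exact_mod_cast Nat.totient_pos.2 hq
  have R1 : (0 : ℝ) < R.totient := by exact_mod_cast Nat.totient_pos.2 hR
  generalize ((∏ p ∈ q.primeFactors \ R.primeFactors, p).totient : ℝ) /
      (∏ p ∈ q.primeFactors \ R.primeFactors, p : ℕ) = t at key ⊢
  rw [← mul_div_assoc, div_le_div_iff₀ R0 q0] at key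
  rw [div_mul_eq_mul_div, div_le_div_iff₀ q1 R1]
  linarith

lemma c2_ap {q : ℕ} (hq : 0 < q) (a b : ℝ) (P : ℕ) (n r : ℤ) (l : ℕ) (hr : r ≠ 0) :
    ∑ j ∈ range l, c2 q a b P (n + j * r) ≤
      (r.natAbs : ℝ) / r.natAbs.totient * l + q ^ 2 := by
  obtain ⟨d, d0, dq, dr, h⟩ := exists_part hq (Int.natAbs_pos.2 hr)
  have : NeZero d := ⟨d0.ne'⟩
  have k0 : (0 : ℝ) ≤ q / q.totient := by positivity
  have a1 := (abs_le.1 (ap_sum d (fun x => if IsUnit x then 1 else 0)
    (fun x => by split_ifs <;> norm_num) n r dr l)).2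
  rw [sum_isUnit] at a1
  have a2 : ∑ j ∈ range l, c2 q a b P (n + j * r) ≤ q / q.totient *
      ∑ j ∈ range l, (if IsUnit ((n + j * r : ℤ) : ZMod d) then (1 : ℝ) else 0) := by
    rw [mul_sum]
    refine sum_le_sum fun j _ => ?_
    unfold c2
    split_ifs with h1 h2
    · rw [mul_one]
    · refine absurd ?_ h2
      rw [ZMod.coe_int_isUnit_iff_isCoprime]
      exact (Int.isCoprime_iff_gcd_eq_one.2 h1.2.2.1).symm.of_isCoprime_of_dvd_left
        (by exact_mod_cast dq)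
    · positivity
    · rw [mul_zero]
  have a3 : (d.totient : ℝ) ≤ q := by
    exact_mod_cast (Nat.totient_le d).trans (Nat.le_of_dvd hq dq)
  have a4 := ratio_le hq
  calc _ ≤ q / q.totient * (l / d * d.totient + d.totient : ℝ) :=
        a2.trans (mul_le_mul_of_nonneg_left (by linarith) k0)
    _ = q / q.totient * (d.totient / d) * l + q / q.totient * d.totient := by ring
    _ ≤ (r.natAbs : ℝ) / r.natAbs.totient * l + q * q := by gcongr
    _ = _ := by ring

lemma c1_le {a b : ℝ} (ha : 1 ≤ a) (hb : b ≤ 2) {P : ℕ} (hP : 0 < P) (m : ℤ) :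
    c1 a b P m ≤ Real.log (2 * P) := by
  have P1 : (1 : ℝ) ≤ P := by exact_mod_cast hP
  unfold c1
  split_ifs with h
  · exact Real.log_le_log (by nlinarith [h.1]) (by nlinarith [h.2.1])
  · exact Real.log_nonneg (by linarith)

lemma exists_level {P : ℕ} (hP : 2 ^ 32 ≤ P) : ∃ z : ℕ, 2 ≤ z ∧ z ≤ P ∧
    Real.log (2 * P) ≤ 65 * Real.log z ∧ (z : ℝ) ^ 8 ≤ √(√P) := by
  obtain ⟨z, z1, z2⟩ : ∃ z : ℕ, z ^ 32 ≤ P ∧ P < (z + 1) ^ 32 :=
    ⟨Nat.nthRoot 32 P, Nat.pow_nthRoot_le (Or.inl (by norm_num)),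
      Nat.lt_pow_nthRoot_add_one (by norm_num) P⟩
  have z3 : 2 ≤ z := by
    have := lt_of_pow_lt_pow_left₀ 32 (Nat.zero_le _) (hP.trans_lt z2)
    omega
  have b1 : z ≤ P := (Nat.le_self_pow (by norm_num) z).trans z1
  clear hP
  have z5 : z + 1 ≤ z ^ 2 := by
    clear z1 z2
    nlinarith
  have z4 : 2 * P ≤ z ^ 65 := by
    calc 2 * P ≤ z * (z + 1) ^ 32 := Nat.mul_le_mul z3 z2.le
      _ ≤ z * (z ^ 2) ^ 32 := Nat.mul_le_mul_left _ (Nat.pow_le_pow_left z5 _)
      _ = z ^ 65 := by ring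
  refine ⟨z, z3, b1, ?_, Real.le_sqrt_of_sq_le (Real.le_sqrt_of_sq_le ?_)⟩
  · have P0 : (0 : ℝ) < P := Nat.cast_pos.2 (lt_of_lt_of_le two_pos (z3.trans b1))
    have : Real.log (2 * P) ≤ Real.log ((z : ℝ) ^ 65) :=
      Real.log_le_log (mul_pos two_pos P0) (by exact_mod_cast z4)
    rwa [Real.log_pow] at this
  · rw [← pow_mul, ← pow_mul]
    exact_mod_cast z1

lemma c1_ap : ∃ C : ℝ, 0 < C ∧ ∀ P : ℕ, 2 ^ 32 ≤ P → ∀ a b : ℝ, 1 ≤ a → b ≤ 2 →
    ∀ (n r : ℤ) (l : ℕ), r ≠ 0 → ∑ j ∈ range l, c1 a b P (n + j * r) ≤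
      C * ((r.natAbs : ℝ) / r.natAbs.totient) * (l + √(√P)) := by
  obtain ⟨C, C0, hC⟩ := selberg_int
  refine ⟨65 * (C + 1), by positivity, fun P hP a b ha hb n r l hr => ?_⟩
  obtain ⟨z, z3, b1, l1, l2⟩ := exists_level hP
  clear hP
  have P0 : 0 < P := by omega
  have zr : (2 : ℝ) ≤ z := by exact_mod_cast z3
  have lz : 0 < Real.log z := Real.log_pos (by linarith)
  have R0 := Int.natAbs_pos.2 hr
  obtain ⟨ν, μ, n0, n1, m0, m1, hν⟩ := hC z r.natAbs z3 R0
  have a1 := hν ℕ (range l) (fun j => n + j * r) (fun _ => 1) l 1 zero_le_one fun d d0 _ dr => by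
    have := count_dvd d0 n r dr l
    rw [← Real.norm_eq_abs, ← Complex.norm_real] at this
    simpa using this
  have a2 : ∑ j ∈ range l, ν (n + j * r) ≤ l * μ + z ^ 6 := by
    have e : (∑ j ∈ range l, (ν (n + j * r) : ℂ) * 1 - (l : ℂ) * μ) =
        ((∑ j ∈ range l, ν (n + j * r) - l * μ : ℝ) : ℂ) := by push_cast; simp
    rw [e, Complex.norm_real, Real.norm_eq_abs, mul_one] at a1
    linarith [(abs_le.1 a1).2]
  have a3 : ∑ j ∈ range l, c1 a b P (n + j * r) ≤
      65 * Real.log z * ∑ j ∈ range l, ν (n + j * r) := by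
    rw [mul_sum]
    refine sum_le_sum fun j _ => ?_
    by_cases h : c1 a b P (n + j * r) = 0
    · rw [h]
      exact mul_nonneg (by positivity) (n0 _)
    · rw [n1, mul_one]
      · exact (c1_le ha hb P0 _).trans l1
      intro p pp pz hp
      refine h (if_neg fun h' => ?_)
      have e := (Nat.prime_dvd_prime_iff_eq pp h'.2.2.1).1 (Int.natCast_dvd.1 hp)
      have b2 : (P : ℝ) < ((n + j * r : ℤ) : ℝ) := by
        have : (0 : ℝ) ≤ P := by positivity
        nlinarith [h'.1]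
      have b3 : (P : ℤ) < n + j * r := by exact_mod_cast b2
      omega
  have ρ1 := one_le_ratio R0
  generalize (r.natAbs : ℝ) / r.natAbs.totient = ρ at *
  have a4 : Real.log z * μ ≤ C * ρ := by
    rw [le_div_iff₀ lz] at m1
    linarith
  have a5 : Real.log z * z ^ 6 ≤ √(√P) := by
    refine le_trans ?_ l2
    have := Real.log_le_sub_one_of_pos (show (0 : ℝ) < z by linarith)
    calc Real.log z * z ^ 6 ≤ (z : ℝ) ^ 2 * z ^ 6 := by gcongr; nlinarith
      _ = (z : ℝ) ^ 8 := by ring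
  have s0 : 0 ≤ √(√P) := Real.sqrt_nonneg _
  have l0 : (0 : ℝ) ≤ l := by positivity
  calc _ ≤ 65 * Real.log z * (l * μ + z ^ 6) := a3.trans (by gcongr)
    _ = 65 * (l * (Real.log z * μ) + Real.log z * z ^ 6) := by ring
    _ ≤ 65 * (l * (C * ρ) + √(√P)) := by gcongr
    _ ≤ 65 * (C + 1) * ρ * (l + √(√P)) := by
        have : 0 ≤ C * ρ * √(√P) := by positivity
        nlinarith [mul_nonneg l0 (zero_le_one.trans ρ1), mul_le_mul_of_nonneg_right ρ1 s0]

lemma tendsto_of_bdd {S : ℕ → ℝ} {c K : ℝ} (h : ∀ P : ℕ, |S P - c * P| ≤ K) :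
    Tendsto (fun P : ℕ => S P / P) atTop (𝓝 c) := by
  have a : Tendsto (fun P : ℕ => (S P - c * P) / P) atTop (𝓝 0) := by
    refine squeeze_zero_norm (fun P => ?_) (tendsto_const_div_atTop_nhds_zero_nat K)
    rw [norm_div, Real.norm_eq_abs, Real.norm_natCast]
    exact div_le_div_of_nonneg_right (h P) (by positivity)
  have b := a.add_const c
  rw [zero_add] at b
  refine b.congr' ?_
  filter_upwards [eventually_gt_atTop 0] with P hP
  have : (P : ℝ) ≠ 0 := by exact_mod_cast hP.ne'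
  field_simp
  ring

/-- A sum over a window of the integers is a difference of two initial sums. -/
lemma window {x y : ℝ} (hx : 0 ≤ x) (hxy : x ≤ y) {N : ℕ} (hy : y ≤ N) (g : ℕ → ℝ) :
    ∑ m ∈ range (N + 1), (if x < m ∧ (m : ℝ) ≤ y then g m else 0) =
      ∑ m ∈ range (⌊y⌋₊ + 1), g m - ∑ m ∈ range (⌊x⌋₊ + 1), g m := by
  rw [← sum_Ico_eq_sub _ (Nat.succ_le_succ (Nat.floor_mono hxy)), ← sum_filter]
  congr 1
  ext m
  have : ⌊y⌋₊ ≤ N := Nat.floor_le_of_le hy
  simp only [mem_filter, mem_range, mem_Ico, ← Nat.floor_lt hx, ← Nat.le_floor_iff (hx.trans hxy)]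
  omega

end UBAux

open UBAux

/-- Upper bound in short arithmetic progressions, uniform in the model. -/
theorem ub_ap : ∃ C : ℝ, 0 < C ∧ ∀ q : ℕ, 0 < q → ∀ᶠ P : ℕ in atTop, ∀ a b : ℝ, 1 ≤ a → b ≤ 2 →
    ∀ (n r : ℤ) (l : ℕ), r ≠ 0 →
      ∑ j ∈ range l, cp q a b P (n + j * r) ≤
        C * ((r.natAbs : ℝ) / r.natAbs.totient) * (l + √(√P)) := by
  obtain ⟨C, C0, hC⟩ := c1_ap
  refine ⟨C + 1, by positivity, fun q hq => ?_⟩
  filter_upwards [eventually_ge_atTop (2 ^ 32), eventually_ge_atTop (q ^ 8)] with P h1 h2 a b ha hb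
    n r l hr
  have a1 := hC P h1 a b ha hb n r l hr
  have a2 := c2_ap hq a b P n r l hr
  have a3 : (q : ℝ) ^ 2 ≤ √(√P) := by
    refine Real.le_sqrt_of_sq_le (Real.le_sqrt_of_sq_le ?_)
    rw [← pow_mul, ← pow_mul]
    exact_mod_cast h2
  have ρ1 := one_le_ratio (Int.natAbs_pos.2 hr)
  simp only [cp, sum_add_distrib]
  nlinarith [mul_le_mul_of_nonneg_right ρ1 (Real.sqrt_nonneg (√P))]

theorem sum_cp_le : ∃ C : ℝ, 0 < C ∧ ∀ q : ℕ, 0 < q → ∀ᶠ P : ℕ in atTop, ∀ a b : ℝ, 1 ≤ a →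
    b ≤ 2 → ∀ J : Finset ℤ, ∑ m ∈ J, cp q a b P m ≤ C * P := by
  obtain ⟨C, C0, hC⟩ := ub_ap
  refine ⟨2 * C, by positivity, fun q hq => ?_⟩
  filter_upwards [hC q hq, eventually_ge_atTop 1] with P h h1 a b ha hb J
  have a1 := h a b ha hb (P + 1) 1 P one_ne_zero
  have P1 : (1 : ℝ) ≤ P := by exact_mod_cast h1
  have a2 : √(√P) ≤ (P : ℝ) := by
    have s1 : √P ≤ (P : ℝ) := Real.sqrt_le_iff.2 ⟨by positivity, by nlinarith⟩
    exact (Real.sqrt_le_sqrt s1).trans s1
  have a3 : ∑ m ∈ J, cp q a b P m ≤ ∑ j ∈ range P, cp q a b P (P + 1 + j * 1) := by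
    rw [← sum_filter_ne_zero, ← sum_image (g := fun j : ℕ => (P + 1 + j * 1 : ℤ))
      (f := cp q a b P) (fun i _ j _ e => by simpa using e)]
    refine sum_le_sum_of_subset_of_nonneg (fun m hm => ?_) fun m _ _ => cp_nonneg _ _ _ _ _
    obtain ⟨b1, b2⟩ := support_cp (mem_filter.1 hm).2
    have b3 : (P : ℤ) < m := by exact_mod_cast (show (P : ℝ) < m by nlinarith)
    have b4 : m ≤ 2 * (P : ℤ) := by exact_mod_cast (show (m : ℝ) ≤ 2 * P by nlinarith)
    exact mem_image.2 ⟨(m - P - 1).toNat, mem_range.2 (by omega), by omega⟩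
  simp only [Int.natAbs_one, Nat.totient_one, Nat.cast_one, div_one, mul_one] at a1 a3
  nlinarith

theorem cp_le (q : ℕ) : ∀ᶠ P : ℕ in atTop, ∀ a b : ℝ, 1 ≤ a → b ≤ 2 → ∀ m : ℤ,
    cp q a b P m ≤ 3 * Real.log P := by
  have t := (Real.tendsto_log_atTop.comp tendsto_natCast_atTop_atTop).eventually_ge_atTop
    ((q : ℝ) / q.totient)
  filter_upwards [t, eventually_ge_atTop 2] with P h1 h2 a b ha hb m
  have P2 : (2 : ℝ) ≤ P := by exact_mod_cast h2
  have a1 := c1_le ha hb (show 0 < P by omega) m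
  rw [Real.log_mul (by norm_num) (by linarith)] at a1
  have a2 : Real.log 2 ≤ Real.log P := Real.log_le_log (by norm_num) P2
  have a3 : c2 q a b P m ≤ Real.log P := by
    unfold c2
    split_ifs
    · exact h1
    · exact Real.log_natCast_nonneg P
  unfold cp
  linarith

/-- Primes and model have the same mass. -/
theorem sum_c1_tendsto {a b : ℝ} (ha : 1 ≤ a) (hab : a ≤ b) (hb : b ≤ 2) :
    Tendsto (fun P : ℕ => (∑ m ∈ range (2 * P + 1), c1 a b P m) / P) atTop (𝓝 ((b - a) / 2)) := by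
  have t := Pool.Agent.Lib.PNT.thetaAP_tendsto (q := 4) (a := 1) isUnit_one
  rw [show ((Nat.totient 4 : ℕ) : ℝ) = 2 by norm_num [show Nat.totient 4 = 2 by decide]] at t
  have s : ∀ c : ℝ, 1 ≤ c → Tendsto (fun P : ℕ => Pool.Agent.Lib.PNT.thetaAP (1 : ZMod 4) (c * P) / P)
      atTop (𝓝 (c / 2)) := by
    intro c hc
    have c0 : 0 < c := by linarith
    have := (t.comp (tendsto_natCast_atTop_atTop.const_mul_atTop c0)).const_mul c
    refine this.congr fun P => ?_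
    simp only [Function.comp]
    rw [← mul_div_assoc, mul_div_mul_left _ _ c0.ne']
  have e : ∀ x : ℝ, Pool.Agent.Lib.PNT.thetaAP (1 : ZMod 4) x =
      ∑ m ∈ range (⌊x⌋₊ + 1), if m.Prime ∧ (m : ℤ) % 4 = 1 then Real.log m else 0 := by
    intro x
    rw [Pool.Agent.Lib.PNT.thetaAP, ← sum_filter]
    congr 1
    ext m
    have k : (m : ZMod 4) = 1 ↔ (m : ℤ) % 4 = 1 := by
      rw [show (1 : ZMod 4) = ((1 : ℕ) : ZMod 4) by norm_num, ZMod.natCast_eq_natCast_iff']
      omega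
    simp only [mem_filter, mem_Icc, mem_range, k]
    exact ⟨fun h => ⟨by omega, h.2⟩, fun h => ⟨⟨h.2.1.one_le, by omega⟩, h.2⟩⟩
  have := (s b (ha.trans hab)).sub (s a ha)
  rw [← sub_div] at this
  refine this.congr fun P => ?_
  have P0 : (0 : ℝ) ≤ P := by positivity
  rw [← sub_div, e, e, ← window (N := 2 * P) (by nlinarith) (by nlinarith)
    (by push_cast; nlinarith)]
  congr 1
  refine sum_congr rfl fun m _ => ?_
  simp only [c1, Int.cast_natCast, Int.natAbs_natCast, ← ite_and, and_assoc]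

theorem sum_c2_tendsto {q : ℕ} (hq : 0 < q) (h4 : 4 ∣ q) {a b : ℝ} (ha : 1 ≤ a) (hab : a ≤ b)
    (hb : b ≤ 2) :
    Tendsto (fun P : ℕ => (∑ m ∈ range (2 * P + 1), c2 q a b P m) / P) atTop (𝓝 ((b - a) / 2)) := by
  have : NeZero q := ⟨hq.ne'⟩
  let π := ZMod.castHom h4 (ZMod 4)
  let g : ZMod q → ℝ := fun x => if IsUnit x ∧ π x = 1 then 1 else 0
  have g0 : ∀ x, 0 ≤ g x := fun x => by simp only [g]; split_ifs <;> norm_num
  have sg : ∑ x, g x = q.totient / 2 := by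
    have u4 : ∀ y : ZMod 4, IsUnit y → (y = 1 ∧ -y ≠ 1) ∨ (y ≠ 1 ∧ -y = 1) := by decide
    have e : ∀ x, g x + g (-x) = if IsUnit x then 1 else 0 := fun x => by
      simp only [g, IsUnit.neg_iff, map_neg]
      by_cases h : IsUnit x
      · rcases u4 _ (h.map π) with k | k
        · rw [if_pos ⟨h, k.1⟩, if_neg fun c => k.2 c.2, if_pos h, add_zero]
        · rw [if_neg fun c => k.1 c.2, if_pos ⟨h, k.2⟩, if_pos h, zero_add]
      · simp [h]
    have e2 := sum_isUnit q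
    simp only [← e, sum_add_distrib] at e2
    have e3 : ∑ x, g (-x) = ∑ x, g x := Equiv.sum_comp (Equiv.neg (ZMod q)) g
    linarith
  have G : ∀ l : ℕ, |∑ j ∈ range l, g j - l / q * (q.totient / 2)| ≤ q.totient / 2 := fun l => by
    have := ap_sum q g g0 0 1 (by simp) l
    simpa only [sg, zero_add, mul_one, Int.cast_natCast] using this
  have q0 : (0 : ℝ) < q := by exact_mod_cast hq
  have q1 : (0 : ℝ) < q.totient := by exact_mod_cast Nat.totient_pos.2 hq
  refine tendsto_of_bdd (K := q + 1) fun P => ?_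
  have P0 : (0 : ℝ) ≤ P := by positivity
  have e : ∑ m ∈ range (2 * P + 1), c2 q a b P m = q / q.totient *
      (∑ m ∈ range (⌊b * P⌋₊ + 1), g m - ∑ m ∈ range (⌊a * P⌋₊ + 1), g m) := by
    rw [← window (N := 2 * P) (by nlinarith) (by nlinarith) (by push_cast; nlinarith), mul_sum]
    refine sum_congr rfl fun m _ => ?_
    have k : π m = 1 ↔ (m : ℤ) % 4 = 1 := by
      rw [map_natCast, show (1 : ZMod 4) = ((1 : ℕ) : ZMod 4) by norm_num,
        ZMod.natCast_eq_natCast_iff']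
      omega
    simp only [c2, g, k, ZMod.isUnit_iff_coprime, Int.cast_natCast, Int.gcd_natCast_natCast,
      ← ite_and, and_assoc, mul_ite, mul_one, mul_zero, Nat.Coprime]
  have G' : ∀ l : ℕ, |q / q.totient * ∑ j ∈ range l, g j - l / 2| ≤ q / 2 := fun l => by
    have := mul_le_mul_of_nonneg_left (G l) (div_pos q0 q1).le
    rw [← abs_of_pos (div_pos q0 q1), ← abs_mul, abs_of_pos (div_pos q0 q1)] at this
    rwa [mul_sub, show (q : ℝ) / q.totient * (l / q * (q.totient / 2)) = l / 2 by field_simp,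
      show (q : ℝ) / q.totient * (q.totient / 2) = q / 2 by field_simp] at this
  have a1 := abs_le.1 (G' (⌊b * P⌋₊ + 1))
  have a2 := abs_le.1 (G' (⌊a * P⌋₊ + 1))
  have b1 := Nat.floor_le (show 0 ≤ b * P by nlinarith)
  have b2 := Nat.lt_floor_add_one (b * P)
  have b3 := Nat.floor_le (show 0 ≤ a * P by nlinarith)
  have b4 := Nat.lt_floor_add_one (a * P)
  push_cast at a1 a2
  rw [e, mul_sub, abs_le]
  constructor <;> linarith [a1.1, a1.2, a2.1, a2.2]

end Pool.Agent.P.MP_a1177c_nt.LC
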