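import Pool.Agent.P.MP_a1177c_nt.LC.Bilin
import Pool.Agent.P.MP_a1177c_nt.LC.Cone
import Pool.Agent.P.MP_a1177c_nt.LC.Geo
import Pool.Agent.P.MP_a1177c_nt.LC.UB

namespace Pool.Agent.P.MP_a1177c_nt.LC

open Finset Filter MR MR.StructAux
open scoped ComplexConjugate Topology

namespace BilinGAux

open Classical in
/-- Change of variables to the coordinates of a unimodular basis. -/
lemma sum_change {e : G × G} (he : det e.1 e.2 = 1) (A B : Finset G) (g : G → ℝ)
    (h : ∀ u ∈ A, g u ≠ 0 → co e u ∈ B) :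
    ∑ u ∈ A, g u = ∑ h ∈ B, if act e h ∈ A then g (act e h) else 0 := by
  rw [← sum_filter, ← sum_filter_of_ne (p := fun u => co e u ∈ B) h]
  refine sum_bij' (fun u _ => co e u) (fun h _ => act e h) ?_ ?_ ?_ ?_ ?_
  · intro u hu
    obtain ⟨h1, h2⟩ := mem_filter.1 hu
    exact mem_filter.2 ⟨h2, by rwa [act_co he]⟩
  · intro u hu
    obtain ⟨h1, h2⟩ := mem_filter.1 hu
    exact mem_filter.2 ⟨h2, by rwa [co_act he]⟩
  · intro u _; exact act_co he u
  · intro u _; exact co_act he u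
  · intro u _; rw [act_co he]

lemma co_mem {e : G × G} (he : det e.1 e.2 = 1) {u : G} {X : ℝ} (h1 : cont u = 1) (h0 : u ≠ 0)
    (h2 : (nm (co e u) : ℝ) ≤ X) : co e u ∈ An 0 X := by
  refine (mem_An le_rfl).2 ⟨by rwa [cont_co he], ?_, h2⟩
  have : co e u ≠ 0 := fun h => h0 (by rw [← act_co he u, h]; simp [act])
  exact_mod_cast nm_pos this

open Classical in
/-- The contribution of one good cone. -/
lemma good_cone {K K₃ β N ε' : ℝ} {q P : ℕ} (hK : 1 ≤ K) (hK₃ : 4 ≤ K₃) (h2 : β ≤ 2)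
    (hP : (1 : ℝ) ≤ P) (hN : (P : ℝ) ≤ N)
    (hb : ∀ f f' : G → ℝ, (∀ h, |f h| ≤ 1) → (∀ h, |f' h| ≤ 1) →
      |∑ h ∈ An 0 (4 * (K₃ * K ^ 3 + 4 * K) * P), ∑ h' ∈ An 0 (4 * (K₃ * K ^ 3 + 4 * K) * P),
        f h * f' h' * cb q 1 β P (det h h')| ≤ ε' * (P : ℝ) ^ 2)
    {f f' : G → ℝ} (hf : ∀ h, |f h| ≤ 1) (hf' : ∀ h, |f' h| ≤ 1) {e : G × G}
    (he : e ∈ FarG (N / P) K₃) :
    |∑ u ∈ An (N / K) (K * N), if InCone e u then
      ∑ u' ∈ An (N / K) (K * N), f u * f' u' * cb q 1 β P (det u u') else 0| ≤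
        ε' * (P : ℝ) ^ 2 := by
  have hP0 : (0 : ℝ) < P := by linarith
  have hN0 : 0 < N := by linarith
  have hK0 : 0 < K := by linarith
  have hQ : 0 < N / P := by positivity
  have hX0 : 0 < N / K := by positivity
  have hdet : det e.1 e.2 = 1 := ((mem_Far hQ.le).1 (mem_filter.1 he).1).1
  set A := An (N / K) (K * N) with hA
  set B := An 0 (4 * (K₃ * K ^ 3 + 4 * K) * P) with hB
  have key := hb (fun h => if act e h ∈ A ∧ InCone e (act e h) then f (act e h) else 0)
    (fun h => if act e h ∈ A then f' (act e h) else 0)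
    (fun h => by split_ifs; exacts [hf _, by simp]) (fun h => by split_ifs; exacts [hf' _, by simp])
  refine le_of_eq_of_le (congrArg abs ?_) key
  rw [sum_change hdet A B]
  · refine sum_congr rfl fun h _ => ?_
    by_cases h1 : act e h ∈ A
    · by_cases h3 : InCone e (act e h)
      · simp only [h1, h3, if_true, and_self]
        obtain ⟨c1, c2, c3⟩ := (mem_An hX0.le).1 h1
        rw [sum_change hdet A B]
        · refine sum_congr rfl fun h' _ => ?_
          split_ifs
          · rw [det_act, hdet, mul_one]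
          · simp
        · intro u' hu' hne
          obtain ⟨d1, d2, d3⟩ := (mem_An hX0.le).1 hu'
          have hcb : cb q 1 β P (det (act e h) u') ≠ 0 := right_ne_zero_of_mul hne
          have hcp : cp q 1 β P (det (act e h) u') ≠ 0 := fun h0 =>
            hcb (abs_nonpos_iff.1 (h0 ▸ abs_cb_le q 1 β P _))
          obtain ⟨s1, s2⟩ := support_cp hcp
          have hV : |(det (act e h) u' : ℝ)| ≤ 2 * P := by
            rw [abs_le]; constructor <;> nlinarith
          have := nm_co_partner hQ (by linarith : 0 < K₃) hX0 he h3 c2.le c3 d3 hV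
          refine co_mem hdet d1 (ne_of_mem_An hu') (this.trans (le_of_eq ?_))
          field_simp
          ring
      · simp [h3]
    · simp [h1]
  · intro u hu hne
    have h3 : InCone e u := by
      by_contra h3; exact hne (if_neg h3)
    obtain ⟨c1, c2, c3⟩ := (mem_An hX0.le).1 hu
    have h4 := (nm_co_bounds hQ (by linarith : 0 < K₃) he h3).2
    refine co_mem hdet c1 (ne_of_mem_An hu) ?_
    have h5 : N / P / K₃ * (nm (co e u) : ℝ) ≤ N / P / K₃ * (K₃ * K * P) := by
      refine (h4.trans c3).trans (le_of_eq ?_)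
      have : K₃ ≠ 0 := by linarith
      field_simp
    have h6 := le_of_mul_le_mul_left h5 (by positivity)
    refine h6.trans (mul_le_mul_of_nonneg_right ?_ hP0.le)
    have h7 : K ≤ K ^ 3 := le_self_pow₀ hK (by norm_num)
    nlinarith [mul_le_mul_of_nonneg_left h7 (by linarith : 0 ≤ K₃)]

end BilinGAux

open BilinGAux in
/-- The bilinear form with kernel primes minus model is small, global form. -/
theorem bilin_global {K ε β : ℝ} (hK : 1 ≤ K) (hε : 0 < ε) (h1 : 1 ≤ β) (h2 : β ≤ 2) :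
    ∀ᶠ w : ℕ in atTop, ∀ᶠ P : ℕ in atTop, ∀ N : ℝ, P ≤ N → ∀ f f' : G → ℝ, (∀ h, |f h| ≤ 1) →
      (∀ h, |f' h| ≤ 1) →
      |∑ u ∈ An (N / K) (K * N), ∑ u' ∈ An (N / K) (K * N),
        f u * f' u' * cb (4 * WW w) 1 β P (det u u')| ≤ ε * P * N := by
  classical
  obtain ⟨C, hC, hbad⟩ := card_bad_cone
  obtain ⟨C', hC', hcp⟩ := sum_cp_le
  have hK0 : 0 < K := by linarith
  obtain ⟨s, hs2, hs⟩ : ∃ s : ℝ, 2 ≤ s ∧ 10 * C * C' * K ^ 3 / ε ≤ s :=
    ⟨_, le_max_left _ _, le_max_right _ _⟩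
  have hK₃ : 4 ≤ s ^ 2 := by nlinarith
  have hK₅ : 1 ≤ 4 * (s ^ 2 * K ^ 3 + 4 * K) := by
    have : 0 ≤ s ^ 2 * K ^ 3 := by positivity
    linarith
  filter_upwards [bilin hK₅ (by positivity : 0 < ε / 18) h1 h2] with w hw
  have hq : 0 < 4 * WW w := by have := (odd_WW w).pos; omega
  filter_upwards [hw, hcp _ hq, eventually_ge_atTop ⌈K⌉₊] with P hb hc hPK
  intro N hN f f' hf hf'
  have hPK' : K ≤ P := (Nat.le_ceil K).trans (by exact_mod_cast hPK)
  have hP : (1 : ℝ) ≤ P := hK.trans hPK'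
  have hP0 : (0 : ℝ) < P := by linarith
  have hN0 : 0 < N := by linarith
  have hQ1 : 1 ≤ N / P := (one_le_div hP0).2 hN
  have hX0 : 0 < N / K := by positivity
  have hQK : N / P ≤ N / K := div_le_div_of_nonneg_left hN0.le hK0 hPK'
  set A := An (N / K) (K * N) with hA
  set g : G → ℝ := fun u => ∑ u' ∈ A, f u * f' u' * cb (4 * WW w) 1 β P (det u u') with hg
  set T := A.filter fun u => ¬ ∃ e ∈ FarG (N / P) (s ^ 2), InCone e u with hT
  have hsplit : ∑ u ∈ A, g u =
      ∑ e ∈ FarG (N / P) (s ^ 2), (∑ u ∈ A, if InCone e u then g u else 0) + ∑ u ∈ T, g u := by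
    rw [sum_comm (s := FarG (N / P) (s ^ 2)), hT, sum_filter, ← sum_add_distrib]
    refine sum_congr rfl fun u _ => ?_
    by_cases h : ∃ e ∈ FarG (N / P) (s ^ 2), InCone e u
    · rw [if_neg (not_not.2 h), add_zero]
      obtain ⟨e, he, hin⟩ := h
      rw [sum_eq_single_of_mem e he, if_pos hin]
      intro e' he' hne
      exact if_neg fun h' => hne (cone_unique (mem_filter.1 he').1 (mem_filter.1 he).1 h' hin)
    · rw [if_pos h, sum_eq_zero, zero_add]
      intro e he
      exact if_neg fun h' => h ⟨e, he, h'⟩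
  have hsq : √(K * N / (N / K)) = K := by
    rw [show K * N / (N / K) = K ^ 2 by field_simp, Real.sqrt_sq hK0.le]
  have hgood : |∑ e ∈ FarG (N / P) (s ^ 2), ∑ u ∈ A, if InCone e u then g u else 0| ≤
      ε / 2 * P * N := by
    refine (abs_sum_le_sum_abs _ _).trans ?_
    refine (sum_le_card_nsmul _ _ (ε / 18 * (P : ℝ) ^ 2) fun e he => ?_).trans ?_
    · convert good_cone hK hK₃ h2 hP hN hb hf hf' he
    · rw [nsmul_eq_mul]
      have h3 : ((FarG (N / P) (s ^ 2)).card : ℝ) ≤ 9 * (N / P) :=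
        le_trans (by exact_mod_cast card_le_card (filter_subset _ _))
          (card_Far_le (zero_le_one.trans hQ1))
      refine (mul_le_mul_of_nonneg_right h3 (by positivity)).trans (le_of_eq ?_)
      field_simp
      ring
  have hTc : (T.card : ℝ) ≤ C * (K * N) * K / s := by
    have := hbad (N / P) (s ^ 2) (N / K) (K * N) 1 T hQ1 hK₃ hX0 one_pos ?_ ?_ ?_ ?_
    · rwa [hsq, Real.sqrt_sq (by linarith), Nat.cast_one, div_one] at this
    · rw [Nat.cast_one, one_mul]
      refine (div_le_self hN0.le hP).trans ?_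
      nlinarith
    · intro u hu
      obtain ⟨c1, c2, c3⟩ := (mem_An hX0.le).1 (mem_filter.1 hu).1
      exact ⟨c1, c2.le, c3⟩
    · intro u hu
      obtain ⟨hu1, hu2⟩ := mem_filter.1 hu
      obtain ⟨c1, c2, c3⟩ := (mem_An hX0.le).1 hu1
      obtain ⟨e, he, hin⟩ := exists_cone hQ1 c1 (hQK.trans_lt c2)
      exact ⟨e, he, fun h => hu2 ⟨e, h, hin⟩, hin⟩
    · intro u _ u' _
      simp
  have hbadsum : |∑ u ∈ T, g u| ≤ ε / 2 * P * N := by
    refine (abs_sum_le_sum_abs _ _).trans ?_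
    refine (sum_le_card_nsmul _ _ (5 * K * (C' * P)) fun u hu => ?_).trans ?_
    · obtain ⟨c1, c2, c3⟩ := (mem_An hX0.le).1 (mem_filter.1 hu).1
      have h3 := sum_partners hX0 c1 c2.le c3 (T := A)
        (fun u' hu' => ((mem_An hX0.le).1 hu').2.2) (cp (4 * WW w) 1 β P)
        (cp_nonneg _ _ _ _) (hc 1 β le_rfl h2)
      rw [hsq] at h3
      refine le_trans ((abs_sum_le_sum_abs _ _).trans (sum_le_sum fun u' _ => ?_)) h3
      rw [abs_mul, abs_mul]
      calc |f u| * |f' u'| * |cb (4 * WW w) 1 β P (det u u')|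
          ≤ 1 * 1 * cp (4 * WW w) 1 β P (det u u') :=
            mul_le_mul (mul_le_mul (hf _) (hf' _) (abs_nonneg _) zero_le_one) (abs_cb_le _ _ _ _ _)
              (abs_nonneg _) (by norm_num)
        _ = _ := by ring
    · rw [nsmul_eq_mul]
      refine (mul_le_mul_of_nonneg_right hTc (by positivity)).trans ?_
      have hs0 : 0 < s := by linarith
      have h3 : 10 * C * C' * K ^ 3 ≤ s * ε := (div_le_iff₀ hε).1 hs
      rw [div_mul_eq_mul_div, div_le_iff₀ hs0]
      nlinarith [mul_le_mul_of_nonneg_right h3 (by positivity : 0 ≤ (P : ℝ) * N)]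
  rw [hsplit]
  refine (abs_add_le _ _).trans ?_
  linarith

end Pool.Agent.P.MP_a1177c_nt.LC
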