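import Pool.Agent.P.MP_a1177c_nt.LC.Geo

namespace Pool.Agent.P.MP_a1177c_nt.LC

open Finset Filter MR MR.StructAux
open scoped ComplexConjugate Topology

namespace BlocksAux

lemma sum_Ioc_split {M : Type*} [AddCommMonoid M] {a : ℕ → ℕ} (ha : Monotone a) (F : ℕ → M)
    (m n : ℕ) :
    ∑ p ∈ Ioc (a m) (a n), F p = ∑ i ∈ Ico m n, ∑ p ∈ Ioc (a i) (a (i + 1)), F p := by
  rcases le_or_gt m n with h | h
  · induction n, h using Nat.le_induction with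
    | base => simp
    | succ n h ih =>
      rw [sum_Ico_succ_top h, ← ih, sum_Ioc_consecutive _ (ha h) (ha (Nat.le_succ n))]
  · rw [Ioc_eq_empty (not_lt.2 (ha h.le)), Ico_eq_empty (not_lt.2 h.le)]
    simp

lemma sum_PR_PS {M : Type*} [AddCommMonoid M] (J t₀ t₁ : ℕ) (f : ℕ → M) :
    ∑ p ∈ PR J t₀ t₁, f p = ∑ t ∈ Ico t₀ t₁, ∑ p ∈ PS (J * 2 ^ t), f p := by
  have hm : Monotone fun t : ℕ => J * 2 ^ t := fun s t h =>
    Nat.mul_le_mul_left _ (Nat.pow_le_pow_right two_pos h)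
  rw [PR, sum_filter, sum_Ioc_split hm]
  refine sum_congr rfl fun t _ => ?_
  rw [PS, sum_filter, show 2 * (J * 2 ^ t) = J * 2 ^ (t + 1) by ring]

lemma sum_PS_blk {M : Type*} [AddCommMonoid M] (J t : ℕ) (f : ℕ → M) :
    ∑ p ∈ PS (J * 2 ^ t), f p = ∑ c ∈ Ico J (2 * J), ∑ p ∈ blk (c, t), f p := by
  have hm : Monotone fun c : ℕ => c * 2 ^ t := fun s t h => Nat.mul_le_mul_right _ h
  rw [PS, sum_filter, ← mul_assoc, sum_Ioc_split hm]
  refine sum_congr rfl fun c _ => ?_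
  rw [blk, sum_filter]

lemma two_le {J t : ℕ} (hJ : 1 ≤ J) (ht : 1 ≤ t) : 2 ≤ J * 2 ^ t :=
  calc 2 = 1 * 2 ^ 1 := by norm_num
    _ ≤ J * 2 ^ t := Nat.mul_le_mul hJ (Nat.pow_le_pow_right two_pos ht)

lemma PS_lower : ∀ᶠ Y : ℕ in atTop, 1 / (16 * Real.log Y) ≤ ∑ p ∈ PS Y, (1 : ℝ) / p := by
  filter_upwards [card_PS_lower, eventually_ge_atTop 2] with Y h hY
  have hY' : (2 : ℝ) ≤ Y := by exact_mod_cast hY
  have hl : 0 < Real.log Y := Real.log_pos (by linarith)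
  have h1 : ((PS Y).card : ℝ) * (1 / (2 * Y)) ≤ ∑ p ∈ PS Y, (1 : ℝ) / p := by
    rw [← nsmul_eq_mul]
    refine card_nsmul_le_sum _ _ _ fun p hp => ?_
    obtain ⟨⟨-, h2⟩, h3, -⟩ := mem_PS.1 hp
    refine one_div_le_one_div_of_le (by exact_mod_cast h3.pos) ?_
    exact_mod_cast h2
  refine le_trans (le_of_eq ?_) ((mul_le_mul_of_nonneg_right h (by positivity)).trans h1)
  field_simp
  norm_num

lemma PS_upper {Y : ℕ} (hY : 2 ≤ Y) : ∑ p ∈ PS Y, (1 : ℝ) / p ≤ 3 / Real.log Y := by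
  have hY' : (2 : ℝ) ≤ Y := by exact_mod_cast hY
  have hl : 0 < Real.log Y := Real.log_pos (by linarith)
  have h1 : ∑ p ∈ PS Y, (1 : ℝ) / p ≤ ((PS Y).card : ℝ) * (1 / Y) := by
    rw [← nsmul_eq_mul]
    refine sum_le_card_nsmul _ _ _ fun p hp => ?_
    refine one_div_le_one_div_of_le (by linarith) ?_
    exact_mod_cast (mem_PS.1 hp).1.1.le
  refine h1.trans ((mul_le_mul_of_nonneg_right (card_PS_upper hY) (by positivity)).trans
    (le_of_eq ?_))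
  field_simp

lemma PS_lower' {J : ℕ} (hJ : 1 ≤ J) : ∀ᶠ t₀ : ℕ in atTop, ∀ t, t₀ ≤ t →
    1 / (16 * Real.log (J * 2 ^ t : ℕ)) ≤ ∑ p ∈ PS (J * 2 ^ t), (1 : ℝ) / p := by
  obtain ⟨Y₀, hY₀⟩ := eventually_atTop.1 PS_lower
  filter_upwards [eventually_ge_atTop Y₀] with t₀ h t ht
  refine hY₀ _ ?_
  calc Y₀ ≤ t := h.trans ht
    _ ≤ 1 * 2 ^ t := by rw [one_mul]; exact Nat.lt_two_pow_self.le
    _ ≤ _ := Nat.mul_le_mul_right _ hJ

lemma log_le_sum {a b : ℕ} (ha : 1 ≤ a) (hab : a ≤ b) :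
    Real.log b - Real.log a ≤ ∑ t ∈ Ico a b, (1 : ℝ) / t := by
  induction b, hab using Nat.le_induction with
  | base => simp
  | succ n h ih =>
    rw [sum_Ico_succ_top h]
    have hn : (0 : ℝ) < n := by exact_mod_cast ha.trans h
    have h1 : Real.log (((n : ℝ) + 1) / n) ≤ ((n : ℝ) + 1) / n - 1 :=
      Real.log_le_sub_one_of_pos (by positivity)
    rw [Real.log_div (by positivity) hn.ne', show ((n : ℝ) + 1) / n - 1 = 1 / n by field_simp; ring]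
      at h1
    push_cast
    linarith

/-- The number of multiples of `d` in a disc. -/
lemma count_dvd : ∃ C : ℝ, 0 < C ∧ ∀ (y : ℕ) (d : G), d ≠ 0 → ∀ [DecidablePred fun a : G => d ∣ a],
    |∑ w ∈ disc y, (if d ∣ w then (1 : ℝ) else 0) - Real.pi * y / nm d| ≤
      C * ((y : ℝ) + 1) ^ ((2 : ℝ) / 3) := by
  obtain ⟨C, hC, h⟩ := expsum_small
  refine ⟨C + 4, by positivity, fun y d hd _ => ?_⟩
  have hn : (0 : ℝ) < nm d := by exact_mod_cast nm_pos hd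
  have e : ∑ w ∈ disc y, (if d ∣ w then (1 : ℝ) else 0) = (disc (y / nm d)).card := by
    rw [← sum_filter, sum_disc_dvd y hd (fun _ => (1 : ℝ))]
    simp
  set m := y / nm d with hm
  have hy1 : (1 : ℝ) ≤ ((y : ℝ) + 1) ^ ((2 : ℝ) / 3) :=
    Real.one_le_rpow (by linarith [Nat.cast_nonneg (α := ℝ) y]) (by norm_num)
  have h1 : |((disc m).card : ℝ) - Real.pi * m| ≤ C * ((y : ℝ) + 1) ^ ((2 : ℝ) / 3) := by
    rcases Nat.eq_zero_or_pos m with h0 | h0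
    · rw [h0]; simp; positivity
    · have h2 := h m 0 h0
      simp only [chi_zero, sum_const, nsmul_eq_mul, mul_one, if_true, Int.cast_zero, abs_zero,
        add_zero, one_mul] at h2
      rw [show ((disc m).card : ℂ) - ((Real.pi * m : ℝ) : ℂ) =
        ((((disc m).card : ℝ) - Real.pi * m : ℝ) : ℂ) by push_cast; ring, Complex.norm_real,
        Real.norm_eq_abs] at h2
      refine h2.trans ?_
      have h3 : (m : ℝ) ≤ y := by exact_mod_cast Nat.div_le_self _ _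
      gcongr
      linarith
  have h4 : (m : ℝ) ≤ y / nm d := Nat.cast_div_le
  have h5 : (y : ℝ) / nm d ≤ m + 1 := by
    rw [div_le_iff₀ hn]
    have := Nat.lt_div_mul_add (a := y) (nm_pos hd)
    have h6 : (y : ℝ) < (m : ℝ) * nm d + nm d := by exact_mod_cast this
    linarith
  have h7 := Real.pi_pos
  have h8 := Real.pi_lt_four
  rw [e, mul_div_assoc]
  rw [abs_le] at h1 ⊢
  constructor <;> nlinarith [h1.1, h1.2]

lemma gp_mul_dvd {p q : ℕ} (hp : p.Prime ∧ p % 4 = 1) (hq : q.Prime ∧ q % 4 = 1) (h : p ≠ q)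
    (w : G) : gp p * gp q ∣ w ↔ gp p ∣ w ∧ gp q ∣ w := by
  refine ⟨fun h' => ⟨dvd_of_mul_right_dvd h', dvd_of_mul_left_dvd h'⟩, fun ⟨h1, h2⟩ => ?_⟩
  have hπ : Prime (gp q) := prime_of_nm_prime (by rw [nm_gp hq.1 hq.2]; exact hq.1)
  obtain ⟨c, rfl⟩ := h1
  rcases hπ.dvd_or_dvd h2 with h3 | h3
  · have h4 := nm_dvd h3
    rw [nm_gp hp.1 hp.2, nm_gp hq.1 hq.2] at h4
    exact absurd ((Nat.prime_dvd_prime_iff_eq hq.1 hp.1).1 h4).symm h
  · exact mul_dvd_mul_left _ h3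

lemma sq_dvd_nm {p : ℕ} (hp : p.Prime) (h4 : p % 4 = 1) {w : G} (h : p ^ 2 ∣ nm w) :
    gp p * gp p ∣ w ∨ star (gp p) * star (gp p) ∣ w ∨ gp p * star (gp p) ∣ w := by
  have key : ∀ δ c : G, nm δ = p → p ^ 2 ∣ nm (δ * c) → gp p ∣ c ∨ star (gp p) ∣ c := by
    intro δ c h1 h2
    rw [nm_mul, h1, sq] at h2
    exact (dvd_nm_iff hp h4 c).1 (Nat.dvd_of_mul_dvd_mul_left hp.pos h2)
  rcases (dvd_nm_iff hp h4 w).1 ((dvd_pow_self p two_ne_zero).trans h) with ⟨c, rfl⟩ | ⟨c, rfl⟩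
  · rcases key _ c (nm_gp hp h4) h with h1 | h1
    · exact Or.inl (mul_dvd_mul_left _ h1)
    · exact Or.inr (Or.inr (mul_dvd_mul_left _ h1))
  · rcases key _ c (by rw [nm_star, nm_gp hp h4]) h with h1 | h1
    · refine Or.inr (Or.inr ?_)
      rw [mul_comm (gp p)]
      exact mul_dvd_mul_left _ h1
    · exact Or.inr (Or.inl (mul_dvd_mul_left _ h1))

lemma card_or_le {s : Finset G} {A B C : G → Prop} [DecidablePred A] [DecidablePred B]
    [DecidablePred C] (h : ∀ w, A w → B w ∨ C w) :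
    ((s.filter A).card : ℝ) ≤ (s.filter B).card + (s.filter C).card := by
  classical
  have h1 : s.filter A ⊆ s.filter B ∪ s.filter C := fun w hw => by
    obtain ⟨h2, h3⟩ := mem_filter.1 hw
    rcases h w h3 with h4 | h4
    · exact mem_union_left _ (mem_filter.2 ⟨h2, h4⟩)
    · exact mem_union_right _ (mem_filter.2 ⟨h2, h4⟩)
  exact_mod_cast (card_le_card h1).trans (card_union_le _ _)

lemma card_dvd_nm {p : ℕ} (hp : p.Prime) (h4 : p % 4 = 1) (y : ℕ) :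
    (((disc y).filter fun w => p ∣ nm w).card : ℝ) ≤ 18 * y / p := by
  classical
  have h0 := gp_ne_zero hp h4
  have h1 := card_disc_dvd_le y h0
  have h2 := card_disc_dvd_le y (star_ne_zero.2 h0)
  rw [nm_star] at h2
  rw [nm_gp hp h4] at h1 h2
  refine (card_or_le fun w => (dvd_nm_iff hp h4 w).1).trans ((add_le_add h1 h2).trans (le_of_eq ?_))
  ring

lemma card_sq_dvd_nm {p : ℕ} (hp : p.Prime) (h4 : p % 4 = 1) (y : ℕ) :
    (((disc y).filter fun w => p ^ 2 ∣ nm w).card : ℝ) ≤ 27 * y * ((p : ℝ) ^ 2)⁻¹ := by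
  classical
  have h0 := gp_ne_zero hp h4
  have h0' := star_ne_zero.2 h0
  have h1 := card_disc_dvd_le y (mul_ne_zero h0 h0)
  have h2 := card_disc_dvd_le y (mul_ne_zero h0' h0')
  have h3 := card_disc_dvd_le y (mul_ne_zero h0 h0')
  simp only [nm_mul, nm_star, nm_gp hp h4] at h1 h2 h3
  have h5 := card_or_le (s := disc y) fun w => sq_dvd_nm hp h4 (w := w)
  have h6 := card_or_le (s := disc y)
    (A := fun w => star (gp p) * star (gp p) ∣ w ∨ gp p * star (gp p) ∣ w) fun _ h => h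
  have e : 27 * (y : ℝ) * ((p : ℝ) ^ 2)⁻¹ = 3 * (9 * y / ((p * p : ℕ) : ℝ)) := by
    push_cast; ring
  rw [e]
  linarith

lemma sum_inv_sq_le {S : Finset ℕ} {P : ℕ} (hP : 0 < P) (hPS : ∀ p ∈ S, P < p) :
    ∑ p ∈ S, ((p : ℝ) ^ 2)⁻¹ ≤ (P : ℝ)⁻¹ := by
  have h1 : S ⊆ Ioc P (max P (S.sup id)) := fun p hp =>
    mem_Ioc.2 ⟨hPS p hp, le_max_of_le_right (le_sup (f := id) hp)⟩
  refine (sum_le_sum_of_subset_of_nonneg h1 fun _ _ _ => by positivity).trans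
    ((sum_Ioc_inv_sq_le_sub hP.ne' (le_max_left _ _)).trans ?_)
  have : (0 : ℝ) ≤ (((max P (S.sup id) : ℕ)) : ℝ)⁻¹ := by positivity
  linarith

end BlocksAux

open BlocksAux

theorem sum_PR_eq {M : Type*} [AddCommMonoid M] {J : ℕ} (hJ : 1 ≤ J) (t₀ t₁ : ℕ) (f : ℕ → M) :
    ∑ p ∈ PR J t₀ t₁, f p = ∑ v ∈ VV J t₀ t₁, ∑ p ∈ blk v, f p := by
  have _ := hJ
  rw [sum_PR_PS, VV, sum_product_right]
  exact sum_congr rfl fun t _ => sum_PS_blk J t f

theorem Yv_bounds {J t₀ t₁ : ℕ} {v : ℕ × ℕ} (hv : v ∈ VV J t₀ t₁) :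
    J * 2 ^ t₀ ≤ J * 2 ^ v.2 ∧ J * 2 ^ v.2 ≤ Yv v ∧ Yv v + 2 ^ v.2 ≤ J * 2 ^ t₁ := by
  obtain ⟨⟨h1, h2⟩, h3, h4⟩ := mem_VV.1 hv
  refine ⟨Nat.mul_le_mul_left _ (Nat.pow_le_pow_right two_pos h3), Nat.mul_le_mul_right _ h1, ?_⟩
  calc Yv v + 2 ^ v.2 = (v.1 + 1) * 2 ^ v.2 := by rw [Yv]; ring
    _ ≤ 2 * J * 2 ^ v.2 := Nat.mul_le_mul_right _ h2
    _ = J * 2 ^ (v.2 + 1) := by ring
    _ ≤ _ := Nat.mul_le_mul_left _ (Nat.pow_le_pow_right two_pos h4)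

theorem blk_subset_PR {J t₀ t₁ : ℕ} {v : ℕ × ℕ} (hv : v ∈ VV J t₀ t₁) : blk v ⊆ PR J t₀ t₁ := by
  intro p hp
  obtain ⟨h1, h2, h3⟩ := Yv_bounds hv
  obtain ⟨⟨h4, h5⟩, h6⟩ := mem_blk.1 hp
  exact mem_PR.2 ⟨⟨by omega, by omega⟩, h6⟩

theorem card_VV (J t₀ t₁ : ℕ) : (VV J t₀ t₁).card = J * (t₁ - t₀) := by
  rw [VV, card_product, Nat.card_Ico, Nat.card_Ico, show 2 * J - J = J by omega]

theorem sum_inv_log_le_LL {J : ℕ} (hJ : 1 ≤ J) : ∀ᶠ t₀ : ℕ in atTop, ∀ t₁ : ℕ,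
    ∑ v ∈ VV J t₀ t₁, 1 / Real.log (Yv v) ≤ 16 * J * LL J t₀ t₁ := by
  filter_upwards [PS_lower' hJ, eventually_ge_atTop 1] with t₀ h h0 t₁
  rw [LL, sum_PR_PS, VV, sum_product_right, mul_sum]
  refine sum_le_sum fun t ht => ?_
  have ht0 := (mem_Ico.1 ht).1
  have h2 : (2 : ℝ) ≤ (J * 2 ^ t : ℕ) := by exact_mod_cast two_le hJ (h0.trans ht0)
  have hl : 0 < Real.log (J * 2 ^ t : ℕ) := Real.log_pos (by linarith)
  have h1 : ∑ c ∈ Ico J (2 * J), 1 / Real.log (Yv (c, t)) ≤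
      (Ico J (2 * J)).card • (1 / Real.log (J * 2 ^ t : ℕ)) := by
    refine sum_le_card_nsmul _ _ _ fun c hc => one_div_le_one_div_of_le hl
      (Real.log_le_log (by linarith) ?_)
    exact_mod_cast Nat.mul_le_mul_right _ (mem_Ico.1 hc).1
  rw [Nat.card_Ico, show 2 * J - J = J by omega, nsmul_eq_mul] at h1
  refine h1.trans (le_trans (le_of_eq ?_) (mul_le_mul_of_nonneg_left (h t ht0) (by positivity)))
  field_simp

theorem LL_large (L : ℝ) : ∃ Λ : ℕ, 2 ≤ Λ ∧ ∀ J : ℕ, 1 ≤ J → ∀ᶠ t₀ : ℕ in atTop,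
    L ≤ LL J t₀ (Λ * t₀) := by
  refine ⟨max 2 ⌈Real.exp (32 * L)⌉₊, le_max_left _ _, fun J hJ => ?_⟩
  set Λ := max 2 ⌈Real.exp (32 * L)⌉₊ with hΛ
  have hΛ2 : 2 ≤ Λ := le_max_left _ _
  have hΛ0 : (0 : ℝ) < Λ := by exact_mod_cast (by omega : 0 < Λ)
  have hΛL : 32 * L ≤ Real.log Λ := by
    rw [Real.le_log_iff_exp_le hΛ0]
    exact (Nat.le_ceil _).trans (by exact_mod_cast le_max_right _ _)
  filter_upwards [PS_lower' hJ, eventually_ge_atTop 1, eventually_ge_atTop J] with t₀ h h0 hJ0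
  have ht0 : (0 : ℝ) < t₀ := by exact_mod_cast h0
  have h1 := log_le_sum h0 (Nat.le_mul_of_pos_left t₀ (by omega : 0 < Λ))
  rw [Nat.cast_mul, Real.log_mul hΛ0.ne' ht0.ne', add_sub_cancel_right] at h1
  have h2 : (∑ t ∈ Ico t₀ (Λ * t₀), (1 : ℝ) / t) / 32 ≤ LL J t₀ (Λ * t₀) := by
    rw [LL, sum_PR_PS, sum_div]
    refine sum_le_sum fun t ht => le_trans ?_ (h t (mem_Ico.1 ht).1)
    have ht1 := (mem_Ico.1 ht).1
    have h2 : (2 : ℝ) ≤ (J * 2 ^ t : ℕ) := by exact_mod_cast two_le hJ (h0.trans ht1)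
    have hl : 0 < Real.log (J * 2 ^ t : ℕ) := Real.log_pos (by linarith)
    have h3 : J * 2 ^ t ≤ 2 ^ (2 * t) := by
      rw [two_mul, pow_add]
      exact Nat.mul_le_mul_right _ ((hJ0.trans ht1).trans Nat.lt_two_pow_self.le)
    have h4 : Real.log (J * 2 ^ t : ℕ) ≤ Real.log ((2 : ℝ) ^ (2 * t)) :=
      Real.log_le_log (by linarith) (by exact_mod_cast h3)
    rw [Real.log_pow] at h4
    have h5 := Real.log_two_lt_d9
    have h6 : (0 : ℝ) ≤ t := Nat.cast_nonneg _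
    rw [div_div]
    refine one_div_le_one_div_of_le (by positivity) ?_
    push_cast at h4 ⊢
    nlinarith
  linarith

theorem LL_le {J t₀ : ℕ} (hJ : 1 ≤ J) (h0 : 1 ≤ t₀) (Λ : ℕ) : LL J t₀ (Λ * t₀) ≤ 5 * Λ := by
  have ht0 : (1 : ℝ) ≤ t₀ := by exact_mod_cast h0
  rw [LL, sum_PR_PS]
  have h1 : ∑ t ∈ Ico t₀ (Λ * t₀), ∑ p ∈ PS (J * 2 ^ t), (1 : ℝ) / p ≤
      (Ico t₀ (Λ * t₀)).card • ((5 : ℝ) / t₀) := by
    refine sum_le_card_nsmul _ _ _ fun t ht => ?_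
    have ht1 := (mem_Ico.1 ht).1
    have h2 := two_le hJ (h0.trans ht1)
    refine (PS_upper h2).trans ?_
    have h3 : 2 ^ t₀ ≤ J * 2 ^ t :=
      (Nat.pow_le_pow_right two_pos ht1).trans (Nat.le_mul_of_pos_left _ hJ)
    have h4 : Real.log ((2 : ℝ) ^ t₀) ≤ Real.log (J * 2 ^ t : ℕ) :=
      Real.log_le_log (by positivity) (by exact_mod_cast h3)
    rw [Real.log_pow] at h4
    have h5 := Real.log_two_gt_d9
    rw [div_le_div_iff₀ (by nlinarith) (by linarith)]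
    nlinarith
  refine h1.trans ?_
  rw [Nat.card_Ico, nsmul_eq_mul]
  have h2 : ((Λ * t₀ - t₀ : ℕ) : ℝ) ≤ Λ * t₀ := by exact_mod_cast Nat.sub_le _ _
  refine (mul_le_mul_of_nonneg_right h2 (by positivity)).trans (le_of_eq ?_)
  field_simp

open Classical in
/-- Turan-Kubilius inequality. -/
theorem tk_var : ∃ C : ℝ, 0 < C ∧ ∀ (S : Finset ℕ) (y : ℕ), (∀ p ∈ S, p.Prime ∧ p % 4 = 1) →
    ∑ w ∈ disc y, (((S.filter fun p => gp p ∣ w).card : ℝ) - ∑ p ∈ S, (1 : ℝ) / p) ^ 2 ≤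
      4 * y * ∑ p ∈ S, (1 : ℝ) / p + C * (S.card : ℝ) ^ 2 * ((y : ℝ) + 1) ^ ((2 : ℝ) / 3) := by
  obtain ⟨C, hC, h⟩ := count_dvd
  refine ⟨4 * C, by positivity, fun S y hS => ?_⟩
  set R := C * ((y : ℝ) + 1) ^ ((2 : ℝ) / 3) with hR
  have hR0 : 0 ≤ R := by positivity
  set n : G → ℝ := fun d => ∑ w ∈ disc y, if d ∣ w then (1 : ℝ) else 0 with hn
  set A := Real.pi * y with hA
  have hA0 : 0 ≤ A := by positivity
  have hA4 : A ≤ 4 * y := mul_le_mul_of_nonneg_right Real.pi_lt_four.le (Nat.cast_nonneg _)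
  have e1 : ∀ w : G, ((S.filter fun p => gp p ∣ w).card : ℝ) - ∑ p ∈ S, (1 : ℝ) / p =
      ∑ p ∈ S, ((if gp p ∣ w then (1 : ℝ) else 0) - 1 / p) := fun w => by
    rw [sum_sub_distrib, sum_boole]
  have h1 : |n 1 - A| ≤ R := by
    have := h y 1 one_ne_zero
    rwa [nm_one, Nat.cast_one, div_one] at this
  have hp1 : ∀ p ∈ S, |n (gp p) - A * (1 / p)| ≤ R := fun p hp => by
    have := h y _ (gp_ne_zero (hS p hp).1 (hS p hp).2)
    rwa [nm_gp (hS p hp).1 (hS p hp).2, div_eq_mul_one_div] at this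
  have hb : ∀ p ∈ S, 0 ≤ (1 : ℝ) / p ∧ (1 : ℝ) / p ≤ 1 := fun p hp =>
    ⟨by positivity, by
      rw [div_le_one (by exact_mod_cast (hS p hp).1.pos)]
      exact_mod_cast (hS p hp).1.pos⟩
  have key : ∀ p ∈ S, ∀ q ∈ S, ∑ w ∈ disc y, ((if gp p ∣ w then (1 : ℝ) else 0) - 1 / p) *
      ((if gp q ∣ w then (1 : ℝ) else 0) - 1 / q) ≤ (if p = q then A * (1 / p) else 0) + 4 * R := by
    intro p hp q hq
    have e2 : ∑ w ∈ disc y, ((if gp p ∣ w then (1 : ℝ) else 0) - 1 / p) *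
        ((if gp q ∣ w then (1 : ℝ) else 0) - 1 / q) =
        ∑ w ∈ disc y, (if gp p ∣ w ∧ gp q ∣ w then (1 : ℝ) else 0) - 1 / q * n (gp p) -
          1 / p * n (gp q) + 1 / p * (1 / q) * n 1 := by
      simp only [hn, mul_sum, ← sum_sub_distrib, ← sum_add_distrib]
      refine sum_congr rfl fun w _ => ?_
      by_cases a1 : gp p ∣ w <;> by_cases a2 : gp q ∣ w <;> simp [a1, a2] <;> ring
    obtain ⟨b1, b2⟩ := hb p hp
    obtain ⟨b3, b4⟩ := hb q hq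
    obtain ⟨c1, -⟩ := abs_le.1 (hp1 p hp)
    obtain ⟨c3, -⟩ := abs_le.1 (hp1 q hq)
    obtain ⟨-, c5⟩ := abs_le.1 h1
    have d1 : 1 / (q : ℝ) * (A * (1 / p)) - R ≤ 1 / q * n (gp p) := by nlinarith
    have d2 : 1 / (p : ℝ) * (A * (1 / q)) - R ≤ 1 / p * n (gp q) := by nlinarith
    have d3 : 1 / (p : ℝ) * (1 / q) * n 1 ≤ 1 / p * (1 / q) * A + R := by
      have f1 : 0 ≤ 1 / (p : ℝ) * (1 / q) := mul_nonneg b1 b3
      have f2 : 1 / (p : ℝ) * (1 / q) ≤ 1 := mul_le_one₀ b2 b3 b4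
      nlinarith
    rw [e2]
    split_ifs with hpq
    · subst hpq
      obtain ⟨-, c2⟩ := abs_le.1 (hp1 p hp)
      have e3 : ∑ w ∈ disc y, (if gp p ∣ w ∧ gp p ∣ w then (1 : ℝ) else 0) = n (gp p) := by
        simp only [and_self, hn]
      have f1 : 0 ≤ 1 / (p : ℝ) * (1 / p) * A := by positivity
      rw [e3]
      nlinarith
    · have e3 : ∑ w ∈ disc y, (if gp p ∣ w ∧ gp q ∣ w then (1 : ℝ) else 0) = n (gp p * gp q) := by
        simp only [hn, gp_mul_dvd (hS p hp) (hS q hq) hpq]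
      have c2 := h y _ (mul_ne_zero (gp_ne_zero (hS p hp).1 (hS p hp).2)
        (gp_ne_zero (hS q hq).1 (hS q hq).2))
      rw [nm_mul, nm_gp (hS p hp).1 (hS p hp).2, nm_gp (hS q hq).1 (hS q hq).2] at c2
      have c4 : n (gp p * gp q) - A / ((p * q : ℕ) : ℝ) ≤ R := (abs_le.1 c2).2
      have e4 : A / ((p * q : ℕ) : ℝ) = 1 / (p : ℝ) * (1 / q) * A := by push_cast; ring
      rw [e3]
      nlinarith
  simp only [e1, sq, sum_mul_sum]
  rw [sum_comm]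
  calc _ ≤ ∑ p ∈ S, ∑ q ∈ S, ((if p = q then A * (1 / p) else 0) + 4 * R) := by
        refine sum_le_sum fun p hp => ?_
        rw [sum_comm]
        exact sum_le_sum fun q hq => key p hp q hq
    _ = A * ∑ p ∈ S, (1 : ℝ) / p + 4 * (S.card * S.card) * R := by
        simp only [sum_add_distrib, sum_const, nsmul_eq_mul, mul_sum]
        congr 1
        · exact sum_congr rfl fun p hp => by rw [sum_ite_eq, if_pos hp]
        · ring
    _ ≤ _ := by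
        have : A * ∑ p ∈ S, (1 : ℝ) / p ≤ 4 * y * ∑ p ∈ S, (1 : ℝ) / p :=
          mul_le_mul_of_nonneg_right hA4 (sum_nonneg fun p hp => (hb p hp).1)
        rw [hR]
        nlinarith

/-- Points with few prime factors from `S`, none of them repeated. -/
def Few (S : Finset ℕ) (M : ℕ) (w : G) : Prop :=
  (∀ p ∈ S, ¬ p ^ 2 ∣ nm w) ∧ (S.filter fun p => p ∣ nm w).card ≤ M

theorem few_mul {S : Finset ℕ} (hS : ∀ p ∈ S, p.Prime) (M : ℕ) {a : G} (w : G)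
    (ha : ∀ p ∈ S, ¬ p ∣ nm a) : Few S M (a * w) ↔ Few S M w := by
  have key : ∀ p ∈ S, ∀ j : ℕ, p ^ j ∣ nm (a * w) ↔ p ^ j ∣ nm w := fun p hp j => by
    rw [nm_mul]
    exact (((hS p hp).coprime_iff_not_dvd.2 (ha p hp)).pow_left j).dvd_mul_left
  have e : (S.filter fun p => p ∣ nm (a * w)) = S.filter fun p => p ∣ nm w :=
    filter_congr fun p hp => by simpa using key p hp 1
  rw [Few, Few, e]
  exact and_congr_left' (forall₂_congr fun p hp => by rw [key p hp])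

open Classical in
theorem card_not_few {S : Finset ℕ} (hS : ∀ p ∈ S, p.Prime ∧ p % 4 = 1) {M P : ℕ} (hM : 0 < M)
    (hP : 0 < P) (hPS : ∀ p ∈ S, P < p) (y : ℕ) :
    (((disc y).filter fun w => ¬ Few S M w).card : ℝ) ≤
      27 * y / P + 18 * y * (∑ p ∈ S, (1 : ℝ) / p) / M := by
  have hM' : (0 : ℝ) < M := by exact_mod_cast hM
  have h0 := card_or_le (s := disc y) (A := fun w => ¬ Few S M w)
    (B := fun w => ∃ p ∈ S, p ^ 2 ∣ nm w) (C := fun w => M < (S.filter fun p => p ∣ nm w).card)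
    fun w hw => by
      by_contra hc
      push Not at hc
      exact hw hc
  refine h0.trans (add_le_add ?_ ?_)
  · have h1 : ((disc y).filter fun w => ∃ p ∈ S, p ^ 2 ∣ nm w) =
        S.biUnion fun p => (disc y).filter fun w => p ^ 2 ∣ nm w := by
      ext w
      simp only [mem_filter, mem_biUnion]
      constructor
      · rintro ⟨a, p, b, c⟩; exact ⟨p, b, a, c⟩
      · rintro ⟨p, b, a, c⟩; exact ⟨a, p, b, c⟩
    rw [h1]
    calc _ ≤ ∑ p ∈ S, (((disc y).filter fun w => p ^ 2 ∣ nm w).card : ℝ) := by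
          exact_mod_cast card_biUnion_le
      _ ≤ ∑ p ∈ S, 27 * y * ((p : ℝ) ^ 2)⁻¹ :=
          sum_le_sum fun p hp => card_sq_dvd_nm (hS p hp).1 (hS p hp).2 y
      _ ≤ _ := by
          rw [← mul_sum, div_eq_mul_inv]
          exact mul_le_mul_of_nonneg_left (sum_inv_sq_le hP hPS) (by positivity)
  · rw [le_div_iff₀ hM']
    calc _ ≤ ∑ w ∈ (disc y).filter (fun w => M < (S.filter fun p => p ∣ nm w).card),
            ((S.filter fun p => p ∣ nm w).card : ℝ) := by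
          rw [← nsmul_eq_mul]
          exact card_nsmul_le_sum _ _ _ fun w hw => by exact_mod_cast (mem_filter.1 hw).2.le
      _ ≤ ∑ w ∈ disc y, ((S.filter fun p => p ∣ nm w).card : ℝ) :=
          sum_le_sum_of_subset_of_nonneg (filter_subset _ _) fun _ _ _ => Nat.cast_nonneg _
      _ = ∑ p ∈ S, (((disc y).filter fun w => p ∣ nm w).card : ℝ) := by
          simp only [card_filter]
          push_cast
          rw [sum_comm]
      _ ≤ ∑ p ∈ S, 18 * (y : ℝ) / p :=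
          sum_le_sum fun p hp => card_dvd_nm (hS p hp).1 (hS p hp).2 y
      _ = _ := by
          rw [mul_sum]
          exact sum_congr rfl fun p _ => by ring

end Pool.Agent.P.MP_a1177c_nt.LC
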