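import Pool.Agent.P.MP_a1177c_nt.LC.Geo
import Pool.Agent.P.MP_a1177c_nt.MR.HalaszAbs

namespace Pool.Agent.P.MP_a1177c_nt.LC

open Finset Filter MR MR.StructAux
open scoped ComplexConjugate Topology

namespace SharpAux

lemma exp_neg_le_inv {t : ℝ} (ht : 0 < t) : Real.exp (-t) ≤ 1 / t := by
  rw [Real.exp_neg, one_div]
  exact inv_anti₀ ht (by linarith [Real.add_one_le_exp t])

lemma exp_neg_sq_le (u : ℝ) : Real.exp (-u ^ 2) ≤ 3 * Real.exp (-|u|) := by
  have h1 : Real.exp (-u ^ 2) ≤ Real.exp (1 + -|u|) := by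
    refine Real.exp_le_exp.2 ?_
    rw [← sq_abs u]
    nlinarith [sq_nonneg (|u| - 1), abs_nonneg u]
  rw [Real.exp_add] at h1
  have h2 : Real.exp 1 ≤ 3 := Real.exp_one_lt_three.le
  exact h1.trans (mul_le_mul_of_nonneg_right h2 (Real.exp_pos _).le)

/-- Weighted approximation of a continuous compactly supported function by a trigonometric
polynomial. -/
lemma trig_approx (V : ℝ → ℂ) (hV : Continuous V) (A : ℝ) (hA : ∀ u, A ≤ |u| → V u = 0)
    (θ : ℝ) (hθ : 0 < θ) :
    ∃ (s : Finset ℤ) (a : ℤ → ℂ) (τ : ℤ → ℝ), ∀ u : ℝ,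
      ‖V u - ∑ k ∈ s, a k * Complex.exp (-(τ k * Complex.I) * u)‖ * Real.exp (-u ^ 2) ≤
        θ * Real.exp (-|u|) := by
  obtain ⟨M₀, hM₀⟩ := (isCompact_Icc (a := -|A|) (b := |A|)).exists_bound_of_continuousOn
    hV.continuousOn
  set M := |M₀| + 1 with hM
  have hMpos : 0 < M := by positivity
  have hVM : ∀ u, ‖V u‖ ≤ M := fun u => by
    by_cases h : A ≤ |u|
    · rw [hA u h, norm_zero]; exact hMpos.le
    · have h' : |u| ≤ |A| := by linarith [le_abs_self A, not_le.1 h]
      linarith [hM₀ u (abs_le.1 h'), le_abs_self M₀]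
  set t := (2 * M + θ) / θ with ht
  have htpos : 0 < t := by positivity
  set B := |A| + 1 + t with hB
  have hBpos : 0 < B := by positivity
  have : Fact (0 < 2 * B) := ⟨by positivity⟩
  have hAB : A ≤ B := by linarith [le_abs_self A]
  have hcont : Continuous (AddCircle.liftIco (2 * B) (-B) V) := by
    refine AddCircle.liftIco_continuous ?_ hV.continuousOn
    rw [hA (-B) (by rw [abs_neg, abs_of_pos hBpos]; exact hAB),
      hA (-B + 2 * B) (by rw [show -B + 2 * B = B by ring, abs_of_pos hBpos]; exact hAB)]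
  set f : C(AddCircle (2 * B), ℂ) := ⟨_, hcont⟩ with hf
  have hmem : f ∈ closure (Submodule.span ℂ (Set.range (@fourier (2 * B))) :
      Set C(AddCircle (2 * B), ℂ)) := by
    rw [← Submodule.topologicalClosure_coe, span_fourier_closure_eq_top]
    trivial
  obtain ⟨g, hg, hd⟩ := Metric.mem_closure_iff.1 hmem (θ / 3) (by positivity)
  obtain ⟨c, rfl⟩ := Finsupp.mem_span_range_iff_exists_finsupp.1 hg
  refine ⟨c.support, c, fun k => -(2 * Real.pi * k / (2 * B)), fun u => ?_⟩
  have hP : (∑ k ∈ c.support, c k *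
      Complex.exp (-(((-(2 * Real.pi * k / (2 * B)) : ℝ) : ℂ) * Complex.I) * u)) =
      (c.sum fun i a => a • fourier i : C(AddCircle (2 * B), ℂ)) (u : AddCircle (2 * B)) := by
    rw [Finsupp.sum, ContinuousMap.coe_sum, Finset.sum_apply]
    refine sum_congr rfl fun k _ => ?_
    rw [ContinuousMap.smul_apply, fourier_coe_apply, smul_eq_mul]
    congr 2
    push_cast
    ring
  rw [hP]
  have hdist : ‖f (u : AddCircle (2 * B)) -
      (c.sum fun i a => a • fourier i : C(AddCircle (2 * B), ℂ)) (u : AddCircle (2 * B))‖ ≤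
      θ / 3 := by
    rw [← dist_eq_norm]
    exact (ContinuousMap.dist_apply_le_dist _).trans hd.le
  by_cases hu : |u| < B
  · have hfu : f (u : AddCircle (2 * B)) = V u :=
      AddCircle.liftIco_coe_apply ⟨(abs_lt.1 hu).1.le, by linarith [(abs_lt.1 hu).2]⟩
    rw [hfu] at hdist
    calc _ ≤ θ / 3 * (3 * Real.exp (-|u|)) :=
          mul_le_mul hdist (exp_neg_sq_le u) (Real.exp_pos _).le (by positivity)
      _ = _ := by ring
  · have hu' : B ≤ |u| := not_lt.1 hu
    have hfM : ‖f (u : AddCircle (2 * B))‖ ≤ M := hVM _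
    have h1 : ‖V u - (c.sum fun i a => a • fourier i : C(AddCircle (2 * B), ℂ))
        (u : AddCircle (2 * B))‖ ≤ 2 * M + θ := by
      have e : V u - (c.sum fun i a => a • fourier i : C(AddCircle (2 * B), ℂ))
          (u : AddCircle (2 * B)) = (V u - f (u : AddCircle (2 * B))) +
          (f (u : AddCircle (2 * B)) - (c.sum fun i a => a • fourier i : C(AddCircle (2 * B), ℂ))
          (u : AddCircle (2 * B))) := by ring
      rw [e]
      have h2 := norm_sub_le (V u) (f (u : AddCircle (2 * B)))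
      have h3 := hVM u
      refine (norm_add_le _ _).trans ?_
      linarith
    have h2 : Real.exp (-u ^ 2) ≤ Real.exp (-t) * Real.exp (-|u|) := by
      rw [← Real.exp_add]
      refine Real.exp_le_exp.2 ?_
      rw [← sq_abs u]
      have h3 : t + 1 ≤ |u| := by linarith [abs_nonneg A]
      nlinarith
    have h3 : Real.exp (-t) ≤ 1 / t := exp_neg_le_inv htpos
    calc _ ≤ (2 * M + θ) * (1 / t * Real.exp (-|u|)) :=
          mul_le_mul h1 (h2.trans (mul_le_mul_of_nonneg_right h3 (Real.exp_pos _).le))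
            (Real.exp_pos _).le (by positivity)
      _ = _ := by rw [ht]; field_simp

/-- A trapezoid. -/
noncomputable def trap (U δ u : ℝ) : ℝ := max 0 (min 1 (min (u + U + 1) (1 - u / δ)))

lemma trap_cont (U δ : ℝ) : Continuous (trap U δ) := by
  unfold trap; fun_prop

lemma trap_nonneg (U δ u : ℝ) : 0 ≤ trap U δ u := le_max_left _ _

lemma trap_le_one (U δ u : ℝ) : trap U δ u ≤ 1 := max_le zero_le_one (min_le_left _ _)

lemma trap_eq_one {U δ u : ℝ} (hδ : 0 < δ) (h1 : -U ≤ u) (h2 : u ≤ 0) : trap U δ u = 1 := by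
  have h3 : u / δ ≤ 0 := div_nonpos_of_nonpos_of_nonneg h2 hδ.le
  unfold trap
  rw [min_eq_left (le_min (by linarith) (by linarith)), max_eq_right zero_le_one]

lemma trap_eq_zero {U δ u : ℝ} (hδ : 0 < δ) (h : δ ≤ u ∨ u ≤ -U - 1) : trap U δ u = 0 := by
  unfold trap
  refine max_eq_left ((min_le_right _ _).trans ?_)
  rcases h with h | h
  · have : 1 ≤ u / δ := (one_le_div hδ).2 h
    exact (min_le_right _ _).trans (by linarith)
  · exact (min_le_left _ _).trans (by linarith)

lemma sum_card_shell (y : ℕ) (g : ℕ → ℝ) :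
    ∑ n ∈ range (y + 1), ((shell n).card : ℝ) * g n = ∑ a ∈ disc y, g (nm a) := by
  rw [sum_disc_eq]
  refine sum_congr rfl fun n _ => ?_
  rw [sum_congr rfl fun a ha => by rw [(mem_shell.1 ha).2]]
  simp

/-- Replacing the sharp cutoff by the trapezoid. -/
lemma cutoff {U δ x : ℝ} (hδ : 0 < δ) (c : ℕ → ℂ) (hc : ∀ n, ‖c n‖ ≤ (shell n).card) :
    ‖∑ n ∈ range (⌊Real.exp x⌋₊ + 1), c n -
        ∑' n : ℕ, c n * (trap U δ (Real.log n - x) : ℝ)‖ ≤
      9 * (Real.exp x * Real.exp (-U)) +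
        (((disc ⌊Real.exp x * Real.exp δ⌋₊).filter fun a => Real.exp x < nm a).card : ℝ) := by
  set y := Real.exp x with hy
  have hy0 : 0 < y := Real.exp_pos x
  set N' := ⌊y * Real.exp δ⌋₊ with hN'
  have hle : ⌊y⌋₊ ≤ N' := Nat.floor_le_floor (le_mul_of_one_le_right hy0.le (Real.one_le_exp hδ.le))
  have h1 : ∑' n : ℕ, c n * (trap U δ (Real.log n - x) : ℝ) =
      ∑ n ∈ range (N' + 1), c n * (trap U δ (Real.log n - x) : ℝ) := by
    refine tsum_eq_sum fun n hn => ?_
    have h2 : N' < n := by simpa [Nat.lt_succ_iff] using hn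
    have h3 : y * Real.exp δ < n := (Nat.floor_lt (by positivity)).1 h2
    have h4 : x + δ ≤ Real.log n := by
      rw [Real.le_log_iff_exp_le (by linarith [mul_pos hy0 (Real.exp_pos δ)]), Real.exp_add]
      exact h3.le
    rw [trap_eq_zero hδ (Or.inl (by linarith))]
    simp
  have h2 : ∑ n ∈ range (⌊y⌋₊ + 1), c n =
      ∑ n ∈ range (N' + 1), c n * ((if n ≤ ⌊y⌋₊ then 1 else 0 : ℝ) : ℂ) := by
    rw [← sum_subset (s₁ := range (⌊y⌋₊ + 1)) (s₂ := range (N' + 1))
      (range_subset_range.2 (by omega))]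
    · refine sum_congr rfl fun n hn => ?_
      rw [if_pos (Nat.lt_succ_iff.1 (mem_range.1 hn))]
      simp
    · intro n _ hn
      rw [if_neg (fun h => hn (mem_range.2 (Nat.lt_succ_iff.2 h)))]
      simp
  rw [h1, h2, ← sum_sub_distrib]
  have h3 : ∀ n ∈ range (N' + 1), ‖c n * ((if n ≤ ⌊y⌋₊ then 1 else 0 : ℝ) : ℂ) -
      c n * (trap U δ (Real.log n - x) : ℝ)‖ ≤ ((shell n).card : ℝ) *
      ((if (n : ℝ) ≤ y * Real.exp (-U) then 1 else 0) + (if y < n then 1 else 0)) := by
    intro n _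
    rw [← mul_sub, norm_mul, ← Complex.ofReal_sub, Complex.norm_real, Real.norm_eq_abs]
    refine mul_le_mul (hc n) ?_ (abs_nonneg _) (Nat.cast_nonneg _)
    have t0 := trap_nonneg U δ (Real.log n - x)
    have t1 := trap_le_one U δ (Real.log n - x)
    by_cases ha : (n : ℝ) ≤ y * Real.exp (-U)
    · rw [if_pos ha, abs_le]
      constructor <;> split_ifs <;> linarith
    · rw [if_neg ha]
      by_cases hb : y < n
      · rw [if_pos hb, abs_le]
        constructor <;> split_ifs <;> linarith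
      · rw [if_neg hb, if_pos (Nat.le_floor (not_lt.1 hb))]
        have hn0 : (0 : ℝ) < n := lt_trans (by positivity) (not_le.1 ha)
        have h5 : x + -U ≤ Real.log n := by
          rw [Real.le_log_iff_exp_le hn0, Real.exp_add]
          exact (not_le.1 ha).le
        have h6 : Real.log n ≤ x := by
          rw [Real.log_le_iff_le_exp hn0]
          exact not_lt.1 hb
        rw [trap_eq_one hδ (by linarith) (by linarith)]
        simp
  refine (norm_sum_le _ _).trans ((sum_le_sum h3).trans ?_)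
  rw [sum_card_shell N' (fun n => (if (n : ℝ) ≤ y * Real.exp (-U) then 1 else 0) +
    (if y < n then 1 else 0)), sum_add_distrib]
  refine add_le_add ?_ ?_
  · rw [← sum_filter, sum_const, nsmul_eq_mul, mul_one]
    refine le_trans ?_ (card_disc_floor_le (X := y * Real.exp (-U)) (by positivity))
    refine Nat.cast_le.2 (card_le_card fun a ha => ?_)
    obtain ⟨h4, h5⟩ := mem_filter.1 ha
    exact mem_disc.2 ⟨(mem_disc.1 h4).1, Nat.le_floor h5⟩
  · rw [← sum_filter, sum_const, nsmul_eq_mul, mul_one]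

lemma gw_eq (x : ℝ) (n : ℕ) : gw x n = Real.exp (-(Real.log n - x) ^ 2) / n := by
  unfold gw
  congr 2
  ring

end SharpAux

open SharpAux in
/-- From Gaussian weights with small twists to a sharp cutoff. -/
theorem sharp (ε : ℝ) (hε : 0 < ε) : ∃ η T x₀ : ℝ, 0 < η ∧ ∀ (c : ℕ → ℂ) (x : ℝ), x₀ ≤ x →
    (∀ n, ‖c n‖ ≤ (shell n).card) →
    (∀ τ : ℝ, |τ| ≤ T →
      ‖∑' n : ℕ, c n * (n : ℂ) ^ (-(τ * Complex.I)) * (gw x n : ℝ)‖ ≤ η) →
    ‖∑ n ∈ range (⌊Real.exp x⌋₊ + 1), c n‖ ≤ ε * Real.exp x := by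
  obtain ⟨C₀, hC₀, Hloc⟩ := local_sum_le
  obtain ⟨Ca, hCa, Hann⟩ := card_annulus
  set U : ℝ := 45 / ε with hU
  have hUpos : 0 < U := by positivity
  set δ : ℝ := Real.log (1 + ε / 20) with hδ
  have hδpos : 0 < δ := Real.log_pos (by linarith)
  have hδexp : Real.exp δ = 1 + ε / 20 := Real.exp_log (by linarith)
  set V : ℝ → ℂ := fun u => ((Real.exp (u + u ^ 2) * trap U δ u : ℝ) : ℂ) with hV
  have hVc : Continuous V := by
    have := trap_cont U δ
    exact Complex.continuous_ofReal.comp (by fun_prop)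
  have hVA : ∀ u, U + 1 + δ ≤ |u| → V u = 0 := by
    intro u hu
    have : trap U δ u = 0 := by
      refine trap_eq_zero hδpos ?_
      rcases le_abs.1 hu with h | h
      · left; linarith
      · right; linarith
    simp [hV, this]
  set θ : ℝ := ε / (5 * (C₀ * 9)) with hθ
  obtain ⟨s, a, τ, H⟩ := trig_approx V hVc _ hVA θ (by positivity)
  set Sa : ℝ := ∑ k ∈ s, ‖a k‖ with hSa
  have hSa0 : 0 ≤ Sa := sum_nonneg fun _ _ => norm_nonneg _
  -- the error term in the count of lattice points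
  have hev : ∀ᶠ y : ℝ in atTop,
      Ca * (y * (1 + ε / 20) + 1) ^ ((2 : ℝ) / 3) ≤ ε / 5 * y := by
    set K : ℝ := 2 + ε / 20 with hK
    have hK0 : 0 < K := by positivity
    have h1 : Tendsto (fun y : ℝ => y ^ (-(1 / 3 : ℝ))) atTop (𝓝 0) :=
      tendsto_rpow_neg_atTop (by norm_num)
    have h2 := h1.eventually (ge_mem_nhds
      (show (0 : ℝ) < ε / 5 / (Ca * K ^ ((2 : ℝ) / 3)) by positivity))
    filter_upwards [h2, eventually_ge_atTop 1] with y hy hy1
    have hy0 : 0 < y := by linarith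
    have h3 : (y * (1 + ε / 20) + 1) ^ ((2 : ℝ) / 3) ≤ (K * y) ^ ((2 : ℝ) / 3) :=
      Real.rpow_le_rpow (by positivity) (by rw [hK]; nlinarith) (by norm_num)
    rw [Real.mul_rpow hK0.le hy0.le] at h3
    have h4 : y ^ ((2 : ℝ) / 3) = y ^ (-(1 / 3 : ℝ)) * y := by
      rw [← Real.rpow_add_one hy0.ne']
      norm_num
    rw [h4] at h3
    rw [le_div_iff₀ (by positivity)] at hy
    calc _ ≤ Ca * (K ^ ((2 : ℝ) / 3) * (y ^ (-(1 / 3 : ℝ)) * y)) :=
          mul_le_mul_of_nonneg_left h3 hCa.le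
      _ = y ^ (-(1 / 3 : ℝ)) * (Ca * K ^ ((2 : ℝ) / 3)) * y := by ring
      _ ≤ _ := mul_le_mul_of_nonneg_right hy hy0.le
  obtain ⟨x₀, hx₀⟩ := eventually_atTop.1 (Real.tendsto_exp_atTop.eventually hev)
  refine ⟨ε / (5 * (Sa + 1)), ∑ k ∈ s, |τ k|, x₀, by positivity, fun c x hx hc hτ => ?_⟩
  set y := Real.exp x with hy
  have hy0 : 0 < y := Real.exp_pos x
  obtain ⟨hs, hb⟩ := Hloc 9 (fun n => ((shell n).card : ℝ)) (fun n => Nat.cast_nonneg _)
    (fun y => by
      have h := sum_card_shell y (fun _ => (1 : ℝ))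
      simp only [mul_one, sum_const, nsmul_eq_mul] at h
      rw [h]
      exact_mod_cast card_disc_le y) x
  set h : ℕ → ℝ := fun n => ((shell n).card : ℝ) * (Real.exp (-|x - Real.log n|) / n) with hh
  -- the twisted sums
  set Fk : ℤ → ℕ → ℂ := fun k n => c n * (n : ℂ) ^ (-(τ k * Complex.I)) * (gw x n : ℝ) with hFk
  have hpow : ∀ (k : ℤ) (n : ℕ), n ≠ 0 →
      (n : ℂ) ^ (-(τ k * Complex.I)) = Complex.exp (-(τ k * Complex.I) * (Real.log n : ℝ)) := by
    intro k n hn
    rw [Complex.cpow_def_of_ne_zero (by exact_mod_cast hn), Complex.natCast_log, mul_comm]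
  have hnorm : ∀ (t u : ℝ), ‖Complex.exp (-(t * Complex.I) * u)‖ = 1 := by
    intro t u
    rw [show -(t * Complex.I) * (u : ℂ) = ((-(t * u) : ℝ) : ℂ) * Complex.I by push_cast; ring,
      Complex.norm_exp_ofReal_mul_I]
  have hFs : ∀ k, Summable (Fk k) := by
    intro k
    refine Summable.of_norm_bounded (hs.mul_left 3) fun n => ?_
    rcases eq_or_ne n 0 with rfl | hn
    · simp [hFk, gw, hh]
    simp only [hFk, hh]
    rw [norm_mul, norm_mul, hpow k n hn, hnorm, mul_one, Complex.norm_real, gw_eq,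
      Real.norm_of_nonneg (by positivity), abs_sub_comm]
    have h1 := exp_neg_sq_le (Real.log n - x)
    calc _ ≤ ((shell n).card : ℝ) * (3 * Real.exp (-|Real.log n - x|) / n) :=
          mul_le_mul (hc n) (div_le_div_of_nonneg_right h1 (Nat.cast_nonneg _)) (by positivity)
            (Nat.cast_nonneg _)
      _ = _ := by ring
  -- the remainder
  set R : ℕ → ℂ := fun n => c n * (gw x n : ℝ) * (V (Real.log n - x) -
    ∑ k ∈ s, a k * Complex.exp (-(τ k * Complex.I) * ((Real.log n - x : ℝ) : ℂ))) with hR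
  have hRb : ∀ n, ‖R n‖ ≤ θ * h n := by
    intro n
    simp only [hR, hh]
    rw [norm_mul, norm_mul, Complex.norm_real, gw_eq, Real.norm_of_nonneg (by positivity),
      abs_sub_comm]
    have h1 := H (Real.log n - x)
    calc _ = ‖c n‖ * (‖V (Real.log n - x) - ∑ k ∈ s, a k *
            Complex.exp (-(τ k * Complex.I) * ((Real.log n - x : ℝ) : ℂ))‖ *
            Real.exp (-(Real.log n - x) ^ 2) / n) := by ring
      _ ≤ ((shell n).card : ℝ) * (θ * Real.exp (-|Real.log n - x|) / n) :=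
          mul_le_mul (hc n) (div_le_div_of_nonneg_right h1 (Nat.cast_nonneg _)) (by positivity)
            (Nat.cast_nonneg _)
      _ = _ := by ring
  have hRs : Summable R := Summable.of_norm_bounded (hs.mul_left θ) hRb
  have hRn : ‖∑' n, R n‖ ≤ ε / 5 := by
    refine (tsum_of_norm_bounded (hs.mul_left θ).hasSum hRb).trans ?_
    rw [tsum_mul_left]
    calc θ * ∑' n, h n ≤ θ * (C₀ * 9) := mul_le_mul_of_nonneg_left hb (by positivity)
      _ = ε / 5 := by rw [hθ]; field_simp
  have hdec : ∀ n : ℕ, c n * (trap U δ (Real.log n - x) : ℝ) =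
      (y : ℂ) * (R n + ∑ k ∈ s, a k * Complex.exp (τ k * Complex.I * x) * Fk k n) := by
    intro n
    rcases eq_or_ne n 0 with rfl | hn
    · have : c 0 = 0 := by simpa using hc 0
      simp [hR, hFk, this]
    have hn0 : (0 : ℝ) < n := by positivity
    have e1 : ∑ k ∈ s, a k * Complex.exp (τ k * Complex.I * x) * Fk k n =
        c n * (gw x n : ℝ) * ∑ k ∈ s, a k *
          Complex.exp (-(τ k * Complex.I) * ((Real.log n - x : ℝ) : ℂ)) := by
      rw [mul_sum]
      refine sum_congr rfl fun k _ => ?_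
      simp only [hFk]
      rw [hpow k n hn, show -(τ k * Complex.I) * ((Real.log n - x : ℝ) : ℂ) =
        τ k * Complex.I * x + -(τ k * Complex.I) * (Real.log n : ℝ) by push_cast; ring,
        Complex.exp_add]
      ring
    have e2 : y * gw x n * Real.exp ((Real.log n - x) + (Real.log n - x) ^ 2) = 1 := by
      rw [gw_eq, hy, ← mul_div_assoc, div_mul_eq_mul_div, ← Real.exp_add, ← Real.exp_add,
        div_eq_one_iff_eq hn0.ne']
      rw [show x + -(Real.log n - x) ^ 2 + (Real.log n - x + (Real.log n - x) ^ 2) =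
        Real.log n by ring, Real.exp_log hn0]
    have e3 : (y : ℂ) * (gw x n : ℝ) *
        (Real.exp ((Real.log n - x) + (Real.log n - x) ^ 2) : ℝ) = 1 := by exact_mod_cast e2
    rw [e1]
    simp only [hR, hV]
    rw [Complex.ofReal_mul]
    linear_combination (-(c n * (trap U δ (Real.log n - x) : ℝ))) * e3
  have hsum : ∑' n : ℕ, c n * (trap U δ (Real.log n - x) : ℝ) =
      (y : ℂ) * (∑' n, R n + ∑ k ∈ s, a k * Complex.exp (τ k * Complex.I * x) * ∑' n, Fk k n) := by
    rw [tsum_congr hdec]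
    exact ((hRs.hasSum.add (hasSum_sum fun k _ =>
      (hFs k).hasSum.mul_left (a k * Complex.exp (τ k * Complex.I * x)))).mul_left _).tsum_eq
  have hmain : ‖∑ k ∈ s, a k * Complex.exp (τ k * Complex.I * x) * ∑' n, Fk k n‖ ≤ ε / 5 := by
    refine (norm_sum_le _ _).trans ?_
    have h1 : ∀ k ∈ s, ‖a k * Complex.exp (τ k * Complex.I * x) * ∑' n, Fk k n‖ ≤
        ‖a k‖ * (ε / (5 * (Sa + 1))) := by
      intro k hk
      have h2 := hnorm (-τ k) x
      rw [show -(((-τ k : ℝ) : ℂ) * Complex.I) * (x : ℂ) = τ k * Complex.I * x by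
        push_cast; ring] at h2
      rw [norm_mul, norm_mul, h2, mul_one]
      exact mul_le_mul_of_nonneg_left
        (hτ (τ k) (single_le_sum (f := fun k => |τ k|) (fun _ _ => abs_nonneg _) hk))
        (norm_nonneg _)
    refine (sum_le_sum h1).trans ?_
    rw [← sum_mul, ← hSa, mul_div_assoc', div_le_div_iff₀ (by positivity) (by norm_num)]
    nlinarith
  have hT : ‖∑' n : ℕ, c n * (trap U δ (Real.log n - x) : ℝ)‖ ≤ y * (ε / 5 + ε / 5) := by
    rw [hsum, norm_mul, Complex.norm_real, Real.norm_of_nonneg hy0.le]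
    exact mul_le_mul_of_nonneg_left ((norm_add_le _ _).trans (add_le_add hRn hmain)) hy0.le
  have hcut := cutoff (U := U) (x := x) hδpos c hc
  rw [← hy, hδexp] at hcut
  have hA := Hann y (y * (1 + ε / 20)) hy0.le (by nlinarith)
  have hE := hx₀ x hx
  rw [← hy] at hE
  have hUe : Real.exp (-U) ≤ ε / 45 := by
    refine (exp_neg_le_inv hUpos).trans (le_of_eq ?_)
    rw [hU]; field_simp
  have hUe' : y * Real.exp (-U) ≤ y * (ε / 45) := mul_le_mul_of_nonneg_left hUe hy0.le
  have hfin := norm_le_norm_add_norm_sub' (∑ n ∈ range (⌊y⌋₊ + 1), c n)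
    (∑' n : ℕ, c n * (trap U δ (Real.log n - x) : ℝ))
  nlinarith

end Pool.Agent.P.MP_a1177c_nt.LC
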