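import Pool.Agent.P.MP_a1177c_nt.LC.HalTw
import Pool.Agent.P.MP_a1177c_nt.LC.Sharp

namespace Pool.Agent.P.MP_a1177c_nt.LC

open Finset Filter MR MR.StructAux
open scoped ComplexConjugate Topology

namespace HSharpAux

open scoped ArithmeticFunction.Moebius ArithmeticFunction.vonMangoldt

lemma cont_ne_zero {w : G} (hw : w ≠ 0) : cont w ≠ 0 := by
  intro h
  have := cont_dvd w
  rw [h] at this
  simp at this
  exact hw this

open Classical in
lemma ind_cont {y : ℕ} {w : G} (hw : w ∈ disc y) :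
    (if cont w = 1 then (1 : ℂ) else 0) =
      ∑ d ∈ Icc 1 y, if ((d : ℤ) : G) ∣ w then ((μ d : ℤ) : ℂ) else 0 := by
  obtain ⟨h0, hy⟩ := mem_disc.1 hw
  have h1 : (Icc 1 y).filter (fun d : ℕ => ((d : ℤ) : G) ∣ w) = (cont w).divisors := by
    ext d
    simp only [mem_filter, mem_Icc, Nat.mem_divisors]
    constructor
    · rintro ⟨-, h⟩
      exact ⟨dvd_cont h, cont_ne_zero h0⟩
    · rintro ⟨h, h'⟩
      have h2 : ((d : ℤ) : G) ∣ w :=
        (map_dvd (Int.castRingHom G) (Int.natCast_dvd_natCast.2 h)).trans (cont_dvd w)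
      have h3 := nm_le_of_dvd h0 h2
      rw [nm_intCast, Int.natAbs_natCast] at h3
      have h4 : 0 < d := Nat.pos_of_dvd_of_pos h (Nat.pos_of_ne_zero h')
      exact ⟨⟨h4, by nlinarith⟩, h2⟩
  rw [← sum_filter, h1]
  have h5 := congrArg (fun f : ArithmeticFunction ℤ => f (cont w))
    ArithmeticFunction.moebius_mul_coe_zeta
  simp only [ArithmeticFunction.coe_mul_zeta_apply, ArithmeticFunction.one_apply] at h5
  rw [← Int.cast_sum, h5]
  split_ifs <;> simp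

lemma norm_SA_le {f : G → ℂ} (hm : ∀ a b, a ≠ 0 → b ≠ 0 → f (a * b) = f a * f b)
    (h1 : ∀ a, a ≠ 0 → ‖f a‖ ≤ 1) (y : ℕ) :
    ‖∑ w ∈ An 0 y, f w‖ ≤ ∑ d ∈ Icc 1 y, ‖∑ b ∈ disc (y / d ^ 2), f b‖ := by
  classical
  have e1 : ∑ w ∈ An 0 y, f w = ∑ w ∈ disc y, (if cont w = 1 then (1 : ℂ) else 0) * f w := by
    rw [An, Nat.floor_natCast, sum_filter]
    refine sum_congr rfl fun w hw => ?_
    have : (0 : ℝ) < nm w := by exact_mod_cast nm_pos (mem_disc.1 hw).1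
    by_cases h : cont w = 1 <;> simp [h, this]
  rw [e1, sum_congr rfl fun w hw => by rw [ind_cont hw, sum_mul], sum_comm]
  refine (norm_sum_le _ _).trans (sum_le_sum fun d hd => ?_)
  have hd0 : ((d : ℤ) : G) ≠ 0 := by
    have := (mem_Icc.1 hd).1
    rw [Ne, ← nm_eq_zero, nm_intCast, Int.natAbs_natCast]
    positivity
  have e2 : ∑ w ∈ disc y, (if ((d : ℤ) : G) ∣ w then ((μ d : ℤ) : ℂ) else 0) * f w =
      (((μ d : ℤ) : ℂ) * f ((d : ℤ) : G)) * ∑ b ∈ disc (y / d ^ 2), f b := by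
    have h2 := sum_disc_dvd y hd0 f
    rw [nm_intCast, Int.natAbs_natCast] at h2
    rw [mul_assoc, mul_sum, ← sum_congr rfl fun b hb => hm _ b hd0 (mem_disc.1 hb).1, ← h2,
      sum_filter, mul_sum]
    exact sum_congr rfl fun w _ => by split_ifs <;> simp
  rw [e2, norm_mul, norm_mul]
  have h3 : ‖((μ d : ℤ) : ℂ)‖ ≤ 1 := by
    rw [Complex.norm_intCast]
    exact_mod_cast ArithmeticFunction.abs_moebius_le_one
  exact mul_le_of_le_one_left (norm_nonneg _) (mul_le_one₀ h3 (norm_nonneg _) (h1 _ hd0))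

lemma norm_disc_le {f : G → ℂ} (h1 : ∀ a, a ≠ 0 → ‖f a‖ ≤ 1) (y : ℕ) :
    ‖∑ b ∈ disc y, f b‖ ≤ 9 * y := by
  refine (norm_sum_le _ _).trans
    ((sum_le_card_nsmul _ _ 1 fun b hb => h1 b (mem_disc.1 hb).1).trans ?_)
  rw [nsmul_eq_mul, mul_one]
  exact_mod_cast card_disc_le y

lemma norm_tw_le (t : ℝ) (n : ℕ) : ‖Eul.tw t n‖ ≤ 1 := by
  rcases eq_or_ne n 0 with rfl | hn
  · rw [Eul.tw, Nat.cast_zero, Complex.cpow_def, if_pos rfl]
    split_ifs <;> simp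
  · exact (Eul.norm_tw t hn).le

lemma tw_mul (t : ℝ) (m n : ℕ) : Eul.tw t (m * n) = Eul.tw t m * Eul.tw t n := by
  simp only [Eul.tw, Nat.cast_mul, Complex.natCast_mul_natCast_cpow]

lemma LSeries_tw (c : ℕ → ℂ) (t : ℝ) (s : ℂ) :
    LSeries (fun n => c n * Eul.tw t n) s = LSeries c (s + t * Complex.I) := by
  refine tsum_congr fun n => ?_
  rcases eq_or_ne n 0 with rfl | hn
  · simp
  have hn' : (n : ℂ) ≠ 0 := by exact_mod_cast hn
  rw [LSeries.term_of_ne_zero hn, LSeries.term_of_ne_zero hn, Complex.cpow_add _ _ hn', Eul.tw,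
    Complex.cpow_neg]
  simp only [div_eq_mul_inv, mul_inv]
  ring

lemma norm_cf_le {f : G → ℂ} (h1 : ∀ a, a ≠ 0 → ‖f a‖ ≤ 1) (n : ℕ) :
    ‖cf f n‖ ≤ ((shell n).card : ℝ) := by
  refine (norm_sum_le _ _).trans
    ((sum_le_card_nsmul _ _ 1 fun b hb => h1 b (mem_shell.1 hb).1).trans ?_)
  rw [nsmul_eq_mul, mul_one]

lemma norm_lf_le {f : G → ℂ} (h1 : ∀ a, a ≠ 0 → ‖f a‖ ≤ 1) (n : ℕ) : ‖lf f n‖ ≤ 2 * Λ n := by
  refine (norm_sum_le _ _).trans (le_trans (sum_le_sum fun a ha => ?_) (sum_shell_LamK_le n))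
  rw [norm_mul, Complex.norm_real, Real.norm_eq_abs, abs_of_nonneg (LamK_nonneg a)]
  exact mul_le_of_le_one_right (LamK_nonneg a) (h1 a (mem_shell.1 ha).1)

end HSharpAux

open HSharpAux

/-- Removing the points that are not primitive. -/
theorem hs_of_disc {g : G → ℂ} (hm : ∀ a b, a ≠ 0 → b ≠ 0 → g (a * b) = g a * g b)
    (h1 : ∀ a, ‖g a‖ ≤ 1)
    (h : ∀ η : ℝ, 0 < η → ∀ᶠ y : ℕ in atTop, ∀ k : ℤ, |(k : ℝ)| ≤ (y : ℝ) ^ 4 →
      ‖∑ a ∈ disc y, g a * chi k a‖ ≤ η * y) : HS g := by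
  intro η hη
  obtain ⟨D, hD⟩ := exists_nat_gt (18 / η)
  have hD0 : (0 : ℝ) < D := lt_trans (by positivity) hD
  have hD1 : D ≠ 0 := by rintro rfl; simp at hD0
  have h2 := (h (η / (2 * D)) (by positivity))
  have h3 : ∀ᶠ y : ℕ in atTop, ∀ d ∈ Icc 1 D, 2 * d ^ 2 ≤ y / d ^ 2 ∧
      ∀ k : ℤ, |(k : ℝ)| ≤ ((y / d ^ 2 : ℕ) : ℝ) ^ 4 →
        ‖∑ a ∈ disc (y / d ^ 2), g a * chi k a‖ ≤ η / (2 * D) * ((y / d ^ 2 : ℕ) : ℝ) := by
    refine (eventually_all_finset _).2 fun d hd => ?_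
    have hd0 : d ^ 2 ≠ 0 := by have := (mem_Icc.1 hd).1; positivity
    exact (Nat.tendsto_div_const_atTop hd0).eventually ((eventually_ge_atTop _).and h2)
  filter_upwards [h3, eventually_ge_atTop D] with y hy hDy k hk
  have hf1 : ∀ a : G, a ≠ 0 → ‖g a * chi k a‖ ≤ 1 := fun a ha => by
    rw [norm_mul, norm_chi k ha, mul_one]; exact h1 a
  refine (norm_SA_le (f := fun a => g a * chi k a)
    (fun a b ha hb => by rw [hm a b ha hb, chi_mul]; ring) hf1 y).trans ?_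
  have e : Icc 1 y = Icc 1 D ∪ Ioc D y := by
    ext d; simp only [mem_Icc, mem_union, mem_Ioc]; omega
  rw [e, sum_union (disjoint_left.2 fun d h1 h2 => by
    rw [mem_Icc] at h1; rw [mem_Ioc] at h2; omega)]
  have hy0 : (0 : ℝ) ≤ y := Nat.cast_nonneg y
  have b1 : ∑ d ∈ Icc 1 D, ‖∑ a ∈ disc (y / d ^ 2), g a * chi k a‖ ≤ η / 2 * y := by
    refine (sum_le_card_nsmul _ _ (η / (2 * D) * y) fun d hd => ?_).trans (le_of_eq ?_)
    · obtain ⟨h4, h5⟩ := hy d hd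
      have hd0 : 0 < d ^ 2 := by have := (mem_Icc.1 hd).1; positivity
      have h6 : y ≤ (y / d ^ 2) ^ 2 := by
        have := Nat.lt_mul_div_succ y hd0
        nlinarith
      have h7 : (y : ℝ) ^ 2 ≤ ((y / d ^ 2 : ℕ) : ℝ) ^ 4 := by
        have : y ^ 2 ≤ (y / d ^ 2) ^ 4 := by
          rw [show 4 = 2 * 2 from rfl, pow_mul]; exact Nat.pow_le_pow_left h6 2
        exact_mod_cast this
      refine (h5 k (hk.trans h7)).trans (mul_le_mul_of_nonneg_left ?_ (by positivity))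
      exact_mod_cast Nat.div_le_self _ _
    · rw [Nat.card_Icc, nsmul_eq_mul]
      simp only [add_tsub_cancel_right]
      field_simp
  have b2 : ∑ d ∈ Ioc D y, ‖∑ a ∈ disc (y / d ^ 2), g a * chi k a‖ ≤ η / 2 * y := by
    have h4 := sum_Ioc_inv_sq_le_sub (α := ℝ) hD1 hDy
    have h5 : (D : ℝ)⁻¹ ≤ η / 18 := by
      rw [div_lt_iff₀ hη] at hD
      rw [inv_le_iff_one_le_mul₀ hD0]; linarith
    have h6 : (0 : ℝ) ≤ (y : ℝ)⁻¹ := by positivity
    calc _ ≤ ∑ d ∈ Ioc D y, 9 * y * ((d : ℝ) ^ 2)⁻¹ := sum_le_sum fun d _ => by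
          refine (norm_disc_le hf1 _).trans ?_
          have : ((y / d ^ 2 : ℕ) : ℝ) ≤ y / ((d ^ 2 : ℕ) : ℝ) := Nat.cast_div_le
          push_cast at this
          rw [mul_assoc, ← div_eq_mul_inv]; linarith
      _ = 9 * y * ∑ d ∈ Ioc D y, ((d : ℝ) ^ 2)⁻¹ := by rw [mul_sum]
      _ ≤ 9 * y * (η / 18) := mul_le_mul_of_nonneg_left (by linarith) (by positivity)
      _ = η / 2 * y := by ring
  linarith

theorem hs_twist {W : ℕ} (hW : Odd W) {ξ : G → ℂ} (h : Twist (4 * W) ξ) {r : ℕ} (hr : r < 4) :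
    HS (gtw ξ r) := by
  classical
  have hq : 0 < 4 * W := by have := hW.pos; omega
  refine hs_of_disc (fun a b ha hb => gtw_mul h r ha hb) (norm_gtw_le hq h r) fun η hη => ?_
  have hfm (k : ℤ) (a b : G) (ha : a ≠ 0) (hb : b ≠ 0) : gtw ξ r (a * b) * chi k (a * b) =
      gtw ξ r a * chi k a * (gtw ξ r b * chi k b) := by
    rw [gtw_mul h r ha hb, chi_mul]; ring
  have hf1 (k : ℤ) (a : G) (ha : a ≠ 0) : ‖gtw ξ r a * chi k a‖ ≤ 1 := by
    rw [norm_mul, norm_chi k ha, mul_one]; exact norm_gtw_le hq h r a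
  by_cases hi : gtw ξ r ⟨0, 1⟩ = 1
  swap
  · refine Eventually.of_forall fun y k _ => ?_
    have hn : nm (⟨0, 1⟩ : G) = 1 := by decide
    have hu := nm_eq_one_iff.1 hn
    have h2 := sum_disc_dvd y hu.ne_zero (fun a => gtw ξ r a * chi k a)
    rw [filter_true_of_mem fun a _ => hu.dvd, hn, Nat.div_one,
      sum_congr rfl fun b hb => hfm k _ b hu.ne_zero (mem_disc.1 hb).1, ← mul_sum,
      (Eul.good_chi k).unit _ hu, mul_one] at h2
    have h3 : ∑ a ∈ disc y, gtw ξ r a * chi k a = 0 := by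
      by_contra h4
      exact hi (mul_right_cancel₀ h4 (h2.symm.trans (one_mul _).symm))
    rw [h3, norm_zero]; positivity
  obtain ⟨η₁, T, x₀, hη₁, H1⟩ := sharp η hη
  obtain ⟨η₂, T', x₁, hη₂, H2⟩ := halasz_abstract 9 η₁ hη₁
  have hlog : Tendsto (fun y : ℕ => Real.log y) atTop atTop :=
    Real.tendsto_log_atTop.comp tendsto_natCast_atTop_atTop
  filter_upwards [hlog.eventually (small_D_tw hW h hr hi η₂ (T + T') hη₂),
    hlog.eventually (eventually_ge_atTop x₀), hlog.eventually (eventually_ge_atTop x₁),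
    eventually_gt_atTop 0] with y H3 hx₀ hx₁ hy k hk
  have hy' : (0 : ℝ) < y := by exact_mod_cast hy
  have hk' : |(k : ℝ)| ≤ Real.exp (4 * Real.log y) := by
    rw [show (4 : ℝ) = ((4 : ℕ) : ℝ) by norm_num, Real.exp_nat_mul, Real.exp_log hy']; exact hk
  have key := H1 (cf fun a => gtw ξ r a * chi k a) _ hx₀ (norm_cf_le (hf1 k)) fun τ hτ => by
    refine H2 (fun n => cf (fun a => gtw ξ r a * chi k a) n * Eul.tw τ n)
      (fun n => lf (fun a => gtw ξ r a * chi k a) n * Eul.tw τ n)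
      (fun n => ((shell n).card : ℝ)) _ hx₁ (fun n => ?_) Eul.sum_card_shell_le (fun n => ?_)
      (fun n => ?_) fun t ht => ?_
    · rw [norm_mul]
      exact (mul_le_of_le_one_right (norm_nonneg _) (norm_tw_le τ n)).trans (norm_cf_le (hf1 k) n)
    · rw [norm_mul]
      exact (mul_le_of_le_one_right (norm_nonneg _) (norm_tw_le τ n)).trans (norm_lf_le (hf1 k) n)
    · rw [← mul_assoc, lf_conv _ (hfm k), sum_mul]
      refine sum_congr rfl fun p hp => ?_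
      rw [← (Nat.mem_divisorsAntidiagonal.1 hp).1, tw_mul]
      ring
    · rw [LSeries_tw]
      have h4 := H3 k hk' (t + τ) ((abs_add_le _ _).trans (by linarith))
      convert h4 using 3
      push_cast; ring
  rw [Real.exp_log hy', Nat.floor_natCast] at key
  rw [sum_disc_eq]
  exact key

end Pool.Agent.P.MP_a1177c_nt.LC
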