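import Pool.Agent.P.MP_a1177c_nt.LC.MRMain
import Pool.Agent.P.MP_a1177c_nt.LC.HSharp

namespace Pool.Agent.P.MP_a1177c_nt.LC

open Finset Filter MR MR.StructAux
open scoped ComplexConjugate Topology

namespace ClassesAux

lemma isCoprime_of_nm {a : G} {q : ℕ} (h : (nm a).Coprime q) : IsCoprime a (q : G) := by
  have h1 : IsCoprime ((nm a : ℕ) : G) (q : G) := h.cast
  rw [← mul_star_eq] at h1
  exact h1.of_mul_left_left

lemma nm_coprime_of {a : G} {q : ℕ} (h : IsCoprime a (q : G)) : (nm a).Coprime q := by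
  have h1 : IsCoprime (star a) (q : G) := by
    have := h.map (starRingEnd G)
    simpa [starRingEnd_apply] using this
  have h2 : IsCoprime ((nm a : ℕ) : G) (q : G) := by
    rw [← mul_star_eq]
    exact h.mul_left h1
  have h3 : IsUnit (((nm a).gcd q : ℕ) : G) :=
    h2.isUnit_of_dvd' (Nat.cast_dvd_cast (Nat.gcd_dvd_left _ _))
      (Nat.cast_dvd_cast (Nat.gcd_dvd_right _ _))
  rw [← nm_eq_one_iff, nm_natCast] at h3
  exact (Nat.pow_eq_one.1 h3).resolve_right (by norm_num)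

open Classical in
/-- Normalised primitive divisors of `q ^ E`. -/
noncomputable def DD (q E : ℕ) : Finset G :=
  (disc (nm ((q : G) ^ E))).filter fun δ => δ ∣ (q : G) ^ E ∧ normalize δ = δ ∧ cont δ = 1

open Classical in
/-- Points divisible by a high power of a divisor of `q`. -/
noncomputable def Bad (q E y : ℕ) : Finset G :=
  (disc y).filter fun w => ∃ ρ ∈ disc (q ^ 2), 2 ≤ nm ρ ∧ ρ ^ E ∣ w

lemma mem_Bad {q E y : ℕ} {w : G} :
    w ∈ Bad q E y ↔ w ∈ disc y ∧ ∃ ρ ∈ disc (q ^ 2), 2 ≤ nm ρ ∧ ρ ^ E ∣ w := by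
  simp only [Bad, mem_filter]

lemma card_Bad (q E y : ℕ) : ((Bad q E y).card : ℝ) ≤ 81 * q ^ 2 * y / 2 ^ E := by
  classical
  have h1 : Bad q E y ⊆ ((disc (q ^ 2)).filter fun ρ => 2 ≤ nm ρ).biUnion
      fun ρ => (disc y).filter fun w => ρ ^ E ∣ w := by
    intro w hw
    obtain ⟨h, ρ, a, b, c⟩ := mem_Bad.1 hw
    exact mem_biUnion.2 ⟨ρ, mem_filter.2 ⟨a, b⟩, mem_filter.2 ⟨h, c⟩⟩
  have h2 : ((Bad q E y).card : ℝ) ≤ ∑ ρ ∈ (disc (q ^ 2)).filter fun ρ => 2 ≤ nm ρ,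
      (((disc y).filter fun w => ρ ^ E ∣ w).card : ℝ) := by
    exact_mod_cast (card_le_card h1).trans card_biUnion_le
  have h3 : ∀ ρ ∈ (disc (q ^ 2)).filter fun ρ => 2 ≤ nm ρ,
      (((disc y).filter fun w => ρ ^ E ∣ w).card : ℝ) ≤ 9 * y / 2 ^ E := by
    intro ρ hρ
    obtain ⟨a, b⟩ := mem_filter.1 hρ
    refine (card_disc_dvd_le y (pow_ne_zero E (mem_disc.1 a).1)).trans ?_
    rw [nm_pow]
    have : (2 : ℝ) ≤ nm ρ := by exact_mod_cast b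
    push_cast
    gcongr
  have h4 : ((((disc (q ^ 2)).filter fun ρ => 2 ≤ nm ρ).card : ℕ) : ℝ) ≤ 9 * q ^ 2 := by
    exact_mod_cast (card_filter_le _ _).trans (card_disc_le _)
  refine h2.trans ((sum_le_card_nsmul _ _ _ h3).trans ?_)
  rw [nsmul_eq_mul]
  calc _ ≤ 9 * (q : ℝ) ^ 2 * (9 * y / 2 ^ E) := by gcongr
    _ = _ := by ring

/-- A primitive point is bad or splits off its part supported on the primes of `q`. -/
lemma split_or_bad {q : ℕ} (hq : 0 < q) (E : ℕ) {y : ℕ} {w : G} (hw : w ∈ disc y)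
    (hc : cont w = 1) (hb : w ∉ Bad q E y) :
    ∃ δ ∈ DD q E, ∃ w₁, w = δ * w₁ ∧ (nm w₁).Coprime q := by
  classical
  have hq0 : (q : G) ≠ 0 := by exact_mod_cast hq.ne'
  have hqE : (q : G) ^ E ≠ 0 := pow_ne_zero _ hq0
  set δ := normalize (EuclideanDomain.gcd w ((q : G) ^ E)) with hδ
  have h1 : δ ∣ w := normalize_dvd_iff.2 (EuclideanDomain.gcd_dvd_left _ _)
  have h2 : δ ∣ (q : G) ^ E := normalize_dvd_iff.2 (EuclideanDomain.gcd_dvd_right _ _)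
  have h3 : ∀ d, d ∣ w → d ∣ (q : G) ^ E → d ∣ δ := fun d a b =>
    dvd_normalize_iff.2 (EuclideanDomain.dvd_gcd a b)
  have hδ0 : δ ≠ 0 := ne_zero_of_dvd_ne_zero hqE h2
  obtain ⟨w₁, hw₁⟩ := h1
  refine ⟨δ, mem_filter.2 ⟨mem_disc.2 ⟨hδ0, nm_le_of_dvd hqE h2⟩, h2, normalize_idem _, ?_⟩,
    w₁, hw₁, nm_coprime_of (isCoprime_of_prime_dvd (fun h => hq0 h.2) fun ρ hρ a b => ?_)⟩
  · exact cont_of_mul (a := w₁) (by rw [mul_comm, ← hw₁]; exact hc)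
  · apply hb
    obtain ⟨c, hcq⟩ := h2
    have h4 : ¬ ρ ∣ c := by
      intro h
      have h5 : δ * ρ ∣ δ * 1 := by
        rw [mul_one]
        exact h3 _ (hw₁ ▸ mul_dvd_mul_left δ a) (hcq ▸ mul_dvd_mul_left δ h)
      exact hρ.not_dvd_one ((mul_dvd_mul_iff_left hδ0).1 h5)
    have h5 : ρ ^ E ∣ δ := hρ.pow_dvd_of_dvd_mul_right E h4 (hcq ▸ pow_dvd_pow_of_dvd b E)
    refine mem_Bad.2 ⟨hw, ρ, mem_disc.2 ⟨hρ.ne_zero, ?_⟩, ?_, hw₁ ▸ h5.mul_right _⟩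
    · rw [← nm_natCast]
      exact nm_le_of_dvd hq0 b
    · have a1 := nm_pos hρ.ne_zero
      have a2 : nm ρ ≠ 1 := fun h => hρ.not_isUnit (nm_eq_one_iff.1 h)
      omega

lemma DD_unique {q E : ℕ} {δ δ' w w' : G} (h : δ ∈ DD q E) (h' : δ' ∈ DD q E)
    (hw : (nm w).Coprime q) (hw' : (nm w').Coprime q) (e : δ * w = δ' * w') : δ = δ' := by
  classical
  obtain ⟨-, a1, a2, -⟩ := mem_filter.1 h
  obtain ⟨-, b1, b2, -⟩ := mem_filter.1 h'
  have c1 : IsCoprime δ w' := ((isCoprime_of_nm hw').pow_right.of_isCoprime_of_dvd_right a1).symm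
  have c2 : IsCoprime δ' w := ((isCoprime_of_nm hw).pow_right.of_isCoprime_of_dvd_right b1).symm
  exact (associated_of_dvd_dvd (c1.dvd_of_dvd_mul_right ⟨w, e.symm⟩)
    (c2.dvd_of_dvd_mul_right ⟨w', e⟩)).eq_of_normalized a2 b2

lemma DD_ne {q E : ℕ} {δ : G} (h : δ ∈ DD q E) : δ ≠ 0 := by
  classical
  exact (mem_disc.1 (mem_filter.1 h).1).1

/-- Splitting a sum over an annulus. -/
lemma sum_split {q : ℕ} (hq : 0 < q) (E : ℕ) {N₁ N₂ : ℝ} (h0 : 0 ≤ N₁) :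
    ∃ T ⊆ An N₁ N₂, T ⊆ Bad q E ⌊N₂⌋₊ ∧ ∀ F : G → ℂ, ∑ w ∈ An N₁ N₂, F w = ∑ w ∈ T, F w +
      ∑ δ ∈ DD q E, ∑ w ∈ (An (N₁ / nm δ) (N₂ / nm δ)).filter (fun w => (nm w).Coprime q),
        F (δ * w) := by
  classical
  set S := (DD q E).sigma
    fun δ => (An (N₁ / nm δ) (N₂ / nm δ)).filter (fun w => (nm w).Coprime q) with hS
  set I := S.image fun x => x.1 * x.2 with hI
  have hpos : ∀ δ ∈ DD q E, (0 : ℝ) < nm δ := fun δ h => by exact_mod_cast nm_pos (DD_ne h)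
  have hIA : I ⊆ An N₁ N₂ := by
    intro w hw
    obtain ⟨⟨δ, w₁⟩, hx, rfl⟩ := mem_image.1 hw
    obtain ⟨a, b⟩ := mem_sigma.1 hx
    obtain ⟨b, c⟩ := mem_filter.1 b
    have hp := hpos δ a
    obtain ⟨b1, b2, b3⟩ := (mem_An (div_nonneg h0 hp.le)).1 b
    obtain ⟨-, a1, -, a3⟩ := mem_filter.1 a
    rw [div_lt_iff₀ hp] at b2
    rw [le_div_iff₀ hp] at b3
    refine (mem_An h0).2 ⟨cont_mul_of_coprime a3 b1 ?_, ?_, ?_⟩
    · have := nm_dvd a1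
      rw [nm_pow, nm_natCast, ← pow_mul] at this
      exact ((c.pow_right _).coprime_dvd_right this).symm
    · simp only [nm_mul]
      push_cast
      linarith
    · simp only [nm_mul]
      push_cast
      linarith
  refine ⟨An N₁ N₂ \ I, sdiff_subset, fun w hw => ?_, fun F => ?_⟩
  · obtain ⟨a, b⟩ := mem_sdiff.1 hw
    by_contra hb
    obtain ⟨a1, a2, a3⟩ := (mem_An h0).1 a
    obtain ⟨δ, hδ, w₁, rfl, c⟩ := split_or_bad hq E (An_subset_disc _ _ a) a1 hb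
    have hp := hpos δ hδ
    rw [nm_mul] at a2 a3
    push_cast at a2 a3
    refine b (mem_image.2 ⟨⟨δ, w₁⟩, mem_sigma.2 ⟨hδ, mem_filter.2
      ⟨(mem_An (div_nonneg h0 hp.le)).2 ⟨cont_of_mul a1, ?_, ?_⟩, c⟩⟩, rfl⟩)
    · rw [div_lt_iff₀ hp]
      linarith
    · rw [le_div_iff₀ hp]
      linarith
  · rw [← sum_sdiff hIA, hI, sum_image, hS, sum_sigma]
    rintro ⟨δ, w⟩ hx ⟨δ', w'⟩ hx' e
    obtain ⟨a, b⟩ := mem_sigma.1 (mem_coe.1 hx)
    obtain ⟨a', b'⟩ := mem_sigma.1 (mem_coe.1 hx')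
    obtain rfl : δ = δ' := DD_unique a a' (mem_filter.1 b).2 (mem_filter.1 b').2 e
    obtain rfl : w = w' := mul_left_cancel₀ (DD_ne a) e
    rfl

/-- One character, one scale. -/
lemma one_char {W : ℕ} (hW : Odd W) {ξ : G → ℂ} (h : Twist (4 * W) ξ) {d : ℝ} (hd : 1 ≤ d)
    {a ε : ℝ} (ha : 0 < a) (hε : 0 < ε) :
    ∀ᶠ N : ℝ in atTop, ∀ (N₁ N₂ : ℝ) (K : ℕ), N / 2 ≤ N₁ → N₁ ≤ N₂ → N₂ ≤ N →
      K * Real.log N ^ a ≤ N →
      ∑ k ∈ Icc (-(K : ℤ)) K, ‖∑ w ∈ An (N₁ / d) (N₂ / d), (lam w : ℂ) * ξ w * ek k w‖ ^ 2 ≤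
        ε * N ^ 2 := by
  have hq : 0 < 4 * W := by have := hW.pos; omega
  have hd0 : 0 < d := by linarith
  have h1 : ∀ᶠ N : ℝ in atTop, ∀ r ∈ range 4, ∀ (N₁ N₂ : ℝ) (K : ℕ),
      N / 2 ≤ N₁ → N₁ ≤ N₂ → N₂ ≤ N → K * Real.log N ^ (a / 2) ≤ N →
      ∑ k ∈ Icc (-(K : ℤ)) K, ‖SA (gtw ξ r) N₁ N₂ k‖ ^ 2 ≤ ε / 4 * N ^ 2 :=
    (eventually_all_finset _).2 fun r hr =>
      mr (fun a b => gtw_mul h r) (norm_gtw_le hq h r) (hs_twist hW h (mem_range.1 hr))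
        (half_pos ha) (by positivity)
  have h2 := (tendsto_id.atTop_div_const hd0).eventually h1
  have h3 : ∀ᶠ N : ℝ in atTop, d ≤ Real.log N ^ (a / 2) :=
    ((tendsto_rpow_atTop (half_pos ha)).comp Real.tendsto_log_atTop).eventually_ge_atTop d
  filter_upwards [h2, h3, eventually_ge_atTop d] with N h2 h3 h4 N₁ N₂ K a1 a2 a3 a4
  have hN1 : 1 ≤ N / d := by rwa [le_div_iff₀ hd0, one_mul]
  have hNd : N / d ≤ N := div_le_self (by linarith) hd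
  have hl : 0 ≤ Real.log (N / d) := Real.log_nonneg hN1
  have hl' : Real.log (N / d) ≤ Real.log N := Real.log_le_log (by linarith) hNd
  have h5 : K * Real.log (N / d) ^ (a / 2) ≤ N / d := by
    rw [le_div_iff₀ hd0]
    have hl2 : 0 ≤ Real.log N := hl.trans hl'
    have e : Real.log N ^ a = Real.log N ^ (a / 2) * Real.log N ^ (a / 2) := by
      rw [← Real.rpow_add' (hl.trans hl') (by linarith), add_halves]
    calc K * Real.log (N / d) ^ (a / 2) * d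
        ≤ K * Real.log N ^ (a / 2) * Real.log N ^ (a / 2) := by gcongr
      _ = K * Real.log N ^ a := by rw [e, mul_assoc]
      _ ≤ N := a4
  refine (sum_freq_le K (fun k => ‖∑ w ∈ An (N₁ / d) (N₂ / d), (lam w : ℂ) * ξ w * ek k w‖ ^ 2)
    (fun k => by positivity)).trans ?_
  have h6 : ∀ r ∈ range 4, ∑ k ∈ Icc (-(K : ℤ)) K,
      ‖∑ w ∈ An (N₁ / d) (N₂ / d), (lam w : ℂ) * ξ w * ek (4 * k + r) w‖ ^ 2 ≤ ε / 4 * N ^ 2 := by
    intro r hr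
    have h7 := h2 r hr (N₁ / d) (N₂ / d) K
      (by simp only [id]; rw [div_right_comm]; gcongr) (by gcongr) (by simp only [id]; gcongr) h5
    refine le_trans (le_of_eq (sum_congr rfl fun k _ => ?_)) (h7.trans ?_)
    · rw [SA, sum_congr rfl]
      intro w hw
      rw [ek_add _ _ (ne_of_mem_An hw), ek_four_mul, gtw]
      ring
    · simp only [id]
      gcongr
  refine (sum_le_card_nsmul _ _ _ h6).trans (le_of_eq ?_)
  rw [card_range, nsmul_eq_mul]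
  push_cast
  ring

end ClassesAux

open ClassesAux in
/-- Mean square cancellation for the Liouville function in invariant residue classes. -/
theorem mr_classes {W : ℕ} (hW : Odd W) {a ε : ℝ} (ha : 0 < a) (hε : 0 < ε) :
    ∀ᶠ N : ℝ in atTop, ∀ (N₁ N₂ : ℝ) (K : ℕ) (u : G → ℂ), N / 2 ≤ N₁ → N₁ ≤ N₂ → N₂ ≤ N →
      K * Real.log N ^ a ≤ N → (∀ w, ‖u w‖ ≤ 1) →
      (∀ w w' : G, ((4 * W : ℕ) : G) ∣ w - w' → u w = u w') →
      (∀ (t : ℤ) (w : G), t % 4 = 1 → Int.gcd t (4 * W : ℕ) = 1 → u (t * w) = u w) →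
      ∑ k ∈ Icc (-(K : ℤ)) K, ‖∑ w ∈ An N₁ N₂, (lam w : ℂ) * u w * ek k w‖ ^ 2 ≤ ε * N ^ 2 := by
  classical
  have hq : 0 < 4 * W := by have := hW.pos; omega
  set q := 4 * W with hqdef
  obtain ⟨n, Ξ, hΞ, hexp⟩ := twist_expand hq
  obtain ⟨E, hE⟩ := pow_unbounded_of_one_lt (4 * (4320 * 81 * (q : ℝ) ^ 2) / ε)
    (one_lt_two (α := ℝ))
  set A := DD q E ×ˢ (univ : Finset (Fin n)) with hA
  set ε' := ε / (4 * ((A.card : ℝ) + 1) ^ 2) with hε'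
  have h1 : ∀ᶠ N : ℝ in atTop, ∀ x ∈ A, ∀ (N₁ N₂ : ℝ) (K : ℕ), N / 2 ≤ N₁ → N₁ ≤ N₂ → N₂ ≤ N →
      K * Real.log N ^ a ≤ N → ∑ k ∈ Icc (-(K : ℤ)) K,
        ‖∑ w ∈ An (N₁ / nm x.1) (N₂ / nm x.1), (lam w : ℂ) * Ξ x.2 w * ek k w‖ ^ 2 ≤
        ε' * N ^ 2 :=
    (eventually_all_finset _).2 fun x hx => one_char hW (hΞ x.2)
      (by exact_mod_cast nm_pos (DD_ne (mem_product.1 hx).1)) ha (by positivity)
  filter_upwards [h1, Real.tendsto_log_atTop.eventually_ge_atTop 1, eventually_ge_atTop 1]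
    with N h1 hl hN N₁ N₂ K u a1 a2 a3 a4 u1 u2 u3
  have hKN : (K : ℝ) ≤ N := by
    refine le_trans ?_ a4
    exact le_mul_of_one_le_right (Nat.cast_nonneg _) (Real.one_le_rpow hl ha.le)
  have h0 : 0 ≤ N₁ := by linarith
  obtain ⟨T, T1, T2, hT⟩ := sum_split hq E (N₂ := N₂) h0
  -- the bad points
  have hbad : ∑ k ∈ Icc (-(K : ℤ)) K, ‖∑ w ∈ T, (lam w : ℂ) * u w * ek k w‖ ^ 2 ≤
      ε / 4 * N ^ 2 := by
    refine (mv_ek (X₀ := N / 2) (X := N) (by linarith) hN (fun w hw => ?_) K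
      (fun w => (lam w : ℂ) * u w)).trans ?_
    · obtain ⟨b1, b2, b3⟩ := (mem_An h0).1 (T1 hw)
      exact ⟨b1, by linarith, by linarith⟩
    have b1 : ∑ w ∈ T, ‖(lam w : ℂ) * u w‖ ^ 2 ≤ 81 * q ^ 2 * N / 2 ^ E := by
      have c1 : ∀ w ∈ T, ‖(lam w : ℂ) * u w‖ ^ 2 ≤ 1 := fun w _ => by
        rw [norm_mul, norm_lam, one_mul]
        exact pow_le_one₀ (norm_nonneg _) (u1 w)
      refine (sum_le_card_nsmul _ _ _ c1).trans ?_
      rw [nsmul_eq_mul, mul_one]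
      have c2 : (T.card : ℝ) ≤ (Bad q E ⌊N₂⌋₊).card := by exact_mod_cast card_le_card T2
      refine c2.trans ((card_Bad _ _ _).trans ?_)
      have c3 : (⌊N₂⌋₊ : ℝ) ≤ N := (Nat.floor_le (by linarith)).trans a3
      gcongr
    have b2 : √(N / (N / 2)) ≤ 2 := by
      rw [Real.sqrt_le_left (by norm_num), div_le_iff₀ (by linarith)]
      linarith
    have b3 : 4320 * 81 * (q : ℝ) ^ 2 / 2 ^ E ≤ ε / 4 := by
      rw [div_lt_iff₀ hε] at hE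
      rw [div_le_iff₀ (by positivity)]
      linarith
    calc _ ≤ 1080 * 2 * (N + N) * (81 * q ^ 2 * N / 2 ^ E) := by gcongr
      _ = 4320 * 81 * (q : ℝ) ^ 2 / 2 ^ E * N ^ 2 := by ring
      _ ≤ _ := by gcongr
  -- the expansion in characters
  have hc : ∀ δ : G, ∃ c : Fin n → ℂ, (∀ i, ‖c i‖ ≤ 1) ∧
      ∀ w : G, (nm w).Coprime q → u (δ * w) = ∑ i, c i * Ξ i w := fun δ =>
    hexp (fun w => u (δ * w)) (fun w => u1 _)
      (fun w w' h => u2 _ _ (by rw [← mul_sub]; exact h.mul_left _))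
      (fun t w h h' => by rw [mul_left_comm]; exact u3 t _ h h')
  choose c hc1 hc2 using hc
  have hk : ∀ k : ℤ, ‖∑ w ∈ An N₁ N₂, (lam w : ℂ) * u w * ek k w‖ ≤
      ‖∑ w ∈ T, (lam w : ℂ) * u w * ek k w‖ + ∑ x ∈ A,
        ‖∑ w ∈ An (N₁ / nm x.1) (N₂ / nm x.1), (lam w : ℂ) * Ξ x.2 w * ek k w‖ := by
    intro k
    rw [hT]
    refine (norm_add_le _ _).trans (add_le_add le_rfl ?_)
    rw [hA, sum_product]
    refine (norm_sum_le _ _).trans (sum_le_sum fun δ hδ => ?_)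
    have e : ∑ w ∈ (An (N₁ / nm δ) (N₂ / nm δ)).filter (fun w => (nm w).Coprime q),
        (lam (δ * w) : ℂ) * u (δ * w) * ek k (δ * w) =
        ∑ i, (lam δ : ℂ) * ek k δ * c δ i *
          ∑ w ∈ An (N₁ / nm δ) (N₂ / nm δ), (lam w : ℂ) * Ξ i w * ek k w := by
      simp only [mul_sum]
      rw [sum_comm, sum_filter]
      refine sum_congr rfl fun w hw => ?_
      split_ifs with h
      · rw [hc2 δ w h, lam_mul (DD_ne hδ) (ne_of_mem_An hw), ek_mul, mul_sum, sum_mul]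
        refine sum_congr rfl fun i _ => ?_
        push_cast
        ring
      · symm
        refine sum_eq_zero fun i _ => ?_
        rw [(hΞ i).zero w h]
        ring
    rw [e]
    refine (norm_sum_le _ _).trans (sum_le_sum fun i _ => ?_)
    rw [norm_mul, norm_mul, norm_mul, norm_lam, norm_ek k (DD_ne hδ), one_mul, one_mul]
    exact mul_le_of_le_one_left (norm_nonneg _) (hc1 δ i)
  have hk2 : ∀ k ∈ Icc (-(K : ℤ)) K, ‖∑ w ∈ An N₁ N₂, (lam w : ℂ) * u w * ek k w‖ ^ 2 ≤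
      2 * ‖∑ w ∈ T, (lam w : ℂ) * u w * ek k w‖ ^ 2 + 2 * (A.card * ∑ x ∈ A,
        ‖∑ w ∈ An (N₁ / nm x.1) (N₂ / nm x.1), (lam w : ℂ) * Ξ x.2 w * ek k w‖ ^ 2) := by
    intro k _
    have b1 := pow_le_pow_left₀ (norm_nonneg _) (hk k) 2
    have b2 := sq_sum_le_card_mul_sum_sq (s := A) (f := fun x =>
      ‖∑ w ∈ An (N₁ / nm x.1) (N₂ / nm x.1), (lam w : ℂ) * Ξ x.2 w * ek k w‖)
    refine b1.trans (add_sq_le.trans ?_)
    linarith
  refine (sum_le_sum hk2).trans ?_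
  rw [sum_add_distrib, ← mul_sum, ← mul_sum, ← mul_sum, sum_comm]
  have b1 := sum_le_card_nsmul _ _ _ fun x hx => h1 x hx N₁ N₂ K a1 a2 a3 a4
  rw [nsmul_eq_mul] at b1
  have b2 : (A.card : ℝ) * (A.card * (ε' * N ^ 2)) ≤ ε / 4 * N ^ 2 := by
    have c1 : (A.card : ℝ) * (A.card * ε') ≤ ε / 4 := by
      rw [hε', ← mul_assoc, ← mul_div_assoc, div_le_div_iff₀ (by positivity) (by norm_num)]
      have : (0 : ℝ) ≤ A.card := Nat.cast_nonneg _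
      nlinarith [mul_nonneg this hε.le]
    calc _ = (A.card : ℝ) * (A.card * ε') * N ^ 2 := by ring
      _ ≤ _ := by gcongr
  have b3 := mul_le_mul_of_nonneg_left b1 (Nat.cast_nonneg (α := ℝ) A.card)
  linarith

end Pool.Agent.P.MP_a1177c_nt.LC
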