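import Pool.Agent.P.MP_a1177c_nt.LC.Defs
import Pool.Agent.P.MP_a1177c_nt.MR.LamK

namespace Pool.Agent.P.MP_a1177c_nt.LC

open Finset Filter MR MR.StructAux
open scoped ComplexConjugate Topology

namespace DivAux

open UniqueFactorizationMonoid

theorem iic_add (s t : Multiset G) : (Iic (s + t)).card ≤ (Iic s).card * (Iic t).card := by
  refine le_trans (card_le_card (t := image₂ (· + ·) (Iic s) (Iic t)) fun u hu => ?_)
    (card_image₂_le _ _ _)
  refine mem_image₂.2 ⟨u ∩ s, mem_Iic.2 Multiset.inter_le_right, u - s,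
    mem_Iic.2 (Multiset.sub_le_iff_le_add'.2 (mem_Iic.1 hu)), ?_⟩
  rw [add_comm]; exact Multiset.sub_add_inter u s

theorem iic_nsmul (j : ℕ) (s : Multiset G) : (Iic (j • s)).card ≤ (j + 1) ^ s.card := by
  induction s using Multiset.induction_on with
  | empty => simp [Multiset.card_Iic]
  | cons a s ih =>
    rw [← Multiset.singleton_add, nsmul_add, Multiset.nsmul_singleton, Multiset.card_add,
      Multiset.card_singleton, pow_add, pow_one]
    refine (iic_add _ _).trans (Nat.mul_le_mul ?_ ih)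
    refine le_trans (card_le_card (t := (range (j + 1)).image (Multiset.replicate · a))
      fun u hu => ?_) (card_image_le.trans (card_range _).le)
    obtain ⟨k, hk, rfl⟩ := Multiset.le_replicate_iff.1 (mem_Iic.1 hu)
    exact mem_image.2 ⟨k, mem_range.2 (by omega), rfl⟩

theorem Om_prime {p : ℕ} (hp : p.Prime) : (normalizedFactors (p : G)).card ≤ 2 := by
  have h0 : (p : G) ≠ 0 := by exact_mod_cast hp.ne_zero
  have h1 : p ^ (normalizedFactors (p : G)).card ≤ p ^ 2 := by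
    rw [← nm_natCast, LamKAux.nm_eq_prod h0, ← Multiset.card_map nm]
    refine Multiset.pow_card_le_prod fun x hx => ?_
    obtain ⟨π, hπ, rfl⟩ := Multiset.mem_map.1 hx
    have h2 := nm_dvd (dvd_of_mem_normalizedFactors hπ)
    rw [nm_natCast, Nat.dvd_prime_pow hp] at h2
    obtain ⟨k, -, hk⟩ := h2
    have h3 := LamKAux.two_le_nm (LamKAux.isP_of_mem hπ).1
    rw [hk] at h3 ⊢
    refine Nat.le_self_pow (fun e => ?_) _
    rw [e, pow_zero] at h3; omega
  exact (Nat.pow_le_pow_iff_right hp.one_lt).1 h1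

theorem iic_nat (m : ℕ) (hm : m ≠ 0) :
    (Iic (normalizedFactors (m : G))).card ≤ m.divisors.card ^ 2 := by
  induction m using Nat.recOnPrimeCoprime with
  | zero => exact absurd rfl hm
  | prime_pow p n hp =>
    rw [Nat.cast_pow, normalizedFactors_pow, Nat.divisors_prime_pow hp, card_map, card_range]
    exact (iic_nsmul _ _).trans (Nat.pow_le_pow_right (by omega) (Om_prime hp))
  | coprime a b ha hb hab iha ihb =>
    rw [Nat.cast_mul, normalizedFactors_mul (by exact_mod_cast (by omega : a ≠ 0))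
      (by exact_mod_cast (by omega : b ≠ 0)), hab.card_divisors_mul, mul_pow]
    exact (iic_add _ _).trans (Nat.mul_le_mul (iha (by omega)) (ihb (by omega)))

theorem tau_mul (a b : ℕ) : (a * b).divisors.card ≤ a.divisors.card * b.divisors.card := by
  rw [Nat.divisors_mul]; exact card_mul_le

theorem tau_pos {m : ℕ} (hm : m ≠ 0) : 0 < m.divisors.card :=
  card_pos.2 ⟨1, Nat.one_mem_divisors.2 hm⟩

theorem landreau_aux {z : ℕ} (hz : 1 ≤ z) (k : ℕ) : ∀ n : ℕ, 0 < n → n < (z + 1) ^ k →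
    ∃ d, d ∣ n ∧ d ≤ z ∧ n.divisors.card ≤ (2 * d.divisors.card) ^ k := by
  induction k with
  | zero => intro n h0 h1; rw [pow_zero] at h1; omega
  | succ k ih =>
    intro n h0 h1
    obtain ⟨d, hd, hmax⟩ := exists_max_image (n.divisors.filter (· ≤ z)) id
      ⟨1, mem_filter.2 ⟨Nat.one_mem_divisors.2 h0.ne', hz⟩⟩
    obtain ⟨hd1, hd2⟩ := mem_filter.1 hd
    obtain ⟨e, rfl⟩ := Nat.dvd_of_mem_divisors hd1
    have hd0 : d ≠ 0 := left_ne_zero_of_mul h0.ne'
    have ht := tau_pos hd0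
    by_cases he : e = 1
    · subst he
      refine ⟨d, dvd_mul_right _ _, hd2, ?_⟩
      rw [mul_one]
      exact le_trans (by omega) (Nat.le_self_pow (by omega) _)
    obtain ⟨p, hp, f, rfl⟩ := Nat.exists_prime_and_dvd he
    have hf : 0 < f := Nat.pos_of_ne_zero fun e => by simp [e] at h0
    have h2 : z + 1 ≤ d * p := by
      by_contra h
      have h3 := hmax (d * p) (mem_filter.2 ⟨Nat.mem_divisors.2
        ⟨⟨f, by ring⟩, h0.ne'⟩, by omega⟩)
      have h4 := Nat.mul_le_mul_left d hp.two_le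
      simp only [id] at h3
      omega
    obtain ⟨d', h3, h4, h5⟩ := ih f hf (by
      refine lt_of_mul_lt_mul_left (a := z + 1) ?_ (Nat.zero_le _)
      calc (z + 1) * f ≤ d * p * f := Nat.mul_le_mul_right _ h2
        _ = d * (p * f) := by ring
        _ < _ := by rw [← pow_succ']; exact h1)
    have h6 : (d * (p * f)).divisors.card ≤
        (2 * d'.divisors.card) ^ k * (2 * d.divisors.card) := by
      have h7 : p.divisors.card = 2 := by rw [hp.divisors, card_pair hp.one_lt.ne]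
      refine (tau_mul _ _).trans ((Nat.mul_le_mul_left _ ((tau_mul _ _).trans
        (Nat.mul_le_mul_left _ h5))).trans (le_of_eq ?_))
      rw [h7]; ring
    rcases le_total d.divisors.card d'.divisors.card with h | h
    · exact ⟨d', (h3.mul_left _).mul_left _, h4, h6.trans (by rw [pow_succ]; gcongr)⟩
    · exact ⟨d, dvd_mul_right _ _, hd2, h6.trans (by rw [pow_succ]; gcongr)⟩

theorem sum_sqrt {d : ℕ} (hd : 0 < d) (J : ℕ) :
    ∑ j ∈ range (J + 1), 1 / √((d : ℝ) * j + 1) ≤ 1 + 2 * √((d : ℝ) * J) / d := by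
  have hd' : (0 : ℝ) < d := by exact_mod_cast hd
  induction J with
  | zero => simp
  | succ J ih =>
    rw [sum_range_succ]
    push_cast
    have ha := Real.sq_sqrt (show (0 : ℝ) ≤ d * (J + 1) by positivity)
    have hb := Real.sq_sqrt (show (0 : ℝ) ≤ d * J by positivity)
    have hab : √((d : ℝ) * J) ≤ √((d : ℝ) * (J + 1)) := Real.sqrt_le_sqrt (by linarith)
    have hac : √((d : ℝ) * (J + 1)) ≤ √((d : ℝ) * (J + 1) + 1) := Real.sqrt_le_sqrt (by linarith)
    have hc : 0 < √((d : ℝ) * (J + 1) + 1) := by positivity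
    have : 1 / √((d : ℝ) * (J + 1) + 1) ≤
        2 * (√((d : ℝ) * (J + 1)) - √((d : ℝ) * J)) / d := by
      rw [div_le_div_iff₀ hc hd']
      nlinarith [mul_nonneg (sub_nonneg.2 hab) (sub_nonneg.2 hab),
        mul_nonneg (sub_nonneg.2 hab) (sub_nonneg.2 hac)]
    rw [mul_sub, sub_div] at this
    linarith

theorem sum_class {Δ Y d : ℕ} (hΔ : Odd Δ) (hd : 0 < d) (hY : d ^ 2 ≤ Y) :
    ∑ n ∈ (Icc 1 Y).filter (fun n => d ∣ Δ * n + 4), 1 / √(n : ℝ) ≤ 3 * √Y / d := by
  have hd' : (0 : ℝ) < d := by exact_mod_cast hd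
  set S := (Icc 1 Y).filter (fun n => d ∣ Δ * n + 4) with hS
  have hinj : Set.InjOn (fun n => (n - 1) / d) S := by
    intro n hn n' hn' e
    obtain ⟨h1, h2⟩ := mem_filter.1 (mem_coe.1 hn)
    obtain ⟨h3, h4⟩ := mem_filter.1 (mem_coe.1 hn')
    have hcop : Nat.Coprime d Δ := by
      have h5 : Nat.gcd d Δ ∣ 2 ^ 2 :=
        (Nat.dvd_add_right ((Nat.gcd_dvd_right d Δ).mul_right n)).1
          ((Nat.gcd_dvd_left d Δ).trans h2)
      have h6 : Nat.Coprime (Nat.gcd d Δ) (2 ^ 2) :=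
        ((Nat.coprime_two_right.2 hΔ).coprime_dvd_left (Nat.gcd_dvd_right d Δ)).pow_right 2
      exact Nat.Coprime.eq_one_of_dvd h6 h5
    have h7 : Δ * n + 4 ≡ Δ * n' + 4 [MOD d] :=
      (Nat.modEq_zero_iff_dvd.2 h2).trans (Nat.modEq_zero_iff_dvd.2 h4).symm
    have h8 : n ≡ n' [MOD d] :=
      Nat.ModEq.cancel_left_of_coprime hcop (Nat.ModEq.add_right_cancel' 4 h7)
    have h9 := (mem_Icc.1 h1).1
    have h10 := (mem_Icc.1 h3).1
    have h11 : n - 1 ≡ n' - 1 [MOD d] := Nat.ModEq.add_right_cancel' 1 (by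
      rwa [Nat.sub_add_cancel h9, Nat.sub_add_cancel h10])
    have h12 := Nat.div_add_mod (n - 1) d
    have h13 := Nat.div_add_mod (n' - 1) d
    simp only at e
    rw [e, h11] at h12
    omega
  have h1 : ∑ n ∈ S, 1 / √(n : ℝ) ≤ ∑ j ∈ range (Y / d + 1), 1 / √((d : ℝ) * j + 1) := by
    calc _ ≤ ∑ n ∈ S, 1 / √((d : ℝ) * ((n - 1) / d : ℕ) + 1) := by
          refine sum_le_sum fun n hn => ?_
          have h2 := (mem_Icc.1 (mem_filter.1 hn).1).1
          have h3 : d * ((n - 1) / d) + 1 ≤ n := by have := Nat.mul_div_le (n - 1) d; omega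
          have h4 : (d : ℝ) * ((n - 1) / d : ℕ) + 1 ≤ n := by exact_mod_cast h3
          gcongr
      _ = ∑ j ∈ S.image (fun n => (n - 1) / d), 1 / √((d : ℝ) * j + 1) :=
          (sum_image (f := fun j : ℕ => 1 / √((d : ℝ) * j + 1)) hinj).symm
      _ ≤ _ := by
          refine sum_le_sum_of_subset_of_nonneg (fun j hj => ?_) fun _ _ _ => by positivity
          obtain ⟨n, hn, rfl⟩ := mem_image.1 hj
          have h2 := (mem_Icc.1 (mem_filter.1 hn).1).2
          exact mem_range.2 (Nat.lt_succ_of_le (Nat.div_le_div_right (by omega)))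
  have h2 : √((d : ℝ) * (Y / d : ℕ)) ≤ √Y :=
    Real.sqrt_le_sqrt (by exact_mod_cast Nat.mul_div_le Y d)
  have h3 : (d : ℝ) ≤ √Y := Real.le_sqrt_of_sq_le (by exact_mod_cast hY)
  refine (h1.trans (sum_sqrt hd _)).trans ?_
  rw [le_div_iff₀ hd', add_mul, div_mul_cancel₀ _ hd'.ne']
  linarith

end DivAux

open DivAux

theorem card_shell_le (m : ℕ) : (shell m).card ≤ 4 * m.divisors.card ^ 6 := by
  rcases eq_or_ne m 0 with rfl | hm
  · simp
  have h0 : (m : G) ≠ 0 := by exact_mod_cast hm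
  refine le_trans (card_le_mul_card_image_of_maps_to
    (f := UniqueFactorizationMonoid.normalizedFactors)
    (t := Iic (UniqueFactorizationMonoid.normalizedFactors (m : G))) (fun d hd => ?_) 4
    (fun s _ => ?_)) ?_
  · obtain ⟨h1, h2⟩ := mem_shell.1 hd
    exact mem_Iic.2 ((UniqueFactorizationMonoid.dvd_iff_normalizedFactors_le_normalizedFactors
      h1 h0).1 ⟨star d, by rw [mul_star_eq, h2]⟩)
  · rw [← card_shell_one]
    refine le_trans (card_le_card (t := (shell 1).image (s.prod * ·)) fun d hd => ?_) card_image_le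
    obtain ⟨h1, rfl⟩ := mem_filter.1 hd
    obtain ⟨u, hu⟩ := UniqueFactorizationMonoid.prod_normalizedFactors (mem_shell.1 h1).1
    exact mem_image.2 ⟨u, mem_shell.2 ⟨u.ne_zero, nm_eq_one_iff.2 u.isUnit⟩, hu⟩
  · exact Nat.mul_le_mul_left _ ((iic_nat m hm).trans
      (Nat.pow_le_pow_right (tau_pos hm) (by norm_num)))

theorem sum_tau_pow (c Y : ℕ) :
    ∑ n ∈ Icc 1 Y, (n.divisors.card : ℝ) ^ c / n ≤ (1 + Real.log Y) ^ (2 ^ c) := by
  induction c with
  | zero => simpa [harmonic_eq_sum_Icc] using harmonic_le_one_add_log Y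
  | succ c ih =>
    rw [pow_succ 2 c, pow_mul]
    refine le_trans ?_ (pow_le_pow_left₀ (sum_nonneg fun _ _ => by positivity) ih 2)
    rw [sq, sum_mul_sum, ← sum_product']
    refine le_trans (sum_le_sum fun n hn => ?_)
      (sum_fiberwise_le_sum_of_sum_fiber_nonneg (t := Icc 1 Y) (g := fun p : ℕ × ℕ => p.1 * p.2)
        fun _ _ => sum_nonneg fun _ _ => by positivity)
    obtain ⟨h1, h2⟩ := mem_Icc.1 hn
    have e : (Icc 1 Y ×ˢ Icc 1 Y).filter (fun p : ℕ × ℕ => p.1 * p.2 = n) =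
        n.divisorsAntidiagonal := by
      ext ⟨a, b⟩
      simp only [mem_filter, mem_product, mem_Icc, Nat.mem_divisorsAntidiagonal]
      refine ⟨fun h => ⟨h.2, by omega⟩, ?_⟩
      rintro ⟨rfl, h⟩
      have ha := Nat.pos_of_ne_zero (left_ne_zero_of_mul h)
      have hb := Nat.pos_of_ne_zero (right_ne_zero_of_mul h)
      exact ⟨⟨⟨ha, (Nat.le_mul_of_pos_right _ hb).trans h2⟩, hb,
        (Nat.le_mul_of_pos_left _ ha).trans h2⟩, rfl⟩
    have e2 : n.divisorsAntidiagonal.card = n.divisors.card := by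
      rw [← Nat.map_div_right_divisors, card_map]
    rw [e, pow_succ', mul_div_assoc, ← e2, ← nsmul_eq_mul, e2, ← e2]
    nth_rewrite 2 [e2]
    refine card_nsmul_le_sum _ _ _ fun p hp => ?_
    obtain ⟨rfl, -⟩ := Nat.mem_divisorsAntidiagonal.1 hp
    have h3 : ((p.1 * p.2).divisors.card : ℝ) ≤ p.1.divisors.card * p.2.divisors.card := by
      exact_mod_cast tau_mul _ _
    rw [div_mul_div_comm, ← mul_pow, Nat.cast_mul]
    gcongr

theorem landreau {m : ℕ} (hm : 0 < m) :
    ∃ d, d ∣ m ∧ d ^ 8 ≤ m ∧ m.divisors.card ≤ 256 * d.divisors.card ^ 8 := by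
  obtain ⟨d, h1, h2, h3⟩ := landreau_aux (z := Nat.nthRoot 8 m)
    ((Nat.le_nthRoot_iff (by norm_num)).2 (by omega)) 8 m hm
    (Nat.lt_pow_nthRoot_add_one (by norm_num) m)
  exact ⟨d, h1, (Nat.le_nthRoot_iff (by norm_num)).1 h2, by rwa [mul_pow] at h3⟩

theorem sum_tau_lin : ∃ (C : ℝ) (E : ℕ), 0 < C ∧ ∀ Δ Y : ℕ, Odd Δ → Δ + 4 ≤ Y →
    ∑ n ∈ Icc 1 Y, ((Δ * n + 4).divisors.card : ℝ) ^ 12 / √n ≤
      C * √Y * (1 + Real.log Y) ^ E := by
  obtain ⟨E, hE⟩ : ∃ E : ℕ, ∀ Y : ℕ,
      ∑ n ∈ Icc 1 Y, (n.divisors.card : ℝ) ^ 96 / n ≤ (1 + Real.log Y) ^ E :=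
    ⟨_, sum_tau_pow 96⟩
  refine ⟨256 ^ 12 * 3, E, by positivity, fun Δ Y hΔ hY => ?_⟩
  set D := (Icc 1 Y).filter fun d => d ^ 2 ≤ Y with hD
  calc _ ≤ ∑ n ∈ Icc 1 Y, ∑ d ∈ D,
        if d ∣ Δ * n + 4 then 256 ^ 12 * (d.divisors.card : ℝ) ^ 96 * (1 / √n) else 0 := by
        refine sum_le_sum fun n hn => ?_
        obtain ⟨h1, h2⟩ := mem_Icc.1 hn
        obtain ⟨d, h3, h4, h5⟩ := landreau (show 0 < Δ * n + 4 by omega)
        have h6 : 0 < d := Nat.pos_of_dvd_of_pos h3 (by omega)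
        have h7 : d ^ 2 ≤ Y := by
          have h8 : (d ^ 4) ^ 2 ≤ Y ^ 2 := by
            have := Nat.mul_le_mul_left Δ h2
            have h8 := Nat.mul_le_mul_right Y hY
            rw [← pow_mul]
            refine h4.trans ?_
            nlinarith
          exact (Nat.pow_le_pow_right h6 (by norm_num)).trans
            ((Nat.pow_le_pow_iff_left (by norm_num)).1 h8)
        have h9 : d ∈ D := mem_filter.2 ⟨mem_Icc.2 ⟨h6,
          (Nat.le_self_pow (by norm_num) d).trans h7⟩, h7⟩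
        refine le_trans ?_ (single_le_sum (fun _ _ => by positivity) h9)
        rw [if_pos h3, mul_one_div]
        have h10 : ((Δ * n + 4).divisors.card : ℝ) ≤ 256 * d.divisors.card ^ 8 := by
          exact_mod_cast h5
        refine div_le_div_of_nonneg_right ?_ (Real.sqrt_nonneg _)
        refine (pow_le_pow_left₀ (by positivity) h10 12).trans (le_of_eq ?_)
        rw [mul_pow, ← pow_mul]
    _ ≤ ∑ d ∈ D, 256 ^ 12 * 3 * √Y * ((d.divisors.card : ℝ) ^ 96 / d) := by
        rw [sum_comm]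
        refine sum_le_sum fun d hd => ?_
        obtain ⟨h1, h2⟩ := mem_filter.1 hd
        rw [← sum_filter, ← mul_sum]
        refine (mul_le_mul_of_nonneg_left (sum_class hΔ (mem_Icc.1 h1).1 h2)
          (by positivity)).trans (le_of_eq ?_)
        generalize (d.divisors.card : ℝ) ^ 96 = t
        ring
    _ ≤ _ := by
        rw [← mul_sum]
        exact mul_le_mul_of_nonneg_left ((sum_le_sum_of_subset_of_nonneg (filter_subset _ _)
          fun _ _ _ => by positivity).trans (hE Y)) (by positivity)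

theorem sum_shell_shift : ∃ (C : ℝ) (E : ℕ), 0 < C ∧ ∀ Δ Y : ℕ, Odd Δ → Δ + 4 ≤ Y →
    ∑ n ∈ Icc 1 Y, ((shell n).card : ℝ) * (shell (Δ * n + 4)).card / √n ≤
      C * √Y * (1 + Real.log Y) ^ E := by
  obtain ⟨C, E, hC, h⟩ := sum_tau_lin
  obtain ⟨E', hE⟩ : ∃ E : ℕ, ∀ Y : ℕ,
      ∑ n ∈ Icc 1 Y, (n.divisors.card : ℝ) ^ 12 / n ≤ (1 + Real.log Y) ^ E :=
    ⟨_, sum_tau_pow 12⟩
  refine ⟨8 * (1 + C), E + E', by positivity, fun Δ Y hΔ hY => ?_⟩
  have hL : 1 ≤ 1 + Real.log Y := by linarith [Real.log_natCast_nonneg Y]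
  have h1 := (h Δ Y hΔ hY).trans (mul_le_mul_of_nonneg_left
    (pow_le_pow_right₀ hL (Nat.le_add_right E E')) (by positivity))
  have h2 := mul_le_mul_of_nonneg_left ((hE Y).trans (pow_le_pow_right₀ hL (Nat.le_add_left E' E)))
    (Real.sqrt_nonneg Y)
  calc _ ≤ ∑ n ∈ Icc 1 Y, 8 * (√Y * ((n.divisors.card : ℝ) ^ 12 / n) +
        ((Δ * n + 4).divisors.card : ℝ) ^ 12 / √n) := by
        refine sum_le_sum fun n hn => ?_
        obtain ⟨h3, h4⟩ := mem_Icc.1 hn
        have h5 : ((shell n).card : ℝ) ≤ 4 * n.divisors.card ^ 6 := by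
          exact_mod_cast card_shell_le n
        have h6 : ((shell (Δ * n + 4)).card : ℝ) ≤ 4 * (Δ * n + 4).divisors.card ^ 6 := by
          exact_mod_cast card_shell_le _
        have h7 : (0 : ℝ) < n := by exact_mod_cast h3
        have h8 : (n.divisors.card : ℝ) ^ 12 / √n ≤ √Y * ((n.divisors.card : ℝ) ^ 12 / n) := by
          have h9 : √(n : ℝ) ≤ √Y := Real.sqrt_le_sqrt (by exact_mod_cast h4)
          calc _ = √n * ((n.divisors.card : ℝ) ^ 12 / n) := by
                have := Real.mul_self_sqrt h7.le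
                have h10 : 0 < √(n : ℝ) := by positivity
                generalize √(n : ℝ) = s at *
                rw [← this]; field_simp
            _ ≤ _ := by gcongr
        refine le_trans ?_ (mul_le_mul_of_nonneg_left (add_le_add_left h8 _) (by norm_num))
        rw [← add_div, ← mul_div_assoc]
        refine div_le_div_of_nonneg_right ?_ (Real.sqrt_nonneg _)
        refine (mul_le_mul h5 h6 (by positivity) (by positivity)).trans ?_
        nlinarith [sq_nonneg ((n.divisors.card : ℝ) ^ 6 - ((Δ * n + 4).divisors.card : ℝ) ^ 6)]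
    _ ≤ _ := by
        rw [← mul_sum, sum_add_distrib, ← mul_sum]
        linarith

end Pool.Agent.P.MP_a1177c_nt.LC
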