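import Pool.Agent.P.MP_a1177c_nt.LC.Cone
import Pool.Agent.P.MP_a1177c_nt.LC.Div

namespace Pool.Agent.P.MP_a1177c_nt.LC

open Finset Filter MR MR.StructAux
open scoped ComplexConjugate Topology

namespace CollAux

/-- The first invariant of a pair of bases. -/
def eta (z : (G × G) × (G × G)) : G := z.1.2 * z.2.1 - z.1.1 * z.2.2

/-- The second invariant of a pair of bases. -/
def zeta (z : (G × G) × (G × G)) : G := star z.1.2 * z.2.1 - star z.1.1 * z.2.2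

lemma nm_zeta {z : (G × G) × (G × G)} (h1 : det z.1.1 z.1.2 = 1) (h2 : det z.2.1 z.2.2 = 1) :
    nm (zeta z) = nm (eta z) + 4 := by
  have : (nm (zeta z) : ℤ) = nm (eta z) + 4 * (det z.1.1 z.1.2 * det z.2.1 z.2.2) := by
    simp [nm_int, zeta, eta, det, Zsqrtd.re_mul, Zsqrtd.im_mul]; ring
  rw [h1, h2] at this
  exact_mod_cast this

lemma recover {z : (G × G) × (G × G)} (h1 : det z.1.1 z.1.2 = 1) :
    (⟨0, 2⟩ : G) * z.2.1 = eta z * star z.1.1 - zeta z * z.1.1 := by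
  simp only [det] at h1
  ext
  · simp [zeta, eta, Zsqrtd.re_mul, Zsqrtd.im_mul]
    linear_combination (2 * z.2.1.im) * h1
  · simp [zeta, eta, Zsqrtd.re_mul, Zsqrtd.im_mul]
    linear_combination (-2 * z.2.1.re) * h1

lemma two_I_ne : (⟨0, 2⟩ : G) ≠ 0 := by
  intro h
  have := congrArg Zsqrtd.im h
  simp at this

lemma star_sub_star (a b : G) : star a * b - star b * a = (⟨0, 2⟩ : G) * (det a b : G) := by
  ext
  · simp [det, Zsqrtd.re_mul, Zsqrtd.im_mul]; ring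
  · simp [det, Zsqrtd.re_mul, Zsqrtd.im_mul]; ring

lemma eta_det {z z' : (G × G) × (G × G)} (h : det z.1.1 z.1.2 = 1) (h' : det z'.1.1 z'.1.2 = 1)
    (e1 : eta z' = eta z) (e2 : zeta z' = zeta z) :
    eta z * (det z.1.1 z'.1.1 : G) = z.2.1 * z'.1.1 - z'.2.1 * z.1.1 := by
  have a := recover h
  have b := recover h'
  rw [e1, e2] at b
  have c := star_sub_star z.1.1 z'.1.1
  apply mul_left_cancel₀ two_I_ne
  linear_combination (-z'.1.1) * a + z.1.1 * b - eta z * c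

lemma nm_sub_le (a b : G) : (nm (a - b) : ℝ) ≤ 2 * nm a + 2 * nm b := by
  simp only [nm_real, Zsqrtd.re_sub, Zsqrtd.im_sub]
  push_cast
  nlinarith [sq_nonneg ((a.re : ℝ) + b.re), sq_nonneg ((a.im : ℝ) + b.im)]

lemma nm_cross_le {Q : ℝ} {a b c d : G} (ha : (nm a : ℝ) ≤ Q) (hb : (nm b : ℝ) ≤ Q)
    (hc : (nm c : ℝ) ≤ Q) (hd : (nm d : ℝ) ≤ Q) : (nm (a * b - c * d) : ℝ) ≤ 4 * Q ^ 2 := by
  have hQ : 0 ≤ Q := le_trans (Nat.cast_nonneg _) ha
  have h := nm_sub_le (a * b) (c * d)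
  rw [nm_mul, nm_mul] at h
  push_cast at h
  have h1 := mul_le_mul ha hb (Nat.cast_nonneg _) hQ
  have h2 := mul_le_mul hc hd (Nat.cast_nonneg _) hQ
  nlinarith

lemma fibre_inj {Q : ℝ} (hQ : 0 ≤ Q) {z z' : (G × G) × (G × G)} (h1 : z.1 ∈ Far Q)
    (h2 : z.2 ∈ Far Q) (h1' : z'.1 ∈ Far Q) (h2' : z'.2 ∈ Far Q) (e1 : eta z' = eta z)
    (e2 : zeta z' = zeta z) (e3 : z.1.1 = z'.1.1) : z = z' := by
  have a := recover ((mem_Far hQ).1 h1).1
  have b := recover ((mem_Far hQ).1 h1').1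
  rw [e1, e2, ← e3, ← a] at b
  exact Prod.ext (far_fst_inj h1 h1' e3) (far_fst_inj h2 h2' (mul_left_cancel₀ two_I_ne b).symm)

lemma fibre_card {Q K : ℝ} (hQ : 0 < Q) (hK : 1 ≤ K) {η : G} (hη : η ≠ 0)
    (hη2 : (nm η : ℝ) ≤ 4 * Q ^ 2) (ζ : G) :
    (((FarG Q K ×ˢ FarG Q K).filter fun z => eta z = η ∧ zeta z = ζ).card : ℝ)
      ≤ 30 * √K * Q / √(nm η) := by
  set F := (FarG Q K ×ˢ FarG Q K).filter fun z => eta z = η ∧ zeta z = ζ with hF
  have hm : ∀ z ∈ F, z.1 ∈ Far Q ∧ z.2 ∈ Far Q ∧ Q / K ≤ nm z.1.1 ∧ eta z = η ∧ zeta z = ζ := by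
    intro z hz
    obtain ⟨h1, h2⟩ := mem_filter.1 hz
    obtain ⟨h3, h4⟩ := mem_product.1 h1
    exact ⟨(mem_filter.1 h3).1, (mem_filter.1 h4).1, (mem_filter.1 h3).2.1, h2.1, h2.2⟩
  have hcard : (F.image fun z => z.1.1).card = F.card := by
    refine card_image_of_injOn fun z hz z' hz' h => ?_
    obtain ⟨a1, a2, -, a4, a5⟩ := hm z hz
    obtain ⟨b1, b2, -, b4, b5⟩ := hm z' hz'
    exact fibre_inj hQ.le a1 a2 b1 b2 (b4.trans a4.symm) (b5.trans a5.symm) h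
  have hn : (0 : ℝ) < nm η := by exact_mod_cast nm_pos hη
  have hs : 0 < √(nm η : ℝ) := Real.sqrt_pos.2 hn
  have hK0 : 0 < K := by linarith
  have h := pc (T := F.image fun z => z.1.1) (X₀ := Q / K) (X := Q) (V := 2 * Q / √(nm η)) (d := 1)
    (by positivity) one_pos (by positivity)
    (by
      intro w hw
      obtain ⟨z, hz, rfl⟩ := mem_image.1 hw
      obtain ⟨a1, -, a3, -⟩ := hm z hz
      have := (mem_Far hQ.le).1 a1
      exact ⟨(cont_eq_one_of_det this.1).1, a3, this.2.1⟩)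
    (by
      intro w hw w' hw'
      obtain ⟨z, hz, rfl⟩ := mem_image.1 hw
      obtain ⟨z', hz', rfl⟩ := mem_image.1 hw'
      obtain ⟨a1, a2, -, a4, a5⟩ := hm z hz
      obtain ⟨b1, b2, -, b4, b5⟩ := hm z' hz'
      have c1 := (mem_Far hQ.le).1 a1
      have c2 := (mem_Far hQ.le).1 a2
      have d1 := (mem_Far hQ.le).1 b1
      have d2 := (mem_Far hQ.le).1 b2
      have e := eta_det c1.1 d1.1 (b4.trans a4.symm) (b5.trans a5.symm)
      have e2 := nm_cross_le c2.2.1 d1.2.1 d2.2.1 c1.2.1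
      rw [← e, a4, nm_mul, nm_intCast] at e2
      push_cast at e2
      rw [Nat.cast_natAbs, Int.cast_abs] at e2
      rw [le_div_iff₀ hs]
      refine le_of_sq_le_sq ?_ (by positivity)
      rw [mul_pow, Real.sq_sqrt hn.le]
      linarith)
    (by intro w _ w' _; simp)
  rw [hcard] at h
  refine h.trans ?_
  have h1 : √(nm η : ℝ) ≤ 2 * Q := by
    rw [Real.sqrt_le_iff]; constructor <;> nlinarith
  have h2 : 1 ≤ 2 * Q / √(nm η) := by rw [le_div_iff₀ hs]; linarith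
  have h3 : Q / (Q / K) = K := by field_simp
  rw [h3]
  have h4 : 30 * √K * Q / √(nm η) = (3 * (2 * Q / √(nm η))) * (5 * √K) := by ring
  rw [h4]
  refine mul_le_mul_of_nonneg_right ?_ (by positivity)
  push_cast
  linarith

lemma prod_gp_dvd {S : Finset ℕ} (hS : ∀ p ∈ S, p.Prime ∧ p % 4 = 1) {η : G}
    (h : ∀ p ∈ S, gp p ∣ η) : ∏ p ∈ S, gp p ∣ η := by
  refine Finset.prod_dvd_of_coprime (fun p hp q hq hne => ?_) h
  obtain ⟨p1, p4⟩ := hS p hp
  obtain ⟨q1, q4⟩ := hS q hq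
  have hpr : Prime (gp p) := prime_of_nm_prime (by rw [nm_gp p1 p4]; exact p1)
  refine hpr.irreducible.coprime_iff_not_dvd.2 fun hd => hne ?_
  have := nm_dvd hd
  rw [nm_gp p1 p4, nm_gp q1 q4] at this
  exact (Nat.prime_dvd_prime_iff_eq p1 q1).1 this

lemma card_zero {Q K : ℝ} (hQ : 0 ≤ Q) :
    (((FarG Q K ×ˢ FarG Q K).filter fun z => eta z = 0).card : ℝ) ≤ 324 * Q := by
  have h : ((FarG Q K ×ˢ FarG Q K).filter fun z => eta z = 0).card ≤ (disc 4 ×ˢ Far Q).card := by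
    refine card_le_card_of_injOn (fun z => (zeta z, z.1)) (fun z hz => ?_) (fun z hz z' hz' h => ?_)
    · obtain ⟨h1, h2⟩ := mem_filter.1 (mem_coe.1 hz)
      obtain ⟨h3, h4⟩ := mem_product.1 h1
      have a1 := (mem_filter.1 h3).1
      have a2 := (mem_filter.1 h4).1
      have := nm_zeta ((mem_Far hQ).1 a1).1 ((mem_Far hQ).1 a2).1
      rw [h2, nm_zero] at this
      refine mem_coe.2 (mem_product.2 ⟨mem_disc.2 ⟨fun h0 => ?_, this.le⟩, a1⟩)
      simp only at h0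
      rw [h0, nm_zero] at this
      omega
    · obtain ⟨h1, h2⟩ := mem_filter.1 (mem_coe.1 hz)
      obtain ⟨h3, h4⟩ := mem_product.1 h1
      obtain ⟨h1', h2'⟩ := mem_filter.1 (mem_coe.1 hz')
      obtain ⟨h3', h4'⟩ := mem_product.1 h1'
      simp only [Prod.mk.injEq] at h
      exact fibre_inj hQ (mem_filter.1 h3).1 (mem_filter.1 h4).1 (mem_filter.1 h3').1
        (mem_filter.1 h4').1 (h2'.trans h2.symm) h.1.symm (by rw [h.2])
  rw [card_product] at h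
  have h1 : ((disc 4).card : ℝ) ≤ 36 := by exact_mod_cast card_disc_le 4
  have h2 := card_Far_le hQ
  have h3 : (((FarG Q K ×ˢ FarG Q K).filter fun z => eta z = 0).card : ℝ)
      ≤ (disc 4).card * (Far Q).card := by exact_mod_cast h
  have h4 := mul_le_mul h1 h2 (Nat.cast_nonneg _) (by norm_num)
  linarith

open Classical in
lemma card_main {Q K : ℝ} (hQ : 0 < Q) (hK : 1 ≤ K) {δ : G} (hδ : δ ≠ 0) :
    (((FarG Q K ×ˢ FarG Q K).filter fun z => eta z ≠ 0 ∧ δ ∣ eta z).card : ℝ)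
      ≤ 30 * √K * Q / √(nm δ) * ∑ n ∈ Icc 1 ⌊4 * Q ^ 2 / nm δ⌋₊,
        ((shell n).card : ℝ) * (shell (nm δ * n + 4)).card / √n := by
  set Y := ⌊4 * Q ^ 2 / nm δ⌋₊ with hY
  have hΔ : (0 : ℝ) < nm δ := by exact_mod_cast nm_pos hδ
  have hsub : ((FarG Q K ×ˢ FarG Q K).filter fun z => eta z ≠ 0 ∧ δ ∣ eta z) ⊆
      (disc Y).biUnion fun a => (shell (nm δ * nm a + 4)).biUnion fun ζ =>
        (FarG Q K ×ˢ FarG Q K).filter fun z => eta z = δ * a ∧ zeta z = ζ := by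
    intro z hz
    obtain ⟨h1, h2, a, ha⟩ := mem_filter.1 hz
    obtain ⟨h3, h4⟩ := mem_product.1 h1
    have c1 := (mem_Far hQ.le).1 (mem_filter.1 h3).1
    have c2 := (mem_Far hQ.le).1 (mem_filter.1 h4).1
    have e1 : (nm (eta z) : ℝ) ≤ 4 * Q ^ 2 := nm_cross_le c1.2.2.1 c2.2.1 c1.2.1 c2.2.2.1
    have e2 := nm_zeta c1.1 c2.1
    rw [ha, nm_mul] at e1 e2
    refine mem_biUnion.2 ⟨a, mem_disc.2 ⟨fun h0 => h2 (by rw [ha, h0, mul_zero]), ?_⟩,
      mem_biUnion.2 ⟨zeta z, mem_shell.2 ⟨fun h0 => ?_, e2⟩, mem_filter.2 ⟨h1, ha, rfl⟩⟩⟩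
    · refine Nat.le_floor ?_
      rw [le_div_iff₀ hΔ]
      push_cast at e1
      linarith
    · rw [h0, nm_zero] at e2; omega
  have h1 : (((FarG Q K ×ˢ FarG Q K).filter fun z => eta z ≠ 0 ∧ δ ∣ eta z).card : ℝ)
      ≤ ∑ a ∈ disc Y, ∑ ζ ∈ shell (nm δ * nm a + 4),
        (((FarG Q K ×ˢ FarG Q K).filter fun z => eta z = δ * a ∧ zeta z = ζ).card : ℝ) := by
    have := (card_le_card hsub).trans
      (card_biUnion_le.trans (sum_le_sum fun a _ => card_biUnion_le))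
    exact_mod_cast this
  refine h1.trans ?_
  have h2 : ∀ a ∈ disc Y, ∑ ζ ∈ shell (nm δ * nm a + 4),
      (((FarG Q K ×ˢ FarG Q K).filter fun z => eta z = δ * a ∧ zeta z = ζ).card : ℝ)
      ≤ 30 * √K * Q / √(nm δ) * ((shell (nm δ * nm a + 4)).card / √(nm a)) := by
    intro a ha
    obtain ⟨a0, a1⟩ := mem_disc.1 ha
    have a2 : (nm (δ * a) : ℝ) ≤ 4 * Q ^ 2 := by
      have := (Nat.le_floor_iff (by positivity)).1 a1
      rw [le_div_iff₀ hΔ] at this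
      rw [nm_mul]; push_cast; linarith
    refine (sum_le_sum fun ζ _ => fibre_card hQ hK (mul_ne_zero hδ a0) a2 ζ).trans (le_of_eq ?_)
    rw [sum_const, nsmul_eq_mul, nm_mul, Nat.cast_mul, Real.sqrt_mul hΔ.le]
    ring
  refine (sum_le_sum h2).trans (le_of_eq ?_)
  rw [← mul_sum, sum_disc_eq]
  congr 1
  rw [range_eq_Ico, sum_eq_sum_Ico_succ_bot (Nat.succ_pos Y), shell_zero, sum_empty, zero_add]
  refine sum_congr (by ext n; simp) fun n _ => ?_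
  rw [sum_congr rfl fun a ha => by rw [(mem_shell.1 ha).2], sum_const, nsmul_eq_mul]
  ring

end CollAux

open CollAux in
open Classical in
/-- Few pairs of Farey bases agree modulo a product of Gaussian primes. -/
theorem collision (K : ℝ) (hK : 1 ≤ K) : ∃ (C : ℝ) (E : ℕ), 0 < C ∧ ∀ (Q : ℝ) (S : Finset ℕ),
    (∀ p ∈ S, p.Prime ∧ p % 4 = 1) → 2 ≤ Q → (∏ p ∈ S, (p : ℝ)) ^ 4 ≤ Q →
    (((FarG Q K ×ˢ FarG Q K).filter fun z =>
      ∀ p ∈ S, gp p ∣ z.1.2 * z.2.1 - z.1.1 * z.2.2).card : ℝ) * ∏ p ∈ S, (p : ℝ) ≤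
      C * Q ^ 2 * (1 + Real.log Q) ^ E := by
  obtain ⟨C, E, hC, hsum⟩ := sum_shell_shift
  refine ⟨324 + 60 * √K * C * 4 ^ E, E, by positivity, fun Q S hS hQ h4 => ?_⟩
  have hQ0 : 0 < Q := by linarith
  set δ : G := ∏ p ∈ S, gp p with hδ
  have hδ0 : δ ≠ 0 := prod_ne_zero_iff.2 fun p hp => gp_ne_zero (hS p hp).1 (hS p hp).2
  have hnm : nm δ = ∏ p ∈ S, p := by
    rw [hδ, nm_prod]
    exact prod_congr rfl fun p hp => nm_gp (hS p hp).1 (hS p hp).2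
  have hΔ : ∏ p ∈ S, (p : ℝ) = nm δ := by rw [hnm]; push_cast; rfl
  rw [hΔ] at h4 ⊢
  have hodd : Odd (nm δ) := by
    rw [hnm]
    refine Finset.prod_induction _ Odd (fun a b => Odd.mul) odd_one fun p hp => ?_
    have := (hS p hp).2
    exact Nat.odd_iff.2 (by omega)
  have hΔ1 : (1 : ℝ) ≤ nm δ := by exact_mod_cast nm_pos hδ0
  have hΔQ : (nm δ : ℝ) ≤ Q := le_trans (le_self_pow₀ hΔ1 (by norm_num)) h4
  set Y := ⌊4 * Q ^ 2 / nm δ⌋₊ with hY
  have hY1 : nm δ + 4 ≤ Y := by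
    refine Nat.le_floor ?_
    rw [le_div_iff₀ (by linarith)]
    push_cast
    nlinarith
  have hY2 : (Y : ℝ) ≤ 4 * Q ^ 2 / nm δ := Nat.floor_le (by positivity)
  have hY0 : (1 : ℝ) ≤ Y := by exact_mod_cast (by omega : 1 ≤ Y)
  have hY3 : (Y : ℝ) ≤ Q ^ 4 := by
    have h1 : 4 * Q ^ 2 / nm δ ≤ 4 * Q ^ 2 := div_le_self (by positivity) hΔ1
    have h2 : 4 ≤ Q ^ 2 := by nlinarith
    nlinarith
  have hlogQ : 0 ≤ Real.log Q := Real.log_nonneg (by linarith)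
  have hlog : 1 + Real.log Y ≤ 4 * (1 + Real.log Q) := by
    have := Real.log_le_log (by linarith) hY3
    rw [Real.log_pow] at this
    push_cast at this
    linarith
  have hpow : (1 + Real.log Y) ^ E ≤ 4 ^ E * (1 + Real.log Q) ^ E := by
    rw [← mul_pow]
    exact pow_le_pow_left₀ (by linarith [Real.log_nonneg hY0]) hlog E
  have hL1 : 1 ≤ (1 + Real.log Q) ^ E := one_le_pow₀ (by linarith)
  have hs : 0 < √(nm δ : ℝ) := Real.sqrt_pos.2 (by linarith)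
  have hsq : √(Y : ℝ) ≤ 2 * Q / √(nm δ) := by
    rw [le_div_iff₀ hs, ← Real.sqrt_mul (by linarith), Real.sqrt_le_iff]
    rw [le_div_iff₀ (by linarith)] at hY2
    constructor <;> nlinarith
  have hsub : ((FarG Q K ×ˢ FarG Q K).filter fun z =>
      ∀ p ∈ S, gp p ∣ z.1.2 * z.2.1 - z.1.1 * z.2.2) ⊆
      ((FarG Q K ×ˢ FarG Q K).filter fun z => eta z = 0) ∪
      ((FarG Q K ×ˢ FarG Q K).filter fun z => eta z ≠ 0 ∧ δ ∣ eta z) := by
    intro z hz
    obtain ⟨h1, h2⟩ := mem_filter.1 hz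
    by_cases h0 : eta z = 0
    · exact mem_union_left _ (mem_filter.2 ⟨h1, h0⟩)
    · exact mem_union_right _ (mem_filter.2 ⟨h1, h0, prod_gp_dvd hS h2⟩)
  have h1 : (((FarG Q K ×ˢ FarG Q K).filter fun z =>
      ∀ p ∈ S, gp p ∣ z.1.2 * z.2.1 - z.1.1 * z.2.2).card : ℝ) ≤
      (((FarG Q K ×ˢ FarG Q K).filter fun z => eta z = 0).card : ℝ) +
      (((FarG Q K ×ˢ FarG Q K).filter fun z => eta z ≠ 0 ∧ δ ∣ eta z).card : ℝ) := by
    exact_mod_cast (card_le_card hsub).trans (card_union_le _ _)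
  have h2 := card_zero (K := K) hQ0.le
  have h3 := card_main hQ0 hK hδ0
  have h5 := hsum (nm δ) Y hodd hY1
  have h6 : C * √Y * (1 + Real.log Y) ^ E
      ≤ C * (2 * Q / √(nm δ)) * (4 ^ E * (1 + Real.log Q) ^ E) :=
    mul_le_mul (mul_le_mul_of_nonneg_left hsq hC.le) hpow
      (pow_nonneg (by linarith [Real.log_nonneg hY0]) _) (by positivity)
  have h7 := h3.trans (mul_le_mul_of_nonneg_left (h5.trans h6) (by positivity))
  have h8 : 30 * √K * Q / √(nm δ) * (C * (2 * Q / √(nm δ)) * (4 ^ E * (1 + Real.log Q) ^ E))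
      * nm δ = 60 * √K * C * 4 ^ E * Q ^ 2 * (1 + Real.log Q) ^ E := by
    have : (nm δ : ℝ) = √(nm δ) * √(nm δ) := (Real.mul_self_sqrt (by linarith)).symm
    set s := √(nm δ : ℝ)
    rw [this]
    field_simp
    ring
  have h9 := mul_le_mul_of_nonneg_right (h1.trans (add_le_add h2 h7))
    (show (0 : ℝ) ≤ nm δ by linarith)
  rw [add_mul, h8] at h9
  have h10 : 324 * Q * nm δ ≤ 324 * Q ^ 2 * (1 + Real.log Q) ^ E := by
    have a1 : 324 * Q * nm δ ≤ 324 * Q ^ 2 := by nlinarith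
    have a2 : 324 * Q ^ 2 * 1 ≤ 324 * Q ^ 2 * (1 + Real.log Q) ^ E :=
      mul_le_mul_of_nonneg_left hL1 (by positivity)
    linarith
  linarith

end Pool.Agent.P.MP_a1177c_nt.LC
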