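import Pool.Agent.P.MP_a1177c_nt.LC.Ent

namespace Pool.Agent.P.MP_a1177c_nt.LC

open Finset Filter MR MR.StructAux
open scoped ComplexConjugate Topology

namespace TreeAux

variable {Ω H ι α : Type}

open Classical in
/-- The values inside a window. -/
noncomputable def xv (x : Ω → H → α) (W : Finset H) (ω : Ω) : H → Option α :=
  fun h => if h ∈ W then some (x ω h) else none

open Classical in
/-- The coordinates of the levels from `r` to `R`. -/
noncomputable def yv (S : ℕ → Finset ι) (Y : Ω → ι → ℕ) (R r : ℕ) (ω : Ω) : ι → ℕ :=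
  fun i => if ∃ r', r ≤ r' ∧ r' ≤ R ∧ i ∈ S r' then Y ω i else 0

lemma xv_eq_iff {x : Ω → H → α} {W : Finset H} {ω ω' : Ω} :
    xv x W ω = xv x W ω' ↔ ∀ h ∈ W, x ω h = x ω' h := by
  constructor
  · intro e h hh
    simpa [xv, hh] using congrFun e h
  · intro e
    funext h
    by_cases hh : h ∈ W <;> simp [xv, hh, e h]

lemma yv_eq_iff {S : ℕ → Finset ι} {Y : Ω → ι → ℕ} {R r : ℕ} {ω ω' : Ω} :
    yv S Y R r ω = yv S Y R r ω' ↔ ∀ r', r ≤ r' → r' ≤ R → ∀ i ∈ S r', Y ω i = Y ω' i := by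
  constructor
  · intro e r' h1 h2 i hi
    have h3 : ∃ r', r ≤ r' ∧ r' ≤ R ∧ i ∈ S r' := ⟨r', h1, h2, hi⟩
    simpa only [yv, if_pos h3] using congrFun e i
  · intro e
    funext i
    by_cases h3 : ∃ r', r ≤ r' ∧ r' ≤ R ∧ i ∈ S r'
    · obtain ⟨r', h1, h2, hi⟩ := id h3
      simp only [yv, if_pos h3, e r' h1 h2 i hi]
    · simp only [yv, if_neg h3]

lemma yv_step {S : ℕ → Finset ι} {Y : Ω → ι → ℕ} {R r : ℕ} (hr : r ≤ R) {ω ω' : Ω} :
    yv S Y R r ω = yv S Y R r ω' ↔ yv S Y R (r + 1) ω = yv S Y R (r + 1) ω' ∧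
      (fun i : S r => Y ω i) = fun i : S r => Y ω' i := by
  rw [yv_eq_iff, yv_eq_iff, funext_iff]
  constructor
  · intro e
    exact ⟨fun r' h1 => e r' (by omega), fun i => e r le_rfl hr i i.2⟩
  · rintro ⟨e1, e2⟩ r' h1 h2 i hi
    rcases eq_or_lt_of_le h1 with rfl | h3
    · exact e2 ⟨i, hi⟩
    · exact e1 r' h3 h2 i hi

lemma sum_two (g : ℕ → ℝ) (m : ℕ) :
    ∑ v ∈ range (2 * m), g v = ∑ v ∈ range m, (g (2 * v) + g (2 * v + 1)) := by
  induction m with
  | zero => simp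
  | succ m ih => rw [mul_add, mul_one, sum_range_succ, sum_range_succ, sum_range_succ, ih, add_assoc]

lemma log_pi [DecidableEq ι] (S : Finset ι) (t : ι → Finset ℕ) (ht : ∀ i, (t i).Nonempty) :
    Real.log (Fintype.piFinset fun i : S => t i).card = ∑ i ∈ S, Real.log (t i).card := by
  rw [Fintype.card_piFinset, Nat.cast_prod, Real.log_prod, sum_coe_sort S fun i => Real.log (t i).card]
  intro i _
  exact_mod_cast (ht i).card_pos.ne'

end TreeAux

open TreeAux in
open Classical in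
/-- Entropy decrement along a dyadic tree of windows. -/
theorem tree {Ω H ι α : Type} [Fintype α] [Nonempty α] (s : Finset Ω) (x : Ω → H → α) (R : ℕ)
    (W : ℕ → ℕ → Finset H)
    (hW : ∀ r < R, ∀ v < 2 ^ r, ∀ h ∈ W r v, h ∈ W (r + 1) (2 * v) ∨ h ∈ W (r + 1) (2 * v + 1))
    (S : ℕ → Finset ι) (t : ι → Finset ℕ) (ht : ∀ i, (t i).Nonempty) (Y : Ω → ι → ℕ)
    (hY : ∀ ω ∈ s, ∀ r ≤ R, ∀ i ∈ S r, Y ω i ∈ t i)
    (Z : ℕ → ℕ → ι → (H → α) → ℕ → ℝ) (b : ℕ → ℝ) (hb : ∀ r ≤ R, b r ≤ 1)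
    (hloc : ∀ r v i ξ ξ', (∀ h ∈ W r v, ξ h = ξ' h) → Z r v i ξ = Z r v i ξ')
    (hmean : ∀ r ≤ R, ∀ v < 2 ^ r, ∀ i ∈ S r, ∀ ξ, ∑ y ∈ t i, Z r v i ξ y = 0)
    (hbd : ∀ r ≤ R, ∀ v < 2 ^ r, ∀ i ∈ S r, ∀ ξ, ∀ y ∈ t i, |Z r v i ξ y| ≤ b r)
    {Cc : ℝ} (hc : (((s ×ˢ s).filter fun z =>
      ∀ r ≤ R, ∀ i ∈ S r, Y z.1 i = Y z.2 i).card : ℝ) ≤ Cc) :
    ∑ r ∈ range (R + 1), |∑ ω ∈ s, ∑ v ∈ range (2 ^ r), ∑ i ∈ S r, Z r v i (x ω) (Y ω i)| ≤
      s.card * ((∑ v ∈ range (2 ^ R), ((W R v).card : ℝ)) * Real.log (Fintype.card α) +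
        2 ^ R * (∑ r ∈ range (R + 1), ∑ i ∈ S r, Real.log (t i).card -
          Real.log ((s.card : ℝ) ^ 2 / Cc)) +
        ∑ r ∈ range (R + 1), 2 ^ r * (S r).card * b r ^ 2) := by
  set y := yv S Y R with hy
  let c : ℕ → ℕ → ℕ → ℝ := fun r v r' => ent s (fun ω => (xv x (W r v) ω, y r' ω)) - ent s (y r')
  let df : ℕ → ℝ := fun r =>
    s.card * ∑ i ∈ S r, Real.log (t i).card - ent s (y r) + ent s (y (r + 1))
  let I : ℕ → ℝ := fun r => ∑ v ∈ range (2 ^ r), (c r v (r + 1) - c r v r)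
  have hmem : ∀ r ≤ R, ∀ ω ∈ s, (fun i : S r => Y ω i) ∈ Fintype.piFinset fun i : S r => t i :=
    fun r hr ω hω => Fintype.mem_piFinset.2 fun i => hY ω hω r hr i i.2
  have hdf : ∀ r ≤ R, 0 ≤ df r := by
    intro r hr
    have h1 := ent_pair_le s (y (r + 1)) (fun ω (i : S r) => Y ω i) _ (hmem r hr)
    rw [log_pi _ _ ht, ← ent_congr s (A := y r) fun ω _ ω' _ => by
      rw [Prod.mk.injEq]; exact yv_step hr] at h1
    simp only [df]
    linarith
  have hone : ∀ r ≤ R, ∀ v < 2 ^ r, ∀ σ : ℝ, |σ| = 1 →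
      σ * ∑ ω ∈ s, ∑ i ∈ S r, Z r v i (x ω) (Y ω i) ≤
        df r + (c r v (r + 1) - c r v r) + s.card * ((S r).card * b r ^ 2) := by
    intro r hr v hv σ hσ
    let ex : (H → Option α) → H → α := fun ξ h => (ξ h).getD (Classical.arbitrary α)
    have h1 := gibbs s (fun ω => (xv x (W r v) ω, y (r + 1) ω)) (fun ω (i : S r) => Y ω i) _
      (hmem r hr) (fun a u => ∑ i : S r, σ * Z r v i (ex a.1) (u i))
    have h2 : ∀ ω, ∀ i : ι, Z r v i (ex (xv x (W r v) ω)) = Z r v i (x ω) := fun ω i =>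
      hloc r v i _ _ fun h hh => by simp [ex, xv, hh]
    have h3 : ∀ ω ∈ s, Real.log ((∑ u ∈ Fintype.piFinset fun i : S r => t i,
        Real.exp (∑ i : S r, σ * Z r v i (ex (xv x (W r v) ω)) (u i))) /
          (Fintype.piFinset fun i : S r => t i).card) ≤ (S r).card * b r ^ 2 := by
      intro ω _
      have := mgf_le (fun i : S r => t i) (fun i => ht i)
        (fun i u => σ * Z r v i (ex (xv x (W r v) ω)) u) (hb r hr)
        (fun i => by rw [← mul_sum, hmean r hr v hv i i.2, mul_zero])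
        (fun i u hu => by rw [abs_mul, hσ, one_mul]; exact hbd r hr v hv i i.2 _ u hu)
      rwa [Fintype.card_coe] at this
    have h4 := sum_le_sum h3
    rw [sum_const, nsmul_eq_mul] at h4
    have h5 : ent s (fun ω => ((xv x (W r v) ω, y (r + 1) ω), fun i : S r => Y ω i)) =
        ent s (fun ω => (xv x (W r v) ω, y r ω)) := ent_congr s fun ω _ ω' _ => by
      simp only [Prod.mk.injEq, hy, yv_step hr, and_assoc]
    have h6 : σ * ∑ ω ∈ s, ∑ i ∈ S r, Z r v i (x ω) (Y ω i) =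
        ∑ ω ∈ s, ∑ i : S r, σ * Z r v i (ex (xv x (W r v) ω)) (Y ω i) := by
      rw [mul_sum]
      refine sum_congr rfl fun ω _ => ?_
      rw [mul_sum, ← sum_coe_sort (S r)]
      simp only [h2]
    rw [log_pi _ _ ht, h5] at h1
    rw [h6]
    simp only [df, c]
    linarith
  have habs : ∀ r ∈ range (R + 1),
      |∑ ω ∈ s, ∑ v ∈ range (2 ^ r), ∑ i ∈ S r, Z r v i (x ω) (Y ω i)| ≤
        2 ^ R * df r + I r + s.card * (2 ^ r * (S r).card * b r ^ 2) := by
    intro r hr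
    have hr' : r ≤ R := Nat.lt_succ_iff.1 (mem_range.1 hr)
    have h1 : ∀ σ : ℝ, |σ| = 1 →
        σ * ∑ ω ∈ s, ∑ v ∈ range (2 ^ r), ∑ i ∈ S r, Z r v i (x ω) (Y ω i) ≤
          2 ^ R * df r + I r + s.card * (2 ^ r * (S r).card * b r ^ 2) := by
      intro σ hσ
      rw [sum_comm, mul_sum]
      refine (sum_le_sum fun v hv => hone r hr' v (mem_range.1 hv) σ hσ).trans ?_
      rw [sum_add_distrib, sum_add_distrib, sum_const, sum_const, card_range, nsmul_eq_mul,
        nsmul_eq_mul]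
      have h2 : (2 : ℝ) ^ r * df r ≤ 2 ^ R * df r :=
        mul_le_mul_of_nonneg_right (pow_le_pow_right₀ one_le_two hr') (hdf r hr')
      push_cast
      simp only [I]
      linarith
    have h2 := h1 1 abs_one
    have h3 := h1 (-1) (by simp)
    exact abs_le.2 ⟨by linarith, by linarith⟩
  have hI : ∀ n ≤ R, ∑ r ∈ range (n + 1), I r ≤ ∑ v ∈ range (2 ^ n), c n v (n + 1) := by
    intro n
    induction n with
    | zero =>
      intro _
      have h1 : ent s (y 0) ≤ ent s (fun ω => (xv x (W 0 0) ω, y 0 ω)) :=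
        ent_mono s fun ω _ ω' _ h => congrArg Prod.snd h
      simp only [I, c, zero_add, range_one, sum_singleton, pow_zero]
      linarith
    | succ n ih =>
      intro hn
      have h1 : ∑ v ∈ range (2 ^ n), c n v (n + 1) ≤
          ∑ v ∈ range (2 ^ (n + 1)), c (n + 1) v (n + 1) := by
        rw [pow_succ', sum_two]
        refine sum_le_sum fun v hv => ?_
        have h2 := ent_submod s (xv x (W (n + 1) (2 * v))) (xv x (W (n + 1) (2 * v + 1)))
          (y (n + 1))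
        have h3 : ent s (fun ω => (xv x (W n v) ω, y (n + 1) ω)) ≤
            ent s (fun ω => (xv x (W (n + 1) (2 * v)) ω, xv x (W (n + 1) (2 * v + 1)) ω,
              y (n + 1) ω)) := by
          refine ent_mono s fun ω _ ω' _ h => ?_
          simp only [Prod.mk.injEq, xv_eq_iff] at h ⊢
          refine ⟨fun h' hh => ?_, h.2.2⟩
          rcases hW n hn v (mem_range.1 hv) h' hh with h4 | h4
          · exact h.1 h' h4
          · exact h.2.1 h' h4
        simp only [c]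
        linarith
      rw [sum_range_succ]
      have h4 := ih (by omega)
      have h5 : I (n + 1) = ∑ v ∈ range (2 ^ (n + 1)), c (n + 1) v (n + 1 + 1) -
          ∑ v ∈ range (2 ^ (n + 1)), c (n + 1) v (n + 1) := sum_sub_distrib _ _
      linarith
  have hT : ∑ v ∈ range (2 ^ R), c R v (R + 1) ≤
      s.card * ((∑ v ∈ range (2 ^ R), ((W R v).card : ℝ)) * Real.log (Fintype.card α)) := by
    rw [sum_mul, mul_sum]
    refine sum_le_sum fun v _ => ?_
    have h1 := ent_pair_le s (y (R + 1)) (fun ω (h : W R v) => x ω h) univ fun _ _ => mem_univ _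
    have h2 : ent s (fun ω => (y (R + 1) ω, fun h : W R v => x ω h)) =
        ent s (fun ω => (xv x (W R v) ω, y (R + 1) ω)) := ent_congr s fun ω _ ω' _ => by
      simp only [Prod.mk.injEq, xv_eq_iff, funext_iff (f := fun h : W R v => x ω h),
        Subtype.forall, and_comm]
    rw [h2, card_univ, Fintype.card_fun, Fintype.card_coe, Nat.cast_pow, Real.log_pow] at h1
    simp only [c]
    linarith
  have hsum : ∑ r ∈ range (R + 1), df r ≤ s.card *
      (∑ r ∈ range (R + 1), ∑ i ∈ S r, Real.log (t i).card - Real.log ((s.card : ℝ) ^ 2 / Cc)) := by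
    have h1 : ∑ r ∈ range (R + 1), df r =
        s.card * ∑ r ∈ range (R + 1), ∑ i ∈ S r, Real.log (t i).card -
          (ent s (y 0) - ent s (y (R + 1))) := by
      rw [← sum_range_sub' (fun r => ent s (y r)), mul_sum, ← sum_sub_distrib]
      exact sum_congr rfl fun r _ => by simp only [df]; ring
    have h2 : ent s (y (R + 1)) = 0 :=
      ent_const s fun ω _ ω' _ => yv_eq_iff.2 fun r' h1 h2 => by omega
    have h3 := ent_ge_coll s (y 0) (Cc := Cc) (le_trans (by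
      refine Nat.cast_le.2 (card_le_card fun z hz => ?_)
      rw [mem_filter] at hz ⊢
      exact ⟨hz.1, fun r hr => yv_eq_iff.1 hz.2 r (Nat.zero_le r) hr⟩) hc)
    rw [h1, h2, mul_sub]
    linarith
  refine (sum_le_sum habs).trans ?_
  rw [sum_add_distrib, sum_add_distrib, ← mul_sum, ← mul_sum]
  have h1 := mul_le_mul_of_nonneg_left hsum (by positivity : (0 : ℝ) ≤ 2 ^ R)
  have h2 := hI R le_rfl
  nlinarith

end Pool.Agent.P.MP_a1177c_nt.LC
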