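import Pool.Agent.P.MP_a1177c_nt.LC.DecGeo
import Pool.Agent.P.MP_a1177c_nt.LC.Coll
import Pool.Agent.P.MP_a1177c_nt.LC.Tree

/-!
Local functionals on one window, and the rewriting of the error term in terms of them.
-/

namespace Pool.Agent.P.MP_a1177c_nt.LC.DecAux

open Finset Filter MR MR.StructAux
open scoped ComplexConjugate Topology

variable {β : Type}

/-- Sum over the partners inside the window. -/
noncomputable def zz (W : Finset G) (Φ : β → β → ℝ) (p : ℕ) (ξ : G → β) (h : G) : ℝ :=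
  ∑ h' ∈ W, if det h h' = p then Φ (ξ h) (ξ h') else 0

/-- The centred functional. -/
noncomputable def Z0 (W : Finset G) (Φ : β → β → ℝ) (p : ℕ) (ξ : G → β) (y : ℕ) : ℝ :=
  ∑ h ∈ W, ((if ln p h = y then 1 else 0) - 1 / ((p : ℝ) + 1)) * zz W Φ p ξ h

lemma mem_Wn {L K : ℝ} (hL : 0 < L) (hK : 0 < K) {r v : ℕ} {h : G} (hh : h ∈ Wn L K r v) :
    cont h = 1 ∧ L / K ≤ nm h ∧ (nm h : ℝ) ≤ K * L := by
  have h1 := (mem_filter.1 (mem_filter.1 hh).1).1
  obtain ⟨h2, h3, h4⟩ := (mem_An (by positivity)).1 h1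
  exact ⟨h2, h3.le, h4⟩

lemma sqrt_ratio {L K : ℝ} (hL : 0 < L) (hK : 0 < K) : √(K * L / (L / K)) = K := by
  rw [show K * L / (L / K) = K ^ 2 by field_simp, Real.sqrt_sq hK.le]

lemma abs_zz_le {L K : ℝ} (hL : 0 < L) (hK : 0 < K) {r v : ℕ} {Φ : β → β → ℝ}
    (hΦ : ∀ a b, |Φ a b| ≤ 1) (p : ℕ) (ξ : G → β) {h : G} (hh : h ∈ Wn L K r v) :
    |zz (Wn L K r v) Φ p ξ h| ≤ 5 * K := by
  obtain ⟨h1, h2, h3⟩ := mem_Wn hL hK hh
  have key := sum_partners (B := 1) (by positivity) h1 h2 h3 (T := Wn L K r v)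
    (fun w' hw' => (mem_Wn hL hK hw').2.2) (fun j => if j = p then 1 else 0)
    (fun j => by split_ifs <;> norm_num) (fun J => by
      rw [sum_ite_eq']; split_ifs <;> norm_num)
  rw [sqrt_ratio hL hK, mul_one] at key
  refine (abs_sum_le_sum_abs _ _).trans (le_trans (sum_le_sum fun h' _ => ?_) key)
  split_ifs
  · exact hΦ _ _
  · simp

lemma sum_Z0 (W : Finset G) (Φ : β → β → ℝ) {p : ℕ} (hp : p.Prime) (ξ : G → β) :
    ∑ y ∈ range (p + 1), Z0 W Φ p ξ y = 0 := by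
  simp only [Z0]
  rw [sum_comm]
  refine sum_eq_zero fun h _ => ?_
  rw [← sum_mul, sum_sub_distrib, sum_ite_eq, if_pos (mem_range.2 (ln_lt hp h)), sum_const,
    card_range, nsmul_eq_mul]
  push_cast
  rw [mul_one_div_cancel (by positivity), sub_self, zero_mul]

lemma Z0_congr (W : Finset G) (Φ : β → β → ℝ) (p : ℕ) {ξ ξ' : G → β} (h : ∀ g ∈ W, ξ g = ξ' g) :
    Z0 W Φ p ξ = Z0 W Φ p ξ' := by
  funext y
  refine sum_congr rfl fun g hg => ?_
  congr 1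
  refine sum_congr rfl fun g' hg' => ?_
  rw [h g hg, h g' hg']

lemma card_line_le {K : ℝ} (hK : 1 ≤ K) {r m e₀ v p : ℕ} (hp : p ∈ PS (2 ^ m)) (y : ℕ) :
    (((Wn (2 ^ (r + m + e₀)) K r v).filter fun h => ln p h = y).card : ℝ) ≤
      25 * K ^ 2 * 2 ^ e₀ := by
  obtain ⟨⟨hp1, -⟩, hp2, -⟩ := mem_PS.1 hp
  have hL : (0 : ℝ) < 2 ^ (r + m + e₀) := by positivity
  have hK0 : 0 < K := by linarith
  have key := pc (T := (Wn (2 ^ (r + m + e₀)) K r v).filter fun h => ln p h = y)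
    (X₀ := 2 ^ (r + m + e₀) / K) (X := K * 2 ^ (r + m + e₀))
    (V := 2 * (K * 2 ^ (r + m + e₀)) / 2 ^ r) (d := p) (by positivity) hp2.pos (by positivity)
    (fun w hw => mem_Wn hL hK0 (mem_filter.1 hw).1)
    (fun w hw w' hw' => abs_det_Wn_le (mem_filter.1 hw).1 (mem_filter.1 hw').1)
    (fun w hw w' hw' => (ln_eq_iff hp2 (mem_Wn hL hK0 (mem_filter.1 hw).1).1
      (mem_Wn hL hK0 (mem_filter.1 hw').1).1).1
      ((mem_filter.1 hw).2.trans (mem_filter.1 hw').2.symm))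
  rw [sqrt_ratio hL hK0] at key
  have h1 : (2 : ℝ) ^ m ≤ p := by exact_mod_cast hp1.le
  have h2 : 2 * (2 * (K * 2 ^ (r + m + e₀)) / 2 ^ r) / (p : ℝ) ≤ 4 * K * 2 ^ e₀ := by
    rw [div_le_iff₀ (by exact_mod_cast hp2.pos)]
    calc 2 * (2 * (K * 2 ^ (r + m + e₀)) / 2 ^ r) = 4 * K * 2 ^ e₀ * 2 ^ m := by
          rw [pow_add, pow_add]; field_simp; ring
      _ ≤ _ := by gcongr
  have h3 : (1 : ℝ) ≤ K * 2 ^ e₀ := one_le_mul_of_one_le_of_one_le hK (one_le_pow₀ one_le_two)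
  nlinarith [mul_le_mul_of_nonneg_right h2 hK0.le, mul_le_mul_of_nonneg_right h3 hK0.le]

lemma abs_Z0_le {K : ℝ} (hK : 1 ≤ K) {r m e₀ v p : ℕ} (hp : p ∈ PS (2 ^ m)) {Φ : β → β → ℝ}
    (hΦ : ∀ a b, |Φ a b| ≤ 1) (ξ : G → β) (y : ℕ) :
    |Z0 (Wn (2 ^ (r + m + e₀)) K r v) Φ p ξ y| ≤ 250 * K ^ 3 * 2 ^ e₀ := by
  have hp2 := (mem_PS.1 hp).2.1
  have hL : (0 : ℝ) < 2 ^ (r + m + e₀) := by positivity
  have hK0 : 0 < K := by linarith
  set W := Wn (2 ^ (r + m + e₀)) K r v with hW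
  have h1 : ∀ y, ∑ h ∈ W, (if ln p h = y then (1 : ℝ) else 0) ≤ 25 * K ^ 2 * 2 ^ e₀ := fun y => by
    rw [sum_boole]; exact card_line_le hK hp y
  have h2 : ∑ _h ∈ W, 1 / ((p : ℝ) + 1) ≤ 25 * K ^ 2 * 2 ^ e₀ := by
    have h3 : ∑ _h ∈ W, (1 : ℝ) = ∑ y ∈ range (p + 1), ∑ h ∈ W, (if ln p h = y then (1 : ℝ) else 0) := by
      rw [sum_comm]
      refine sum_congr rfl fun h _ => ?_
      rw [sum_ite_eq, if_pos (mem_range.2 (ln_lt hp2 h))]
    have h4 := sum_le_card_nsmul _ _ _ (fun y (_ : y ∈ range (p + 1)) => h1 y)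
    rw [← h3, card_range, nsmul_eq_mul] at h4
    rw [← sum_div, div_le_iff₀ (by positivity)]
    push_cast at h4
    linarith
  calc |Z0 W Φ p ξ y| ≤ ∑ h ∈ W, ((if ln p h = y then 1 else 0) + 1 / ((p : ℝ) + 1)) * (5 * K) := by
        refine (abs_sum_le_sum_abs _ _).trans (sum_le_sum fun h hh => ?_)
        rw [abs_mul]
        refine mul_le_mul ?_ (abs_zz_le hL hK0 hΦ p ξ hh) (abs_nonneg _) (by positivity)
        refine (abs_sub _ _).trans (le_of_eq ?_)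
        rw [abs_of_nonneg (by positivity), abs_of_nonneg (by positivity)]
    _ ≤ (25 * K ^ 2 * 2 ^ e₀ + 25 * K ^ 2 * 2 ^ e₀) * (5 * K) := by
        rw [← sum_mul, sum_add_distrib]
        exact mul_le_mul_of_nonneg_right (add_le_add (h1 y) h2) (by positivity)
    _ = _ := by ring

open Classical in
/-- The colouring seen from the basis `e`. -/
noncomputable def xx {α : Type} (A : Finset G) (σ : G → α) (e : G × G) (h : G) : Option α :=
  if act e h ∈ A then some (σ (act e h)) else none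

/-- The weight extended by zero. -/
def ext {α : Type} (Φ : α → α → ℝ) : Option α → Option α → ℝ
  | some a, some b => Φ a b
  | _, _ => 0

lemma abs_ext_le {α : Type} {Φ : α → α → ℝ} (hΦ : ∀ a b, |Φ a b| ≤ 1) (a b : Option α) :
    |ext Φ a b| ≤ 1 := by
  rcases a with _ | a <;> rcases b with _ | b <;> simp [ext, hΦ]

open Classical in
lemma ext_xx {α : Type} (A : Finset G) (σ : G → α) (Φ : α → α → ℝ) (e : G × G) (h h' : G) :
    ext Φ (xx A σ e h) (xx A σ e h') =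
      if act e h ∈ A ∧ act e h' ∈ A then Φ (σ (act e h)) (σ (act e h')) else 0 := by
  unfold xx
  by_cases h1 : act e h ∈ A <;> by_cases h2 : act e h' ∈ A <;> simp [ext, h1, h2]

lemma det_of_FarG {Q K : ℝ} {e : G × G} (he : e ∈ FarG Q K) : det e.1 e.2 = 1 :=
  (mem_filter.1 (mem_filter.1 he).1).2.1

lemma card_FarG_le {Q : ℝ} (hQ : 0 ≤ Q) (K : ℝ) : ((FarG Q K).card : ℝ) ≤ 9 * Q :=
  le_trans (by exact_mod_cast card_filter_le _ _) (card_Far_le hQ)

open Classical in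
/-- One prime. -/
lemma one_prime (K ε : ℝ) (hK : 1 ≤ K) (hε : 0 < ε) : ∃ (K₃ : ℝ) (e₀ : ℕ), 4 ≤ K₃ ∧
    ∀ (α : Type) (N : ℝ) (r m p : ℕ) (σ : G → α) (Φ : α → α → ℝ), p ∈ PS (2 ^ m) →
      (2 : ℝ) ^ (2 * (r + m + e₀)) ≤ N → (∀ a b, |Φ a b| ≤ 1) →
      |∑ w ∈ An (N / K) (K * N), ∑ w' ∈ An (N / K) (K * N),
          (if det w w' = p ∧ 0 < dot w w' then
            Φ (σ w) (σ w') * ((if gp p ∣ w then (p : ℝ) else 0) - 1) else 0) -
        p * ∑ e ∈ FarG (N / 2 ^ (r + m + e₀)) K₃, ∑ v ∈ range (2 ^ r),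
          Z0 (Wn (2 ^ (r + m + e₀)) (2 * K * K₃) r v) (ext Φ) p (xx (An (N / K) (K * N)) σ e)
            (ln p (co e (gp p)))| ≤ ε * N + 405 * (2 * K * K₃) ^ 2 * N / 2 ^ m := by
  obtain ⟨K₃, e₀, hK₃, H⟩ := capture K ε hK hε
  refine ⟨K₃, e₀, hK₃, fun α N r m p σ Φ hp hN hΦ => ?_⟩
  obtain ⟨⟨hp1, -⟩, hp2, hp4⟩ := mem_PS.1 hp
  have hN0 : 0 < N := lt_of_lt_of_le (by positivity) hN
  set A := An (N / K) (K * N) with hA
  set L : ℝ := 2 ^ (r + m + e₀) with hLdef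
  set K' := 2 * K * K₃ with hK'
  have hL : 0 < L := by positivity
  have hK0 : 0 < K' := by positivity
  have key := H N r m p (fun w w' => if w ∈ A ∧ w' ∈ A then
    Φ (σ w) (σ w') * ((if gp p ∣ w then (p : ℝ) else 0) - 1) else 0) hp hN
    (fun w w' => by
      have h0 : (0 : ℝ) ≤ if gp p ∣ w then (p : ℝ) else 0 := by positivity
      by_cases hw : w ∈ A ∧ w' ∈ A
      · rw [if_pos hw, abs_mul]
        refine (mul_le_of_le_one_left (abs_nonneg _) (hΦ _ _)).trans ?_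
        rw [abs_le]; constructor <;> linarith
      · rw [if_neg hw, abs_zero]; linarith)
    (fun w w' hw => by
      by_contra hc
      exact hw (if_neg hc))
  have e1 : ∑ w ∈ A, ∑ w' ∈ A, (if det w w' = p ∧ 0 < dot w w' then (if w ∈ A ∧ w' ∈ A then
      Φ (σ w) (σ w') * ((if gp p ∣ w then (p : ℝ) else 0) - 1) else 0) else 0) =
      ∑ w ∈ A, ∑ w' ∈ A, (if det w w' = p ∧ 0 < dot w w' then
            Φ (σ w) (σ w') * ((if gp p ∣ w then (p : ℝ) else 0) - 1) else 0) :=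
    sum_congr rfl fun w hw => sum_congr rfl fun w' hw' => by rw [if_pos (And.intro hw hw')]
  have e2 : ∀ e ∈ FarG (N / L) K₃, ∀ v : ℕ, ∑ h ∈ Wn L K' r v, ∑ h' ∈ Wn L K' r v,
      (if det h h' = p then (if act e h ∈ A ∧ act e h' ∈ A then Φ (σ (act e h)) (σ (act e h')) *
        ((if gp p ∣ act e h then (p : ℝ) else 0) - 1) else 0) else 0) =
      p * Z0 (Wn L K' r v) (ext Φ) p (xx A σ e) (ln p (co e (gp p))) -
        1 / ((p : ℝ) + 1) * ∑ h ∈ Wn L K' r v, zz (Wn L K' r v) (ext Φ) p (xx A σ e) h := by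
    intro e he v
    rw [Z0, mul_sum, mul_sum, ← sum_sub_distrib]
    refine sum_congr rfl fun h hh => ?_
    rw [← mul_assoc, ← sub_mul, zz, mul_sum]
    refine sum_congr rfl fun h' _ => ?_
    rw [ext_xx]
    simp only [gp_dvd_act_iff hp2 hp4 (det_of_FarG he) (mem_Wn hL hK0 hh).1]
    have : (p : ℝ) + 1 ≠ 0 := by positivity
    split_ifs <;> first | simp; done | (field_simp; ring)
  rw [e1, sum_congr rfl fun e he => sum_congr rfl fun v _ => e2 e he v] at key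
  simp only [sum_sub_distrib, ← mul_sum] at key
  have e3 : |1 / ((p : ℝ) + 1) * ∑ e ∈ FarG (N / L) K₃, ∑ v ∈ range (2 ^ r),
      ∑ h ∈ Wn L K' r v, zz (Wn L K' r v) (ext Φ) p (xx A σ e) h| ≤ 405 * K' ^ 2 * N / 2 ^ m := by
    have h1 : ∀ e : G × G, |∑ v ∈ range (2 ^ r),
        ∑ h ∈ Wn L K' r v, zz (Wn L K' r v) (ext Φ) p (xx A σ e) h| ≤ 9 * (K' * L) * (5 * K') := by
      intro e
      refine (abs_sum_le_sum_abs _ _).trans (le_trans (sum_le_sum fun v _ =>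
        (abs_sum_le_sum_abs _ _).trans (sum_le_card_nsmul _ _ _ fun h hh =>
          abs_zz_le hL hK0 (abs_ext_le hΦ) p _ hh)) ?_)
      simp only [nsmul_eq_mul, ← sum_mul]
      exact mul_le_mul_of_nonneg_right (sum_card_Wn_le hL.le hK0.le r) (by positivity)
    have h2 := (abs_sum_le_sum_abs _ _).trans
      (sum_le_card_nsmul (FarG (N / L) K₃) _ _ fun e _ => h1 e)
    rw [nsmul_eq_mul] at h2
    have h3 := card_FarG_le (Q := N / L) (by positivity) K₃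
    have h4 : (2 : ℝ) ^ m ≤ p + 1 := by
      have : (2 : ℝ) ^ m ≤ p := by exact_mod_cast hp1.le
      linarith
    rw [abs_mul, abs_of_nonneg (by positivity)]
    calc _ ≤ 1 / (2 : ℝ) ^ m * (9 * (N / L) * (9 * (K' * L) * (5 * K'))) := by
          refine mul_le_mul (one_div_le_one_div_of_le (by positivity) h4) (h2.trans ?_)
            (abs_nonneg _) (by positivity)
          exact mul_le_mul_of_nonneg_right h3 (by positivity)
      _ = _ := by field_simp; ring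
  rw [abs_le] at key e3 ⊢
  constructor <;> linarith [key.1, key.2, e3.1, e3.2]

end Pool.Agent.P.MP_a1177c_nt.LC.DecAux
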