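import Pool.Agent.P.MP_a1177c_nt.LC.DecA

/-!
The entropy decrement applied to the windows of the Farey cones.
-/

namespace Pool.Agent.P.MP_a1177c_nt.LC.DecAux

open Finset Filter MR MR.StructAux
open scoped ComplexConjugate Topology

lemma card_PS_le (Y : ℕ) : (PS Y).card ≤ Y :=
  (card_filter_le _ _).trans (by rw [Nat.card_Ioc]; omega)

lemma log_le_of_PS {m p : ℕ} (hp : p ∈ PS (2 ^ m)) : Real.log p ≤ (m + 1) * Real.log 2 := by
  obtain ⟨⟨h1, h2⟩, h3, -⟩ := mem_PS.1 hp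
  have h4 : (p : ℝ) ≤ 2 ^ (m + 1) := by rw [pow_succ']; exact_mod_cast h2
  refine (Real.log_le_log (by exact_mod_cast h3.pos) h4).trans (le_of_eq ?_)
  rw [Real.log_pow]; push_cast; ring

lemma log_two_le : Real.log 2 ≤ 1 := by linarith [Real.log_two_lt_d9]

lemma card_PS_pow {m : ℕ} (hm : 1 ≤ m) : ((PS (2 ^ m)).card : ℝ) ≤ 3 * 2 ^ m / (m * Real.log 2) := by
  have := card_PS_upper (Y := 2 ^ m) (by simpa using Nat.pow_le_pow_right two_pos hm)
  simpa [Real.log_pow] using this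

lemma sum_log_le {m : ℕ} (hm : 1 ≤ m) : ∑ p ∈ PS (2 ^ m), Real.log p ≤ 6 * 2 ^ m := by
  have h1 := sum_le_card_nsmul _ _ _ fun p (hp : p ∈ PS (2 ^ m)) => log_le_of_PS hp
  have h2 : (1 : ℝ) ≤ m := by exact_mod_cast hm
  have h3 := Real.log_pos one_lt_two
  rw [nsmul_eq_mul] at h1
  refine h1.trans ((mul_le_mul_of_nonneg_right (card_PS_pow hm) (by positivity)).trans ?_)
  rw [div_mul_eq_mul_div, div_le_iff₀ (by positivity)]
  have : (0 : ℝ) < 2 ^ m * Real.log 2 := by positivity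
  nlinarith

lemma PS_disjoint {m m' : ℕ} (h : m ≠ m') : Disjoint (PS (2 ^ m)) (PS (2 ^ m')) := by
  wlog hlt : m < m' generalizing m m'
  · exact (this h.symm (by omega)).symm
  refine disjoint_left.2 fun p hp hp' => ?_
  have h1 := (mem_PS.1 hp).1.2
  have h2 := (mem_PS.1 hp').1.1
  have h3 : 2 ^ (m + 1) ≤ 2 ^ m' := Nat.pow_le_pow_right two_pos hlt
  rw [pow_succ'] at h3
  omega

lemma sum_log_succ_le (m : ℕ) : ∑ p ∈ PS (2 ^ m), Real.log ((range (p + 1)).card) ≤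
    ∑ p ∈ PS (2 ^ m), Real.log p + 1 := by
  have h1 : ∀ p ∈ PS (2 ^ m), Real.log ((range (p + 1)).card) ≤ Real.log p + 1 / 2 ^ m := by
    intro p hp
    obtain ⟨⟨h1, -⟩, h3, -⟩ := mem_PS.1 hp
    have h4 : (0 : ℝ) < p := by exact_mod_cast h3.pos
    have h5 : (2 : ℝ) ^ m ≤ p := by exact_mod_cast h1.le
    have h6 := Real.log_le_sub_one_of_pos (x := (p + 1) / p) (by positivity)
    rw [Real.log_div (by positivity) h4.ne', add_div, div_self h4.ne'] at h6
    rw [card_range]; push_cast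
    linarith [one_div_le_one_div_of_le (by positivity) h5]
  refine (sum_le_sum h1).trans ?_
  rw [sum_add_distrib, sum_const, nsmul_eq_mul]
  have h2 : ((PS (2 ^ m)).card : ℝ) ≤ 2 ^ m := by exact_mod_cast card_PS_le _
  have : ((PS (2 ^ m)).card : ℝ) * (1 / 2 ^ m) ≤ 1 := by
    rw [mul_one_div, div_le_one (by positivity)]; exact h2
  linarith

lemma ent_defect {n Q D Δ x : ℝ} (hn : 0 ≤ n) (hn' : n ≤ 9 * Q) (hQ : 0 < Q) (hD : 0 < D)
    (hΔ : 0 < Δ) (hx : 0 ≤ x) :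
    n * (Real.log Δ + x - Real.log (n ^ 2 / (D * Q ^ 2 / Δ))) ≤ Q * (9 * x + 9 * |Real.log D| + 2) := by
  rcases hn.eq_or_lt with rfl | hn
  · rw [zero_mul]; positivity
  have h1 : Real.log (n ^ 2 / (D * Q ^ 2 / Δ)) = Real.log Δ - Real.log D - 2 * Real.log (Q / n) := by
    rw [Real.log_div (by positivity) (by positivity), Real.log_div (by positivity) hΔ.ne',
      Real.log_mul hD.ne' (by positivity), Real.log_div hQ.ne' hn.ne', Real.log_pow, Real.log_pow]
    push_cast; ring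
  have h2 : n * Real.log (Q / n) ≤ Q := by
    have := mul_le_mul_of_nonneg_left (Real.log_le_sub_one_of_pos (x := Q / n) (by positivity)) hn.le
    rw [mul_sub, mul_div_cancel₀ _ hn.ne'] at this
    linarith
  have h3 : n * (x + Real.log D) ≤ 9 * Q * (x + |Real.log D|) :=
    (mul_le_mul_of_nonneg_left (by linarith [le_abs_self (Real.log D)]) hn.le).trans
      (mul_le_mul_of_nonneg_right hn' (by positivity))
  rw [h1]
  nlinarith

open Classical in
lemma tree_app (α : Type) [Fintype α] [Nonempty α] {K' K₃ : ℝ} (hK' : 1 ≤ K') (hK₃ : 1 ≤ K₃) :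
    ∃ (C : ℝ) (E : ℕ), 0 ≤ C ∧ ∀ (e₀ T R : ℕ) (Q τ : ℝ) (x : G × G → G → α) (Φ : α → α → ℝ)
      (u : ℕ → ℕ → ℝ), R < T → 4 * (((T : ℝ) + 1) ^ 2 * 2 ^ T) ≤ Real.log Q → 1 ≤ Q → 0 ≤ τ →
      τ * (250 * K' ^ 3 * 2 ^ e₀) ≤ 1 → (∀ a b, |Φ a b| ≤ 1) →
      (∀ m, ∀ p ∈ PS (2 ^ m), |u m p| ≤ 1) →
      ∑ r ∈ range (R + 1), |∑ p ∈ PS (2 ^ (T - r)), τ * u (T - r) p * ∑ e ∈ FarG Q K₃,
          ∑ v ∈ range (2 ^ r), Z0 (Wn (2 ^ (T + e₀)) K' r v) Φ p (x e) (ln p (co e (gp p)))| ≤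
        81 * Q * (K' * 2 ^ (T + e₀)) * Real.log (Fintype.card α) +
          2 ^ R * Q * (9 * (T + 1) + C + E * Real.log (1 + Real.log Q)) +
          45 * Q * 2 ^ T * (τ * (250 * K' ^ 3 * 2 ^ e₀)) ^ 2 *
            ∑ r ∈ range (R + 1), 1 / ((T - r : ℕ) : ℝ) := by
  obtain ⟨C, E, hC, H⟩ := collision K₃ hK₃
  refine ⟨9 * |Real.log C| + 2, 9 * E, by positivity,
    fun e₀ T R Q τ x Φ u hR hQ hQ1 hτ hb hΦ hu => ?_⟩
  set b := τ * (250 * K' ^ 3 * 2 ^ e₀) with hbdef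
  set S := (range (R + 1)).biUnion fun r => PS (2 ^ (T - r)) with hS
  have hdis : Set.PairwiseDisjoint (↑(range (R + 1))) fun r => PS (2 ^ (T - r)) := by
    intro r hr r' hr' hne
    have h1 := mem_range.1 (mem_coe.1 hr)
    have h2 := mem_range.1 (mem_coe.1 hr')
    exact PS_disjoint (by omega)
  have hSp : ∀ p ∈ S, p.Prime ∧ p % 4 = 1 := fun p hp => by
    obtain ⟨r, -, hr⟩ := mem_biUnion.1 hp
    exact (mem_PS.1 hr).2
  set Δ : ℝ := ∏ p ∈ S, (p : ℝ) with hΔ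
  have hΔ0 : 0 < Δ := prod_pos fun p hp => by exact_mod_cast (hSp p hp).1.pos
  have hlogΔ : Real.log Δ = ∑ r ∈ range (R + 1), ∑ p ∈ PS (2 ^ (T - r)), Real.log p := by
    rw [hΔ, Real.log_prod fun p hp => by exact_mod_cast (hSp p hp).1.pos.ne', hS, sum_biUnion hdis]
  have hT : (1 : ℝ) ≤ T := by exact_mod_cast (show 1 ≤ T by omega)
  have hRT : (R : ℝ) + 1 ≤ T + 1 := by exact_mod_cast (show R + 1 ≤ T + 1 by omega)
  have hlogΔ' : Real.log Δ ≤ ((T : ℝ) + 1) ^ 2 * 2 ^ T := by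
    rw [hlogΔ]
    refine (sum_le_card_nsmul _ _ (((T : ℝ) + 1) * 2 ^ T) fun r hr => ?_).trans ?_
    · refine (sum_le_card_nsmul _ _ ((T : ℝ) + 1) fun p hp => (log_le_of_PS hp).trans ?_).trans ?_
      · have : ((T - r : ℕ) : ℝ) ≤ T := by exact_mod_cast Nat.sub_le _ _
        nlinarith [log_two_le, Real.log_pos one_lt_two, (Nat.cast_nonneg (T - r) : (0 : ℝ) ≤ _)]
      · rw [nsmul_eq_mul, mul_comm]
        refine mul_le_mul_of_nonneg_left ?_ (by positivity)
        exact_mod_cast (card_PS_le _).trans (Nat.pow_le_pow_right two_pos (Nat.sub_le _ _))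
    · rw [card_range, nsmul_eq_mul]; push_cast
      nlinarith [mul_le_mul_of_nonneg_right hRT (show (0 : ℝ) ≤ (T + 1) * 2 ^ T by positivity)]
  have hQ0 : 0 < Q := by linarith
  have hl1 : 1 ≤ Real.log Q := by
    have : (1 : ℝ) ≤ (T + 1) ^ 2 * 2 ^ T :=
      one_le_mul_of_one_le_of_one_le (one_le_pow₀ (by linarith)) (one_le_pow₀ one_le_two)
    linarith
  have hQ2 : 2 ≤ Q := by linarith [Real.log_le_sub_one_of_pos hQ0]
  have hΔ4 : Δ ^ 4 ≤ Q := by
    rw [← Real.log_le_log_iff (by positivity) hQ0, Real.log_pow]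
    push_cast; linarith
  have hcoll := H Q S hSp hQ2 hΔ4
  set D := C * (1 + Real.log Q) ^ E with hD
  have hD0 : 0 < D := by positivity
  have key := tree (FarG Q K₃) x R (fun r v => Wn (2 ^ (T + e₀)) K' r v)
    (fun r _ v _ h hh => Wn_child hh) (fun r => PS (2 ^ (T - r))) (fun p => range (p + 1))
    (fun p => nonempty_range_add_one) (fun e p => ln p (co e (gp p)))
    (fun e _ r _ p hp => mem_range.2 (ln_lt (mem_PS.1 hp).2.1 _))
    (fun r v p ξ y => τ * u (T - r) p * Z0 (Wn (2 ^ (T + e₀)) K' r v) Φ p ξ y) (fun _ => b)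
    (fun _ _ => hb) (fun r v p ξ ξ' h => by simp only [Z0_congr _ Φ p h])
    (fun r _ v _ p hp ξ => by rw [← mul_sum, sum_Z0 _ _ (mem_PS.1 hp).2.1, mul_zero])
    (fun r hr v _ p hp ξ y _ => by
      have h1 := abs_Z0_le (r := r) (e₀ := e₀) (v := v) hK' hp hΦ ξ y
      rw [show r + (T - r) + e₀ = T + e₀ by omega] at h1
      rw [abs_mul, abs_mul, abs_of_nonneg hτ]
      exact mul_le_mul (mul_le_of_le_one_right hτ (hu _ p hp)) h1 (abs_nonneg _) hτ)
    (Cc := D * Q ^ 2 / Δ) (by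
      rw [le_div_iff₀ hΔ0]
      refine le_trans (mul_le_mul_of_nonneg_right ?_ hΔ0.le) (hcoll.trans (le_of_eq (by ring)))
      refine Nat.cast_le.2 (card_le_card fun z hz => ?_)
      obtain ⟨h1, h2⟩ := mem_filter.1 hz
      refine mem_filter.2 ⟨h1, fun p hp => ?_⟩
      obtain ⟨r, hr, hp'⟩ := mem_biUnion.1 hp
      obtain ⟨h3, h4⟩ := mem_product.1 h1
      exact gp_dvd_eta (hSp p hp).1 (hSp p hp).2 (det_of_FarG h3) (det_of_FarG h4)
        (h2 r (by have := mem_range.1 hr; omega) p hp'))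
  refine le_trans (le_of_eq (sum_congr rfl fun r _ => ?_)) (key.trans ?_)
  · refine congrArg abs ?_
    simp only [mul_sum]
    rw [sum_comm]
    exact sum_congr rfl fun e _ => sum_comm
  clear key hcoll H
  have hn0 : (0 : ℝ) ≤ (FarG Q K₃).card := Nat.cast_nonneg _
  have hn9 := card_FarG_le hQ0.le K₃
  generalize ((FarG Q K₃).card : ℝ) = n at hn0 hn9 ⊢
  have hc : 0 ≤ Real.log (Fintype.card α) := Real.log_natCast_nonneg _
  rw [mul_add, mul_add]
  refine add_le_add (add_le_add ?_ ?_) ?_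
  · calc _ ≤ 9 * Q * (9 * (K' * 2 ^ (T + e₀)) * Real.log (Fintype.card α)) :=
        mul_le_mul hn9 (mul_le_mul_of_nonneg_right
          (sum_card_Wn_le (by positivity) (by positivity) R) hc)
          (mul_nonneg (sum_nonneg fun _ _ => Nat.cast_nonneg _) hc) (by positivity)
      _ = _ := by ring
  · have h1 : ∑ r ∈ range (R + 1), ∑ p ∈ PS (2 ^ (T - r)), Real.log ((range (p + 1)).card) ≤
        Real.log Δ + (T + 1) := by
      refine (sum_le_sum fun r _ => sum_log_succ_le _).trans ?_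
      rw [sum_add_distrib, ← hlogΔ, sum_const, card_range, nsmul_eq_mul]; push_cast; linarith
    have h2 := ent_defect hn0 hn9 hQ0 hD0 hΔ0 (show (0 : ℝ) ≤ T + 1 by positivity)
    have h3 : |Real.log D| ≤ |Real.log C| + E * Real.log (1 + Real.log Q) := by
      rw [hD, Real.log_mul hC.ne' (by positivity), Real.log_pow]
      refine (abs_add_le _ _).trans (le_of_eq ?_)
      rw [abs_of_nonneg (a := (E : ℝ) * _) (mul_nonneg (Nat.cast_nonneg _)
        (Real.log_nonneg (by linarith)))]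
    rw [mul_left_comm, mul_assoc _ Q]
    refine mul_le_mul_of_nonneg_left (le_trans (mul_le_mul_of_nonneg_left (sub_le_sub_right h1 _) hn0)
      (h2.trans (mul_le_mul_of_nonneg_left ?_ hQ0.le))) (by positivity)
    push_cast; linarith
  · have h1 : ∑ r ∈ range (R + 1), 2 ^ r * ((PS (2 ^ (T - r))).card : ℝ) * b ^ 2 ≤
        5 * 2 ^ T * b ^ 2 * ∑ r ∈ range (R + 1), 1 / ((T - r : ℕ) : ℝ) := by
      rw [mul_sum]
      refine sum_le_sum fun r hr => ?_
      have h2 : 1 ≤ T - r := by have := mem_range.1 hr; omega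
      have h3 : (0 : ℝ) < (T - r : ℕ) := by exact_mod_cast h2
      have h4 : (2 : ℝ) ^ T = 2 ^ r * 2 ^ (T - r) := by
        rw [← pow_add]; congr 1; omega
      have h5 : ((PS (2 ^ (T - r))).card : ℝ) ≤ 5 * 2 ^ (T - r) / (T - r : ℕ) := by
        refine (card_PS_pow h2).trans ?_
        rw [div_le_div_iff₀ (by have := Real.log_pos one_lt_two; positivity) h3]
        have : (0 : ℝ) < 2 ^ (T - r) * (T - r : ℕ) := by positivity
        nlinarith [Real.log_two_gt_d9]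
      calc _ ≤ 2 ^ r * (5 * 2 ^ (T - r) / (T - r : ℕ)) * b ^ 2 := by gcongr
        _ = _ := by rw [h4]; ring
    calc _ ≤ 9 * Q * (5 * 2 ^ T * b ^ 2 * ∑ r ∈ range (R + 1), 1 / ((T - r : ℕ) : ℝ)) :=
          mul_le_mul hn9 h1 (sum_nonneg fun _ _ => by positivity) (by positivity)
      _ = _ := by ring

end Pool.Agent.P.MP_a1177c_nt.LC.DecAux
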