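import Pool.Agent.P.MP_a1177c_nt.LC.Cone

namespace Pool.Agent.P.MP_a1177c_nt.LC

open Finset Filter MR MR.StructAux
open scoped ComplexConjugate Topology

namespace DecGeoAux

/-- The linear form of the `j`-th wall at resolution `R`. -/
def lm (R j : ℤ) (h : G) : ℤ := R * h.im - j * (h.re + h.im)

lemma nm_le_of_mem_An {X₀ X : ℝ} {w : G} (h : w ∈ An X₀ X) : (nm w : ℝ) ≤ X := by
  obtain ⟨h1, h2⟩ := mem_disc.1 (An_subset_disc _ _ h)
  have h5 : 0 < ⌊X⌋₊ := (nm_pos h1).trans_le h2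
  exact (Nat.le_floor_iff (zero_le_one.trans (Nat.floor_pos.1 h5))).1 h2

lemma mem_Bx {L K : ℝ} {h : G} :
    h ∈ Bx L K ↔ h ∈ An (L / K) (K * L) ∧ 1 ≤ h.re ∧ 1 ≤ h.im := mem_filter

lemma mem_Wn {L K : ℝ} {r v : ℕ} {h : G} :
    h ∈ Wn L K r v ↔ h ∈ Bx L K ∧ 0 ≤ lm (2 ^ r) v h ∧ lm (2 ^ r) (v + 1) h < 0 := by
  rw [Wn, mem_filter]
  refine and_congr_right fun hb => ?_
  obtain ⟨-, h1, h2⟩ := mem_Bx.1 hb
  rw [Int.ediv_eq_iff_of_pos (by omega), lm, lm]
  constructor <;> rintro ⟨h3, h4⟩ <;> constructor <;> linarith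

lemma det_lm (R j : ℤ) (h k : G) :
    R * det h k = (h.re + h.im) * lm R j k - (k.re + k.im) * lm R j h := by
  simp only [det, lm]; ring

lemma sum_sq_le (h : G) : ((h.re : ℝ) + h.im) ^ 2 ≤ 2 * nm h := by
  rw [nm_real]; nlinarith [sq_nonneg ((h.re : ℝ) - h.im)]

lemma dot_act (e : G × G) (h k : G) : dot (act e h) (act e k) =
    h.re * k.re * nm e.1 + (h.re * k.im + h.im * k.re) * dot e.1 e.2 + h.im * k.im * nm e.2 := by
  simp [nm_int, act, dot, Zsqrtd.re_mul, Zsqrtd.im_mul]; ring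

lemma three (D w w' : G) : det D w' * nm w = det D w * dot w w' + det w w' * dot D w := by
  simp only [nm_int, det, dot]; ring

lemma far_det {Q : ℝ} {e : G × G} (he : e ∈ Far Q) : det e.1 e.2 = 1 := (mem_filter.1 he).2.1

lemma far_of_farG {Q K : ℝ} {e : G × G} (he : e ∈ FarG Q K) : e ∈ Far Q := (mem_filter.1 he).1

lemma inCone_act {e : G × G} (he : det e.1 e.2 = 1) {h : G} (h1 : 1 ≤ h.re) (h2 : 1 ≤ h.im) :
    InCone e (act e h) := by
  have h3 := co_act he h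
  rw [← h3] at h1 h2
  exact ⟨h1, h2⟩

lemma co_mem_Bx {N L K K₃ : ℝ} (hN : 0 < N) (hL : 0 < L) (hK : 1 ≤ K) (hK₃ : 1 ≤ K₃) {e : G × G}
    (he : e ∈ FarG (N / L) K₃) {w : G} (hw : w ∈ An (N / K) (K * N)) (h : InCone e w) :
    co e w ∈ Bx L (2 * K * K₃) := by
  obtain ⟨h1, h2⟩ := nm_co_bounds (by positivity) (by positivity) he h
  obtain ⟨h3, h4, h5⟩ := (mem_An (by positivity)).1 hw
  have h0 : (0 : ℝ) ≤ nm (co e w) := Nat.cast_nonneg _
  refine mem_Bx.2 ⟨(mem_An (by positivity)).2 ⟨by rw [cont_co (far_det (far_of_farG he)), h3],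
    ?_, ?_⟩, h⟩
  · have h6 := h4.trans_le h1
    rw [div_lt_iff₀ (by positivity)] at h6 ⊢
    have h7 : N * L < N * (nm (co e w) * (2 * K)) := by
      refine (mul_lt_mul_of_pos_right h6 hL).trans_le (le_of_eq ?_)
      field_simp
    refine (lt_of_mul_lt_mul_left h7 hN.le).trans_le ?_
    exact mul_le_mul_of_nonneg_left (le_mul_of_one_le_right (by positivity) hK₃) h0
  · have h6 := h2.trans h5
    have h7 : N * nm (co e w) ≤ N * (K * K₃ * L) := by
      refine le_trans (le_of_eq ?_) ((mul_le_mul_of_nonneg_right h6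
        (show 0 ≤ K₃ * L by positivity)).trans (le_of_eq (by ring)))
      field_simp
    refine (le_of_mul_le_mul_left h7 hN).trans ?_
    have : 0 ≤ K * K₃ * L := by positivity
    linarith

/-- Either both points lie in one window or the first one is close to a wall. -/
lemma dichotomy {N L K K₃ : ℝ} (hN : 0 < N) (hL : 0 < L) (hK : 1 ≤ K) (hK₃ : 1 ≤ K₃) {e : G × G}
    (he : e ∈ FarG (N / L) K₃) {w w' : G} (hw : w ∈ An (N / K) (K * N))
    (hw' : w' ∈ An (N / K) (K * N)) (h : InCone e w) {p : ℕ} (hp : 0 < p) (hpN : 2 * K * p ≤ N)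
    (hd : det w w' = p) (hdot : 0 < dot w w') (r : ℕ) : ∃ v ∈ range (2 ^ r),
      (co e w ∈ Wn L (2 * K * K₃) r v ∧ co e w' ∈ Wn L (2 * K * K₃) r v) ∨
      (lm (2 ^ r) (v + 1) (co e w) : ℝ) ^ 2 * L ≤ 2 * K * (p * 2 ^ r) ^ 2 := by
  have hF := far_of_farG he
  have h1 := far_det hF
  have hB := far_dot hF
  obtain ⟨-, hQ1, hQ2, -⟩ := (mem_Far (by positivity)).1 hF
  have hb := co_mem_Bx hN hL hK hK₃ he hw h
  obtain ⟨-, hx, hy⟩ := mem_Bx.1 hb
  have hR : (0 : ℤ) < 2 ^ r := by positivity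
  have hs : 0 < (co e w).re + (co e w).im := by omega
  obtain ⟨v, hv⟩ := Int.eq_ofNat_of_zero_le
    (Int.ediv_nonneg (a := 2 ^ r * (co e w).im) (by positivity) hs.le)
  have hW : co e w ∈ Wn L (2 * K * K₃) r v := mem_filter.2 ⟨hb, hv⟩
  obtain ⟨-, hl0, hl1⟩ := mem_Wn.1 hW
  have hvR : (v : ℤ) < 2 ^ r := by
    rw [lm] at hl0
    by_contra hc
    push Not at hc
    nlinarith
  have hv0 : (0 : ℤ) ≤ v := Int.natCast_nonneg v
  have hw0 : (0 : ℤ) < nm w := by exact_mod_cast nm_pos (ne_of_mem_An hw)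
  have key : ∀ j : ℤ, lm (2 ^ r) j (co e w') * nm w =
      lm (2 ^ r) j (co e w) * dot w w' + p * dot (act e ⟨2 ^ r - j, j⟩) w := by
    intro j
    have h2 : ∀ u, det (act e ⟨2 ^ r - j, j⟩) u = lm (2 ^ r) j (co e u) := fun u => by
      conv_lhs => rw [← act_co h1 u, det_act, h1]
      simp only [det, lm]; ring
    rw [← h2, ← h2, three, hd]
  have hD : ∀ j : ℤ, 0 ≤ j → j ≤ 2 ^ r → 0 ≤ dot (act e ⟨2 ^ r - j, j⟩) w := fun j h2 h3 => by
    have h4 : 0 ≤ 2 ^ r - j := by omega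
    have h5 : 0 ≤ (co e w).re := by omega
    have h6 : 0 ≤ (co e w).im := by omega
    rw [← act_co h1 w, dot_act]
    dsimp only
    positivity
  refine ⟨v, mem_range.2 (by exact_mod_cast hvR), ?_⟩
  have h2 : 0 ≤ lm (2 ^ r) v (co e w') := by
    refine nonneg_of_mul_nonneg_left ?_ hw0
    rw [key]
    have := hD v hv0 hvR.le
    positivity
  rcases lt_or_ge (lm (2 ^ r) (v + 1) (co e w')) 0 with h3 | h3
  · refine Or.inl ⟨hW, mem_Wn.2 ⟨co_mem_Bx hN hL hK hK₃ he hw' ?_, h2, h3⟩⟩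
    have h4 := det_co h1 w w'
    rw [hd, det] at h4
    have hp' : (0 : ℤ) < p := by exact_mod_cast hp
    change 1 ≤ (co e w').re ∧ 1 ≤ (co e w').im
    rw [lm] at h2 h3
    have h5 : 0 < (co e w').re + (co e w').im := by linarith
    have h6 : 0 < (co e w').re := by
      by_contra hc
      push Not at hc
      nlinarith
    refine ⟨h6, ?_⟩
    by_contra hc
    push Not at hc
    nlinarith
  · right
    set D := act e ⟨2 ^ r - (v + 1), v + 1⟩ with hDdef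
    set l := lm (2 ^ r) (v + 1) (co e w)
    have h4 : -l * dot w w' ≤ p * dot D w := by
      have := key (v + 1)
      have := mul_nonneg h3 hw0.le
      linarith
    have h5 : ((l : ℝ) * dot w w') ^ 2 ≤ (p * dot D w) ^ 2 := by
      have h6 : (-l * dot w w') ^ 2 ≤ (p * dot D w) ^ 2 :=
        pow_le_pow_left₀ (mul_nonneg (by omega) hdot.le) h4 2
      rw [neg_mul, neg_sq] at h6
      exact_mod_cast h6
    have h6 : (dot D w : ℝ) ^ 2 ≤ nm D * nm w := by
      have h7 : (dot D w : ℝ) ^ 2 + (det D w : ℝ) ^ 2 = nm D * nm w := by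
        exact_mod_cast dot_sq_add_det_sq D w
      nlinarith [sq_nonneg (det D w : ℝ)]
    have h7 : (dot e.1 e.2 : ℝ) ≤ N / L := by
      have h8 : (dot e.1 e.2 : ℝ) ^ 2 + (det e.1 e.2 : ℝ) ^ 2 = nm e.1 * nm e.2 := by
        exact_mod_cast dot_sq_add_det_sq e.1 e.2
      refine (abs_le_of_sq_le_sq' ?_ (by positivity)).2
      have := mul_le_mul hQ1 hQ2 (Nat.cast_nonneg _) (by positivity)
      nlinarith [sq_nonneg (det e.1 e.2 : ℝ)]
    have h8 : (nm D : ℝ) ≤ (2 ^ r) ^ 2 * (N / L) := by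
      have h9 : (nm D : ℝ) = (2 ^ r - (v + 1)) ^ 2 * nm e.1 +
          2 * (2 ^ r - (v + 1)) * (v + 1) * dot e.1 e.2 + (v + 1) ^ 2 * nm e.2 := by
        exact_mod_cast nm_act e ⟨2 ^ r - (v + 1), v + 1⟩
      have h10 : (0 : ℝ) ≤ 2 ^ r - (v + 1) := by
        have : (v : ℤ) + 1 ≤ 2 ^ r := hvR
        rw [sub_nonneg]
        exact_mod_cast this
      rw [h9]
      refine le_trans (b := (2 ^ r - (v + 1)) ^ 2 * (N / L) +
        2 * (2 ^ r - (v + 1)) * (v + 1) * (N / L) + (v + 1) ^ 2 * (N / L)) (by gcongr)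
        (le_of_eq (by ring))
    obtain ⟨-, h9, -⟩ := (mem_An (by positivity)).1 hw
    obtain ⟨-, h10, -⟩ := (mem_An (by positivity)).1 hw'
    have hw1 : (0 : ℝ) < nm w := by exact_mod_cast hw0
    have h11 : nm w * (N / K) / 2 ≤ (dot w w' : ℝ) ^ 2 := by
      have h12 : (dot w w' : ℝ) ^ 2 + (p : ℝ) ^ 2 = nm w * nm w' := by
        have := dot_sq_add_det_sq w w'
        rw [hd] at this
        exact_mod_cast this
      have h13 : 2 * (p : ℝ) ≤ N / K := by rw [le_div_iff₀ (by positivity)]; linarith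
      have h14 : (2 * (p : ℝ)) * (2 * p) ≤ nm w * (N / K) :=
        mul_le_mul (h13.trans h9.le) h13 (by positivity) hw1.le
      have h15 := mul_le_mul_of_nonneg_left h10.le hw1.le
      nlinarith [sq_nonneg (p : ℝ)]
    have h12 : (l : ℝ) ^ 2 * (nm w * (N / K) / 2) ≤ p ^ 2 * ((2 ^ r) ^ 2 * (N / L) * nm w) := by
      rw [mul_pow, mul_pow] at h5
      refine (mul_le_mul_of_nonneg_left h11 (sq_nonneg _)).trans (h5.trans ?_)
      exact mul_le_mul_of_nonneg_left (h6.trans (by gcongr)) (sq_nonneg _)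
    refine le_of_mul_le_mul_right (a := nm w * (N / K) / (2 * L)) ?_ (by positivity)
    refine le_trans (le_of_eq ?_) (h12.trans (le_of_eq ?_)) <;> field_simp

lemma wall_det {L K K' P : ℝ} (hK : 0 ≤ K) (hK' : K ≤ K') (hP : 0 ≤ P) {R j : ℤ}
    (hR : 0 < R) {h k : G} (hh : h ∈ Bx L K') (hk : k ∈ Bx L K')
    (h1 : (lm R j h : ℝ) ^ 2 * L ≤ 2 * K * (P * R) ^ 2)
    (h2 : (lm R j k : ℝ) ^ 2 * L ≤ 2 * K * (P * R) ^ 2) : |(det h k : ℝ)| ≤ 4 * K' * P := by
  have hR' : (0 : ℝ) < R := by exact_mod_cast hR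
  have hK0 : 0 ≤ K' := hK.trans hK'
  have key : ∀ {a b : G}, a ∈ Bx L K' → (lm R j b : ℝ) ^ 2 * L ≤ 2 * K * (P * R) ^ 2 →
      |((a.re : ℝ) + a.im) * lm R j b| ≤ 2 * K' * (P * R) := by
    intro a b ha hb
    refine abs_le_of_sq_le_sq ?_ (by positivity)
    have h3 := (sum_sq_le a).trans
      (mul_le_mul_of_nonneg_left (nm_le_of_mem_An (mem_Bx.1 ha).1) zero_le_two)
    rw [mul_pow]
    calc _ ≤ 2 * (K' * L) * (lm R j b : ℝ) ^ 2 := by gcongr
      _ = 2 * K' * ((lm R j b : ℝ) ^ 2 * L) := by ring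
      _ ≤ 2 * K' * (2 * K' * (P * R) ^ 2) := by
          refine mul_le_mul_of_nonneg_left (hb.trans ?_) (by positivity)
          gcongr
      _ = _ := by ring
  have h3 : (R : ℝ) * det h k = (h.re + h.im) * lm R j k - (k.re + k.im) * lm R j h := by
    exact_mod_cast det_lm R j h k
  have h4 := abs_sub (((h.re : ℝ) + h.im) * lm R j k) ((k.re + k.im) * lm R j h)
  rw [← h3, abs_mul, abs_of_pos hR'] at h4
  refine le_of_mul_le_mul_left ?_ hR'
  linarith [key hh h2, key hk h1]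

open Classical in
/-- Points of good cones that are close to a wall. -/
lemma card_wall {N L K K₃ : ℝ} (hN : 0 < N) (hL : 0 < L) (hK : 1 ≤ K) (hK₃ : 1 ≤ K₃) {p d : ℕ}
    (hd : 0 < d) (hdp : d ≤ p) (r : ℕ) (T : Finset G) (hT : T ⊆ An (N / K) (K * N))
    (h1 : ∀ w ∈ T, ∃ e ∈ FarG (N / L) K₃, ∃ v ∈ range (2 ^ r), InCone e w ∧
      (lm (2 ^ r) (v + 1) (co e w) : ℝ) ^ 2 * L ≤ 2 * K * (p * 2 ^ r) ^ 2)
    (h2 : ∀ w ∈ T, ∀ w' ∈ T, (d : ℤ) ∣ det w w') :
    (T.card : ℝ) ≤ 9 * (N / L) * 2 ^ r * (9 * (2 * K * K₃) * (p / d) * (5 * K)) := by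
  have hd' : (0 : ℝ) < d := by exact_mod_cast hd
  have hpd : (1 : ℝ) ≤ p / d := by rw [one_le_div hd']; exact_mod_cast hdp
  have hK' : K ≤ 2 * K * K₃ := by nlinarith
  let U : (G × G) × ℕ → Finset G := fun z => T.filter fun w => InCone z.1 w ∧
    (lm (2 ^ r) (z.2 + 1) (co z.1 w) : ℝ) ^ 2 * L ≤ 2 * K * (p * 2 ^ r) ^ 2
  have h3 : T ⊆ (FarG (N / L) K₃ ×ˢ range (2 ^ r)).biUnion U := fun w hw => by
    obtain ⟨e, he, v, hv, h⟩ := h1 w hw
    exact mem_biUnion.2 ⟨(e, v), mem_product.2 ⟨he, hv⟩, mem_filter.2 ⟨hw, h⟩⟩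
  have h4 : ∀ z ∈ FarG (N / L) K₃ ×ˢ range (2 ^ r),
      ((U z).card : ℝ) ≤ 9 * (2 * K * K₃) * (p / d) * (5 * K) := by
    intro z hz
    have he := (mem_product.1 hz).1
    refine (pc (X₀ := N / K) (X := K * N) (V := 4 * (2 * K * K₃) * p) (by positivity) hd
      (by positivity) (fun w hw => ?_) (fun w hw w' hw' => ?_)
      (fun w hw w' hw' => h2 w (mem_filter.1 hw).1 w' (mem_filter.1 hw').1)).trans ?_
    · obtain ⟨a, b, c⟩ := (mem_An (by positivity)).1 (hT (mem_filter.1 hw).1)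
      exact ⟨a, b.le, c⟩
    · obtain ⟨a, b, c⟩ := mem_filter.1 hw
      obtain ⟨a', b', c'⟩ := mem_filter.1 hw'
      rw [← det_co (far_det (far_of_farG he))]
      exact wall_det (R := 2 ^ r) (j := z.2 + 1) (by positivity) hK' (by positivity)
        (by positivity) (co_mem_Bx hN hL hK hK₃ he (hT a) b)
        (co_mem_Bx hN hL hK hK₃ he (hT a') b') (by exact_mod_cast c) (by exact_mod_cast c')
    · rw [show K * N / (N / K) = K ^ 2 by field_simp, Real.sqrt_sq (by positivity)]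
      refine mul_le_mul_of_nonneg_right ?_ (by positivity)
      have := one_le_mul_of_one_le_of_one_le (hK.trans hK') hpd
      rw [mul_div_assoc, mul_div_assoc]
      linarith
  have h5 : (T.card : ℝ) ≤ ∑ z ∈ FarG (N / L) K₃ ×ˢ range (2 ^ r), ((U z).card : ℝ) := by
    exact_mod_cast (card_le_card h3).trans card_biUnion_le
  refine h5.trans ((sum_le_card_nsmul _ _ _ h4).trans ?_)
  rw [nsmul_eq_mul, card_product, card_range]
  push_cast
  gcongr
  exact le_trans (by exact_mod_cast card_le_card (filter_subset _ _)) (card_Far_le (by positivity))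

/-- The pair lies in one window of a good cone. -/
def Cap (Q K₃ L K' : ℝ) (r : ℕ) (w w' : G) : Prop :=
  ∃ e ∈ FarG Q K₃, ∃ v ∈ range (2 ^ r), co e w ∈ Wn L K' r v ∧ co e w' ∈ Wn L K' r v

open Classical in
lemma sum_windows (Q K₃ L K' : ℝ) (r : ℕ) (p : ℤ) (A : Finset G) (Ψ : G → G → ℝ)
    (hΨ : ∀ w w', Ψ w w' ≠ 0 → w ∈ A ∧ w' ∈ A) :
    ∑ e ∈ FarG Q K₃, ∑ v ∈ range (2 ^ r), ∑ h ∈ Wn L K' r v, ∑ h' ∈ Wn L K' r v,
        (if det h h' = p then Ψ (act e h) (act e h') else 0) =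
      ∑ w ∈ A, ∑ w' ∈ A,
        if (det w w' = p ∧ 0 < dot w w') ∧ Cap Q K₃ L K' r w w' then Ψ w w' else 0 := by
  simp only [← sum_product']
  rw [sum_sigma']
  refine sum_bij_ne_zero (fun a _ _ => (act a.1.1 a.2.1, act a.1.1 a.2.2)) ?_ ?_ ?_ ?_
  · intro a _ h
    exact mem_product.2 (hΨ _ _ (ite_ne_right_iff.1 h).2)
  · rintro ⟨⟨e, v⟩, h, h'⟩ h₁ - ⟨⟨e', v'⟩, k, k'⟩ h₂ - heq
    simp only [mem_sigma, mem_product, Prod.mk.injEq] at h₁ h₂ heq
    have d1 := far_det (far_of_farG h₁.1.1)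
    have d2 := far_det (far_of_farG h₂.1.1)
    obtain ⟨b1, b2⟩ := mem_filter.1 h₁.2.1
    obtain ⟨b3, b4⟩ := mem_filter.1 h₂.2.1
    have i1 := inCone_act d1 (mem_Bx.1 b1).2.1 (mem_Bx.1 b1).2.2
    have i2 := inCone_act d2 (mem_Bx.1 b3).2.1 (mem_Bx.1 b3).2.2
    rw [← heq.1] at i2
    obtain rfl := cone_unique (far_of_farG h₁.1.1) (far_of_farG h₂.1.1) i1 i2
    obtain rfl : h = k := by rw [← co_act d1 h, heq.1, co_act d1]
    obtain rfl : h' = k' := by rw [← co_act d1 h', heq.2, co_act d1]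
    obtain rfl : v = v' := by exact_mod_cast b2.symm.trans b4
    rfl
  · rintro ⟨w, w'⟩ - h
    obtain ⟨⟨⟨h1, -⟩, e, he, v, hv, h2, h3⟩, h4⟩ := ite_ne_right_iff.1 h
    have d1 := far_det (far_of_farG he)
    refine ⟨⟨(e, v), (co e w, co e w')⟩,
      mem_sigma.2 ⟨mem_product.2 ⟨he, hv⟩, mem_product.2 ⟨h2, h3⟩⟩, ?_, ?_⟩
    · simp only [det_co d1, act_co d1]
      rwa [if_pos h1]
    · simp only [act_co d1]
  · rintro ⟨⟨e, v⟩, h, h'⟩ h₁ h₂
    simp only [mem_sigma, mem_product] at h₁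
    obtain ⟨h3, -⟩ := ite_ne_right_iff.1 h₂
    have d1 := far_det (far_of_farG h₁.1.1)
    have hB := far_dot (far_of_farG h₁.1.1)
    obtain ⟨-, x1, y1⟩ := mem_Bx.1 (mem_Wn.1 h₁.2.1).1
    obtain ⟨-, x2, y2⟩ := mem_Bx.1 (mem_Wn.1 h₁.2.2).1
    have n1 : (0 : ℤ) < nm e.1 := by
      exact_mod_cast nm_pos (ne_zero_of_cont (LC.cont_eq_one_of_det d1).1)
    dsimp only at h3 ⊢
    rw [if_pos h3, if_pos]
    refine ⟨⟨by rw [det_act, d1, mul_one, h3], ?_⟩, e, h₁.1.1, v, h₁.1.2, ?_⟩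
    · rw [dot_act]
      have x1 : 0 < h.re := x1
      have y1 : 0 < h.im := y1
      have x2 : 0 < h'.re := x2
      have y2 : 0 < h'.im := y2
      positivity
    · rw [co_act d1, co_act d1]
      exact h₁.2

end DecGeoAux

open DecGeoAux

theorem Wn_child {L K : ℝ} {r v : ℕ} {h : G} (hh : h ∈ Wn L K r v) :
    h ∈ Wn L K (r + 1) (2 * v) ∨ h ∈ Wn L K (r + 1) (2 * v + 1) := by
  simp only [mem_Wn, lm] at hh ⊢
  obtain ⟨h1, h2, h3⟩ := hh
  push_cast
  rcases lt_or_ge (2 ^ (r + 1) * h.im - (2 * v + 1) * (h.re + h.im)) 0 with h4 | h4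
  · exact Or.inl ⟨h1, by rw [pow_succ]; linarith, h4⟩
  · exact Or.inr ⟨h1, h4, by rw [pow_succ]; linarith⟩

theorem sum_card_Wn_le {L K : ℝ} (hL : 0 ≤ L) (hK : 0 ≤ K) (r : ℕ) :
    ∑ v ∈ range (2 ^ r), ((Wn L K r v).card : ℝ) ≤ 9 * (K * L) := by
  refine le_trans ?_ (card_An_le (L / K) (mul_nonneg hK hL))
  have h1 : ∑ v ∈ range (2 ^ r), (Wn L K r v).card ≤ (An (L / K) (K * L)).card := by
    rw [← card_biUnion fun v _ v' _ hne => disjoint_left.2 fun h h1 h2 => hne (by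
      exact_mod_cast (mem_filter.1 h1).2.symm.trans (mem_filter.1 h2).2)]
    exact card_le_card (biUnion_subset.2 fun v _ =>
      (filter_subset _ _).trans (filter_subset _ _))
  exact_mod_cast h1

theorem abs_det_Wn_le {L K : ℝ} {r v : ℕ} {h h' : G} (hh : h ∈ Wn L K r v)
    (hh' : h' ∈ Wn L K r v) : |(det h h' : ℝ)| ≤ 2 * (K * L) / 2 ^ r := by
  obtain ⟨b, h1, h2⟩ := mem_Wn.1 hh
  obtain ⟨b', h1', h2'⟩ := mem_Wn.1 hh'
  obtain ⟨a, x, y⟩ := mem_Bx.1 b
  obtain ⟨a', x', y'⟩ := mem_Bx.1 b'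
  have h3 : lm (2 ^ r) v h ≤ h.re + h.im := by simp only [lm] at h2 ⊢; linarith
  have h3' : lm (2 ^ r) v h' ≤ h'.re + h'.im := by simp only [lm] at h2' ⊢; linarith
  have h4 : |2 ^ r * det h h'| ≤ (h.re + h.im) * (h'.re + h'.im) := by
    rw [det_lm _ v, abs_le]
    have s : 0 ≤ h.re + h.im := by omega
    have s' : 0 ≤ h'.re + h'.im := by omega
    constructor <;> nlinarith [mul_nonneg s h1', mul_nonneg s' h1,
      mul_le_mul_of_nonneg_left h3' s, mul_le_mul_of_nonneg_left h3 s']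
  have h5 : |(2 : ℝ) ^ r * det h h'| ≤ (h.re + h.im) * (h'.re + h'.im) := by exact_mod_cast h4
  rw [abs_mul, abs_of_pos (by positivity)] at h5
  rw [le_div_iff₀' (by positivity)]
  nlinarith [sum_sq_le h, sum_sq_le h', nm_le_of_mem_An a, nm_le_of_mem_An a',
    sq_nonneg ((h.re : ℝ) + h.im - (h'.re + h'.im))]

theorem gp_dvd_act_iff {p : ℕ} (hp : p.Prime) (h4 : p % 4 = 1) {e : G × G}
    (he : det e.1 e.2 = 1) {h : G} (hh : cont h = 1) :
    gp p ∣ act e h ↔ ln p h = ln p (co e (gp p)) := by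
  rw [gp_dvd_iff hp h4, ← det_co he, co_act he,
    ln_eq_iff hp hh (by rw [cont_co he, cont_gp hp h4]), MR.det_swap, dvd_neg]

theorem gp_dvd_eta {p : ℕ} (hp : p.Prime) (h4 : p % 4 = 1) {e e' : G × G}
    (he : det e.1 e.2 = 1) (he' : det e'.1 e'.2 = 1)
    (h : ln p (co e (gp p)) = ln p (co e' (gp p))) : gp p ∣ e.2 * e'.1 - e.1 * e'.2 := by
  have hc : cont (co e (gp p)) = 1 := by rw [cont_co he, cont_gp hp h4]
  have h1 : gp p ∣ act e (co e (gp p)) := by rw [act_co he]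
  have h2 := (gp_dvd_act_iff hp h4 he' hc).2 h
  obtain ⟨x, y, hxy⟩ := bezout_of_cont hc
  have h3 : ((co e (gp p)).re : G) * x + ((co e (gp p)).im : G) * y = 1 := by exact_mod_cast hxy
  have h5 : e.2 * e'.1 - e.1 * e'.2 = (y * e'.1 - x * e'.2) * act e (co e (gp p)) +
      (x * e.2 - y * e.1) * act e' (co e (gp p)) := by
    simp only [act]
    linear_combination (e.1 * e'.2 - e.2 * e'.1) * h3
  rw [h5]
  exact dvd_add (h1.mul_left _) (h2.mul_left _)

open Classical in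
/-- Most pairs of small prime determinant lie in one window of a good cone. -/
theorem capture (K ε : ℝ) (hK : 1 ≤ K) (hε : 0 < ε) : ∃ (K₃ : ℝ) (e₀ : ℕ), 4 ≤ K₃ ∧
    ∀ (N : ℝ) (r m p : ℕ) (Ψ : G → G → ℝ), p ∈ PS (2 ^ m) →
      (2 : ℝ) ^ (2 * (r + m + e₀)) ≤ N →
      (∀ w w', |Ψ w w'| ≤ (if gp p ∣ w then (p : ℝ) else 0) + 1) →
      (∀ w w', Ψ w w' ≠ 0 → w ∈ An (N / K) (K * N) ∧ w' ∈ An (N / K) (K * N)) →
      |∑ w ∈ An (N / K) (K * N), ∑ w' ∈ An (N / K) (K * N),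
          (if det w w' = p ∧ 0 < dot w w' then Ψ w w' else 0) -
        ∑ e ∈ FarG (N / 2 ^ (r + m + e₀)) K₃, ∑ v ∈ range (2 ^ r),
          ∑ h ∈ Wn (2 ^ (r + m + e₀)) (2 * K * K₃) r v, ∑ h' ∈ Wn (2 ^ (r + m + e₀)) (2 * K * K₃) r v,
            (if det h h' = p then Ψ (act e h) (act e h') else 0)| ≤ ε * N := by
  obtain ⟨C, hC, hbad⟩ := card_bad_cone
  set s : ℝ := 20 * C * K ^ 3 / ε + 2 with hs
  have hs2 : 2 ≤ s := le_add_of_nonneg_left (by positivity)
  have hK₃ : 4 ≤ s ^ 2 := by nlinarith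
  obtain ⟨e₀, he₀⟩ := pow_unbounded_of_one_lt (16200 * K ^ 2 * (2 * K * s ^ 2) / ε + 4 * K)
    (one_lt_two (α := ℝ))
  refine ⟨s ^ 2, e₀, hK₃, fun N r m p Ψ hp hN hΨ hΨ' => ?_⟩
  obtain ⟨⟨-, hp1⟩, hp2, hp4⟩ := mem_PS.1 hp
  set L : ℝ := 2 ^ (r + m + e₀) with hL
  set A := An (N / K) (K * N) with hA
  have hL1 : 1 ≤ L := one_le_pow₀ one_le_two
  have hL0 : 0 < L := by linarith
  have hLN : L * L ≤ N := by rwa [two_mul, pow_add] at hN
  have hLN' : L ≤ N := by nlinarith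
  have hN0 : 0 < N := by linarith
  have hp0 : (0 : ℝ) < p := by exact_mod_cast hp2.pos
  have hpL : p * 2 ^ r * 2 ^ e₀ ≤ 2 * L := by
    have : (p : ℝ) ≤ 2 * 2 ^ m := by exact_mod_cast hp1
    refine le_trans (b := 2 * 2 ^ m * 2 ^ r * 2 ^ e₀) (by gcongr) (le_of_eq ?_)
    rw [hL]; ring
  have hE : 4 * K < 2 ^ e₀ := lt_of_le_of_lt (le_add_of_nonneg_left (by positivity)) he₀
  have hE' : 16200 * K ^ 2 * (2 * K * s ^ 2) ≤ ε * 2 ^ e₀ := by
    rw [← div_le_iff₀' hε]; linarith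
  have hKp : 2 * K * p ≤ L := by
    have h1 : (1 : ℝ) ≤ 2 ^ r := one_le_pow₀ one_le_two
    have h2 : p * 1 * (4 * K) ≤ p * 2 ^ r * 2 ^ e₀ := by gcongr
    linarith
  have hLQ : L ≤ N / L := (le_div_iff₀ hL0).2 hLN
  let Bad := A.filter fun w => ∃ w' ∈ A, (det w w' = p ∧ 0 < dot w w') ∧
    ¬ Cap (N / L) (s ^ 2) L (2 * K * s ^ 2) r w w'
  have hcard : ∀ (d : ℕ) (T : Finset G), 0 < d → d ≤ p → T ⊆ Bad →
      (∀ w ∈ T, ∀ w' ∈ T, (d : ℤ) ∣ det w w') → 10 * K * (d * T.card) ≤ ε * N := by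
    intro d T hd hdp hT hdv
    have hd' : (0 : ℝ) < d := by exact_mod_cast hd
    have hdp' : (d : ℝ) ≤ p := by exact_mod_cast hdp
    have hTA : T ⊆ A := hT.trans (filter_subset _ _)
    let P : G → Prop := fun w => ∃ e ∈ Far (N / L), e ∉ FarG (N / L) (s ^ 2) ∧ InCone e w
    have h1 := hbad (N / L) (s ^ 2) (N / K) (K * N) d (T.filter P) (hL1.trans hLQ) hK₃
      (by positivity) hd
      (by
        rw [← mul_div_assoc, div_le_iff₀ hL0, mul_right_comm]
        gcongr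
        nlinarith)
      (fun w hw => by
        obtain ⟨a, b, c⟩ := (mem_An (by positivity)).1 (hTA (mem_filter.1 hw).1)
        exact ⟨a, b.le, c⟩)
      (fun w hw => (mem_filter.1 hw).2)
      (fun w hw w' hw' => hdv w (mem_filter.1 hw).1 w' (mem_filter.1 hw').1)
    have h2 := card_wall hN0 hL0 hK (K₃ := s ^ 2) (by linarith) hd hdp r (T.filter fun w => ¬ P w)
      ((filter_subset _ _).trans hTA)
      (fun w hw => by
        obtain ⟨hw1, hw2⟩ := mem_filter.1 hw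
        obtain ⟨hw3, w', hw', ⟨h3, h4⟩, h5⟩ := mem_filter.1 (hT hw1)
        obtain ⟨a, b, -⟩ := (mem_An (by positivity)).1 hw3
        obtain ⟨e, he, hc⟩ := exists_cone (hL1.trans hLQ) a (lt_of_le_of_lt (by
          have : (1 : ℝ) ≤ p := by exact_mod_cast hp2.pos
          gcongr
          nlinarith) b)
        have he' : e ∈ FarG (N / L) (s ^ 2) := by_contra fun h => hw2 ⟨e, he, h, hc⟩
        obtain ⟨v, hv, h6⟩ := dichotomy hN0 hL0 hK (by linarith) he' hw3 hw' hc hp2.pos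
          (hKp.trans hLN') h3 h4 r
        exact ⟨e, he', v, hv, hc, h6.resolve_left fun h => h5 ⟨e, he', v, hv, h⟩⟩)
      (fun w hw w' hw' => hdv w (mem_filter.1 hw).1 w' (mem_filter.1 hw').1)
    rw [show K * N / (N / K) = K ^ 2 by field_simp, Real.sqrt_sq (by positivity),
      Real.sqrt_sq (by positivity)] at h1
    have h3 : (T.card : ℝ) = (T.filter P).card + (T.filter fun w => ¬ P w).card := by
      exact_mod_cast (card_filter_add_card_filter_not P).symm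
    have h4 : 10 * K * (d * (T.filter P).card) ≤ ε * N / 2 := by
      refine le_trans (b := 10 * K * (d * (C * (K * N / d) * K / s))) (by gcongr) ?_
      have h5 : 20 * C * K ^ 3 ≤ ε * s := by rw [← div_le_iff₀' hε]; linarith
      have h6 : 10 * K * (d * (C * (K * N / d) * K / s)) = 20 * C * K ^ 3 * (N / (2 * s)) := by
        field_simp; ring
      rw [h6]
      refine (mul_le_mul_of_nonneg_right h5 (by positivity)).trans (le_of_eq ?_)
      field_simp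
    have h5 : 10 * K * (d * (T.filter fun w => ¬ P w).card) ≤ ε * N / 2 := by
      refine le_trans (b := 10 * K * (d * (9 * (N / L) * 2 ^ r *
        (9 * (2 * K * s ^ 2) * (p / d) * (5 * K))))) (by gcongr) ?_
      have h6 : 10 * K * (d * (9 * (N / L) * 2 ^ r * (9 * (2 * K * s ^ 2) * (p / d) * (5 * K)))) =
          16200 * K ^ 2 * (2 * K * s ^ 2) * (p * 2 ^ r) * (N / (4 * L)) := by
        field_simp; ring
      rw [h6]
      calc _ ≤ ε * 2 ^ e₀ * (p * 2 ^ r) * (N / (4 * L)) := by gcongr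
        _ = ε * (p * 2 ^ r * 2 ^ e₀) * (N / (4 * L)) := by ring
        _ ≤ ε * (2 * L) * (N / (4 * L)) := by gcongr
        _ = _ := by field_simp; ring
    rw [h3, mul_add, mul_add]
    linarith
  have hc1 := hcard 1 Bad one_pos hp2.pos subset_rfl fun _ _ _ _ => one_dvd _
  have hc2 := hcard p (Bad.filter fun w => gp p ∣ w) hp2.pos le_rfl (filter_subset _ _)
    fun w hw w' hw' => by
      have := nm_dvd_det (mem_filter.1 hw).2 (mem_filter.1 hw').2
      rwa [nm_gp hp2 hp4] at this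
  rw [sum_windows _ _ _ _ r p A Ψ hΨ', ← sum_sub_distrib]
  refine (abs_sum_le_sum_abs _ _).trans ?_
  have hrow : ∀ w ∈ A, |∑ w' ∈ A, (if det w w' = p ∧ 0 < dot w w' then Ψ w w' else 0) -
      ∑ w' ∈ A, (if (det w w' = p ∧ 0 < dot w w') ∧ Cap (N / L) (s ^ 2) L (2 * K * s ^ 2) r w w'
        then Ψ w w' else 0)| ≤
      if w ∈ Bad then 5 * K * ((if gp p ∣ w then (p : ℝ) else 0) + 1) else 0 := by
    intro w hw
    rw [← sum_sub_distrib]
    have hnn : 0 ≤ (if gp p ∣ w then (p : ℝ) else 0) + 1 := (abs_nonneg _).trans (hΨ w w)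
    by_cases hb : w ∈ Bad
    · rw [if_pos hb]
      obtain ⟨a, b, c⟩ := (mem_An (by positivity)).1 hw
      have h1 := line_count (ne_of_mem_An hw) c p (A.filter fun w' => det w w' = p)
        fun w' hw' => ⟨(mem_filter.1 hw').2, nm_le_of_mem_An (mem_filter.1 hw').1⟩
      have h2 : √(K * N / nm w) ≤ K := by
        refine Real.sqrt_le_iff.2 ⟨by positivity, ?_⟩
        rw [show K ^ 2 = K * N / (N / K) by field_simp]
        gcongr
      rw [a, Nat.cast_one, mul_one] at h1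
      refine (abs_sum_le_sum_abs _ _).trans (le_trans (sum_le_sum (g := fun w' =>
        if det w w' = p then (if gp p ∣ w then (p : ℝ) else 0) + 1 else 0) fun w' _ => ?_) ?_)
      · have := hΨ w w'
        by_cases h3 : det w w' = p
        · rw [if_pos h3]
          by_cases h4 : (det w w' = p ∧ 0 < dot w w')
          · by_cases h5 : Cap (N / L) (s ^ 2) L (2 * K * s ^ 2) r w w'
            · rwa [if_pos h4, if_pos ⟨h4, h5⟩, sub_self, abs_zero]
            · rwa [if_pos h4, if_neg fun h => h5 h.2, sub_zero]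
          · rwa [if_neg h4, if_neg fun h => h4 h.1, sub_self, abs_zero]
        · rw [if_neg h3, if_neg fun h => h3 h.1, if_neg fun h => h3 h.1.1, sub_self, abs_zero]
      · rw [← sum_filter, sum_const, nsmul_eq_mul]
        exact mul_le_mul_of_nonneg_right (h1.trans (by linarith)) hnn
    · rw [if_neg hb, sum_eq_zero, abs_zero]
      intro w' hw'
      by_cases h4 : (det w w' = p ∧ 0 < dot w w')
      · rw [if_pos h4, if_pos ⟨h4, by_contra fun h => hb (mem_filter.2 ⟨hw, w', hw', h4, h⟩)⟩,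
          sub_self]
      · rw [if_neg h4, if_neg fun h => h4 h.1, sub_self]
  refine (sum_le_sum hrow).trans ?_
  rw [← sum_filter, filter_mem_eq_inter, inter_eq_right.2 (filter_subset _ _), ← mul_sum,
    sum_add_distrib, ← sum_filter, sum_const, sum_const, nsmul_eq_mul, nsmul_eq_mul]
  push_cast at hc1
  linarith

end Pool.Agent.P.MP_a1177c_nt.LC
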