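import Pool.Agent.P.MP_a1177c_nt.LC.DecB

namespace Pool.Agent.P.MP_a1177c_nt.LC

open Finset Filter MR MR.StructAux
open scoped ComplexConjugate Topology

namespace DecAux

lemma ev_sq_le (c : ℝ) : ∀ᶠ n : ℕ in atTop, c * ((n : ℝ) + 1) ^ 2 ≤ 2 ^ n := by
  have h := (tendsto_pow_const_div_const_pow_of_one_lt 2 (one_lt_two (α := ℝ))).const_mul (4 * |c|)
  rw [mul_zero] at h
  filter_upwards [h.eventually (gt_mem_nhds one_pos), eventually_ge_atTop 1] with n h1 h2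
  have h3 : (1 : ℝ) ≤ n := by exact_mod_cast h2
  rw [← mul_div_assoc, div_lt_one (by positivity)] at h1
  have h4 : ((n : ℝ) + 1) ^ 2 ≤ 4 * n ^ 2 := by nlinarith
  calc _ ≤ |c| * (4 * n ^ 2) := mul_le_mul (le_abs_self c) h4 (by positivity) (abs_nonneg _)
    _ ≤ _ := by linarith

lemma log_le_harm {a : ℕ} (ha : 1 ≤ a) (b : ℕ) (hab : a ≤ b + 1) :
    Real.log (b + 1) - Real.log a ≤ ∑ m ∈ Icc a b, (1 : ℝ) / m := by
  induction b with
  | zero => simp [show a = 1 by omega]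
  | succ b ih =>
    rcases hab.eq_or_lt with rfl | h
    · simp
    · rw [sum_Icc_succ_top (by omega)]
      have h1 := Real.log_le_sub_one_of_pos (x := ((b : ℝ) + 1 + 1) / (b + 1)) (by positivity)
      rw [Real.log_div (by positivity) (by positivity), add_div, div_self (by positivity)] at h1
      push_cast
      linarith [ih (by omega)]

lemma log_le_harm' {A T : ℕ} (hA : 1 ≤ A) (hT : A ≤ T) :
    Real.log A ≤ ∑ m ∈ Icc (T / A) T, (1 : ℝ) / m := by
  have h1 : 1 ≤ T / A := (Nat.one_le_div_iff hA).2 hT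
  refine le_trans ?_ (log_le_harm h1 T ((Nat.div_le_self _ _).trans (Nat.le_succ _)))
  rw [le_sub_iff_add_le, ← Real.log_mul (by positivity) (by positivity)]
  refine Real.log_le_log (by positivity) ?_
  exact_mod_cast (Nat.mul_div_le T A).trans (Nat.le_succ _)

lemma sum_reflect {a T : ℕ} (h : a ≤ T) (f : ℕ → ℝ) :
    ∑ m ∈ Icc a T, f m = ∑ r ∈ range (T - a + 1), f (T - r) := by
  refine sum_nbij' (fun m => T - m) (fun r => T - r) ?_ ?_ ?_ ?_ ?_ <;>
    simp only [mem_Icc, mem_range, coe_Icc, coe_range, Set.mem_Icc, Set.mem_Iio] <;> intro x hx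
  · omega
  · omega
  · omega
  · omega
  · congr 1; omega

lemma one_scale {m : ℕ} (hm : 1 ≤ m) {N τ η : ℝ} (hN : 0 < N) (hτ : 0 < τ) (hη : 0 ≤ η)
    (wt D Z : ℕ → ℝ) (hw : ∀ p, 0 ≤ wt p ∧ wt p ≤ 1)
    (h : ∀ p ∈ PS (2 ^ m), |D p - p * Z p| ≤ η * N) :
    |∑ p ∈ PS (2 ^ m), wt p * Real.log p * D p| / (m * 2 ^ m * N) ≤ 6 * η * (1 / m) +
      4 / (τ * N) * |∑ p ∈ PS (2 ^ m), τ * (wt p * p * Real.log p / (2 ^ (m + 1) * (m + 1))) * Z p| := by
  have h1 : (1 : ℝ) ≤ m := by exact_mod_cast hm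
  set S := ∑ p ∈ PS (2 ^ m), τ * (wt p * p * Real.log p / (2 ^ (m + 1) * (m + 1))) * Z p with hS
  have h2 : ∑ p ∈ PS (2 ^ m), wt p * Real.log p * D p =
      ∑ p ∈ PS (2 ^ m), wt p * Real.log p * (D p - p * Z p) + 2 ^ (m + 1) * (m + 1) / τ * S := by
    rw [hS, mul_sum, ← sum_add_distrib]
    refine sum_congr rfl fun p _ => ?_
    field_simp; ring
  have h3 : |∑ p ∈ PS (2 ^ m), wt p * Real.log p * (D p - p * Z p)| ≤ 6 * 2 ^ m * (η * N) := by
    refine (abs_sum_le_sum_abs _ _).trans (le_trans (sum_le_sum fun p hp => ?_)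
      ((sum_mul _ _ _).symm.le.trans (mul_le_mul_of_nonneg_right (sum_log_le hm) (by positivity))))
    have h4 := Real.log_natCast_nonneg p
    rw [abs_mul, abs_of_nonneg (mul_nonneg (hw p).1 h4)]
    exact mul_le_mul (mul_le_of_le_one_left h4 (hw p).2) (h p hp) (abs_nonneg _) h4
  rw [h2, div_le_iff₀ (by positivity)]
  refine (abs_add_le _ _).trans ?_
  rw [abs_mul, abs_of_pos (a := 2 ^ (m + 1) * ((m : ℝ) + 1) / τ) (by positivity), add_mul]
  refine add_le_add (h3.trans (le_of_eq (by field_simp))) ?_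
  have h5 : 2 ^ (m + 1) * ((m : ℝ) + 1) / τ ≤ 4 / (τ * N) * (m * 2 ^ m * N) := by
    rw [show 4 / (τ * N) * (m * 2 ^ m * N) = 2 ^ (m + 1) * (2 * m) / τ by field_simp; ring]
    gcongr; linarith
  nlinarith [mul_le_mul_of_nonneg_right h5 (abs_nonneg S)]

lemma abs_u_le {m p : ℕ} (hp : p ∈ PS (2 ^ m)) {w : ℝ} (hw : 0 ≤ w ∧ w ≤ 1) :
    |w * p * Real.log p / (2 ^ (m + 1) * (m + 1))| ≤ 1 := by
  have h1 := Real.log_natCast_nonneg p
  have h2 : (p : ℝ) ≤ 2 ^ (m + 1) := by rw [pow_succ']; exact_mod_cast (mem_PS.1 hp).1.2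
  have h3 : Real.log p ≤ m + 1 :=
    (log_le_of_PS hp).trans (mul_le_of_le_one_right (by positivity) log_two_le)
  have h4 := hw.1
  rw [abs_of_nonneg (by positivity), div_le_one (by positivity)]
  exact mul_le_mul ((mul_le_of_le_one_left (by positivity) hw.2).trans h2) h3 h1 (by positivity)

end DecAux

open DecAux in
/-- Entropy decrement: divisibility by a Gaussian prime is independent of the colouring. -/
theorem decouple (α : Type) [Fintype α] (K ε : ℝ) (hK : 1 ≤ K) (hε : 0 < ε) :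
    ∃ A : ℕ, 2 ≤ A ∧ ∀ᶠ T : ℕ in atTop, ∀ N : ℝ, Real.exp (4 ^ T) ≤ N → N ≤ Real.exp (64 ^ T) →
      ∀ (σ : G → α) (Φ : α → α → ℝ) (wt : ℕ → ℕ → ℝ), (∀ a b, |Φ a b| ≤ 1) →
        (∀ m p, 0 ≤ wt m p ∧ wt m p ≤ 1) →
        ∑ m ∈ Icc (T / A) T, |Edec N K σ Φ (wt m) m| / (m * 2 ^ m * N) ≤
          ε * ∑ m ∈ Icc (T / A) T, (1 : ℝ) / m := by
  classical
  obtain ⟨K₃, e₀, hK₃, H1⟩ := one_prime K (ε / 30) hK (by positivity)
  set K' := 2 * K * K₃ with hK'def
  have hK' : 1 ≤ K' := by nlinarith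
  obtain ⟨C, E, hC, H2⟩ := tree_app (Option α) hK' (show 1 ≤ K₃ by linarith)
  set B := 250 * K' ^ 3 * 2 ^ e₀ with hB
  have hB1 : 1 ≤ B := by
    have : 1 ≤ K' ^ 3 * 2 ^ e₀ :=
      one_le_mul_of_one_le_of_one_le (one_le_pow₀ hK') (one_le_pow₀ one_le_two)
    linarith
  set τ := min 1 ε / (900 * B ^ 2) with hτ
  have hm0 : 0 < min 1 ε := lt_min one_pos hε
  have hτ0 : 0 < τ := by positivity
  have hτ1 : τ * B ≤ 1 := by
    rw [hτ, div_mul_eq_mul_div, div_le_one (by positivity)]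
    nlinarith [min_le_left 1 ε]
  have hτ2 : 180 * τ * B ^ 2 ≤ ε / 5 := by
    rw [show 180 * τ * B ^ 2 = min 1 ε / 5 by rw [hτ]; field_simp; ring]
    linarith [min_le_right 1 ε]
  set c := Real.log (Fintype.card (Option α)) with hc
  have hc0 : 0 ≤ c := Real.log_natCast_nonneg _
  obtain ⟨A, hA2, hA⟩ := ((eventually_ge_atTop 2).and ((Real.tendsto_log_atTop.comp
    tendsto_natCast_atTop_atTop).eventually_ge_atTop (1 + 1620 * K' * c / (τ * ε)))).exists
  refine ⟨A, hA2, ?_⟩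
  have hdiv := Nat.tendsto_div_const_atTop (show A ≠ 0 by omega)
  filter_upwards [eventually_ge_atTop A, eventually_ge_atTop e₀, ev_sq_le 8,
    hdiv.eventually (ev_sq_le (30 * (405 * K' ^ 2) / ε)),
    hdiv.eventually (ev_sq_le (20 * (A * (9 + C + 5 * E)) / (τ * ε)))] with T hTA hTe h8 h9 h10
    N hN1 hN2 σ Φ wt hΦ hw
  set a := T / A with ha
  have ha1 : 1 ≤ a := (Nat.one_le_div_iff (by omega)).2 hTA
  have haT : a ≤ T := Nat.div_le_self _ _
  have hN0 : 0 < N := (Real.exp_pos _).trans_le hN1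
  have hTe' : (e₀ : ℝ) ≤ T := by exact_mod_cast hTe
  have hT0 : (0 : ℝ) ≤ T := Nat.cast_nonneg _
  have hlogN : 4 ^ T ≤ Real.log N := (Real.le_log_iff_exp_le hN0).2 hN1
  have h4T : 8 * (((T : ℝ) + 1) ^ 2 * 2 ^ T) ≤ 4 ^ T := by
    rw [show (4 : ℝ) ^ T = 2 ^ T * 2 ^ T by rw [← mul_pow]; norm_num, ← mul_assoc]
    exact mul_le_mul_of_nonneg_right h8 (by positivity)
  have h4T' : (T : ℝ) ≤ ((T : ℝ) + 1) ^ 2 * 2 ^ T :=
    le_trans (by nlinarith) (le_mul_of_one_le_right (by positivity) (one_le_pow₀ one_le_two))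
  have hl2 : ((T : ℝ) + e₀) * Real.log 2 ≤ 2 * T :=
    (mul_le_of_le_one_right (by positivity) log_two_le).trans (by linarith)
  have hpow : (2 : ℝ) ^ (2 * (T + e₀)) ≤ N := by
    rw [← Real.log_le_log_iff (by positivity) hN0, Real.log_pow]
    push_cast; linarith
  set Q := N / 2 ^ (T + e₀) with hQ
  have hQ0 : 0 < Q := by positivity
  have hlogQ : Real.log Q = Real.log N - (T + e₀) * Real.log 2 := by
    rw [hQ, Real.log_div hN0.ne' (by positivity), Real.log_pow]; push_cast; ring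
  have hlogQ1 : 4 * (((T : ℝ) + 1) ^ 2 * 2 ^ T) ≤ Real.log Q := by linarith
  have hlogQ0 : 0 ≤ Real.log Q := le_trans (by positivity) hlogQ1
  have hQ1 : 1 ≤ Q := (Real.log_nonneg_iff hQ0).1 hlogQ0
  have hll : Real.log (1 + Real.log Q) ≤ 5 * (T + 1) := by
    have h1 : Real.log N ≤ 64 ^ T := (Real.log_le_iff_le_exp hN0).2 hN2
    have h2 : 0 ≤ ((T : ℝ) + e₀) * Real.log 2 := mul_nonneg (by positivity) (Real.log_nonneg one_le_two)
    have h3 : (1 : ℝ) ≤ 64 ^ T := one_le_pow₀ (by norm_num)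
    have h4 : 1 + Real.log Q ≤ 2 ^ (6 * T + 1) := by
      rw [pow_succ, pow_mul]; norm_num; linarith
    refine (Real.log_le_log (by positivity) h4).trans ?_
    rw [Real.log_pow]; push_cast
    nlinarith [Real.log_two_lt_d9]
  have key := H2 e₀ T (T - a) Q τ (xx (An (N / K) (K * N)) σ) (ext Φ)
    (fun m p => wt m p * p * Real.log p / (2 ^ (m + 1) * (m + 1))) (by omega) hlogQ1 hQ1 hτ0.le hτ1
    (abs_ext_le hΦ) (fun m p hp => abs_u_le hp (hw m p))
  have hH : Real.log A ≤ ∑ m ∈ Icc a T, (1 : ℝ) / m := log_le_harm' (by omega) hTA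
  rw [sum_reflect haT] at hH ⊢
  rw [sum_reflect haT]
  have ha0 : (0 : ℝ) ≤ a := Nat.cast_nonneg _
  have hstep : ∀ r ∈ range (T - a + 1), |Edec N K σ Φ (wt (T - r)) (T - r)| /
      ((T - r : ℕ) * 2 ^ (T - r) * N) ≤ _ := fun r hr =>
    one_scale (η := ε / 15) (by have := mem_range.1 hr; omega) hN0 hτ0 (by positivity) (wt (T - r)) _
      (fun p => ∑ e ∈ FarG Q K₃, ∑ v ∈ range (2 ^ r), Z0 (Wn (2 ^ (T + e₀)) K' r v) (ext Φ) p
        (xx (An (N / K) (K * N)) σ e) (ln p (co e (gp p)))) (hw _) fun p hp => by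
      have hr' := mem_range.1 hr
      have e1 : r + (T - r) + e₀ = T + e₀ := by omega
      have h1 := H1 α N r (T - r) p σ Φ hp (by rw [e1]; exact hpow) hΦ
      rw [e1] at h1
      refine h1.trans ?_
      have h2 : (2 : ℝ) ^ a ≤ 2 ^ (T - r) := pow_le_pow_right₀ one_le_two (by omega)
      have h3 : 30 * (405 * K' ^ 2) / ε ≤ 2 ^ (T - r) :=
        (le_mul_of_one_le_right (by positivity) (one_le_pow₀ (by linarith))).trans (h9.trans h2)
      have h4 : 405 * K' ^ 2 * N / 2 ^ (T - r) ≤ ε / 30 * N := by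
        rw [div_le_iff₀ hε] at h3
        rw [div_le_iff₀ (by positivity)]
        nlinarith [mul_le_mul_of_nonneg_right h3 hN0.le]
      linarith
  refine (sum_le_sum hstep).trans ?_
  rw [sum_add_distrib, ← mul_sum, ← mul_sum]
  have key2 := mul_le_mul_of_nonneg_left key (show 0 ≤ 4 / (τ * N) by positivity)
  refine (add_le_add le_rfl key2).trans ?_
  clear key key2 hstep H1 H2
  generalize ∑ r ∈ range (T - a + 1), 1 / ((T - r : ℕ) : ℝ) = H at hH ⊢
  have hA' : 1 + 1620 * K' * c / (τ * ε) ≤ H := hA.trans hH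
  have hq : 0 ≤ 1620 * K' * c / (τ * ε) := by positivity
  have t1 : 4 / (τ * N) * (81 * Q * (K' * 2 ^ (T + e₀)) * c) ≤ ε / 5 * H := by
    rw [show 4 / (τ * N) * (81 * Q * (K' * 2 ^ (T + e₀)) * c) =
      ε / 5 * (1620 * K' * c / (τ * ε)) by rw [hQ]; field_simp; ring]
    exact mul_le_mul_of_nonneg_left (by linarith) (by positivity)
  have t2 : 4 / (τ * N) * (2 ^ (T - a) * Q * (9 * (T + 1) + C + E * Real.log (1 + Real.log Q))) ≤
      ε / 5 * H := by
    have h1 : (T : ℝ) + 1 ≤ A * (a + 1) := by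
      exact_mod_cast Nat.lt_mul_div_succ T (show 0 < A by omega)
    have h2 : 9 * (T + 1) + C + E * Real.log (1 + Real.log Q) ≤ A * (9 + C + 5 * E) * (a + 1) ^ 2 := by
      have h3 : E * Real.log (1 + Real.log Q) ≤ E * (5 * (T + 1)) :=
        mul_le_mul_of_nonneg_left hll (Nat.cast_nonneg _)
      have h4 : (A : ℝ) * (a + 1) ≤ A * (a + 1) ^ 2 :=
        mul_le_mul_of_nonneg_left (by nlinarith) (Nat.cast_nonneg _)
      have h5 := mul_le_mul_of_nonneg_left (h1.trans h4) (show 0 ≤ 9 + C + 5 * E by positivity)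
      nlinarith [mul_nonneg hC hT0]
    have h3 : 2 ^ (T - a) * Q * 2 ^ a ≤ N := by
      rw [mul_right_comm, ← pow_add, Nat.sub_add_cancel haT, hQ, pow_add,
        show 2 ^ T * (N / (2 ^ T * 2 ^ e₀)) = N / 2 ^ e₀ by field_simp]
      exact div_le_self hN0.le (one_le_pow₀ one_le_two)
    have h4 : A * (9 + C + 5 * E) * ((a : ℝ) + 1) ^ 2 ≤ τ * ε / 20 * 2 ^ a := by
      rw [div_mul_eq_mul_div, div_le_iff₀ (by positivity)] at h10
      linarith
    calc _ ≤ 4 / (τ * N) * (2 ^ (T - a) * Q * (τ * ε / 20 * 2 ^ a)) := by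
          gcongr; exact h2.trans h4
      _ = ε / 5 / N * (2 ^ (T - a) * Q * 2 ^ a) := by field_simp; ring
      _ ≤ ε / 5 / N * N := by gcongr
      _ = ε / 5 * 1 := by field_simp
      _ ≤ _ := by gcongr; linarith
  have t3 : 4 / (τ * N) * (45 * Q * 2 ^ T * (τ * B) ^ 2 * H) ≤ ε / 5 * H := by
    rw [show 4 / (τ * N) * (45 * Q * 2 ^ T * (τ * B) ^ 2 * H) = 180 * τ * B ^ 2 / 2 ^ e₀ * H by
      rw [hQ, pow_add]; field_simp; ring]
    exact mul_le_mul_of_nonneg_right ((div_le_self (by positivity) (one_le_pow₀ one_le_two)).trans hτ2)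
      (by linarith)
  rw [mul_add, mul_add]
  linarith

end Pool.Agent.P.MP_a1177c_nt.LC
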