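import Pool.Agent.P.MP_a1177c_nt.MR.Struct
import Pool.Agent.P.MP_a1177c_nt.MR.Line

/-!
Definitions and basic facts for the two point argument on unimodular pairs of Gaussian integers.
-/

namespace Pool.Agent.P.MP_a1177c_nt.LC

open Finset Filter MR MR.StructAux
open scoped ComplexConjugate

/-- Primitive Gaussian integers with `X₀ < N w ≤ X`. -/
noncomputable def An (X₀ X : ℝ) : Finset G :=
  (disc ⌊X⌋₊).filter fun w => cont w = 1 ∧ X₀ < nm w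

/-- The direction `a / |a|`. -/
noncomputable def dir1 (a : G) : ℂ := (a : ℂ) / ((‖(a : ℂ)‖ : ℝ) : ℂ)

/-- The angular character `(a / |a|) ^ k`. -/
noncomputable def ek (k : ℤ) (a : G) : ℂ := dir1 a ^ k

open Classical in
/-- Primes `1 mod 4` in `(a P, b P]` with logarithmic weight. -/
noncomputable def c1 (a b : ℝ) (P : ℕ) (m : ℤ) : ℝ :=
  if a * P < m ∧ (m : ℝ) ≤ b * P ∧ m.natAbs.Prime ∧ m % 4 = 1 then Real.log m else 0

open Classical in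
/-- The model: integers `1 mod 4` prime to `q` in `(a P, b P]`. -/
noncomputable def c2 (q : ℕ) (a b : ℝ) (P : ℕ) (m : ℤ) : ℝ :=
  if a * P < m ∧ (m : ℝ) ≤ b * P ∧ Int.gcd m q = 1 ∧ m % 4 = 1 then (q : ℝ) / q.totient else 0

/-- Primes minus model. -/
noncomputable def cb (q : ℕ) (a b : ℝ) (P : ℕ) (m : ℤ) : ℝ := c1 a b P m - c2 q a b P m

/-- Primes plus model. -/
noncomputable def cp (q : ℕ) (a b : ℝ) (P : ℕ) (m : ℤ) : ℝ := c1 a b P m + c2 q a b P m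

/-- The product of the odd primes up to `w`. -/
def WW (w : ℕ) : ℕ := ∏ p ∈ (Icc 3 w).filter Nat.Prime, p

/-- The point with coordinates `h` in the basis `e`. -/
def act (e : G × G) (h : G) : G := (h.re : G) * e.1 + (h.im : G) * e.2

/-- The coordinates of `w` in the unimodular basis `e`. -/
def co (e : G × G) (w : G) : G := ⟨det w e.2, det e.1 w⟩

/-- Farey bases of order `Q` (norm scale). -/
noncomputable def Far (Q : ℝ) : Finset (G × G) :=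
  (disc ⌊Q⌋₊ ×ˢ disc ⌊Q⌋₊).filter fun e => det e.1 e.2 = 1 ∧ Q < nm (e.1 + e.2)

/-- Farey bases without a short vector. -/
noncomputable def FarG (Q K : ℝ) : Finset (G × G) :=
  (Far Q).filter fun e => Q / K ≤ nm e.1 ∧ Q / K ≤ nm e.2

/-- `w` lies in the open cone of the basis `e`. -/
def InCone (e : G × G) (w : G) : Prop := 1 ≤ det w e.2 ∧ 1 ≤ det e.1 w

/-- Characters modulo `q` that are trivial on rational integers `1 mod 4`. -/
structure Twist (q : ℕ) (ξ : G → ℂ) : Prop where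
  mul : ∀ a b, ξ (a * b) = ξ a * ξ b
  one : ξ 1 = 1
  per : ∀ a b : G, (q : G) ∣ a - b → ξ a = ξ b
  zero : ∀ a, ¬ (nm a).Coprime q → ξ a = 0
  int : ∀ t : ℤ, t % 4 = 1 → Int.gcd t q = 1 → ξ t = 1

/-- The twisted Liouville function. -/
noncomputable def gtw (ξ : G → ℂ) (r : ℕ) (w : G) : ℂ := (lam w : ℂ) * ξ w * ek r w

/-- Angular sum over an annulus of primitive points. -/
noncomputable def SA (a : G → ℂ) (X₀ X : ℝ) (k : ℤ) : ℂ := ∑ w ∈ An X₀ X, a w * chi k w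

/-- Cancellation in long sums, uniformly in the angular frequency. -/
def HS (g : G → ℂ) : Prop :=
  ∀ η : ℝ, 0 < η → ∀ᶠ y : ℕ in atTop, ∀ k : ℤ, |(k : ℝ)| ≤ (y : ℝ) ^ 2 → ‖SA g 0 y k‖ ≤ η * y

/-- The left end of the block `v`. -/
def Yv (v : ℕ × ℕ) : ℕ := v.1 * 2 ^ v.2

/-- Primes `1 mod 4` in `(c 2^t, (c+1) 2^t]`, `v = (c, t)`. -/
def blk (v : ℕ × ℕ) : Finset ℕ :=
  (Ioc (v.1 * 2 ^ v.2) ((v.1 + 1) * 2 ^ v.2)).filter fun p => p.Prime ∧ p % 4 = 1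

/-- Primes `1 mod 4` in `(J 2^t₀, J 2^t₁]`. -/
def PR (J t₀ t₁ : ℕ) : Finset ℕ :=
  (Ioc (J * 2 ^ t₀) (J * 2 ^ t₁)).filter fun p => p.Prime ∧ p % 4 = 1

/-- The blocks covering `PR J t₀ t₁`. -/
def VV (J t₀ t₁ : ℕ) : Finset (ℕ × ℕ) := Ico J (2 * J) ×ˢ Ico t₀ t₁

/-- The sum of reciprocals. -/
noncomputable def LL (J t₀ t₁ : ℕ) : ℝ := ∑ p ∈ PR J t₀ t₁, (1 : ℝ) / p

/-- The prime polynomial of a block. -/
noncomputable def Qb (g : G → ℂ) (v : ℕ × ℕ) (k : ℤ) : ℂ := ∑ p ∈ blk v, g (gp p) * chi k (gp p)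

/-- The bilinear main term. -/
noncomputable def Mn (g a : G → ℂ) (J t₀ t₁ : ℕ) (N₁ N₂ : ℝ) (k : ℤ) : ℂ :=
  ∑ v ∈ VV J t₀ t₁, Qb g v k * SA a (N₁ / Yv v) (N₂ / Yv v) k

open Classical in
/-- The error made when the condition `gp p ∣ w` is replaced by its density. -/
noncomputable def Edec {α : Type*} (N K : ℝ) (σ : G → α) (Φ : α → α → ℝ) (wt : ℕ → ℝ) (m : ℕ) : ℝ :=
  ∑ p ∈ PS (2 ^ m), wt p * Real.log p * ∑ w ∈ An (N / K) (K * N), ∑ w' ∈ An (N / K) (K * N),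
    if det w w' = p ∧ 0 < dot w w' then
      Φ (σ w) (σ w') * ((if gp p ∣ w then (p : ℝ) else 0) - 1) else 0

/-- Coordinates of the points of a cone at norm scale `L`. -/
noncomputable def Bx (L K : ℝ) : Finset G :=
  (An (L / K) (K * L)).filter fun h => 1 ≤ h.re ∧ 1 ≤ h.im

/-- The dyadic window `v` of depth `r`. -/
noncomputable def Wn (L K : ℝ) (r v : ℕ) : Finset G :=
  (Bx L K).filter fun h => 2 ^ r * h.im / (h.re + h.im) = v

/-- The line modulo `p` through `h`, as a number in `[0, p]`. -/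
def ln (p : ℕ) (h : G) : ℕ :=
  if (p : ℤ) ∣ h.re then p else ((h.im : ZMod p) * (h.re : ZMod p)⁻¹).val

open Classical in
/-- The sum over unimodular pairs on the positive side, with a weight in the ratio of norms. -/
noncomputable def Aφ (φ : ℝ → ℝ) (K : ℕ) (Y : ℕ) : ℝ :=
  ∑ u ∈ disc Y, ∑ u' ∈ disc (K * Y),
    if det u u' = 1 ∧ 0 < dot u u' then lam u * lam u' * φ (nm u' / nm u) else 0

/-! ### Basic facts -/

lemma mem_An {X₀ X : ℝ} {w : G} (h0 : 0 ≤ X₀) :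
    w ∈ An X₀ X ↔ cont w = 1 ∧ X₀ < nm w ∧ (nm w : ℝ) ≤ X := by
  simp only [An, mem_filter, mem_disc]
  constructor
  · rintro ⟨⟨h1, h2⟩, h3, h4⟩
    have h5 : 0 < ⌊X⌋₊ := (nm_pos h1).trans_le h2
    exact ⟨h3, h4, (Nat.le_floor_iff (zero_le_one.trans (Nat.floor_pos.1 h5))).1 h2⟩
  · rintro ⟨h1, h2, h3⟩
    refine ⟨⟨?_, Nat.le_floor h3⟩, h1, h2⟩
    rintro rfl
    simp at h2
    linarith

lemma An_subset_disc (X₀ X : ℝ) : An X₀ X ⊆ disc ⌊X⌋₊ := filter_subset _ _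

lemma ne_of_mem_An {X₀ X : ℝ} {w : G} (h : w ∈ An X₀ X) : w ≠ 0 :=
  (mem_disc.1 (An_subset_disc _ _ h)).1

lemma card_disc_floor_le {X : ℝ} (hX : 0 ≤ X) : ((disc ⌊X⌋₊).card : ℝ) ≤ 9 * X := by
  have h1 : ((disc ⌊X⌋₊).card : ℝ) ≤ 9 * (⌊X⌋₊ : ℝ) := by exact_mod_cast card_disc_le _
  linarith [Nat.floor_le hX]

lemma card_An_le (X₀ : ℝ) {X : ℝ} (hX : 0 ≤ X) : ((An X₀ X).card : ℝ) ≤ 9 * X :=
  le_trans (by exact_mod_cast card_le_card (An_subset_disc _ _)) (card_disc_floor_le hX)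

lemma norm_coe_pos {a : G} (h : a ≠ 0) : 0 < ‖(a : ℂ)‖ :=
  norm_pos_iff.2 fun h0 => h (GaussianInt.toComplex_eq_zero.1 h0)

lemma norm_coe_eq (a : G) : ‖(a : ℂ)‖ = √(nm a) := by
  rw [← norm_sq_coe, Real.sqrt_sq (norm_nonneg _)]

lemma dir1_mul (a b : G) : dir1 (a * b) = dir1 a * dir1 b := by
  simp only [dir1, GaussianInt.toComplex_mul, norm_mul]; push_cast; ring

@[simp] lemma dir1_one : dir1 1 = 1 := by simp [dir1]

lemma norm_dir1 {a : G} (h : a ≠ 0) : ‖dir1 a‖ = 1 := by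
  rw [dir1, norm_div, Complex.norm_real, norm_norm, div_self (norm_coe_pos h).ne']

lemma dir1_ne_zero {a : G} (h : a ≠ 0) : dir1 a ≠ 0 := by
  rw [← norm_ne_zero_iff, norm_dir1 h]; exact one_ne_zero

lemma dir1_pow_four (a : G) : dir1 a ^ 4 = dir a := by
  have h : (((‖(a : ℂ)‖ : ℝ) : ℂ)) ^ 2 = (nm a : ℂ) := by exact_mod_cast norm_sq_coe a
  rw [dir1, dir, div_pow, ← h]; ring

lemma dir1_star (a : G) : dir1 (star a) = conj (dir1 a) := by
  simp [dir1, GaussianInt.toComplex_star]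

lemma ek_mul (k : ℤ) (a b : G) : ek k (a * b) = ek k a * ek k b := by
  simp only [ek, dir1_mul, mul_zpow]

@[simp] lemma ek_one (k : ℤ) : ek k 1 = 1 := by simp [ek]

@[simp] lemma ek_zero (a : G) : ek 0 a = 1 := by simp [ek]

lemma norm_ek (k : ℤ) {a : G} (h : a ≠ 0) : ‖ek k a‖ = 1 := by
  rw [ek, norm_zpow, norm_dir1 h, one_zpow]

lemma ek_add (k l : ℤ) {a : G} (h : a ≠ 0) : ek (k + l) a = ek k a * ek l a := by
  simp only [ek, zpow_add₀ (dir1_ne_zero h)]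

lemma ek_four_mul (k : ℤ) (a : G) : ek (4 * k) a = chi k a := by
  rw [ek, chi, zpow_mul, ← dir1_pow_four]; rfl

lemma ek_star (k : ℤ) {a : G} (h : a ≠ 0) : ek k (star a) = ek (-k) a := by
  rw [ek, ek, dir1_star, ← Complex.inv_eq_conj (norm_dir1 h), inv_zpow']

lemma c1_nonneg {a : ℝ} (b : ℝ) (P : ℕ) (m : ℤ) : 0 ≤ c1 a b P m := by
  unfold c1; split_ifs
  · exact Real.log_intCast_nonneg m
  · exact le_rfl

lemma c2_nonneg (q : ℕ) (a b : ℝ) (P : ℕ) (m : ℤ) : 0 ≤ c2 q a b P m := by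
  unfold c2; split_ifs <;> positivity

lemma cp_nonneg (q : ℕ) (a b : ℝ) (P : ℕ) (m : ℤ) : 0 ≤ cp q a b P m :=
  add_nonneg (c1_nonneg _ _ _) (c2_nonneg _ _ _ _ _)

lemma abs_cb_le (q : ℕ) (a b : ℝ) (P : ℕ) (m : ℤ) : |cb q a b P m| ≤ cp q a b P m := by
  have h1 := c1_nonneg (a := a) b P m
  have h2 := c2_nonneg q a b P m
  rw [cb, cp, abs_le]; constructor <;> linarith

lemma support_cp {q : ℕ} {a b : ℝ} {P : ℕ} {m : ℤ} (h : cp q a b P m ≠ 0) :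
    a * P < m ∧ (m : ℝ) ≤ b * P := by
  by_contra hc
  refine h ?_
  rw [cp, c1, c2, if_neg fun h' => hc ⟨h'.1, h'.2.1⟩, if_neg fun h' => hc ⟨h'.1, h'.2.1⟩, add_zero]

lemma odd_WW (w : ℕ) : Odd (WW w) := by
  refine Finset.prod_induction _ Odd (fun a b => Odd.mul) odd_one fun p hp => ?_
  obtain ⟨h1, h2⟩ := mem_filter.1 hp
  exact h2.odd_of_ne_two (by have := (mem_Icc.1 h1).1; omega)

lemma det_act (e : G × G) (h h' : G) : det (act e h) (act e h') = det h h' * det e.1 e.2 := by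
  simp [det, act, Zsqrtd.re_mul, Zsqrtd.im_mul]; ring

lemma act_co {e : G × G} (he : det e.1 e.2 = 1) (w : G) : act e (co e w) = w := by
  simp only [det] at he
  ext
  · simp [act, co, det, Zsqrtd.re_mul]; linear_combination w.re * he
  · simp [act, co, det, Zsqrtd.im_mul]; linear_combination w.im * he

lemma co_act {e : G × G} (he : det e.1 e.2 = 1) (h : G) : co e (act e h) = h := by
  simp only [det] at he
  ext
  · simp [act, co, det, Zsqrtd.re_mul, Zsqrtd.im_mul]; linear_combination h.re * he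
  · simp [act, co, det, Zsqrtd.re_mul, Zsqrtd.im_mul]; linear_combination h.im * he

lemma det_co {e : G × G} (he : det e.1 e.2 = 1) (w w' : G) :
    det (co e w) (co e w') = det w w' := by
  have := det_act e (co e w) (co e w')
  rw [act_co he, act_co he, he, mul_one] at this
  exact this.symm

lemma nm_act (e : G × G) (h : G) : (nm (act e h) : ℤ) =
    h.re ^ 2 * nm e.1 + 2 * h.re * h.im * dot e.1 e.2 + h.im ^ 2 * nm e.2 := by
  simp [nm_int, act, dot, Zsqrtd.re_mul, Zsqrtd.im_mul]; ring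

lemma cont_act {e : G × G} (he : det e.1 e.2 = 1) (h : G) : cont (act e h) = cont h := by
  have key : ∀ (e : G × G) (h : G), cont h ∣ cont (act e h) := fun e h => by
    refine dvd_cont ?_
    obtain ⟨h1, h2⟩ := (Zsqrtd.intCast_dvd _ _).1 (cont_dvd h)
    exact dvd_add ((map_dvd (Int.castRingHom G) h1).mul_right _)
      ((map_dvd (Int.castRingHom G) h2).mul_right _)
  refine Nat.dvd_antisymm ?_ (key e h)
  obtain ⟨h1, h2⟩ := (Zsqrtd.intCast_dvd _ _).1 (cont_dvd (act e h))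
  have h3 := co_act he h
  refine dvd_cont ((Zsqrtd.intCast_dvd _ _).2 ⟨?_, ?_⟩)
  · have : h.re = det (act e h) e.2 := by rw [← congrArg Zsqrtd.re h3]; simp [co]
    rw [this, det]
    exact dvd_sub (h1.mul_right _) (h2.mul_right _)
  · have : h.im = det e.1 (act e h) := by rw [← congrArg Zsqrtd.im h3]; simp [co]
    rw [this, det]
    exact dvd_sub (h2.mul_left _) (h1.mul_left _)

lemma cont_co {e : G × G} (he : det e.1 e.2 = 1) (w : G) : cont (co e w) = cont w := by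
  rw [← cont_act he, act_co he]

lemma mem_Far {Q : ℝ} {e : G × G} (hQ : 0 ≤ Q) : e ∈ Far Q ↔
    det e.1 e.2 = 1 ∧ (nm e.1 : ℝ) ≤ Q ∧ (nm e.2 : ℝ) ≤ Q ∧ Q < nm (e.1 + e.2) := by
  simp only [Far, mem_filter, mem_product, mem_disc, Nat.le_floor_iff hQ]
  constructor
  · rintro ⟨⟨⟨-, h1⟩, -, h2⟩, h3, h4⟩; exact ⟨h3, h1, h2, h4⟩
  · rintro ⟨h3, h1, h2, h4⟩
    refine ⟨⟨⟨?_, h1⟩, ?_, h2⟩, h3, h4⟩
    · intro h; simp [h, det] at h3
    · intro h; simp [h, det] at h3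

lemma cont_eq_one_of_det {a b : G} (h : det a b = 1) : cont a = 1 ∧ cont b = 1 := by
  constructor
  · obtain ⟨h1, h2⟩ := (Zsqrtd.intCast_dvd _ _).1 (cont_dvd a)
    have : (cont a : ℤ) ∣ 1 := h ▸ dvd_sub (h1.mul_right _) (h2.mul_right _)
    exact Nat.dvd_one.1 (by exact_mod_cast this)
  · obtain ⟨h1, h2⟩ := (Zsqrtd.intCast_dvd _ _).1 (cont_dvd b)
    have : (cont b : ℤ) ∣ 1 := h ▸ dvd_sub (h2.mul_left _) (h1.mul_left _)
    exact Nat.dvd_one.1 (by exact_mod_cast this)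

lemma mem_blk {v : ℕ × ℕ} {p : ℕ} :
    p ∈ blk v ↔ (Yv v < p ∧ p ≤ Yv v + 2 ^ v.2) ∧ p.Prime ∧ p % 4 = 1 := by
  simp [blk, Yv, add_mul]

lemma mem_PR {J t₀ t₁ p : ℕ} :
    p ∈ PR J t₀ t₁ ↔ (J * 2 ^ t₀ < p ∧ p ≤ J * 2 ^ t₁) ∧ p.Prime ∧ p % 4 = 1 := by
  simp [PR]

lemma mem_VV {J t₀ t₁ : ℕ} {v : ℕ × ℕ} :
    v ∈ VV J t₀ t₁ ↔ (J ≤ v.1 ∧ v.1 < 2 * J) ∧ t₀ ≤ v.2 ∧ v.2 < t₁ := by
  simp [VV]

lemma blk_subset_PS {v : ℕ × ℕ} (h : 1 ≤ v.1) : blk v ⊆ PS (Yv v) := fun p hp => by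
  obtain ⟨⟨h1, h2⟩, h3⟩ := mem_blk.1 hp
  have : 2 ^ v.2 ≤ Yv v := Nat.le_mul_of_pos_left _ h
  exact mem_PS.2 ⟨⟨h1, by omega⟩, h3⟩

end Pool.Agent.P.MP_a1177c_nt.LC
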