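import Pool.Agent.P.MP_a1177c_nt.LC.Geo

namespace Pool.Agent.P.MP_a1177c_nt.LC

open Finset Filter MR MR.StructAux
open scoped ComplexConjugate Topology

namespace DilAux

lemma partners {X : ℕ} {u : G} (hu : u ∈ disc X) {j : ℤ} (hj : j = 1 ∨ j = -1) :
    ∑ u' ∈ disc X, (if det u u' = j then (1 : ℝ) else 0) ≤ 5 * √X * (1 / √(nm u)) := by
  rw [sum_boole]
  rcases ((disc X).filter fun u' => det u u' = j).eq_empty_or_nonempty with h | ⟨b, hb⟩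
  · rw [h]; simp only [card_empty, Nat.cast_zero]; positivity
  · have hc : cont u = 1 := by
      rcases hj with rfl | rfl
      · exact (cont_eq_one_of_det (mem_filter.1 hb).2).1
      · have := (mem_filter.1 hb).2
        exact (cont_eq_one_of_det (a := b) (b := u) (by simp only [det] at this ⊢; linarith)).2
    have := line_count (mem_disc.1 hu).1 (X := X) (by exact_mod_cast (mem_disc.1 hu).2) j
      ((disc X).filter fun u' => det u u' = j) fun b hb =>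
        ⟨(mem_filter.1 hb).2, by exact_mod_cast (mem_disc.1 (mem_filter.1 hb).1).2⟩
    rw [hc, Real.sqrt_div (Nat.cast_nonneg X)] at this
    simpa [div_eq_mul_inv, mul_assoc] using this

lemma row (X : ℕ) {j : ℤ} (hj : j = 1 ∨ j = -1) (f : G → ℝ) (hf : ∀ u, 0 ≤ f u) :
    ∑ u ∈ disc X, ∑ u' ∈ disc X, (if det u u' = j then (1 : ℝ) else 0) * f u ≤
      5 * √X * ∑ u ∈ disc X, f u * (1 / √(nm u)) := by
  rw [mul_sum]
  refine sum_le_sum fun u hu => ?_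
  rw [← sum_mul]
  nlinarith [mul_le_mul_of_nonneg_right (partners hu hj) (hf u)]

lemma col (X : ℕ) (f : G → ℝ) (hf : ∀ u, 0 ≤ f u) :
    ∑ u ∈ disc X, ∑ u' ∈ disc X, (if det u u' = 1 then (1 : ℝ) else 0) * f u' ≤
      5 * √X * ∑ u ∈ disc X, f u * (1 / √(nm u)) := by
  rw [sum_comm]
  refine le_trans (le_of_eq ?_) (row X (Or.inr rfl) f hf)
  refine sum_congr rfl fun a _ => sum_congr rfl fun b _ => ?_
  congr 1
  refine if_congr ?_ rfl rfl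
  simp only [det]; constructor <;> intro h <;> linarith

lemma sum_small (X Z : ℕ) :
    ∑ u ∈ disc X, (if nm u ≤ Z then (1 : ℝ) else 0) * (1 / √(nm u)) ≤ 40 * √Z := by
  simp only [ite_mul, one_mul, zero_mul]
  rw [← sum_filter]
  refine le_trans (sum_le_sum_of_subset_of_nonneg (fun a ha => ?_) fun _ _ _ => by positivity)
    (sum_inv_sqrt_le Z)
  exact mem_disc.2 ⟨(mem_disc.1 (mem_filter.1 ha).1).1, (mem_filter.1 ha).2⟩

open Classical in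
lemma sum_dvd (X : ℕ) {d : G} (hd : d ≠ 0) :
    √X * ∑ u ∈ disc X, (if d ∣ u then (1 : ℝ) else 0) * (1 / √(nm u)) ≤ 40 * X / nm d := by
  simp only [ite_mul, one_mul, zero_mul]
  have h0 : (0 : ℝ) < nm d := by exact_mod_cast nm_pos hd
  rw [← sum_filter, sum_disc_dvd X hd]
  have e : ∀ b : G, 1 / √(nm (d * b)) = 1 / √(nm d) * (1 / √(nm b)) := fun b => by
    rw [nm_mul, Nat.cast_mul, Real.sqrt_mul h0.le, one_div_mul_one_div]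
  simp only [e]
  rw [← mul_sum]
  have h1 := sum_inv_sqrt_le (X / nm d)
  have h2 : √((X / nm d : ℕ) : ℝ) ≤ √X / √(nm d) := by
    rw [← Real.sqrt_div (Nat.cast_nonneg X)]; exact Real.sqrt_le_sqrt Nat.cast_div_le
  have h3 : 0 < √(nm d : ℝ) := Real.sqrt_pos.2 h0
  calc _ ≤ √X * (1 / √(nm d) * (40 * (√X / √(nm d)))) := by gcongr; linarith
    _ = 40 * (√X * √X) / (√(nm d) * √(nm d)) := by field_simp
    _ = _ := by rw [Real.mul_self_sqrt (Nat.cast_nonneg X), Real.mul_self_sqrt h0.le]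

open Classical in
lemma sum_edge : ∃ C : ℝ, 0 < C ∧ ∀ (X Y : ℕ) (β L : ℝ), 1 ≤ β → β ≤ 2 → 0 ≤ L → 2 * (X : ℝ) ≤ L ^ 2 * Y →
    √X * ∑ u ∈ disc X, (if Y < β * nm u ∧ nm u ≤ Y then (1 : ℝ) else 0) * (1 / √(nm u)) ≤
      L * (4 * ((β - 1) * Y) + C * (Y + 1) ^ ((2 : ℝ) / 3)) := by
  obtain ⟨C, hC, h⟩ := card_annulus
  refine ⟨C, hC, fun X Y β L h1 h2 h3 h4 => ?_⟩
  have hY : (0 : ℝ) ≤ Y := Nat.cast_nonneg Y
  have h5 := h (Y / β) Y (by positivity) (div_le_self hY h1)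
  have h6 : Y - Y / β ≤ (β - 1) * Y := by
    rw [sub_le_iff_le_add, ← sub_le_iff_le_add', le_div_iff₀ (by linarith)]
    nlinarith [mul_nonneg (sq_nonneg (β - 1)) hY]
  simp only [ite_mul, one_mul, zero_mul]
  rw [← sum_filter, mul_sum]
  refine (sum_le_card_nsmul _ _ L fun u hu => ?_).trans ?_
  · have h7 := (mem_filter.1 hu).2.1
    have h8 : (0 : ℝ) < nm u := by exact_mod_cast nm_pos (mem_disc.1 (mem_filter.1 hu).1).1
    rw [mul_one_div, ← Real.sqrt_div (Nat.cast_nonneg X), Real.sqrt_le_iff, div_le_iff₀ h8]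
    have h9 : (Y : ℝ) ≤ 2 * nm u := by nlinarith
    exact ⟨h3, by nlinarith [mul_le_mul_of_nonneg_left h9 (sq_nonneg L)]⟩
  · rw [nsmul_eq_mul, mul_comm]
    refine mul_le_mul_of_nonneg_left (le_trans ?_ (h5.trans (by linarith))) h3
    refine Nat.cast_le.2 (card_le_card fun u hu => ?_)
    obtain ⟨a, b, c⟩ := mem_filter.1 hu
    rw [Nat.floor_natCast]
    exact mem_filter.2 ⟨mem_disc.2 ⟨(mem_disc.1 a).1, c⟩, by
      rw [div_lt_iff₀ (by linarith)]; linarith⟩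

lemma rpow_small {δ : ℝ} (hδ : 0 < δ) :
    ∃ Y₀ : ℕ, ∀ Y : ℕ, Y₀ ≤ Y → 1 ≤ Y ∧ ((Y : ℝ) + 1) ^ ((2 : ℝ) / 3) ≤ δ * Y := by
  have h := ((tendsto_rpow_neg_atTop (show (0 : ℝ) < 1 / 3 by norm_num)).comp
    (tendsto_atTop_add_const_right _ 1 tendsto_natCast_atTop_atTop)).eventually
    (eventually_le_nhds (half_pos hδ))
  obtain ⟨Y₀, hY⟩ := eventually_atTop.1 (h.and (eventually_ge_atTop 1))
  refine ⟨Y₀, fun Y h1 => ⟨(hY Y h1).2, ?_⟩⟩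
  have h2 : ((Y : ℝ) + 1) ^ (-(1 / 3) : ℝ) ≤ δ / 2 := (hY Y h1).1
  have h3 : (1 : ℝ) ≤ Y := by exact_mod_cast (hY Y h1).2
  rw [show (2 : ℝ) / 3 = 1 + -(1 / 3) by norm_num, Real.rpow_add (by positivity), Real.rpow_one]
  nlinarith [mul_le_mul_of_nonneg_left h2 (show (0 : ℝ) ≤ Y + 1 by linarith)]

lemma det_mul (a u v : G) : det (a * u) (a * v) = nm a * det u v := by
  simp [nm_int, det, Zsqrtd.re_mul, Zsqrtd.im_mul]; ring

lemma dot_mul (a u v : G) : dot (a * u) (a * v) = nm a * dot u v := by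
  simp [nm_int, dot, Zsqrtd.re_mul, Zsqrtd.im_mul]; ring

lemma dvd_partner {p : ℕ} (hp : p.Prime) (h4 : p % 4 = 1) {w w' : G} (hc : cont w = 1)
    (hd : det w w' = p) (h : gp p ∣ w) : gp p ∣ w' := by
  obtain ⟨u, rfl⟩ := h
  have e : det (gp p) (star u * w') = det (gp p * u) w' := by
    simp [det, Zsqrtd.re_mul, Zsqrtd.im_mul]; ring
  have h1 : gp p ∣ star u * w' := (gp_dvd_iff hp h4 _).2 (by rw [e, hd])
  refine ((prime_of_nm_prime (by rw [nm_gp hp h4]; exact hp)).dvd_or_dvd h1).resolve_left ?_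
  rintro ⟨c, h2⟩
  have h3 : gp p * u = ((p : ℤ) : G) * star c := by
    have := congrArg star h2
    rw [star_star, star_mul] at this
    rw [this, mul_comm (star c), ← mul_assoc, mul_star_eq, nm_gp hp h4]; simp
  have := dvd_cont (a := gp p * u) (d := p) ⟨_, h3⟩
  rw [hc] at this
  exact hp.ne_one (Nat.dvd_one.1 this)

lemma ratio_close {J J₁ : ℕ} {s s' K K₁ : ℝ} (hJ : 0 < J₁) (hs : 1 < K₁ * s) (hs0 : 0 < s)
    (hs1 : s ≤ K) (h0 : 0 ≤ s') (h1 : s' ≤ K) (hi : J₁ < ⌈J * s⌉₊) :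
    |s' / s - (⌈J * s'⌉₊ : ℝ) / ⌈J * s⌉₊| ≤ K * K₁ / J₁ := by
  have a1 := Nat.le_ceil (J * s)
  have a2 := (Nat.ceil_lt_add_one (show 0 ≤ J * s by positivity)).le
  have b1 := Nat.le_ceil (J * s')
  have b2 := (Nat.ceil_lt_add_one (show 0 ≤ J * s' by positivity)).le
  have c1 : (J₁ : ℝ) ≤ ⌈J * s⌉₊ := by exact_mod_cast hi.le
  have c0 : (0 : ℝ) < J₁ := by exact_mod_cast hJ
  generalize (⌈J * s⌉₊ : ℝ) = i at *
  generalize (⌈J * s'⌉₊ : ℝ) = j at *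
  have hi0 : 0 < i := by linarith
  have hK : 0 < K₁ := by by_contra hh; nlinarith
  rw [div_sub_div _ _ hs0.ne' hi0.ne', abs_div, abs_of_pos (mul_pos hs0 hi0),
    div_le_div_iff₀ (mul_pos hs0 hi0) c0]
  have e : |s' * i - s * j| ≤ K := by
    rw [abs_le]; constructor <;> nlinarith
  have hK0 : 0 < K := by linarith
  calc _ ≤ K * J₁ := by gcongr
    _ ≤ K * (1 * i) := by gcongr; linarith
    _ ≤ K * (K₁ * s * i) := by gcongr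
    _ = _ := by ring

/-- The parameters. -/
structure Ctx (K₀ K₁ J₁ Y p : ℕ) (β N : ℝ) : Prop where
  k₀ : 1 ≤ K₀
  k₁ : 1 ≤ K₁
  j₁ : 1 ≤ J₁
  y₁ : 1 ≤ Y
  pp : p.Prime
  p4 : p % 4 = 1
  β0 : 0 < β
  N0 : 0 < N
  lo : N < (Y + 1) * p
  hi : (p : ℝ) * Y ≤ β * N

/-- The step function. -/
noncomputable def PP (φ : ℝ → ℝ) (K₁ J₁ i j : ℕ) : ℝ :=
  if J₁ < i ∧ i ≤ K₁ * J₁ then φ (j / i) else 0

/-- The shell of a point. -/
noncomputable def ix (J : ℕ) (N : ℝ) (w : G) : ℕ := ⌈J * (nm w : ℝ) / N⌉₊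

/-- The weight before the dilation. -/
noncomputable def al (φ : ℝ → ℝ) (K₀ Y : ℕ) (u u' : G) : ℝ :=
  if nm u ≤ Y ∧ nm u' ≤ K₀ * Y then φ (nm u' / nm u) else 0

/-- The weight after the dilation. -/
noncomputable def ga (φ : ℝ → ℝ) (K₀ K₁ J₁ p : ℕ) (N : ℝ) (u u' : G) : ℝ :=
  if gp p * u ∈ An (N / (K₀ * K₁)) (K₀ * K₁ * N) ∧ gp p * u' ∈ An (N / (K₀ * K₁)) (K₀ * K₁ * N)
  then PP φ K₁ J₁ (ix (K₁ * J₁) N (gp p * u)) (ix (K₁ * J₁) N (gp p * u')) else 0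

variable {K₀ K₁ J₁ Y p : ℕ} {β N Λ : ℝ} {φ : ℝ → ℝ}

lemma abs_PP (h1 : ∀ x, |φ x| ≤ 1) (i j : ℕ) : |PP φ K₁ J₁ i j| ≤ 1 := by
  rw [PP]; split_ifs
  · exact h1 _
  · simp

lemma crude (h1 : ∀ x, |φ x| ≤ 1) (u u' : G) : |al φ K₀ Y u u' - ga φ K₀ K₁ J₁ p N u u'| ≤ 2 := by
  have a1 : |al φ K₀ Y u u'| ≤ 1 := by
    rw [al]; split_ifs
    · exact h1 _
    · simp
  have a2 : |ga φ K₀ K₁ J₁ p N u u'| ≤ 1 := by
    rw [ga]; split_ifs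
    · exact abs_PP h1 _ _
    · simp
  linarith [abs_sub (al φ K₀ Y u u') (ga φ K₀ K₁ J₁ p N u u')]

lemma Ctx.nm_mul' (c : Ctx K₀ K₁ J₁ Y p β N) (u : G) : (nm (gp p * u) : ℝ) = p * nm u := by
  rw [nm_mul, nm_gp c.pp c.p4, Nat.cast_mul]

lemma Ctx.mem (c : Ctx K₀ K₁ J₁ Y p β N) {w : G} : w ∈ An (N / (K₀ * K₁)) (K₀ * K₁ * N) ↔
    cont w = 1 ∧ N / (K₀ * K₁) < nm w ∧ (nm w : ℝ) ≤ K₀ * K₁ * N :=
  mem_An (by have := c.N0; positivity)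

lemma Ctx.supp (c : Ctx K₀ K₁ J₁ Y p β N) (hs : ∀ x, φ x ≠ 0 → 1 / (K₀ : ℝ) ≤ x ∧ x ≤ K₀)
    {u u' : G} (h : PP φ K₁ J₁ (ix (K₁ * J₁) N (gp p * u)) (ix (K₁ * J₁) N (gp p * u')) ≠ 0) :
    nm u ≤ Y ∧ nm u' ≤ 2 * K₀ * Y := by
  rw [PP] at h
  split_ifs at h with h2
  swap
  · exact absurd rfl h
  have J0 : (0 : ℝ) < ((K₁ * J₁ : ℕ) : ℝ) := by exact_mod_cast Nat.mul_pos c.k₁ c.j₁
  have p0 : (0 : ℝ) < p := by exact_mod_cast c.pp.pos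
  have K0 : (0 : ℝ) ≤ K₀ := Nat.cast_nonneg _
  have Y1 : (1 : ℝ) ≤ Y := by exact_mod_cast c.y₁
  have N0 := c.N0
  have lo := c.lo
  have h3 := (hs _ h).2
  have h4 : (ix (K₁ * J₁) N (gp p * u) : ℝ) ≤ (K₁ * J₁ : ℕ) := by exact_mod_cast h2.2
  rw [div_le_iff₀ (by exact_mod_cast (Nat.zero_le _).trans_lt h2.1)] at h3
  have h5 : _ ≤ (ix (K₁ * J₁) N (gp p * u) : ℝ) := Nat.le_ceil _
  have h6 : _ ≤ (ix (K₁ * J₁) N (gp p * u') : ℝ) := Nat.le_ceil _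
  rw [c.nm_mul', div_le_iff₀ N0] at h5 h6
  have h7 : (p : ℝ) * nm u ≤ N :=
    le_of_mul_le_mul_left (h5.trans (mul_le_mul_of_nonneg_right h4 N0.le)) J0
  have h8 : (p : ℝ) * nm u' ≤ K₀ * N := le_of_mul_le_mul_left (h6.trans
    ((mul_le_mul_of_nonneg_right (h3.trans (mul_le_mul_of_nonneg_left h4 K0)) N0.le).trans_eq
      (by ring))) J0
  constructor
  · have : (nm u : ℝ) < Y + 1 := lt_of_mul_lt_mul_left (by linarith) p0.le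
    exact Nat.lt_succ_iff.1 (by exact_mod_cast this)
  · have : (nm u' : ℝ) ≤ 2 * K₀ * Y := le_of_mul_le_mul_left (by
      linarith [mul_le_mul_of_nonneg_left lo.le K0,
        mul_nonneg (mul_nonneg K0 p0.le) (sub_nonneg.2 Y1)]) p0
    exact_mod_cast this

open Classical in
lemma eA (hK : 1 ≤ K₀) : Aφ φ K₀ Y = ∑ q ∈ disc (2 * K₀ * Y) ×ˢ disc (2 * K₀ * Y),
    if det q.1 q.2 = 1 ∧ 0 < dot q.1 q.2 then lam q.1 * lam q.2 * al φ K₀ Y q.1 q.2 else 0 := by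
  rw [Aφ, ← sum_product']
  refine sum_of_injOn id (fun _ _ _ _ h => h) (fun q hq => ?_) (fun q hq hn => ?_) fun q hq => ?_
  · exact mem_coe.2 (product_subset_product (disc_mono (by nlinarith)) (disc_mono (by nlinarith))
      (mem_coe.1 hq))
  · obtain ⟨a1, a2⟩ := mem_product.1 hq
    rw [al, if_neg (c := _ ∧ _ ≤ K₀ * Y) fun h => hn ⟨q, mem_coe.2 (mem_product.2
      ⟨mem_disc.2 ⟨(mem_disc.1 a1).1, h.1⟩, mem_disc.2 ⟨(mem_disc.1 a2).1, h.2⟩⟩), rfl⟩]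
    simp
  · obtain ⟨a1, a2⟩ := mem_product.1 hq
    simp only [id]
    rw [al, if_pos (c := _ ∧ _ ≤ K₀ * Y) ⟨(mem_disc.1 a1).2, (mem_disc.1 a2).2⟩]

open Classical in
lemma Ctx.eS (c : Ctx K₀ K₁ J₁ Y p β N) (hs : ∀ x, φ x ≠ 0 → 1 / (K₀ : ℝ) ≤ x ∧ x ≤ K₀) :
    (∑ w ∈ An (N / (K₀ * K₁)) (K₀ * K₁ * N), ∑ w' ∈ An (N / (K₀ * K₁)) (K₀ * K₁ * N),
      if det w w' = p ∧ 0 < dot w w' ∧ gp p ∣ w then
        lam w * lam w' * PP φ K₁ J₁ (ix (K₁ * J₁) N w) (ix (K₁ * J₁) N w') else 0) =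
    ∑ q ∈ disc (2 * K₀ * Y) ×ˢ disc (2 * K₀ * Y), if det q.1 q.2 = 1 ∧ 0 < dot q.1 q.2 then
      lam q.1 * lam q.2 * ga φ K₀ K₁ J₁ p N q.1 q.2 else 0 := by
  have π0 := gp_ne_zero c.pp c.p4
  rw [← sum_product', ← sum_filter_add_sum_filter_not (disc (2 * K₀ * Y) ×ˢ disc (2 * K₀ * Y))
    fun q => gp p * q.1 ∈ An (N / (K₀ * K₁)) (K₀ * K₁ * N) ∧
      gp p * q.2 ∈ An (N / (K₀ * K₁)) (K₀ * K₁ * N), sum_eq_zero (s := filter (fun q => ¬ _) _)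
    (fun q hq => by rw [ga, if_neg (mem_filter.1 hq).2]; simp), add_zero]
  symm
  refine sum_of_injOn (fun q => (gp p * q.1, gp p * q.2)) (fun q _ q' _ h => ?_)
    (fun q hq => mem_coe.2 (mem_product.2 (mem_filter.1 (mem_coe.1 hq)).2))
    (fun q hq hn => ?_) fun q hq => ?_
  · simp only [Prod.mk.injEq] at h
    exact Prod.ext (mul_left_cancel₀ π0 h.1) (mul_left_cancel₀ π0 h.2)
  · obtain ⟨w, w'⟩ := q
    obtain ⟨a1, a2⟩ := mem_product.1 hq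
    by_contra hh
    split_ifs at hh with h2
    swap
    · exact hh rfl
    obtain ⟨u', rfl⟩ : gp p ∣ w' := dvd_partner c.pp c.p4 (c.mem.1 a1).1 h2.1 h2.2.2
    obtain ⟨u, rfl⟩ : gp p ∣ w := h2.2.2
    obtain ⟨b1, b2⟩ := c.supp hs (right_ne_zero_of_mul hh)
    exact hn ⟨(u, u'), mem_coe.2 (mem_filter.2 ⟨mem_product.2
      ⟨mem_disc.2 ⟨right_ne_zero_of_mul (ne_of_mem_An a1), b1.trans (by nlinarith [c.k₀])⟩,
        mem_disc.2 ⟨right_ne_zero_of_mul (ne_of_mem_An a2), b2⟩⟩, a1, a2⟩), rfl⟩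
  · obtain ⟨a0, a3⟩ := mem_filter.1 hq
    obtain ⟨a1, a2⟩ := mem_product.1 a0
    have q0 : (0 : ℤ) < p := by exact_mod_cast c.pp.pos
    rw [ga, if_pos a3, det_mul, dot_mul, nm_gp c.pp c.p4, lam_mul π0 (mem_disc.1 a1).1,
      lam_mul π0 (mem_disc.1 a2).1, lam_gp c.pp c.p4]
    refine if_congr ?_ (by ring) rfl
    simp [mul_pos_iff_of_pos_left q0, mul_eq_left₀ q0.ne']

lemma Ctx.good (c : Ctx K₀ K₁ J₁ Y p β N) (hs : ∀ x, φ x ≠ 0 → 1 / (K₀ : ℝ) ≤ x ∧ x ≤ K₀)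
    (hL : ∀ x y, |φ x - φ y| ≤ Λ * |x - y|) {u u' : G} (hd : det u u' = 1) (g1 : ¬ nm u ≤ Y / K₁)
    (g2 : ¬ (Y < β * nm u ∧ nm u ≤ Y)) (g3 : ¬ star (gp p) ∣ u) (g4 : ¬ star (gp p) ∣ u') :
    |al φ K₀ Y u u' - ga φ K₀ K₁ J₁ p N u u'| ≤ Λ * (K₀ * K₁ * K₁ / J₁) := by
  have hΛ : 0 ≤ Λ := by simpa using (abs_nonneg _).trans (hL 1 0)
  have η0 : 0 ≤ Λ * (K₀ * K₁ * K₁ / J₁) := by positivity
  by_cases hu : nm u ≤ Y
  swap
  · rw [al, ga, if_neg fun h => hu h.1]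
    split_ifs
    · rw [not_not.1 fun h => hu (c.supp hs h).1]; simpa using η0
    · simpa using η0
  obtain ⟨c1, c2⟩ := cont_eq_one_of_det hd
  have cm : ∀ v : G, cont v = 1 → ¬ star (gp p) ∣ v → cont (gp p * v) = 1 := fun v a1 a2 =>
    le_antisymm (a1 ▸ cont_mul_le (by rw [nm_gp c.pp c.p4]; exact c.pp) a2)
      (MR.cont_pos (mul_ne_zero (gp_ne_zero c.pp c.p4) fun h => by simp [h, cont] at a1))
  have J0 : (0 : ℝ) < ((K₁ * J₁ : ℕ) : ℝ) := by exact_mod_cast Nat.mul_pos c.k₁ c.j₁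
  have j0 : (0 : ℝ) < J₁ := by exact_mod_cast c.j₁
  have p0 : (0 : ℝ) < p := by exact_mod_cast c.pp.pos
  have K0 : (1 : ℝ) ≤ K₀ := by exact_mod_cast c.k₀
  have K1 : (1 : ℝ) ≤ K₁ := by exact_mod_cast c.k₁
  have KK : (1 : ℝ) ≤ K₀ * K₁ := one_le_mul_of_one_le_of_one_le K0 K1
  have N0 := c.N0
  have g5 : (Y : ℝ) + 1 ≤ K₁ * nm u := by
    rw [Nat.le_div_iff_mul_le c.k₁, not_le, mul_comm] at g1
    exact_mod_cast g1
  have g6 : β * nm u ≤ Y := not_lt.1 fun h => g2 ⟨h, hu⟩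
  have u0 : (0 : ℝ) < nm u := by exact_mod_cast nm_pos fun h => by simp [h, cont] at c1
  have s1 : N < K₁ * (p * nm u) := by linarith [c.lo, mul_le_mul_of_nonneg_right g5 p0.le]
  have s2 : (p : ℝ) * nm u ≤ N := le_of_mul_le_mul_left
    (by linarith [c.hi, mul_le_mul_of_nonneg_left g6 p0.le]) c.β0
  have e1 : al φ K₀ Y u u' = φ (nm u' / nm u) := by
    rw [al]
    split_ifs with h
    · rfl
    · refine Eq.symm (not_not.1 fun hh => h ⟨hu, ?_⟩)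
      have := (div_le_iff₀ u0).1 (hs _ hh).2
      exact le_trans (by exact_mod_cast this) (Nat.mul_le_mul_left _ hu)
  have m1 : gp p * u ∈ An (N / (K₀ * K₁)) (K₀ * K₁ * N) := c.mem.2 ⟨cm u c1 g3, by
    rw [c.nm_mul', div_lt_iff₀ (by linarith)]
    linarith [mul_nonneg (sub_nonneg.2 K0) (show (0 : ℝ) ≤ K₁ * (p * nm u) by positivity)], by
    rw [c.nm_mul']; linarith [mul_nonneg (sub_nonneg.2 KK) N0.le]⟩
  have i1 : J₁ < ix (K₁ * J₁) N (gp p * u) := by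
    rw [ix, Nat.lt_ceil, c.nm_mul', lt_div_iff₀ N0]; push_cast
    linarith [mul_lt_mul_of_pos_left s1 j0]
  have i2 : ix (K₁ * J₁) N (gp p * u) ≤ K₁ * J₁ := by
    rw [ix, Nat.ceil_le, c.nm_mul', div_le_iff₀ N0]
    exact mul_le_mul_of_nonneg_left s2 J0.le
  rw [e1, ga]
  split_ifs with h
  · rw [PP, if_pos ⟨i1, i2⟩]
    refine (hL _ _).trans (mul_le_mul_of_nonneg_left ?_ hΛ)
    have e2 : (nm u' : ℝ) / nm u = (nm (gp p * u') / N) / (nm (gp p * u) / N) := by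
      rw [c.nm_mul', c.nm_mul']; field_simp
    rw [ix, mul_div_assoc] at i1
    rw [e2, ix, ix, mul_div_assoc ((K₁ * J₁ : ℕ) : ℝ), mul_div_assoc ((K₁ * J₁ : ℕ) : ℝ)]
    refine ratio_close c.j₁ ?_ ?_ ?_ (by positivity) ((div_le_iff₀ N0).2 (c.mem.1 h.2).2.2) i1
    · rw [c.nm_mul', ← mul_div_assoc, lt_div_iff₀ N0]; linarith
    · rw [c.nm_mul']; positivity
    · exact (div_le_iff₀ N0).2 (c.mem.1 m1).2.2
  · suffices hh : φ (nm u' / nm u) = 0 by rw [hh]; simpa using η0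
    refine not_not.1 fun hh => h ⟨m1, c.mem.2 ⟨cm u' c2 g4, ?_, ?_⟩⟩
    · have := (hs _ hh).1
      rw [div_le_div_iff₀ (by linarith) u0] at this
      rw [c.nm_mul', div_lt_iff₀ (by linarith)]
      linarith [mul_le_mul_of_nonneg_left this (show (0 : ℝ) ≤ K₁ * p by positivity)]
    · have := (div_le_iff₀ u0).1 (hs _ hh).2
      rw [c.nm_mul']
      linarith [mul_le_mul_of_nonneg_left this p0.le,
        mul_le_mul_of_nonneg_left s2 (show (0 : ℝ) ≤ K₀ by linarith),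
        mul_nonneg (mul_nonneg (show (0 : ℝ) ≤ K₀ by linarith) N0.le) (sub_nonneg.2 K1)]

open Classical in
lemma Ctx.total (c : Ctx K₀ K₁ J₁ Y p β N) (h1 : ∀ x, |φ x| ≤ 1)
    (hs : ∀ x, φ x ≠ 0 → 1 / (K₀ : ℝ) ≤ x ∧ x ≤ K₀) (hL : ∀ x y, |φ x - φ y| ≤ Λ * |x - y|)
    {X : ℕ} (hX : X = 2 * K₀ * Y) {E : ℝ} (hE : √X * ∑ u ∈ disc X,
      (if Y < β * nm u ∧ nm u ≤ Y then (1 : ℝ) else 0) * (1 / √(nm u)) ≤ E) :
    |Aφ φ K₀ Y - ∑ w ∈ An (N / (K₀ * K₁)) (K₀ * K₁ * N), ∑ w' ∈ An (N / (K₀ * K₁)) (K₀ * K₁ * N),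
      if det w w' = p ∧ 0 < dot w w' ∧ gp p ∣ w then
        lam w * lam w' * PP φ K₁ J₁ (ix (K₁ * J₁) N w) (ix (K₁ * J₁) N w') else 0| ≤
      400 * (√X * √((Y / K₁ : ℕ) : ℝ)) + 10 * E + 20 * (40 * X / p) +
        200 * (Λ * (K₀ * K₁ * K₁ / J₁) * X) := by
  have hΛ : 0 ≤ Λ := by simpa using (abs_nonneg _).trans (hL 1 0)
  have good := fun u u' => c.good hs hL (u := u) (u' := u')
  have η0 : 0 ≤ Λ * (K₀ * K₁ * K₁ / J₁) := by positivity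
  generalize Λ * (K₀ * K₁ * K₁ / J₁) = η at *
  obtain ⟨f, hf⟩ : ∃ f : G → ℝ, ∀ u, f u = 2 * (if nm u ≤ Y / K₁ then (1 : ℝ) else 0) +
      2 * (if Y < β * nm u ∧ nm u ≤ Y then (1 : ℝ) else 0) +
      2 * (if star (gp p) ∣ u then (1 : ℝ) else 0) + η := ⟨_, fun _ => rfl⟩
  have f0 : ∀ u, 0 ≤ f u := fun u => by rw [hf]; positivity
  have r1 := row X (Or.inl rfl) f f0
  have r2 := col X (fun u => if star (gp p) ∣ u then (1 : ℝ) else 0) fun u => by positivity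
  have t1 := mul_le_mul_of_nonneg_left (sum_small X (Y / K₁)) (Real.sqrt_nonneg X)
  have t3 := sum_dvd X (d := star (gp p)) (star_ne_zero.2 (gp_ne_zero c.pp c.p4))
  have t4 := mul_le_mul_of_nonneg_left
    (mul_le_mul_of_nonneg_left (sum_inv_sqrt_le X) (Real.sqrt_nonneg X)) η0
  rw [nm_star, nm_gp c.pp c.p4] at t3
  rw [mul_left_comm √(X : ℝ) 40, Real.mul_self_sqrt (Nat.cast_nonneg X)] at t4
  have r3 : ∑ u ∈ disc X, f u * (1 / √(nm u)) =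
      2 * ∑ u ∈ disc X, (if nm u ≤ Y / K₁ then (1 : ℝ) else 0) * (1 / √(nm u)) +
      2 * ∑ u ∈ disc X, (if Y < β * nm u ∧ nm u ≤ Y then (1 : ℝ) else 0) * (1 / √(nm u)) +
      2 * ∑ u ∈ disc X, (if star (gp p) ∣ u then (1 : ℝ) else 0) * (1 / √(nm u)) +
      η * ∑ u ∈ disc X, 1 / √(nm u) := by
    simp only [mul_sum, ← sum_add_distrib]
    exact sum_congr rfl fun u _ => by rw [hf]; ring
  rw [r3] at r1
  refine le_trans (b := ∑ u ∈ disc X, ∑ u' ∈ disc X, (if det u u' = 1 then (1 : ℝ) else 0) * f u +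
      2 * ∑ u ∈ disc X, ∑ u' ∈ disc X, (if det u u' = 1 then (1 : ℝ) else 0) *
        (if star (gp p) ∣ u' then (1 : ℝ) else 0)) ?_ (by linarith)
  rw [eA c.k₀, c.eS hs, ← hX, ← sum_sub_distrib, ← sum_product', ← sum_product', mul_sum,
    ← sum_add_distrib]
  refine (abs_sum_le_sum_abs _ _).trans (sum_le_sum fun q _ => ?_)
  have := f0 q.1
  by_cases h : det q.1 q.2 = 1 ∧ 0 < dot q.1 q.2
  swap
  · rw [if_neg h, if_neg h, sub_zero, abs_zero]; positivity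
  rw [if_pos h, if_pos h, if_pos h.1, ← mul_sub, abs_mul, abs_mul, abs_lam, abs_lam, hf]
  have a0 := crude (K₀ := K₀) (K₁ := K₁) (J₁ := J₁) (Y := Y) (p := p) (N := N) h1 q.1 q.2
  have g := good q.1 q.2 h.1
  split_ifs with a1 a2 a3 a4 <;> first | linarith | linarith [g ‹_› ‹_› ‹_› ‹_›]

end DilAux

open DilAux

theorem abs_Aφ_le (K₀ : ℕ) (hK : 1 ≤ K₀) (φ : ℝ → ℝ) (h1 : ∀ x, |φ x| ≤ 1) (Y : ℕ) :
    |Aφ φ K₀ Y| ≤ 200 * K₀ * Y := by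
  have hK' : (1 : ℝ) ≤ K₀ := by exact_mod_cast hK
  have h2 : |Aφ φ K₀ Y| ≤ ∑ u ∈ disc Y, 5 * √((K₀ * Y : ℕ) : ℝ) * (1 / √(nm u)) := by
    refine (abs_sum_le_sum_abs _ _).trans (sum_le_sum fun u hu => (abs_sum_le_sum_abs _ _).trans
      (le_trans (sum_le_sum fun u' _ => ?_)
        (partners (disc_mono (Nat.le_mul_of_pos_left Y hK) hu) (Or.inl rfl))))
    split_ifs with a b
    · rw [abs_mul, abs_mul, abs_lam, abs_lam]; simpa using h1 _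
    · exact absurd a.1 b
    · simp
    · simp
  rw [← mul_sum] at h2
  have h3 : √((K₀ * Y : ℕ) : ℝ) * √Y ≤ K₀ * Y := by
    rw [← Real.sqrt_mul (Nat.cast_nonneg _), Real.sqrt_le_iff]
    push_cast
    exact ⟨by positivity, by nlinarith [mul_nonneg (sub_nonneg.2 hK') (show (0 : ℝ) ≤ K₀ * Y ^ 2 by
      positivity)]⟩
  nlinarith [mul_le_mul_of_nonneg_left (sum_inv_sqrt_le Y) (Real.sqrt_nonneg ((K₀ * Y : ℕ) : ℝ))]

open Classical in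
/-- Multiplying a unimodular pair by a Gaussian prime. -/
theorem dilate (K₀ : ℕ) (hK : 1 ≤ K₀) (φ : ℝ → ℝ) (Λ : ℝ) (h1 : ∀ x, |φ x| ≤ 1)
    (hs : ∀ x, φ x ≠ 0 → 1 / (K₀ : ℝ) ≤ x ∧ x ≤ K₀) (hL : ∀ x y, |φ x - φ y| ≤ Λ * |x - y|)
    {ε : ℝ} (hε : 0 < ε) : ∃ (β K : ℝ) (J P₀ Y₀ : ℕ) (Φ : ℕ → ℕ → ℝ), 1 < β ∧ β ≤ 2 ∧ 1 ≤ K ∧ 0 < J ∧
      (∀ i j, |Φ i j| ≤ 1) ∧ ∀ (P Y p : ℕ) (N : ℝ), P₀ ≤ P → Y₀ ≤ Y → p ∈ PS P →
        (p : ℝ) ≤ β * P → Y * P ≤ N → N < (Y + 1) * P →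
        |Aφ φ K₀ Y - ∑ w ∈ An (N / K) (K * N), ∑ w' ∈ An (N / K) (K * N),
          if det w w' = p ∧ 0 < dot w w' ∧ gp p ∣ w then
            lam w * lam w' * Φ ⌈J * (nm w : ℝ) / N⌉₊ ⌈J * (nm w' : ℝ) / N⌉₊ else 0| ≤ ε * Y := by
  have hK' : (1 : ℝ) ≤ K₀ := by exact_mod_cast hK
  have hΛ : 0 ≤ Λ := by simpa using (abs_nonneg _).trans (hL 1 0)
  obtain ⟨C, hC, hE⟩ := sum_edge
  obtain ⟨K₁, hK₁⟩ := exists_nat_gt (2 * K₀ / (ε / 2000) ^ 2)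
  have k₁ : 0 < K₁ := by exact_mod_cast (show (0 : ℝ) < K₁ from lt_trans (by positivity) hK₁)
  have k₁' : (1 : ℝ) ≤ K₁ := by exact_mod_cast k₁
  obtain ⟨J₁, hJ₁⟩ := exists_nat_gt (2000 * K₀ * (Λ * (K₀ * K₁ * K₁)) / ε)
  have j₁' : (0 : ℝ) < J₁ := lt_of_le_of_lt (by positivity) hJ₁
  have j₁ : 0 < J₁ := by exact_mod_cast j₁'
  obtain ⟨P₀, hP₀⟩ := exists_nat_gt (8000 * K₀ / ε)
  obtain ⟨Y₀, hY₀⟩ := rpow_small (show 0 < ε / (200 * K₀ * C) by positivity)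
  obtain ⟨b, hb0, hb1, hb2⟩ : ∃ b : ℝ, 0 < b ∧ b ≤ 1 ∧ b ≤ ε / (800 * K₀) :=
    ⟨min 1 (ε / (800 * K₀)), by positivity, min_le_left _ _, min_le_right _ _⟩
  refine ⟨1 + b, K₀ * K₁, K₁ * J₁, P₀, Y₀, PP φ K₁ J₁, by linarith, by linarith,
    one_le_mul_of_one_le_of_one_le hK' k₁', Nat.mul_pos k₁ j₁, abs_PP h1,
    fun P Y p N hP hY hp hpβ hN₁ hN₂ => ?_⟩
  obtain ⟨⟨hPp, -⟩, pp, p4⟩ := mem_PS.1 hp
  obtain ⟨Y1, hY2⟩ := hY₀ Y hY
  have Y1' : (1 : ℝ) ≤ Y := by exact_mod_cast Y1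
  have Y0 : (0 : ℝ) ≤ Y := by linarith
  have hPp' : (P : ℝ) < p := by exact_mod_cast hPp
  have hP' : 8000 * K₀ / ε < P := hP₀.trans_le (by exact_mod_cast hP)
  have P0 : (0 : ℝ) < P := lt_trans (by positivity) hP'
  have c : Ctx K₀ K₁ J₁ Y p (1 + b) N := ⟨hK, k₁, j₁, Y1, pp, p4, by linarith,
    lt_of_lt_of_le (by positivity) hN₁,
    hN₂.trans (mul_lt_mul_of_pos_left hPp' (by linarith)), by
      linarith [mul_le_mul_of_nonneg_right hpβ Y0,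
        mul_le_mul_of_nonneg_left hN₁ (show 0 ≤ 1 + b by linarith)]⟩
  refine (c.total h1 hs hL rfl (hE _ Y (1 + b) (2 * K₀) (by linarith) (by linarith) (by linarith)
    (by
      push_cast
      linarith [mul_nonneg (mul_nonneg (show (0 : ℝ) ≤ K₀ by linarith) Y0)
        (sub_nonneg.2 hK')]))).trans ?_
  have u1 : √((2 * K₀ * Y : ℕ) : ℝ) * √((Y / K₁ : ℕ) : ℝ) ≤ ε / 2000 * Y := by
    rw [← Real.sqrt_mul (Nat.cast_nonneg _), Real.sqrt_le_iff]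
    refine ⟨by positivity, ?_⟩
    rw [div_lt_iff₀ (by positivity)] at hK₁
    have a1 : ((Y / K₁ : ℕ) : ℝ) * K₁ ≤ Y := by exact_mod_cast Nat.div_mul_le_self Y K₁
    have a2 : (0 : ℝ) ≤ ((Y / K₁ : ℕ) : ℝ) := Nat.cast_nonneg _
    generalize ((Y / K₁ : ℕ) : ℝ) = Z at *
    push_cast
    linarith [mul_le_mul_of_nonneg_right hK₁.le (mul_nonneg a2 Y0),
      mul_le_mul_of_nonneg_left a1 (show 0 ≤ (ε / 2000) ^ 2 * Y by positivity)]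
  have u2 : 2 * K₀ * (4 * ((1 + b - 1) * Y) + C * (Y + 1) ^ ((2 : ℝ) / 3)) ≤ ε / 50 * Y := by
    rw [le_div_iff₀ (by positivity)] at hb2
    have a1 : C * (200 * K₀) * ((Y : ℝ) + 1) ^ ((2 : ℝ) / 3) ≤ ε * Y := by
      refine (mul_le_mul_of_nonneg_left hY2 (by positivity)).trans_eq ?_
      field_simp
    linarith [mul_le_mul_of_nonneg_right hb2 Y0]
  have u3 : 40 * ((2 * K₀ * Y : ℕ) : ℝ) / p ≤ ε / 100 * Y := by
    rw [div_lt_iff₀ hε] at hP'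
    rw [div_le_iff₀ (by linarith)]; push_cast
    linarith [mul_le_mul_of_nonneg_right
      (hP'.trans (mul_lt_mul_of_pos_right hPp' hε)).le Y0]
  have u4 : Λ * (K₀ * K₁ * K₁ / J₁) * ((2 * K₀ * Y : ℕ) : ℝ) ≤ ε / 1000 * Y := by
    have η1 : 2000 * K₀ * (Λ * (K₀ * K₁ * K₁ / J₁)) ≤ ε := by
      rw [div_lt_iff₀ hε] at hJ₁
      rw [← mul_div_assoc, ← mul_div_assoc, div_le_iff₀ j₁']; linarith
    push_cast
    linarith [mul_le_mul_of_nonneg_right η1 Y0]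
  linarith [mul_nonneg hε.le Y0]

end Pool.Agent.P.MP_a1177c_nt.LC
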