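import Pool.Agent.P.MP_a1177c_nt.LC.Defs

namespace Pool.Agent.P.MP_a1177c_nt.LC

open Finset Filter MR MR.StructAux
open scoped ComplexConjugate Topology

variable {Ω α β γ : Type*}

open Classical in
/-- The size of the fibre of `A` through `ω`. -/
noncomputable def cnt (s : Finset Ω) (A : Ω → α) (ω : Ω) : ℕ :=
  (s.filter fun ω' => A ω' = A ω).card

/-- Shannon entropy of `A` for the uniform measure on `s`, multiplied by the size of `s`. -/
noncomputable def ent (s : Finset Ω) (A : Ω → α) : ℝ :=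
  ∑ ω ∈ s, Real.log ((s.card : ℝ) / cnt s A ω)

namespace EntAux

open Classical in
/-- The size of the fibre of `A` over `a`. -/
noncomputable def nn (s : Finset Ω) (A : Ω → α) (a : α) : ℕ :=
  (s.filter fun ω' => A ω' = a).card

lemma cnt_eq (s : Finset Ω) (A : Ω → α) (ω : Ω) : cnt s A ω = nn s A (A ω) := rfl

lemma cnt_pos {s : Finset Ω} (A : Ω → α) {ω : Ω} (h : ω ∈ s) : (0 : ℝ) < cnt s A ω := by
  classical
  have : 0 < cnt s A ω := by
    unfold cnt
    exact card_pos.2 ⟨ω, by simp [h]⟩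
  exact_mod_cast this

lemma card_pos_of {s : Finset Ω} {ω : Ω} (h : ω ∈ s) : (0 : ℝ) < s.card := by
  exact_mod_cast card_pos.2 ⟨ω, h⟩

open Classical in
lemma sum_div_cnt (s : Finset Ω) (A : Ω → α) (g : α → ℝ) :
    ∑ ω ∈ s, g (A ω) / cnt s A ω = ∑ a ∈ s.image A, g a := by
  have h := Finset.sum_comp (s := s) (fun a => g a / (nn s A a : ℝ)) A
  simp only [cnt_eq]
  rw [h]
  refine sum_congr rfl fun a ha => ?_
  obtain ⟨ω, hω, rfl⟩ := mem_image.1 ha
  have h1 := cnt_pos A hω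
  rw [cnt_eq] at h1
  have h2 : (#{a ∈ s | A a = A ω} : ℕ) = nn s A (A ω) := by
    unfold nn; congr
  rw [h2, nsmul_eq_mul]
  field_simp

open Classical in
lemma sum_nn (s : Finset Ω) (A : Ω → α) : ∑ a ∈ s.image A, (nn s A a : ℝ) = s.card := by
  have h := card_eq_sum_card_fiberwise (s := s) (t := s.image A) (f := A)
    (fun ω hω => mem_image_of_mem A hω)
  rw [h]
  push_cast
  refine sum_congr rfl fun a _ => ?_
  unfold nn; congr

open Classical in
lemma sum_nn_pair (s : Finset Ω) (A : Ω → α) (C : Ω → γ) (c : γ) :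
    ∑ a ∈ s.image A, (nn s (fun ω => (A ω, C ω)) (a, c) : ℝ) = nn s C c := by
  have h := card_eq_sum_card_fiberwise (s := s.filter fun ω => C ω = c) (t := s.image A) (f := A)
    (fun ω hω => mem_image_of_mem A (mem_filter.1 hω).1)
  have h2 : nn s C c = (s.filter fun ω => C ω = c).card := by unfold nn; congr
  rw [h2, h]
  push_cast
  refine sum_congr rfl fun a _ => ?_
  unfold nn
  congr 2
  ext ω
  simp only [mem_filter, Prod.mk.injEq]
  tauto

end EntAux

open EntAux

theorem ent_mono (s : Finset Ω) {A : Ω → α} {B : Ω → β}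
    (h : ∀ ω ∈ s, ∀ ω' ∈ s, A ω = A ω' → B ω = B ω') : ent s B ≤ ent s A := by
  classical
  refine sum_le_sum fun ω hω => ?_
  have h1 := cnt_pos A hω
  have h2 := cnt_pos B hω
  have h3 := card_pos_of hω
  have h4 : cnt s A ω ≤ cnt s B ω := by
    unfold cnt
    refine card_le_card fun ω' hω' => ?_
    simp only [mem_filter] at hω' ⊢
    exact ⟨hω'.1, h _ hω'.1 _ hω hω'.2⟩
  refine Real.log_le_log (by positivity) ?_
  exact div_le_div_of_nonneg_left h3.le h1 (by exact_mod_cast h4)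

theorem ent_congr (s : Finset Ω) {A : Ω → α} {B : Ω → β}
    (h : ∀ ω ∈ s, ∀ ω' ∈ s, A ω = A ω' ↔ B ω = B ω') : ent s A = ent s B :=
  le_antisymm (ent_mono s fun ω hω ω' hω' => (h ω hω ω' hω').2)
    (ent_mono s fun ω hω ω' hω' => (h ω hω ω' hω').1)

theorem ent_const (s : Finset Ω) {A : Ω → α} (h : ∀ ω ∈ s, ∀ ω' ∈ s, A ω = A ω') :
    ent s A = 0 := by
  classical
  refine sum_eq_zero fun ω hω => ?_
  have h1 : cnt s A ω = s.card := by
    unfold cnt
    rw [filter_true_of_mem fun ω' hω' => h _ hω' _ hω]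
  rw [h1, div_self (card_pos_of hω).ne', Real.log_one]

theorem ent_submod (s : Finset Ω) (A : Ω → α) (B : Ω → β) (C : Ω → γ) :
    ent s (fun ω => (A ω, B ω, C ω)) + ent s C ≤
      ent s (fun ω => (A ω, C ω)) + ent s (fun ω => (B ω, C ω)) := by
  classical
  set g : α × β × γ → ℝ := fun z => (nn s (fun ω => (A ω, C ω)) (z.1, z.2.2) : ℝ) *
    nn s (fun ω => (B ω, C ω)) (z.2.1, z.2.2) / nn s C z.2.2 with hg
  have key : ∑ ω ∈ s, g (A ω, B ω, C ω) / cnt s (fun ω => (A ω, B ω, C ω)) ω ≤ s.card := by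
    have h1 := sum_div_cnt s (fun ω => (A ω, B ω, C ω)) g
    rw [h1]
    have h2 : ∀ z, 0 ≤ g z := fun z => by simp only [hg]; positivity
    refine le_trans (sum_le_sum_of_subset_of_nonneg
      (t := s.image A ×ˢ s.image B ×ˢ s.image C) ?_ fun z _ _ => h2 z) ?_
    · intro z hz
      simp only [mem_image, mem_product] at hz ⊢
      obtain ⟨ω, hω, rfl⟩ := hz
      exact ⟨⟨ω, hω, rfl⟩, ⟨ω, hω, rfl⟩, ⟨ω, hω, rfl⟩⟩
    · rw [sum_product]
      simp only [sum_product]
      have h3 : ∑ a ∈ s.image A, ∑ b ∈ s.image B, ∑ c ∈ s.image C, g (a, b, c) =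
          ∑ c ∈ s.image C, ∑ a ∈ s.image A, ∑ b ∈ s.image B, g (a, b, c) := by
        rw [sum_comm (s := s.image C)]
        exact sum_congr rfl fun a _ => sum_comm
      rw [h3, ← sum_nn s C]
      refine le_of_eq (sum_congr rfl fun c hc => ?_)
      obtain ⟨ω, hω, rfl⟩ := mem_image.1 hc
      have h4 := cnt_pos C hω
      rw [cnt_eq] at h4
      simp only [hg]
      simp only [← sum_div, ← mul_sum, ← sum_mul, sum_nn_pair]
      field_simp
  have h5 : ∀ ω ∈ s, Real.log ((s.card : ℝ) / cnt s (fun ω => (A ω, B ω, C ω)) ω) +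
      Real.log ((s.card : ℝ) / cnt s C ω) ≤
      Real.log ((s.card : ℝ) / cnt s (fun ω => (A ω, C ω)) ω) +
      Real.log ((s.card : ℝ) / cnt s (fun ω => (B ω, C ω)) ω) +
      (g (A ω, B ω, C ω) / cnt s (fun ω => (A ω, B ω, C ω)) ω - 1) := by
    intro ω hω
    have a1 := cnt_pos (fun ω => (A ω, B ω, C ω)) hω
    have a2 := cnt_pos C hω
    have a3 := cnt_pos (fun ω => (A ω, C ω)) hω
    have a4 := cnt_pos (fun ω => (B ω, C ω)) hω
    have a5 := card_pos_of hω
    have a6 : g (A ω, B ω, C ω) = (cnt s (fun ω => (A ω, C ω)) ω : ℝ) *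
        cnt s (fun ω => (B ω, C ω)) ω / cnt s C ω := rfl
    have a7 := Real.log_le_sub_one_of_pos
      (x := g (A ω, B ω, C ω) / cnt s (fun ω => (A ω, B ω, C ω)) ω) (by rw [a6]; positivity)
    rw [a6] at a7 ⊢
    rw [Real.log_div (by positivity) a1.ne', Real.log_div (by positivity) a2.ne',
      Real.log_mul a3.ne' a4.ne'] at a7
    rw [Real.log_div a5.ne' a1.ne', Real.log_div a5.ne' a2.ne', Real.log_div a5.ne' a3.ne',
      Real.log_div a5.ne' a4.ne']
    linarith
  have h6 := sum_le_sum h5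
  simp only [sum_add_distrib, sum_sub_distrib, sum_const, nsmul_eq_mul, mul_one] at h6
  unfold ent
  linarith

/-- Gibbs variational inequality, conditional form. -/
theorem gibbs (s : Finset Ω) (A : Ω → α) (Y : Ω → β) (t : Finset β) (hY : ∀ ω ∈ s, Y ω ∈ t)
    (f : α → β → ℝ) :
    ∑ ω ∈ s, f (A ω) (Y ω) ≤ s.card * Real.log t.card - (ent s (fun ω => (A ω, Y ω)) - ent s A) +
      ∑ ω ∈ s, Real.log ((∑ y ∈ t, Real.exp (f (A ω) y)) / t.card) := by
  classical
  set g : α × β → ℝ := fun z => Real.exp (f z.1 z.2) * nn s A z.1 /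
    ∑ y ∈ t, Real.exp (f z.1 y) with hg
  have hZ : ∀ ω ∈ s, ∀ a, 0 < ∑ y ∈ t, Real.exp (f a y) := fun ω hω a =>
    sum_pos (fun y _ => Real.exp_pos _) ⟨_, hY ω hω⟩
  have key : ∑ ω ∈ s, g (A ω, Y ω) / cnt s (fun ω => (A ω, Y ω)) ω ≤ s.card := by
    have h1 := sum_div_cnt s (fun ω => (A ω, Y ω)) g
    rw [h1]
    have h2 : ∀ z, 0 ≤ g z := fun z => by
      simp only [hg]
      exact div_nonneg (by positivity) (sum_nonneg fun y _ => (Real.exp_pos _).le)
    refine le_trans (sum_le_sum_of_subset_of_nonneg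
      (t := s.image A ×ˢ t) ?_ fun z _ _ => h2 z) ?_
    · intro z hz
      simp only [mem_image, mem_product] at hz ⊢
      obtain ⟨ω, hω, rfl⟩ := hz
      exact ⟨⟨ω, hω, rfl⟩, hY ω hω⟩
    · rw [sum_product, ← sum_nn s A]
      refine le_of_eq (sum_congr rfl fun a ha => ?_)
      obtain ⟨ω, hω, rfl⟩ := mem_image.1 ha
      have h4 := hZ ω hω (A ω)
      simp only [hg]
      simp only [← sum_div, ← sum_mul]
      field_simp
  have h5 : ∀ ω ∈ s, f (A ω) (Y ω) ≤ Real.log t.card -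
      (Real.log ((s.card : ℝ) / cnt s (fun ω => (A ω, Y ω)) ω) -
        Real.log ((s.card : ℝ) / cnt s A ω)) +
      Real.log ((∑ y ∈ t, Real.exp (f (A ω) y)) / t.card) +
      (g (A ω, Y ω) / cnt s (fun ω => (A ω, Y ω)) ω - 1) := by
    intro ω hω
    have a1 := cnt_pos (fun ω => (A ω, Y ω)) hω
    have a2 := cnt_pos A hω
    have a3 := hZ ω hω (A ω)
    have a4 : (0 : ℝ) < t.card := card_pos_of (hY ω hω)
    have a5 := card_pos_of hω
    have a6 : g (A ω, Y ω) = Real.exp (f (A ω) (Y ω)) * cnt s A ω /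
        ∑ y ∈ t, Real.exp (f (A ω) y) := rfl
    have a7 := Real.log_le_sub_one_of_pos
      (x := g (A ω, Y ω) / cnt s (fun ω => (A ω, Y ω)) ω) (by rw [a6]; positivity)
    rw [a6] at a7 ⊢
    rw [Real.log_div (by positivity) a1.ne', Real.log_div (by positivity) a3.ne',
      Real.log_mul (Real.exp_pos _).ne' a2.ne', Real.log_exp] at a7
    rw [Real.log_div a5.ne' a1.ne', Real.log_div a5.ne' a2.ne', Real.log_div a3.ne' a4.ne']
    linarith
  have h6 := sum_le_sum h5
  simp only [sum_add_distrib, sum_sub_distrib, sum_const, nsmul_eq_mul, mul_one] at h6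
  unfold ent
  linarith

theorem ent_pair_le (s : Finset Ω) (A : Ω → α) (Y : Ω → β) (t : Finset β)
    (hY : ∀ ω ∈ s, Y ω ∈ t) :
    ent s (fun ω => (A ω, Y ω)) ≤ ent s A + s.card * Real.log t.card := by
  have h := gibbs s A Y t hY fun _ _ => 0
  have h2 : ∑ ω ∈ s, Real.log ((∑ y ∈ t, Real.exp (0 : ℝ)) / t.card) = 0 := by
    refine sum_eq_zero fun ω hω => ?_
    have a4 : (0 : ℝ) < t.card := card_pos_of (hY ω hω)
    simp [a4.ne']
  rw [h2] at h
  simp only [sum_const_zero] at h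
  linarith

open Classical in
/-- Entropy is at least the collision entropy. -/
theorem ent_ge_coll (s : Finset Ω) (A : Ω → α) {Cc : ℝ}
    (h : (((s ×ˢ s).filter fun z => A z.1 = A z.2).card : ℝ) ≤ Cc) :
    s.card * Real.log ((s.card : ℝ) ^ 2 / Cc) ≤ ent s A := by
  rcases s.eq_empty_or_nonempty with rfl | ⟨ω₀, h0⟩
  · simp [ent]
  have h1 : (((s ×ˢ s).filter fun z => A z.1 = A z.2).card : ℝ) = ∑ ω ∈ s, (cnt s A ω : ℝ) := by
    rw [card_filter, sum_product_right]
    push_cast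
    refine sum_congr rfl fun ω _ => ?_
    unfold cnt
    rw [card_filter]
    push_cast
    refine sum_congr rfl fun ω' _ => ?_
    congr
  rw [h1] at h
  have hC : 0 < Cc := lt_of_lt_of_le (sum_pos (fun ω hω => cnt_pos A hω) ⟨ω₀, h0⟩) h
  have a5 := card_pos_of h0
  have h5 : ∀ ω ∈ s, Real.log ((s.card : ℝ) ^ 2 / Cc) ≤
      Real.log ((s.card : ℝ) / cnt s A ω) + (cnt s A ω * (s.card / Cc) - 1) := by
    intro ω hω
    have a2 := cnt_pos A hω
    have a7 := Real.log_le_sub_one_of_pos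
      (x := (cnt s A ω : ℝ) * (s.card / Cc)) (by positivity)
    rw [Real.log_mul a2.ne' (by positivity), Real.log_div a5.ne' hC.ne'] at a7
    rw [Real.log_div (by positivity) hC.ne', Real.log_pow, Real.log_div a5.ne' a2.ne']
    push_cast
    linarith
  have h6 := sum_le_sum h5
  simp only [sum_add_distrib, sum_sub_distrib, sum_const, nsmul_eq_mul, mul_one,
    ← sum_mul] at h6
  have h7 : (∑ ω ∈ s, (cnt s A ω : ℝ)) * (s.card / Cc) ≤ s.card := by
    calc _ ≤ Cc * (s.card / Cc) := mul_le_mul_of_nonneg_right h (by positivity)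
      _ = s.card := by field_simp
  unfold ent
  linarith

/-- Exponential moment of a sum of independent bounded variables of mean zero. -/
theorem mgf_le {ι : Type*} [Fintype ι] [DecidableEq ι] (t : ι → Finset β)
    (ht : ∀ i, (t i).Nonempty) (Z : ι → β → ℝ) {b : ℝ} (hb : b ≤ 1)
    (h0 : ∀ i, ∑ y ∈ t i, Z i y = 0) (hZ : ∀ i, ∀ y ∈ t i, |Z i y| ≤ b) :
    Real.log ((∑ y ∈ Fintype.piFinset t, Real.exp (∑ i, Z i (y i))) / (Fintype.piFinset t).card) ≤
      Fintype.card ι * b ^ 2 := by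
  have hc : ∀ i, (0 : ℝ) < (t i).card := fun i => by exact_mod_cast card_pos.2 (ht i)
  have hp : ∀ i, 0 < ∑ y ∈ t i, Real.exp (Z i y) := fun i =>
    sum_pos (fun y _ => Real.exp_pos _) (ht i)
  have h1 : (∑ y ∈ Fintype.piFinset t, Real.exp (∑ i, Z i (y i))) / (Fintype.piFinset t).card =
      ∏ i, ((∑ y ∈ t i, Real.exp (Z i y)) / (t i).card) := by
    rw [prod_div_distrib, Finset.prod_univ_sum, Fintype.card_piFinset]
    simp only [Real.exp_sum]
    push_cast
    rfl
  rw [h1, Real.log_prod fun i _ => (div_pos (hp i) (hc i)).ne']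
  have h2 : ∀ i ∈ (univ : Finset ι),
      Real.log ((∑ y ∈ t i, Real.exp (Z i y)) / (t i).card) ≤ b ^ 2 := by
    intro i _
    have a1 : ∑ y ∈ t i, Real.exp (Z i y) ≤ ∑ y ∈ t i, (1 + b ^ 2 + Z i y) := by
      refine sum_le_sum fun y hy => ?_
      have b1 := hZ i y hy
      have b2 := Real.abs_exp_sub_one_sub_id_le (b1.trans hb)
      have b3 : Z i y ^ 2 ≤ b ^ 2 := by
        rw [← sq_abs]
        exact pow_le_pow_left₀ (abs_nonneg _) b1 2
      linarith [(abs_le.1 b2).2]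
    rw [sum_add_distrib, h0 i, add_zero, sum_const, nsmul_eq_mul] at a1
    have a2 := Real.log_le_sub_one_of_pos (div_pos (hp i) (hc i))
    have a3 : (∑ y ∈ t i, Real.exp (Z i y)) / (t i).card ≤ 1 + b ^ 2 := by
      rw [div_le_iff₀ (hc i)]; linarith
    linarith
  have h3 := sum_le_sum h2
  rw [sum_const, nsmul_eq_mul, card_univ] at h3
  exact h3

end Pool.Agent.P.MP_a1177c_nt.LC
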