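import Pool.Agent.P.MP_a1177c_nt.LC.Geo

namespace Pool.Agent.P.MP_a1177c_nt.LC

open Finset Filter MR MR.StructAux
open scoped ComplexConjugate Topology

namespace ThinAux

lemma dot_self (a : G) : dot a a = nm a := by rw [nm_int, dot]; ring

lemma dot_act (u : G) (e : G × G) (h : G) :
    dot u (act e h) = h.re * dot u e.1 + h.im * dot u e.2 := by
  simp [dot, act, Zsqrtd.re_mul, Zsqrtd.im_mul]; ring

lemma det_act_left (e : G × G) (h : G) : det (act e h) e.1 = - h.im * det e.1 e.2 := by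
  simp [det, act, Zsqrtd.re_mul, Zsqrtd.im_mul]; ring

lemma dot_act_act (e : G × G) (h h' : G) : dot (act e h) (act e h') =
    h.re * h'.re * nm e.1 + (h.re * h'.im + h.im * h'.re) * dot e.1 e.2 +
      h.im * h'.im * nm e.2 := by
  simp [nm_int, act, dot, Zsqrtd.re_mul, Zsqrtd.im_mul]; ring

lemma ne_of_det {a b : G} (h : det a b = 1) : a ≠ 0 ∧ b ≠ 0 := by
  constructor <;> rintro rfl <;> simp [det] at h

/-- Two partners differ by a multiple of the first vector. -/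
lemma partner_diff {u v v' : G} (h : det u v = 1) (h' : det u v' = 1) :
    ∃ n : ℤ, v' = v + (n : G) * u := by
  obtain ⟨n, hn⟩ := eq_mul_of_det_zero (v := u) (w := v' - v) (MR.cont_eq_one_of_det h).1 (by
    simp only [det, Zsqrtd.re_sub, Zsqrtd.im_sub] at h h' ⊢
    linear_combination h' - h)
  exact ⟨n, by rw [← hn]; ring⟩

lemma dot_add_mul (u v : G) (n : ℤ) : dot u (v + (n : G) * u) = dot u v + n * nm u := by
  simp [nm_int, dot, Zsqrtd.re_mul, Zsqrtd.im_mul]; ring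

lemma det_add_mul (u v : G) (n : ℤ) : det u (v + (n : G) * u) = det u v := by
  simp [det, Zsqrtd.re_mul, Zsqrtd.im_mul]; ring

lemma thin_small (α : ℝ) (y : ℕ) (E : Finset (G × G))
    (hE : ∀ e ∈ E, det e.1 e.2 = 1 ∧ nm e.1 ≤ y ∧ |(dot e.1 e.2 : ℝ) / nm e.1 - α| ≤ 1) :
    E.card ≤ 27 * y := by
  have h : E.card ≤ (disc y ×ˢ Icc (-1 : ℤ) 1).card := by
    refine card_le_card_of_injOn (fun e => (e.1, ⌊(dot e.1 e.2 : ℝ) / nm e.1 - α⌋))
      (fun e he => ?_) (fun e he e' he' h => ?_)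
    · obtain ⟨h1, h2, h3⟩ := hE e he
      obtain ⟨h4, h5⟩ := abs_le.1 h3
      refine mem_coe.2 (mem_product.2 ⟨mem_disc.2 ⟨(ne_of_det h1).1, h2⟩, mem_Icc.2 ⟨?_, ?_⟩⟩)
      · exact Int.le_floor.2 (by exact_mod_cast h4)
      · exact Int.floor_le_iff.2 (by push_cast; linarith)
    · obtain ⟨u, v⟩ := e
      obtain ⟨u', v'⟩ := e'
      simp only [Prod.mk.injEq] at h
      obtain ⟨rfl, h⟩ := h
      have h1 := (hE _ he).1
      obtain ⟨n, rfl⟩ := partner_diff h1 (hE _ he').1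
      have hN : (0 : ℝ) < nm u := by exact_mod_cast nm_pos (ne_of_det h1).1
      rw [dot_add_mul] at h
      have e : (((dot u v + n * nm u : ℤ) : ℝ)) / nm u - α = (dot u v : ℝ) / nm u - α + n := by
        push_cast
        field_simp
        ring
      rw [e, Int.floor_add_intCast] at h
      have : n = 0 := by omega
      simp [this]
  rw [card_product] at h
  have h2 := card_disc_le y
  have h3 : (Icc (-1 : ℤ) 1).card = 3 := by decide
  rw [h3] at h
  omega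

lemma thin_large (α : ℝ) (B Y : ℕ) (E : Finset (G × G)) (hB : 1 ≤ B)
    (hE : ∀ e ∈ E, det e.1 e.2 = 1 ∧ nm e.1 ≤ Y ∧ B ^ 2 ≤ nm e.1 ∧
      |(dot e.1 e.2 : ℝ) / nm e.1 - α| ≤ 1 / (B : ℝ) ^ 2) :
    (E.card : ℝ) ≤ 1000 * Y / B := by
  classical
  obtain ⟨q, hq1, hq2⟩ := Real.exists_rat_abs_sub_le_and_den_le α hB
  have hB' : (1 : ℝ) ≤ B := by exact_mod_cast hB
  have hb1 : (1 : ℝ) ≤ q.den := by exact_mod_cast q.pos
  have hb2 : (q.den : ℝ) ≤ B := by exact_mod_cast hq2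
  set h : G := ⟨-q.num, q.den⟩ with hh
  have hc : cont h = 1 := by
    have := q.reduced
    simpa [cont, hh, Int.gcd] using this
  set y : ℕ := ⌊5 * (Y : ℝ) / B ^ 2⌋₊ with hy
  have hy' : (y : ℝ) ≤ 5 * (Y : ℝ) / B ^ 2 := Nat.floor_le (by positivity)
  have hmem : ∀ e ∈ E, act e h ∈ disc y := by
    intro e he
    obtain ⟨h1, h2, h3, h4⟩ := hE e he
    refine mem_disc.2 ⟨ne_zero_of_cont (by rw [cont_act h1, hc]), Nat.le_floor ?_⟩
    have hN : (0 : ℝ) < nm e.1 := by exact_mod_cast nm_pos (ne_of_det h1).1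
    have h2' : (nm e.1 : ℝ) ≤ Y := by exact_mod_cast h2
    have h3' : (B : ℝ) ^ 2 ≤ nm e.1 := by exact_mod_cast h3
    have e1 : (dot e.1 (act e h) : ℝ) = nm e.1 * q.den * ((dot e.1 e.2 : ℝ) / nm e.1 - q) := by
      rw [dot_act, dot_self, Rat.cast_def]
      simp only [hh]
      push_cast
      field_simp
      ring
    have e2 : det e.1 (act e h) = q.den := by
      have := congrArg Zsqrtd.im (co_act h1 h)
      simpa [co, hh] using this
    have e3 : |(dot e.1 e.2 : ℝ) / nm e.1 - q| ≤ 2 / (B * q.den) := by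
      have i1 : 1 / (B : ℝ) ^ 2 ≤ 1 / (B * q.den) :=
        one_div_le_one_div_of_le (by positivity) (by nlinarith)
      have i2 : 1 / (((B : ℝ) + 1) * q.den) ≤ 1 / (B * q.den) :=
        one_div_le_one_div_of_le (by positivity) (by nlinarith)
      have i3 := abs_sub_le ((dot e.1 e.2 : ℝ) / nm e.1) α q
      have i4 : 2 / ((B : ℝ) * q.den) = 1 / (B * q.den) + 1 / (B * q.den) := by ring
      linarith
    have e4 : |(dot e.1 (act e h) : ℝ)| ≤ 2 * nm e.1 / B := by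
      rw [e1, abs_mul, abs_of_pos (by positivity)]
      refine (mul_le_mul_of_nonneg_left e3 (by positivity)).trans (le_of_eq ?_)
      field_simp
    have e5 : (dot e.1 (act e h) : ℝ) ^ 2 + (q.den : ℝ) ^ 2 = nm e.1 * nm (act e h) := by
      have := dot_sq_add_det_sq e.1 (act e h)
      rw [e2] at this
      exact_mod_cast this
    have e6 : (dot e.1 (act e h) : ℝ) ^ 2 ≤ (2 * nm e.1 / B) ^ 2 := by
      rw [← sq_abs]
      exact pow_le_pow_left₀ (abs_nonneg _) e4 2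
    have e7 : (q.den : ℝ) ^ 2 ≤ (nm e.1 / B) ^ 2 := by
      refine pow_le_pow_left₀ (by positivity) (hb2.trans ?_) 2
      rw [le_div_iff₀ (by positivity)]
      nlinarith
    have e8 : (nm e.1 : ℝ) * nm (act e h) ≤ nm e.1 * (5 * nm e.1 / B ^ 2) := by
      rw [← e5]
      refine (add_le_add e6 e7).trans (le_of_eq ?_)
      field_simp
      ring
    refine (le_of_mul_le_mul_left e8 hN).trans ?_
    gcongr
  have hfib : ∀ w ∈ disc y, ((E.filter fun e => act e h = w).card : ℝ) ≤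
      5 * √(5 * Y) * (1 / √(nm w)) := by
    intro w hw
    rcases (E.filter fun e => act e h = w).eq_empty_or_nonempty with h0 | ⟨e₀, he₀⟩
    · rw [h0, card_empty, Nat.cast_zero]
      positivity
    obtain ⟨he₁, rfl⟩ := mem_filter.1 he₀
    have hcw : cont (act e₀ h) = 1 := by rw [cont_act (hE _ he₁).1, hc]
    have hinj : Set.InjOn Prod.fst ((E.filter fun e => act e h = act e₀ h : Finset (G × G)) :
        Set (G × G)) := by
      rintro ⟨u, v⟩ he ⟨u', v'⟩ he' huu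
      simp only at huu
      subst huu
      have i1 := (mem_filter.1 he).2.trans (mem_filter.1 he').2.symm
      simp only [act, add_right_inj] at i1
      have i2 : ((h.im : ℤ) : G) ≠ 0 := by
        simp [hh, q.den_ne_zero]
      rw [mul_left_cancel₀ i2 i1]
    rw [← card_image_of_injOn hinj]
    have hY : (0 : ℝ) ≤ Y := Nat.cast_nonneg _
    have hwX : (nm (act e₀ h) : ℝ) ≤ 5 * Y := by
      have i1 : (nm (act e₀ h) : ℝ) ≤ y := by exact_mod_cast (mem_disc.1 hw).2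
      exact i1.trans (hy'.trans (div_le_self (by positivity) (one_le_pow₀ hB')))
    have := line_count (mem_disc.1 hw).1 hwX (-h.im)
      ((E.filter fun e => act e h = act e₀ h).image Prod.fst) (fun b hb => by
        obtain ⟨e, he, rfl⟩ := mem_image.1 hb
        obtain ⟨i1, i2⟩ := mem_filter.1 he
        obtain ⟨i3, i4, -⟩ := hE e i1
        have i5 : (nm e.1 : ℝ) ≤ Y := by exact_mod_cast i4
        exact ⟨by rw [← i2, det_act_left, i3, mul_one], by linarith⟩)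
    rw [hcw, Real.sqrt_div (by positivity)] at this
    refine this.trans (le_of_eq ?_)
    push_cast
    ring
  rw [card_eq_sum_card_fiberwise (f := fun e => act e h) (t := disc y) hmem]
  push_cast
  refine (sum_le_sum hfib).trans ?_
  rw [← mul_sum]
  have i1 : √(y : ℝ) ≤ √(5 * Y) / B := by
    refine (Real.sqrt_le_sqrt hy').trans (le_of_eq ?_)
    rw [Real.sqrt_div (by positivity), Real.sqrt_sq (by positivity)]
  have i2 := (sum_inv_sqrt_le y).trans (mul_le_mul_of_nonneg_left i1 (by norm_num))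
  refine (mul_le_mul_of_nonneg_left i2 (by positivity)).trans (le_of_eq ?_)
  have i3 : √(5 * (Y : ℝ)) * √(5 * Y) = 5 * Y := Real.mul_self_sqrt (by positivity)
  calc 5 * √(5 * (Y : ℝ)) * (40 * (√(5 * Y) / B)) = 200 * (√(5 * (Y : ℝ)) * √(5 * Y)) / B := by
        ring
    _ = 1000 * Y / B := by rw [i3]; ring

end ThinAux

open ThinAux

/-- Few unimodular pairs have their slope in a short interval. -/
theorem thin : ∃ C : ℝ, 0 < C ∧ ∀ (α : ℝ) (B Y : ℕ) (E : Finset (G × G)), 1 ≤ B →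
    (∀ e ∈ E, det e.1 e.2 = 1 ∧ nm e.1 ≤ Y ∧ |(dot e.1 e.2 : ℝ) / nm e.1 - α| ≤ 1 / (B : ℝ) ^ 2) →
    (E.card : ℝ) ≤ C * Y / B + C * (B : ℝ) ^ 2 := by
  refine ⟨1000, by norm_num, fun α B Y E hB hE => ?_⟩
  have hB' : (1 : ℝ) ≤ B := by exact_mod_cast hB
  have h1 := thin_large α B Y (E.filter fun e => B ^ 2 ≤ nm e.1) hB fun e he => by
    obtain ⟨i1, i2⟩ := mem_filter.1 he
    obtain ⟨i3, i4, i5⟩ := hE e i1
    exact ⟨i3, i4, i2, i5⟩
  have h2 := thin_small α (B ^ 2) (E.filter fun e => ¬ B ^ 2 ≤ nm e.1) fun e he => by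
    obtain ⟨i1, i2⟩ := mem_filter.1 he
    obtain ⟨i3, -, i5⟩ := hE e i1
    exact ⟨i3, by omega, i5.trans ((div_le_one (by positivity)).2 (one_le_pow₀ hB'))⟩
  have h3 : ((E.filter fun e => ¬ B ^ 2 ≤ nm e.1).card : ℝ) ≤ 27 * (B : ℝ) ^ 2 := by
    exact_mod_cast h2
  rw [← card_filter_add_card_filter_not (s := E) (fun e => B ^ 2 ≤ nm e.1)]
  push_cast
  nlinarith [sq_nonneg (B : ℝ)]

namespace ThinAux

lemma nm_mk (ν : ℤ) : (nm (⟨ν, 1⟩ : G) : ℤ) = ν ^ 2 + 1 := by rw [nm_int]; simp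

lemma exists_gcd {ν : ℤ} {d : ℕ} (hd : (d : ℤ) ∣ ν ^ 2 + 1) :
    ∃ g : G, nm g = d ∧ g ∣ ⟨ν, 1⟩ ∧ ∀ s : G, s ∣ ⟨ν, 1⟩ → s ∣ (d : G) → s ∣ g := by
  classical
  set z : G := ⟨ν, 1⟩ with hz
  refine ⟨EuclideanDomain.gcd z d, Nat.dvd_antisymm ?_ ?_, EuclideanDomain.gcd_dvd_left _ _,
    fun s => EuclideanDomain.dvd_gcd⟩
  · obtain ⟨k, hk⟩ := EuclideanDomain.gcd_dvd_right z (d : G)
    obtain ⟨k', hk'⟩ := EuclideanDomain.gcd_dvd_left z (d : G)
    set g := EuclideanDomain.gcd z (d : G)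
    have hg : cont g = 1 := cont_of_mul (a := k') (by rw [mul_comm, ← hk']; simp [cont, hz])
    obtain ⟨x, y, hxy⟩ := bezout_of_cont hg
    have h1 : (d : G) * star g = ((nm g : ℤ) : G) * k := by
      rw [hk, Int.cast_natCast, ← mul_star_eq]; ring
    obtain ⟨h2, h3⟩ := (Zsqrtd.intCast_dvd _ _).1 (Dvd.intro _ h1.symm)
    simp only [Zsqrtd.re_mul, Zsqrtd.im_mul, Zsqrtd.re_natCast, Zsqrtd.im_natCast, Zsqrtd.re_star,
      Zsqrtd.im_star, mul_zero, zero_mul, add_zero] at h2 h3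
    have h4 : (d : ℤ) = d * g.re * x - d * -g.im * y := by linear_combination (-(d : ℤ)) * hxy
    have h5 : (nm g : ℤ) ∣ d := h4 ▸ dvd_sub (h2.mul_right x) (h3.mul_right y)
    exact_mod_cast h5
  · have h1 := EuclideanDomain.gcd_eq_gcd_ab z (d : G)
    set g := EuclideanDomain.gcd z (d : G)
    set x := EuclideanDomain.gcdA z (d : G)
    set y := EuclideanDomain.gcdB z (d : G)
    obtain ⟨k, hk⟩ := hd
    have h2 : z * star z = (d : G) * (k : G) := by
      rw [mul_star_eq, ← Int.cast_natCast, nm_mk, hk]; push_cast; ring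
    have h3 : ((nm g : ℤ) : G) = ((d : ℤ) : G) *
        (k * x * star x + z * x * star y + y * star z * star x + d * y * star y) := by
      rw [Int.cast_natCast, ← mul_star_eq, h1]
      simp only [star_add, star_mul, star_natCast, Int.cast_natCast]
      linear_combination (x * star x) * h2
    have h4 := ((Zsqrtd.intCast_dvd _ _).1 (Dvd.intro _ h3.symm)).1
    rw [Zsqrtd.re_intCast] at h4
    exact_mod_cast h4

end ThinAux

open Classical in
theorem four_divisors {ν : ℤ} {d : ℕ} (hd : (d : ℤ) ∣ ν ^ 2 + 1) :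
    ((shell d).filter fun u => star u ∣ (⟨ν, 1⟩ : G)).card = 4 := by
  obtain ⟨g, h1, h2, h3⟩ := exists_gcd hd
  have hd0 : d ≠ 0 := by
    rintro rfl
    have := zero_dvd_iff.1 hd
    nlinarith [sq_nonneg ν]
  have hg : g ≠ 0 := by
    rw [Ne, ← nm_eq_zero, h1]; exact hd0
  rw [← card_shell_one]
  symm
  refine card_bij (fun ε _ => star (g * ε)) (fun ε hε => ?_) (fun ε _ ε' _ h => ?_) (fun u hu => ?_)
  · obtain ⟨e1, e2⟩ := mem_shell.1 hε
    refine mem_filter.2 ⟨mem_shell.2 ⟨star_ne_zero.2 (mul_ne_zero hg e1), ?_⟩, ?_⟩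
    · rw [nm_star, nm_mul, e2, mul_one, h1]
    · rw [star_star]
      exact (nm_eq_one_iff.1 e2).mul_right_dvd.2 h2
  · exact mul_left_cancel₀ hg (star_injective h)
  · obtain ⟨e1, e2⟩ := mem_filter.1 hu
    obtain ⟨e3, e4⟩ := mem_shell.1 e1
    obtain ⟨k, hk⟩ := h3 (star u) e2 ⟨u, by rw [mul_comm, mul_star_eq, e4]⟩
    have e5 : nm k = 1 := by
      have := congrArg nm hk
      rw [nm_mul, nm_star, e4, h1] at this
      exact (Nat.mul_eq_left hd0).1 this.symm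
    refine ⟨star k, mem_shell.2 ⟨?_, by rw [nm_star, e5]⟩, ?_⟩
    · rw [Ne, ← nm_eq_zero, nm_star, e5]; exact one_ne_zero
    · rw [hk, mul_assoc, mul_star_eq, e5, Nat.cast_one, mul_one, star_star]

namespace ThinAux

open Classical in
lemma sum_partner_eq {u : G} (hu : u ≠ 0) (Z M : ℕ) (F : ℕ → ℝ)
    (hF : ∀ ν, F ν ≠ 0 → ν < M ∧ ν ^ 2 + 1 ≤ nm u * Z) :
    ∑ u' ∈ disc Z, (if det u u' = 1 ∧ 0 ≤ dot u u' then F (dot u u').toNat else 0) =
      ∑ ν ∈ range M, if star u ∣ (⟨(ν : ℤ), 1⟩ : G) then F ν else 0 := by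
  rw [← sum_filter, ← sum_filter]
  refine sum_bij_ne_zero (fun u' _ _ => (dot u u').toNat) (fun u' h1 h2 => ?_)
    (fun a h1 _ b h2 _ h => ?_) (fun ν h1 h2 => ?_) (fun _ _ _ => rfl)
  · obtain ⟨-, i1, i2⟩ := mem_filter.1 h1
    refine mem_filter.2 ⟨mem_range.2 (hF _ h2).1, u', ?_⟩
    rw [star_mul_eq, i1, Int.toNat_of_nonneg i2]
  · obtain ⟨-, i1, i2⟩ := mem_filter.1 h1
    obtain ⟨-, i3, i4⟩ := mem_filter.1 h2
    refine mul_left_cancel₀ (star_ne_zero.2 hu) ?_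
    have : dot u a = dot u b := by omega
    rw [star_mul_eq, star_mul_eq, i1, i3, this]
  · obtain ⟨-, u', i1⟩ := mem_filter.1 h1
    have i2 := congrArg nm i1
    rw [nm_mul, nm_star] at i2
    have i3 : nm (⟨(ν : ℤ), 1⟩ : G) = ν ^ 2 + 1 := by exact_mod_cast nm_mk ν
    rw [star_mul_eq] at i1
    have i4 : dot u u' = ν := (congrArg Zsqrtd.re i1).symm
    have i5 : det u u' = 1 := (congrArg Zsqrtd.im i1).symm
    have i6 : (dot u u').toNat = ν := by rw [i4, Int.toNat_natCast]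
    refine ⟨u', mem_filter.2 ⟨mem_disc.2 ⟨(ne_of_det i5).2, ?_⟩, i5, by omega⟩, by rwa [i6], i6⟩
    refine Nat.le_of_mul_le_mul_left ?_ (nm_pos hu)
    rw [← i2, i3]
    exact (hF ν h2).2

end ThinAux

open Classical in
/-- Unimodular pairs and roots of the congruence. -/
theorem sum_pairs_eq (Y Z M : ℕ) (F : ℕ → ℕ → ℝ)
    (hF : ∀ d ν, 1 ≤ d → d ≤ Y → F d ν ≠ 0 → ν < M ∧ ν ^ 2 + 1 ≤ d * Z) :
    ∑ u ∈ disc Y, ∑ u' ∈ disc Z,
      (if det u u' = 1 ∧ 0 ≤ dot u u' then F (nm u) (dot u u').toNat else 0) =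
      4 * ∑ d ∈ Icc 1 Y, ∑ ν ∈ (range M).filter (fun ν => d ∣ ν ^ 2 + 1), F d ν := by
  rw [sum_congr rfl fun u hu => sum_partner_eq (mem_disc.1 hu).1 Z M (F (nm u))
    fun ν => hF _ ν (nm_pos (mem_disc.1 hu).1) (mem_disc.1 hu).2, sum_disc_eq, mul_sum,
    sum_subset (s₁ := Icc 1 Y) (s₂ := range (Y + 1))
      (fun d hd => mem_range.2 (Nat.lt_succ_of_le (mem_Icc.1 hd).2))]
  · refine sum_congr rfl fun d _ => ?_
    rw [sum_comm, sum_filter, mul_sum]
    refine sum_congr rfl fun ν _ => ?_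
    rw [← sum_filter, sum_congr rfl (g := fun _ => F d ν)
      fun u hu => by rw [(mem_shell.1 (mem_filter.1 hu).1).2], sum_const, nsmul_eq_mul]
    split_ifs with h
    · rw [four_divisors (by exact_mod_cast h)]
      norm_num
    · rw [filter_eq_empty_iff.2, card_empty, Nat.cast_zero, zero_mul, mul_zero]
      intro u hu hdv
      have i1 := nm_dvd hdv
      have i3 : nm (⟨(ν : ℤ), 1⟩ : G) = ν ^ 2 + 1 := by exact_mod_cast nm_mk ν
      rw [nm_star, (mem_shell.1 hu).2, i3] at i1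
      exact h i1
  · intro d h1 h2
    have : d = 0 := by
      rw [mem_range] at h1
      rw [mem_Icc] at h2
      omega
    subst this
    simp

namespace ThinAux

lemma exists_partner (e : G) : ∃ f : G, cont e = 1 →
    det e f = 1 ∧ 0 ≤ dot e f ∧ nm f ≤ nm e ∧ dot e f ≤ nm e := by
  by_cases he : cont e = 1
  swap
  · exact ⟨0, fun h => absurd h he⟩
  obtain ⟨x, y, hxy⟩ := bezout_of_cont he
  have hN : (0 : ℤ) < nm e := by exact_mod_cast nm_pos (ne_zero_of_cont he)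
  have h1 : det e ⟨-y, x⟩ = 1 := by simp only [det]; linarith
  set t := dot e ⟨-y, x⟩ with ht
  set f : G := ⟨-y, x⟩ + ((-(t / nm e) : ℤ) : G) * e with hf
  have h2 : det e f = 1 := by rw [hf, det_add_mul, h1]
  have h3 : dot e f = t % nm e := by rw [hf, dot_add_mul, Int.emod_def]; ring
  have h4 : 0 ≤ dot e f := h3 ▸ Int.emod_nonneg _ hN.ne'
  have h5 : dot e f < nm e := h3 ▸ Int.emod_lt_of_pos _ hN
  refine ⟨f, fun _ => ⟨h2, h4, ?_, h5.le⟩⟩
  have h6 := dot_sq_add_det_sq e f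
  rw [h2] at h6
  have h7 : (nm e : ℤ) * nm f ≤ nm e * nm e := by nlinarith
  exact_mod_cast le_of_mul_le_mul_left h7 hN

lemma exists_matrix {α β : ℝ} (hαβ : α < β) : ∃ h h' : G, det h h' = 1 ∧ 1 ≤ h.re ∧ 1 ≤ h.im ∧
    α * h.re ≤ h'.re ∧ (h'.im : ℝ) ≤ β * h.im := by
  obtain ⟨q, hq1, hq2⟩ := exists_rat_btwn hαβ
  obtain ⟨s, t, hst⟩ : IsCoprime (q.den : ℤ) q.num := by
    rw [Int.isCoprime_iff_gcd_eq_one, Int.gcd_comm]
    simpa [Int.gcd] using q.reduced
  have hx : (1 : ℤ) ≤ q.den := by exact_mod_cast q.pos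
  have hx' : (1 : ℝ) ≤ q.den := by exact_mod_cast q.pos
  set n : ℕ := ⌈1 / (β - q)⌉₊ + 1 with hn
  set k : ℤ := |t| + n with hk
  have hy : (n : ℤ) ≤ -t + k * q.den := by
    have := le_abs_self t
    have : 0 ≤ k := by positivity
    nlinarith
  have hdet : (q.den : ℤ) * (s + k * q.num) - (-t + k * q.den) * q.num = 1 := by
    linear_combination hst
  have hq : (q.num : ℝ) = q * q.den := by exact_mod_cast (Rat.mul_den_eq_num q).symm
  refine ⟨⟨q.den, -t + k * q.den⟩, ⟨q.num, s + k * q.num⟩, hdet, hx, le_trans (by omega) hy, ?_, ?_⟩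
  · simp only [Int.cast_natCast]
    rw [hq]
    exact mul_le_mul_of_nonneg_right hq1.le (by positivity)
  · simp only
    set y : ℤ := -t + k * q.den
    set y' : ℤ := s + k * q.num
    have i1 : (q.den : ℝ) * y' - y * q.num = 1 := by exact_mod_cast hdet
    have i2 : (n : ℝ) ≤ y := by exact_mod_cast hy
    have i3 : 1 / (β - q) ≤ n := (Nat.le_ceil _).trans (by rw [hn]; push_cast; linarith)
    have i4 : 1 ≤ y * (β - q) := (div_le_iff₀ (sub_pos.2 hq2)).1 (i3.trans i2)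
    refine le_of_mul_le_mul_left (a := (q.den : ℝ)) ?_ (by positivity)
    rw [hq] at i1
    nlinarith

lemma slope_mem {α β : ℝ} {h h' : G} (h1 : det h h' = 1) (h2 : 1 ≤ h.re) (h3 : 1 ≤ h.im)
    (h4 : α * h.re ≤ h'.re) (h5 : (h'.im : ℝ) ≤ β * h.im) {e : G × G} (he : det e.1 e.2 = 1)
    (he' : 0 ≤ dot e.1 e.2) :
    α * nm (act e h) ≤ dot (act e h) (act e h') ∧
      (dot (act e h) (act e h') : ℝ) < β * nm (act e h) := by
  have hA : (0 : ℤ) < nm e.1 := by exact_mod_cast nm_pos (ne_of_det he).1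
  have hC : (0 : ℤ) ≤ nm e.2 := Int.natCast_nonneg _
  rw [det] at h1
  have i1 : h.re * dot (act e h) (act e h') - h'.re * nm (act e h) =
      h.re * dot e.1 e.2 + h.im * nm e.2 := by
    rw [dot_act_act, nm_act]
    linear_combination (h.re * dot e.1 e.2 + h.im * nm e.2) * h1
  have i2 : h'.im * nm (act e h) - h.im * dot (act e h) (act e h') =
      h.re * nm e.1 + h.im * dot e.1 e.2 := by
    rw [dot_act_act, nm_act]
    linear_combination (h.re * nm e.1 + h.im * dot e.1 e.2) * h1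
  have i3 : h'.re * nm (act e h) ≤ h.re * dot (act e h) (act e h') := by nlinarith
  have i4 : h.im * dot (act e h) (act e h') < h'.im * nm (act e h) := by nlinarith
  have i5 : (h'.re : ℝ) * nm (act e h) ≤ h.re * dot (act e h) (act e h') := by exact_mod_cast i3
  have i6 : (h.im : ℝ) * dot (act e h) (act e h') < h'.im * nm (act e h) := by exact_mod_cast i4
  have i7 : (1 : ℝ) ≤ h.re := by exact_mod_cast h2
  have i8 : (1 : ℝ) ≤ h.im := by exact_mod_cast h3
  have hN : (0 : ℝ) ≤ nm (act e h) := Nat.cast_nonneg _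
  constructor
  · refine le_of_mul_le_mul_left (a := (h.re : ℝ)) ?_ (by linarith)
    nlinarith [mul_le_mul_of_nonneg_right h4 hN]
  · refine lt_of_mul_lt_mul_left (a := (h.im : ℝ)) ?_ (by linarith)
    nlinarith [mul_le_mul_of_nonneg_right h5 hN]

end ThinAux

/-- The roots with `ν / d` in an interval have positive density. -/
theorem mass {α β : ℝ} (hα : 0 ≤ α) (hαβ : α < β) : ∃ c : ℝ, 0 < c ∧ ∀ᶠ Y : ℕ in atTop,
    c * Y ≤ ∑ d ∈ Icc 1 Y,
      (((Ico ⌈α * d⌉₊ ⌈β * d⌉₊).filter fun ν => d ∣ ν ^ 2 + 1).card : ℝ) := by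
  classical
  obtain ⟨h, h', h1, h2, h3, h4, h5⟩ := exists_matrix hαβ
  obtain ⟨c, hc, hev⟩ := card_An_lower
  choose f hf using exists_partner
  set L : ℝ := ((h.re : ℝ) + h.im) ^ 2 with hL
  have i7 : (1 : ℝ) ≤ h.re := by exact_mod_cast h2
  have i8 : (1 : ℝ) ≤ h.im := by exact_mod_cast h3
  have hL0 : 0 < L := by positivity
  have hβ : 0 < β := hα.trans_lt hαβ
  refine ⟨c / L / 4, by positivity, ?_⟩
  filter_upwards [(tendsto_natCast_atTop_atTop.atTop_div_const hL0).eventually hev] with Y hY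
  set F : ℕ → ℕ → ℝ := fun d ν => if ν ∈ Ico ⌈α * d⌉₊ ⌈β * d⌉₊ then 1 else 0 with hFdef
  set Z : ℕ := ⌈β ^ 2 * Y⌉₊ + 1 with hZ
  have hF : ∀ d ν, 1 ≤ d → d ≤ Y → F d ν ≠ 0 → ν < ⌈β * Y⌉₊ ∧ ν ^ 2 + 1 ≤ d * Z := by
    intro d ν d1 d2 hne
    have j1 : ν ∈ Ico ⌈α * d⌉₊ ⌈β * d⌉₊ := by
      by_contra hcon
      exact hne (if_neg hcon)
    have j2 : (ν : ℝ) < β * d := Nat.lt_ceil.1 (mem_Ico.1 j1).2
    have j3 : (d : ℝ) ≤ Y := by exact_mod_cast d2
    have j4 : (1 : ℝ) ≤ d := by exact_mod_cast d1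
    refine ⟨Nat.lt_ceil.2 (j2.trans_le (by gcongr)), ?_⟩
    have j5 : (ν : ℝ) ^ 2 ≤ (β * d) ^ 2 := pow_le_pow_left₀ (Nat.cast_nonneg _) j2.le 2
    have j6 : β ^ 2 * d ≤ ⌈β ^ 2 * Y⌉₊ := le_trans (by gcongr) (Nat.le_ceil _)
    have j7 : (ν : ℝ) ^ 2 + 1 ≤ d * ((⌈β ^ 2 * Y⌉₊ : ℝ) + 1) := by nlinarith
    exact_mod_cast j7
  have key := sum_pairs_eq Y Z ⌈β * Y⌉₊ F hF
  have up : ∑ d ∈ Icc 1 Y, ∑ ν ∈ (range ⌈β * Y⌉₊).filter (fun ν => d ∣ ν ^ 2 + 1), F d ν ≤
      ∑ d ∈ Icc 1 Y, (((Ico ⌈α * d⌉₊ ⌈β * d⌉₊).filter fun ν => d ∣ ν ^ 2 + 1).card : ℝ) := by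
    refine sum_le_sum fun d _ => ?_
    simp only [hFdef]
    rw [sum_boole]
    exact Nat.cast_le.2 (card_le_card fun ν hν => mem_filter.2
      ⟨(mem_filter.1 hν).2, (mem_filter.1 (mem_filter.1 hν).1).2⟩)
  set φ : G → G × G := fun e => (act (e, f e) h, act (e, f e) h') with hφ
  have hinj : Function.Injective φ := by
    intro e e' hee
    have j1 : ∀ e : G, e = (h'.im : G) * (φ e).1 - (h.im : G) * (φ e).2 := by
      intro e
      have j2 : ((h.re * h'.im - h.im * h'.re : ℤ) : G) = 1 := by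
        rw [det] at h1
        rw [h1, Int.cast_one]
      push_cast at j2
      simp only [hφ, act]
      linear_combination (-e) * j2
    rw [j1 e, j1 e', hee]
  have hgood : ∀ e ∈ An 0 (Y / L), φ e ∈ disc Y ×ˢ disc Z ∧
      (if det (φ e).1 (φ e).2 = 1 ∧ 0 ≤ dot (φ e).1 (φ e).2 then
        F (nm (φ e).1) (dot (φ e).1 (φ e).2).toNat else 0) = 1 := by
    intro e he
    obtain ⟨j1, -, j2⟩ := (mem_An le_rfl).1 he
    obtain ⟨j3, j4, j5, j6⟩ := hf e j1
    obtain ⟨k1, k2⟩ := slope_mem h1 h2 h3 h4 h5 (e := (e, f e)) j3 j4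
    have k3 : det (φ e).1 (φ e).2 = 1 := by
      simp only [hφ]
      rw [det_act, h1, j3, mul_one]
    have k4 : 0 ≤ dot (φ e).1 (φ e).2 := by
      have : (0 : ℝ) ≤ dot (φ e).1 (φ e).2 := le_trans (by positivity) k1
      exact_mod_cast this
    have k5 : (((dot (φ e).1 (φ e).2).toNat : ℕ) : ℝ) = dot (φ e).1 (φ e).2 := by
      exact_mod_cast Int.toNat_of_nonneg k4
    have k6 : F (nm (φ e).1) (dot (φ e).1 (φ e).2).toNat = 1 :=
      if_pos (mem_Ico.2 ⟨Nat.ceil_le.2 (k5 ▸ k1), Nat.lt_ceil.2 (k5 ▸ k2)⟩)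
    have k7 : nm (φ e).1 ≤ Y := by
      have l1 : (nm (φ e).1 : ℤ) ≤ (h.re + h.im) ^ 2 * nm e := by
        simp only [hφ]
        rw [nm_act]
        have l2 : (nm (f e) : ℤ) ≤ nm e := by exact_mod_cast j5
        have l3 : 0 ≤ h.re * h.im := by positivity
        simp only
        nlinarith [mul_le_mul_of_nonneg_left j6 l3, mul_le_mul_of_nonneg_left l2 (sq_nonneg h.im)]
      have l4 : (nm (φ e).1 : ℝ) ≤ L * nm e := by
        rw [hL]
        exact_mod_cast l1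
      rw [le_div_iff₀ hL0] at j2
      have l5 : (nm (φ e).1 : ℝ) ≤ Y := by linarith
      exact_mod_cast l5
    have k8 := nm_pos (ne_of_det k3).1
    refine ⟨mem_product.2 ⟨mem_disc.2 ⟨(ne_of_det k3).1, k7⟩, mem_disc.2 ⟨(ne_of_det k3).2, ?_⟩⟩,
      by rw [if_pos ⟨k3, k4⟩, k6]⟩
    have k9 := (hF _ _ k8 k7 (by rw [k6]; exact one_ne_zero)).2
    refine Nat.le_of_mul_le_mul_left (le_trans (le_of_eq ?_) k9) k8
    have := dot_sq_add_det_sq (φ e).1 (φ e).2
    rw [k3, ← Int.toNat_of_nonneg k4] at this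
    exact_mod_cast this.symm
  have low : ((An 0 (Y / L)).card : ℝ) ≤ ∑ u ∈ disc Y, ∑ u' ∈ disc Z,
      (if det u u' = 1 ∧ 0 ≤ dot u u' then F (nm u) (dot u u').toNat else 0) := by
    rw [← sum_product']
    refine le_trans (le_of_eq ?_) (sum_le_sum_of_subset_of_nonneg (s := (An 0 (Y / L)).image φ)
      (fun p hp => ?_) (fun p _ _ => ?_))
    · rw [sum_image fun _ _ _ _ h => hinj h, sum_congr rfl fun e he => (hgood e he).2]
      simp
    · obtain ⟨e, he, rfl⟩ := mem_image.1 hp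
      exact (hgood e he).1
    · simp only [hFdef]
      split_ifs <;> norm_num
  have e1 : c / L / 4 * Y = c * (Y / L) / 4 := by ring
  rw [e1]
  linarith

end Pool.Agent.P.MP_a1177c_nt.LC
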