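import Pool.Agent.P.MP_a1177c_nt.LC.MainPhi
import Pool.Agent.P.MP_a1177c_nt.LC.Thin

namespace Pool.Agent.P.MP_a1177c_nt.LC

open Finset Filter MR MR.StructAux
open scoped ComplexConjugate Topology

namespace FinAux

lemma sum_inv_le (X : ℕ) : ∑ Y ∈ Icc 1 X, (1 : ℝ) / Y ≤ 1 + Real.log X := by
  have h := harmonic_le_one_add_log X
  rw [harmonic_eq_sum_Icc] at h
  push_cast at h
  simpa only [one_div] using h

lemma sum_inv_sq_le (X : ℕ) : ∑ Y ∈ Icc 1 X, (1 : ℝ) / (Y : ℝ) ^ 2 ≤ 2 := by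
  have key : ∀ X : ℕ, ∑ Y ∈ Icc 1 (X + 1), (1 : ℝ) / (Y : ℝ) ^ 2 ≤ 2 - 1 / (X + 1 : ℝ) := by
    intro X
    induction X with
    | zero => norm_num
    | succ n ih =>
      rw [sum_Icc_succ_top (by omega)]
      have h : (1 : ℝ) / ((n + 1 + 1 : ℕ) : ℝ) ^ 2 ≤ 1 / (n + 1 : ℝ) - 1 / (n + 1 + 1 : ℝ) := by
        push_cast
        rw [div_sub_div _ _ (by positivity) (by positivity), div_le_div_iff₀ (by positivity)
          (by positivity)]
        nlinarith [Nat.cast_nonneg (α := ℝ) n]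
      push_cast at h ⊢
      linarith
  rcases X with _ | X
  · simp
  · have := key X
    have h2 : (0 : ℝ) ≤ 1 / (X + 1 : ℝ) := by positivity
    linarith

/-- Logarithmic averages: approximation lemma. -/
lemma tendsto_of_approx (f : ℕ → ℝ) (hf : ∀ Y, 0 ≤ f Y)
    (h : ∀ ε : ℝ, 0 < ε → ∃ (g : ℕ → ℝ) (C : ℝ), 0 ≤ C ∧
      Tendsto (fun X : ℕ => (∑ Y ∈ Icc 1 X, g Y / (Y : ℝ) ^ 2) / Real.log X) atTop (𝓝 0) ∧
      ∀ Y, 1 ≤ Y → f Y ≤ g Y + ε * Y + C) :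
    Tendsto (fun X : ℕ => (∑ Y ∈ Icc 1 X, f Y / (Y : ℝ) ^ 2) / Real.log X) atTop (𝓝 0) := by
  rw [tendsto_order]
  have hlog : Tendsto (fun X : ℕ => Real.log X) atTop atTop :=
    Real.tendsto_log_atTop.comp tendsto_natCast_atTop_atTop
  constructor
  · intro a ha
    refine Eventually.of_forall fun X => ha.trans_le ?_
    exact div_nonneg (sum_nonneg fun Y _ => div_nonneg (hf Y) (by positivity))
      (Real.log_natCast_nonneg X)
  · intro a ha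
    obtain ⟨g, C, hC, hg, hb⟩ := h (a / 8) (by positivity)
    have h1 := (tendsto_order.1 hg).2 (a / 4) (by positivity)
    filter_upwards [h1, hlog.eventually_ge_atTop 1, hlog.eventually_ge_atTop (8 * C / a)]
      with X h1 h2 h3
    have hl : 0 < Real.log X := by linarith
    have h4 : ∑ Y ∈ Icc 1 X, f Y / (Y : ℝ) ^ 2 ≤ ∑ Y ∈ Icc 1 X, g Y / (Y : ℝ) ^ 2 +
        a / 8 * ∑ Y ∈ Icc 1 X, (1 : ℝ) / Y + C * ∑ Y ∈ Icc 1 X, (1 : ℝ) / (Y : ℝ) ^ 2 := by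
      rw [mul_sum, mul_sum, ← sum_add_distrib, ← sum_add_distrib]
      refine sum_le_sum fun Y hY => ?_
      have hY1 := (mem_Icc.1 hY).1
      have hY0 : (0 : ℝ) < Y := by exact_mod_cast hY1
      calc f Y / (Y : ℝ) ^ 2 ≤ (g Y + a / 8 * Y + C) / (Y : ℝ) ^ 2 :=
            div_le_div_of_nonneg_right (hb Y hY1) (by positivity)
        _ = _ := by field_simp
    have h5 := sum_inv_le X
    have h6 := sum_inv_sq_le X
    rw [div_lt_iff₀ hl] at h1 ⊢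
    rw [div_le_iff₀ ha] at h3
    have h7 : a / 8 * ∑ Y ∈ Icc 1 X, (1 : ℝ) / Y ≤ a / 8 * (2 * Real.log X) :=
      mul_le_mul_of_nonneg_left (by linarith) (by positivity)
    have h8 : C * ∑ Y ∈ Icc 1 X, (1 : ℝ) / (Y : ℝ) ^ 2 ≤ C * 2 := mul_le_mul_of_nonneg_left h6 hC
    have h9 : 0 < a * Real.log X := by positivity
    nlinarith

/-- A trapezoid. -/
noncomputable def trap (a b δ r : ℝ) : ℝ := max (min (min ((r - a) / δ) ((b - r) / δ)) 1) 0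

lemma trap_nonneg (a b δ r : ℝ) : 0 ≤ trap a b δ r := le_max_right _ _

lemma trap_le_one (a b δ r : ℝ) : trap a b δ r ≤ 1 := max_le (min_le_right _ _) zero_le_one

lemma trap_lip {δ : ℝ} (hδ : 0 < δ) (a b x y : ℝ) :
    |trap a b δ x - trap a b δ y| ≤ 1 / δ * |x - y| := by
  have e1 : |(x - a) / δ - (y - a) / δ| = 1 / δ * |x - y| := by
    rw [show (x - a) / δ - (y - a) / δ = 1 / δ * (x - y) by ring, abs_mul,
      abs_of_pos (by positivity)]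
  have e2 : |(b - x) / δ - (b - y) / δ| = 1 / δ * |x - y| := by
    rw [show (b - x) / δ - (b - y) / δ = 1 / δ * (y - x) by ring, abs_mul,
      abs_of_pos (by positivity), abs_sub_comm]
  refine (abs_max_sub_max_le_abs _ _ _).trans ((abs_min_sub_min_le_max _ _ _ _).trans ?_)
  refine max_le ((abs_min_sub_min_le_max _ _ _ _).trans ?_) (by simp; positivity)
  rw [e1, e2, max_self]

lemma trap_supp {δ : ℝ} (hδ : 0 < δ) {a b r : ℝ} (h : trap a b δ r ≠ 0) : a < r ∧ r < b := by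
  have h1 : 0 < min (min ((r - a) / δ) ((b - r) / δ)) 1 := by
    by_contra hc
    exact h (max_eq_right (not_lt.1 hc))
  simp only [lt_min_iff] at h1
  obtain ⟨⟨h2, h3⟩, -⟩ := h1
  rw [div_pos_iff_of_pos_right hδ] at h2 h3
  constructor <;> linarith

lemma trap_eq_one {δ : ℝ} (hδ : 0 < δ) {a b r : ℝ} (h1 : a + δ ≤ r) (h2 : r ≤ b - δ) :
    trap a b δ r = 1 := by
  have h3 : 1 ≤ min ((r - a) / δ) ((b - r) / δ) :=
    le_min ((one_le_div hδ).2 (by linarith)) ((one_le_div hδ).2 (by linarith))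
  rw [trap, min_eq_right h3, max_eq_left zero_le_one]

/-- The sign. -/
noncomputable def sg (ν : ℕ) : ℝ := (-1 : ℝ) ^ ArithmeticFunction.cardFactors (ν ^ 2 + 1)

lemma abs_sg (ν : ℕ) : |sg ν| = 1 := by simp [sg]

open Classical in
/-- The weighted sum over pairs as a sum over roots. -/
lemma Aφ_eq (φ : ℝ → ℝ) (K Y : ℕ) (hK : 1 ≤ K) (hs : ∀ x, φ x ≠ 0 → x ≤ K) :
    Aφ φ K Y = 4 * ∑ d ∈ Icc 1 Y, ∑ ν ∈ (range (K * Y)).filter (fun ν => d ∣ ν ^ 2 + 1),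
      (if 0 < ν then sg ν * φ (((ν : ℝ) ^ 2 + 1) / (d : ℝ) ^ 2) else 0) := by
  rw [← sum_pairs_eq Y (K * Y) (K * Y)
    (fun d ν => if 0 < ν then sg ν * φ (((ν : ℝ) ^ 2 + 1) / (d : ℝ) ^ 2) else 0)]
  · refine sum_congr rfl fun u hu => sum_congr rfl fun u' hu' => ?_
    have hu0 := (mem_disc.1 hu).1
    have hu0' := (mem_disc.1 hu').1
    by_cases h : det u u' = 1 ∧ 0 < dot u u'
    · obtain ⟨h1, h2⟩ := h
      obtain ⟨ν, hν⟩ := Int.eq_ofNat_of_zero_le h2.le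
      have h3 : ν ^ 2 + 1 = nm u * nm u' := by
        have := dot_sq_add_det_sq u u'
        rw [h1, hν] at this
        exact_mod_cast this
      have h4 : (0 : ℝ) < nm u := by exact_mod_cast nm_pos hu0
      have h5 : ((ν : ℝ) ^ 2 + 1) / (nm u : ℝ) ^ 2 = nm u' / nm u := by
        have : (ν : ℝ) ^ 2 + 1 = nm u * nm u' := by exact_mod_cast h3
        rw [this]; field_simp
      rw [if_pos ⟨h1, h2⟩, if_pos ⟨h1, h2.le⟩, hν, Int.toNat_natCast, if_pos (by omega), h5,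
        ← lam_mul hu0 hu0', lam, nm_mul, sg, h3]
    · rw [if_neg h]
      split_ifs with h1 h2
      · exact absurd ⟨h1.1, by omega⟩ h
      · rfl
      · rfl
  · intro d ν hd hdY h
    have h1 : φ (((ν : ℝ) ^ 2 + 1) / (d : ℝ) ^ 2) ≠ 0 := by
      intro h0
      simp [h0] at h
    have h2 := hs _ h1
    have hd0 : (0 : ℝ) < d := by exact_mod_cast hd
    rw [div_le_iff₀ (by positivity)] at h2
    have h3 : ν ^ 2 + 1 ≤ K * d ^ 2 := by exact_mod_cast h2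
    have h4 : K * d ^ 2 ≤ d * (K * Y) := by
      calc K * d ^ 2 = d * (K * d) := by ring
        _ ≤ d * (K * Y) := by gcongr
    refine ⟨?_, h3.trans h4⟩
    have h5 : d * (K * Y) ≤ (K * Y) * (K * Y) :=
      Nat.mul_le_mul_right _ (hdY.trans (Nat.le_mul_of_pos_left _ hK))
    by_contra hc
    have h6 : (K * Y) * (K * Y) ≤ ν * ν := Nat.mul_le_mul (not_lt.1 hc) (not_lt.1 hc)
    nlinarith

open Classical in
/-- Roots in a thin window. -/
lemma thin_roots : ∃ C : ℝ, 0 < C ∧ ∀ (γ : ℝ) (B K Y : ℕ), 1 ≤ B → 0 ≤ γ →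
    (γ + 1) ^ 2 + 1 ≤ K →
    4 * ∑ d ∈ Icc 1 Y, ∑ ν ∈ (range (K * Y)).filter (fun ν => d ∣ ν ^ 2 + 1),
      (if |(ν : ℝ) / d - γ| ≤ 1 / (B : ℝ) ^ 2 then (1 : ℝ) else 0) ≤ C * Y / B + C * (B : ℝ) ^ 2 := by
  obtain ⟨C, hC, h⟩ := thin
  refine ⟨C, hC, fun γ B K Y hB hγ hK => ?_⟩
  rw [← sum_pairs_eq Y (K * Y) (K * Y)
    (fun d ν => if |(ν : ℝ) / d - γ| ≤ 1 / (B : ℝ) ^ 2 then (1 : ℝ) else 0)]
  · refine le_trans (le_of_eq ?_) (h γ B Y ((disc Y ×ˢ disc (K * Y)).filter fun e =>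
      (det e.1 e.2 = 1 ∧ 0 ≤ dot e.1 e.2) ∧
        |((dot e.1 e.2).toNat : ℝ) / nm e.1 - γ| ≤ 1 / (B : ℝ) ^ 2) hB ?_)
    · rw [card_filter, ← sum_product']
      push_cast
      refine sum_congr rfl fun e _ => ?_
      simp only [ite_and]
    · intro e he
      obtain ⟨h1, ⟨h2, h3⟩, h4⟩ := mem_filter.1 he
      refine ⟨h2, (mem_disc.1 (mem_product.1 h1).1).2, ?_⟩
      have : ((dot e.1 e.2).toNat : ℝ) = (dot e.1 e.2 : ℝ) := by
        exact_mod_cast Int.toNat_of_nonneg h3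
      rwa [this] at h4
  · intro d ν hd hdY h0
    have h1 : |(ν : ℝ) / d - γ| ≤ 1 / (B : ℝ) ^ 2 := by
      by_contra hc
      exact h0 (if_neg hc)
    have hd0 : (1 : ℝ) ≤ d := by exact_mod_cast hd
    have hB0 : (1 : ℝ) ≤ B := by exact_mod_cast hB
    have hY0 : (d : ℝ) ≤ Y := by exact_mod_cast hdY
    have h2 : 1 / (B : ℝ) ^ 2 ≤ 1 := by
      rw [div_le_one (by positivity)]; nlinarith
    have h3 : (ν : ℝ) ≤ (γ + 1) * d := by
      rw [← div_le_iff₀ (by positivity)]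
      linarith [(abs_le.1 h1).2]
    have h4 : (ν : ℝ) ^ 2 ≤ ((γ + 1) * d) ^ 2 := by gcongr
    have hK0 : (0 : ℝ) ≤ K := by positivity
    have h5 : (K : ℝ) * d ≤ K * Y := by gcongr
    constructor
    · have : (ν : ℝ) < K * Y := by nlinarith
      exact_mod_cast this
    · have h6 : ((γ + 1) ^ 2 + 1) * (d : ℝ) ^ 2 ≤ K * d ^ 2 := by gcongr
      have h7 : (d : ℝ) * (K * d) ≤ d * (K * Y) := by gcongr
      have : (ν : ℝ) ^ 2 + 1 ≤ d * (K * Y) := by nlinarith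
      exact_mod_cast this

/-- Comparison of the indicator with the trapezoid. -/
lemma point {α β h t e : ℝ} (hα : 0 ≤ α) (hαβ : α < β) (hh : 0 < h) (ht : 0 ≤ t) (he0 : 0 ≤ e)
    (he : e ≤ h ^ 2 / 2) (h1 : ¬ |t - α| ≤ h) (h2 : ¬ |t - β| ≤ h) :
    trap (α ^ 2 + h ^ 2 / 2) (β ^ 2 + h ^ 2 / 2) (h ^ 2 / 2) (t ^ 2 + e) =
      if α ≤ t ∧ t < β then 1 else 0 := by
  have hδ : 0 < h ^ 2 / 2 := by positivity
  rw [abs_le, not_and_or, not_le, not_le] at h1 h2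
  split_ifs with hc
  · have h3 : α + h < t := by rcases h1 with h1 | h1 <;> linarith [hc.1]
    have h4 : t < β - h := by rcases h2 with h2 | h2 <;> linarith [hc.2]
    refine trap_eq_one hδ ?_ ?_
    · nlinarith
    · nlinarith
  · by_contra h0
    obtain ⟨h3, h4⟩ := trap_supp hδ h0
    refine hc ⟨?_, ?_⟩
    · by_contra h5
      push Not at h5
      nlinarith
    · rcases h2 with h2 | h2
      · linarith
      · nlinarith

open Classical in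
lemma approx {α β : ℝ} (hα : 0 ≤ α) (hαβ : α < β) {B K d ν : ℕ} (hB : 1 ≤ B)
    (hK : (β + 1) ^ 2 + 1 ≤ K) (hd : 1 ≤ d) (hν : d ∣ ν ^ 2 + 1) :
    |(if α * d ≤ ν ∧ ν < β * d then sg ν else 0) - (if 0 < ν then sg ν *
      trap (α ^ 2 + (1 / (B : ℝ) ^ 2) ^ 2 / 2) (β ^ 2 + (1 / (B : ℝ) ^ 2) ^ 2 / 2)
        ((1 / (B : ℝ) ^ 2) ^ 2 / 2) (((ν : ℝ) ^ 2 + 1) / (d : ℝ) ^ 2) else 0)| ≤
      (if |(ν : ℝ) / d - α| ≤ 1 / (B : ℝ) ^ 2 then (1 : ℝ) else 0) +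
      (if |(ν : ℝ) / d - β| ≤ 1 / (B : ℝ) ^ 2 then (1 : ℝ) else 0) +
      (if d < 2 * B ^ 2 ∧ ν < K * (2 * B ^ 2) then (1 : ℝ) else 0) := by
  set h : ℝ := 1 / (B : ℝ) ^ 2 with hh
  set T := trap (α ^ 2 + h ^ 2 / 2) (β ^ 2 + h ^ 2 / 2) (h ^ 2 / 2)
    (((ν : ℝ) ^ 2 + 1) / (d : ℝ) ^ 2) with hT
  have hB0 : (1 : ℝ) ≤ B := by exact_mod_cast hB
  have hd0 : (1 : ℝ) ≤ d := by exact_mod_cast hd
  have hh0 : 0 < h := by positivity
  have hh1 : h ≤ 1 := by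
    rw [hh, div_le_one (by positivity)]; nlinarith
  have hT0 : 0 ≤ T := trap_nonneg _ _ _ _
  have hT1 : T ≤ 1 := trap_le_one _ _ _ _
  have triv : |(if α * d ≤ ν ∧ ν < β * d then sg ν else 0) - (if 0 < ν then sg ν * T else 0)|
      ≤ 1 := by
    split_ifs
    · rw [show sg ν - sg ν * T = sg ν * (1 - T) by ring, abs_mul, abs_sg, one_mul, abs_le]
      constructor <;> linarith
    · rw [sub_zero, abs_sg]
    · rw [zero_sub, abs_neg, abs_mul, abs_sg, one_mul, abs_le]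
      constructor <;> linarith
    · simp
  have n1 : (0 : ℝ) ≤ if |(ν : ℝ) / d - α| ≤ h then (1 : ℝ) else 0 := by positivity
  have n2 : (0 : ℝ) ≤ if |(ν : ℝ) / d - β| ≤ h then (1 : ℝ) else 0 := by positivity
  have n3 : (0 : ℝ) ≤ if d < 2 * B ^ 2 ∧ ν < K * (2 * B ^ 2) then (1 : ℝ) else 0 := by positivity
  by_cases c1 : |(ν : ℝ) / d - α| ≤ h
  · rw [if_pos c1]; linarith
  by_cases c2 : |(ν : ℝ) / d - β| ≤ h
  · rw [if_pos c2]; linarith
  by_cases c3 : d < 2 * B ^ 2 ∧ ν < K * (2 * B ^ 2)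
  · rw [if_pos c3]; linarith
  refine le_trans (le_of_eq ?_) (add_nonneg (add_nonneg n1 n2) n3)
  rw [abs_eq_zero, sub_eq_zero]
  by_cases c4 : d < 2 * B ^ 2
  · have c5 : K * (2 * B ^ 2) ≤ ν := not_lt.1 fun h => c3 ⟨c4, h⟩
    have c6 : K * d ≤ ν := le_trans (Nat.mul_le_mul_left _ c4.le) c5
    have c7 : (K : ℝ) * d ≤ ν := by exact_mod_cast c6
    have hβ : 0 < β := hα.trans_lt hαβ
    have c8 : β + 1 ≤ K := by nlinarith
    have c9 : (β + 1) * d ≤ ν := le_trans (by gcongr) c7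
    have hT2 : T = 0 := by
      by_contra h0
      have h3 := (trap_supp (by positivity) h0).2
      rw [div_lt_iff₀ (by positivity)] at h3
      have h4 : ((β + 1) * d) ^ 2 ≤ (ν : ℝ) ^ 2 := by gcongr
      have h5 : (β ^ 2 + h ^ 2 / 2) * (d : ℝ) ^ 2 ≤ (β + 1) ^ 2 * d ^ 2 := by
        gcongr; nlinarith
      nlinarith
    rw [if_neg (fun h => by nlinarith [h.2]), hT2]; simp
  · have c5 : 2 * B ^ 2 ≤ d := not_lt.1 c4
    have c6 : 2 * (B : ℝ) ^ 2 ≤ d := by exact_mod_cast c5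
    have c7 : 0 < ν := by
      rcases Nat.eq_zero_or_pos ν with rfl | h
      · have := Nat.le_of_dvd (by norm_num) hν
        have h2 : 1 ≤ B ^ 2 := Nat.one_le_pow _ _ hB
        omega
      · exact h
    have c8 : 1 / (d : ℝ) ^ 2 ≤ h ^ 2 / 2 := by
      rw [hh, div_pow, one_pow, div_div, div_le_div_iff₀ (by positivity) (by positivity)]
      have : (2 * (B : ℝ) ^ 2) ^ 2 ≤ (d : ℝ) ^ 2 := by gcongr
      nlinarith [sq_nonneg ((B : ℝ) ^ 2)]
    have c9 := point (t := (ν : ℝ) / d) hα hαβ hh0 (by positivity) (by positivity) c8 c1 c2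
    have e : ((ν : ℝ) ^ 2 + 1) / (d : ℝ) ^ 2 = ((ν : ℝ) / d) ^ 2 + 1 / (d : ℝ) ^ 2 := by
      field_simp
    have hd1 : (0 : ℝ) < d := by positivity
    rw [if_pos c7, hT, e, c9]
    simp only [le_div_iff₀ hd1, div_lt_iff₀ hd1, mul_ite, mul_one, mul_zero]

open Classical in
lemma sum_small (Y M D L : ℕ) :
    ∑ d ∈ Icc 1 Y, ∑ ν ∈ (range M).filter (fun ν => d ∣ ν ^ 2 + 1),
      (if d < D ∧ ν < L then (1 : ℝ) else 0) ≤ D * L := by
  calc _ ≤ ∑ d ∈ Icc 1 Y, (if d < D then (L : ℝ) else 0) := by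
        refine sum_le_sum fun d _ => ?_
        split_ifs with hd
        · simp only [hd, true_and, sum_boole, Nat.cast_le]
          calc _ ≤ (range L).card :=
                card_le_card fun ν hν => mem_range.2 (mem_filter.1 hν).2
            _ = L := card_range L
        · simp [hd]
    _ = (((Icc 1 Y).filter fun d => d < D).card : ℝ) * L := by
        rw [← sum_filter, sum_const, nsmul_eq_mul]
    _ ≤ D * L := by
        gcongr
        calc _ ≤ (range D).card := card_le_card fun d hd => mem_range.2 (mem_filter.1 hd).2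
          _ = D := card_range D

open Classical in
lemma sum_window {α β : ℝ} (hα : 0 ≤ α) (hαβ : α < β) {K Y d : ℕ} (hK : (β + 1) ^ 2 + 1 ≤ K)
    (hd : d ∈ Icc 1 Y) :
    ∑ ν ∈ (Ico ⌈α * d⌉₊ ⌈β * d⌉₊).filter (fun ν => d ∣ ν ^ 2 + 1), sg ν =
      ∑ ν ∈ (range (K * Y)).filter (fun ν => d ∣ ν ^ 2 + 1),
        (if α * d ≤ ν ∧ ν < β * d then sg ν else 0) := by
  rw [← sum_filter]
  refine sum_congr ?_ fun _ _ => rfl
  ext ν
  simp only [mem_filter, mem_Ico, mem_range, Nat.ceil_le, Nat.lt_ceil]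
  constructor
  · rintro ⟨⟨h1, h2⟩, h3⟩
    refine ⟨⟨?_, h3⟩, h1, h2⟩
    have hβ : 0 < β := hα.trans_lt hαβ
    have h4 : β ≤ K := by nlinarith
    have h5 : (d : ℝ) ≤ Y := by exact_mod_cast (mem_Icc.1 hd).2
    have h6 : β * d ≤ K * Y := by gcongr
    have : (ν : ℝ) < K * Y := h2.trans_le h6
    exact_mod_cast this
  · rintro ⟨⟨-, h3⟩, h1, h2⟩
    exact ⟨⟨h1, h2⟩, h3⟩

end FinAux

open FinAux

theorem final_avg {α β : ℝ} (hα : 0 ≤ α) (hαβ : α < β) :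
    Tendsto (fun X : ℕ => (∑ Y ∈ Icc 1 X, |∑ d ∈ Icc 1 Y,
      ∑ ν ∈ (Ico ⌈α * d⌉₊ ⌈β * d⌉₊).filter (fun ν => d ∣ ν ^ 2 + 1),
        (-1 : ℝ) ^ ArithmeticFunction.cardFactors (ν ^ 2 + 1)| / (Y : ℝ) ^ 2) / Real.log X)
      atTop (𝓝 0) := by
  classical
  refine tendsto_of_approx _ (fun Y => abs_nonneg _) fun ε hε => ?_
  obtain ⟨C, hC, hthin⟩ := thin_roots
  obtain ⟨B, hB⟩ := exists_nat_gt (max 1 (2 * C / ε))
  have hB0 : (1 : ℝ) < B := (le_max_left _ _).trans_lt hB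
  have hB1 : 1 ≤ B := by exact_mod_cast hB0.le
  have hB2 : 2 * C / B ≤ ε := by
    have := ((le_max_right _ _).trans_lt hB).le
    rw [div_le_iff₀ hε] at this
    rw [div_le_iff₀ (by positivity)]; linarith
  obtain ⟨K, hK⟩ := exists_nat_ge (max ((β + 1) ^ 2 + 1) (2 * (B : ℝ) ^ 4))
  have hK1 : (β + 1) ^ 2 + 1 ≤ K := (le_max_left _ _).trans hK
  have hK2 : 2 * (B : ℝ) ^ 4 ≤ K := (le_max_right _ _).trans hK
  have hβ : 0 < β := hα.trans_lt hαβ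
  have hK3 : 1 ≤ K := by
    have : (1 : ℝ) ≤ K := by nlinarith
    exact_mod_cast this
  set h : ℝ := 1 / (B : ℝ) ^ 2 with hh
  have hh0 : 0 < h := by positivity
  have hh1 : h ≤ 1 := by
    rw [hh, div_le_one (by positivity)]; nlinarith
  have hδ : 0 < h ^ 2 / 2 := by positivity
  set φ : ℝ → ℝ := trap (α ^ 2 + h ^ 2 / 2) (β ^ 2 + h ^ 2 / 2) (h ^ 2 / 2) with hφ
  have hs : ∀ x, φ x ≠ 0 → 1 / (K : ℝ) ≤ x ∧ x ≤ K := by
    intro x hx
    obtain ⟨h1, h2⟩ := trap_supp hδ hx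
    have h3 : 1 / (K : ℝ) ≤ h ^ 2 / 2 := by
      rw [hh, div_pow, one_pow, div_div]
      exact one_div_le_one_div_of_le (by positivity) (by nlinarith)
    constructor <;> nlinarith
  refine ⟨fun Y => |Aφ φ K Y|, 2 * (C * (B : ℝ) ^ 2) + 4 * ((2 * B ^ 2 : ℕ) * (K * (2 * B ^ 2) : ℕ)),
    by positivity, main_phi K hK3 φ (1 / (h ^ 2 / 2)) (fun x => ?_) hs (trap_lip hδ _ _),
    fun Y hY => ?_⟩
  · rw [abs_of_nonneg (trap_nonneg _ _ _ _)]; exact trap_le_one _ _ _ _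
  have e1 := Aφ_eq φ K Y hK3 fun x hx => (hs x hx).2
  have e2 := hthin α B K Y hB1 hα (by nlinarith)
  have e3 := hthin β B K Y hB1 hβ.le hK1
  have e4 := sum_small Y (K * Y) (2 * B ^ 2) (K * (2 * B ^ 2))
  have e5 : ∑ d ∈ Icc 1 Y, ∑ ν ∈ (Ico ⌈α * d⌉₊ ⌈β * d⌉₊).filter (fun ν => d ∣ ν ^ 2 + 1),
      (-1 : ℝ) ^ ArithmeticFunction.cardFactors (ν ^ 2 + 1) =
      ∑ d ∈ Icc 1 Y, ∑ ν ∈ (range (K * Y)).filter (fun ν => d ∣ ν ^ 2 + 1),
        (if α * d ≤ ν ∧ ν < β * d then sg ν else 0) :=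
    sum_congr rfl fun d hd => sum_window hα hαβ hK1 hd
  rw [e5]
  set S := ∑ d ∈ Icc 1 Y, ∑ ν ∈ (range (K * Y)).filter (fun ν => d ∣ ν ^ 2 + 1),
    (if α * d ≤ ν ∧ ν < β * d then sg ν else 0) with hS
  set A := ∑ d ∈ Icc 1 Y, ∑ ν ∈ (range (K * Y)).filter (fun ν => d ∣ ν ^ 2 + 1),
    (if 0 < ν then sg ν * φ (((ν : ℝ) ^ 2 + 1) / (d : ℝ) ^ 2) else 0) with hA
  have e6 : |S - A| ≤ ∑ d ∈ Icc 1 Y, ∑ ν ∈ (range (K * Y)).filter (fun ν => d ∣ ν ^ 2 + 1),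
      ((if |(ν : ℝ) / d - α| ≤ h then (1 : ℝ) else 0) +
      (if |(ν : ℝ) / d - β| ≤ h then (1 : ℝ) else 0) +
      (if d < 2 * B ^ 2 ∧ ν < K * (2 * B ^ 2) then (1 : ℝ) else 0)) := by
    rw [hS, hA, ← sum_sub_distrib]
    refine (abs_sum_le_sum_abs _ _).trans (sum_le_sum fun d hd => ?_)
    rw [← sum_sub_distrib]
    refine (abs_sum_le_sum_abs _ _).trans (sum_le_sum fun ν hν => ?_)
    exact approx hα hαβ hB1 hK1 (mem_Icc.1 hd).1 (mem_filter.1 hν).2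
  simp only [sum_add_distrib] at e6
  have e7 : |S| ≤ |A| + |S - A| := by
    have := abs_add_le A (S - A)
    rwa [add_sub_cancel] at this
  have e8 : |Aφ φ K Y| = 4 * |A| := by rw [e1, abs_mul]; norm_num
  have e9 : 2 * (C * Y / B) ≤ ε * Y := by
    calc 2 * (C * Y / B) = 2 * C / B * Y := by ring
      _ ≤ ε * Y := by gcongr
  show |S| ≤ |Aφ φ K Y| + _ + _
  have := abs_nonneg S
  linarith

open Classical in
theorem final {α β ε : ℝ} (hα : 0 ≤ α) (hαβ : α < β) (hε : 0 < ε) :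
    Tendsto (fun X : ℕ => (∑ Y ∈ (Icc 1 X).filter (fun Y : ℕ =>
      ε * ∑ d ∈ Icc 1 Y, (((Ico ⌈α * d⌉₊ ⌈β * d⌉₊).filter fun ν => d ∣ ν ^ 2 + 1).card : ℝ) <
        |∑ d ∈ Icc 1 Y, ∑ ν ∈ (Ico ⌈α * d⌉₊ ⌈β * d⌉₊).filter (fun ν => d ∣ ν ^ 2 + 1),
          (-1 : ℝ) ^ ArithmeticFunction.cardFactors (ν ^ 2 + 1)|), (1 : ℝ) / Y) / Real.log X)
      atTop (𝓝 0) := by
  obtain ⟨c, hc, hm⟩ := mass hα hαβ
  obtain ⟨Y₀, hY₀⟩ := eventually_atTop.1 hm
  have hav := final_avg hα hαβ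
  set S : ℕ → ℝ := fun Y => |∑ d ∈ Icc 1 Y,
    ∑ ν ∈ (Ico ⌈α * d⌉₊ ⌈β * d⌉₊).filter (fun ν => d ∣ ν ^ 2 + 1),
      (-1 : ℝ) ^ ArithmeticFunction.cardFactors (ν ^ 2 + 1)| with hS
  set N : ℕ → ℝ := fun Y => ∑ d ∈ Icc 1 Y,
    (((Ico ⌈α * d⌉₊ ⌈β * d⌉₊).filter fun ν => d ∣ ν ^ 2 + 1).card : ℝ) with hN
  have key := tendsto_of_approx (fun Y => if ε * N Y < S Y then (Y : ℝ) else 0)
    (fun Y => by positivity) fun η hη => by
      refine ⟨fun Y => 1 / (ε * c) * S Y, Y₀, by positivity, ?_, fun Y _ => ?_⟩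
      · have := hav.const_mul (1 / (ε * c))
        rw [mul_zero] at this
        refine this.congr fun X => ?_
        rw [← mul_div_assoc, mul_sum]
        simp only [hS, mul_div_assoc]
      · have h0 : 0 ≤ S Y := abs_nonneg _
        have h1 : 0 ≤ 1 / (ε * c) * S Y := by positivity
        have h2 : 0 ≤ η * Y := by positivity
        have h3 : (0 : ℝ) ≤ Y₀ := by positivity
        show (if ε * N Y < S Y then (Y : ℝ) else 0) ≤ 1 / (ε * c) * S Y + η * Y + Y₀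
        split_ifs with hb
        · rcases le_or_gt Y₀ Y with h4 | h4
          · have h5 : c * Y ≤ N Y := hY₀ Y h4
            have h6 : ε * (c * Y) ≤ ε * N Y := by gcongr
            have h7 : (Y : ℝ) ≤ 1 / (ε * c) * S Y := by
              rw [one_div_mul_eq_div, le_div_iff₀ (by positivity)]; linarith
            linarith
          · have h5 : (Y : ℝ) ≤ Y₀ := by exact_mod_cast h4.le
            linarith
        · linarith
  refine key.congr fun X => ?_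
  rw [sum_filter]
  congr 1
  refine sum_congr rfl fun Y hY => ?_
  have hY0 : (0 : ℝ) < Y := by exact_mod_cast (mem_Icc.1 hY).1
  show (if ε * N Y < S Y then (Y : ℝ) else 0) / (Y : ℝ) ^ 2 = if ε * N Y < S Y then _ else _
  split_ifs
  · field_simp
  · simp

end Pool.Agent.P.MP_a1177c_nt.LC
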