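import Pool.Agent.P.MP_a1177c_nt.LC.Twist
import Pool.Agent.P.MP_a1177c_nt.LC.APDiv
import Pool.Agent.P.MP_a1177c_nt.MR.Euler

namespace Pool.Agent.P.MP_a1177c_nt.LC

open Finset Filter MR MR.StructAux
open scoped ComplexConjugate Topology

namespace HalTwAux

open MR.Eul
open scoped ArithmeticFunction.vonMangoldt

/-- Bounded multiplicative functions that are trivial on units. -/
structure Good1 (g : G → ℂ) : Prop where
  mul : ∀ a b, a ≠ 0 → b ≠ 0 → g (a * b) = g a * g b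
  norm : ∀ a, a ≠ 0 → ‖g a‖ ≤ 1
  unit : ∀ a, IsUnit a → g a = 1

lemma good1_chi (k : ℤ) : Good1 (chi k) :=
  ⟨(good_chi k).mul, fun a h => ((good_chi k).norm a h).le, (good_chi k).unit⟩

lemma norm_cf_le1 {g : G → ℂ} (hg : Good1 g) (n : ℕ) : ‖cf g n‖ ≤ ((shell n).card : ℝ) := by
  refine (norm_sum_le _ _).trans ?_
  refine (sum_le_sum fun a ha => hg.norm a (mem_shell.1 ha).1).trans (le_of_eq ?_)
  simp

lemma sum_norm_cf_le1 {g : G → ℂ} (hg : Good1 g) (y : ℕ) :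
    ∑ n ∈ Icc 1 y, ‖cf g n‖ ≤ 9 * y := by
  rw [sum_Icc_eq _ (by simp [cf])]
  exact (sum_le_sum fun n _ => norm_cf_le1 hg n).trans (sum_card_shell_le y)

lemma norm_lf_le1 {g : G → ℂ} (hg : Good1 g) (n : ℕ) : ‖lf g n‖ ≤ 2 * Λ n := by
  refine (norm_sum_le _ _).trans (le_trans ?_ (sum_shell_LamK_le n))
  refine sum_le_sum fun a ha => ?_
  rw [norm_mul, Complex.norm_real, Real.norm_eq_abs, abs_of_nonneg (LamK_nonneg a)]
  exact mul_le_of_le_one_right (LamK_nonneg a) (hg.norm a (mem_shell.1 ha).1)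

lemma cf_one1 {g : G → ℂ} (hg : Good1 g) : cf g 1 = 4 := by
  rw [cf, sum_congr rfl fun a ha => hg.unit a (nm_eq_one_iff.1 (mem_shell.1 ha).2)]
  simp [card_shell_one]

lemma norm_LSeries_cf1 {g : G → ℂ} (hg : Good1 g) {s : ℂ} (hs : 1 < s.re) :
    ‖LSeries (cf g) s‖ = 4 * Real.exp (LSeries (ll g) s).re := by
  rw [exp_form (absc_le_one (sum_norm_cf_le1 hg)) (norm_lf_le1 hg) (lf_conv g hg.mul) hs,
    cf_one1 hg, norm_mul, Complex.norm_exp]
  simp only [Complex.norm_ofNat]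
  rfl

lemma hasSum_re_ll1 {g : G → ℂ} (hg : Good1 g) {s : ℂ} (hs : 1 < s.re) :
    HasSum (fun n => (LSeries.term (ll g) s n).re) (LSeries (ll g) s).re :=
  Complex.hasSum_re (LSeriesSummable_of_abscissaOfAbsConv_lt_re
    ((absc_div_log (norm_lf_le1 hg)).trans_lt (by exact_mod_cast hs))).hasSum

lemma unit_cases {u : G} (hu : IsUnit u) :
    u = 1 ∨ u = ⟨0, 1⟩ ∨ u = ⟨0, 1⟩ * ⟨0, 1⟩ ∨ u = ⟨0, 1⟩ * (⟨0, 1⟩ * ⟨0, 1⟩) := by
  have h1 : u.re ^ 2 + u.im ^ 2 = 1 := by rw [← nm_int, nm_eq_one_iff.2 hu]; rfl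
  have h2 : -1 ≤ u.re ∧ u.re ≤ 1 := by constructor <;> nlinarith [sq_nonneg u.im]
  have h3 : -1 ≤ u.im ∧ u.im ≤ 1 := by constructor <;> nlinarith [sq_nonneg u.re]
  obtain ⟨x, y⟩ := u
  obtain ⟨h4, h5⟩ := h2
  obtain ⟨h6, h7⟩ := h3
  simp only at h1 h4 h5 h6 h7
  interval_cases x <;> interval_cases y <;> first | (exfalso; revert h1; decide) | decide

lemma good1_gtw {q : ℕ} (hq : 0 < q) {ξ : G → ℂ} (h : Twist q ξ) {r : ℕ}
    (hi : gtw ξ r ⟨0, 1⟩ = 1) (k : ℤ) : Good1 fun a => gtw ξ r a * chi k a := by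
  refine ⟨fun a b ha hb => ?_, fun a ha => ?_, fun a ha => ?_⟩
  · rw [gtw_mul h r ha hb, chi_mul]; ring
  · rw [norm_mul, norm_chi k ha, mul_one]; exact norm_gtw_le hq h r a
  · rw [(good_chi k).unit a ha, mul_one]
    have h0 : (⟨0, 1⟩ : G) ≠ 0 := by decide
    rcases unit_cases ha with rfl | rfl | rfl | rfl
    · simp [gtw, h.one]
    · exact hi
    · rw [gtw_mul h r h0 h0, hi, mul_one]
    · rw [gtw_mul h r h0 (mul_ne_zero h0 h0), gtw_mul h r h0 h0, hi, mul_one, mul_one]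

lemma one_sub_re_pow {z : ℂ} (hz : ‖z‖ = 1) (m : ℕ) :
    1 - (z ^ m).re ≤ (m : ℝ) ^ 2 * (1 - z.re) := by
  have key : ∀ w : ℂ, ‖w‖ = 1 → ‖w - 1‖ ^ 2 = 2 * (1 - w.re) := fun w hw => by
    have h1 := Complex.sq_norm w
    rw [hw, Complex.normSq_apply] at h1
    rw [Complex.sq_norm, Complex.normSq_apply]
    simp only [Complex.sub_re, Complex.sub_im, Complex.one_re, Complex.one_im]
    nlinarith
  have h1 : ‖z ^ m - 1‖ ≤ m * ‖z - 1‖ := by
    rw [← geom_sum_mul, norm_mul]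
    refine mul_le_mul_of_nonneg_right ((norm_sum_le _ _).trans (le_of_eq ?_)) (norm_nonneg _)
    simp [norm_pow, hz]
  have h2 := pow_le_pow_left₀ (norm_nonneg _) h1 2
  rw [mul_pow, key _ (by rw [norm_pow, hz, one_pow]), key _ hz] at h2
  linarith

lemma tw_mul (m : ℕ) (t : ℝ) (n : ℕ) : Eul.tw (m * t) n = Eul.tw t n ^ m := by
  rw [Eul.tw, Eul.tw, ← Complex.cpow_nat_mul]
  congr 1
  push_cast; ring

lemma re_tw (t : ℝ) {n : ℕ} (hn : n ≠ 0) : (Eul.tw t n).re = Real.cos (t * Real.log n) := by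
  have hn' : (n : ℂ) ≠ 0 := by exact_mod_cast hn
  rw [Eul.tw, Complex.cpow_def_of_ne_zero hn', ← Complex.natCast_log,
    show ((Real.log n : ℝ) : ℂ) * -(t * Complex.I) = ((-(t * Real.log n) : ℝ) : ℂ) * Complex.I by
      push_cast; ring, Complex.exp_ofReal_mul_I_re, Real.cos_neg]

/-- The cost of the proper prime powers and of the primes dividing `q`. -/
noncomputable def nq (q n : ℕ) : ℝ := (if n.Prime ∧ n.Coprime q then 0 else Λ n) / (n : ℝ)

lemma summable_nq {q : ℕ} (hq : 0 < q) : Summable (nq q) := by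
  have hK : Summable np := Pool.Agent.Lib.Mertens.summable_nonprime_vonMangoldt_div
  rw [← summable_nat_add_iff (q + 1)] at hK ⊢
  refine hK.congr fun n => ?_
  rw [nq, np]
  congr 1
  by_cases hp : (n + (q + 1)).Prime
  · rw [if_pos hp, if_pos ⟨hp, (Nat.coprime_of_lt_prime hq.ne' (by omega) hp)⟩]
  · rw [if_neg hp, if_neg fun h => hp h.1]

lemma wt_nonneg {σ : ℝ} (n : ℕ) (a : G) : 0 ≤ LamK a / (Real.log n * (n : ℝ) ^ σ) :=
  div_nonneg (LamK_nonneg a) (mul_nonneg (Real.log_natCast_nonneg n) (by positivity))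

lemma sum_wt_le {σ : ℝ} (hσ : 1 ≤ σ) (n : ℕ) :
    ∑ a ∈ shell n, 2 * (LamK a / (Real.log n * (n : ℝ) ^ σ)) ≤ 8 * (Λ n / n) := by
  rcases eq_or_ne n 0 with rfl | hn
  · simp
  have hn1 : (1 : ℝ) ≤ n := by exact_mod_cast Nat.pos_of_ne_zero hn
  rw [← mul_sum, ← sum_div]
  have hL := sum_shell_LamK_le n
  have hΛ : 0 ≤ Λ n := ArithmeticFunction.vonMangoldt_nonneg
  rcases eq_or_ne n 1 with rfl | h1
  · simp
  have h2 : (2 : ℝ) ≤ n := by exact_mod_cast (by omega : 2 ≤ n)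
  have h3 : 1 / 2 ≤ Real.log n :=
    le_trans (by linarith [Real.log_two_gt_d9]) (Real.log_le_log (by norm_num) h2)
  have h4 : (n : ℝ) ≤ (n : ℝ) ^ σ := by
    simpa using Real.rpow_le_rpow_of_exponent_le hn1 hσ
  have h5 : (∑ a ∈ shell n, LamK a) / (Real.log n * (n : ℝ) ^ σ) ≤
      (2 * Λ n) / (1 / 2 * n) := by
    gcongr
  have h6 : (2 * Λ n) / (1 / 2 * (n : ℝ)) = 4 * (Λ n / n) := by field_simp; ring
  linarith

lemma term_pow {g : G → ℂ} (hg : Good1 g) {q m : ℕ} {j : ℤ}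
    (hp : ∀ a : G, (nm a).Prime → (nm a).Coprime q → ‖g a‖ = 1 ∧ g a ^ m = chi j a)
    {σ : ℝ} (hσ : 1 ≤ σ) (t : ℝ) (n : ℕ) :
    (m : ℝ) ^ 2 * (LSeries.term (ll g) (σ + t * Complex.I) n).re ≤
      ((m : ℝ) ^ 2 - 1) * (LSeries.term (ll (chi 0)) (σ + (0 : ℝ) * Complex.I) n).re +
        (LSeries.term (ll (chi j)) (σ + (m * t : ℝ) * Complex.I) n).re + 8 * nq q n := by
  rw [re_term, re_term, re_term, mul_sum, mul_sum, ← sum_add_distrib]
  rcases eq_or_ne n 0 with rfl | hn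
  · simp [nq]
  by_cases hn' : n.Prime ∧ n.Coprime q
  · rw [nq, if_pos hn', zero_div, mul_zero, add_zero]
    refine sum_le_sum fun a ha => ?_
    obtain ⟨ha0, han⟩ := mem_shell.1 ha
    obtain ⟨h1, h2⟩ := hp a (han ▸ hn'.1) (han ▸ hn'.2)
    have h3 := one_sub_re_pow (z := g a * Eul.tw t n) (by rw [norm_mul, h1, norm_tw t hn, mul_one]) m
    rw [mul_pow, h2, ← tw_mul] at h3
    rw [chi_zero, tw_zero, mul_one, Complex.one_re]
    nlinarith [wt_nonneg (σ := σ) n a]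
  · have h8 := sum_wt_le hσ n
    rw [nq, if_neg hn']
    refine le_trans ?_ (add_le_add le_rfl h8)
    rw [← sum_add_distrib]
    refine sum_le_sum fun a ha => ?_
    obtain ⟨ha0, han⟩ := mem_shell.1 ha
    have h1 : (g a * Eul.tw t n).re ≤ 1 := by
      refine (Complex.re_le_norm _).trans ?_
      rw [norm_mul, norm_tw t hn, mul_one]
      exact hg.norm a ha0
    have h2 : -1 ≤ (chi j a * Eul.tw (m * t) n).re := by
      have := Complex.abs_re_le_norm (chi j a * Eul.tw (m * t) n)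
      rw [norm_mul, norm_chi j ha0, norm_tw _ hn, mul_one, abs_le] at this
      exact this.1
    rw [chi_zero, tw_zero, mul_one, Complex.one_re]
    have h3 : (m : ℝ) ^ 2 * (g a * Eul.tw t n).re ≤ (m : ℝ) ^ 2 :=
      mul_le_of_le_one_right (sq_nonneg _) h1
    nlinarith [wt_nonneg (σ := σ) n a]

lemma prod_pow {q : ℕ} (hq : 0 < q) : ∃ E : ℝ, 0 < E ∧ ∀ (g : G → ℂ), Good1 g →
    ∀ (m M : ℕ) (j : ℤ), m ^ 2 = M + 1 →
    (∀ a : G, (nm a).Prime → (nm a).Coprime q → ‖g a‖ = 1 ∧ g a ^ m = chi j a) →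
    ∀ σ t : ℝ, 1 < σ →
    ‖LSeries (cf g) (σ + t * Complex.I)‖ ^ (M + 1) ≤
      E * (‖LSeries (cf (chi 0)) (σ + (0 : ℝ) * Complex.I)‖ ^ M *
        ‖LSeries (cf (chi j)) (σ + (m * t : ℝ) * Complex.I)‖) := by
  refine ⟨Real.exp (8 * ∑' n, nq q n), Real.exp_pos _, fun g hg m M j hM hp σ t hσ => ?_⟩
  have hs : ∀ u : ℝ, 1 < ((σ : ℂ) + u * Complex.I).re := fun u => by simpa using hσ
  have h1 := (hasSum_re_ll1 hg (hs t)).mul_left ((m : ℝ) ^ 2)
  have h2 := (((hasSum_re_ll (good_chi 0) (hs 0)).mul_left ((m : ℝ) ^ 2 - 1)).add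
    (hasSum_re_ll (good_chi j) (hs (m * t)))).add ((summable_nq hq).hasSum.mul_left 8)
  have h3 := hasSum_le (fun n => term_pow hg hp hσ.le t n) h1 h2
  have hM' : (m : ℝ) ^ 2 = ((M + 1 : ℕ) : ℝ) := by exact_mod_cast hM
  have hM'' : ((M + 1 : ℕ) : ℝ) - 1 = (M : ℕ) := by push_cast; ring
  rw [hM', hM''] at h3
  rw [norm_LSeries_cf1 hg (hs t), norm_LSeries_cf (good_chi 0) (hs 0),
    norm_LSeries_cf (good_chi j) (hs (m * t))]
  have h4 := Real.exp_le_exp.2 h3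
  rw [Real.exp_add, Real.exp_add, Real.exp_nat_mul, Real.exp_nat_mul] at h4
  rw [mul_pow, mul_pow]
  calc _ ≤ (4 : ℝ) ^ (M + 1) * _ := mul_le_mul_of_nonneg_left h4 (by positivity)
    _ = _ := by ring

lemma norm_D_one' {x : ℝ} (hx1 : 1 ≤ x) :
    ‖LSeries (cf (chi 0)) (((1 + 1 / x : ℝ) : ℂ) + (0 : ℝ) * Complex.I)‖ ≤ 18 * x := by
  have hx0 : 0 < x := by linarith
  have hσ : 1 < 1 + 1 / x := by
    have : 0 < 1 / x := by positivity
    linarith
  have hσ2 : 1 + 1 / x ≤ 2 := by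
    have : 1 / x ≤ 1 := by rw [div_le_one hx0]; exact hx1
    linarith
  refine (norm_D_one hσ).trans ?_
  rw [add_sub_cancel_left, div_div_eq_mul_div, div_one]
  nlinarith

/-- The case of a nontrivial angular character. -/
lemma small_ne {q : ℕ} (hq : 0 < q) {m : ℕ} (hm : 0 < m) (η T : ℝ) (hη : 0 < η) :
    ∀ᶠ x : ℝ in atTop, ∀ g : G → ℂ, Good1 g → ∀ j : ℤ, j ≠ 0 → |(j : ℝ)| ≤ Real.exp (6 * x) →
    (∀ a : G, (nm a).Prime → (nm a).Coprime q → ‖g a‖ = 1 ∧ g a ^ m = chi j a) →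
    ∀ t : ℝ, |t| ≤ T → ‖LSeries (cf g) (1 + 1 / x + t * Complex.I)‖ ≤ η * x := by
  obtain ⟨E, hE, h341⟩ := prod_pow hq
  obtain ⟨M, hM⟩ : ∃ M, m ^ 2 = M + 1 := ⟨m ^ 2 - 1, by have := Nat.pow_pos (n := 2) hm; omega⟩
  set W : ℝ := E * 18 ^ M * (2 + m * |T|) with hW
  have hW0 : 0 < W := by positivity
  obtain ⟨A, hA⟩ := exists_nat_gt (2 * 162 * W / η ^ (M + 1))
  have hA0' : (0 : ℝ) < A := lt_trans (by positivity) hA
  have hA0 : 0 < A := by exact_mod_cast hA0'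
  obtain ⟨B, hB, hD⟩ := norm_D_chi A hA0
  filter_upwards [eventually_ge_atTop (A : ℝ), eventually_ge_atTop (1 : ℝ),
    eventually_ge_atTop (2 * W * B / η ^ (M + 1))] with x hxA hx1 hxB g hg j hj hjx hp t ht
  have hx0 : 0 < x := by linarith
  have hσ : 1 < 1 + 1 / x := by
    have : 0 < 1 / x := by positivity
    linarith
  have hσ2 : 1 + 1 / x ≤ 2 := by
    have : 1 / x ≤ 1 := by rw [div_le_one hx0]; exact hx1
    linarith
  have e : (1 + 1 / x + t * Complex.I : ℂ) = ((1 + 1 / x : ℝ) : ℂ) + t * Complex.I := by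
    push_cast; ring
  rw [e]
  have h1 := h341 g hg m M j hM hp (1 + 1 / x) t hσ
  have h2 := norm_D_one' hx1
  have h3 := hD (2 * x) j (((1 + 1 / x : ℝ) : ℂ) + (m * t : ℝ) * Complex.I) (by linarith) hj
    (by rw [show 3 * (2 * x) = 6 * x by ring]; exact hjx) (by simpa using hσ)
  have h4 : ‖((1 + 1 / x : ℝ) : ℂ) + (m * t : ℝ) * Complex.I‖ ≤ 2 + m * |T| := by
    refine (norm_add_le _ _).trans (add_le_add ?_ ?_)
    · rw [Complex.norm_real, Real.norm_eq_abs, abs_of_pos (by linarith)]; exact hσ2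
    · rw [norm_mul, Complex.norm_I, mul_one, Complex.norm_real, Real.norm_eq_abs, abs_mul,
        Nat.abs_cast]
      exact mul_le_mul_of_nonneg_left (ht.trans (le_abs_self T)) (Nat.cast_nonneg _)
  have h5 : ‖LSeries (cf (chi j)) (((1 + 1 / x : ℝ) : ℂ) + (m * t : ℝ) * Complex.I)‖ ≤
      (2 + m * |T|) * (81 * (2 * x) / A + B) := h3.trans (by gcongr)
  have h6 : W * (162 / A) ≤ η ^ (M + 1) / 2 := by
    rw [div_lt_iff₀ (by positivity)] at hA
    rw [← mul_div_assoc, div_le_iff₀ hA0']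
    linarith
  have h7 : W * B ≤ η ^ (M + 1) / 2 * x := by
    rw [div_le_iff₀ (by positivity)] at hxB
    linarith
  refine le_of_pow_le_pow_left₀ (n := M + 1) (by omega) (by positivity) (h1.trans ?_)
  calc _ ≤ E * ((18 * x) ^ M * ((2 + m * |T|) * (81 * (2 * x) / A + B))) := by gcongr
    _ = x ^ M * (W * (162 / A) * x + W * B) := by rw [hW]; ring
    _ ≤ x ^ M * (η ^ (M + 1) / 2 * x + η ^ (M + 1) / 2 * x) := by gcongr
    _ = (η * x) ^ (M + 1) := by ring

lemma log_le_sum_LamK {p : ℕ} (hp : p.Prime) (h4 : p % 4 = 1) :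
    Real.log p ≤ ∑ a ∈ shell p, LamK a := by
  have h1 : nm (normalize (gp p)) = p := by
    rw [LamKAux.nm_eq_of_associated (normalize_associated (gp p)), nm_gp hp h4]
  have h2 : IsP (normalize (gp p)) := ⟨prime_of_nm_prime (h1.symm ▸ hp), normalize_idem _⟩
  have h3 : LamK (normalize (gp p)) = Real.log p := by
    have := LamKAux.LamK_pow h2 one_pos
    rwa [pow_one, h1] at this
  rw [← h3]
  exact single_le_sum (fun a _ => LamK_nonneg a) (mem_shell.2 ⟨h2.1.ne_zero, h1⟩)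

lemma term_genus {g : G → ℂ} (hg : Good1 g) {m : ℕ} (hm : 0 < m) {x : ℝ} (hx : 0 < x)
    (S : Finset ℕ) (hS : ∀ p ∈ S, p.Prime ∧ p % 4 = 1 ∧ (p : ℝ) ≤ Real.exp x ∧
      ∀ a : G, nm a = p → ‖g a‖ = 1 ∧ g a ^ m = -1) (t : ℝ) (n : ℕ) :
    (LSeries.term (ll g) ((1 + 1 / x : ℝ) + t * Complex.I) n).re +
        (if n ∈ S then (1 + Real.cos (m * t * Real.log n)) / n / (3 * (m : ℝ) ^ 2) else 0) ≤
      (LSeries.term (ll (chi 0)) ((1 + 1 / x : ℝ) + (0 : ℝ) * Complex.I) n).re := by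
  rw [re_term, re_term]
  rcases eq_or_ne n 0 with rfl | hn
  · simp
  simp only [chi_zero, tw_zero, mul_one, Complex.one_re]
  split_ifs with hnS
  · obtain ⟨hp, h4, hle, hg'⟩ := hS n hnS
    have hm' : (0 : ℝ) < m := by exact_mod_cast hm
    have hn0 : (0 : ℝ) < n := by exact_mod_cast hp.pos
    have hl : 0 < Real.log n := Real.log_pos (by exact_mod_cast hp.one_lt)
    set c : ℝ := 1 + Real.cos (m * t * Real.log n) with hc
    have hc0 : 0 ≤ c := by linarith [Real.neg_one_le_cos (m * t * Real.log n)]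
    have h1 : ∀ a ∈ shell n, LamK a / (Real.log n * (n : ℝ) ^ (1 + 1 / x)) * (g a * Eul.tw t n).re +
        LamK a / (Real.log n * (n : ℝ) ^ (1 + 1 / x)) * (c / (m : ℝ) ^ 2) ≤
        LamK a / (Real.log n * (n : ℝ) ^ (1 + 1 / x)) := fun a ha => by
      obtain ⟨e1, e2⟩ := hg' a (mem_shell.1 ha).2
      have h3 := one_sub_re_pow (z := g a * Eul.tw t n)
        (by rw [norm_mul, e1, norm_tw t hn, mul_one]) m
      rw [mul_pow, e2, ← tw_mul, neg_one_mul, Complex.neg_re, re_tw _ hn, sub_neg_eq_add,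
        ← hc] at h3
      have h5 : c / (m : ℝ) ^ 2 ≤ 1 - (g a * Eul.tw t n).re := by
        rw [div_le_iff₀ (by positivity)]; linarith
      rw [← mul_add]
      exact mul_le_of_le_one_right (wt_nonneg n a) (by linarith)
    refine le_trans (add_le_add le_rfl ?_) ((le_of_eq sum_add_distrib.symm).trans (sum_le_sum h1))
    rw [← sum_mul, ← sum_div]
    have h3 : (n : ℝ) ^ (1 + 1 / x) ≤ n * 3 := by
      rw [Real.rpow_add hn0, Real.rpow_one]
      refine mul_le_mul_of_nonneg_left ?_ hn0.le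
      rw [Real.rpow_def_of_pos hn0]
      have h5 : Real.log n * (1 / x) ≤ 1 := by
        rw [mul_one_div, div_le_one hx, Real.log_le_iff_le_exp hn0]; exact hle
      exact (Real.exp_le_exp.2 h5).trans (by linarith [Real.exp_one_lt_d9])
    have h5 : Real.log n / (Real.log n * (n * 3)) ≤
        (∑ a ∈ shell n, LamK a) / (Real.log n * (n : ℝ) ^ (1 + 1 / x)) := by
      have := log_le_sum_LamK hp h4
      have h0 := hl.le.trans this
      gcongr
    refine le_trans (le_of_eq ?_) (mul_le_mul_of_nonneg_right h5 (by positivity))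
    field_simp
  · rw [add_zero]
    refine sum_le_sum fun a ha => mul_le_of_le_one_right (wt_nonneg n a) ?_
    refine (Complex.re_le_norm _).trans ?_
    rw [norm_mul, norm_tw t hn, mul_one]
    exact hg.norm a (mem_shell.1 ha).1

/-- The case of a character that only depends on the norm. -/
lemma small_genus {g : G → ℂ} (hg : Good1 g) {m Q a : ℕ} (hm : 0 < m) (hQ : 0 < Q)
    (ha : a.Coprime Q) (h4 : ∀ p, p ≡ a [MOD Q] → p % 4 = 1)
    (hp : ∀ b : G, (nm b).Prime → nm b ≡ a [MOD Q] → ‖g b‖ = 1 ∧ g b ^ m = -1)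
    (η T : ℝ) (hη : 0 < η) : ∀ᶠ x : ℝ in atTop,
    ∀ t : ℝ, |t| ≤ T → ‖LSeries (cf g) (1 + 1 / x + t * Complex.I)‖ ≤ η * x := by
  have hm' : (0 : ℝ) < m := by exact_mod_cast hm
  filter_upwards [ap_div hQ ha (m * T) (3 * (m : ℝ) ^ 2 * (18 / η)),
    eventually_ge_atTop (1 : ℝ)] with x hx hx1 t ht
  have hx0 : 0 < x := by linarith
  have hσ : 1 < 1 + 1 / x := by
    have : 0 < 1 / x := by positivity
    linarith
  have e : (1 + 1 / x + t * Complex.I : ℂ) = ((1 + 1 / x : ℝ) : ℂ) + t * Complex.I := by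
    push_cast; ring
  rw [e]
  have hs : ∀ u : ℝ, 1 < (((1 + 1 / x : ℝ) : ℂ) + u * Complex.I).re := fun u => by
    simpa using hx0
  set S := (range (⌊Real.exp x⌋₊ + 1)).filter (fun p => p.Prime ∧ p ≡ a [MOD Q]) with hS
  have h1 := hx (m * t) (by rw [abs_mul, Nat.abs_cast]; gcongr)
  have h2 : HasSum (fun n : ℕ => if n ∈ S then
      (1 + Real.cos (m * t * Real.log n)) / n / (3 * (m : ℝ) ^ 2) else 0)
      ((∑ n ∈ S, (1 + Real.cos (m * t * Real.log n)) / n) / (3 * (m : ℝ) ^ 2)) := by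
    rw [sum_div, ← sum_congr rfl (fun n hn => if_pos hn)]
    exact hasSum_sum_of_ne_finset_zero fun n hn => if_neg hn
  have h3 := hasSum_le (term_genus hg hm hx0 S (fun p hpS => by
      obtain ⟨a1, a2, a3⟩ := mem_filter.1 hpS
      refine ⟨a2, h4 p a3, ?_, fun b hb => hp b (hb ▸ a2) (hb ▸ a3)⟩
      exact (Nat.le_floor_iff (Real.exp_pos x).le).1 (Nat.lt_succ_iff.1 (mem_range.1 a1))) t)
    ((hasSum_re_ll1 hg (hs t)).add h2) (hasSum_re_ll (good_chi 0) (hs 0))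
  have h5 : 18 / η ≤ (∑ n ∈ S, (1 + Real.cos (m * t * Real.log n)) / n) / (3 * (m : ℝ) ^ 2) := by
    rw [le_div_iff₀ (by positivity)]; linarith
  have h6 := norm_D_one' hx1
  rw [norm_LSeries_cf (good_chi 0) (hs 0)] at h6
  rw [norm_LSeries_cf1 hg (hs t)]
  have h7 := Real.exp_le_exp.2 ((add_le_add le_rfl h5).trans h3)
  rw [Real.exp_add] at h7
  have h8 : 18 / η ≤ Real.exp (18 / η) := by linarith [Real.add_one_le_exp (18 / η)]
  have h9 := (mul_le_mul_of_nonneg_left h8 (Real.exp_pos _).le).trans h7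
  rw [← mul_div_assoc, div_le_iff₀ hη] at h9
  nlinarith

end HalTwAux

open HalTwAux

/-- The Dirichlet series of the twisted Liouville function is small near the line one. -/
theorem small_D_tw {W : ℕ} (hW : Odd W) {ξ : G → ℂ} (h : Twist (4 * W) ξ) {r : ℕ} (hr : r < 4)
    (hi : gtw ξ r ⟨0, 1⟩ = 1) (η T : ℝ) (hη : 0 < η) : ∀ᶠ x : ℝ in atTop, ∀ k : ℤ,
      |(k : ℝ)| ≤ Real.exp (4 * x) → ∀ t : ℝ, |t| ≤ T →
      ‖LSeries (cf fun a => gtw ξ r a * chi k a) (1 + 1 / x + t * Complex.I)‖ ≤ η * x := by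
  have hW0 : 0 < W := hW.pos
  have hq : 0 < 4 * W := by omega
  obtain ⟨m0, hm0, hpow⟩ := h.pow_eq_one hq
  have H1 := small_ne hq (m := 4 * m0) (by omega) η T hη
  have H2 : ∀ᶠ x : ℝ in atTop, r = 0 → ∀ t : ℝ, |t| ≤ T →
      ‖LSeries (cf fun a => gtw ξ r a * chi 0 a) (1 + 1 / x + t * Complex.I)‖ ≤ η * x := by
    by_cases hr0 : r = 0
    · subst hr0
      have hi' : ξ ⟨0, 1⟩ = 1 := by
        have h1 : lam ⟨0, 1⟩ = lam 1 := lam_of_nm_eq (by decide)
        simpa [gtw, h1] using hi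
      obtain ⟨m, a, hm, ha, ha4, hg⟩ := h.genus hW hi'
      filter_upwards [small_genus (good1_gtw hq h hi 0) hm (Q := 8 * W) (by omega) ha
        (fun p hp => by
          have := (hp.of_dvd (show 4 ∣ 8 * W from ⟨2 * W, by ring⟩))
          unfold Nat.ModEq at this
          omega)
        (fun b hb hba => by
          have e : gtw ξ 0 b * chi 0 b = -ξ b := by simp [gtw, lam_of_prime hb]
          have hc : (nm b).Coprime (8 * W) := by
            have := hba.gcd_eq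
            unfold Nat.Coprime at ha ⊢
            rw [this, ha]
          simp only [e]
          exact ⟨by rw [norm_neg]; exact h.norm_eq hq (hc.coprime_dvd_right ⟨2, by ring⟩),
            hg b hba⟩) η T hη] with x hx _
      exact hx
    · exact Eventually.of_forall fun x h0 => absurd h0 hr0
  filter_upwards [H1, H2, eventually_ge_atTop (7 * m0 : ℝ)] with x h1 h2 hx k hk t ht
  by_cases hκ : 4 * k + r = 0
  · have hr0 : r = 0 := by omega
    have hk0 : k = 0 := by omega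
    subst hk0
    exact h2 hr0 t ht
  · have hm0' : (0 : ℝ) < m0 := by exact_mod_cast hm0
    refine h1 _ (good1_gtw hq h hi k) ((4 * k + r) * m0)
      (mul_ne_zero hκ (by exact_mod_cast hm0.ne')) ?_ (fun a ha hac => ?_) t ht
    · have e1 : 1 ≤ Real.exp (4 * x) := Real.one_le_exp (by linarith)
      have e2 : 7 * (m0 : ℝ) ≤ Real.exp (2 * x) := by linarith [Real.add_one_le_exp (2 * x)]
      have e3 : (r : ℝ) ≤ 3 := by exact_mod_cast (by omega : r ≤ 3)
      have e4 : |4 * (k : ℝ) + r| ≤ 7 * Real.exp (4 * x) := by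
        refine (abs_add_le _ _).trans ?_
        rw [abs_mul, Nat.abs_cast, abs_of_pos (by norm_num : (0 : ℝ) < 4)]
        linarith
      push_cast
      rw [abs_mul, Nat.abs_cast, show 6 * x = 4 * x + 2 * x by ring, Real.exp_add]
      calc _ ≤ 7 * Real.exp (4 * x) * m0 := by gcongr
        _ = Real.exp (4 * x) * (7 * m0) := by ring
        _ ≤ _ := by gcongr
    · have ha0 : a ≠ 0 := fun h0 => ha.ne_zero (by rw [h0, nm_zero])
      have e : gtw ξ r a * chi k a = -(ξ a * ek (4 * k + r) a) := by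
        rw [gtw, lam_of_prime ha, ek_add _ _ ha0, ek_four_mul]
        push_cast; ring
      simp only [e]
      refine ⟨by rw [norm_neg, norm_mul, h.norm_eq hq hac, norm_ek _ ha0, mul_one], ?_⟩
      rw [Even.neg_pow ⟨2 * m0, by ring⟩, mul_pow, mul_comm 4 m0, pow_mul, hpow a hac, one_pow,
        one_mul, ← ek_four_mul, ek, ek, ← zpow_natCast, ← zpow_mul]
      congr 1
      push_cast; ring

end Pool.Agent.P.MP_a1177c_nt.LC
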