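import Pool.Agent.P.MP_a1177c_nt.LC.Defs

namespace Pool.Agent.P.MP_a1177c_nt.LC

open Finset Filter MR MR.StructAux
open scoped ComplexConjugate Topology

namespace JacksonAux

open scoped Pointwise

/-- The root of unity of order `M`. -/
noncomputable def ze (M : ℕ) : ℂ := Complex.exp (2 * Real.pi * Complex.I / M)

lemma ze_pow (M j : ℕ) : ze M ^ j = Complex.exp ((2 * Real.pi * j / M : ℝ) * Complex.I) := by
  rw [ze, ← Complex.exp_nat_mul]; congr 1; push_cast; ring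

lemma norm_ze_pow (M j : ℕ) : ‖ze M ^ j‖ = 1 := by
  rw [ze_pow, Complex.norm_exp_ofReal_mul_I]

lemma im_ze_pow (M j : ℕ) : (ze M ^ j).im = Real.sin (2 * Real.pi * j / M) := by
  rw [ze_pow, Complex.exp_ofReal_mul_I_im]

lemma orth {M : ℕ} (hM : 0 < M) {k : ℤ} (hk : |k| < M) :
    ∑ j ∈ range M, ((ze M ^ j)⁻¹) ^ k = if k = 0 then (M : ℂ) else 0 := by
  have hp : IsPrimitiveRoot (ze M) M := Complex.isPrimitiveRoot_exp M hM.ne'
  split_ifs with h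
  · simp [h]
  have e : ∀ j : ℕ, ((ze M ^ j)⁻¹) ^ k = (ze M ^ (-k)) ^ j := fun j => by
    rw [inv_zpow', ← zpow_natCast, ← zpow_natCast, ← zpow_mul, ← zpow_mul, mul_comm]
  have h1 : ze M ^ (-k) ≠ 1 := fun h1 => by
    have := (hp.zpow_eq_one_iff_dvd _).1 h1
    exact h (Int.eq_zero_of_abs_lt_dvd (Int.dvd_neg.1 this) hk)
  have h2 : (ze M ^ (-k)) ^ M = 1 := by
    rw [← zpow_natCast, ← zpow_mul, mul_comm, zpow_mul, zpow_natCast, hp.pow_eq_one, one_zpow]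
  simp only [e]
  rw [geom_sum_eq h1, h2, sub_self, zero_div]

lemma avg {α : Type*} {M : ℕ} (hM : 0 < M) (X : Finset α) (e : α → ℤ)
    (he : ∀ x ∈ X, |e x| < M) (z : ℂ) :
    ∑ j ∈ range M, ∑ x ∈ X, (z * (ze M ^ j)⁻¹) ^ e x = M * (#{x ∈ X | e x = 0} : ℂ) := by
  rw [sum_comm, card_filter]
  push_cast
  rw [mul_sum]
  refine sum_congr rfl fun x hx => ?_
  simp only [mul_zpow]
  rw [← mul_sum, orth hM (he x hx)]
  split_ifs with h <;> simp [h]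

/-- The geometric sum. -/
noncomputable def SS (K : ℕ) (w : ℂ) : ℂ := ∑ j ∈ range K, w ^ j

lemma sq_SS (K : ℕ) {w : ℂ} (hw : ‖w‖ = 1) :
    ((‖SS K w‖ ^ 2 : ℝ) : ℂ) = ∑ p ∈ range K ×ˢ range K, w ^ ((p.1 : ℤ) - p.2) := by
  have h0 : w ≠ 0 := by rintro rfl; simp at hw
  rw [← Complex.normSq_eq_norm_sq, ← Complex.mul_conj, SS, map_sum, sum_mul_sum, sum_product]
  refine sum_congr rfl fun a _ => sum_congr rfl fun b _ => ?_
  rw [map_pow, ← Complex.inv_eq_conj hw, zpow_sub₀ h0, zpow_natCast, zpow_natCast, inv_pow,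
    div_eq_mul_inv]

/-- Quadruples. -/
def XX (K : ℕ) : Finset ((ℕ × ℕ) × ℕ × ℕ) := (range K ×ˢ range K) ×ˢ range K ×ˢ range K

/-- The exponent of a quadruple. -/
def ee (x : (ℕ × ℕ) × ℕ × ℕ) : ℤ := ((x.1.1 : ℤ) - x.1.2) + ((x.2.1 : ℤ) - x.2.2)

lemma abs_ee {K : ℕ} {x : (ℕ × ℕ) × ℕ × ℕ} (h : x ∈ XX K) : |ee x| < 2 * K := by
  simp only [XX, mem_product, mem_range] at h
  rw [ee, abs_lt]; omega

lemma four_SS (K : ℕ) {w : ℂ} (hw : ‖w‖ = 1) :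
    ((‖SS K w‖ ^ 4 : ℝ) : ℂ) = ∑ x ∈ XX K, w ^ ee x := by
  have h0 : w ≠ 0 := by rintro rfl; simp at hw
  rw [show ‖SS K w‖ ^ 4 = ‖SS K w‖ ^ 2 * ‖SS K w‖ ^ 2 by ring, Complex.ofReal_mul, sq_SS K hw,
    sum_mul_sum, XX]
  refine Eq.symm ((sum_product _ _ _).trans ?_)
  refine sum_congr rfl fun a _ => sum_congr rfl fun b _ => ?_
  rw [ee, zpow_add₀ h0]

lemma card_le (K : ℕ) (k : ℤ) : #{x ∈ XX K | ee x = k} ≤ K ^ 3 := by
  have : #((range K ×ˢ range K) ×ˢ range K) = K ^ 3 := by simp [card_product]; ring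
  rw [← this]
  refine card_le_card_of_injOn (fun x => (x.1, x.2.1)) (fun x hx => ?_) fun x hx y hy h => ?_
  · simp only [XX, coe_filter, mem_product, Set.mem_ofPred_eq] at hx
    simp only [coe_product, Set.mem_prod, mem_coe]
    exact ⟨⟨hx.1.1.1, hx.1.1.2⟩, hx.1.2.1⟩
  · simp only [coe_filter, Set.mem_ofPred_eq, ee] at hx hy
    simp only [Prod.mk.injEq] at h
    have h1 := hx.2
    have h2 := hy.2
    rw [h.1, h.2] at h1
    exact Prod.ext h.1 (Prod.ext h.2 (by omega))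

lemma le_card {K : ℕ} (hK : 1 ≤ K) : (K : ℝ) ^ 3 ≤ 2 * #{x ∈ XX K | ee x = 0} := by
  have h1 := le_card_add_mul_addEnergy (range K) (range K)
  have h2 : #(range K + range K) ≤ 2 * K := by
    rw [← card_range (2 * K)]
    refine card_le_card fun x hx => ?_
    obtain ⟨a, ha, b, hb, rfl⟩ := mem_add.1 hx
    simp only [mem_range] at *
    omega
  have h3 : addEnergy (range K) (range K) = #{x ∈ XX K | ee x = 0} := by
    rw [addEnergy, XX]
    congr 1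
    refine filter_congr fun x _ => ?_
    rw [ee]; omega
  rw [h3, card_range] at h1
  have h4 : K * K ^ 3 ≤ K * (2 * #{x ∈ XX K | ee x = 0}) := by
    calc K * K ^ 3 = K ^ 2 * K ^ 2 := by ring
      _ ≤ 2 * K * #{x ∈ XX K | ee x = 0} := h1.trans (Nat.mul_le_mul_right _ h2)
      _ = _ := by ring
  exact_mod_cast Nat.le_of_mul_le_mul_left h4 hK

lemma norm_w {z : ℂ} (hz : ‖z‖ = 1) (M j : ℕ) : ‖z * (ze M ^ j)⁻¹‖ = 1 := by
  rw [norm_mul, norm_inv, norm_ze_pow, hz]; simp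

lemma sum_four {K : ℕ} (hK : 1 ≤ K) {z : ℂ} (hz : ‖z‖ = 1) :
    ∑ j ∈ range (4 * K), ‖SS K (z * (ze (4 * K) ^ j)⁻¹)‖ ^ 4 =
      (4 * K : ℝ) * #{x ∈ XX K | ee x = 0} := by
  have := avg (M := 4 * K) (by omega) (XX K) ee
    (fun x hx => (abs_ee hx).trans_le (by push_cast; omega)) z
  simp only [← four_SS K (norm_w hz _ _)] at this
  exact_mod_cast this

lemma sum_two {K : ℕ} (hK : 1 ≤ K) {z : ℂ} (hz : ‖z‖ = 1) :
    ∑ j ∈ range (4 * K), ‖SS K (z * (ze (4 * K) ^ j)⁻¹)‖ ^ 2 ≤ (4 * K : ℝ) * K := by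
  have := avg (M := 4 * K) (by omega) (range K ×ˢ range K) (fun p => (p.1 : ℤ) - p.2)
    (fun x hx => by
      simp only [mem_product, mem_range] at hx
      rw [abs_lt]; push_cast; omega) z
  simp only [← sq_SS K (norm_w hz _ _)] at this
  have h1 : ∑ j ∈ range (4 * K), ‖SS K (z * (ze (4 * K) ^ j)⁻¹)‖ ^ 2 =
      (4 * K : ℝ) * #{p ∈ range K ×ˢ range K | (p.1 : ℤ) - p.2 = 0} := by exact_mod_cast this
  have h2 : #{p ∈ range K ×ˢ range K | (p.1 : ℤ) - p.2 = 0} ≤ #(range K) := by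
    refine card_le_card_of_injOn (fun x => x.1) (fun x hx => ?_) fun x hx y hy h => ?_
    · simp only [coe_filter, mem_product, Set.mem_ofPred_eq] at hx
      exact hx.1.1
    · simp only [coe_filter, Set.mem_ofPred_eq] at hx hy h
      exact Prod.ext h (by omega)
  rw [card_range] at h2
  rw [h1]
  gcongr

lemma SS_far (K : ℕ) {z u : ℂ} (hz : ‖z‖ = 1) (hu : ‖u‖ = 1) {d : ℝ} (hd : 0 < d)
    (h : d ≤ |z.im - u.im|) : ‖SS K (z * u⁻¹)‖ ^ 2 ≤ 4 / d ^ 2 := by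
  have h0 : u ≠ 0 := by rintro rfl; simp at hu
  have h1 : d ≤ ‖z * u⁻¹ - 1‖ := by
    have : z * u⁻¹ - 1 = (z - u) * u⁻¹ := by field_simp
    rw [this, norm_mul, norm_inv, hu, inv_one, mul_one]
    exact h.trans (by simpa using Complex.abs_im_le_norm (z - u))
  have h2 : ‖SS K (z * u⁻¹)‖ * ‖z * u⁻¹ - 1‖ ≤ 2 := by
    rw [← norm_mul, SS, geom_sum_mul]
    refine (norm_sub_le _ _).trans ?_
    rw [norm_pow, norm_mul, norm_inv, hz, hu]; norm_num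
  have h3 : ‖SS K (z * u⁻¹)‖ ≤ 2 / d := by
    rw [le_div_iff₀ hd]
    exact (mul_le_mul_of_nonneg_left h1 (norm_nonneg _)).trans h2
  calc _ ≤ (2 / d) ^ 2 := by gcongr
    _ = _ := by ring

lemma mass {K : ℕ} (hK : 1 ≤ K) {z : ℂ} (hz : ‖z‖ = 1) {B : Finset ℕ} (hB : B ⊆ range (4 * K)) :
    ∑ j ∈ B, ‖SS K (z * (ze (4 * K) ^ j)⁻¹)‖ ^ 4 ≤ (4 * K : ℝ) * #{x ∈ XX K | ee x = 0} := by
  rw [← sum_four hK hz]
  exact sum_le_sum_of_subset_of_nonneg hB fun _ _ _ => by positivity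

lemma mass_far {K : ℕ} (hK : 1 ≤ K) {z : ℂ} (hz : ‖z‖ = 1) {B : Finset ℕ}
    (hB : B ⊆ range (4 * K)) {d : ℝ} (hd : 0 < d)
    (h : ∀ j ∈ B, d ≤ |z.im - (ze (4 * K) ^ j).im|) :
    ∑ j ∈ B, ‖SS K (z * (ze (4 * K) ^ j)⁻¹)‖ ^ 4 ≤
      8 / (K * d) ^ 2 * ((4 * K : ℝ) * #{x ∈ XX K | ee x = 0}) := by
  have hK' : (0 : ℝ) < K := by exact_mod_cast hK
  calc _ ≤ ∑ j ∈ B, 4 / d ^ 2 * ‖SS K (z * (ze (4 * K) ^ j)⁻¹)‖ ^ 2 := by
        refine sum_le_sum fun j hj => ?_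
        rw [show ∀ t : ℝ, t ^ 4 = t ^ 2 * t ^ 2 from fun t => by ring]
        exact mul_le_mul_of_nonneg_right (SS_far K hz (norm_ze_pow _ _) hd (h j hj))
          (by positivity)
    _ ≤ 4 / d ^ 2 * ((4 * K : ℝ) * K) := by
        rw [← mul_sum]
        refine mul_le_mul_of_nonneg_left (le_trans ?_ (sum_two hK hz)) (by positivity)
        exact sum_le_sum_of_subset_of_nonneg hB fun _ _ _ => by positivity
    _ = 4 / (K * d) ^ 2 * ((4 * K : ℝ) * K ^ 3) := by field_simp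
    _ ≤ 4 / (K * d) ^ 2 * ((4 * K : ℝ) * (2 * #{x ∈ XX K | ee x = 0})) := by
        gcongr; exact le_card hK
    _ = _ := by ring

lemma idx {K j : ℕ} (hK : 1 ≤ K) (hj : j < 4 * K) {s : ℝ}
    (h0 : 0 < Real.sin (2 * Real.pi * j / (4 * K : ℕ)))
    (h1 : Real.sin (2 * Real.pi * j / (4 * K : ℕ)) ≤ s) :
    j ≤ ⌊K * |s|⌋₊ ∨ (j ≤ 2 * K ∧ 2 * K - j ≤ ⌊K * |s|⌋₊) := by
  have hK' : (0 : ℝ) < K := by exact_mod_cast hK
  have hp := Real.pi_pos
  have key : ∀ i : ℕ, i ≤ K → Real.sin (2 * Real.pi * i / (4 * K : ℕ)) ≤ s → i ≤ ⌊K * |s|⌋₊ := by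
    intro i hi h
    have hi' : (i : ℝ) ≤ K := by exact_mod_cast hi
    have e : 2 * Real.pi * i / (4 * K : ℕ) = Real.pi / 2 * (i / K) := by
      push_cast; field_simp; ring
    have q0 : (0 : ℝ) ≤ i / K := by positivity
    have q1 : (i : ℝ) / K ≤ 1 := (div_le_one hK').2 hi'
    have := Real.mul_le_sin (x := Real.pi / 2 * (i / K)) (by positivity) (by nlinarith)
    rw [e] at h
    have e2 : 2 / Real.pi * (Real.pi / 2 * (i / K)) = i / K := by field_simp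
    rw [e2] at this
    refine Nat.le_floor ?_
    have h3 : (i : ℝ) / K ≤ |s| := this.trans (h.trans (le_abs_self s))
    rw [div_le_iff₀ hK'] at h3
    linarith
  rcases le_or_gt j K with c | c
  · exact Or.inl (key j c h1)
  rcases le_or_gt j (2 * K) with c2 | c2
  · refine Or.inr ⟨c2, key _ (by omega) ?_⟩
    have e : 2 * Real.pi * ((2 * K - j : ℕ) : ℝ) / (4 * K : ℕ) =
        Real.pi - 2 * Real.pi * j / (4 * K : ℕ) := by
      rw [Nat.cast_sub c2]; push_cast; field_simp; ring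
    rw [e, Real.sin_pi_sub]; exact h1
  · exfalso
    have c3 : (2 * K : ℝ) < j := by exact_mod_cast c2
    have c4 : (j : ℝ) < 4 * K := by exact_mod_cast hj
    have e : 2 * Real.pi * j / (4 * K : ℕ) = Real.pi * (j / (2 * K)) := by
      push_cast; field_simp; ring
    have q0 : (1 : ℝ) ≤ j / (2 * K) := (one_le_div (by positivity)).2 c3.le
    have q1 : (j : ℝ) / (2 * K) ≤ 2 := by rw [div_le_iff₀ (by positivity)]; linarith
    have := Real.sin_nonpos_of_nonpos_of_neg_pi_le (x := Real.pi * (j / (2 * K)) - 2 * Real.pi)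
      (by nlinarith) (by nlinarith)
    rw [Real.sin_sub_two_pi] at this
    rw [e] at h0
    linarith

lemma card_A {K : ℕ} (hK : 1 ≤ K) {s₁ s₂ : ℝ} (h : 0 ≤ s₁) {A : Finset ℕ}
    (hA : ∀ j ∈ A, j < 4 * K ∧ s₁ < (ze (4 * K) ^ j).im ∧ (ze (4 * K) ^ j).im ≤ s₂) :
    (#A : ℝ) ≤ 2 * (K * |s₂| + 1) := by
  have h1 : A ⊆ range (⌊K * |s₂|⌋₊ + 1) ∪ (range (⌊K * |s₂|⌋₊ + 1)).image (2 * K - ·) := by
    intro j hj
    obtain ⟨a, b, c⟩ := hA j hj
    rw [im_ze_pow] at b c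
    rcases idx hK a (h.trans_lt b) c with t | t
    · exact mem_union_left _ (mem_range.2 (by omega))
    · exact mem_union_right _ (mem_image.2 ⟨2 * K - j, mem_range.2 (by omega), by omega⟩)
  have h2 := (card_le_card h1).trans ((card_union_le _ _).trans
    (Nat.add_le_add_left card_image_le _))
  rw [card_range] at h2
  have h3 : (#A : ℝ) ≤ (⌊K * |s₂|⌋₊ + 1) + (⌊K * |s₂|⌋₊ + 1) := by exact_mod_cast h2
  have := Nat.floor_le (show (0 : ℝ) ≤ K * |s₂| by positivity)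
  linarith

lemma psi {K : ℕ} (A : Finset ℕ) (c : ℝ) {z : ℂ} (hz : ‖z‖ = 1) :
    ∑ k ∈ Icc (-(2 * K : ℤ)) (2 * K),
      ((c : ℂ) * ∑ j ∈ A, ∑ _x ∈ XX K with ee _x = k, ((ze (4 * K) ^ j)⁻¹) ^ k) * z ^ k =
      ((c * ∑ j ∈ A, ‖SS K (z * (ze (4 * K) ^ j)⁻¹)‖ ^ 4 : ℝ) : ℂ) := by
  rw [Complex.ofReal_mul, Complex.ofReal_sum]
  simp only [four_SS K (norm_w hz _ _), mul_assoc]
  rw [← mul_sum]
  congr 1
  simp only [sum_mul]
  rw [sum_comm]
  refine sum_congr rfl fun j _ => ?_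
  rw [← sum_fiberwise_of_maps_to (g := ee) (t := Icc (-(2 * K : ℤ)) (2 * K))
    (fun x hx => mem_Icc.2 (abs_le.1 (abs_ee hx).le))]
  refine sum_congr rfl fun k _ => sum_congr rfl fun x hx => ?_
  rw [(mem_filter.1 hx).2, mul_zpow, mul_comm]

end JacksonAux

open JacksonAux in
open Classical in
/-- A trigonometric polynomial approximating the indicator of a thin horizontal strip. -/
theorem jackson : ∃ C : ℝ, 0 < C ∧ ∀ (K : ℕ) (s₁ s₂ : ℝ), 1 ≤ K → 0 ≤ s₁ → ∃ a : ℤ → ℂ,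
    (∀ k, ‖a k‖ ≤ C * (|s₂| + 1 / K)) ∧ ∀ z : ℂ, ‖z‖ = 1 →
      ‖∑ k ∈ Icc (-(2 * K : ℤ)) (2 * K), a k * z ^ k -
        (if s₁ < z.im ∧ z.im ≤ s₂ then 1 else 0)‖ ≤ 1 ∧
      ∀ d : ℝ, 0 < d → d ≤ |z.im - s₁| → d ≤ |z.im - s₂| →
        ‖∑ k ∈ Icc (-(2 * K : ℤ)) (2 * K), a k * z ^ k -
          (if s₁ < z.im ∧ z.im ≤ s₂ then 1 else 0)‖ ≤ C / (K * d) ^ 2 := by
  refine ⟨8, by norm_num, fun K s₁ s₂ hK hs => ?_⟩
  have hK' : (0 : ℝ) < K := by exact_mod_cast hK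
  have hn := le_card hK
  set n : ℝ := ((#{x ∈ XX K | ee x = 0} : ℕ) : ℝ) with hn0
  have hK3 : (0 : ℝ) < K ^ 3 := by positivity
  have hnp : 0 < n := by linarith
  have hT : (0 : ℝ) < 4 * K * n := by positivity
  set A := (range (4 * K)).filter
    fun j => s₁ < (ze (4 * K) ^ j).im ∧ (ze (4 * K) ^ j).im ≤ s₂ with hA
  refine ⟨fun k => (((4 * K * n)⁻¹ : ℝ) : ℂ) *
    ∑ j ∈ A, ∑ _x ∈ XX K with ee _x = k, ((ze (4 * K) ^ j)⁻¹) ^ k, fun k => ?_, fun z hz => ?_⟩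
  · have h1 := card_A hK hs (A := A) (s₂ := s₂) fun j hj => by
      simpa only [hA, mem_filter, mem_range] using hj
    have h2 : ‖∑ j ∈ A, ∑ _x ∈ XX K with ee _x = k, ((ze (4 * K) ^ j)⁻¹) ^ k‖ ≤ #A * K ^ 3 := by
      refine (norm_sum_le_of_le _ (n := fun _ => (K : ℝ) ^ 3) fun j _ => ?_).trans (by simp)
      rw [sum_const, nsmul_eq_mul, norm_mul, norm_zpow, norm_inv, norm_ze_pow]
      simp only [Complex.norm_natCast, inv_one, one_zpow, mul_one]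
      exact_mod_cast card_le K k
    rw [norm_mul, Complex.norm_real, Real.norm_of_nonneg (by positivity), inv_mul_le_iff₀ hT]
    calc _ ≤ 2 * (K * |s₂| + 1) * (2 * n) := h2.trans (by gcongr)
      _ = 4 * K * n * (1 * (|s₂| + 1 / K)) := by field_simp; ring
      _ ≤ _ := by gcongr; norm_num
  rw [psi A _ hz]
  obtain ⟨B, hB, e, hfar⟩ : ∃ B ⊆ range (4 * K),
      ‖(((4 * K * n)⁻¹ * ∑ j ∈ A, ‖SS K (z * (ze (4 * K) ^ j)⁻¹)‖ ^ 4 : ℝ) : ℂ) -
        (if s₁ < z.im ∧ z.im ≤ s₂ then 1 else 0)‖ =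
        (4 * K * n)⁻¹ * ∑ j ∈ B, ‖SS K (z * (ze (4 * K) ^ j)⁻¹)‖ ^ 4 ∧
      ∀ d : ℝ, d ≤ |z.im - s₁| → d ≤ |z.im - s₂| →
        ∀ j ∈ B, d ≤ |z.im - (ze (4 * K) ^ j).im| := by
    split_ifs with h
    · refine ⟨(range (4 * K)).filter
        fun j => ¬ (s₁ < (ze (4 * K) ^ j).im ∧ (ze (4 * K) ^ j).im ≤ s₂), filter_subset _ _,
        ?_, fun d d1 d2 j hj => ?_⟩
      · have e1 := sum_filter_add_sum_filter_not (range (4 * K))
          (fun j => s₁ < (ze (4 * K) ^ j).im ∧ (ze (4 * K) ^ j).im ≤ s₂)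
          fun j => ‖SS K (z * (ze (4 * K) ^ j)⁻¹)‖ ^ 4
        rw [sum_four hK hz, ← hA, ← hn0] at e1
        rw [← Complex.ofReal_one, ← Complex.ofReal_sub, Complex.norm_real, eq_sub_of_add_eq e1,
          mul_sub, inv_mul_cancel₀ hT.ne', sub_sub_cancel_left, norm_neg]
        exact Real.norm_of_nonneg (by positivity)
      · have := (mem_filter.1 hj).2
        rw [abs_of_pos (sub_pos.2 h.1)] at d1
        rw [abs_of_nonpos (sub_nonpos.2 h.2)] at d2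
        rcases not_and_or.1 this with t | t
        · exact le_abs.2 (Or.inl (by linarith [not_lt.1 t]))
        · exact le_abs.2 (Or.inr (by linarith [not_le.1 t]))
    · refine ⟨A, filter_subset _ _, ?_, fun d d1 d2 j hj => ?_⟩
      · rw [sub_zero, Complex.norm_real]
        exact Real.norm_of_nonneg (by positivity)
      · have := (mem_filter.1 hj).2
        rcases not_and_or.1 h with t | t
        · rw [abs_of_nonpos (sub_nonpos.2 (not_lt.1 t))] at d1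
          exact le_abs.2 (Or.inr (by linarith [this.1]))
        · rw [abs_of_pos (sub_pos.2 (not_le.1 t))] at d2
          exact le_abs.2 (Or.inl (by linarith [this.2]))
  rw [e]
  refine ⟨?_, fun d hd d1 d2 => ?_⟩
  · rw [inv_mul_le_iff₀ hT, mul_one]
    exact mass hK hz hB
  · rw [inv_mul_le_iff₀ hT]
    exact (mass_far hK hz hB hd (hfar d d1 d2)).trans_eq (mul_comm _ _)

end Pool.Agent.P.MP_a1177c_nt.LC
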