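import Pool.Agent.P.MP_a1177c_nt.LC.Jackson
import Pool.Agent.P.MP_a1177c_nt.LC.Geo

namespace Pool.Agent.P.MP_a1177c_nt.LC

open Finset Filter MR MR.StructAux
open scoped ComplexConjugate Topology

namespace KernBilAux

/-- A summable bump of width `H`. -/
noncomputable def bump (H : ℝ) (n : ℤ) : ℝ := H ^ 2 / (H + |(n : ℝ)|) ^ 2

lemma bump_nonneg (H : ℝ) (n : ℤ) : 0 ≤ bump H n := by unfold bump; positivity

lemma sum_bump_Icc {H : ℝ} (hH : 0 < H) (m : ℕ) :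
    ∑ n ∈ Icc (-(m : ℤ)) m, bump H n ≤ 1 + 2 * H - 2 * H ^ 2 / (H + m) := by
  induction m with
  | zero =>
    simp only [Nat.cast_zero, neg_zero, Icc_self, sum_singleton, bump, Int.cast_zero, abs_zero,
      add_zero]
    rw [div_self (by positivity)]
    have : 2 * H ^ 2 / H = 2 * H := by field_simp
    linarith
  | succ m ih =>
    have e : Icc (-((m + 1 : ℕ) : ℤ)) ((m + 1 : ℕ) : ℤ)
        = insert (-((m : ℤ) + 1)) (insert ((m : ℤ) + 1) (Icc (-(m : ℤ)) m)) := by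
      ext n; simp only [mem_Icc, mem_insert]; push_cast; omega
    rw [e, sum_insert (by simp only [mem_Icc, mem_insert]; omega),
      sum_insert (by simp only [mem_Icc]; omega)]
    have h1 : bump H (-((m : ℤ) + 1)) = H ^ 2 / (H + (m + 1)) ^ 2 := by
      unfold bump; push_cast; rw [abs_neg, abs_of_nonneg (by positivity)]
    have h2 : bump H ((m : ℤ) + 1) = H ^ 2 / (H + (m + 1)) ^ 2 := by
      unfold bump; push_cast; rw [abs_of_nonneg (by positivity)]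
    have h3 : H ^ 2 / (H + (m + 1)) ^ 2 ≤ H ^ 2 / ((H + m) * (H + (m + 1))) := by
      refine div_le_div_of_nonneg_left (by positivity) (by positivity) ?_
      have : (0 : ℝ) ≤ H + (m + 1) := by positivity
      nlinarith
    have h4 : 2 * (H ^ 2 / ((H + m) * (H + (m + 1))))
        = 2 * H ^ 2 / (H + m) - 2 * H ^ 2 / (H + (m + 1)) := by
      field_simp; ring
    rw [h1, h2]
    push_cast
    linarith

lemma sum_bump {H : ℝ} (hH : 1 ≤ H) (c : ℤ) (J : Finset ℤ) : ∑ j ∈ J, bump H (j - c) ≤ 3 * H := by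
  obtain ⟨m, hm⟩ : ∃ m : ℕ, ∀ j ∈ J, (j - c).natAbs ≤ m :=
    ⟨J.sup fun j => (j - c).natAbs, fun j hj => le_sup (f := fun j => (j - c).natAbs) hj⟩
  rw [← sum_image (s := J) (g := fun j => j - c) (f := bump H) fun a _ b _ h => by simpa using h]
  refine (sum_le_sum_of_subset_of_nonneg (t := Icc (-(m : ℤ)) m) (fun n hn => ?_)
    fun n _ _ => bump_nonneg H n).trans ((sum_bump_Icc (by linarith) m).trans ?_)
  · obtain ⟨j, hj, rfl⟩ := mem_image.1 hn
    have := hm j hj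
    rw [mem_Icc]; omega
  · have : 0 ≤ 2 * H ^ 2 / (H + m) := by positivity
    linarith

lemma bump_ge {H μ : ℝ} (hH : 1 ≤ H) (hμ : H ≤ μ) {n : ℤ} (hn : |(n : ℝ)| ≤ μ + 1) :
    H ^ 2 / μ ^ 2 ≤ 9 * bump H n := by
  unfold bump
  have h0 : 0 < μ := by linarith
  have h0' : 0 < H := by linarith
  rw [← mul_div_assoc, div_le_div_iff₀ (by positivity) (by positivity)]
  have h1 : (H + |(n : ℝ)|) ^ 2 ≤ (3 * μ) ^ 2 :=
    pow_le_pow_left₀ (by positivity) (by linarith) 2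
  nlinarith [sq_nonneg H]

lemma side {j θ δ c P H : ℝ} (h1 : 1 ≤ θ) (h2 : θ ≤ 1 + δ) (hc0 : 0 ≤ c) (hc : c ≤ 2 * P)
    (hH : 4 * δ * P ≤ H) (hH0 : 0 < H) (hj : H ≤ |j - c|) :
    (c < j * θ ↔ c < j) ∧ |j - c| / 2 ≤ |j * θ - c| := by
  have e : j * θ - c = (j - c) * θ + c * (θ - 1) := by ring
  have h3 : 0 ≤ c * (θ - 1) := mul_nonneg hc0 (by linarith)
  have h4 : c * (θ - 1) ≤ 2 * P * δ := mul_le_mul hc (by linarith) (by linarith) (by linarith)
  rcases le_or_gt 0 (j - c) with h | h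
  · rw [abs_of_nonneg h] at hj ⊢
    have h5 : j - c ≤ (j - c) * θ := le_mul_of_one_le_right h h1
    exact ⟨⟨fun _ => by linarith, fun _ => by linarith⟩, le_abs.2 (Or.inl (by linarith))⟩
  · rw [abs_of_neg h] at hj ⊢
    have h5 : (j - c) * θ ≤ j - c := by nlinarith
    exact ⟨⟨fun _ => by linarith, fun _ => by linarith⟩, le_abs.2 (Or.inr (by linarith))⟩

open Classical in
/-- The pointwise error. -/
lemma point {C M ρ θ δ H β y : ℝ} {P : ℕ} {j : ℤ} {p : ℂ} (hC : 0 < C) (hM : 0 < M) (hρ : 0 < ρ)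
    (hy : ρ * y = j * θ) (h1 : 1 ≤ θ) (h2 : θ ≤ 1 + δ) (hβ1 : 1 ≤ β) (hβ2 : β ≤ 2)
    (hH : 4 * δ * P ≤ H) (hH1 : 1 ≤ H) (hρM : ρ ≤ 8 * H * M)
    (a1 : ‖p - (if P / ρ < y ∧ y ≤ β * P / ρ then 1 else 0)‖ ≤ 1)
    (a2 : ∀ d : ℝ, 0 < d → d ≤ |y - P / ρ| → d ≤ |y - β * P / ρ| →
      ‖p - (if P / ρ < y ∧ y ≤ β * P / ρ then 1 else 0)‖ ≤ C / (M * d) ^ 2) :
    ‖(if (P : ℝ) < j ∧ (j : ℝ) ≤ β * P then 1 else 0) - p‖ ≤
      (18 + 2304 * C) * (bump H (j - P) + bump H (j - ⌊β * P⌋)) := by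
  have hP : (0 : ℝ) ≤ P := by positivity
  have b1 := bump_nonneg H (j - P)
  have b2 := bump_nonneg H (j - ⌊β * P⌋)
  have n1 : |((j - P : ℤ) : ℝ)| ≤ |(j : ℝ) - P| + 1 := by push_cast; linarith
  have n2 : |((j - ⌊β * P⌋ : ℤ) : ℝ)| ≤ |(j : ℝ) - β * P| + 1 := by
    have h3 := Int.floor_le (β * P)
    have h4 := Int.lt_floor_add_one (β * P)
    have h5 := abs_add_le ((j : ℝ) - β * P) (β * P - ⌊β * P⌋)
    rw [abs_of_nonneg (a := β * P - ⌊β * P⌋) (by linarith)] at h5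
    push_cast
    rw [show (j : ℝ) - ⌊β * P⌋ = j - β * P + (β * P - ⌊β * P⌋) by ring]
    linarith
  have key : ∀ μ : ℝ, H ≤ μ → min |(j : ℝ) - P| |(j : ℝ) - β * P| ≤ μ →
      H ^ 2 / μ ^ 2 ≤ 9 * (bump H (j - P) + bump H (j - ⌊β * P⌋)) := fun μ h3 h4 => by
    rcases min_le_iff.1 h4 with h | h
    · linarith [bump_ge hH1 h3 (n1.trans (by linarith))]
    · linarith [bump_ge hH1 h3 (n2.trans (by linarith))]
  rw [norm_sub_rev]
  rcases le_or_gt H (min |(j : ℝ) - P| |(j : ℝ) - β * P|) with h | h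
  · obtain ⟨s1, t1⟩ := side h1 h2 hP (by linarith) hH (by linarith) (h.trans (min_le_left _ _))
    obtain ⟨s2, t2⟩ := side (c := β * P) h1 h2 (by positivity) (by gcongr) hH (by linarith)
      (h.trans (min_le_right _ _))
    have key' := key _ h le_rfl
    set μ := min |(j : ℝ) - P| |(j : ℝ) - β * P| with hμ
    have hμ0 : 0 < μ := by linarith
    have e : ∀ c : ℝ, |y - c / ρ| = |j * θ - c| / ρ := fun c => by
      rw [← hy, ← abs_of_pos hρ, ← abs_div, abs_of_pos hρ]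
      congr 1; field_simp
    have e2 : (P / ρ < y ∧ y ≤ β * P / ρ) ↔ ((P : ℝ) < j ∧ (j : ℝ) ≤ β * P) := by
      rw [div_lt_iff₀ hρ, le_div_iff₀ hρ, mul_comm y, hy, s1, ← not_lt, s2, not_lt]
    have h3 := a2 (μ / 2 / ρ) (by positivity)
      (by rw [e]; gcongr; linarith [min_le_left |(j : ℝ) - P| |(j : ℝ) - β * P|])
      (by rw [e]; gcongr; linarith [min_le_right |(j : ℝ) - P| |(j : ℝ) - β * P|])
    simp only [e2] at h3
    have h4 : C / (M * (μ / 2 / ρ)) ^ 2 ≤ 256 * C * (H ^ 2 / μ ^ 2) := by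
      have h5 : ρ ^ 2 ≤ (8 * H * M) ^ 2 := pow_le_pow_left₀ hρ.le hρM 2
      rw [show C / (M * (μ / 2 / ρ)) ^ 2 = 4 * C * ρ ^ 2 / (M ^ 2 * μ ^ 2) by field_simp; ring,
        show 256 * C * (H ^ 2 / μ ^ 2) = 4 * C * (8 * H * M) ^ 2 / (M ^ 2 * μ ^ 2) by
          field_simp; ring]
      gcongr
    have h6 := mul_le_mul_of_nonneg_left key' (show 0 ≤ 256 * C by positivity)
    linarith only [h3, h4, h6, b1, b2]
  · have h3 := key H le_rfl h.le
    rw [div_self (by positivity)] at h3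
    have h4 : ‖p - (if (P : ℝ) < j ∧ (j : ℝ) ≤ β * P then 1 else 0)‖ ≤ 2 := by
      refine (norm_sub_le_norm_sub_add_norm_sub _
        (if P / ρ < y ∧ y ≤ β * P / ρ then 1 else 0) _).trans ?_
      have : ‖(if P / ρ < y ∧ y ≤ β * P / ρ then (1 : ℂ) else 0) -
          (if (P : ℝ) < j ∧ (j : ℝ) ≤ β * P then 1 else 0)‖ ≤ 1 := by
        split_ifs <;> simp
      linarith
    linarith only [mul_nonneg hC.le (add_nonneg b1 b2), h3, h4]

lemma im_dir (w w' : G) :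
    (dir1 (star w * w')).im = det w w' / √((nm w : ℝ) * nm w') := by
  rw [dir1, Complex.div_ofReal_im, norm_coe_eq, nm_mul, nm_star, star_mul_eq]
  simp [GaussianInt.toComplex_def']

lemma fib (A : Finset G) (s : G → ℕ) (F : ℕ → G → ℂ) :
    ∑ w ∈ A, F (s w) w = ∑ a ∈ A.image s, ∑ w ∈ A.filter (fun w => s w = a), F a w := by
  rw [← sum_fiberwise_of_maps_to (g := s) (t := A.image s) fun w hw => mem_image_of_mem s hw]
  exact sum_congr rfl fun a _ => sum_congr rfl fun w hw => by rw [(mem_filter.1 hw).2]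

lemma expand (A : Finset G) (s : G → ℕ) (I : Finset ℤ) (c : ℕ → ℕ → ℤ → ℂ) (u v : ℤ → G → ℂ) :
    ∑ w ∈ A, ∑ w' ∈ A, ∑ k ∈ I, c (s w) (s w') k * (u k w * v k w')
      = ∑ a ∈ A.image s, ∑ b ∈ A.image s, ∑ k ∈ I, c a b k *
        ((∑ w ∈ A.filter (fun w => s w = a), u k w) *
          ∑ w' ∈ A.filter (fun w => s w = b), v k w') := by
  rw [fib A s fun a w => ∑ w' ∈ A, ∑ k ∈ I, c a (s w') k * (u k w * v k w')]
  refine sum_congr rfl fun a _ => ?_
  rw [sum_comm, fib A s fun b w' => ∑ w ∈ A.filter (fun w => s w = a), ∑ k ∈ I,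
    c a b k * (u k w * v k w')]
  refine sum_congr rfl fun b _ => ?_
  simp_rw [sum_mul_sum]
  simp only [mul_sum]
  rw [sum_comm]
  exact (sum_congr rfl fun w _ => sum_comm).trans sum_comm

lemma cs (I : Finset ℤ) (c U V : ℤ → ℂ) {c0 R R' : ℝ} (h0 : 0 ≤ c0) (hR : 0 ≤ R) (hR' : 0 ≤ R')
    (hc : ∀ k, ‖c k‖ ≤ c0) (hU : ∑ k ∈ I, ‖U k‖ ^ 2 ≤ R ^ 2) (hV : ∑ k ∈ I, ‖V k‖ ^ 2 ≤ R' ^ 2) :
    ‖∑ k ∈ I, c k * (U k * V k)‖ ≤ c0 * (R * R') := by
  refine (norm_sum_le _ _).trans ((sum_le_sum (g := fun k => c0 * (‖U k‖ * ‖V k‖))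
    fun k _ => ?_).trans ?_)
  · rw [norm_mul, norm_mul]; gcongr; exact hc k
  · rw [← mul_sum]
    refine mul_le_mul_of_nonneg_left (abs_le_of_sq_le_sq' ?_ (by positivity)).2 h0
    refine (sum_mul_sq_le_sq_mul_sq _ _ _).trans ?_
    rw [mul_pow]
    exact mul_le_mul hU hV (sum_nonneg fun _ _ => by positivity) (by positivity)

lemma shell_bounds {K N n : ℝ} {J : ℕ} (hK : 1 ≤ K) (hJ : K ≤ J) (hN : 0 < N) (h1 : N / K < n) :
    n ≤ ⌈J * n / N⌉₊ * N / J ∧ ⌈J * n / N⌉₊ * N / J ≤ (1 + K / J) * n := by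
  have hJ0 : (0 : ℝ) < J := by linarith
  have hn : 0 < n := lt_trans (by positivity) h1
  have h2 := Nat.le_ceil (J * n / N)
  have h3 := (Nat.ceil_lt_add_one (show 0 ≤ J * n / N by positivity)).le
  rw [div_lt_iff₀ (by linarith)] at h1
  rw [div_le_iff₀ hN] at h2
  constructor
  · rw [le_div_iff₀ hJ0]; linarith
  · rw [div_le_iff₀ hJ0]
    have h4 := mul_le_mul_of_nonneg_right h3 hN.le
    rw [add_mul, div_mul_cancel₀ _ hN.ne'] at h4
    have : (1 + K / J) * n * J = J * n + n * K := by field_simp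
    linarith

end KernBilAux

open KernBilAux in
open Classical in
/-- A determinant window is controlled by angular mean squares on thin shells. -/
theorem kern_bil {K ε : ℝ} (hK : 1 ≤ K) (hε : 0 < ε) : ∃ (J T : ℕ) (C : ℝ), K ≤ J ∧ 0 < T ∧ 0 < C ∧
    ∀ᶠ P : ℕ in atTop, ∀ β N R : ℝ, 1 ≤ β → β ≤ 2 → P ≤ N → 0 ≤ R → ∀ f f' : G → ℂ,
      (∀ w, ‖f w‖ ≤ 1) → (∀ w, ‖f' w‖ ≤ 1) →
      (∀ a : ℕ, ∑ k ∈ Icc (-(⌊T * N / P⌋₊ : ℤ)) ⌊T * N / P⌋₊,
        ‖∑ w ∈ (An (N / K) (K * N)).filter (fun w => ⌈J * (nm w : ℝ) / N⌉₊ = a),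
          f w * ek k w‖ ^ 2 ≤ R ^ 2) →
      ‖∑ w ∈ An (N / K) (K * N), ∑ w' ∈ An (N / K) (K * N),
        f w * f' w' * (if (P : ℝ) < det w w' ∧ (det w w' : ℝ) ≤ β * P then 1 else 0)‖ ≤
        ε * P * N + C * P * R := by
  obtain ⟨C, hC, hjack⟩ := jackson
  choose! coef hc1 hc2 using hjack
  obtain ⟨A0, hA0⟩ : ∃ A0 : ℝ, A0 = 18 + 2304 * C := ⟨_, rfl⟩
  have hA0p : 0 < A0 := by rw [hA0]; positivity
  obtain ⟨lm, hlm⟩ : ∃ lm : ℝ, lm = ε / (270 * K ^ 2 * A0) := ⟨_, rfl⟩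
  have hK0 : 0 < K := by linarith
  have hlm0 : 0 < lm := by rw [hlm]; positivity
  obtain ⟨J, hJ⟩ := exists_nat_ge (K + 4 * K / lm)
  obtain ⟨T, hT⟩ := exists_nat_ge (2 + K / lm)
  have p1 : 0 < 4 * K / lm := by positivity
  have p2 : 0 < K / lm := by positivity
  have hJK : K ≤ J := by linarith
  have hJ0 : (0 : ℝ) < J := by linarith
  have hT2 : (2 : ℝ) ≤ T := by linarith
  have hJl : 4 * (K / J) ≤ lm := by
    rw [← mul_div_assoc, div_le_iff₀ hJ0, ← div_le_iff₀' hlm0]; linarith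
  have hTl : K ≤ lm * T := by rw [← div_le_iff₀' hlm0]; linarith
  obtain ⟨C1, hC1⟩ : ∃ C1 : ℝ, C1 = 9720 * K ^ 2 * (T + K) := ⟨_, rfl⟩
  have hC11 : 1 ≤ C1 := by
    have : 1 ≤ K ^ 2 := one_le_pow₀ hK
    rw [hC1]; nlinarith only [this, hK, hT2]
  refine ⟨J, T, (J * K + 2) ^ 2 * (4 * C * K * C1), hJK, by exact_mod_cast two_pos.trans_le hT2,
    by positivity, ?_⟩
  filter_upwards [eventually_ge_atTop 1,
    (tendsto_natCast_atTop_atTop (R := ℝ)).eventually_ge_atTop (1 / lm)] with P hP1 hPl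
  intro β N R hβ1 hβ2 hPN hR f f' hf hf' hmv
  have hP : (1 : ℝ) ≤ P := by exact_mod_cast hP1
  have hN : 1 ≤ N := hP.trans hPN
  have hN0 : 0 < N := by linarith
  have hH1 : 1 ≤ lm * P := by rwa [div_le_iff₀' hlm0] at hPl
  have hx1 : 1 ≤ T * N / (2 * P) := by
    rw [le_div_iff₀ (by positivity)]; nlinarith only [hPN, hT2, hN0]
  obtain ⟨M, hMd⟩ : ∃ M : ℕ, M = ⌊T * N / (2 * P)⌋₊ := ⟨_, rfl⟩
  have hM1 : 1 ≤ M := hMd ▸ Nat.floor_pos.2 hx1
  have hM1' : (1 : ℝ) ≤ M := by exact_mod_cast hM1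
  have hMu : 2 * (M : ℝ) ≤ T * N / P := by
    have : (M : ℝ) ≤ T * N / (2 * P) := hMd ▸ Nat.floor_le (by linarith)
    rw [show T * N / P = 2 * (T * N / (2 * P)) by field_simp]; linarith
  have hMl : T * N ≤ 4 * P * M := by
    have : T * N / (2 * P) < M + 1 := hMd ▸ Nat.lt_floor_add_one _
    rw [div_lt_iff₀ (by positivity)] at this
    nlinarith only [this, hM1', hP]
  have hMf : 2 * M ≤ ⌊T * N / P⌋₊ := Nat.le_floor (by exact_mod_cast hMu)
  set A := An (N / K) (K * N) with hA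
  set s : G → ℕ := fun w => ⌈J * (nm w : ℝ) / N⌉₊ with hs
  have hmem : ∀ w ∈ A, cont w = 1 ∧ N / K < nm w ∧ (nm w : ℝ) ≤ K * N := fun w hw =>
    (mem_An (by positivity)).1 hw
  have hcard : (A.card : ℝ) ≤ 9 * (K * N) := card_An_le _ (by positivity)
  have hsq : √(K * N / (N / K)) = K := by
    rw [show K * N / (N / K) = K ^ 2 by field_simp, Real.sqrt_sq hK0.le]
  obtain ⟨ρ, hρ⟩ : ∃ ρ : ℕ → ℕ → ℝ, ∀ a b, ρ a b = √(a * N / J * (b * N / J)) := ⟨_, fun _ _ => rfl⟩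
  have hρ0 : ∀ a b, 0 ≤ ρ a b := fun a b => hρ a b ▸ Real.sqrt_nonneg _
  have hP0 : (0 : ℝ) ≤ P := Nat.cast_nonneg P
  set c : ℕ → ℕ → ℤ → ℂ := fun a b => coef M (P / ρ a b) (β * P / ρ a b) with hc
  set I := Icc (-(2 * M : ℤ)) (2 * M) with hI
  have hρ1 : ∀ w ∈ A, ∀ w' ∈ A, N / K ≤ √((nm w : ℝ) * nm w') ∧
      √((nm w : ℝ) * nm w') ≤ ρ (s w) (s w') ∧
      ρ (s w) (s w') ≤ (1 + K / J) * √((nm w : ℝ) * nm w') ∧
      √((nm w : ℝ) * nm w') ≤ K * N := fun w hw w' hw' => by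
    obtain ⟨-, h1, h2⟩ := hmem w hw
    obtain ⟨-, h1', h2'⟩ := hmem w' hw'
    obtain ⟨h3, h4⟩ := shell_bounds hK hJK hN0 h1
    obtain ⟨h3', h4'⟩ := shell_bounds hK hJK hN0 h1'
    rw [hρ]
    refine ⟨Real.le_sqrt_of_sq_le ?_, Real.sqrt_le_sqrt (by gcongr), ?_,
      Real.sqrt_le_iff.2 ⟨by positivity, ?_⟩⟩
    · rw [sq]; gcongr
    · refine Real.sqrt_le_iff.2 ⟨by positivity, ?_⟩
      rw [mul_pow, Real.sq_sqrt (by positivity)]
      calc _ ≤ (1 + K / J) * (nm w : ℝ) * ((1 + K / J) * nm w') := by gcongr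
        _ = _ := by ring
    · rw [sq]; gcongr
  have herr : ∀ w ∈ A, ∀ w' ∈ A,
      ‖(if (P : ℝ) < det w w' ∧ (det w w' : ℝ) ≤ β * P then 1 else 0) -
        ∑ k ∈ I, c (s w) (s w') k * (ek (-k) w * ek k w')‖ ≤
      A0 * (bump (lm * P) (det w w' - P) + bump (lm * P) (det w w' - ⌊β * P⌋)) := by
    intro w hw w' hw'
    obtain ⟨h1, h2, h3, h4⟩ := hρ1 w hw w' hw'
    have hν : 0 < √((nm w : ℝ) * nm w') := lt_of_lt_of_le (by positivity) h1
    have hw0 := ne_of_mem_An hw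
    have hw0' := ne_of_mem_An hw'
    have hz := norm_dir1 (mul_ne_zero (star_ne_zero.2 hw0) hw0')
    obtain ⟨a1, a2⟩ := hc2 M (P / ρ (s w) (s w')) (β * P / ρ (s w) (s w')) hM1
      (div_nonneg hP0 (hρ0 _ _)) _ hz
    have e : ∀ k : ℤ, dir1 (star w * w') ^ k = ek (-k) w * ek k w' := fun k => by
      rw [← ek_star k hw0, ← ek_mul]; rfl
    simp only [e] at a1 a2
    have hKJ : K / J ≤ 1 := (div_le_one hJ0).2 hJK
    rw [hA0]
    refine point (θ := ρ (s w) (s w') / √((nm w : ℝ) * nm w')) (δ := K / J) hC (by linarith)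
      (hν.trans_le h2) (by rw [im_dir]; ring) ((one_le_div hν).2 h2) ((div_le_iff₀ hν).2 h3)
      hβ1 hβ2 (by gcongr) hH1 ?_ a1 a2
    have h5 : ρ (s w) (s w') ≤ 2 * (K * N) := h3.trans (by gcongr; linarith)
    have h6 : K * N ≤ lm * T * N := by gcongr
    have h7 := mul_le_mul_of_nonneg_left hMl hlm0.le
    calc _ ≤ 2 * (K * N) := h5
      _ ≤ 2 * (lm * (T * N)) := by rw [← mul_assoc lm]; gcongr
      _ ≤ 2 * (lm * (4 * P * M)) := by gcongr
      _ = _ := by ring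
  have e : ∑ w ∈ A, ∑ w' ∈ A,
      f w * f' w' * (if (P : ℝ) < det w w' ∧ (det w w' : ℝ) ≤ β * P then 1 else 0)
      = ∑ w ∈ A, ∑ w' ∈ A, f w * f' w' *
        ((if (P : ℝ) < det w w' ∧ (det w w' : ℝ) ≤ β * P then 1 else 0) -
          ∑ k ∈ I, c (s w) (s w') k * (ek (-k) w * ek k w')) +
        ∑ w ∈ A, ∑ w' ∈ A, ∑ k ∈ I, c (s w) (s w') k * (f w * ek (-k) w * (f' w' * ek k w')) := by
    rw [← sum_add_distrib]
    refine sum_congr rfl fun w _ => ?_
    rw [← sum_add_distrib]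
    refine sum_congr rfl fun w' _ => ?_
    rw [mul_sub, mul_sum, sum_congr rfl fun k _ => show f w * f' w' *
      (c (s w) (s w') k * (ek (-k) w * ek k w'))
        = c (s w) (s w') k * (f w * ek (-k) w * (f' w' * ek k w')) by ring]
    ring
  rw [e]
  refine (norm_add_le _ _).trans (add_le_add ?_ ?_)
  · have h1 : ∀ w ∈ A, ‖∑ w' ∈ A, f w * f' w' *
        ((if (P : ℝ) < det w w' ∧ (det w w' : ℝ) ≤ β * P then 1 else 0) -
          ∑ k ∈ I, c (s w) (s w') k * (ek (-k) w * ek k w'))‖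
          ≤ 5 * K * (A0 * (6 * (lm * P))) := by
      intro w hw
      obtain ⟨h1, h2, h3⟩ := hmem w hw
      have h4 := sum_partners (T := A) (B := A0 * (6 * (lm * P))) (by positivity) h1 h2.le h3
        (fun w' hw' => (hmem w' hw').2.2)
        (fun j => A0 * (bump (lm * P) (j - P) + bump (lm * P) (j - ⌊β * P⌋)))
        (fun j => mul_nonneg hA0p.le (add_nonneg (bump_nonneg _ _) (bump_nonneg _ _))) fun S => by
          rw [← mul_sum, sum_add_distrib]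
          refine mul_le_mul_of_nonneg_left ?_ hA0p.le
          linarith [sum_bump hH1 P S, sum_bump hH1 ⌊β * P⌋ S]
      rw [hsq] at h4
      refine (norm_sum_le _ _).trans ((sum_le_sum fun w' hw' => ?_).trans h4)
      rw [norm_mul, norm_mul]
      exact (mul_le_of_le_one_left (norm_nonneg _)
        (mul_le_one₀ (hf w) (norm_nonneg _) (hf' w'))).trans (herr w hw w' hw')
    refine (norm_sum_le _ _).trans ((sum_le_card_nsmul _ _ _ h1).trans ?_)
    rw [nsmul_eq_mul]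
    calc _ ≤ 9 * (K * N) * (5 * K * (A0 * (6 * (lm * P)))) := by gcongr
      _ = _ := by rw [hlm]; field_simp; ring
  · rw [expand A s I c (fun k w => f w * ek (-k) w) fun k w' => f' w' * ek k w']
    have hS : ((A.image s).card : ℝ) ≤ J * K + 2 := by
      have h1 : A.image s ⊆ range (⌈J * K⌉₊ + 1) := fun a ha => by
        obtain ⟨w, hw, rfl⟩ := mem_image.1 ha
        refine mem_range.2 (Nat.lt_succ_of_le (Nat.ceil_le_ceil ?_))
        rw [div_le_iff₀ hN0, mul_assoc]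
        exact mul_le_mul_of_nonneg_left (hmem w hw).2.2 hJ0.le
      have h2 : ((A.image s).card : ℝ) ≤ (⌈J * K⌉₊ + 1 : ℕ) := by
        exact_mod_cast (card_le_card h1).trans_eq (card_range _)
      have h3 := Nat.ceil_lt_add_one (show 0 ≤ J * K by positivity)
      push_cast at h2
      linarith
    have h1 : ∀ a ∈ A.image s, ∀ b ∈ A.image s, ‖∑ k ∈ I, c a b k *
        ((∑ w ∈ A.filter (fun w => s w = a), f w * ek (-k) w) *
          ∑ w' ∈ A.filter (fun w => s w = b), f' w' * ek k w')‖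
          ≤ 4 * C * K * P / N * (R * (C1 * N)) := by
      intro a ha b hb
      refine cs I _ _ _ (by positivity) hR (by positivity) (fun k => ?_) ?_ ?_
      · obtain ⟨w, hw, rfl⟩ := mem_image.1 ha
        obtain ⟨w', hw', rfl⟩ := mem_image.1 hb
        obtain ⟨h1, h2, -, -⟩ := hρ1 w hw w' hw'
        refine (hc1 M _ _ hM1 (div_nonneg hP0 (hρ0 _ _)) k).trans ?_
        have h3 : β * P / ρ (s w) (s w') ≤ 2 * P / (N / K) := by gcongr; exact h1.trans h2
        have h4 : 1 / (M : ℝ) ≤ 2 * K * P / N := by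
          rw [div_le_div_iff₀ (by linarith) hN0]
          have : P * (M : ℝ) ≤ K * (P * M) := le_mul_of_one_le_left (by positivity) hK
          have h5 : 2 * N ≤ T * N := by gcongr
          linarith only [this, h5, hMl]
        rw [abs_of_nonneg (div_nonneg (by positivity) (hρ0 _ _)), show 4 * C * K * P / N
          = C * (2 * P / (N / K) + 2 * K * P / N) by field_simp; ring]
        gcongr
      · refine le_trans ?_ (hmv a)
        rw [← sum_image (s := I) (g := fun k => -k) (f := fun k =>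
          ‖∑ w ∈ A.filter (fun w => s w = a), f w * ek k w‖ ^ 2) fun _ _ _ _ h => neg_injective h]
        refine sum_le_sum_of_subset_of_nonneg (fun k hk => ?_) fun _ _ _ => by positivity
        obtain ⟨l, hl, rfl⟩ := mem_image.1 hk
        rw [hI, mem_Icc] at hl
        rw [mem_Icc]; omega
      · have h2 := mv_ek (T := A.filter fun w => s w = b) (X₀ := N / K) (X := K * N)
          (by positivity) (one_le_mul_of_one_le_of_one_le hK hN) (fun w hw => by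
            obtain ⟨h1, h2, h3⟩ := hmem w (mem_filter.1 hw).1
            exact ⟨h1, h2.le, h3⟩) (2 * M) f'
        rw [hsq] at h2
        push_cast at h2
        refine h2.trans ?_
        have h3 : ∑ w ∈ A.filter (fun w => s w = b), ‖f' w‖ ^ 2 ≤ 9 * (K * N) := by
          refine (sum_le_card_nsmul _ _ 1 fun w _ => pow_le_one₀ (norm_nonneg _) (hf' w)).trans ?_
          rw [nsmul_eq_mul, mul_one]
          exact le_trans (by exact_mod_cast card_filter_le _ _) hcard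
        have h4 : 2 * (M : ℝ) ≤ T * N := hMu.trans (div_le_self (by positivity) hP)
        calc _ ≤ 1080 * K * (T * N + K * N) * (9 * (K * N)) := by gcongr
          _ = C1 * N ^ 2 := by rw [hC1]; ring
          _ ≤ (C1 * N) ^ 2 := by
            rw [mul_pow]; gcongr; exact le_self_pow₀ hC11 two_ne_zero
    have h2 : ∀ a ∈ A.image s, ‖∑ b ∈ A.image s, ∑ k ∈ I, c a b k *
        ((∑ w ∈ A.filter (fun w => s w = a), f w * ek (-k) w) *
          ∑ w' ∈ A.filter (fun w => s w = b), f' w' * ek k w')‖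
          ≤ (J * K + 2) * (4 * C * K * P / N * (R * (C1 * N))) := fun a ha => by
      refine (norm_sum_le _ _).trans ((sum_le_card_nsmul _ _ _ (h1 a ha)).trans ?_)
      rw [nsmul_eq_mul]; gcongr
    refine (norm_sum_le _ _).trans ((sum_le_card_nsmul _ _ _ h2).trans ?_)
    rw [nsmul_eq_mul]
    calc _ ≤ (J * K + 2) * ((J * K + 2) * (4 * C * K * P / N * (R * (C1 * N)))) := by gcongr
      _ = _ := by field_simp

end Pool.Agent.P.MP_a1177c_nt.LC
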