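import Pool.Agent.P.MP_a1177c_nt.LC.Defs
import Pool.Agent.Lib.LargeSieve.Multiplicative

/-!
The Polya-Vinogradov inequality and the exceptional characters.
-/

namespace Pool.Agent.P.MP_a1177c_nt.LC

open Finset Filter MR MR.StructAux
open scoped ComplexConjugate Topology

namespace PVAux

open Pool.Agent.Lib.LargeSieve DirichletCharacter

lemma sum_inv_le (f : ℕ) : ∑ a ∈ Ico 1 f, (1 : ℝ) / a ≤ 1 + Real.log f := by
  have h := harmonic_le_one_add_log f
  rw [harmonic_eq_sum_Icc] at h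
  push_cast at h
  refine le_trans ?_ h
  simp only [one_div]
  exact sum_le_sum_of_subset_of_nonneg Ico_subset_Icc_self fun _ _ _ => by positivity

lemma geom_le {f a : ℕ} (ha : a ∈ Ico 1 f) (N : ℕ) :
    ‖∑ m ∈ range N, ee (m * ((a : ℝ) / f))‖ ≤
      f / 2 * (1 / a) + f / 2 * (1 / ((f - a : ℕ) : ℝ)) := by
  obtain ⟨h1, h2⟩ := mem_Ico.1 ha
  have h3 : (0 : ℝ) < a := by exact_mod_cast h1
  have h4 : (a : ℝ) < f := by exact_mod_cast h2
  have h5 : (0 : ℝ) < f := h3.trans h4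
  have h6 : Int.fract ((a : ℝ) / f) = a / f :=
    Int.fract_eq_self.2 ⟨by positivity, (div_lt_one h5).2 h4⟩
  have h7 : 0 < Int.fract ((a : ℝ) / f) := by rw [h6]; positivity
  have h := geom_bound N h7
  rw [Int.fract_neg h7.ne', h6] at h
  refine h.trans_eq ?_
  have h8 : (f : ℝ) - a ≠ 0 := by linarith
  rw [Nat.cast_sub h2.le, one_sub_div h5.ne']
  field_simp

lemma pv_prim {f : ℕ} (hf : 1 < f) {χ : DirichletCharacter ℂ f} (hχ : χ.IsPrimitive) (N : ℕ) :
    ‖∑ m ∈ range N, χ m‖ ≤ √f * (1 + Real.log f) := by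
  have : NeZero f := ⟨by omega⟩
  have hχ' : χ⁻¹.IsPrimitive := by rw [isPrimitive_def, conductor_inv]; exact hχ
  have hf0 : (0 : ℝ) < f := by exact_mod_cast (by omega : 0 < f)
  have hs : 0 < √f := Real.sqrt_pos.2 hf0
  have h1 : ‖gaussSum χ⁻¹ (ZMod.stdAddChar (N := f))‖ = √f := by
    rw [← gauss_norm hχ', Real.sqrt_sq (norm_nonneg _)]
  have h2 : (∑ m ∈ range N, χ m) * gaussSum χ⁻¹ (ZMod.stdAddChar (N := f)) =
      ∑ a : ZMod f, χ⁻¹ a * ∑ m ∈ range N, ee (m * ((a.val : ℝ) / f)) := by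
    simp only [sum_mul, mul_sum]
    rw [sum_comm]
    refine sum_congr rfl fun m _ => ?_
    have h := gaussSum_mulShift_of_isPrimitive (ZMod.stdAddChar (N := f)) hχ' (m : ZMod f)
    rw [inv_inv] at h
    rw [← h, gaussSum]
    refine sum_congr rfl fun a _ => ?_
    rw [AddChar.mulShift_apply, stdAddChar_eq_ee]
  have h3 : ‖∑ a : ZMod f, χ⁻¹ a * ∑ m ∈ range N, ee (m * ((a.val : ℝ) / f))‖ ≤
      f * (1 + Real.log f) := by
    rw [← sum_erase (a := (0 : ZMod f)) _ (by rw [map_zero' _ hf.ne', zero_mul])]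
    refine (norm_sum_le _ _).trans ?_
    have h4 : ∑ a ∈ (univ : Finset (ZMod f)).erase 0,
        ‖χ⁻¹ a * ∑ m ∈ range N, ee (m * ((a.val : ℝ) / f))‖ ≤
        ∑ a ∈ Ico 1 f, ‖∑ m ∈ range N, ee (m * ((a : ℝ) / f))‖ := by
      refine le_trans (sum_le_sum fun a _ => ?_) (le_trans (sum_image
        (f := fun a : ℕ => ‖∑ m ∈ range N, ee (m * ((a : ℝ) / f))‖)
        (fun a _ b _ h => ZMod.val_injective f h)).ge
        (sum_le_sum_of_subset_of_nonneg (fun a ha => ?_) fun _ _ _ => norm_nonneg _))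
      · rw [norm_mul]
        exact mul_le_of_le_one_left (norm_nonneg _) (norm_le_one _ _)
      · obtain ⟨b, hb, rfl⟩ := mem_image.1 ha
        exact mem_Ico.2 ⟨ZMod.val_pos.2 (ne_of_mem_erase hb), ZMod.val_lt b⟩
    refine h4.trans ((sum_le_sum fun a ha => geom_le ha N).trans ?_)
    rw [sum_add_distrib, ← mul_sum, ← mul_sum]
    have h5 : ∑ a ∈ Ico 1 f, (1 : ℝ) / ((f - a : ℕ) : ℝ) = ∑ a ∈ Ico 1 f, (1 : ℝ) / a := by
      rw [sum_Ico_reflect (fun a : ℕ => (1 : ℝ) / a) 1 (Nat.le_succ f)]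
      simp
    have h6 := mul_le_mul_of_nonneg_left (sum_inv_le f) hf0.le
    rw [h5]
    linarith
  rw [← h2, norm_mul, h1] at h3
  refine le_of_mul_le_mul_right (h3.trans_eq ?_) hs
  rw [mul_right_comm, Real.mul_self_sqrt hf0.le]

lemma card_divisors_le (n : ℕ) : (n.divisors.card : ℝ) ≤ 2 * √n := by
  have h1 : n.divisors ⊆ Icc 1 n.sqrt ∪ (Icc 1 n.sqrt).image (fun e => n / e) := by
    intro d hd
    obtain ⟨⟨e, rfl⟩, h0⟩ := Nat.mem_divisors.1 hd
    have hd0 : 0 < d := Nat.pos_of_ne_zero (left_ne_zero_of_mul h0)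
    have he0 : 0 < e := Nat.pos_of_ne_zero (right_ne_zero_of_mul h0)
    rcases le_total d e with h | h
    · exact mem_union_left _ (mem_Icc.2 ⟨hd0, Nat.le_sqrt.2 (Nat.mul_le_mul_left d h)⟩)
    · exact mem_union_right _ (mem_image.2 ⟨e, mem_Icc.2 ⟨he0,
        Nat.le_sqrt.2 (Nat.mul_le_mul_right e h)⟩, Nat.mul_div_cancel d he0⟩)
  have h2 : n.divisors.card ≤ 2 * n.sqrt := by
    have h3 := (card_le_card h1).trans (card_union_le _ _)
    have h4 := card_image_le (s := Icc 1 n.sqrt) (f := fun e => n / e)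
    rw [Nat.card_Icc] at h3 h4
    omega
  have h3 : (n.divisors.card : ℝ) ≤ 2 * n.sqrt := by exact_mod_cast h2
  linarith [Real.nat_sqrt_le_real_sqrt (a := n)]

lemma sum_moebius (n : ℕ) :
    ∑ e ∈ n.divisors, ((ArithmeticFunction.moebius e : ℤ) : ℂ) = if n = 1 then 1 else 0 := by
  have h := congrArg (fun g : ArithmeticFunction ℂ => g n)
    (ArithmeticFunction.coe_moebius_mul_coe_zeta (R := ℂ))
  simp only [ArithmeticFunction.coe_mul_zeta_apply, ArithmeticFunction.one_apply] at h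
  simpa using h

/-- Sieving out the integers that are not prime to `r`. -/
lemma norm_sum_coprime_le (h : ℕ → ℂ) (hm : ∀ a b, h (a * b) = h a * h b) (h1 : ∀ a, ‖h a‖ ≤ 1)
    {B : ℝ} (hB : ∀ N, ‖∑ m ∈ range N, h m‖ ≤ B) {r : ℕ} (hr : r ≠ 0) (N : ℕ) :
    ‖∑ m ∈ range N, if m.Coprime r then h m else 0‖ ≤ 2 * √r * B := by
  have hB0 : 0 ≤ B := (norm_nonneg _).trans (hB 0)
  have e1 : ∀ m : ℕ, (if m.Coprime r then h m else 0) = ∑ e ∈ r.divisors,
      if e ∣ m then ((ArithmeticFunction.moebius e : ℤ) : ℂ) * h m else 0 := by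
    intro m
    have e2 : r.divisors.filter (· ∣ m) = (m.gcd r).divisors := by
      ext e
      simp [Nat.dvd_gcd_iff, hr, and_comm]
    rw [← sum_filter, ← sum_mul, e2, sum_moebius]
    simp [Nat.Coprime]
  rw [sum_congr rfl fun m _ => e1 m, sum_comm]
  refine (norm_sum_le _ _).trans ((sum_le_card_nsmul _ _ B fun e he => ?_).trans ?_)
  · have he0 : 0 < e := Nat.pos_of_mem_divisors he
    have e3 : (range N).filter (e ∣ ·) = (range ((N + e - 1) / e)).image (e * ·) := by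
      ext m
      simp only [mem_filter, mem_range, mem_image, Nat.lt_iff_add_one_le,
        Nat.le_div_iff_mul_le he0]
      constructor
      · rintro ⟨a1, k, rfl⟩
        exact ⟨k, by rw [add_mul, mul_comm k]; omega, rfl⟩
      · rintro ⟨k, a1, rfl⟩
        exact ⟨by rw [add_mul, mul_comm k] at a1; omega, k, rfl⟩
    rw [← sum_filter, e3, sum_image fun a _ b _ hab => Nat.eq_of_mul_eq_mul_left he0 hab]
    simp only [hm, ← mul_sum, norm_mul]
    have a1 : ‖((ArithmeticFunction.moebius e : ℤ) : ℂ)‖ ≤ 1 := by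
      rw [Complex.norm_intCast]
      exact_mod_cast ArithmeticFunction.abs_moebius_le_one
    exact (mul_le_of_le_one_left (by positivity) a1).trans
      ((mul_le_of_le_one_left (norm_nonneg _) (h1 e)).trans (hB _))
  · rw [nsmul_eq_mul]
    exact mul_le_mul_of_nonneg_right (card_divisors_le r) hB0

lemma apply_eq_zero {D : ℕ} (χ : DirichletCharacter ℂ D) {m : ℕ} (h : ¬ m.Coprime D) :
    χ m = 0 :=
  χ.map_nonunit fun h' => h ((ZMod.isUnit_iff_coprime m D).1 h')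

lemma changeLevel_nat {D n : ℕ} (χ : DirichletCharacter ℂ D) (hd : D ∣ n) {m : ℕ}
    (h : m.Coprime n) : changeLevel hd χ m = χ m := by
  simpa using changeLevel_eq_cast_of_dvd' χ hd (a := m) (Nat.isCoprime_iff_coprime.2 h)

lemma pv_range {D : ℕ} (χ : DirichletCharacter ℂ D) (hD : 0 < D) (hχ : χ ≠ 1) (N : ℕ) :
    ‖∑ m ∈ range N, χ m‖ ≤ 2 * √D * (1 + Real.log D) := by
  have : NeZero D := ⟨hD.ne'⟩
  obtain ⟨r, hr⟩ := χ.conductor_dvd_level
  have hf0 := χ.conductor_ne_zero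
  have hf1 : χ.conductor ≠ 1 := fun h => hχ (eq_one_iff_conductor_eq_one.2 h)
  have hr0 : r ≠ 0 := by
    rintro rfl
    omega
  have e1 : ∀ m : ℕ, χ m = if m.Coprime r then χ.primitiveCharacter m else 0 := by
    intro m
    by_cases h : m.Coprime D
    · rw [if_pos (h.coprime_dvd_right (Dvd.intro_left _ hr.symm)),
        ← changeLevel_nat _ χ.conductor_dvd_level h, changeLevel_primitiveCharacter]
    · rw [apply_eq_zero χ h]
      split_ifs with h'
      · exact (apply_eq_zero _ fun h'' => h (hr ▸ Nat.Coprime.mul_right h'' h')).symm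
      · rfl
  rw [sum_congr rfl fun m _ => e1 m]
  refine (norm_sum_coprime_le (fun m => χ.primitiveCharacter m) (fun a b => by simp)
    (fun a => norm_le_one _ _) (pv_prim (by omega) χ.primitiveCharacter_isPrimitive)
    hr0 N).trans ?_
  have a1 : √r * √χ.conductor = √D := by
    rw [← Real.sqrt_mul (Nat.cast_nonneg _), mul_comm]
    congr 1
    exact_mod_cast hr.symm
  have a2 : Real.log χ.conductor ≤ Real.log D :=
    Real.log_le_log (by positivity) (by exact_mod_cast Nat.le_of_dvd hD χ.conductor_dvd_level)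
  calc 2 * √r * (√χ.conductor * (1 + Real.log χ.conductor))
      = 2 * √D * (1 + Real.log χ.conductor) := by rw [← a1]; ring
    _ ≤ _ := by gcongr

lemma pv_Ico {D : ℕ} (χ : DirichletCharacter ℂ D) (hD : 0 < D) (hχ : χ ≠ 1) (a b : ℕ) :
    ‖∑ m ∈ Ico a b, χ m‖ ≤ 4 * √D * (1 + Real.log D) := by
  have h1 := pv_range χ hD hχ a
  have h2 := pv_range χ hD hχ b
  rcases le_total a b with h | h
  · rw [sum_Ico_eq_sub _ h]
    linarith [norm_sub_le (∑ m ∈ range b, χ m) (∑ m ∈ range a, χ m)]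
  · rw [Ico_eq_empty_of_le h, sum_empty, norm_zero]
    linarith [norm_nonneg (∑ m ∈ range a, χ m)]

lemma exists_lift {d n : ℕ} (hd : d ∣ n) (hn : n ≠ 0) (u : (ZMod d)ˣ) :
    ∃ w : ℕ, w.Coprime n ∧ w < n ∧ (w : ZMod d) = u := by
  have : NeZero n := ⟨hn⟩
  obtain ⟨U, rfl⟩ := ZMod.unitsMap_surjective hd u
  exact ⟨(U : ZMod n).val, ZMod.val_coe_unit_coprime U, ZMod.val_lt _, by
    rw [ZMod.unitsMap_val, ZMod.natCast_val]⟩

/-- The nontrivial character modulo `4`. -/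
noncomputable def x4 : DirichletCharacter ℂ 4 := ZMod.χ₄.ringHomComp (Int.castRingHom ℂ)

lemma x4_one {m : ℕ} (h : m % 4 = 1) : x4 m = 1 := by
  simp [x4, ZMod.χ₄_nat_one_mod_four h]

lemma x4_three {m : ℕ} (h : m % 4 = 3) : x4 m = -1 := by
  simp [x4, ZMod.χ₄_nat_three_mod_four h]

lemma mod_four {m n : ℕ} (h : m.Coprime n) (h4 : 4 ∣ n) : m % 4 = 1 ∨ m % 4 = 3 := by
  have h2 : m.Coprime 2 := h.coprime_dvd_right (Dvd.dvd.trans ⟨2, rfl⟩ h4)
  have := Nat.odd_iff.1 (Nat.coprime_two_right.1 h2)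
  omega

end PVAux

open PVAux

theorem polya_vinogradov : ∃ C : ℝ, 0 < C ∧ ∀ (D : ℕ) (χ : DirichletCharacter ℂ D), 0 < D → χ ≠ 1 →
    ∀ a b : ℕ, ‖∑ m ∈ Ico a b, χ m‖ ≤ C * √D * (1 + Real.log D) :=
  ⟨4, by norm_num, fun _ χ hD hχ a b => pv_Ico χ hD hχ a b⟩

/-- Characters that are trivial on the integers `1 mod 4`. -/
def Exc {D : ℕ} (χ : DirichletCharacter ℂ D) : Prop :=
  ∀ m : ℕ, m % 4 = 1 → m.Coprime D → χ m = 1

open Classical in
theorem card_Exc_le {D : ℕ} (hD : 0 < D) :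
    (univ.filter fun χ : DirichletCharacter ℂ D => Exc χ).card ≤ 2 := by
  refine le_trans (card_le_card_of_injOn (t := ({1, -1} : Finset ℂ)) (fun χ => χ (-1))
    (fun χ _ => ?_) fun χ hχ ψ hψ h => ?_) card_le_two
  · simpa [DirichletCharacter.Even, DirichletCharacter.Odd] using χ.even_or_odd
  · have h1 : Exc χ := (mem_filter.1 hχ).2
    have h2 : Exc ψ := (mem_filter.1 hψ).2
    have h3 : χ (-1) = ψ (-1) := h
    refine MulChar.ext fun u => ?_
    obtain ⟨w, w1, w2, w3⟩ := exists_lift (dvd_mul_left D 4) (by omega) u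
    have w4 : w.Coprime D := w1.coprime_dvd_right (dvd_mul_left D 4)
    rcases mod_four w1 (dvd_mul_right 4 D) with h | h
    · rw [← w3, h1 w h w4, h2 w h w4]
    · have a1 : (4 * D - w) % 4 = 1 := by omega
      have a2 : (4 * D - w).Coprime D :=
        ((Nat.coprime_self_sub_left w2.le).2 w1).coprime_dvd_right (dvd_mul_left D 4)
      have a3 : (u : ZMod D) = -1 * ((4 * D - w : ℕ) : ZMod D) := by
        rw [Nat.cast_sub w2.le, w3]
        simp
      rw [a3, map_mul, map_mul, h1 _ a1 a2, h2 _ a1 a2, h3]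

/-- The model has small transform at the other characters. -/
theorem c2_char_le : ∃ C : ℝ, 0 < C ∧ ∀ (q D P : ℕ) (a b : ℝ) (χ : DirichletCharacter ℂ D),
    0 < q → 4 ∣ q → 0 < D → 1 ≤ a → b ≤ 2 → ¬ Exc χ →
    ‖∑ m ∈ range (2 * P + 1), (c2 q a b P m : ℂ) * χ m‖ ≤
      C * q * √(q * D) * (1 + Real.log (q * D)) := by
  refine ⟨4, by norm_num, fun q D P a b χ hq h4 hD ha hb hχ => ?_⟩
  have hn : 0 < q * D := Nat.mul_pos hq hD
  have d1 : D ∣ q * D := dvd_mul_left D q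
  have d4 : 4 ∣ q * D := h4.mul_right D
  set ψ := DirichletCharacter.changeLevel d1 χ with hψ
  set ξ := ψ * DirichletCharacter.changeLevel d4 x4 with hξ
  have v1 : ∀ m : ℕ, m.Coprime (q * D) → ψ m = χ m := fun m hm => changeLevel_nat χ d1 hm
  have v2 : ∀ m : ℕ, m.Coprime (q * D) → ξ m = χ m * x4 m := fun m hm => by
    rw [hξ, MulChar.mul_apply, v1 m hm, changeLevel_nat x4 d4 hm]
  obtain ⟨w, w1, w2, w3⟩ : ∃ w : ℕ, w.Coprime (q * D) ∧ w % 4 = 1 ∧ χ w ≠ 1 := by
    unfold Exc at hχ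
    push Not at hχ
    obtain ⟨m, m1, m2, m3⟩ := hχ
    have m4 : m.Coprime (4 * D) := by
      refine Nat.Coprime.mul_right ?_ m2
      rw [Nat.Coprime, Nat.gcd_comm, Nat.gcd_rec, m1]
      rfl
    obtain ⟨w, w1, -, w3⟩ := exists_lift (Nat.mul_dvd_mul_right h4 D) hn.ne'
      (ZMod.unitOfCoprime m m4)
    rw [ZMod.coe_unitOfCoprime, ZMod.natCast_eq_natCast_iff] at w3
    refine ⟨w, w1, Eq.trans (w3.of_mul_right D) m1, ?_⟩
    rwa [(ZMod.natCast_eq_natCast_iff _ _ _).2 (w3.of_mul_left 4)]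
  have w4 : (1 : DirichletCharacter ℂ (q * D)) w = 1 :=
    MulChar.one_apply ((ZMod.isUnit_iff_coprime _ _).2 w1)
  have n1 : ψ ≠ 1 := fun h => w3 (by rw [← v1 w w1, h, w4])
  have n2 : ξ ≠ 1 := fun h => w3 (by
    have := v2 w w1
    rw [h, w4, x4_one w2, mul_one] at this
    exact this.symm)
  set κ : ℝ := (q : ℝ) / q.totient with hκ
  have ha0 : 0 ≤ a * P := by positivity
  have key : ∑ m ∈ range (2 * P + 1), (c2 q a b P m : ℂ) * χ m =
      (κ / 2 : ℝ) * (∑ m ∈ Ico (⌊a * P⌋₊ + 1) (⌊b * P⌋₊ + 1), ψ m +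
        ∑ m ∈ Ico (⌊a * P⌋₊ + 1) (⌊b * P⌋₊ + 1), ξ m) := by
    have hm : ∀ m : ℕ, m ∈ Ico (⌊a * P⌋₊ + 1) (⌊b * P⌋₊ + 1) ↔
        a * P < m ∧ (m : ℝ) ≤ b * P := by
      intro m
      rw [mem_Ico, Nat.add_one_le_iff, Nat.lt_add_one_iff, Nat.floor_lt ha0]
      refine and_congr_right fun h => Nat.le_floor_iff' ?_
      rintro rfl
      simp only [Nat.cast_zero] at h
      linarith
    rw [← sum_add_distrib, mul_sum]
    symm
    refine sum_subset_zero_on_sdiff (fun m h => ?_) (fun m h => ?_) fun m h => ?_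
    · have h1 := ((hm m).1 h).2
      have h2 : (m : ℝ) ≤ 2 * P := h1.trans (by gcongr)
      exact mem_range.2 (Nat.lt_succ_of_le (by exact_mod_cast h2))
    · rw [c2, if_neg fun h' => (mem_sdiff.1 h).2 ((hm m).2 ⟨by exact_mod_cast h'.1,
        by exact_mod_cast h'.2.1⟩)]
      simp
    · obtain ⟨h1, h2⟩ := (hm m).1 h
      by_cases hc : m.Coprime (q * D)
      · rw [v1 m hc, v2 m hc]
        rcases mod_four hc d4 with h3 | h3
        · rw [c2, if_pos ⟨by exact_mod_cast h1, by exact_mod_cast h2,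
            by simpa using hc.coprime_mul_right_right, by omega⟩, x4_one h3, hκ]
          push_cast
          ring
        · rw [c2, if_neg fun h' => by omega, x4_three h3]
          simp
      · rw [apply_eq_zero ψ hc, apply_eq_zero ξ hc]
        by_cases hc' : m.Coprime D
        · rw [c2, if_neg fun h' => hc (Nat.Coprime.mul_right (by simpa using h'.2.2.1) hc')]
          simp
        · simp [apply_eq_zero χ hc']
  have k1 := pv_Ico ψ hn n1 (⌊a * P⌋₊ + 1) (⌊b * P⌋₊ + 1)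
  have k2 := pv_Ico ξ hn n2 (⌊a * P⌋₊ + 1) (⌊b * P⌋₊ + 1)
  have k3 : 0 ≤ κ := by positivity
  have k4 : κ ≤ q := div_le_self (Nat.cast_nonneg _) (by exact_mod_cast Nat.totient_pos.2 hq)
  push_cast at k1 k2
  rw [key, norm_mul, Complex.norm_real, Real.norm_of_nonneg (by positivity)]
  calc κ / 2 * _ ≤ q / 2 * (4 * √(q * D) * (1 + Real.log (q * D)) +
        4 * √(q * D) * (1 + Real.log (q * D))) :=
        mul_le_mul (by linarith) ((norm_add_le _ _).trans (add_le_add k1 k2)) (norm_nonneg _)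
          (by positivity)
    _ = _ := by ring

end Pool.Agent.P.MP_a1177c_nt.LC
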