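import Pool.Agent.P.MP_a1177c_nt.LC.LSP
import Pool.Agent.P.MP_a1177c_nt.LC.PV
import Pool.Agent.Lib.PNT.PrimeSums

namespace Pool.Agent.P.MP_a1177c_nt.LC

open Finset Filter MR MR.StructAux
open scoped ComplexConjugate Topology

namespace LS4Aux

/-- The primes `1 mod 4` in `(a P, b P]`. -/
noncomputable def PP (a b : ℝ) (P : ℕ) : Finset ℕ :=
  (Ioc ⌊a * P⌋₊ ⌊b * P⌋₊).filter fun p => p.Prime ∧ p % 4 = 1

lemma c1_nat {a : ℝ} (b : ℝ) (ha : 0 ≤ a) (P m : ℕ) :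
    c1 a b P m = if m ∈ PP a b P then Real.log m else 0 := by
  have h0 : 0 ≤ a * P := by positivity
  have key : (a * P < ((m : ℤ) : ℝ) ∧ ((m : ℤ) : ℝ) ≤ b * P ∧ (m : ℤ).natAbs.Prime ∧
      (m : ℤ) % 4 = 1) ↔ m ∈ PP a b P := by
    simp only [PP, mem_filter, mem_Ioc, Int.cast_natCast, Int.natAbs_natCast]
    rw [Nat.floor_lt h0]
    constructor
    · rintro ⟨h1, h2, h3, h4⟩
      exact ⟨⟨h1, Nat.le_floor h2⟩, h3, by omega⟩
    · rintro ⟨⟨h1, h2⟩, h3, h4⟩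
      refine ⟨h1, (Nat.le_floor_iff' h3.ne_zero).1 h2, h3, by omega⟩
  unfold c1
  by_cases h : m ∈ PP a b P
  · rw [if_pos (key.2 h), if_pos h, Int.cast_natCast]
  · rw [if_neg (fun h' => h (key.1 h')), if_neg h]

lemma PP_le {a b : ℝ} (hb : b ≤ 2) {P p : ℕ} (hp : p ∈ PP a b P) : p ≤ 2 * P := by
  have h1 := (mem_Ioc.1 (mem_filter.1 hp).1).2
  have h2 : ⌊b * P⌋₊ ≤ ⌊((2 * P : ℕ) : ℝ)⌋₊ := by
    refine Nat.floor_le_floor ?_
    push_cast
    exact mul_le_mul_of_nonneg_right hb (Nat.cast_nonneg _)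
  rw [Nat.floor_natCast] at h2
  omega

lemma sum_c1 {a b : ℝ} (ha : 0 ≤ a) (hb : b ≤ 2) (P : ℕ) (g : ℕ → ℂ) :
    ∑ m ∈ range (2 * P + 1), (c1 a b P m : ℂ) * g m
      = ∑ p ∈ PP a b P, (Real.log p : ℂ) * g p := by
  have hsub : PP a b P ⊆ range (2 * P + 1) := fun p hp =>
    mem_range.2 (Nat.lt_succ_of_le (PP_le hb hp))
  rw [← sum_subset hsub (fun m _ hm => by rw [c1_nat b ha, if_neg hm]; simp)]
  exact sum_congr rfl fun p hp => by rw [c1_nat b ha, if_pos hp]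

lemma sum_log_le {a b : ℝ} (hb : b ≤ 2) (P : ℕ) : ∑ p ∈ PP a b P, Real.log p ≤ 3 * P := by
  have h1 : ∑ p ∈ PP a b P, Real.log p ≤ Chebyshev.theta ((2 * P : ℕ) : ℝ) := by
    rw [Chebyshev.theta, Nat.floor_natCast]
    refine sum_le_sum_of_subset_of_nonneg (fun p hp => ?_) fun p _ _ => Real.log_natCast_nonneg p
    have h2 := (mem_filter.1 hp).2.1
    exact mem_filter.2 ⟨mem_Ioc.2 ⟨h2.pos, PP_le hb hp⟩, h2⟩
  have h2 := Chebyshev.theta_le_log4_mul_x (Nat.cast_nonneg (α := ℝ) (2 * P))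
  have h3 : Real.log 4 ≤ 3 / 2 := by
    rw [show (4 : ℝ) = 2 ^ 2 by norm_num, Real.log_pow]
    have := Real.log_two_lt_d9
    push_cast
    linarith
  have h4 := mul_le_mul_of_nonneg_right h3 (Nat.cast_nonneg (α := ℝ) (2 * P))
  push_cast at h1 h2 h4
  linarith

lemma norm_sum_le_log (s : Finset ℕ) {f : ℕ} (χ : DirichletCharacter ℂ f) :
    ‖∑ p ∈ s, (Real.log p : ℂ) * χ p‖ ≤ ∑ p ∈ s, Real.log p := by
  refine (norm_sum_le _ _).trans (sum_le_sum fun p _ => ?_)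
  rw [norm_mul, Complex.norm_real, Real.norm_of_nonneg (Real.log_natCast_nonneg p)]
  exact mul_le_of_le_one_right (Real.log_natCast_nonneg p) (χ.norm_le_one _)

/-- The character restricted to the classes `1 mod 4`, as a function modulo `4 f`. -/
noncomputable def wt {f : ℕ} (χ : DirichletCharacter ℂ f) (r : ZMod (4 * f)) : ℂ :=
  if r.val % 4 = 1 then χ r.val else 0

lemma wt_nat {f : ℕ} (χ : DirichletCharacter ℂ f) (m : ℕ) :
    wt χ (m : ZMod (4 * f)) = if m % 4 = 1 then χ m else 0 := by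
  unfold wt
  rw [ZMod.val_natCast, Nat.mod_mod_of_dvd _ (Dvd.intro f rfl)]
  congr 2
  rw [ZMod.natCast_eq_natCast_iff']
  exact Nat.mod_mod_of_dvd _ (Dvd.intro_left 4 rfl)

lemma unit_of_nat {f m : ℕ} (h4 : m % 4 = 1) (hm : m.Coprime f) : IsUnit (m : ZMod (4 * f)) := by
  rw [ZMod.isUnit_iff_coprime]
  refine Nat.Coprime.mul_right ?_ hm
  rw [Nat.Coprime, Nat.gcd_comm, Nat.gcd_rec, h4, Nat.gcd_one_left]

lemma unit_of_wt {f : ℕ} [NeZero (4 * f)] (χ : DirichletCharacter ℂ f) {r : ZMod (4 * f)}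
    (h : wt χ r ≠ 0) : IsUnit r := by
  unfold wt at h
  split_ifs at h with h4
  · rw [← ZMod.natCast_zmod_val r]
    refine unit_of_nat h4 ((ZMod.isUnit_iff_coprime _ _).1 ?_)
    by_contra hu
    exact h (χ.map_nonunit hu)
  · exact absurd rfl h

lemma sum_wt {f : ℕ} [NeZero (4 * f)] (χ : DirichletCharacter ℂ f) (hχ : ¬ Exc χ) :
    ∑ r, wt χ r = 0 := by
  unfold Exc at hχ
  push Not at hχ
  obtain ⟨m₀, h4, hc, hne⟩ := hχ
  have hu := unit_of_nat h4 hc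
  have h1 : ∀ r : ZMod (4 * f), wt χ (hu.unit * r) = χ m₀ * wt χ r := by
    intro r
    rw [← ZMod.natCast_zmod_val r, IsUnit.unit_spec, ← Nat.cast_mul, wt_nat, wt_nat,
      Nat.mul_mod, h4, one_mul, Nat.mod_mod]
    split_ifs
    · rw [Nat.cast_mul, map_mul]
    · rw [mul_zero]
  have h2 : ∑ r, wt χ r = χ m₀ * ∑ r, wt χ r := by
    rw [mul_sum, ← Equiv.sum_comp hu.unit.mulLeft]
    exact sum_congr rfl fun r _ => h1 r
  have h3 : (χ m₀ - 1) * ∑ r, wt χ r = 0 := by rw [sub_mul, one_mul, ← h2, sub_self]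
  exact (mul_eq_zero.1 h3).resolve_left (sub_ne_zero.2 hne)

end LS4Aux

open LS4Aux in
/-- The prime number theorem for one character. -/
theorem c1_char_tendsto {f : ℕ} (hf : 0 < f) (χ : DirichletCharacter ℂ f) (hχ : ¬ Exc χ) {a b : ℝ}
    (ha : 1 ≤ a) (hab : a ≤ b) (hb : b ≤ 2) :
    Tendsto (fun P : ℕ => ‖∑ m ∈ range (2 * P + 1), (c1 a b P m : ℂ) * χ m‖ / P) atTop (𝓝 0) := by
  classical
  have : NeZero (4 * f) := ⟨by omega⟩
  have ha0 : 0 ≤ a := by linarith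
  let Θ : ZMod (4 * f) → ℕ → ℝ := fun r P =>
    ∑ p ∈ (Ioc ⌊a * P⌋₊ ⌊b * P⌋₊).filter (fun p : ℕ => p.Prime ∧ (p : ZMod (4 * f)) = r),
      Real.log p
  have hS : ∀ P : ℕ, ∑ m ∈ range (2 * P + 1), (c1 a b P m : ℂ) * χ m
      = ∑ r, wt χ r * (Θ r P : ℂ) := by
    intro P
    have h1 : ∑ p ∈ PP a b P, (Real.log p : ℂ) * χ p
        = ∑ p ∈ (Ioc ⌊a * P⌋₊ ⌊b * P⌋₊).filter Nat.Prime,
          (Real.log p : ℂ) * wt χ (p : ZMod (4 * f)) := by
      rw [PP, ← filter_filter, sum_filter]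
      refine sum_congr rfl fun p _ => ?_
      rw [wt_nat]
      split_ifs <;> simp
    rw [sum_c1 ha0 hb P (fun m => χ m), h1,
      ← sum_fiberwise _ (fun p : ℕ => (p : ZMod (4 * f)))]
    refine sum_congr rfl fun r _ => ?_
    simp only [Θ]
    rw [filter_filter, Complex.ofReal_sum, mul_sum]
    refine sum_congr rfl fun p hp => ?_
    rw [(mem_filter.1 hp).2.2, mul_comm]
  have hlim : ∀ r : ZMod (4 * f), Tendsto (fun P : ℕ => wt χ r * ((Θ r P / P : ℝ) : ℂ)) atTop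
      (𝓝 (wt χ r * ((((4 * f).totient : ℝ)⁻¹ * ∫ _x in a..b, (1 : ℝ) : ℝ) : ℂ))) := by
    intro r
    by_cases hr : wt χ r = 0
    · simp only [hr, zero_mul]
      exact tendsto_const_nhds
    · have h1 := (Lib.PNT.prime_sum_AP_tendsto (unit_of_wt χ hr) ha0 hab (f := fun _ => 1)
        (M := 1) (fun _ _ => by simp)
        (Eventually.of_forall fun _ _ => continuousAt_const)).comp tendsto_natCast_atTop_atTop
      refine ((Complex.continuous_ofReal.tendsto _).comp ?_).const_mul _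
      refine h1.congr fun P => ?_
      simp only [Function.comp, one_mul, Θ]
  have h2 := (tendsto_finsetSum univ fun r _ => hlim r).norm
  rw [← sum_mul, sum_wt χ hχ, zero_mul, norm_zero] at h2
  refine h2.congr fun P => ?_
  rw [hS]
  conv_rhs => rw [← Complex.norm_natCast P, ← norm_div, sum_div]
  congr 1
  refine sum_congr rfl fun r _ => ?_
  push_cast
  ring

namespace LS4Aux

lemma card_primSet_le {f : ℕ} (hf : 0 < f) : (Lib.LargeSieve.primSet f).card ≤ f.totient := by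
  have : NeZero f := ⟨hf.ne'⟩
  rw [← DirichletCharacter.card_eq_totient_of_hasEnoughRootsOfUnity ℂ f, Nat.card_eq_fintype_card]
  exact card_le_univ _

lemma sum_log_dvd_le {D : ℕ} (hD : 0 < D) (s : Finset ℕ) (hs : ∀ p ∈ s, p.Prime ∧ p ∣ D) :
    ∑ p ∈ s, Real.log p ≤ Real.log D := by
  have h1 : s ⊆ D.primeFactors := fun p hp =>
    Nat.mem_primeFactors.2 ⟨(hs p hp).1, (hs p hp).2, hD.ne'⟩
  have h2 : ∏ p ∈ s, p ≤ D :=
    Nat.le_of_dvd hD ((prod_dvd_prod_of_subset _ _ _ h1).trans (Nat.prod_primeFactors_dvd D))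
  have h3 : ∀ p ∈ s, (p : ℝ) ≠ 0 := fun p hp => by exact_mod_cast (hs p hp).1.ne_zero
  rw [← Real.log_prod h3]
  refine Real.log_le_log (prod_pos fun p hp => by exact_mod_cast (hs p hp).1.pos) ?_
  exact (Nat.cast_prod (R := ℝ) (fun p => p) s).symm.trans_le (Nat.cast_le.2 h2)

lemma log_pow_four_le {x : ℝ} (hx : 1 ≤ x) : Real.log x ^ 4 ≤ 16 * x ^ 2 := by
  have h0 : 0 < √x := Real.sqrt_pos.2 (by linarith)
  have h1 := Real.log_le_sub_one_of_pos h0
  rw [Real.log_sqrt (by linarith)] at h1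
  calc Real.log x ^ 4 ≤ (2 * √x) ^ 4 := pow_le_pow_left₀ (Real.log_nonneg hx) (by linarith) 4
    _ = 16 * (√x ^ 2) ^ 2 := by ring
    _ = 16 * x ^ 2 := by rw [Real.sq_sqrt (by linarith)]

open Classical in
/-- Reduction to primitive characters. -/
lemma reduce {D : ℕ} (hD : 0 < D) (s : Finset ℕ) (hs : ∀ p ∈ s, p.Prime) :
    ∑ χ ∈ univ.filter (fun χ : DirichletCharacter ℂ D => ¬ Exc χ),
        ‖∑ p ∈ s, (Real.log p : ℂ) * χ p‖ ^ 4
      ≤ ∑ f ∈ D.divisors, (8 * ∑ ψ ∈ (Lib.LargeSieve.primSet f).filter (fun ψ => ¬ Exc ψ),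
          ‖∑ p ∈ s, (Real.log p : ℂ) * ψ p‖ ^ 4 + f.totient * (128 * (D : ℝ) ^ 2)) := by
  let Φ : (ℕ → ℂ) → ℝ := fun v => if ∀ m : ℕ, m % 4 = 1 → m.Coprime D → v m = 1 then 0
    else ‖∑ p ∈ s.filter (fun p => p.Coprime D), (Real.log p : ℂ) * v p‖ ^ 4
  have h0 : ∀ v, 0 ≤ Φ v := fun v => by
    simp only [Φ]
    split_ifs <;> positivity
  have h1 := Lib.LargeSieve.sum_le_sum_primitive D hD Φ h0 (fun v v' h => by
    have e1 : (∀ m : ℕ, m % 4 = 1 → m.Coprime D → v m = 1) ↔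
        ∀ m : ℕ, m % 4 = 1 → m.Coprime D → v' m = 1 :=
      forall_congr' fun m => forall_congr' fun _ => forall_congr' fun hm => by rw [h m hm]
    have e2 : ∑ p ∈ s.filter (fun p => p.Coprime D), (Real.log p : ℂ) * v p
        = ∑ p ∈ s.filter (fun p => p.Coprime D), (Real.log p : ℂ) * v' p :=
      sum_congr rfl fun p hp => by rw [h p (mem_filter.1 hp).2]
    simp only [Φ, e1, e2])
  refine le_trans (le_of_eq ?_) (h1.trans (sum_le_sum fun f hf => ?_))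
  · rw [sum_filter]
    refine sum_congr rfl fun χ _ => ?_
    by_cases hE : Exc χ
    · rw [if_neg (not_not.2 hE)]
      exact (if_pos hE).symm
    · rw [if_pos hE]
      refine Eq.trans ?_ (if_neg hE).symm
      rw [sum_filter_of_ne]
      intro p _ hp
      by_contra hc
      exact hp (mul_eq_zero_of_right _
        (χ.map_nonunit (fun hu => hc ((ZMod.isUnit_iff_coprime _ _).1 hu))))
  · have hfD := Nat.dvd_of_mem_divisors hf
    have hD1 : (1 : ℝ) ≤ D := by exact_mod_cast hD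
    have h2 : ∀ ψ : DirichletCharacter ℂ f, Φ (fun m => ψ m) ≤
        8 * (if ¬ Exc ψ then ‖∑ p ∈ s, (Real.log p : ℂ) * ψ p‖ ^ 4 else 0)
          + 128 * (D : ℝ) ^ 2 := by
      intro ψ
      by_cases hE : Exc ψ
      · have : Φ (fun m => ψ m) = 0 :=
          if_pos fun m h4 hm => hE m h4 (hm.coprime_dvd_right hfD)
        rw [this, if_neg (not_not.2 hE)]
        positivity
      · rw [if_pos hE]
        have h3 : ‖∑ p ∈ s.filter (fun p => p.Coprime D), (Real.log p : ℂ) * ψ p‖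
            ≤ ‖∑ p ∈ s, (Real.log p : ℂ) * ψ p‖ + Real.log D := by
          rw [← sum_filter_add_sum_filter_not s (fun p => p.Coprime D)]
          refine (norm_le_norm_add_norm_sub' _ _).trans (add_le_add le_rfl ?_)
          rw [sub_add_cancel_left, norm_neg]
          refine (norm_sum_le_log _ ψ).trans (sum_log_dvd_le hD _ fun p hp => ?_)
          have h4 := hs p (mem_filter.1 hp).1
          exact ⟨h4, (h4.dvd_iff_not_coprime).2 (mem_filter.1 hp).2⟩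
        have h4 := (pow_le_pow_left₀ (norm_nonneg _) h3 4).trans
          (add_pow_le (norm_nonneg _) (Real.log_nonneg hD1) 4)
        have h5 := log_pow_four_le hD1
        have h6 : Φ (fun m => ψ m)
            ≤ ‖∑ p ∈ s.filter (fun p => p.Coprime D), (Real.log p : ℂ) * ψ p‖ ^ 4 := by
          simp only [Φ]
          split_ifs
          · positivity
          · exact le_rfl
        rw [show (2 : ℝ) ^ (4 - 1) = 8 by norm_num] at h4
        linarith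
    refine (sum_le_sum fun ψ _ => h2 ψ).trans ?_
    rw [sum_add_distrib, ← mul_sum, ← sum_filter, sum_const, nsmul_eq_mul]
    refine add_le_add le_rfl (mul_le_mul_of_nonneg_right ?_ (by positivity))
    exact_mod_cast card_primSet_le (Nat.pos_of_mem_divisors hf)

/-- The weight of a conductor. -/
lemma weight_le : ∃ C : ℝ, 0 < C ∧ ∀ (K η : ℝ) (P f : ℕ), 0 ≤ K → 0 < η → 0 < P → 0 < f →
    ∑ D ∈ (Ioc ⌊η * P⌋₊ ⌊K * P⌋₊).filter (fun D => f ∣ D), 1 / (D.totient : ℝ)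
      ≤ C * K / η * (1 / (f.totient : ℝ)) := by
  obtain ⟨C, hC, h⟩ := sum_ratio_sq
  refine ⟨C, hC, fun K η P f hK hη hP hf => ?_⟩
  have hP' : (0 : ℝ) < P := by exact_mod_cast hP
  have hf' : (0 : ℝ) < f := by exact_mod_cast hf
  have hφ : (0 : ℝ) < f.totient := by exact_mod_cast Nat.totient_pos.2 hf
  set B := ⌊K * P⌋₊ / f with hB
  let g : ℕ → ℝ := fun d => ((d : ℝ) / d.totient) ^ 2
  have h1 : ∀ D ∈ (Ioc ⌊η * P⌋₊ ⌊K * P⌋₊).filter (fun D => f ∣ D),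
      1 / (D.totient : ℝ) ≤ f / (η * P) * (1 / (f.totient : ℝ)) * g (D / f) := by
    intro D hD
    obtain ⟨hD1, d, rfl⟩ := mem_filter.1 hD
    have h2 : η * P < ((f * d : ℕ) : ℝ) := (Nat.floor_lt (by positivity)).1 (mem_Ioc.1 hD1).1
    have hd : 0 < d := Nat.pos_of_ne_zero (by
      rintro rfl
      have := (mem_Ioc.1 hD1).1
      omega)
    have hd' : (0 : ℝ) < d := by exact_mod_cast hd
    have hφd : (0 : ℝ) < d.totient := by exact_mod_cast Nat.totient_pos.2 hd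
    have h3 : (f.totient : ℝ) * d.totient ≤ (f * d).totient := by
      exact_mod_cast Nat.totient_super_multiplicative f d
    have h4 : (1 : ℝ) ≤ d / d.totient := by
      rw [one_le_div hφd]
      exact_mod_cast Nat.totient_le d
    have h5 : (1 : ℝ) ≤ f / (η * P) * d := by
      rw [div_mul_eq_mul_div, one_le_div (by positivity)]
      push_cast at h2
      exact h2.le
    rw [Nat.mul_div_cancel_left d hf]
    calc 1 / ((f * d).totient : ℝ) ≤ 1 / ((f.totient : ℝ) * d.totient) :=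
          one_div_le_one_div_of_le (by positivity) h3
      _ = 1 * 1 * (1 / ((f.totient : ℝ) * d.totient)) := by ring
      _ ≤ (f / (η * P) * d) * (d / d.totient) * (d / d * (1 / ((f.totient : ℝ) * d.totient))) := by
          rw [div_self hd'.ne', one_mul (1 / _)]
          gcongr
      _ = f / (η * P) * (1 / (f.totient : ℝ)) * g d := by
          simp only [g]
          field_simp
  refine (sum_le_sum h1).trans ?_
  rw [← mul_sum]
  have h2 : ∑ D ∈ (Ioc ⌊η * P⌋₊ ⌊K * P⌋₊).filter (fun D => f ∣ D), g (D / f)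
      ≤ ∑ d ∈ Icc 1 B, g d := by
    rw [← sum_image (s := (Ioc ⌊η * P⌋₊ ⌊K * P⌋₊).filter (fun D => f ∣ D)) (g := fun D => D / f)
      (f := g) (fun D hD D' hD' hDD => by
        rw [← Nat.mul_div_cancel' (mem_filter.1 hD).2, ← Nat.mul_div_cancel' (mem_filter.1 hD').2]
        exact congrArg _ hDD)]
    refine sum_le_sum_of_subset_of_nonneg (fun d hd => ?_) fun d _ _ => by positivity
    obtain ⟨D, hD, rfl⟩ := mem_image.1 hd
    obtain ⟨hD1, hD2⟩ := mem_filter.1 hD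
    obtain ⟨hD3, hD4⟩ := mem_Ioc.1 hD1
    exact mem_Icc.2 ⟨Nat.div_pos (Nat.le_of_dvd (by omega) hD2) hf, Nat.div_le_div_right hD4⟩
  have h3 : (B : ℝ) ≤ K * P / f :=
    Nat.cast_div_le.trans (div_le_div_of_nonneg_right (Nat.floor_le (by positivity)) hf'.le)
  calc _ ≤ f / (η * P) * (1 / (f.totient : ℝ)) * (C * (K * P / f)) :=
        mul_le_mul_of_nonneg_left
          (h2.trans ((h B).trans (mul_le_mul_of_nonneg_left h3 hC.le))) (by positivity)
    _ = _ := by field_simp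

open Classical in
/-- The fourth moment over primitive characters, weighted by the inverse of the totient. -/
lemma prim_small {K ε a b : ℝ} (hK : 1 ≤ K) (hε : 0 < ε) (ha : 1 ≤ a) (hab : a ≤ b)
    (hb : b ≤ 2) : ∀ᶠ P : ℕ in atTop,
    ∑ f ∈ Icc 1 ⌊K * P⌋₊, (1 / (f.totient : ℝ)) *
      ∑ ψ ∈ (Lib.LargeSieve.primSet f).filter (fun ψ => ¬ Exc ψ),
        ‖∑ m ∈ range (2 * P + 1), (c1 a b P m : ℂ) * ψ m‖ ^ 4 ≤ ε * (P : ℝ) ^ 4 := by
  obtain ⟨C₁, hC₁, h₁⟩ := large_sieve_primes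
  obtain ⟨C₂, hC₂, h₂⟩ := large_sieve_four K hK
  obtain ⟨f₀, hf₀⟩ : ∃ f₀ : ℕ, (54 * C₁ / ε) ^ 2 ≤ f₀ := exists_nat_ge _
  have hA : Tendsto (fun P : ℕ => ∑ f ∈ Icc 1 f₀,
      ∑ ψ ∈ (Lib.LargeSieve.primSet f).filter (fun ψ => ¬ Exc ψ),
        (‖∑ m ∈ range (2 * P + 1), (c1 a b P m : ℂ) * ψ m‖ / P) ^ 4) atTop (𝓝 0) := by
    have := tendsto_finsetSum (Icc 1 f₀) fun f hf =>
      tendsto_finsetSum ((Lib.LargeSieve.primSet f).filter (fun ψ => ¬ Exc ψ)) fun ψ hψ =>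
        (c1_char_tendsto (mem_Icc.1 hf).1 ψ (mem_filter.1 hψ).2 ha hab hb).pow 4
    simpa using this
  have hC : ∀ᶠ P : ℕ in atTop, Real.log P ^ 3 ≤ ε / (6 * C₂) * (P : ℝ) ^ (1 / 64 : ℝ) := by
    have h := (isLittleO_log_rpow_rpow_atTop (3 : ℝ) (show (0 : ℝ) < 1 / 64 by norm_num)).def
      (show 0 < ε / (6 * C₂) by positivity)
    filter_upwards [tendsto_natCast_atTop_atTop.eventually h] with P hP
    rw [Real.norm_of_nonneg (Real.rpow_nonneg (Real.log_natCast_nonneg P) _),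
      Real.norm_of_nonneg (Real.rpow_nonneg (Nat.cast_nonneg P) _)] at hP
    rw [← Real.rpow_natCast]
    exact_mod_cast hP
  filter_upwards [h₁, h₂, hA.eventually (ge_mem_nhds (show (0 : ℝ) < ε / 3 by positivity)), hC,
    eventually_ge_atTop 1] with P h1 h2 h3 h4 hP
  have hP' : (0 : ℝ) < P := by exact_mod_cast hP
  set y : ℝ := (P : ℝ) ^ (1 / 64 : ℝ) with hy
  have hy0 : 0 < y := Real.rpow_pos_of_pos hP' _
  have hy64 : y ^ 64 = P := by
    rw [hy, ← Real.rpow_natCast, ← Real.rpow_mul hP'.le]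
    norm_num
  set F := Nat.nthRoot 32 P with hF
  replace h1 := h1 a b F ha hb (Nat.pow_nthRoot_le (Or.inl (by norm_num)))
  replace h2 := h2 a b ha hb
  let S : (f : ℕ) → DirichletCharacter ℂ f → ℝ := fun f ψ =>
    ‖∑ m ∈ range (2 * P + 1), (c1 a b P m : ℂ) * ψ m‖
  have hS0 : ∀ f ψ, 0 ≤ S f ψ := fun f ψ => norm_nonneg _
  have hS3 : ∀ f ψ, S f ψ ≤ 3 * P := fun f ψ => by
    simp only [S]
    rw [sum_c1 (by linarith) hb P (fun m => ψ m)]
    exact (norm_sum_le_log _ ψ).trans (sum_log_le hb P)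
  let N4 : ℕ → ℝ := fun f => ∑ ψ ∈ (Lib.LargeSieve.primSet f).filter (fun ψ => ¬ Exc ψ), S f ψ ^ 4
  let T2 : ℕ → ℝ := fun f => ∑ ψ ∈ Lib.LargeSieve.primSet f, S f ψ ^ 2
  let T4 : ℕ → ℝ := fun f => ∑ ψ ∈ Lib.LargeSieve.primSet f, S f ψ ^ 4
  have hN0 : ∀ f, 0 ≤ N4 f := fun f => sum_nonneg fun ψ _ => by positivity
  have hT20 : ∀ f, 0 ≤ T2 f := fun f => sum_nonneg fun ψ _ => by positivity
  have hT40 : ∀ f, 0 ≤ T4 f := fun f => sum_nonneg fun ψ _ => by positivity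
  have hNT : ∀ f, N4 f ≤ T4 f := fun f =>
    sum_le_sum_of_subset_of_nonneg (filter_subset _ _) fun ψ _ _ => by positivity
  have hT : ∀ f, T4 f ≤ 9 * (P : ℝ) ^ 2 * T2 f := fun f => by
    simp only [T4, T2]
    rw [mul_sum]
    refine sum_le_sum fun ψ _ => ?_
    have := pow_le_pow_left₀ (hS0 f ψ) (hS3 f ψ) 2
    calc S f ψ ^ 4 = S f ψ ^ 2 * S f ψ ^ 2 := by ring
      _ ≤ (3 * P) ^ 2 * S f ψ ^ 2 := mul_le_mul_of_nonneg_right this (by positivity)
      _ = _ := by ring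
  have hpt : ∀ f ∈ Icc 1 ⌊K * P⌋₊, (1 / (f.totient : ℝ)) * N4 f ≤
      (if f ∈ Icc 1 f₀ then N4 f else 0)
        + (if f ∈ Icc 1 F then ε / (3 * C₁) * (P : ℝ) ^ 2 * T2 f else 0) + 2 / y * T4 f := by
    intro f hf
    have hf1 := (mem_Icc.1 hf).1
    have hφ : (1 : ℝ) ≤ f.totient := by exact_mod_cast Nat.totient_pos.2 hf1
    have hsq := sqrt_le_totient f
    have e1 : (0 : ℝ) ≤ if f ∈ Icc 1 f₀ then N4 f else 0 := by
      split_ifs
      exacts [hN0 f, le_rfl]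
    have e2 : (0 : ℝ) ≤ if f ∈ Icc 1 F then ε / (3 * C₁) * (P : ℝ) ^ 2 * T2 f else 0 := by
      have := hT20 f
      split_ifs
      · positivity
      · exact le_rfl
    have e3 : 0 ≤ 2 / y * T4 f := mul_nonneg (by positivity) (hT40 f)
    by_cases c0 : f ≤ f₀
    · rw [if_pos (mem_Icc.2 ⟨hf1, c0⟩)]
      have : (1 / (f.totient : ℝ)) * N4 f ≤ N4 f :=
        mul_le_of_le_one_left (hN0 f) ((div_le_one (by linarith)).2 hφ)
      linarith
    by_cases cF : f ≤ F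
    · rw [if_pos (mem_Icc.2 ⟨hf1, cF⟩)]
      have h5 : 54 * C₁ / ε ≤ √f := by
        refine Real.le_sqrt_of_sq_le (hf₀.trans ?_)
        exact_mod_cast (by omega : f₀ ≤ f)
      have h6 : 1 / (f.totient : ℝ) ≤ ε / (27 * C₁) := by
        rw [div_le_div_iff₀ (by linarith) (by positivity)]
        rw [div_le_iff₀ hε] at h5
        nlinarith
      have h7 : (1 / (f.totient : ℝ)) * N4 f ≤ ε / (27 * C₁) * (9 * (P : ℝ) ^ 2 * T2 f) :=
        mul_le_mul h6 ((hNT f).trans (hT f)) (hN0 f) (by positivity)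
      have h8 : ε / (27 * C₁) * (9 * (P : ℝ) ^ 2 * T2 f) = ε / (3 * C₁) * (P : ℝ) ^ 2 * T2 f := by
        field_simp
        ring
      linarith
    · have h5 : P < f ^ 32 := by
        by_contra hc
        exact cF ((Nat.le_nthRoot_iff (by norm_num)).2 (not_lt.1 hc))
      have h6 : y ≤ √f := by
        refine le_of_pow_le_pow_left₀ (n := 64) (by norm_num) (Real.sqrt_nonneg _) ?_
        rw [hy64, show 64 = 2 * 32 by norm_num, pow_mul, Real.sq_sqrt (Nat.cast_nonneg _)]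
        exact_mod_cast h5.le
      have h7 : 1 / (f.totient : ℝ) ≤ 2 / y := by
        rw [div_le_div_iff₀ (by linarith) hy0]
        linarith
      have h8 : (1 / (f.totient : ℝ)) * N4 f ≤ 2 / y * T4 f :=
        mul_le_mul h7 (hNT f) (hN0 f) (by positivity)
      linarith
  refine (sum_le_sum hpt).trans ?_
  rw [sum_add_distrib, sum_add_distrib, sum_ite_mem, sum_ite_mem, ← mul_sum, ← mul_sum]
  have b1 : ∑ f ∈ Icc 1 ⌊K * P⌋₊ ∩ Icc 1 f₀, N4 f ≤ ε / 3 * (P : ℝ) ^ 4 := by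
    refine (sum_le_sum_of_subset_of_nonneg inter_subset_right fun f _ _ => hN0 f).trans ?_
    rw [← div_le_iff₀ (by positivity), sum_div]
    refine le_trans (le_of_eq (sum_congr rfl fun f _ => ?_)) h3
    simp only [N4, S]
    rw [sum_div]
    exact sum_congr rfl fun ψ _ => (div_pow _ _ _).symm
  have b2 : ε / (3 * C₁) * (P : ℝ) ^ 2 * ∑ f ∈ Icc 1 ⌊K * P⌋₊ ∩ Icc 1 F, T2 f
      ≤ ε / 3 * (P : ℝ) ^ 4 := by
    have h5 : ∑ f ∈ Icc 1 ⌊K * P⌋₊ ∩ Icc 1 F, T2 f ≤ C₁ * (P : ℝ) ^ 2 :=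
      (sum_le_sum_of_subset_of_nonneg inter_subset_right fun f _ _ => hT20 f).trans h1
    refine (mul_le_mul_of_nonneg_left h5 (by positivity)).trans (le_of_eq ?_)
    field_simp
  have b3 : 2 / y * ∑ f ∈ Icc 1 ⌊K * P⌋₊, T4 f ≤ ε / 3 * (P : ℝ) ^ 4 := by
    have h5 : ∑ f ∈ Icc 1 ⌊K * P⌋₊, T4 f ≤ C₂ * (P : ℝ) ^ 4 * (ε / (6 * C₂) * y) :=
      h2.trans (mul_le_mul_of_nonneg_left h4 (by positivity))
    refine (mul_le_mul_of_nonneg_left h5 (by positivity)).trans (le_of_eq ?_)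
    field_simp
    ring
  linarith

end LS4Aux

open LS4Aux in
open Classical in
theorem ls4 {K η ε a b : ℝ} (hK : 1 ≤ K) (hη : 0 < η) (hε : 0 < ε) (ha : 1 ≤ a) (hab : a ≤ b)
    (hb : b ≤ 2) : ∀ᶠ P : ℕ in atTop,
    ∑ D ∈ Ioc ⌊η * P⌋₊ ⌊K * P⌋₊, (1 / (D.totient : ℝ)) *
      ∑ χ ∈ univ.filter (fun χ : DirichletCharacter ℂ D => ¬ Exc χ),
        ‖∑ m ∈ range (2 * P + 1), (c1 a b P m : ℂ) * χ m‖ ^ 4 ≤ ε * (P : ℝ) ^ 4 := by
  obtain ⟨C, hC, hW⟩ := weight_le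
  have hK0 : 0 < K := by linarith
  set ε' : ℝ := ε / (9 * (C * K / η)) with hε'
  have hε'0 : 0 < ε' := by positivity
  filter_upwards [prim_small hK hε'0 ha hab hb, eventually_ge_atTop 1,
    tendsto_natCast_atTop_atTop.eventually_ge_atTop (128 * K ^ 3 / ε')] with P h1 hP h2
  have hP' : (0 : ℝ) < P := by exact_mod_cast hP
  have ha0 : 0 ≤ a := by linarith
  let N4 : ℕ → ℝ := fun f => ∑ ψ ∈ (Lib.LargeSieve.primSet f).filter (fun ψ => ¬ Exc ψ),
    ‖∑ m ∈ range (2 * P + 1), (c1 a b P m : ℂ) * ψ m‖ ^ 4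
  have hN0 : ∀ f, 0 ≤ N4 f := fun f => sum_nonneg fun ψ _ => by positivity
  let H : ℕ → ℝ := fun f => 8 * N4 f + f.totient * (128 * (K * P) ^ 2)
  have hH0 : ∀ f, 0 ≤ H f := fun f => add_nonneg (mul_nonneg (by norm_num) (hN0 f)) (by positivity)
  have hKP : ((⌊K * P⌋₊ : ℕ) : ℝ) ≤ K * P := Nat.floor_le (by positivity)
  have h3 : ∀ D ∈ Ioc ⌊η * P⌋₊ ⌊K * P⌋₊, (1 / (D.totient : ℝ)) *
      ∑ χ ∈ univ.filter (fun χ : DirichletCharacter ℂ D => ¬ Exc χ),
        ‖∑ m ∈ range (2 * P + 1), (c1 a b P m : ℂ) * χ m‖ ^ 4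
      ≤ ∑ f ∈ Icc 1 ⌊K * P⌋₊, if f ∣ D then 1 / (D.totient : ℝ) * H f else 0 := by
    intro D hD
    obtain ⟨hD1, hD2⟩ := mem_Ioc.1 hD
    have hD0 : 0 < D := by omega
    have h4 := reduce hD0 (PP a b P) fun p hp => (mem_filter.1 hp).2.1
    have h5 : (Icc 1 ⌊K * P⌋₊).filter (fun f => f ∣ D) = D.divisors := by
      ext f
      simp only [mem_filter, mem_Icc, Nat.mem_divisors]
      exact ⟨fun h => ⟨h.2, hD0.ne'⟩, fun h =>
        ⟨⟨Nat.pos_of_dvd_of_pos h.1 hD0, (Nat.le_of_dvd hD0 h.1).trans hD2⟩, h.1⟩⟩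
    rw [← sum_filter, h5, ← mul_sum]
    refine mul_le_mul_of_nonneg_left ?_ (by positivity)
    rw [sum_congr rfl fun (χ : DirichletCharacter ℂ D) _ => by
      rw [sum_c1 ha0 hb P (fun m => χ m)]]
    refine h4.trans (sum_le_sum fun f _ => add_le_add (le_of_eq ?_) ?_)
    · congr 1
      exact sum_congr rfl fun ψ _ => by rw [sum_c1 ha0 hb P (fun m => ψ m)]
    · have h6 : (D : ℝ) ≤ K * P := le_trans (by exact_mod_cast hD2) hKP
      gcongr
  refine (sum_le_sum h3).trans ?_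
  rw [sum_comm]
  have h4 : ∀ f ∈ Icc 1 ⌊K * P⌋₊,
      (∑ D ∈ Ioc ⌊η * P⌋₊ ⌊K * P⌋₊, if f ∣ D then 1 / (D.totient : ℝ) * H f else 0)
      ≤ C * K / η * (8 * (1 / (f.totient : ℝ) * N4 f) + 128 * (K * P) ^ 2) := by
    intro f hf
    have hf1 := (mem_Icc.1 hf).1
    have hφ : (0 : ℝ) < f.totient := by exact_mod_cast Nat.totient_pos.2 hf1
    rw [← sum_filter, ← sum_mul]
    refine (mul_le_mul_of_nonneg_right (hW K η P f hK0.le hη hP hf1) (hH0 f)).trans (le_of_eq ?_)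
    simp only [H]
    field_simp
  refine (sum_le_sum h4).trans ?_
  rw [← mul_sum, sum_add_distrib, ← mul_sum, sum_const, Nat.card_Icc, Nat.add_sub_cancel,
    nsmul_eq_mul]
  have h5 : ((⌊K * P⌋₊ : ℕ) : ℝ) * (128 * (K * P) ^ 2) ≤ ε' * (P : ℝ) ^ 4 := by
    rw [div_le_iff₀ hε'0] at h2
    calc _ ≤ (K * P) * (128 * (K * P) ^ 2) := mul_le_mul_of_nonneg_right hKP (by positivity)
      _ = 128 * K ^ 3 * (P : ℝ) ^ 3 := by ring
      _ ≤ (P * ε') * (P : ℝ) ^ 3 := mul_le_mul_of_nonneg_right h2 (by positivity)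
      _ = _ := by ring
  calc _ ≤ C * K / η * (9 * (ε' * (P : ℝ) ^ 4)) :=
        mul_le_mul_of_nonneg_left (by linarith) (by positivity)
    _ = _ := by
        rw [hε']
        field_simp

end Pool.Agent.P.MP_a1177c_nt.LC
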