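import Pool.Agent.P.MP_a1177c_nt.LC.UB
import Pool.Agent.Lib.LargeSieve.Multiplicative

namespace Pool.Agent.P.MP_a1177c_nt.LC

open Finset Filter MR MR.StructAux
open scoped ComplexConjugate Topology

namespace LSPAux

open Lib.LargeSieve DirichletCharacter

theorem sum_period {N : ℕ} [NeZero N] {ψ : DirichletCharacter ℂ N} (h : ψ ≠ 1) :
    ∑ k ∈ range N, ψ k = 0 := by
  rw [← MulChar.sum_eq_zero_of_ne_one h]
  refine sum_nbij' (fun k => (k : ZMod N)) ZMod.val (fun _ _ => mem_univ _)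
    (fun a _ => mem_range.2 (ZMod.val_lt a)) (fun k hk => ZMod.val_cast_of_lt (mem_range.1 hk))
    (fun a _ => ZMod.natCast_zmod_val a) fun _ _ => rfl

theorem norm_sum_char_le {N : ℕ} [NeZero N] {ψ : DirichletCharacter ℂ N} (h : ψ ≠ 1) (Y : ℕ) :
    ‖∑ k ∈ range Y, ψ k‖ ≤ N := by
  induction Y using Nat.strong_induction_on with
  | _ Y ih =>
    rcases lt_or_ge Y N with hY | hY
    · refine (norm_sum_le _ _).trans ((sum_le_card_nsmul _ _ 1 fun k _ => ψ.norm_le_one _).trans ?_)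
      simpa using hY.le
    · obtain ⟨Y, rfl⟩ := Nat.exists_eq_add_of_le hY
      rw [sum_range_add, sum_period h, zero_add]
      simpa using ih Y (by have := NeZero.pos N; omega)

theorem exists_multiples (X : ℕ) {d : ℕ} (hd : 0 < d) : ∃ Y : ℕ, |(Y : ℝ) - X / d| ≤ 1 ∧
    ∀ g : ℕ → ℂ, ∑ m ∈ (range X).filter (fun m : ℕ => (d : ℤ) ∣ (m : ℤ)), g m =
      ∑ k ∈ range Y, g (d * k) := by
  have key : ∀ k, k < X ⌈/⌉ d ↔ d * k < X := fun k => by
    rw [← not_le, ceilDiv_le_iff_le_smul hd, not_le, smul_eq_mul]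
  refine ⟨X ⌈/⌉ d, ?_, fun g => ?_⟩
  · have hd' : (0 : ℝ) < d := by exact_mod_cast hd
    have h1 : X ≤ d * (X ⌈/⌉ d) := not_lt.1 fun h => lt_irrefl _ ((key _).2 h)
    have h2 : d * (X ⌈/⌉ d) ≤ X + d := by
      rcases Nat.eq_zero_or_pos (X ⌈/⌉ d) with h | h
      · simp [h]
      · have := (key (X ⌈/⌉ d - 1)).1 (by omega)
        rw [Nat.mul_sub_one] at this
        omega
    have h3 : (X : ℝ) / d ≤ (X ⌈/⌉ d : ℕ) := by
      rw [div_le_iff₀' hd']; exact_mod_cast h1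
    have h4 : ((X ⌈/⌉ d : ℕ) : ℝ) - 1 ≤ X / d := by
      rw [le_div_iff₀ hd']
      have : (d : ℝ) * (X ⌈/⌉ d : ℕ) ≤ X + d := by exact_mod_cast h2
      linarith
    rw [abs_le]; constructor <;> linarith
  · symm
    refine sum_bij (fun k _ => d * k) (fun k hk => ?_) (fun _ _ _ _ h => ?_) (fun m hm => ?_)
      fun _ _ => rfl
    · exact mem_filter.2 ⟨mem_range.2 ((key k).1 (mem_range.1 hk)), by push_cast; simp⟩
    · exact Nat.eq_of_mul_eq_mul_left hd h
    · obtain ⟨h1, h2⟩ := mem_filter.1 hm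
      obtain ⟨k, rfl⟩ := Int.natCast_dvd_natCast.1 h2
      exact ⟨k, mem_range.2 ((key k).2 (mem_range.1 h1)), rfl⟩

theorem exists_quot {f f' : ℕ} (hf : 0 < f) (hf' : 0 < f') {χ : DirichletCharacter ℂ f}
    {χ' : DirichletCharacter ℂ f'} (h : χ.IsPrimitive) (h' : χ'.IsPrimitive)
    (hne : (⟨f, χ⟩ : Σ f : ℕ, DirichletCharacter ℂ f) ≠ ⟨f', χ'⟩) :
    ∃ ψ : DirichletCharacter ℂ (f * f'), ψ ≠ 1 ∧ ∀ m : ℕ, χ m * conj (χ' m) = ψ m := by
  have : NeZero (f * f') := ⟨(Nat.mul_pos hf hf').ne'⟩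
  refine ⟨changeLevel (dvd_mul_right f f') χ * (changeLevel (dvd_mul_left f' f) χ')⁻¹,
    fun h1 => hne ?_, fun m => ?_⟩
  · rw [mul_inv_eq_one] at h1
    have h2 := congrArg conductor h1
    rw [conductor_changeLevel, conductor_changeLevel, (isPrimitive_def _).1 h,
      (isPrimitive_def _).1 h'] at h2
    subst h2
    rw [changeLevel_injective _ h1]
  · by_cases hm : IsCoprime (m : ℤ) ((f * f' : ℕ) : ℤ)
    · have h1 := changeLevel_eq_cast_of_dvd' χ (dvd_mul_right f f') hm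
      have h2 := changeLevel_eq_cast_of_dvd' χ' (dvd_mul_left f' f) hm
      rw [Int.cast_natCast, Int.cast_natCast] at h1 h2
      rw [MulChar.mul_apply, ← MulChar.star_apply', h1, h2]
      rfl
    · have h0 := (DirichletCharacter.apply_eq_zero_iff (changeLevel (dvd_mul_right f f') χ *
        (changeLevel (dvd_mul_left f' f) χ')⁻¹) m).2 hm
      rw [Int.cast_natCast] at h0
      rw [h0]
      push_cast at hm
      rw [IsCoprime.mul_right_iff, not_and_or] at hm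
      rcases hm with hm | hm
      · have := (DirichletCharacter.apply_eq_zero_iff χ m).2 hm
        rw [Int.cast_natCast] at this
        rw [this, zero_mul]
      · have := (DirichletCharacter.apply_eq_zero_iff χ' m).2 hm
        rw [Int.cast_natCast] at this
        rw [this, map_zero, mul_zero]

theorem card_prim_le (F : ℕ) : ((Icc 1 F).sigma primSet).card ≤ F ^ 2 := by
  classical
  rw [card_sigma, sq]
  refine (sum_le_card_nsmul _ _ F fun f hf => ?_).trans (by simp)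
  obtain ⟨h1, h2⟩ := mem_Icc.1 hf
  have : NeZero f := ⟨by omega⟩
  refine (card_le_univ _).trans ?_
  rw [← Nat.card_eq_fintype_card, card_eq_totient_of_hasEnoughRootsOfUnity]
  exact (Nat.totient_le f).trans h2

theorem c1_ne {a b : ℝ} {P m : ℕ} (ha : 1 ≤ a) (h : c1 a b P m ≠ 0) : m.Prime ∧ P < m := by
  unfold c1 at h
  split_ifs at h with h1
  · refine ⟨by simpa using h1.2.2.1, ?_⟩
    have h2 : (P : ℝ) < m := by
      have := h1.1
      push_cast at this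
      nlinarith [Nat.cast_nonneg (α := ℝ) P]
    exact_mod_cast h2
  · exact absurd rfl h

theorem c1_bounds : ∃ C : ℝ, 0 < C ∧ ∀ᶠ P : ℕ in atTop, ∀ a b : ℝ, 1 ≤ a → b ≤ 2 →
    (∀ m, c1 a b P m ≤ 3 * Real.log P) ∧ ∑ m ∈ range (2 * P + 1), c1 a b P m ≤ C * P := by
  obtain ⟨C, hC, h⟩ := sum_cp_le
  have hle : ∀ a b P m, c1 a b P m ≤ cp 1 a b P m := fun a b P m =>
    le_add_of_nonneg_right (c2_nonneg _ _ _ _ _)
  refine ⟨C, hC, ?_⟩
  filter_upwards [h 1 one_pos, cp_le 1] with P h1 h2 a b ha hb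
  refine ⟨fun m => (hle _ _ _ _).trans (h2 a b ha hb m), ?_⟩
  have := h1 a b ha hb ((range (2 * P + 1)).map Nat.castEmbedding)
  rw [sum_map] at this
  exact (sum_le_sum fun m _ => hle _ _ _ _).trans this

theorem gram {z F X : ℕ} {ν : ℤ → ℝ} {μ : ℝ} (hν : ∀ n, 0 ≤ ν n) (hμ : 0 ≤ μ)
    (hs : ∀ (f : ℕ → ℂ) (M : ℂ) (R : ℝ), 0 ≤ R →
      (∀ d : ℕ, 0 < d →
        ‖∑ i ∈ (range X).filter (fun i : ℕ => (d : ℤ) ∣ (i : ℤ)), f i - M / d‖ ≤ R) →
      ‖∑ i ∈ range X, (ν i : ℂ) * f i - M * μ‖ ≤ (z : ℝ) ^ 6 * R)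
    (c : ℕ → ℂ) :
    ∑ x ∈ (Icc 1 F).sigma primSet, ‖∑ m ∈ range X, c m * ((√(ν m) : ℝ) * x.2 m)‖ ^ 2 ≤
      (X * μ + z ^ 6 + F ^ 2 * (z ^ 6 * F ^ 2)) * ∑ m ∈ range X, ‖c m‖ ^ 2 := by
  classical
  refine halasz _ _ (fun (x : Σ f : ℕ, DirichletCharacter ℂ f) (m : ℕ) =>
    ((√(ν m) : ℝ) : ℂ) * x.2 m) c _ (by positivity) fun r hr => ?_
  have e : ∀ s : Σ f : ℕ, DirichletCharacter ℂ f,
      ∑ m ∈ range X, ((√(ν m) : ℝ) : ℂ) * r.2 m * conj (((√(ν m) : ℝ) : ℂ) * s.2 m) =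
      ∑ m ∈ range X, (ν m : ℂ) * (r.2 m * conj (s.2 m)) := by
    intro s
    refine sum_congr rfl fun m _ => ?_
    rw [map_mul, Complex.conj_ofReal, mul_mul_mul_comm, ← Complex.ofReal_mul,
      Real.mul_self_sqrt (hν _)]
  simp only [e]
  rw [← add_sum_erase _ _ hr]
  refine add_le_add ?_ ?_
  · have h1 := hs (fun _ => 1) X 1 zero_le_one fun d hd => by
      obtain ⟨Y, h1, h2⟩ := exists_multiples X hd
      rw [h2, sum_const, card_range, nsmul_one]
      rw [← Real.norm_eq_abs, ← Complex.norm_real] at h1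
      push_cast at h1
      exact h1
    have h2 : |∑ m ∈ range X, ν m - X * μ| ≤ (z : ℝ) ^ 6 := by
      rw [← Real.norm_eq_abs, ← Complex.norm_real]
      simpa using h1
    refine (norm_sum_le _ _).trans (le_trans (sum_le_sum fun m _ => ?_)
      (show ∑ m ∈ range X, ν m ≤ _ by linarith [(abs_le.1 h2).2]))
    rw [norm_mul, norm_mul, Complex.norm_real, Real.norm_of_nonneg (hν _), Complex.norm_conj]
    exact mul_le_of_le_one_right (hν _)
      (mul_le_one₀ (r.2.norm_le_one _) (norm_nonneg _) (r.2.norm_le_one _))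
  · refine (sum_le_card_nsmul _ _ ((z : ℝ) ^ 6 * F ^ 2) fun s hs'' => ?_).trans ?_
    · obtain ⟨hne, hs'⟩ := mem_erase.1 hs''
      obtain ⟨f, χ⟩ := r
      obtain ⟨f', χ'⟩ := s
      simp only [mem_sigma, mem_Icc, mem_primSet] at hr hs'
      obtain ⟨ψ, hψ, hv⟩ := exists_quot hr.1.1 hs'.1.1 hr.2 hs'.2 hne.symm
      have : NeZero (f * f') := ⟨(Nat.mul_pos hr.1.1 hs'.1.1).ne'⟩
      simp only [hv]
      have := hs (fun m => ψ m) 0 (F ^ 2) (by positivity) fun d hd => by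
        obtain ⟨Y, -, h2⟩ := exists_multiples X hd
        rw [h2, zero_div, sub_zero]
        simp only [Nat.cast_mul, map_mul]
        rw [← mul_sum, norm_mul]
        refine (mul_le_of_le_one_left (norm_nonneg _) (ψ.norm_le_one _)).trans
          ((norm_sum_char_le hψ Y).trans ?_)
        have := Nat.mul_le_mul hr.1.2 hs'.1.2
        rw [← sq] at this
        exact_mod_cast this
      simpa using this
    · rw [nsmul_eq_mul]
      have : (((Icc 1 F).sigma primSet).erase r).card ≤ F ^ 2 :=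
        card_erase_le.trans (card_prim_le F)
      exact mul_le_mul_of_nonneg_right (by exact_mod_cast this) (by positivity)

theorem large_sieve_weight {ι : Type*} (Q X : ℕ) (T : Finset ι) (g : ι → ℕ) (w : ι → ℝ) (W : ℝ)
    (hw : ∀ i, 0 ≤ w i) (hg : ∀ i ∈ T, g i < X)
    (hW : ∀ n, ∑ i ∈ T.filter (fun i => g i = n), w i ≤ W) :
    ∑ f ∈ Icc 1 Q, ∑ χ ∈ primSet f, ‖∑ i ∈ T, (w i : ℂ) * χ (g i)‖ ^ 2
      ≤ (X + ((Q ^ 2 : ℕ) : ℝ) * (1 + Real.log ((Q ^ 2 : ℕ) : ℝ))) * (W * ∑ i ∈ T, w i) := by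
  set c : ℕ → ℝ := fun n => ∑ i ∈ T.filter (fun i => g i = n), w i with hc
  have h := large_sieve Q X fun n => (c n : ℂ)
  have hm : ∀ i ∈ T, g i ∈ range X := fun i hi => mem_range.2 (hg i hi)
  have e1 : ∀ (f : ℕ) (χ : DirichletCharacter ℂ f),
      ∑ i ∈ T, (w i : ℂ) * χ (g i) = ∑ m ∈ range X, (c m : ℂ) * χ m := by
    intro f χ
    rw [← sum_fiberwise_of_maps_to hm]
    refine sum_congr rfl fun m _ => ?_
    simp only [hc, Complex.ofReal_sum, sum_mul]
    exact sum_congr rfl fun i hi => by rw [(mem_filter.1 hi).2]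
  have e2 : ∑ m ∈ range X, ‖(c m : ℂ)‖ ^ 2 ≤ W * ∑ i ∈ T, w i := by
    rw [← sum_fiberwise_of_maps_to hm, mul_sum]
    refine sum_le_sum fun m _ => ?_
    have h0 : 0 ≤ c m := sum_nonneg fun i _ => hw i
    rw [Complex.norm_real, Real.norm_of_nonneg h0, sq]
    exact mul_le_mul_of_nonneg_right (hW m) h0
  simp only [e1]
  refine h.trans (mul_le_mul_of_nonneg_left e2 ?_)
  have := Real.log_natCast_nonneg (Q ^ 2)
  positivity

end LSPAux

open LSPAux

/-- The large sieve for primes, small conductors. -/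
theorem large_sieve_primes : ∃ C : ℝ, 0 < C ∧ ∀ᶠ P : ℕ in atTop, ∀ (a b : ℝ) (F : ℕ), 1 ≤ a →
    b ≤ 2 → F ^ 32 ≤ P →
    ∑ f ∈ Icc 1 F, ∑ χ ∈ Lib.LargeSieve.primSet f,
      ‖∑ m ∈ range (2 * P + 1), (c1 a b P m : ℂ) * χ m‖ ^ 2 ≤ C * (P : ℝ) ^ 2 := by
  obtain ⟨C, hC, hsel⟩ := selberg_int
  obtain ⟨C', hC', hb⟩ := c1_bounds
  refine ⟨(192 * C + 128) * (3 * C'), by positivity, ?_⟩
  filter_upwards [hb, eventually_ge_atTop (2 ^ 32)] with P hP hP2 a b F ha hb hF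
  obtain ⟨h1, h2⟩ := hP a b ha hb
  obtain ⟨z, hz, h3⟩ : ∃ z : ℕ, (∀ k, k ≤ z ↔ k ^ 32 ≤ P) ∧ P < (z + 1) ^ 32 :=
    ⟨Nat.nthRoot 32 P, fun _ => Nat.le_nthRoot_iff (by norm_num),
      Nat.lt_pow_nthRoot_add_one (by norm_num) P⟩
  have hz2 : 2 ≤ z := (hz _).2 hP2
  have hFz : F ≤ z := (hz _).2 hF
  have hzP : z ^ 32 ≤ P := (hz _).1 le_rfl
  have hPz : P ≤ z ^ 64 := by
    calc P ≤ (z + 1) ^ 32 := h3.le
      _ ≤ (z ^ 2) ^ 32 := Nat.pow_le_pow_left (by nlinarith only [hz2]) _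
      _ = z ^ 64 := by ring
  clear h3 hz hF
  have hP1 : (1 : ℝ) ≤ P := by exact_mod_cast (le_trans (by norm_num) hP2 : 1 ≤ P)
  clear hP2
  obtain ⟨ν, μ, hν, hν1, hμ, hμC, hs⟩ := hsel z 1 hz2 one_pos
  have h3 := gram (z := z) (F := F) (X := 2 * P + 1) hν hμ (fun f M R hR h =>
    hs ℕ _ (fun m => (m : ℤ)) f M R hR fun d hd _ _ => h d hd) fun m => (c1 a b P m : ℂ)
  rw [sum_sigma] at h3
  have e : ∀ (m : ℕ) (y : ℂ), (c1 a b P m : ℂ) * ((√(ν m) : ℝ) * y) = c1 a b P m * y := by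
    intro m y
    by_cases h : c1 a b P m = 0
    · simp [h]
    · obtain ⟨h4, h5⟩ := c1_ne ha h
      rw [hν1 m fun p hp hpz hpm => ?_]
      · simp
      · have h6 := (Nat.prime_dvd_prime_iff_eq hp h4).1 (Int.natCast_dvd_natCast.1 hpm)
        have h7 : z ≤ z ^ 32 := Nat.le_self_pow (by norm_num) _
        omega
  simp only [e] at h3
  refine h3.trans ?_
  have hz' : (2 : ℝ) ≤ z := by exact_mod_cast hz2
  have hL0 : 0 ≤ Real.log P := Real.log_nonneg hP1
  have hlz : 0 < Real.log z := Real.log_pos (by linarith)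
  have hL : Real.log P ≤ 64 * Real.log z := by
    have : (P : ℝ) ≤ (z : ℝ) ^ 64 := by exact_mod_cast hPz
    simpa using Real.log_le_log (by linarith) this
  have h4 : ∑ m ∈ range (2 * P + 1), ‖(c1 a b P m : ℂ)‖ ^ 2 ≤ Real.log P * (3 * C' * P) := by
    calc _ ≤ ∑ m ∈ range (2 * P + 1), 3 * Real.log P * c1 a b P m := by
          refine sum_le_sum fun m _ => ?_
          rw [Complex.norm_real, Real.norm_of_nonneg (c1_nonneg _ _ _), sq]
          exact mul_le_mul_of_nonneg_right (h1 _) (c1_nonneg _ _ _)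
      _ ≤ 3 * Real.log P * (C' * P) := by
          rw [← mul_sum]; exact mul_le_mul_of_nonneg_left h2 (by positivity)
      _ = _ := by ring
  have h5 : μ * Real.log P ≤ 64 * C := by
    simp only [Nat.cast_one, Nat.totient_one, div_one, mul_one] at hμC
    rw [le_div_iff₀ hlz] at hμC
    nlinarith
  have h6 : ((z : ℝ) ^ 6 + F ^ 2 * (z ^ 6 * F ^ 2)) * Real.log P ≤ 128 * P := by
    have h7 : (F : ℝ) ≤ z := by exact_mod_cast hFz
    have h8 : Real.log z ≤ z := (Real.log_le_sub_one_of_pos (by linarith)).trans (by linarith)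
    have h9 : (z : ℝ) ^ 11 ≤ P :=
      (pow_le_pow_right₀ (by linarith) (by norm_num)).trans (by exact_mod_cast hzP : (z : ℝ) ^ 32 ≤ P)
    have h10 : (z : ℝ) ^ 6 ≤ z ^ 10 := pow_le_pow_right₀ (by linarith) (by norm_num)
    calc _ ≤ ((z : ℝ) ^ 10 + z ^ 2 * (z ^ 6 * z ^ 2)) * (64 * z) := by gcongr; linarith
      _ = 128 * z ^ 11 := by ring
      _ ≤ _ := by linarith
  refine (mul_le_mul_of_nonneg_left h4 (by positivity)).trans ?_
  push_cast
  have h7 : (2 * P + 1) * (μ * Real.log P) ≤ 3 * P * (64 * C) :=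
    mul_le_mul (by linarith) h5 (by positivity) (by positivity)
  calc _ = ((2 * P + 1) * (μ * Real.log P) +
        ((z : ℝ) ^ 6 + F ^ 2 * (z ^ 6 * F ^ 2)) * Real.log P) * (3 * C' * P) := by ring
    _ ≤ (3 * P * (64 * C) + 128 * P) * (3 * C' * P) := by gcongr
    _ = _ := by ring

/-- The fourth moment over all conductors. -/
theorem large_sieve_four (K : ℝ) (hK : 1 ≤ K) : ∃ C : ℝ, 0 < C ∧ ∀ᶠ P : ℕ in atTop, ∀ a b : ℝ,
    1 ≤ a → b ≤ 2 →
    ∑ f ∈ Icc 1 ⌊K * P⌋₊, ∑ χ ∈ Lib.LargeSieve.primSet f,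
      ‖∑ m ∈ range (2 * P + 1), (c1 a b P m : ℂ) * χ m‖ ^ 4 ≤
        C * (P : ℝ) ^ 4 * Real.log P ^ 3 := by
  obtain ⟨C', hC', hb⟩ := c1_bounds
  refine ⟨(5 + K ^ 2 * (3 + 2 * K)) * (18 * C' ^ 2), by positivity, ?_⟩
  filter_upwards [hb, eventually_ge_atTop 3] with P hP hP3 a b ha hb
  obtain ⟨h1, h2⟩ := hP a b ha hb
  have hP' : (3 : ℝ) ≤ P := by exact_mod_cast hP3
  have hL : 1 ≤ Real.log P := by
    rw [Real.le_log_iff_exp_le (by linarith)]
    linarith [Real.exp_one_lt_d9]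
  set Q := ⌊K * P⌋₊ with hQ
  have h3 := large_sieve_weight Q (4 * P ^ 2 + 1) (range (2 * P + 1) ×ˢ range (2 * P + 1))
    (fun x => x.1 * x.2) (fun x => c1 a b P x.1 * c1 a b P x.2) (18 * Real.log P ^ 2)
    (fun x => mul_nonneg (c1_nonneg _ _ _) (c1_nonneg _ _ _)) (fun x hx => by
      simp only [mem_product, mem_range, Nat.lt_succ_iff] at hx
      have := Nat.mul_le_mul hx.1 hx.2
      nlinarith) (fun n => by
      rw [← sum_filter_ne_zero]
      set U := ((range (2 * P + 1) ×ˢ range (2 * P + 1)).filter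
        (fun x : ℕ × ℕ => x.1 * x.2 = n)).filter
        (fun x => c1 a b P x.1 * c1 a b P x.2 ≠ 0) with hU
      have hc : U.card ≤ 2 := by
        rcases U.eq_empty_or_nonempty with h | ⟨x, hx⟩
        · simp [h]
        refine le_trans (card_le_card (t := {x, x.swap}) fun y hy => ?_) card_le_two
        simp only [hU, mem_filter, ne_eq, mul_eq_zero, not_or] at hx hy
        have hx1 := (c1_ne ha hx.2.1).1
        have hx2 := (c1_ne ha hx.2.2).1
        have hy1 := (c1_ne ha hy.2.1).1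
        have he : y.1 * y.2 = x.1 * x.2 := hy.1.2.trans hx.1.2.symm
        rw [mem_insert, mem_singleton]
        rcases (Nat.Prime.dvd_mul hy1).1 (Dvd.intro _ he) with h | h
        · have h := (Nat.prime_dvd_prime_iff_eq hy1 hx1).1 h
          rw [h] at he
          exact Or.inl (Prod.ext h (Nat.eq_of_mul_eq_mul_left hx1.pos he))
        · have h := (Nat.prime_dvd_prime_iff_eq hy1 hx2).1 h
          rw [h, mul_comm x.1] at he
          exact Or.inr (Prod.ext h (Nat.eq_of_mul_eq_mul_left hx2.pos he))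
      refine (sum_le_card_nsmul _ _ (3 * Real.log P * (3 * Real.log P)) fun x _ =>
        mul_le_mul (h1 _) (h1 _) (c1_nonneg _ _ _) (by positivity)).trans ?_
      rw [nsmul_eq_mul]
      have : (U.card : ℝ) ≤ 2 := by exact_mod_cast hc
      nlinarith [sq_nonneg (Real.log P)])
  have e : ∀ (f : ℕ) (χ : DirichletCharacter ℂ f),
      ‖∑ m ∈ range (2 * P + 1), (c1 a b P m : ℂ) * χ m‖ ^ 4 =
      ‖∑ x ∈ range (2 * P + 1) ×ˢ range (2 * P + 1),
        ((c1 a b P x.1 * c1 a b P x.2 : ℝ) : ℂ) * χ ((x.1 * x.2 : ℕ) : ZMod f)‖ ^ 2 := by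
    intro f χ
    rw [show 4 = 2 * 2 from rfl, pow_mul, ← norm_pow, sq (∑ m ∈ _, _), sum_mul_sum, sum_product]
    congr 2
    refine sum_congr rfl fun m _ => sum_congr rfl fun m' _ => ?_
    push_cast
    rw [map_mul]; ring
  simp only [e]
  refine h3.trans ?_
  rw [sum_product]
  dsimp only
  rw [← sum_mul_sum]
  have h0 : 0 ≤ ∑ m ∈ range (2 * P + 1), c1 a b P m := sum_nonneg fun _ _ => c1_nonneg _ _ _
  have hQ1 : (Q : ℝ) ≤ K * P := Nat.floor_le (by positivity)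
  have hQ2 : 1 ≤ Q := Nat.le_floor (by push_cast; nlinarith)
  have hQ3 : (1 : ℝ) ≤ Q := by exact_mod_cast hQ2
  have h4 : Real.log Q ≤ K + Real.log P := by
    refine (Real.log_le_log (by linarith) hQ1).trans ?_
    rw [Real.log_mul (by linarith) (by linarith)]
    linarith [Real.log_le_sub_one_of_pos (show 0 < K by linarith)]
  have h5 : 0 ≤ Real.log Q := Real.log_nonneg hQ3
  push_cast
  rw [Real.log_pow]
  push_cast
  have h6 : 4 * (P : ℝ) ^ 2 + 1 ≤ 5 * (P ^ 2 * Real.log P) := by nlinarith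
  have h7 : 1 + 2 * Real.log Q ≤ (3 + 2 * K) * Real.log P := by nlinarith
  calc _ ≤ (5 * (P ^ 2 * Real.log P) + (K * P) ^ 2 * ((3 + 2 * K) * Real.log P)) *
        (18 * Real.log P ^ 2 * (C' * P * (C' * P))) := by gcongr
    _ = _ := by ring

end Pool.Agent.P.MP_a1177c_nt.LC
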