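import Pool.Agent.P.MP_a1177c_nt.LC.Blocks

namespace Pool.Agent.P.MP_a1177c_nt.LC

open Finset Filter MR MR.StructAux
open scoped ComplexConjugate Topology

namespace MRaAux

lemma dvd_of_dvd_mul_prim {d n : ℕ} {b : G} (hb : cont b = 1) (h : ((d : ℤ) : G) ∣ (n : G) * b) :
    d ∣ n := by
  have h1 := dvd_cont h
  have h2 : cont ((n : G) * b) = n * cont b := by
    simp only [cont, Zsqrtd.re_mul, Zsqrtd.im_mul, Zsqrtd.re_natCast, Zsqrtd.im_natCast, mul_zero,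
      zero_mul, add_zero, Int.gcd_mul_left, Int.natAbs_natCast]
  rwa [h2, hb, mul_one] at h1

lemma nm_tuple {l : ℕ} {t : Fin l → ℕ} (ht : ∀ i, (t i).Prime ∧ t i % 4 = 1) :
    nm (∏ i, gp (t i)) = ∏ i, t i := by
  rw [nm_prod]
  exact prod_congr rfl fun i _ => nm_gp (ht i).1 (ht i).2

lemma cont_tuple_le {S : Finset ℕ} (hS : ∀ p ∈ S, p.Prime ∧ p % 4 = 1) {B M l : ℕ} (hB : 1 ≤ B)
    (hSB : ∀ p ∈ S, p ≤ B) {t : Fin l → ℕ} (ht : ∀ i, t i ∈ S) {b : G} (hb : cont b = 1)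
    (hF : Few S M b) : cont ((∏ i, gp (t i)) * b) ≤ B ^ M := by
  have ht' : ∀ i, (t i).Prime ∧ t i % 4 = 1 := fun i => hS _ (ht i)
  set π := ∏ i, gp (t i) with hπ
  have hπ0 : π ≠ 0 := prod_ne_zero_iff.2 fun i _ => gp_ne_zero (ht' i).1 (ht' i).2
  have hc : cont π = 1 := by
    have h1 := cont_prod_mul univ t (fun i _ => ht' i) 1 fun i _ => by
      simpa using (ht' i).1.ne_one
    have h2 : cont (1 : G) = 1 := by simp [cont]
    rw [mul_one, h2] at h1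
    exact le_antisymm h1 (StructAux.cont_pos hπ0)
  have hd := cont_dvd (π * b)
  set d := cont (π * b)
  have h1 : d ∣ ∏ i, t i := by
    rw [← nm_tuple ht']
    refine dvd_of_dvd_mul_prim hb ?_
    rw [← mul_star_eq, mul_comm π, mul_assoc]
    exact hd.mul_left _
  have h2 : d ∣ nm b := by
    refine dvd_of_dvd_mul_prim hc ?_
    rw [← mul_star_eq, mul_comm b, mul_assoc, mul_comm b]
    exact hd.mul_left _
  have h3 : ∀ p, p.Prime → p ∣ d → p ∈ S := fun p hp hpd => by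
    obtain ⟨i, -, hi⟩ := (hp.prime.dvd_finsetProd_iff _).1 (hpd.trans h1)
    rw [(Nat.prime_dvd_prime_iff_eq hp (ht' i).1).1 hi]
    exact ht i
  have h4 : Squarefree d := Nat.squarefree_iff_prime_squarefree.2 fun p hp hpd =>
    hF.1 p (h3 p hp ((dvd_mul_right p p).trans hpd)) (by rw [sq]; exact hpd.trans h2)
  have h5 : d.primeFactors ⊆ S.filter fun p => p ∣ nm b := fun p hp =>
    mem_filter.2 ⟨h3 p (Nat.prime_of_mem_primeFactors hp) (Nat.dvd_of_mem_primeFactors hp),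
      (Nat.dvd_of_mem_primeFactors hp).trans h2⟩
  rw [← Nat.prod_primeFactors_of_squarefree h4]
  exact (prod_le_pow_card _ _ B fun p hp => hSB p (mem_filter.1 (h5 hp)).1).trans
    (Nat.pow_le_pow_right hB ((card_le_card h5).trans hF.2))

lemma fam_blk {S W : Finset ℕ} (hS : ∀ p ∈ S, p.Prime ∧ p % 4 = 1) {Y B M : ℕ} (l : ℕ)
    (hY : 0 < Y) (hB : 1 ≤ B) (hSB : ∀ p ∈ S, p ≤ B) (hWS : W ⊆ S) (hWY : W ⊆ PS Y)
    {T : Finset G} {Z₀ Z : ℝ} (hZ : 0 < Z₀)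
    (hT : ∀ b ∈ T, cont b = 1 ∧ Z₀ ≤ nm b ∧ (nm b : ℝ) ≤ Z ∧ Few S M b) :
    Fam (Fintype.piFinset (fun _ : Fin l => W) ×ˢ T) (fun q => (∏ i, gp (q.1 i)) * q.2)
      ((Y : ℝ) ^ l * Z₀) ((2 * Y : ℝ) ^ l * Z) (B ^ M) ((l + M) ^ l) := by
  classical
  have hm : ∀ q ∈ Fintype.piFinset (fun _ : Fin l => W) ×ˢ T, ∀ i, q.1 i ∈ W := fun q hq =>
    Fintype.mem_piFinset.1 (mem_product.1 hq).1
  have hn : ∀ q ∈ Fintype.piFinset (fun _ : Fin l => W) ×ˢ T,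
      nm ((∏ i, gp (q.1 i)) * q.2) = (∏ i, q.1 i) * nm q.2 := fun q hq => by
    rw [nm_mul, nm_tuple fun i => hS _ (hWS (hm q hq i))]
  refine ⟨by positivity, fun q hq => ?_, fun q hq => ?_, fun q hq => ?_, fun z => ?_⟩
  · rw [hn q hq]
    push_cast
    refine mul_le_mul ?_ (hT _ (mem_product.1 hq).2).2.1 hZ.le (by positivity)
    refine le_trans (by simp) (prod_le_prod (f := fun _ => (Y : ℝ)) (fun i _ => by positivity)
      fun i _ => ?_)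
    exact_mod_cast (mem_PS.1 (hWY (hm q hq i))).1.1.le
  · rw [hn q hq]
    push_cast
    refine mul_le_mul ?_ (hT _ (mem_product.1 hq).2).2.2.1 (by positivity) (by positivity)
    refine le_trans (prod_le_prod (g := fun _ => (2 * Y : ℝ)) (fun i _ => by positivity)
      fun i _ => ?_) (by simp)
    exact_mod_cast (mem_PS.1 (hWY (hm q hq i))).1.2
  · obtain ⟨h1, -, -, h2⟩ := hT _ (mem_product.1 hq).2
    exact cont_tuple_le hS hB hSB (fun i => hWS (hm q hq i)) h1 h2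
  · set F := (Fintype.piFinset (fun _ : Fin l => W) ×ˢ T).filter
      fun q => (∏ i, gp (q.1 i)) * q.2 = z with hF
    rcases F.eq_empty_or_nonempty with h | ⟨q₀, hq₀⟩
    · rw [h]; simp
    obtain ⟨a1, a2⟩ := mem_filter.1 hq₀
    have h1 : (S.filter fun p => p ∣ nm z) ⊆
        univ.image q₀.1 ∪ S.filter fun p => p ∣ nm q₀.2 := fun p hp => by
      obtain ⟨b1, b2⟩ := mem_filter.1 hp
      rw [← a2, hn q₀ a1] at b2
      rcases (hS p b1).1.dvd_mul.1 b2 with b3 | b3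
      · obtain ⟨i, -, hi⟩ := ((hS p b1).1.prime.dvd_finsetProd_iff _).1 b3
        exact mem_union_left _ (mem_image.2 ⟨i, mem_univ _,
          ((Nat.prime_dvd_prime_iff_eq (hS p b1).1 (hS _ (hWS (hm q₀ a1 i))).1).1 hi).symm⟩)
      · exact mem_union_right _ (mem_filter.2 ⟨b1, b3⟩)
    have h2 : (S.filter fun p => p ∣ nm z).card ≤ l + M :=
      (card_le_card h1).trans ((card_union_le _ _).trans (Nat.add_le_add
        (card_image_le.trans (by simp)) (hT _ (mem_product.1 a1).2).2.2.2.2))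
    calc F.card ≤ (Fintype.piFinset fun _ : Fin l => S.filter fun p => p ∣ nm z).card := by
          refine card_le_card_of_injOn (fun q => q.1) (fun q hq => ?_) fun q hq r hr h => ?_
          · obtain ⟨b1, b2⟩ := mem_filter.1 (mem_coe.1 hq)
            refine mem_coe.2 (Fintype.mem_piFinset.2 fun i => mem_filter.2 ⟨hWS (hm q b1 i), ?_⟩)
            rw [← b2, hn q b1]
            exact (dvd_prod_of_mem _ (mem_univ i)).mul_right _
          · obtain ⟨b1, b2⟩ := mem_filter.1 (mem_coe.1 hq)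
            obtain ⟨c1, c2⟩ := mem_filter.1 (mem_coe.1 hr)
            have e : q.1 = r.1 := h
            refine Prod.ext e ?_
            rw [← c2, e] at b2
            exact mul_left_cancel₀ (prod_ne_zero_iff.2 fun i _ =>
              gp_ne_zero (hS _ (hWS (hm r c1 i))).1 (hS _ (hWS (hm r c1 i))).2) b2
      _ ≤ (l + M) ^ l := by
          rw [Fintype.card_piFinset, prod_const, card_univ, Fintype.card_fin]
          exact Nat.pow_le_pow_left h2 l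

lemma card_PS_le (Y : ℕ) : (PS Y).card ≤ Y :=
  (card_filter_le _ _).trans (by rw [Nat.card_Ioc]; omega)

/-- Mean value of a power of a prime polynomial times a sum over primitive points. -/
lemma mv_blk {S W : Finset ℕ} (hS : ∀ p ∈ S, p.Prime ∧ p % 4 = 1) {Y B M : ℕ} (l : ℕ)
    (hY : 0 < Y) (hB : 1 ≤ B) (hSB : ∀ p ∈ S, p ≤ B) (hWS : W ⊆ S) (hWY : W ⊆ PS Y)
    {T : Finset G} {Z₀ Z : ℝ} (hZ : 0 < Z₀) (hZZ : Z ≤ 2 * Z₀)
    (hT : ∀ b ∈ T, cont b = 1 ∧ Z₀ ≤ nm b ∧ (nm b : ℝ) ≤ Z ∧ Few S M b) {K : ℕ}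
    (h1 : 1 ≤ (Y : ℝ) ^ l * Z) (hK : K ≤ (Y : ℝ) ^ l * Z) {g a : G → ℂ} (hg : ∀ w, ‖g w‖ ≤ 1)
    (ha : ∀ w, ‖a w‖ ≤ 1) :
    ∑ k ∈ Icc (-(K : ℤ)) K,
      ‖(∑ p ∈ W, g (gp p) * chi k (gp p)) ^ l * ∑ b ∈ T, a b * chi k b‖ ^ 2 ≤
      1080 * ((l + M : ℕ) : ℝ) ^ l * (B : ℝ) ^ M * 4 ^ l * (Y : ℝ) ^ (2 * l) * Z * T.card := by
  have hY' : (0 : ℝ) < Y := by exact_mod_cast hY
  have hZ0 : 0 < Z := (mul_pos_iff_of_pos_left (pow_pos hY' l)).1 (by linarith)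
  have h2 : (1 : ℝ) ≤ 2 ^ l := one_le_pow₀ (by norm_num)
  have hX : (Y : ℝ) ^ l * Z ≤ (2 * Y : ℝ) ^ l * Z := by
    rw [mul_pow, mul_assoc]
    exact le_mul_of_one_le_left (by positivity) h2
  have MV := (fam_blk hS l hY hB hSB hWS hWY hZ hT).mean_value (h1.trans hX) K
    fun q => (∏ i, g (gp (q.1 i))) * a q.2
  have e : ∀ k : ℤ, ∑ q ∈ Fintype.piFinset (fun _ : Fin l => W) ×ˢ T,
      (∏ i, g (gp (q.1 i))) * a q.2 * chi k ((∏ i, gp (q.1 i)) * q.2) =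
      (∑ p ∈ W, g (gp p) * chi k (gp p)) ^ l * ∑ b ∈ T, a b * chi k b := fun k => by
    rw [show (∑ p ∈ W, g (gp p) * chi k (gp p)) ^ l =
      ∏ _i : Fin l, ∑ p ∈ W, g (gp p) * chi k (gp p) by simp]
    simp only [prod_univ_sum, sum_product, sum_mul_sum]
    refine sum_congr rfl fun x _ => sum_congr rfl fun t _ => ?_
    rw [chi_mul, chi_prod, prod_mul_distrib]
    ring
  simp only [e] at MV
  refine MV.trans ?_
  have s1 : √((2 * Y : ℝ) ^ l * Z / ((Y : ℝ) ^ l * Z₀)) ≤ 2 * 2 ^ l := by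
    rw [Real.sqrt_le_left (by positivity), div_le_iff₀ (by positivity), mul_pow]
    calc (2 : ℝ) ^ l * Y ^ l * Z ≤ 2 ^ l * Y ^ l * (2 * Z₀) := by gcongr
      _ = 2 * 2 ^ l * (Y ^ l * Z₀) := by ring
      _ ≤ (2 * 2 ^ l) ^ 2 * (Y ^ l * Z₀) := by
        gcongr
        nlinarith
  have s2 : K + (2 * Y : ℝ) ^ l * Z ≤ 2 * ((2 * Y : ℝ) ^ l * Z) := by linarith
  have s3 : ∑ q ∈ Fintype.piFinset (fun _ : Fin l => W) ×ˢ T,
      ‖(∏ i, g (gp (q.1 i))) * a q.2‖ ^ 2 ≤ (Y : ℝ) ^ l * T.card := by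
    refine (sum_le_card_nsmul _ _ 1 fun q _ => ?_).trans ?_
    · refine pow_le_one₀ (norm_nonneg _) ?_
      rw [norm_mul, norm_prod]
      exact mul_le_one₀ (prod_le_one (fun i _ => norm_nonneg _) fun i _ => hg _) (norm_nonneg _)
        (ha _)
    · rw [nsmul_eq_mul, mul_one, card_product, Fintype.card_piFinset, prod_const, card_univ,
        Fintype.card_fin]
      push_cast
      gcongr
      exact_mod_cast (card_le_card hWY).trans (card_PS_le Y)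
  calc _ ≤ 270 * (((l + M) ^ l : ℕ) : ℝ) * ((B ^ M : ℕ) : ℝ) * (2 * 2 ^ l) *
        (2 * ((2 * Y : ℝ) ^ l * Z)) * ((Y : ℝ) ^ l * T.card) := by gcongr
    _ = _ := by
      rw [show (4 : ℝ) = 2 * 2 by norm_num, mul_pow, mul_pow]
      push_cast
      ring

/-- Cauchy-Schwarz over the blocks. -/
lemma sum_Mn_le {J t₀ t₁ : ℕ} (hJ : 1 ≤ J) {N₁ N₂ α E : ℝ} (hα : 0 ≤ α) (hE : 0 ≤ E)
    (g a : G → ℂ) (U : Finset ℤ)
    (hQ : ∀ k ∈ U, ∀ v ∈ VV J t₀ t₁, ‖Qb g v k‖ ≤ (Yv v : ℝ) ^ (1 - α))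
    (hS : ∀ v ∈ VV J t₀ t₁,
      ∑ k ∈ U, ‖SA a (N₁ / Yv v) (N₂ / Yv v) k‖ ^ 2 ≤ E / (Yv v : ℝ) ^ 2) :
    ∑ k ∈ U, ‖Mn g a J t₀ t₁ N₁ N₂ k‖ ^ 2 ≤
      ((J * t₁ : ℕ) : ℝ) ^ 2 * E * ((J * 2 ^ t₀ : ℕ) : ℝ) ^ (-(2 * α)) := by
  have hc : ((VV J t₀ t₁).card : ℝ) ≤ (J * t₁ : ℕ) := by
    rw [card_VV]
    exact_mod_cast Nat.mul_le_mul_left J (Nat.sub_le _ _)
  have h0 : (0 : ℝ) < (J * 2 ^ t₀ : ℕ) := by
    have : 0 < J * 2 ^ t₀ := by positivity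
    exact_mod_cast this
  have h1 : ∀ k ∈ U, ‖Mn g a J t₀ t₁ N₁ N₂ k‖ ^ 2 ≤ (J * t₁ : ℕ) * ∑ v ∈ VV J t₀ t₁,
      ((Yv v : ℝ) ^ (1 - α)) ^ 2 * ‖SA a (N₁ / Yv v) (N₂ / Yv v) k‖ ^ 2 := fun k hk => by
    refine (pow_le_pow_left₀ (norm_nonneg _) (norm_sum_le _ _) 2).trans
      (sq_sum_le_card_mul_sum_sq.trans ?_)
    refine mul_le_mul hc (sum_le_sum fun v hv => ?_) (sum_nonneg fun _ _ => by positivity)
      (by positivity)
    rw [norm_mul, mul_pow]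
    have := hQ k hk v hv
    gcongr
  refine (sum_le_sum h1).trans ?_
  rw [← mul_sum, sum_comm, sq, mul_assoc, mul_assoc]
  refine mul_le_mul_of_nonneg_left ((sum_le_card_nsmul _ _
    (E * ((J * 2 ^ t₀ : ℕ) : ℝ) ^ (-(2 * α))) fun v hv => ?_).trans ?_) (by positivity)
  · have h2 : ((J * 2 ^ t₀ : ℕ) : ℝ) ≤ Yv v := by
      exact_mod_cast (Yv_bounds hv).1.trans (Yv_bounds hv).2.1
    have h3 : (0 : ℝ) < Yv v := h0.trans_le h2
    have h4 : ((Yv v : ℝ) ^ (1 - α)) ^ 2 = (Yv v : ℝ) ^ 2 * (Yv v : ℝ) ^ (-(2 * α)) := by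
      rw [← Real.rpow_natCast, ← Real.rpow_mul h3.le, ← Real.rpow_natCast, ← Real.rpow_add h3]
      congr 1
      push_cast
      ring
    rw [← mul_sum]
    calc _ ≤ ((Yv v : ℝ) ^ (1 - α)) ^ 2 * (E / (Yv v : ℝ) ^ 2) := by
          have := hS v hv
          gcongr
      _ = E * (Yv v : ℝ) ^ (-(2 * α)) := by
          rw [h4]
          field_simp
      _ ≤ _ := mul_le_mul_of_nonneg_left
          (Real.rpow_le_rpow_of_nonpos h0 h2 (by linarith)) hE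
  · rw [nsmul_eq_mul]
    gcongr

lemma An_facts {N N₁ N₂ Y : ℝ} (hN : 0 < N) (hY : 0 < Y) (h1 : N / 2 ≤ N₁) (h2 : N₂ ≤ N) {b : G}
    (hb : b ∈ An (N₁ / Y) (N₂ / Y)) :
    cont b = 1 ∧ N / Y / 2 ≤ nm b ∧ (nm b : ℝ) ≤ N / Y := by
  obtain ⟨a1, a2, a3⟩ := (mem_An (div_nonneg (by linarith) hY.le)).1 hb
  refine ⟨a1, le_trans ?_ a2.le, a3.trans (by gcongr)⟩
  rw [div_right_comm]
  gcongr

end MRaAux

open MRaAux

/-- Frequencies at which all the short polynomials of the first range are small. -/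
theorem range1 : ∃ C : ℝ, 0 < C ∧ ∀ (J t₀ t₁ K : ℕ) (N N₁ N₂ α : ℝ) (g a : G → ℂ) (U : Finset ℤ),
    1 ≤ J → 0 ≤ α → ((J * 2 ^ t₁ : ℕ) : ℝ) ≤ N → K * ((J * 2 ^ t₁ : ℕ) : ℝ) ≤ N →
    N / 2 ≤ N₁ → N₁ ≤ N₂ → N₂ ≤ N → (∀ w, ‖a w‖ ≤ 1) → U ⊆ Icc (-(K : ℤ)) K →
    (∀ k ∈ U, ∀ v ∈ VV J t₀ t₁, ‖Qb g v k‖ ≤ (Yv v : ℝ) ^ (1 - α)) →
    ∑ k ∈ U, ‖Mn g a J t₀ t₁ N₁ N₂ k‖ ^ 2 ≤
      C * ((J * t₁ : ℕ) : ℝ) ^ 2 * N ^ 2 * ((J * 2 ^ t₀ : ℕ) : ℝ) ^ (-(2 * α)) := by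
  refine ⟨9720, by norm_num, fun J t₀ t₁ K N N₁ N₂ α g a U hJ hα hN hK h1 h12 h2 ha hU hQ => ?_⟩
  refine (sum_Mn_le hJ hα (E := 9720 * N ^ 2) (by positivity) g a U hQ fun v hv => ?_).trans
    (le_of_eq (by ring))
  obtain ⟨b1, b2, b3⟩ := Yv_bounds hv
  have hY : (0 : ℝ) < Yv v := by
    have : 0 < J * 2 ^ v.2 := by positivity
    exact_mod_cast this.trans_le b2
  have hY1 : (Yv v : ℝ) ≤ (J * 2 ^ t₁ : ℕ) := by exact_mod_cast (Nat.le_add_right _ _).trans b3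
  have hN0 : 0 < N := hY.trans_le (hY1.trans hN)
  have M := mv_blk (S := ∅) (W := ∅) (Y := 1) (B := 1) (M := 0) (by simp) 0 one_pos le_rfl
    (by simp) Subset.rfl (empty_subset _) (T := An (N₁ / Yv v) (N₂ / Yv v))
    (Z₀ := N / Yv v / 2) (Z := N / Yv v) (by positivity) (by linarith)
    (fun b hb => by
      obtain ⟨c1, c2, c3⟩ := An_facts hN0 hY h1 h2 hb
      exact ⟨c1, c2, c3, by simp [Few]⟩) (K := K)
    (by rw [pow_zero, one_mul, one_le_div hY]; exact hY1.trans hN)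
    (by
      rw [pow_zero, one_mul, le_div_iff₀ hY]
      exact (mul_le_mul_of_nonneg_left hY1 (by positivity)).trans hK) ha ha
  simp only [pow_zero, one_mul, mul_zero, mul_one] at M
  refine (sum_le_sum_of_subset_of_nonneg hU fun _ _ _ => by positivity).trans (M.trans ?_)
  have h3 := card_An_le (N₁ / Yv v) (X := N₂ / Yv v) (div_nonneg (by linarith) hY.le)
  calc _ ≤ 1080 * (N / Yv v) * (9 * (N / Yv v)) := by
        gcongr
        exact h3.trans (by gcongr)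
    _ = _ := by ring

/-- Frequencies at which the second range is small and some block of the first range is large. -/
theorem range2 : ∃ C : ℝ, 0 < C ∧ ∀ (J t₀ t₁ s₀ s₁ l M K : ℕ) (N N₁ N₂ α₁ α₂ : ℝ) (g a : G → ℂ)
    (U : Finset ℤ), 1 ≤ J → 0 ≤ α₁ → 0 ≤ α₂ → J * 2 ^ s₁ ≤ (J * 2 ^ t₀) ^ l →
    ((J * 2 ^ s₁ : ℕ) : ℝ) ≤ N → K ≤ N → N / 2 ≤ N₁ → N₁ ≤ N₂ → N₂ ≤ N →
    (∀ w, ‖g w‖ ≤ 1) → (∀ w, ‖a w‖ ≤ 1) → (∀ w, a w ≠ 0 → Few (PR J t₀ t₁) M w) →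
    U ⊆ Icc (-(K : ℤ)) K →
    (∀ k ∈ U, (∀ v ∈ VV J s₀ s₁, ‖Qb g v k‖ ≤ (Yv v : ℝ) ^ (1 - α₂)) ∧
      ∃ u ∈ VV J t₀ t₁, (Yv u : ℝ) ^ (1 - α₁) < ‖Qb g u k‖) →
    ∑ k ∈ U, ‖Mn g a J s₀ s₁ N₁ N₂ k‖ ^ 2 ≤
      C * ((J * s₁ : ℕ) : ℝ) ^ 2 * (J * t₁ : ℕ) * ((l + M : ℕ) : ℝ) ^ l *
        ((J * 2 ^ t₁ : ℕ) : ℝ) ^ M * 4 ^ l * N ^ 2 * ((J * 2 ^ s₀ : ℕ) : ℝ) ^ (-(2 * α₂)) *
        ((J * 2 ^ t₁ : ℕ) : ℝ) ^ (2 * l * α₁) := by
  classical
  refine ⟨9720, by norm_num, fun J t₀ t₁ s₀ s₁ l M K N N₁ N₂ α₁ α₂ g a U hJ hα₁ hα₂ hl hN hK h1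
    h12 h2 hg ha hF hU hQ => ?_⟩
  set E : ℝ := 9720 * ((l + M : ℕ) : ℝ) ^ l * ((J * 2 ^ t₁ : ℕ) : ℝ) ^ M * 4 ^ l * N ^ 2 *
    ((J * 2 ^ t₁ : ℕ) : ℝ) ^ (2 * l * α₁) with hE
  have hE0 : 0 ≤ E := by positivity
  refine (sum_Mn_le hJ hα₂ (E := (J * t₁ : ℕ) * E) (by positivity) g a U (fun k hk => (hQ k hk).1)
    fun v hv => ?_).trans (le_of_eq (by rw [hE]; ring))
  obtain ⟨b1, b2, b3⟩ := Yv_bounds hv
  have hY : (0 : ℝ) < Yv v := by
    have : 0 < J * 2 ^ v.2 := by positivity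
    exact_mod_cast this.trans_le b2
  have hY1 : Yv v ≤ J * 2 ^ s₁ := (Nat.le_add_right _ _).trans b3
  have hN1 : (1 : ℝ) ≤ N := by
    refine le_trans ?_ hN
    have : 0 < J * 2 ^ s₁ := by positivity
    exact_mod_cast this
  set T := (An (N₁ / Yv v) (N₂ / Yv v)).filter fun b => a b ≠ 0 with hT
  have hSA : ∀ k, SA a (N₁ / Yv v) (N₂ / Yv v) k = ∑ b ∈ T, a b * chi k b := fun k =>
    (sum_filter_of_ne fun b _ hb => left_ne_zero_of_mul hb).symm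
  have hTc : (T.card : ℝ) ≤ 9 * (N / Yv v) := by
    have h3 := card_An_le (N₁ / Yv v) (X := N₂ / Yv v) (div_nonneg (by linarith) hY.le)
    refine le_trans (by exact_mod_cast card_filter_le _ _) (h3.trans ?_)
    gcongr
  have key : ∀ u ∈ VV J t₀ t₁, ∑ k ∈ U, ‖Qb g u k ^ l * SA a (N₁ / Yv v) (N₂ / Yv v) k‖ ^ 2 /
      (((Yv u : ℝ) ^ (1 - α₁)) ^ l) ^ 2 ≤ E / (Yv v : ℝ) ^ 2 := by
    intro u hu
    obtain ⟨c1, c2, c3⟩ := Yv_bounds hu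
    have hU0 : 0 < Yv u := lt_of_lt_of_le (by positivity) c2
    have hU0' : (0 : ℝ) < Yv u := by exact_mod_cast hU0
    have hU1 : (Yv u : ℝ) ≤ (J * 2 ^ t₁ : ℕ) := by exact_mod_cast (Nat.le_add_right _ _).trans c3
    have hN2 : N ≤ (Yv u : ℝ) ^ l * (N / Yv v) := by
      rw [mul_div_assoc', le_div_iff₀ hY, mul_comm]
      refine mul_le_mul_of_nonneg_right ?_ (by linarith)
      exact_mod_cast hY1.trans (hl.trans (Nat.pow_le_pow_left (c1.trans c2) l))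
    have MV := mv_blk (S := PR J t₀ t₁) (W := blk u) (Y := Yv u) (B := J * 2 ^ t₁) (M := M)
      (fun p hp => (mem_PR.1 hp).2) l hU0 (Nat.one_le_iff_ne_zero.2 (by positivity))
      (fun p hp => (mem_PR.1 hp).1.2) (blk_subset_PR hu)
      (blk_subset_PS (hJ.trans (mem_VV.1 hu).1.1)) (T := T)
      (Z₀ := N / Yv v / 2) (Z := N / Yv v) (by positivity) (by linarith)
      (fun b hb => by
        obtain ⟨d1, d2, d3⟩ := An_facts (by linarith) hY h1 h2 (mem_filter.1 hb).1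
        exact ⟨d1, d2, d3, hF b (mem_filter.1 hb).2⟩) (K := K) (hN1.trans hN2) (hK.trans hN2) hg ha
    have e : (((Yv u : ℝ) ^ (1 - α₁)) ^ l) ^ 2 * (Yv u : ℝ) ^ (2 * l * α₁) =
        (Yv u : ℝ) ^ (2 * l) := by
      rw [← pow_mul, ← Real.rpow_natCast, ← Real.rpow_mul hU0'.le, ← Real.rpow_add hU0',
        ← Real.rpow_natCast]
      congr 1
      push_cast
      ring
    rw [← sum_div, div_le_iff₀ (by positivity)]
    simp only [hSA]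
    refine (sum_le_sum_of_subset_of_nonneg hU fun _ _ _ => by positivity).trans (MV.trans ?_)
    rw [← e]
    calc _ ≤ 1080 * ((l + M : ℕ) : ℝ) ^ l * ((J * 2 ^ t₁ : ℕ) : ℝ) ^ M * 4 ^ l *
          ((((Yv u : ℝ) ^ (1 - α₁)) ^ l) ^ 2 * ((J * 2 ^ t₁ : ℕ) : ℝ) ^ (2 * l * α₁)) *
          (N / Yv v) * (9 * (N / Yv v)) := by gcongr
      _ = _ := by rw [hE]; ring
  have h4 : ∀ k ∈ U, ‖SA a (N₁ / Yv v) (N₂ / Yv v) k‖ ^ 2 ≤ ∑ u ∈ VV J t₀ t₁,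
      ‖Qb g u k ^ l * SA a (N₁ / Yv v) (N₂ / Yv v) k‖ ^ 2 /
        (((Yv u : ℝ) ^ (1 - α₁)) ^ l) ^ 2 := fun k hk => by
    obtain ⟨u, hu, hlt⟩ := (hQ k hk).2
    refine le_trans ?_ (single_le_sum (f := fun u => ‖Qb g u k ^ l *
      SA a (N₁ / Yv v) (N₂ / Yv v) k‖ ^ 2 / (((Yv u : ℝ) ^ (1 - α₁)) ^ l) ^ 2)
      (fun _ _ => by positivity) hu)
    have hU0 : (0 : ℝ) < Yv u := by
      have : 0 < Yv u := lt_of_lt_of_le (by positivity) (Yv_bounds hu).2.1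
      exact_mod_cast this
    rw [le_div_iff₀ (by positivity), norm_mul, norm_pow, mul_pow, mul_comm]
    have := hlt.le
    gcongr
  refine (sum_le_sum h4).trans ?_
  rw [sum_comm]
  refine (sum_le_card_nsmul _ _ _ key).trans ?_
  rw [nsmul_eq_mul, card_VV, mul_div_assoc ((J * t₁ : ℕ) : ℝ)]
  refine mul_le_mul_of_nonneg_right ?_ (by positivity)
  exact_mod_cast Nat.mul_le_mul_left J (Nat.sub_le _ _)

/-- Large values of a short prime polynomial are rare. -/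
theorem card_large_blk {g : G → ℂ} (hg : ∀ w, ‖g w‖ ≤ 1) {v : ℕ × ℕ} (hv : 1 ≤ v.1) {N : ℕ}
    (h2 : 2 ≤ Yv v) (hN : Yv v ≤ N) {α : ℝ} (hα : 0 < α) (hl : 16 * Real.log N ≤ (Yv v : ℝ) ^ α)
    (U : Finset ℤ) (hU : ∀ k ∈ U, k ∈ Icc (-(N : ℤ)) N ∧ (Yv v : ℝ) ^ (1 - α) < ‖Qb g v k‖) :
    (U.card : ℝ) ≤ 1080 * (N : ℝ) ^ (6 * α) := by
  have hW := blk_subset_PS hv
  simp only [Qb] at hU
  generalize Yv v = Y at *
  have hY' : (2 : ℝ) ≤ Y := by exact_mod_cast h2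
  have hYN' : (Y : ℝ) ≤ N := by exact_mod_cast hN
  set n := Nat.log Y N with hn'
  have h1 : (Y : ℝ) ^ n ≤ N := by exact_mod_cast Nat.pow_log_le_self Y (by omega : N ≠ 0)
  have h3 : (N : ℝ) ≤ Y ^ (n + 1) := by
    exact_mod_cast (Nat.lt_pow_succ_log_self (by omega) N).le
  have MV := mv_blk (S := PS Y) (W := blk v) (Y := Y) (B := 2 * Y) (M := 0)
    (fun p hp => (mem_PS.1 hp).2) (n + 1) (by omega) (by omega) (fun p hp => (mem_PS.1 hp).1.2)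
    hW hW (T := {1}) (Z₀ := 1) (Z := 1) one_pos (by norm_num)
    (fun b hb => by
      rw [mem_singleton.1 hb]
      refine ⟨by simp [cont], by simp, by simp, fun p hp => ?_, ?_⟩
      · simpa using (mem_PS.1 hp).2.1.ne_one
      · rw [Nat.le_zero, card_eq_zero, filter_eq_empty_iff]
        intro p hp
        simpa using (mem_PS.1 hp).2.1.ne_one) (K := N)
    (by rw [mul_one]; linarith) (by rwa [mul_one]) hg (a := fun _ => 1) (by simp)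
  simp only [sum_singleton, chi_one, mul_one, add_zero, pow_zero, card_singleton, Nat.cast_one]
    at MV
  have h4 : U.card * (((Y : ℝ) ^ (1 - α)) ^ (n + 1)) ^ 2 ≤ ∑ k ∈ Icc (-(N : ℤ)) N,
      ‖(∑ p ∈ blk v, g (gp p) * chi k (gp p)) ^ (n + 1)‖ ^ 2 := by
    rw [← nsmul_eq_mul]
    refine (card_nsmul_le_sum U (fun k => ‖(∑ p ∈ blk v, g (gp p) * chi k (gp p)) ^ (n + 1)‖ ^ 2)
      _ fun k hk => ?_).trans
      (sum_le_sum_of_subset_of_nonneg (fun k hk => (hU k hk).1) fun _ _ _ => by positivity)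
    rw [norm_pow]
    have := (hU k hk).2.le
    gcongr
  have h5 : ((n + 1 : ℕ) : ℝ) * 4 ≤ (Y : ℝ) ^ α := by
    have a := Real.log_le_log (by positivity) h1
    have b := Real.log_le_log (by positivity) hYN'
    have c := Real.log_le_log (by positivity) hY'
    have d := Real.log_two_gt_d9
    rw [Real.log_pow] at a
    have e : ((n : ℝ) + 1) * (1 / 2) ≤ ((n : ℝ) + 1) * Real.log Y := by
      gcongr
      linarith
    push_cast
    linarith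
  have h6 : ((Y : ℝ) ^ (3 * α)) ^ (n + 1) ≤ (N : ℝ) ^ (6 * α) := by
    rw [← Real.rpow_natCast, ← Real.rpow_mul (by positivity), mul_comm,
      Real.rpow_mul (by positivity), Real.rpow_natCast, show 6 * α = 2 * (3 * α) by ring,
      Real.rpow_mul (x := N) (by positivity)]
    refine Real.rpow_le_rpow (by positivity) ?_ (by positivity)
    rw [pow_succ, Real.rpow_two, sq]
    gcongr
  have h7 : (Y : ℝ) ^ α * Y ^ 2 = (Y : ℝ) ^ (3 * α) * ((Y : ℝ) ^ (1 - α)) ^ 2 := by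
    have h0 : (0 : ℝ) < Y := by linarith
    rw [← Real.rpow_natCast, ← Real.rpow_natCast, ← Real.rpow_mul h0.le, ← Real.rpow_add h0,
      ← Real.rpow_add h0]
    congr 1
    push_cast
    ring
  refine le_of_mul_le_mul_right (h4.trans (MV.trans ?_)) (by positivity)
  calc _ = 1080 * (((n + 1 : ℕ) : ℝ) * 4 * Y ^ 2) ^ (n + 1) := by
        rw [mul_pow, mul_pow, ← pow_mul]; ring
    _ ≤ 1080 * ((Y : ℝ) ^ α * Y ^ 2) ^ (n + 1) := by gcongr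
    _ = 1080 * ((Y : ℝ) ^ (3 * α)) ^ (n + 1) * (((Y : ℝ) ^ (1 - α)) ^ (n + 1)) ^ 2 := by
        rw [h7, mul_pow]; ring
    _ ≤ _ := by gcongr

end Pool.Agent.P.MP_a1177c_nt.LC
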