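import Pool.Agent.P.MP_a1177c_nt.LC.Blocks
import Pool.Agent.P.MP_a1177c_nt.MR.Spectral
import Pool.Agent.P.MP_a1177c_nt.MR.Selberg

namespace Pool.Agent.P.MP_a1177c_nt.LC

open Finset Filter MR MR.StructAux
open scoped ComplexConjugate Topology

/-- Large values of prime polynomials with arbitrary bounded coefficients. -/
theorem lv_primes (A : ℕ) : ∃ C : ℝ, 0 < C ∧ ∀ η : ℝ, 0 < η → ∀ᶠ Y : ℕ in atTop,
    ∀ (c : ℕ → ℂ) (U : Finset ℤ), (∀ p, ‖c p‖ ≤ 1) →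
      (∀ k ∈ U, ∀ l ∈ U, ((k : ℝ) - l) ^ 2 ≤ (Y : ℝ) ^ A) →
      (∀ k ∈ U, η * Y / Real.log Y ≤ ‖∑ p ∈ PS Y, c p * chi k (gp p)‖) →
      (U.card : ℝ) ≤ C / η ^ 2 := by
  classical
  obtain ⟨C, hC, h⟩ := Selb.majorant A
  refine ⟨6 * C, by positivity, fun η hη => ?_⟩
  filter_upwards [h (η ^ 2 / 6) (by positivity), eventually_ge_atTop 2] with Y hY hY2 c U hc hU hQ
  obtain ⟨ν, h0, h1, hM, hE⟩ := hY
  have hY : (2 : ℝ) ≤ Y := by exact_mod_cast hY2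
  have hl : 0 < Real.log Y := Real.log_pos (by linarith)
  have hP := card_PS_upper hY2
  simp only [mul_div_assoc] at hM hE hQ hP
  set t := (Y : ℝ) / Real.log Y with ht
  have ht0 : 0 < t := by positivity
  have hinj : Set.InjOn gp (PS Y) := fun p hp q hq h => by
    obtain ⟨-, h2, h3⟩ := mem_PS.1 hp
    obtain ⟨-, h2', h3'⟩ := mem_PS.1 hq
    rw [← nm_gp h2 h3, h, nm_gp h2' h3']
  have hsub : (PS Y).image gp ⊆ disc (2 * Y) := fun a ha => by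
    obtain ⟨p, hp, rfl⟩ := mem_image.1 ha
    obtain ⟨⟨-, h4⟩, h2, h3⟩ := mem_PS.1 hp
    exact mem_disc.2 ⟨gp_ne_zero h2 h3, by rwa [nm_gp h2 h3]⟩
  have hvv : ∀ k l : ℤ, ∑ m ∈ disc (2 * Y), ((√(ν m) : ℝ) : ℂ) * chi k m *
      conj (((√(ν m) : ℝ) : ℂ) * chi l m) = ∑ m ∈ disc (2 * Y), (ν m : ℂ) * chi (k - l) m :=
    fun k l => sum_congr rfl fun m hm => by
      have e : ((√(ν m) : ℝ) : ℂ) * ((√(ν m) : ℝ) : ℂ) = (ν m : ℂ) := by
        rw [← Complex.ofReal_mul, Real.mul_self_sqrt (h0 m)]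
      rw [map_mul, Complex.conj_ofReal, ← chi_mul_conj k l (mem_disc.1 hm).1, ← e]
      ring
  have H := Lib.LargeSieve.halasz U (disc (2 * Y)) (fun k a => ((√(ν a) : ℝ) : ℂ) * chi k a)
    (fun a => if a ∈ (PS Y).image gp then c (nm a) else 0) (C * t + U.card * (η ^ 2 / 6 * t))
    (by positivity) fun k hk => by
      simp only [hvv]
      rw [← add_sum_erase _ _ hk]
      refine add_le_add ?_ ((sum_le_card_nsmul _ _ (η ^ 2 / 6 * t) fun l hl => ?_).trans ?_)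
      · simp only [sub_self, chi_zero, mul_one]
        rw [← Complex.ofReal_sum, Complex.norm_real, Real.norm_eq_abs,
          abs_of_nonneg (sum_nonneg fun a _ => h0 a)]
        exact hM
      · exact hE (k - l) (sub_ne_zero.2 (ne_of_mem_erase hl).symm)
          (by push_cast; exact hU k hk l (mem_of_mem_erase hl))
      · rw [nsmul_eq_mul]; gcongr; exact erase_subset _ _
  have e1 : ∀ k : ℤ, ∑ m ∈ disc (2 * Y), (if m ∈ (PS Y).image gp then c (nm m) else 0) *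
      (((√(ν m) : ℝ) : ℂ) * chi k m) = ∑ p ∈ PS Y, c p * chi k (gp p) := fun k => by
    simp only [ite_mul, zero_mul, sum_ite_mem, inter_eq_right.2 hsub]
    rw [sum_image hinj]
    refine sum_congr rfl fun p hp => ?_
    obtain ⟨-, h2, h3⟩ := mem_PS.1 hp
    rw [h1 p hp, nm_gp h2 h3]; simp
  have e2 : ∑ m ∈ disc (2 * Y), ‖if m ∈ (PS Y).image gp then c (nm m) else 0‖ ^ 2 ≤ 3 * t := by
    calc _ ≤ ∑ m ∈ disc (2 * Y), if m ∈ (PS Y).image gp then (1 : ℝ) else 0 := by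
          refine sum_le_sum fun m _ => ?_
          split_ifs
          · exact pow_le_one₀ (norm_nonneg _) (hc _)
          · simp
      _ ≤ 3 * t := by
          rw [sum_ite_mem, inter_eq_right.2 hsub, sum_const, nsmul_eq_mul, mul_one]
          exact le_trans (by exact_mod_cast card_image_le) hP
  simp only [e1] at H
  have h2 : (U.card : ℝ) * (η * t) ^ 2 ≤ ∑ k ∈ U, ‖∑ p ∈ PS Y, c p * chi k (gp p)‖ ^ 2 := by
    rw [← nsmul_eq_mul]
    exact card_nsmul_le_sum _ _ _ fun k hk => pow_le_pow_left₀ (by positivity) (hQ k hk) 2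
  have h3 : (U.card : ℝ) * (η * t) ^ 2 ≤ (C * t + U.card * (η ^ 2 / 6 * t)) * (3 * t) :=
    h2.trans (H.trans (mul_le_mul_of_nonneg_left e2 (by positivity)))
  rw [le_div_iff₀ (by positivity)]
  have h4 : t ^ 2 * (U.card * η ^ 2) ≤ t ^ 2 * (6 * C) := by nlinarith
  exact le_of_mul_le_mul_left h4 (by positivity)

namespace MRbAux

/-- An annulus is a difference of two discs. -/
lemma SA_split (g : G → ℂ) {X₀ X : ℝ} (h0 : 0 ≤ X₀) (h : X₀ ≤ X) (k : ℤ) :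
    SA g X₀ X k = SA g 0 (⌊X⌋₊ : ℕ) k - SA g 0 (⌊X₀⌋₊ : ℕ) k := by
  classical
  have hs : An 0 (⌊X₀⌋₊ : ℕ) ⊆ An 0 (⌊X⌋₊ : ℕ) := fun w hw => by
    rw [mem_An le_rfl] at hw ⊢
    exact ⟨hw.1, hw.2.1, hw.2.2.trans (by exact_mod_cast Nat.floor_le_floor h)⟩
  have he : An X₀ X = An 0 (⌊X⌋₊ : ℕ) \ An 0 (⌊X₀⌋₊ : ℕ) := by
    ext w
    rw [Finset.mem_sdiff, mem_An h0, mem_An le_rfl, mem_An le_rfl, Nat.cast_le, Nat.cast_le,
      Nat.le_floor_iff h0, Nat.le_floor_iff (h0.trans h)]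
    constructor
    · rintro ⟨h1, h2, h3⟩
      exact ⟨⟨h1, h0.trans_lt h2, h3⟩, fun h4 => absurd h4.2.2 (not_le.2 h2)⟩
    · rintro ⟨⟨h1, h2, h3⟩, h4⟩
      exact ⟨h1, not_le.1 fun h5 => h4 ⟨h1, h2, h5⟩, h3⟩
  rw [SA, SA, SA, he, eq_sub_iff_add_eq, sum_sdiff hs]

/-- Cauchy-Schwarz with weights. -/
lemma weighted {ι κ : Type*} (V : Finset ι) (U : Finset κ) (T : ι → κ → ℂ) (w : ι → ℝ) {B : ℝ}
    (hw : ∀ v ∈ V, 0 < w v) (hT : ∀ v ∈ V, ∑ k ∈ U, ‖T v k‖ ^ 2 ≤ B * w v ^ 2) :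
    ∑ k ∈ U, ‖∑ v ∈ V, T v k‖ ^ 2 ≤ B * (∑ v ∈ V, w v) ^ 2 := by
  have hW : 0 ≤ ∑ v ∈ V, w v := sum_nonneg fun v hv => (hw v hv).le
  calc _ ≤ ∑ k ∈ U, (∑ v ∈ V, w v) * ∑ v ∈ V, ‖T v k‖ ^ 2 / w v := by
        refine sum_le_sum fun k _ => ?_
        refine (pow_le_pow_left₀ (norm_nonneg _) (norm_sum_le _ _) 2).trans ?_
        refine sum_sq_le_sum_mul_sum_of_sq_le_mul V (fun v hv => (hw v hv).le)
          (fun v hv => div_nonneg (sq_nonneg _) (hw v hv).le) fun v hv => le_of_eq ?_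
        have := (hw v hv).ne'
        field_simp
    _ = (∑ v ∈ V, w v) * ∑ v ∈ V, (∑ k ∈ U, ‖T v k‖ ^ 2) / w v := by
        rw [← mul_sum, sum_comm]
        simp only [sum_div]
    _ ≤ (∑ v ∈ V, w v) * ∑ v ∈ V, B * w v := by
        refine mul_le_mul_of_nonneg_left (sum_le_sum fun v hv => ?_) hW
        rw [div_le_iff₀ (hw v hv)]
        exact (hT v hv).trans (le_of_eq (by ring))
    _ = _ := by rw [← mul_sum]; ring

lemma floor_ge {N N₁ Y : ℝ} (hN : 1 ≤ N) (h4 : 4 ≤ N ^ ((3 : ℝ) / 20)) (hY : 0 < Y)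
    (hYN : Y ^ 10 ≤ N) (h1 : N / 2 ≤ N₁) : N ^ ((3 : ℝ) / 4) ≤ (⌊N₁ / Y⌋₊ : ℕ) := by
  have hN0 : 0 < N := by linarith
  have a1 : Y ≤ N ^ ((1 : ℝ) / 10) := by
    refine le_of_pow_le_pow_left₀ (n := 10) (by norm_num) (by positivity) ?_
    rw [← Real.rpow_natCast (N ^ _), ← Real.rpow_mul hN0.le]
    norm_num
    exact hYN
  have a2 : N ^ ((3 : ℝ) / 4) * N ^ ((3 : ℝ) / 20) * N ^ ((1 : ℝ) / 10) = N := by
    rw [← Real.rpow_add hN0, ← Real.rpow_add hN0]; norm_num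
  have a3 : 1 ≤ N ^ ((3 : ℝ) / 4) := Real.one_le_rpow hN (by norm_num)
  have a4 : 2 * N ^ ((3 : ℝ) / 4) ≤ N₁ / Y := by
    rw [le_div_iff₀ hY]
    have : N ^ ((3 : ℝ) / 4) * 4 * Y ≤ N := by
      calc _ ≤ N ^ ((3 : ℝ) / 4) * N ^ ((3 : ℝ) / 20) * N ^ ((1 : ℝ) / 10) := by gcongr
        _ = N := a2
    linarith
  have a5 := Nat.lt_floor_add_one (N₁ / Y)
  linarith

lemma Qb_eq (g : G → ℂ) {v : ℕ × ℕ} (hv : 1 ≤ v.1) (k : ℤ) :
    Qb g v k = ∑ p ∈ PS (Yv v), (if p ∈ blk v then g (gp p) else 0) * chi k (gp p) := by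
  simp only [ite_mul, zero_mul, sum_ite_mem, inter_eq_right.2 (blk_subset_PS hv), Qb]

lemma norm_Qb_le {g : G → ℂ} (hg : ∀ w, ‖g w‖ ≤ 1) {v : ℕ × ℕ} (hv : 1 ≤ v.1) (h2 : 2 ≤ Yv v)
    (k : ℤ) : ‖Qb g v k‖ ≤ 3 * Yv v / Real.log (Yv v) := by
  refine le_trans ?_ (card_PS_upper h2)
  refine (norm_sum_le _ _).trans ((sum_le_card_nsmul _ _ 1 fun p hp => ?_).trans ?_)
  · obtain ⟨-, h3, h4⟩ := mem_blk.1 hp
    rw [norm_mul, norm_chi k (gp_ne_zero h3 h4), mul_one]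
    exact hg _
  · rw [nsmul_eq_mul, mul_one]
    exact_mod_cast card_le_card (blk_subset_PS hv)

end MRbAux

open MRbAux in
/-- The exceptional frequencies. -/
theorem range3 : ∃ c : ℝ, 0 < c ∧ c ≤ 1 ∧ ∀ (g : G → ℂ) (J A : ℕ) (ε : ℝ), (∀ w, ‖g w‖ ≤ 1) → HS g →
    1 ≤ J → 0 < ε → ∀ᶠ N : ℝ in atTop, ∀ (t₀ t₁ : ℕ) (N₁ N₂ : ℝ) (U : Finset ℤ),
      ((J * 2 ^ t₁ : ℕ) : ℝ) ^ 10 ≤ N → N ≤ ((2 : ℝ) ^ t₀) ^ A → N / 2 ≤ N₁ → N₁ ≤ N₂ → N₂ ≤ N →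
      (∀ k ∈ U, |(k : ℝ)| ≤ N) → (U.card : ℝ) ≤ N ^ c →
      ∑ k ∈ U, ‖Mn g g J t₀ t₁ N₁ N₂ k‖ ^ 2 ≤ ε * LL J t₀ t₁ ^ 2 * N ^ 2 := by
  classical
  obtain ⟨c, CE, hc0, hc1, hCE, hexp⟩ := expsum 3
  refine ⟨c / 2, by positivity, by linarith, fun g J A ε hg hHS hJ hε => ?_⟩
  obtain ⟨C, hC, hlv⟩ := lv_primes (3 * A)
  have hJ0 : (0 : ℝ) < J := by exact_mod_cast hJ
  set δ := ε / (256 * (J : ℝ) ^ 2) with hδ
  have hδ0 : 0 < δ := by positivity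
  set η := √(δ / 720) with hη
  have hη0 : 0 < η := by positivity
  have hη2 : η ^ 2 = δ / 720 := Real.sq_sqrt (by positivity)
  set θ := η * √(δ / (72 * C)) with hθ
  have hθ0 : 0 < θ := by positivity
  have hθ2 : θ ^ 2 = η ^ 2 * (δ / (72 * C)) := by
    rw [hθ, mul_pow, Real.sq_sqrt (show 0 ≤ δ / (72 * C) by positivity)]
  obtain ⟨Y₀, hY₀⟩ := eventually_atTop.1 ((hlv η hη0).and (eventually_ge_atTop 2))
  obtain ⟨y₀, hy₀⟩ := eventually_atTop.1 ((hHS θ hθ0).and (eventually_ge_atTop 2))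
  obtain ⟨T₀, hT₀⟩ := eventually_atTop.1 (sum_inv_log_le_LL hJ)
  filter_upwards [eventually_ge_atTop (4 : ℝ), eventually_gt_atTop ((Y₀ : ℝ) ^ A),
    eventually_gt_atTop (((2 : ℝ) ^ T₀) ^ A),
    (tendsto_rpow_atTop (show (0 : ℝ) < 3 / 20 by norm_num)).eventually_ge_atTop 4,
    (tendsto_rpow_atTop (show (0 : ℝ) < 3 / 4 by norm_num)).eventually_ge_atTop (y₀ : ℝ),
    (tendsto_rpow_atTop (show (0 : ℝ) < c / 4 by positivity)).eventually_ge_atTop CE]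
    with N hN4 hNY hNT hN20 hNy hNC t₀ t₁ N₁ N₂ U ht₁ ht₀ h1 h12 h2 hU hUc
  have hN0 : 0 < N := by linarith
  have hN1 : 1 ≤ N := by linarith
  have hT : T₀ ≤ t₀ := by
    have a := lt_of_pow_lt_pow_left₀ A (by positivity) (hNT.trans_le ht₀)
    exact ((pow_lt_pow_iff_right₀ (by norm_num)).1 a).le
  have hY2 : Y₀ ≤ 2 ^ t₀ := by
    have a := lt_of_pow_lt_pow_left₀ A (by positivity) (hNY.trans_le ht₀)
    exact_mod_cast a.le
  have hUU : ∀ k ∈ U, ∀ l ∈ U, |(k : ℝ) - l| ≤ 2 * N := fun k hk l hl =>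
    (abs_sub _ _).trans (by linarith [hU k hk, hU l hl])
  have key : ∀ v ∈ VV J t₀ t₁, 0 < 1 / Real.log (Yv v) ∧
      ∑ k ∈ U, ‖Qb g v k * SA g (N₁ / Yv v) (N₂ / Yv v) k‖ ^ 2 ≤
        δ * N ^ 2 * (1 / Real.log (Yv v)) ^ 2 := fun v hv => by
    obtain ⟨b1, b2, b3⟩ := Yv_bounds hv
    have hv1 : 1 ≤ v.1 := hJ.trans (mem_VV.1 hv).1.1
    have b4 : 2 ^ t₀ ≤ Yv v := (Nat.le_mul_of_pos_left _ hJ).trans (b1.trans b2)
    obtain ⟨L1, L2⟩ := hY₀ (Yv v) (hY2.trans b4)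
    have hQ := Qb_eq g hv1
    have hQn := norm_Qb_le hg hv1 L2
    set Y := Yv v with hY
    have hYr : (2 : ℝ) ≤ Y := by exact_mod_cast L2
    have hY0 : (0 : ℝ) < Y := by linarith
    have hl : 0 < Real.log Y := Real.log_pos (by linarith)
    refine ⟨by positivity, ?_⟩
    have hYN : (Y : ℝ) ^ 10 ≤ N := by
      refine le_trans (pow_le_pow_left₀ hY0.le ?_ 10) ht₁
      exact_mod_cast (Nat.le_add_right _ _).trans b3
    have f1 := floor_ge hN1 hN20 hY0 hYN h1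
    have f2 := floor_ge hN1 hN20 hY0 hYN (h1.trans h12)
    have hN₁ : 0 ≤ N₁ := by linarith
    have hsq : ∀ y : ℕ, N ^ ((3 : ℝ) / 4) ≤ y → N ≤ (y : ℝ) ^ 2 := fun y hy => by
      calc N = N ^ (1 : ℝ) := (Real.rpow_one N).symm
        _ ≤ N ^ ((3 : ℝ) / 4 * (2 : ℕ)) := Real.rpow_le_rpow_of_exponent_le hN1 (by norm_num)
        _ = (N ^ ((3 : ℝ) / 4)) ^ 2 := by rw [Real.rpow_mul hN0.le, Real.rpow_natCast]
        _ ≤ _ := by gcongr
    have hS : ∀ y : ℕ, N ^ ((3 : ℝ) / 4) ≤ y → (y : ℝ) ≤ N / Y → ∀ k ∈ U,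
        ‖SA g 0 y k‖ ≤ θ * (N / Y) := fun y hy hy' k hk => by
      refine ((hy₀ y (by exact_mod_cast hNy.trans hy)).1 k ((hU k hk).trans (hsq y hy))).trans ?_
      gcongr
    have u1 : ((⌊N₁ / Y⌋₊ : ℕ) : ℝ) ≤ N / Y :=
      (Nat.floor_le (by positivity)).trans (by gcongr; exact h12.trans h2)
    have u2 : ((⌊N₂ / Y⌋₊ : ℕ) : ℝ) ≤ N / Y :=
      (Nat.floor_le (div_nonneg (hN₁.trans h12) hY0.le)).trans (by gcongr)
    set y := ⌊N₂ / Y⌋₊ with hy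
    have hy2 : 2 ≤ y := (hy₀ y (by exact_mod_cast hNy.trans f2)).2
    have hy2' : (2 : ℝ) ≤ y := by exact_mod_cast hy2
    have hy0 : (0 : ℝ) < y := by linarith
    have H := onU U (An (N₁ / Y) (N₂ / Y)) g (y := y) (An_subset_disc _ _)
      (fun b _ => (hg b).trans one_le_two) (E := CE * (y : ℝ) ^ (1 - c)) (by positivity)
      (fun k hk l hl hkl => hexp y (k - l) (by omega) (sub_ne_zero.2 hkl) (by
        push_cast
        have := hsq y f2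
        calc _ ≤ 2 * N := hUU k hk l hl
          _ ≤ y * (y : ℝ) ^ 2 := by gcongr
          _ = _ := by ring))
      (by
        have e1 : N ^ (c / 2) * N ^ (c / 4) = (N ^ ((3 : ℝ) / 4)) ^ c := by
          rw [← Real.rpow_add hN0, ← Real.rpow_mul hN0.le]; ring_nf
        have e2 : (y : ℝ) ^ c * (y : ℝ) ^ (1 - c) = y := by
          rw [← Real.rpow_add hy0]; simp
        calc (U.card : ℝ) * (CE * (y : ℝ) ^ (1 - c))
            ≤ N ^ (c / 2) * (N ^ (c / 4) * (y : ℝ) ^ (1 - c)) := by gcongr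
          _ = (N ^ ((3 : ℝ) / 4)) ^ c * (y : ℝ) ^ (1 - c) := by rw [← mul_assoc, e1]
          _ ≤ (y : ℝ) ^ c * (y : ℝ) ^ (1 - c) := by gcongr
          _ = y := e2)
      (Qb g v) (s := η * Y / Real.log Y) (n := C / η ^ 2) (ρ := 2 * θ * (N / Y)) hQn
      (L1 (fun p => if p ∈ blk v then g (gp p) else 0) _
        (fun p => by split_ifs; exacts [hg _, by simp])
        (fun k hk l hl => by
          have a := hUU k (mem_filter.1 hk).1 l (mem_filter.1 hl).1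
          have b : ((2 : ℝ) ^ t₀) ≤ Y := by exact_mod_cast b4
          have d : N ≤ (Y : ℝ) ^ A := ht₀.trans (by gcongr)
          calc ((k : ℝ) - l) ^ 2 = |(k : ℝ) - l| ^ 2 := (sq_abs _).symm
            _ ≤ (2 * N) ^ 2 := by gcongr
            _ = 4 * N ^ 2 := by ring
            _ ≤ N * N ^ 2 := by gcongr
            _ = N ^ 3 := by ring
            _ ≤ ((Y : ℝ) ^ A) ^ 3 := by gcongr
            _ = _ := by ring)
        fun k hk => by rw [← hQ]; exact (mem_filter.1 hk).2)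
      (fun k hk => by
        have e := SA_split g (div_nonneg hN₁ hY0.le) (show N₁ / Y ≤ N₂ / Y by gcongr) k
        rw [SA] at e
        rw [e]
        refine (norm_sub_le _ _).trans ?_
        linarith [hS _ f1 u1 k hk, hS _ f2 u2 k hk])
    refine H.trans ?_
    calc _ ≤ (η * Y / Real.log Y) ^ 2 * (360 * (N / Y) ^ 2) +
          C / η ^ 2 * (3 * Y / Real.log Y * (2 * θ * (N / Y))) ^ 2 := by gcongr
      _ = (360 * η ^ 2 + 36 * C * θ ^ 2 / η ^ 2) * N ^ 2 * (1 / Real.log Y) ^ 2 := by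
          field_simp; ring
      _ = _ := by
          have : 360 * η ^ 2 + 36 * C * θ ^ 2 / η ^ 2 = δ := by
            rw [hθ2]; field_simp; rw [hη2]; ring
          rw [this]
  have W := weighted (VV J t₀ t₁) U (fun v k => Qb g v k * SA g (N₁ / Yv v) (N₂ / Yv v) k)
    (fun v => 1 / Real.log (Yv v)) (fun v hv => (key v hv).1) fun v hv => (key v hv).2
  refine W.trans ?_
  have hW0 : 0 ≤ ∑ v ∈ VV J t₀ t₁, 1 / Real.log (Yv v) := sum_nonneg fun v hv => (key v hv).1.le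
  calc _ ≤ δ * N ^ 2 * (16 * J * LL J t₀ t₁) ^ 2 := by gcongr; exact hT₀ t₀ hT t₁
    _ = _ := by rw [hδ]; field_simp; ring

end Pool.Agent.P.MP_a1177c_nt.LC
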