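import Pool.Agent.P.MP_a1177c_nt.LC.TK
import Pool.Agent.P.MP_a1177c_nt.LC.MRa
import Pool.Agent.P.MP_a1177c_nt.LC.MRb

namespace Pool.Agent.P.MP_a1177c_nt.LC

open Finset Filter MR MR.StructAux
open scoped ComplexConjugate Topology

namespace MRMainAux

theorem ev_scale {P : ℕ → Prop} (hP : ∀ᶠ t in atTop, P t) {b : ℕ} (hb : 2 ≤ b) :
    ∀ᶠ x : ℝ in atTop, ∃ t, P t ∧ (b : ℝ) ^ t ≤ x ∧ x < (b : ℝ) ^ (t + 1) := by
  obtain ⟨t₀, ht₀⟩ := eventually_atTop.1 hP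
  filter_upwards [eventually_ge_atTop ((b : ℝ) ^ t₀)] with x hx
  have hb1 : 1 < b := by omega
  have h1 : b ^ t₀ ≤ ⌊x⌋₊ := Nat.le_floor (by exact_mod_cast hx)
  have hpos : 0 < b ^ t₀ := by positivity
  have hx0 : 0 ≤ x := le_trans (by positivity) hx
  refine ⟨Nat.log b ⌊x⌋₊, ht₀ _ (Nat.le_log_of_pow_le hb1 h1), ?_, ?_⟩
  · have h2 : b ^ Nat.log b ⌊x⌋₊ ≤ ⌊x⌋₊ := Nat.pow_log_le_self b (by omega)
    have h3 : ((b ^ Nat.log b ⌊x⌋₊ : ℕ) : ℝ) ≤ ⌊x⌋₊ := by exact_mod_cast h2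
    push_cast at h3
    exact h3.trans (Nat.floor_le hx0)
  · have h2 : ⌊x⌋₊ + 1 ≤ b ^ (Nat.log b ⌊x⌋₊ + 1) := Nat.lt_pow_succ_log_self hb1 _
    have h3 : ((⌊x⌋₊ + 1 : ℕ) : ℝ) ≤ ((b ^ (Nat.log b ⌊x⌋₊ + 1) : ℕ) : ℝ) := by exact_mod_cast h2
    push_cast at h3
    exact (Nat.lt_floor_add_one x).trans_le h3

theorem sq_add_le (x y : ℂ) : ‖x + y‖ ^ 2 ≤ 2 * ‖x‖ ^ 2 + 2 * ‖y‖ ^ 2 := by
  have h := norm_add_le x y
  have h0 := norm_nonneg (x + y)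
  nlinarith [sq_nonneg (‖x‖ - ‖y‖), norm_nonneg x, norm_nonneg y]

theorem split {U I : Finset ℤ} (hU : U ⊆ I) (S M : ℤ → ℂ) {L E B : ℝ} (hL : 0 < L)
    (h1 : ∑ k ∈ I, ‖(L : ℂ) * S k - M k‖ ^ 2 ≤ L ^ 2 * E)
    (h2 : ∑ k ∈ U, ‖M k‖ ^ 2 ≤ L ^ 2 * B) : ∑ k ∈ U, ‖S k‖ ^ 2 ≤ 2 * E + 2 * B := by
  have h3 : ∑ k ∈ U, ‖(L : ℂ) * S k - M k‖ ^ 2 ≤ ∑ k ∈ I, ‖(L : ℂ) * S k - M k‖ ^ 2 :=
    sum_le_sum_of_subset_of_nonneg hU fun _ _ _ => by positivity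
  have h4 : L ^ 2 * ∑ k ∈ U, ‖S k‖ ^ 2 ≤
      2 * ∑ k ∈ U, ‖(L : ℂ) * S k - M k‖ ^ 2 + 2 * ∑ k ∈ U, ‖M k‖ ^ 2 := by
    rw [mul_sum, mul_sum, mul_sum, ← sum_add_distrib]
    refine sum_le_sum fun k _ => ?_
    have h5 := sq_add_le ((L : ℂ) * S k - M k) (M k)
    rw [sub_add_cancel, norm_mul, Complex.norm_real, Real.norm_eq_abs, abs_of_pos hL,
      mul_pow] at h5
    exact h5
  have h6 : L ^ 2 * ∑ k ∈ U, ‖S k‖ ^ 2 ≤ L ^ 2 * (2 * E + 2 * B) := by linarith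
  exact le_of_mul_le_mul_left h6 (by positivity)

theorem tk_small {C N L L₀ J K δ : ℝ} (hC : 0 < C) (hN : 0 ≤ N) (hL₀ : 1 ≤ L₀) (hL : L₀ ≤ L)
    (hJ : 0 < J) (hδ : 0 < δ) (h1 : 4 * C ≤ δ * J) (h2 : 4 * C ≤ δ * L₀) (h3 : 4 * C * K ≤ δ * N) :
    C * (N ^ 2 * (L ^ 2 / J + L + 1) + L ^ 2 * K * N) ≤ L ^ 2 * (δ * N ^ 2) := by
  have hL1 : 1 ≤ L := hL₀.trans hL
  have e1 : C * (L ^ 2 / J) ≤ L ^ 2 * δ / 4 := by
    rw [← mul_div_assoc, div_le_div_iff₀ hJ (by norm_num)]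
    nlinarith [mul_le_mul_of_nonneg_left h1 (sq_nonneg L)]
  have e2 : C * L ≤ L ^ 2 * δ / 4 := by
    have : 4 * C ≤ δ * L := h2.trans (mul_le_mul_of_nonneg_left hL hδ.le)
    nlinarith [mul_le_mul_of_nonneg_left this (by linarith : (0 : ℝ) ≤ L)]
  have e3 : C ≤ L ^ 2 * δ / 4 := le_trans (by nlinarith) e2
  have e4 : C * (L ^ 2 * K * N) ≤ L ^ 2 * δ / 4 * N ^ 2 := by
    have := mul_le_mul_of_nonneg_left h3 (by positivity : 0 ≤ L ^ 2 * N)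
    nlinarith
  have e5 : N ^ 2 * (C * (L ^ 2 / J) + C * L + C) ≤ N ^ 2 * (3 * (L ^ 2 * δ / 4)) :=
    mul_le_mul_of_nonneg_left (by linarith) (sq_nonneg N)
  nlinarith

/-- A polynomial times a decaying exponential tends to zero. -/
theorem ev_poly_exp (C : ℝ) (n : ℕ) {β δ : ℝ} (hβ : 0 < β) (hδ : 0 < δ) :
    ∀ᶠ t : ℕ in atTop, C * (t : ℝ) ^ n * ((2 : ℝ) ^ t) ^ (-β) ≤ δ := by
  have hr : |(2 : ℝ) ^ (-β)| < 1 := by
    rw [abs_of_pos (by positivity)]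
    exact Real.rpow_lt_one_of_one_lt_of_neg (by norm_num) (by linarith)
  have h := (tendsto_pow_const_mul_const_pow_of_abs_lt_one n hr).const_mul C
  rw [mul_zero] at h
  filter_upwards [h.eventually (gt_mem_nhds hδ)] with t ht
  have e : ((2 : ℝ) ^ t) ^ (-β) = ((2 : ℝ) ^ (-β)) ^ t := by
    rw [← Real.rpow_natCast, ← Real.rpow_natCast, ← Real.rpow_mul (by norm_num),
      ← Real.rpow_mul (by norm_num), mul_comm]
  rw [e, mul_assoc]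
  exact ht.le

theorem ev_range1 (C : ℝ) (hC : 0 < C) {J : ℕ} (hJ : 1 ≤ J) (Λ : ℕ) {α δ : ℝ} (hα : 0 < α)
    (hδ : 0 < δ) : ∀ᶠ t : ℕ in atTop,
      C * ((J * (Λ * t) : ℕ) : ℝ) ^ 2 * ((J * 2 ^ t : ℕ) : ℝ) ^ (-(2 * α)) ≤ δ := by
  filter_upwards [ev_poly_exp (C * ((J : ℝ) * Λ) ^ 2) 2 (by linarith : 0 < 2 * α) hδ] with t ht
  refine le_trans ?_ ht
  have hJ' : (1 : ℝ) ≤ J := by exact_mod_cast hJ
  have h1 : ((J * 2 ^ t : ℕ) : ℝ) ^ (-(2 * α)) ≤ ((2 : ℝ) ^ t) ^ (-(2 * α)) := by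
    refine Real.rpow_le_rpow_of_nonpos (by positivity) ?_ (by linarith)
    push_cast
    exact le_mul_of_one_le_left (by positivity) hJ'
  have h2 : C * ((J * (Λ * t) : ℕ) : ℝ) ^ 2 = C * ((J : ℝ) * Λ) ^ 2 * (t : ℝ) ^ 2 := by
    push_cast; ring
  rw [h2]
  exact mul_le_mul_of_nonneg_left h1 (by positivity)

theorem ev_range2 (C : ℝ) (hC : 0 < C) {J : ℕ} (hJ : 1 ≤ J) {Λ : ℕ} (hΛ : 1 ≤ Λ) (R M : ℕ)
    {α δ : ℝ} (hα : 0 < α) (hR : (Λ : ℝ) * M + 1 ≤ R * α) (hδ : 0 < δ) : ∀ᶠ t : ℕ in atTop,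
      C * ((J * (Λ * (R * t)) : ℕ) : ℝ) ^ 2 * (J * (Λ * t) : ℕ) * ((Λ * R + M : ℕ) : ℝ) ^ (Λ * R) *
        ((J * 2 ^ (Λ * t) : ℕ) : ℝ) ^ M * 4 ^ (Λ * R) *
        ((J * 2 ^ (R * t) : ℕ) : ℝ) ^ (-(2 * α)) *
        ((J * 2 ^ (Λ * t) : ℕ) : ℝ) ^ (2 * (Λ * R : ℕ) * (α / (4 * Λ ^ 2))) ≤ δ := by
  set γ : ℝ := 2 * (Λ * R : ℕ) * (α / (4 * Λ ^ 2)) with hγ
  have hΛ' : (1 : ℝ) ≤ Λ := by exact_mod_cast hΛ
  have hJ' : (1 : ℝ) ≤ J := by exact_mod_cast hJ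
  have hγ0 : 0 ≤ γ := by positivity
  have hγΛ : Λ * γ = R * α / 2 := by
    rw [hγ]; push_cast; field_simp; ring
  filter_upwards [ev_poly_exp (C * ((J : ℝ) * Λ * R) ^ 2 * (J * Λ) *
    ((Λ * R + M : ℕ) : ℝ) ^ (Λ * R) * 4 ^ (Λ * R) * (J : ℝ) ^ M * (J : ℝ) ^ γ) 3 one_pos hδ]
    with t ht
  refine le_trans ?_ ht
  set x : ℝ := 2 ^ t with hx
  have hx1 : 1 ≤ x := one_le_pow₀ (by norm_num)
  have hx0 : 0 < x := by positivity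
  have e1 : ((J * 2 ^ (Λ * t) : ℕ) : ℝ) = J * x ^ (Λ : ℝ) := by
    rw [Real.rpow_natCast, hx, ← pow_mul, mul_comm t Λ]; push_cast; ring
  have e2 : ((J * 2 ^ (R * t) : ℕ) : ℝ) = J * x ^ (R : ℝ) := by
    rw [Real.rpow_natCast, hx, ← pow_mul, mul_comm t R]; push_cast; ring
  have h1 : ((J * 2 ^ (Λ * t) : ℕ) : ℝ) ^ M = (J : ℝ) ^ M * x ^ ((Λ : ℝ) * M) := by
    rw [e1, mul_pow, Real.rpow_mul hx0.le, Real.rpow_natCast _ M]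
  have h2 : ((J * 2 ^ (R * t) : ℕ) : ℝ) ^ (-(2 * α)) ≤ x ^ ((R : ℝ) * (-(2 * α))) := by
    rw [e2, Real.rpow_mul hx0.le]
    refine Real.rpow_le_rpow_of_nonpos (by positivity) ?_ (by linarith)
    exact le_mul_of_one_le_left (by positivity) hJ'
  have h3 : ((J * 2 ^ (Λ * t) : ℕ) : ℝ) ^ γ = (J : ℝ) ^ γ * x ^ ((Λ : ℝ) * γ) := by
    rw [e1, Real.mul_rpow (by positivity) (by positivity), Real.rpow_mul hx0.le]
  have h4 : x ^ ((Λ : ℝ) * M) * x ^ ((R : ℝ) * (-(2 * α))) * x ^ ((Λ : ℝ) * γ) ≤ x ^ (-(1 : ℝ)) := by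
    rw [← Real.rpow_add hx0, ← Real.rpow_add hx0]
    refine Real.rpow_le_rpow_of_exponent_le hx1 ?_
    rw [hγΛ]
    have : (0 : ℝ) ≤ (Λ : ℝ) * M := by positivity
    nlinarith
  rw [h1, h3]
  set A : ℝ := C * ((J : ℝ) * Λ * R) ^ 2 * (J * Λ) *
    ((Λ * R + M : ℕ) : ℝ) ^ (Λ * R) * 4 ^ (Λ * R) * (J : ℝ) ^ M * (J : ℝ) ^ γ with hA
  have hA0 : 0 ≤ A := by positivity
  calc _ = A * (t : ℝ) ^ 3 * (x ^ ((Λ : ℝ) * M) * ((J * 2 ^ (R * t) : ℕ) : ℝ) ^ (-(2 * α)) *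
        x ^ ((Λ : ℝ) * γ)) := by
        rw [hA]
        generalize ((J * 2 ^ (R * t) : ℕ) : ℝ) ^ (-(2 * α)) = z
        generalize ((Λ * R + M : ℕ) : ℝ) ^ (Λ * R) = z'
        push_cast; ring
    _ ≤ A * (t : ℝ) ^ 3 * (x ^ ((Λ : ℝ) * M) * x ^ ((R : ℝ) * (-(2 * α))) *
        x ^ ((Λ : ℝ) * γ)) := by gcongr
    _ ≤ A * (t : ℝ) ^ 3 * x ^ (-(1 : ℝ)) := by gcongr

theorem ev_log (C r : ℝ) {s : ℝ} (hs : 0 < s) :
    ∀ᶠ N : ℝ in atTop, C * Real.log N ^ r ≤ N ^ s := by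
  have h := (isLittleO_log_rpow_rpow_atTop r hs).const_mul_left C
  filter_upwards [h.bound one_pos, eventually_ge_atTop 0] with N hN hN0
  rw [one_mul, Real.norm_eq_abs, Real.norm_eq_abs, abs_of_nonneg (by positivity : 0 ≤ N ^ s)] at hN
  exact (le_abs_self _).trans hN

open Classical in
/-- The restriction of `g` to the points with few prime factors from `S`. -/
noncomputable def res (g : G → ℂ) (S : Finset ℕ) (M : ℕ) (w : G) : ℂ :=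
  if Few S M w then g w else 0

theorem norm_res_le {g : G → ℂ} (h1 : ∀ a, ‖g a‖ ≤ 1) (S : Finset ℕ) (M : ℕ) (w : G) :
    ‖res g S M w‖ ≤ 1 := by
  unfold res; split_ifs
  · exact h1 w
  · simp

theorem few_of_res {g : G → ℂ} {S : Finset ℕ} {M : ℕ} {w : G} (h : res g S M w ≠ 0) :
    Few S M w := by
  by_contra hc
  exact h (by rw [res, if_neg hc])

theorem res_mul {g : G → ℂ} (hm : ∀ a b, a ≠ 0 → b ≠ 0 → g (a * b) = g a * g b)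
    {J t₀ t₁ s₀ s₁ : ℕ} (hts : t₁ ≤ s₀) (M : ℕ) :
    ∀ p ∈ PR J s₀ s₁, ∀ β, β ≠ 0 →
      res g (PR J t₀ t₁) M (gp p * β) = g (gp p) * res g (PR J t₀ t₁) M β := by
  intro p hp β hβ
  obtain ⟨⟨hp1, -⟩, hp2, hp3⟩ := mem_PR.1 hp
  have h := few_mul (S := PR J t₀ t₁) (fun q hq => (mem_PR.1 hq).2.1) M (a := gp p) β (by
    intro q hq hd
    obtain ⟨⟨-, hq1⟩, hq2, -⟩ := mem_PR.1 hq
    rw [nm_gp hp2 hp3, Nat.prime_dvd_prime_iff_eq hq2 hp2] at hd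
    have : J * 2 ^ t₁ ≤ J * 2 ^ s₀ := Nat.mul_le_mul_left _ (Nat.pow_le_pow_right (by norm_num) hts)
    omega)
  unfold res
  by_cases hf : Few (PR J t₀ t₁) M β
  · rw [if_pos hf, if_pos (h.2 hf), hm _ _ (gp_ne_zero hp2 hp3) hβ]
  · rw [if_neg hf, if_neg (fun h' => hf (h.1 h')), mul_zero]

theorem res_err {g : G → ℂ} (h1 : ∀ a, ‖g a‖ ≤ 1) {J t₀ t₁ M K : ℕ} (hJ : 1 ≤ J) (hM : 0 < M)
    {N N₁ N₂ : ℝ} (hN : 1 ≤ N) (hN₁ : N / 2 ≤ N₁) (hN₂ : N₁ ≤ N₂) (hN₃ : N₂ ≤ N) (hK : K ≤ N) :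
    ∑ k ∈ Icc (-(K : ℤ)) K, ‖SA g N₁ N₂ k - SA (res g (PR J t₀ t₁) M) N₁ N₂ k‖ ^ 2 ≤
      1080 * (27 / 2 ^ t₀ + 18 * LL J t₀ t₁ / M) * N ^ 2 := by
  classical
  have h0 : 0 ≤ N₁ := by linarith
  have hmv := mv_chi (T := An N₁ N₂) (X₀ := N / 2) (X := N) (by linarith) hN (fun w hw => by
    obtain ⟨a, b, c⟩ := (mem_An h0).1 hw
    exact ⟨a, by linarith, by linarith⟩) K (fun w => g w - res g (PR J t₀ t₁) M w)
  have e : ∀ k, SA g N₁ N₂ k - SA (res g (PR J t₀ t₁) M) N₁ N₂ k =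
      ∑ w ∈ An N₁ N₂, (g w - res g (PR J t₀ t₁) M w) * chi k w := by
    intro k
    rw [SA, SA, ← sum_sub_distrib]
    exact sum_congr rfl fun w _ => by ring
  simp only [e]
  refine hmv.trans ?_
  have hs : √(N / (N / 2)) ≤ 2 := by
    rw [Real.sqrt_le_iff]
    refine ⟨by norm_num, ?_⟩
    rw [div_le_iff₀ (by linarith)]; linarith
  have hc := card_not_few (S := PR J t₀ t₁) (fun p hp => (mem_PR.1 hp).2) hM
    (P := J * 2 ^ t₀) (by positivity) (fun p hp => (mem_PR.1 hp).1.1) ⌊N₂⌋₊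
  have hLL : 0 ≤ LL J t₀ t₁ := sum_nonneg fun p _ => by positivity
  have hsum : ∑ w ∈ An N₁ N₂, ‖g w - res g (PR J t₀ t₁) M w‖ ^ 2 ≤
      (((disc ⌊N₂⌋₊).filter fun w => ¬ Few (PR J t₀ t₁) M w).card : ℝ) := by
    rw [card_filter, Nat.cast_sum]
    refine le_trans (sum_le_sum fun w _ => ?_)
      (sum_le_sum_of_subset_of_nonneg (An_subset_disc N₁ N₂) fun _ _ _ => Nat.cast_nonneg _)
    unfold res
    by_cases hf : Few (PR J t₀ t₁) M w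
    · simp [hf]
    · simp only [hf, if_false, sub_zero, not_false_eq_true, if_true, Nat.cast_one]
      exact pow_le_one₀ (norm_nonneg _) (h1 w)
  have hfl : (⌊N₂⌋₊ : ℝ) ≤ N := (Nat.floor_le (by linarith)).trans hN₃
  have hJ' : (1 : ℝ) ≤ J := by exact_mod_cast hJ
  have hb : 27 * (⌊N₂⌋₊ : ℝ) / ((J * 2 ^ t₀ : ℕ) : ℝ) +
      18 * (⌊N₂⌋₊ : ℝ) * (∑ p ∈ PR J t₀ t₁, (1 : ℝ) / p) / M ≤
      (27 / 2 ^ t₀ + 18 * LL J t₀ t₁ / M) * N := by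
    have a1 : 27 * (⌊N₂⌋₊ : ℝ) / ((J * 2 ^ t₀ : ℕ) : ℝ) ≤ 27 * N / 2 ^ t₀ := by
      push_cast
      gcongr
      exact le_mul_of_one_le_left (by positivity) hJ'
    have a2 : 18 * (⌊N₂⌋₊ : ℝ) * (∑ p ∈ PR J t₀ t₁, (1 : ℝ) / p) / M ≤
        18 * N * LL J t₀ t₁ / M := by
      rw [← LL]; gcongr
    calc _ ≤ 27 * N / 2 ^ t₀ + 18 * N * LL J t₀ t₁ / M := add_le_add a1 a2
      _ = _ := by ring
  have hT := hsum.trans (hc.trans hb)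
  have hB : 0 ≤ 27 / 2 ^ t₀ + 18 * LL J t₀ t₁ / M := by positivity
  calc 270 * √(N / (N / 2)) * (K + N) * ∑ w ∈ An N₁ N₂, ‖g w - res g (PR J t₀ t₁) M w‖ ^ 2
      ≤ 270 * 2 * (N + N) * ((27 / 2 ^ t₀ + 18 * LL J t₀ t₁ / M) * N) := by gcongr
    _ = _ := by ring

theorem log_le_blk {N a α : ℝ} {Λ R t : ℕ} (ha : 0 < a) (hα : 0 < α) (hN : 1 ≤ N) (ht : 4 ≤ t)
    (hx : Real.log N ^ a < ((2 ^ (2 * Λ) : ℕ) : ℝ) ^ (t + 1)) (hR : 4 * Λ / a + 1 ≤ R * α)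
    {Y : ℝ} (hY : (2 : ℝ) ^ (R * t) ≤ Y) : 16 * Real.log N ≤ Y ^ α := by
  set x : ℝ := 2 ^ t with hxd
  have hx0 : 0 < x := by positivity
  have hx16 : 16 ≤ x := by
    calc (16 : ℝ) = 2 ^ 4 := by norm_num
      _ ≤ 2 ^ t := pow_le_pow_right₀ (by norm_num) ht
  have hl0 : 0 ≤ Real.log N := Real.log_nonneg hN
  have h1 : Real.log N ^ a ≤ x ^ (4 * Λ) := by
    refine hx.le.trans ?_
    push_cast
    rw [hxd, ← pow_mul, ← pow_mul]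
    exact pow_le_pow_right₀ (by norm_num) (by nlinarith)
  have h2 : Real.log N ≤ x ^ (4 * Λ / a) := by
    have h3 := Real.rpow_le_rpow (by positivity) h1 (le_of_lt (inv_pos.2 ha))
    rw [Real.rpow_rpow_inv hl0 ha.ne', ← Real.rpow_natCast, ← Real.rpow_mul hx0.le] at h3
    rw [div_eq_mul_inv]
    exact_mod_cast h3
  have h4 : x ^ ((R : ℝ) * α) ≤ Y ^ α := by
    rw [Real.rpow_mul hx0.le, Real.rpow_natCast]
    refine Real.rpow_le_rpow (by positivity) ?_ hα.le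
    rw [hxd, ← pow_mul, mul_comm t R]; exact hY
  have h5 : x ^ (4 * Λ / a + 1) ≤ x ^ ((R : ℝ) * α) :=
    Real.rpow_le_rpow_of_exponent_le (by linarith) hR
  rw [Real.rpow_add hx0, Real.rpow_one] at h5
  have h6 : 0 ≤ x ^ (4 * Λ / a) := by positivity
  nlinarith

open Classical in
theorem card_U3 {g : G → ℂ} (h1 : ∀ a, ‖g a‖ ≤ 1) {J s₀ s₁ K : ℕ} (hJ : 2 ≤ J) {N α : ℝ}
    (hα : 0 < α) (hN : 1 ≤ N) (hK : K ≤ N) (hs : ((J * 2 ^ s₁ : ℕ) : ℝ) ≤ N)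
    (hl : ∀ Y : ℝ, (2 : ℝ) ^ s₀ ≤ Y → 16 * Real.log N ≤ Y ^ α) :
    (((Icc (-(K : ℤ)) K).filter fun k => ∃ v ∈ VV J s₀ s₁,
      (Yv v : ℝ) ^ (1 - α) < ‖Qb g v k‖).card : ℝ) ≤ (J * s₁ : ℕ) * (1080 * N ^ (6 * α)) := by
  have hsub : ((Icc (-(K : ℤ)) K).filter fun k => ∃ v ∈ VV J s₀ s₁,
      (Yv v : ℝ) ^ (1 - α) < ‖Qb g v k‖) ⊆ (VV J s₀ s₁).biUnion fun v =>
        (Icc (-(K : ℤ)) K).filter fun k => (Yv v : ℝ) ^ (1 - α) < ‖Qb g v k‖ := by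
    intro k hk
    obtain ⟨hk1, v, hv, hk2⟩ := mem_filter.1 hk
    exact mem_biUnion.2 ⟨v, hv, mem_filter.2 ⟨hk1, hk2⟩⟩
  have hKN : K ≤ ⌊N⌋₊ := Nat.le_floor hK
  have hfl : (⌊N⌋₊ : ℝ) ≤ N := Nat.floor_le (by linarith)
  have hfl1 : (1 : ℝ) ≤ ⌊N⌋₊ := by exact_mod_cast Nat.le_floor (by exact_mod_cast hN)
  have hone : ∀ v ∈ VV J s₀ s₁, (((Icc (-(K : ℤ)) K).filter fun k =>
      (Yv v : ℝ) ^ (1 - α) < ‖Qb g v k‖).card : ℝ) ≤ 1080 * N ^ (6 * α) := by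
    intro v hv
    obtain ⟨b1, b2, b3⟩ := Yv_bounds hv
    have hp : 1 ≤ 2 ^ s₀ := Nat.one_le_two_pow
    have hY2 : 2 * 2 ^ s₀ ≤ Yv v := le_trans (Nat.mul_le_mul_right _ hJ) (b1.trans b2)
    have hYN : Yv v ≤ ⌊N⌋₊ := by
      refine Nat.le_floor (le_trans ?_ hs)
      exact_mod_cast (Nat.le_add_right _ _).trans b3
    have h := card_large_blk h1 (v := v) (by have := (mem_VV.1 hv).1.1; omega) (N := ⌊N⌋₊)
      (by omega) hYN hα (le_trans (by gcongr) (hl (Yv v) (by exact_mod_cast (by omega))))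
      ((Icc (-(K : ℤ)) K).filter fun k => (Yv v : ℝ) ^ (1 - α) < ‖Qb g v k‖) (fun k hk => by
        obtain ⟨hk1, hk2⟩ := mem_filter.1 hk
        rw [mem_Icc] at hk1
        exact ⟨mem_Icc.2 ⟨by omega, by omega⟩, hk2⟩)
    refine h.trans ?_
    gcongr
  calc _ ≤ (((VV J s₀ s₁).biUnion fun v => (Icc (-(K : ℤ)) K).filter fun k =>
        (Yv v : ℝ) ^ (1 - α) < ‖Qb g v k‖).card : ℝ) := by exact_mod_cast card_le_card hsub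
    _ ≤ ∑ v ∈ VV J s₀ s₁, (((Icc (-(K : ℤ)) K).filter fun k =>
        (Yv v : ℝ) ^ (1 - α) < ‖Qb g v k‖).card : ℝ) := by exact_mod_cast card_biUnion_le
    _ ≤ (VV J s₀ s₁).card • (1080 * N ^ (6 * α)) := sum_le_card_nsmul _ _ _ hone
    _ ≤ _ := by
      rw [nsmul_eq_mul, card_VV]
      gcongr
      exact Nat.sub_le _ _

end MRMainAux

open MRMainAux

/-- Mean square cancellation in sectors of area a small power of the logarithm. -/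
theorem mr {g : G → ℂ} (hm : ∀ a b, a ≠ 0 → b ≠ 0 → g (a * b) = g a * g b) (h1 : ∀ a, ‖g a‖ ≤ 1)
    (hs : HS g) {a ε : ℝ} (ha : 0 < a) (hε : 0 < ε) : ∀ᶠ N : ℝ in atTop, ∀ (N₁ N₂ : ℝ) (K : ℕ),
      N / 2 ≤ N₁ → N₁ ≤ N₂ → N₂ ≤ N → K * Real.log N ^ a ≤ N →
      ∑ k ∈ Icc (-(K : ℤ)) K, ‖SA g N₁ N₂ k‖ ^ 2 ≤ ε * N ^ 2 := by
  classical
  obtain ⟨Ct, hCt, Htk⟩ := tk
  obtain ⟨C₁, hC₁, H1⟩ := range1
  obtain ⟨C₂, hC₂, H2⟩ := range2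
  obtain ⟨c, hc, hc1, H3⟩ := range3
  obtain ⟨δ, hδ, hδε⟩ : ∃ δ : ℝ, 0 < δ ∧ 18 * δ = ε := ⟨ε / 18, by positivity, by ring⟩
  obtain ⟨J, hJ2, hJ⟩ : ∃ J : ℕ, 2 ≤ J ∧ 4 * Ct ≤ δ * J := by
    obtain ⟨n, hn⟩ := exists_nat_ge (4 * Ct / δ)
    rw [div_le_iff₀ hδ] at hn
    exact ⟨n + 2, by omega, by push_cast; nlinarith⟩
  have hJ1 : 1 ≤ J := by omega
  have hJr : (2 : ℝ) ≤ J := by exact_mod_cast hJ2
  obtain ⟨Λ, hΛ2, HΛ⟩ := LL_large (J : ℝ)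
  have hΛr : (2 : ℝ) ≤ Λ := by exact_mod_cast hΛ2
  obtain ⟨M, hM0, hM⟩ : ∃ M : ℕ, 0 < M ∧ 2 * 1080 * 18 * (5 * Λ) ≤ δ * M := by
    obtain ⟨n, hn⟩ := exists_nat_ge (2 * 1080 * 18 * (5 * Λ) / δ)
    rw [div_le_iff₀ hδ] at hn
    exact ⟨n + 1, by omega, by push_cast; nlinarith⟩
  obtain ⟨α, hα, hαc⟩ : ∃ α : ℝ, 0 < α ∧ 6 * α = c / 2 := ⟨c / 12, by positivity, by ring⟩
  obtain ⟨R, hRΛ, hR1, hR2⟩ : ∃ R : ℕ, Λ ≤ R ∧ (Λ : ℝ) * M + 1 ≤ R * α ∧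
      4 * Λ / a + 1 ≤ R * α := by
    obtain ⟨n, hn⟩ := exists_nat_ge (((Λ : ℝ) * M + 1) / α)
    obtain ⟨m, hm⟩ := exists_nat_ge ((4 * Λ / a + 1) / α)
    rw [div_le_iff₀ hα] at hn hm
    have e1 : 0 ≤ (n : ℝ) * α := by positivity
    have e2 : 0 ≤ (m : ℝ) * α := by positivity
    have e3 : 0 ≤ (Λ : ℝ) * α := by positivity
    exact ⟨Λ + n + m, by omega, by push_cast; linarith, by push_cast; linarith⟩
  have hR0 : 1 ≤ R := by omega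
  have hα₁ : 0 < α / (4 * Λ ^ 2) := by positivity
  have hJt : ∀ᶠ t : ℕ in atTop, J ≤ 2 ^ t := by
    filter_upwards [eventually_ge_atTop J] with t ht
    exact ht.trans Nat.lt_two_pow_self.le
  have hRt : Tendsto (fun t : ℕ => R * t) atTop atTop :=
    tendsto_atTop_mono (fun t => Nat.le_mul_of_pos_left t hR0) tendsto_id
  have h2t : ∀ᶠ t : ℕ in atTop, 2 * 1080 * 27 / δ ≤ (2 : ℝ) ^ t :=
    (tendsto_pow_atTop_atTop_of_one_lt (by norm_num : (1 : ℝ) < 2)).eventually_ge_atTop _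
  have hA := ev_scale ((eventually_ge_atTop 4).and (hJt.and ((HΛ J hJ1).and
    ((hRt.eventually (HΛ J hJ1)).and ((ev_range1 C₁ hC₁ hJ1 Λ hα₁ hδ).and
    ((ev_range2 C₂ hC₂ hJ1 (by omega : 1 ≤ Λ) R M hα hR1 hδ).and h2t))))))
    (b := 2 ^ (2 * Λ)) (Nat.le_self_pow (by omega) 2)
  have hB := ev_scale ((eventually_ge_atTop 1).and (hJt.and (HΛ J hJ1)))
    (b := 2 ^ (20 * Λ)) (Nat.le_self_pow (by omega) 2)
  have hx : Tendsto (fun N : ℝ => Real.log N ^ a) atTop atTop :=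
    (tendsto_rpow_atTop ha).comp Real.tendsto_log_atTop
  filter_upwards [hx.eventually hA, hB, ev_log 1 (a * (10 * R : ℕ)) one_pos,
    ev_log (1080 * Λ * R) a (by positivity : 0 < c / 2), hx.eventually_ge_atTop (4 * Ct / δ),
    hx.eventually_ge_atTop 1, H3 g J (40 * Λ) δ h1 hs hJ1 hδ, eventually_ge_atTop 1]
    with N hA hB hC hD hE hE1 hF hN N₁ N₂ K hN₁ hN₂ hN₃ hK
  obtain ⟨t, ⟨ht4, hJt, hL1, hL2, hr1, hr2, h2t⟩, ht1, ht2⟩ := hA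
  obtain ⟨s, ⟨hs1, hJs, hL3⟩, hs2, hs3⟩ := hB
  set x := Real.log N ^ a with hxd
  have hN0 : 0 ≤ N := by linarith
  have hKN : (K : ℝ) ≤ N := le_trans (le_mul_of_one_le_right (Nat.cast_nonneg _) hE1) hK
  have hCK : 4 * Ct * K ≤ δ * N := by
    rw [div_le_iff₀ hδ] at hE
    nlinarith [mul_le_mul_of_nonneg_left hE (Nat.cast_nonneg (α := ℝ) K),
      mul_le_mul_of_nonneg_left hK hδ.le]
  have hb1 : ((J * 2 ^ (Λ * t) : ℕ) : ℝ) ≤ x := by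
    refine le_trans ?_ ht1
    have : J * 2 ^ (Λ * t) ≤ (2 ^ (2 * Λ)) ^ t := by
      rw [← pow_mul, show 2 * Λ * t = Λ * t + Λ * t by ring, pow_add]
      refine Nat.mul_le_mul_right _ (hJt.trans (Nat.pow_le_pow_right (by norm_num) ?_))
      exact Nat.le_mul_of_pos_left t (by omega)
    exact_mod_cast this
  have hb2 : ((J * 2 ^ (Λ * (R * t)) : ℕ) : ℝ) ^ 10 ≤ N := by
    have e1 : J * 2 ^ (Λ * (R * t)) ≤ (J * 2 ^ (Λ * t)) ^ R := by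
      rw [mul_pow, ← pow_mul, show Λ * t * R = Λ * (R * t) by ring]
      exact Nat.mul_le_mul_right _ (Nat.le_self_pow (by omega) J)
    have e2 : ((J * 2 ^ (Λ * (R * t)) : ℕ) : ℝ) ≤ x ^ R :=
      le_trans (by exact_mod_cast e1) (pow_le_pow_left₀ (Nat.cast_nonneg _) hb1 R)
    rw [one_mul, Real.rpow_one, Real.rpow_mul (Real.log_nonneg hN), Real.rpow_natCast,
      mul_comm 10 R, pow_mul] at hC
    exact le_trans (pow_le_pow_left₀ (Nat.cast_nonneg _) e2 10) hC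
  have hone : ∀ n : ℕ, (1 : ℝ) ≤ ((J * 2 ^ n : ℕ) : ℝ) := fun n => by
    exact_mod_cast Nat.mul_pos hJ1 (by positivity)
  have hb3 : ((J * 2 ^ (Λ * (R * t)) : ℕ) : ℝ) ≤ N :=
    le_trans (le_self_pow₀ (hone _) (by norm_num)) hb2
  have hb4 : ((J * 2 ^ (Λ * t) : ℕ) : ℝ) ^ 10 ≤ N := by
    refine le_trans (pow_le_pow_left₀ (Nat.cast_nonneg _) ?_ 10) hb2
    exact_mod_cast Nat.mul_le_mul_left J (Nat.pow_le_pow_right (by norm_num)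
      (Nat.mul_le_mul_left Λ (Nat.le_mul_of_pos_left t hR0)))
  have hb5 : ((J * 2 ^ (Λ * t) : ℕ) : ℝ) ≤ N :=
    le_trans (le_self_pow₀ (hone _) (by norm_num)) hb4
  have hb6 : ((J * 2 ^ (Λ * s) : ℕ) : ℝ) ^ 10 ≤ N := by
    refine le_trans ?_ hs2
    have : (J * 2 ^ (Λ * s)) ^ 10 ≤ (2 ^ (20 * Λ)) ^ s := by
      rw [← pow_mul, show 20 * Λ * s = (Λ * s + Λ * s) * 10 by ring, pow_mul 2 (Λ * s + Λ * s),
        pow_add 2 (Λ * s)]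
      refine Nat.pow_le_pow_left (Nat.mul_le_mul_right _
        (hJs.trans (Nat.pow_le_pow_right (by norm_num) ?_))) 10
      exact Nat.le_mul_of_pos_left s (by omega)
    exact_mod_cast this
  have hb7 : N ≤ ((2 : ℝ) ^ s) ^ (40 * Λ) := by
    refine hs3.le.trans ?_
    push_cast
    rw [← pow_mul, ← pow_mul]
    exact pow_le_pow_right₀ (by norm_num) (by nlinarith)
  set I := Icc (-(K : ℤ)) K with hI
  set p3 : ℤ → Prop := fun k => ∃ v ∈ VV J (R * t) (Λ * (R * t)),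
    (Yv v : ℝ) ^ (1 - α) < ‖Qb g v k‖ with hp3
  set p1 : ℤ → Prop := fun k => ∀ v ∈ VV J t (Λ * t),
    ‖Qb g v k‖ ≤ (Yv v : ℝ) ^ (1 - α / (4 * Λ ^ 2)) with hp1
  have hgm : ∀ t₀ t₁, ∀ p ∈ PR J t₀ t₁, ∀ β, β ≠ 0 → g (gp p * β) = g (gp p) * g β :=
    fun t₀ t₁ p hp β hβ => hm _ _ (gp_ne_zero (mem_PR.1 hp).2.1 (mem_PR.1 hp).2.2) hβ
  have hsm : ∀ L : ℝ, (J : ℝ) ≤ L → Ct * (N ^ 2 * (L ^ 2 / J + L + 1) + L ^ 2 * K * N) ≤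
      L ^ 2 * (δ * N ^ 2) := fun L hL =>
    tk_small hCt hN0 (by linarith) hL (by linarith) hδ hJ hJ hCK
  have hL : ∀ L : ℝ, (J : ℝ) ≤ L → δ * N ^ 2 ≤ L ^ 2 * (δ * N ^ 2) := fun L hL =>
    le_mul_of_one_le_left (by positivity) (one_le_pow₀ (by linarith))
  have S3 : ∑ k ∈ I.filter p3, ‖SA g N₁ N₂ k‖ ^ 2 ≤ 2 * (δ * N ^ 2) + 2 * (δ * N ^ 2) := by
    refine split (filter_subset _ _) _ (Mn g g J s (Λ * s) N₁ N₂) (L := LL J s (Λ * s))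
      (by linarith) ((Htk J s (Λ * s) K N N₁ N₂ g g hJ2 hb6 hN₁ hN₂ hN₃ hKN h1 (hgm _ _)).trans
        (hsm _ hL3)) ((hF s (Λ * s) N₁ N₂ _ hb6 hb7 hN₁ hN₂ hN₃ (fun k hk => ?_) ?_).trans_eq
        (by ring))
    · have hk1 := mem_Icc.1 (mem_filter.1 hk).1
      have hk2 : |k| ≤ K := abs_le.2 hk1
      have hk3 : |(k : ℝ)| ≤ K := by exact_mod_cast hk2
      exact hk3.trans hKN
    · refine (card_U3 h1 hJ2 hα hN hKN hb3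
        (fun Y hY => log_le_blk ha hα hN ht4 ht2 hR2 hY)).trans ?_
      have e1 : ((J * (Λ * (R * t)) : ℕ) : ℝ) ≤ Λ * R * x := by
        have e2 : J * t ≤ J * 2 ^ (Λ * t) := Nat.mul_le_mul_left _
          ((Nat.le_mul_of_pos_left t (by omega)).trans Nat.lt_two_pow_self.le)
        have e3 : ((J * t : ℕ) : ℝ) ≤ x := le_trans (by exact_mod_cast e2) hb1
        calc ((J * (Λ * (R * t)) : ℕ) : ℝ) = Λ * R * ((J * t : ℕ) : ℝ) := by push_cast; ring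
          _ ≤ _ := by gcongr
      have hNp : 0 < N := by linarith
      calc ((J * (Λ * (R * t)) : ℕ) : ℝ) * (1080 * N ^ (6 * α))
          ≤ Λ * R * x * (1080 * N ^ (6 * α)) := by gcongr
        _ = 1080 * Λ * R * x * N ^ (c / 2) := by rw [hαc]; ring
        _ ≤ N ^ (c / 2) * N ^ (c / 2) := by gcongr
        _ = N ^ c := by rw [← Real.rpow_add hNp]; ring_nf
  have S1 : ∑ k ∈ (I.filter fun k => ¬ p3 k).filter p1, ‖SA g N₁ N₂ k‖ ^ 2 ≤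
      2 * (δ * N ^ 2) + 2 * (δ * N ^ 2) := by
    have hsub : (I.filter fun k => ¬ p3 k).filter p1 ⊆ I :=
      (filter_subset _ _).trans (filter_subset _ _)
    refine split hsub _ (Mn g g J t (Λ * t) N₁ N₂) (L := LL J t (Λ * t))
      (by linarith) ((Htk J t (Λ * t) K N N₁ N₂ g g hJ2 hb4 hN₁ hN₂ hN₃ hKN h1 (hgm _ _)).trans
        (hsm _ hL1)) ((H1 J t (Λ * t) K N N₁ N₂ (α / (4 * Λ ^ 2)) g g _ hJ1 hα₁.le hb5
        (le_trans (by gcongr) hK) hN₁ hN₂ hN₃ h1 hsub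
        (fun k hk => (mem_filter.1 hk).2)).trans (le_trans ?_ (hL _ hL1)))
    calc _ = C₁ * ((J * (Λ * t) : ℕ) : ℝ) ^ 2 *
          ((J * 2 ^ t : ℕ) : ℝ) ^ (-(2 * (α / (4 * Λ ^ 2)))) * N ^ 2 := by ring
      _ ≤ _ := by gcongr
  have S2 : ∑ k ∈ (I.filter fun k => ¬ p3 k).filter fun k => ¬ p1 k,
      ‖SA (res g (PR J t (Λ * t)) M) N₁ N₂ k‖ ^ 2 ≤ 2 * (δ * N ^ 2) + 2 * (δ * N ^ 2) := by
    have hsub : ((I.filter fun k => ¬ p3 k).filter fun k => ¬ p1 k) ⊆ I :=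
      (filter_subset _ _).trans (filter_subset _ _)
    refine split hsub _ (Mn g (res g (PR J t (Λ * t)) M) J (R * t) (Λ * (R * t)) N₁ N₂)
      (L := LL J (R * t) (Λ * (R * t))) (by linarith)
      ((Htk J (R * t) (Λ * (R * t)) K N N₁ N₂ g _ hJ2 hb2 hN₁ hN₂ hN₃ hKN (norm_res_le h1 _ _)
        (res_mul hm (Nat.mul_le_mul_right t hRΛ) M)).trans (hsm _ hL2))
      ((H2 J t (Λ * t) (R * t) (Λ * (R * t)) (Λ * R) M K N N₁ N₂ (α / (4 * Λ ^ 2)) α g _ _ hJ1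
        hα₁.le hα.le ?_ hb3 hKN hN₁ hN₂ hN₃ h1 (norm_res_le h1 _ _) (fun w => few_of_res) hsub
        (fun k hk => ?_)).trans (le_trans ?_ (hL _ hL2)))
    · rw [mul_pow, ← pow_mul, show t * (Λ * R) = Λ * (R * t) by ring]
      exact Nat.mul_le_mul_right _ (Nat.le_self_pow (by positivity) J)
    · obtain ⟨hk1, hk2⟩ := mem_filter.1 hk
      have hk3 := (mem_filter.1 hk1).2
      simp only [hp1, hp3, not_forall, not_exists, not_and, not_le, not_lt] at hk2 hk3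
      obtain ⟨u, hu1, hu2⟩ := hk2
      exact ⟨hk3, u, hu1, hu2⟩
    · refine le_trans (le_of_eq ?_) (mul_le_mul_of_nonneg_right hr2 (sq_nonneg N))
      ring
  have S4 : ∑ k ∈ I, ‖SA g N₁ N₂ k - SA (res g (PR J t (Λ * t)) M) N₁ N₂ k‖ ^ 2 ≤ δ * N ^ 2 := by
    refine (res_err h1 hJ1 hM0 hN hN₁ hN₂ hN₃ hKN).trans ?_
    refine mul_le_mul_of_nonneg_right ?_ (sq_nonneg N)
    have e1 := LL_le hJ1 (by omega : 1 ≤ t) Λ
    have e2 : 1080 * (27 / (2 : ℝ) ^ t) ≤ δ / 2 := by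
      rw [div_le_iff₀ hδ] at h2t
      rw [← mul_div_assoc, div_le_div_iff₀ (by positivity) (by norm_num)]
      linarith
    have e3 : 1080 * (18 * LL J t (Λ * t) / M) ≤ δ / 2 := by
      rw [← mul_div_assoc, div_le_div_iff₀ (by positivity) (by norm_num)]
      linarith
    linarith
  have S5 : ∑ k ∈ (I.filter fun k => ¬ p3 k).filter fun k => ¬ p1 k, ‖SA g N₁ N₂ k‖ ^ 2 ≤
      2 * (δ * N ^ 2) + 2 * (2 * (δ * N ^ 2) + 2 * (δ * N ^ 2)) := by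
    have hsub : ((I.filter fun k => ¬ p3 k).filter fun k => ¬ p1 k) ⊆ I :=
      (filter_subset _ _).trans (filter_subset _ _)
    refine split hsub _ (SA (res g (PR J t (Λ * t)) M) N₁ N₂) (L := 1) one_pos ?_ ?_
    · simpa using S4
    · simpa using S2
  rw [← sum_filter_add_sum_filter_not I p3,
    ← sum_filter_add_sum_filter_not (I.filter fun k => ¬ p3 k) p1, ← hδε]
  linarith

end Pool.Agent.P.MP_a1177c_nt.LC
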