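import Pool.Agent.P.MP_a1177c_nt.LC.Step
import Pool.Agent.P.MP_a1177c_nt.LC.Decouple
import Pool.Agent.P.MP_a1177c_nt.LC.Dilate

namespace Pool.Agent.P.MP_a1177c_nt.LC

open Finset Filter MR MR.StructAux
open scoped ComplexConjugate Topology

namespace MainAux

lemma harm_le (M : ℕ) : ∑ n ∈ Icc 1 M, (1 : ℝ) / n ≤ 1 + Real.log M := by
  have h := harmonic_le_one_add_log M
  rw [harmonic_eq_sum_Icc] at h
  push_cast at h
  simpa only [one_div] using h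

lemma block_le (f : ℕ → ℝ) (hf : ∀ Y, 0 ≤ f Y) {m T N₀ : ℕ} (X : ℕ) (hm : m ≤ T) (h0 : 1 ≤ N₀) :
    ∑ Y ∈ Icc N₀ X, f Y / (Y : ℝ) ^ 2 ≤
      4 * ∑ N ∈ Ico N₀ ((X + 1) * 2 ^ T), 1 / (N : ℝ) * (f (N / 2 ^ m) * 2 ^ m / N) := by
  have hg : ∀ N : ℕ, 0 ≤ 1 / (N : ℝ) * (f (N / 2 ^ m) * 2 ^ m / N) := fun N => by
    have := hf (N / 2 ^ m); positivity
  have key := sum_fiberwise_le_sum_of_sum_fiber_nonneg (s := Ico N₀ ((X + 1) * 2 ^ T))
    (t := Icc N₀ X) (g := fun N => N / 2 ^ m)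
    (f := fun N : ℕ => 1 / (N : ℝ) * (f (N / 2 ^ m) * 2 ^ m / N))
    (fun _ _ => sum_nonneg fun N _ => hg N)
  refine le_trans ?_ (mul_le_mul_of_nonneg_left key (by norm_num))
  rw [mul_sum]
  refine sum_le_sum fun Y hY => ?_
  obtain ⟨hY1, hY2⟩ := mem_Icc.1 hY
  have hP : 0 < 2 ^ m := by positivity
  have hsub : Ico (Y * 2 ^ m) ((Y + 1) * 2 ^ m) ⊆
      (Ico N₀ ((X + 1) * 2 ^ T)).filter fun N => N / 2 ^ m = Y := fun N hN => by
    obtain ⟨h1, h2⟩ := mem_Ico.1 hN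
    refine mem_filter.2 ⟨mem_Ico.2 ⟨?_, h2.trans_le ?_⟩, Nat.div_eq_of_lt_le h1 h2⟩
    · exact hY1.trans ((Nat.le_mul_of_pos_right _ hP).trans h1)
    · exact Nat.mul_le_mul (by omega) (Nat.pow_le_pow_right two_pos hm)
  have hY0 : (1 : ℝ) ≤ Y := by exact_mod_cast h0.trans hY1
  have h3 := card_nsmul_le_sum (Ico (Y * 2 ^ m) ((Y + 1) * 2 ^ m))
    (fun N : ℕ => 1 / (N : ℝ) * (f (N / 2 ^ m) * 2 ^ m / N)) (f Y / (4 * Y ^ 2 * 2 ^ m)) fun N hN => by
    obtain ⟨h1, h2⟩ := mem_Ico.1 hN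
    have h4 : (Y : ℝ) * 2 ^ m ≤ N := by exact_mod_cast h1
    have h5 : (N : ℝ) ≤ (Y + 1) * 2 ^ m := by exact_mod_cast h2.le
    have h6 : (0 : ℝ) < N := lt_of_lt_of_le (by positivity) h4
    have h7 : (N : ℝ) ≤ 2 * Y * 2 ^ m :=
      h5.trans (mul_le_mul_of_nonneg_right (by linarith) (by positivity))
    simp only [Nat.div_eq_of_lt_le h1 h2]
    rw [show 1 / (N : ℝ) * (f Y * 2 ^ m / N) = f Y * 2 ^ m / N ^ 2 by field_simp,
      show f Y / (4 * Y ^ 2 * 2 ^ m) = f Y * 2 ^ m / (2 * Y * 2 ^ m) ^ 2 by field_simp; ring]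
    have := hf Y
    gcongr
  have h4 := sum_le_sum_of_subset_of_nonneg hsub fun N _ _ => hg N
  rw [Nat.card_Ico, add_mul, one_mul, Nat.add_sub_cancel_left, nsmul_eq_mul] at h3
  rw [add_mul, one_mul] at h4
  refine le_trans (le_of_eq ?_) (mul_le_mul_of_nonneg_left (h3.trans h4) (by norm_num))
  push_cast; field_simp

lemma avg (f : ℕ → ℝ) (hf : ∀ Y, 0 ≤ f Y) {C : ℝ} (hC : 0 ≤ C) (hb : ∀ Y, f Y ≤ C * Y)
    (h : ∀ ε : ℝ, 0 < ε → ∃ A : ℕ, 2 ≤ A ∧ ∀ᶠ T : ℕ in atTop, ∀ N : ℕ, Real.exp (4 ^ T) ≤ N →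
      N ≤ Real.exp (64 ^ T) → ∑ m ∈ Icc (T / A) T, 1 / (m : ℝ) * (f (N / 2 ^ m) * 2 ^ m / N) ≤
        ε * ∑ m ∈ Icc (T / A) T, (1 : ℝ) / m) :
    Tendsto (fun X : ℕ => (∑ Y ∈ Icc 1 X, f Y / (Y : ℝ) ^ 2) / Real.log X) atTop (𝓝 0) := by
  refine tendsto_order.2 ⟨fun a ha => Eventually.of_forall fun X => ha.trans_le
    (div_nonneg (sum_nonneg fun Y _ => div_nonneg (hf Y) (by positivity))
      (Real.log_natCast_nonneg X)), fun ε hε => ?_⟩
  obtain ⟨A, hA, H⟩ := h (ε / 24) (by positivity)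
  have hlog : Tendsto (fun X : ℕ => Real.log X) atTop atTop :=
    Real.tendsto_log_atTop.comp tendsto_natCast_atTop_atTop
  have hT : Tendsto (fun X : ℕ => Nat.log 16 ⌊Real.log X⌋₊) atTop atTop := by
    have h0 : Tendsto (Nat.log 16) atTop atTop := tendsto_atTop_atTop.2 fun b =>
      ⟨16 ^ b, fun n hn => Nat.le_log_of_pow_le (by norm_num) hn⟩
    exact h0.comp (tendsto_nat_floor_atTop.comp hlog)
  have h4 : Tendsto (fun T : ℕ => (4 : ℝ) ^ T) atTop atTop :=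
    tendsto_pow_atTop_atTop_of_one_lt (by norm_num)
  filter_upwards [hT.eventually H, hT.eventually (eventually_ge_atTop A),
    hT.eventually (eventually_ge_atTop 3), hT.eventually (h4.eventually_gt_atTop (6 * C / ε)),
    hlog.eventually_ge_atTop 1] with X h1 hTA hT3 hT4 hX1
  set T := Nat.log 16 ⌊Real.log X⌋₊ with hTdef
  have hfl : ⌊Real.log X⌋₊ ≠ 0 := (Nat.floor_pos.2 hX1).ne'
  have hlo : (16 : ℝ) ^ T ≤ Real.log X :=
    le_trans (by exact_mod_cast Nat.pow_log_le_self 16 hfl) (Nat.floor_le (by linarith))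
  have hhi : Real.log X ≤ 16 * 16 ^ T := by
    have h2 : ⌊Real.log X⌋₊ + 1 ≤ 16 ^ (T + 1) := Nat.lt_pow_succ_log_self (by norm_num) _
    have h3 : (⌊Real.log X⌋₊ : ℝ) + 1 ≤ 16 ^ (T + 1) := by exact_mod_cast h2
    rw [pow_succ'] at h3
    linarith [Nat.lt_floor_add_one (Real.log X)]
  have hX0 : (1 : ℝ) ≤ X := by
    rcases Nat.eq_zero_or_pos X with rfl | h2
    · simp at hX1; linarith
    · exact_mod_cast h2
  have hT16 : (T : ℝ) + 2 ≤ 16 ^ T := by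
    have := one_add_mul_le_pow (show (-2 : ℝ) ≤ 15 by norm_num) T
    have h3 : (3 : ℝ) ≤ T := by exact_mod_cast hT3
    norm_num at this; linarith
  have h64 : (64 : ℝ) ≤ 4 ^ T := by
    calc (64 : ℝ) = 4 ^ 3 := by norm_num
      _ ≤ _ := pow_le_pow_right₀ (by norm_num) hT3
  have e16 : (16 : ℝ) ^ T = 4 ^ T * 4 ^ T := by rw [← mul_pow]; norm_num
  have e64 : (64 : ℝ) ^ T = 4 ^ T * 16 ^ T := by rw [← mul_pow]; norm_num
  set M := (X + 1) * 2 ^ T with hM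
  have hM0 : (0 : ℝ) < M := by positivity
  have hlogM : Real.log M ≤ Real.log X + 1 + T := by
    have h2 : (M : ℝ) ≤ X * 2 ^ (T + 1) := by
      rw [hM, pow_succ]; push_cast; nlinarith [show (0 : ℝ) < 2 ^ T by positivity]
    refine (Real.log_le_log hM0 h2).trans ?_
    rw [Real.log_mul (by positivity) (by positivity), Real.log_pow]; push_cast
    nlinarith [DecAux.log_two_le, show (0 : ℝ) ≤ T by positivity]
  have hMle : (M : ℝ) ≤ Real.exp (64 ^ T) := by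
    rw [← Real.log_le_iff_le_exp hM0]
    nlinarith [mul_le_mul_of_nonneg_right h64 (show (0 : ℝ) ≤ 16 ^ T by positivity)]
  set N₀ := ⌈Real.exp (4 ^ T)⌉₊ with hN₀
  have hN1 : 1 ≤ N₀ := Nat.ceil_pos.2 (Real.exp_pos _)
  set Hs := ∑ m ∈ Icc (T / A) T, (1 : ℝ) / m with hHs
  have hH0 : 0 < Hs := (Real.log_pos (by exact_mod_cast hA)).trans_le
    (DecAux.log_le_harm' (by omega) hTA)
  have big : ∑ Y ∈ Icc N₀ X, f Y / (Y : ℝ) ^ 2 ≤ ε / 6 * (1 + Real.log M) := by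
    refine le_of_mul_le_mul_left ?_ hH0
    calc _ = ∑ m ∈ Icc (T / A) T, 1 / (m : ℝ) * ∑ Y ∈ Icc N₀ X, f Y / (Y : ℝ) ^ 2 := by
          rw [hHs, sum_mul]
      _ ≤ ∑ m ∈ Icc (T / A) T, 1 / (m : ℝ) *
            (4 * ∑ N ∈ Ico N₀ M, 1 / (N : ℝ) * (f (N / 2 ^ m) * 2 ^ m / N)) :=
          sum_le_sum fun m hm => mul_le_mul_of_nonneg_left
            (block_le f hf X (mem_Icc.1 hm).2 hN1) (by positivity)
      _ = 4 * ∑ N ∈ Ico N₀ M, 1 / (N : ℝ) *
            ∑ m ∈ Icc (T / A) T, 1 / (m : ℝ) * (f (N / 2 ^ m) * 2 ^ m / N) := by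
          simp only [mul_sum]
          rw [sum_comm]
          exact sum_congr rfl fun _ _ => sum_congr rfl fun _ _ => by ring
      _ ≤ 4 * ∑ N ∈ Ico N₀ M, 1 / (N : ℝ) * (ε / 24 * Hs) := by
          refine mul_le_mul_of_nonneg_left (sum_le_sum fun N hN => mul_le_mul_of_nonneg_left
            (h1 N ?_ ?_) (by positivity)) (by norm_num)
          · exact Nat.ceil_le.1 (mem_Ico.1 hN).1
          · exact le_trans (by exact_mod_cast (mem_Ico.1 hN).2.le) hMle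
      _ ≤ 4 * ((1 + Real.log M) * (ε / 24 * Hs)) := by
          rw [← sum_mul]
          refine mul_le_mul_of_nonneg_left (mul_le_mul_of_nonneg_right (le_trans
            (sum_le_sum_of_subset_of_nonneg (fun N hN => ?_) fun _ _ _ => by positivity)
            (harm_le M)) (by positivity)) (by norm_num)
          exact mem_Icc.2 ⟨hN1.trans (mem_Ico.1 hN).1, (mem_Ico.1 hN).2.le⟩
      _ = _ := by ring
  have small : ∑ Y ∈ Icc 1 N₀, f Y / (Y : ℝ) ^ 2 ≤ C * (3 * 4 ^ T) := by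
    have h2 : Real.log N₀ ≤ 1 + 4 ^ T := by
      have h3 : (N₀ : ℝ) ≤ 2 * Real.exp (4 ^ T) := by
        linarith [Nat.ceil_lt_add_one (Real.exp_pos (4 ^ T)).le,
          Real.one_le_exp (show (0 : ℝ) ≤ 4 ^ T by positivity)]
      refine (Real.log_le_log (by exact_mod_cast hN1) h3).trans ?_
      rw [Real.log_mul (by norm_num) (Real.exp_pos _).ne', Real.log_exp]
      linarith [DecAux.log_two_le]
    calc _ ≤ ∑ Y ∈ Icc 1 N₀, C * (1 / (Y : ℝ)) := by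
          refine sum_le_sum fun Y hY => ?_
          have : (0 : ℝ) < Y := by exact_mod_cast (mem_Icc.1 hY).1
          rw [div_le_iff₀ (by positivity)]
          exact (hb Y).trans (le_of_eq (by field_simp))
      _ ≤ _ := by
          rw [← mul_sum]
          exact mul_le_mul_of_nonneg_left ((harm_le N₀).trans (by linarith)) hC
  have split : ∑ Y ∈ Icc 1 X, f Y / (Y : ℝ) ^ 2 ≤
      ∑ Y ∈ Icc 1 N₀, f Y / (Y : ℝ) ^ 2 + ∑ Y ∈ Icc N₀ X, f Y / (Y : ℝ) ^ 2 := by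
    have h0 : ∀ Y : ℕ, 0 ≤ f Y / (Y : ℝ) ^ 2 := fun Y => div_nonneg (hf Y) (by positivity)
    rw [← sum_union_inter]
    refine le_add_of_le_of_nonneg (sum_le_sum_of_subset_of_nonneg (fun Y hY => ?_)
      fun _ _ _ => h0 _) (sum_nonneg fun _ _ => h0 _)
    simp only [mem_union, mem_Icc] at hY ⊢
    omega
  rw [div_lt_iff₀ (by linarith)]
  rw [div_lt_iff₀ hε] at hT4
  have t1 : C * (3 * 4 ^ T) < ε / 2 * Real.log X := by
    have := mul_lt_mul_of_pos_right hT4 (show (0 : ℝ) < 4 ^ T by positivity)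
    nlinarith [mul_le_mul_of_nonneg_left hlo hε.le]
  have t2 : ε / 6 * (1 + Real.log M) ≤ ε / 6 * (3 * Real.log X) :=
    mul_le_mul_of_nonneg_left (by linarith) (by positivity)
  linarith

lemma theta_lower {β : ℝ} (h1 : 1 < β) (h2 : β ≤ 2) : ∀ᶠ P : ℕ in atTop,
    (β - 1) / 4 * P ≤ ∑ p ∈ PS P, (if (p : ℝ) ≤ β * P then 1 else 0) * Real.log p := by
  filter_upwards [(sum_c1_tendsto le_rfl h1.le h2).eventually
    (lt_mem_nhds (show (β - 1) / 4 < (β - 1) / 2 by linarith)), eventually_gt_atTop 0] with P h hP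
  rw [lt_div_iff₀ (by exact_mod_cast hP)] at h
  refine h.le.trans (le_of_eq ?_)
  symm
  refine (sum_congr rfl fun p hp => ?_).trans (sum_subset (fun p hp => ?_) fun p hp hp' => ?_)
  · obtain ⟨⟨h3, -⟩, h4, h5⟩ := mem_PS.1 hp
    have h6 : (1 : ℝ) * P < p := by rw [one_mul]; exact_mod_cast h3
    have h7 : (p : ℤ) % 4 = 1 := by omega
    simp only [c1, Int.cast_natCast, h6, h7, Int.natAbs_natCast, h4, true_and, and_true]
    split_ifs <;> simp
  · exact mem_range.2 (by have := (mem_PS.1 hp).1.2; omega)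
  · refine if_neg fun hc => hp' (mem_PS.2 ⟨⟨?_, by have := mem_range.1 hp; omega⟩, ?_, ?_⟩)
    · have := hc.1; rw [one_mul] at this; exact_mod_cast this
    · simpa using hc.2.2.1
    · have := hc.2.2.2; omega

lemma one_scale {P : ℕ} {a c ε N Y E F : ℝ} (hc : 0 < c) (hP : 0 < P) (hN : 0 < N) (hε : 0 ≤ ε)
    (hY : Y * P ≤ N) (wt B D : ℕ → ℝ) (hw : ∀ p, 0 ≤ wt p)
    (hθ : c * P ≤ ∑ p ∈ PS P, wt p * Real.log p)
    (hB : ∀ p ∈ PS P, wt p ≠ 0 → |a - B p| ≤ ε * Y)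
    (hE : ∑ p ∈ PS P, wt p * Real.log p * (p * B p - D p) = E)
    (hD : |∑ p ∈ PS P, wt p * Real.log p * D p| ≤ F * P * N) :
    |a| * P / N ≤ ε + (|E| / (P * N) + F) / c := by
  have hP' : (0 : ℝ) < P := by exact_mod_cast hP
  set θ := ∑ p ∈ PS P, wt p * Real.log p * p with hθdef
  have h0 : ∀ p : ℕ, 0 ≤ wt p * Real.log p := fun p => mul_nonneg (hw p) (Real.log_natCast_nonneg p)
  have h1 : c * P * P ≤ θ := by
    refine (mul_le_mul_of_nonneg_right hθ hP'.le).trans ?_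
    rw [sum_mul]
    exact sum_le_sum fun p hp => mul_le_mul_of_nonneg_left
      (by exact_mod_cast (mem_PS.1 hp).1.1.le) (h0 p)
  have hθ0 : 0 < θ := lt_of_lt_of_le (by positivity) h1
  have h2 : θ * a = ∑ p ∈ PS P, wt p * Real.log p * p * (a - B p) + E +
      ∑ p ∈ PS P, wt p * Real.log p * D p := by
    rw [← hE, hθdef, sum_mul, ← sum_add_distrib, ← sum_add_distrib]
    exact sum_congr rfl fun p _ => by ring
  have h3 : |∑ p ∈ PS P, wt p * Real.log p * p * (a - B p)| ≤ θ * (ε * Y) := by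
    rw [hθdef, sum_mul]
    refine (abs_sum_le_sum_abs _ _).trans (sum_le_sum fun p hp => ?_)
    by_cases h : wt p = 0
    · simp [h]
    · have h4 : 0 ≤ wt p * Real.log p * p := mul_nonneg (h0 p) (Nat.cast_nonneg _)
      rw [abs_mul, abs_of_nonneg h4]
      exact mul_le_mul_of_nonneg_left (hB p hp h) h4
  have h4 : θ * |a| ≤ θ * (ε * Y) + (|E| + F * P * N) := by
    rw [← abs_of_pos hθ0, ← abs_mul, h2, abs_of_pos hθ0]
    linarith [abs_add_three (∑ p ∈ PS P, wt p * Real.log p * p * (a - B p)) E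
      (∑ p ∈ PS P, wt p * Real.log p * D p)]
  have h5 : 0 ≤ |E| + F * P * N := add_nonneg (abs_nonneg _) ((abs_nonneg _).trans hD)
  have h6 : |a| ≤ ε * Y + (|E| + F * P * N) / (c * P * P) := by
    refine le_trans ?_ (add_le_add le_rfl (div_le_div_of_nonneg_left h5 (by positivity) h1))
    rw [← sub_le_iff_le_add', le_div_iff₀ hθ0]
    linarith
  rw [div_le_iff₀ hN]
  refine (mul_le_mul_of_nonneg_right h6 hP'.le).trans ?_
  rw [add_mul, add_mul]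
  refine add_le_add (by nlinarith) (le_of_eq ?_)
  field_simp

/-- The colouring: sign and shell. -/
noncomputable def col (J n : ℕ) (N : ℝ) (w : G) : Bool × Fin (n + 1) :=
  (decide (lam w = 1), Fin.ofNat (n + 1) ⌈J * (nm w : ℝ) / N⌉₊)

/-- The weight in terms of the colours. -/
def wcol (n : ℕ) (Φ : ℕ → ℕ → ℝ) (a b : Bool × Fin (n + 1)) : ℝ :=
  (if a.1 then 1 else -1) * (if b.1 then 1 else -1) * Φ a.2 b.2

lemma abs_wcol_le (n : ℕ) {Φ : ℕ → ℕ → ℝ} (h : ∀ i j, |Φ i j| ≤ 1) (a b : Bool × Fin (n + 1)) :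
    |wcol n Φ a b| ≤ 1 := by
  unfold wcol
  split_ifs <;> simp [h]

lemma wcol_col {J : ℕ} {K N : ℝ} (hK : 1 ≤ K) (hN : 0 < N) (Φ : ℕ → ℕ → ℝ) {w w' : G}
    (hw : w ∈ An (N / K) (K * N)) (hw' : w' ∈ An (N / K) (K * N)) :
    wcol ⌈J * K⌉₊ Φ (col J ⌈J * K⌉₊ N w) (col J ⌈J * K⌉₊ N w') =
      lam w * lam w' * Φ ⌈J * (nm w : ℝ) / N⌉₊ ⌈J * (nm w' : ℝ) / N⌉₊ := by
  have h1 : ∀ w : G, (if decide (lam w = 1) = true then (1 : ℝ) else -1) = lam w := fun w => by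
    rcases neg_one_pow_eq_or ℝ (ArithmeticFunction.cardFactors (nm w)) with h | h
    · rw [if_pos (by simpa [lam] using h), lam, h]
    · rw [if_neg (by rw [lam, h]; norm_num), lam, h]
  have h2 : ∀ w ∈ An (N / K) (K * N), ((Fin.ofNat (⌈J * K⌉₊ + 1) ⌈J * (nm w : ℝ) / N⌉₊ : Fin _) : ℕ) =
      ⌈J * (nm w : ℝ) / N⌉₊ := fun w hw => by
    refine Nat.mod_eq_of_lt (Nat.lt_succ_of_le (Nat.ceil_mono ?_))
    rw [mul_div_assoc]
    exact mul_le_mul_of_nonneg_left ((div_le_iff₀ hN).2 ((mem_An (by positivity)).1 hw).2.2)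
      (Nat.cast_nonneg _)
  exact congrArg₂ (· * ·) (congrArg₂ (· * ·) (h1 w) (h1 w')) (congrArg₂ Φ (h2 w hw) (h2 w' hw'))

end MainAux

open MainAux in
/-- Cancellation at almost all scales, for a Lipschitz weight. -/
theorem main_phi (K₀ : ℕ) (hK : 1 ≤ K₀) (φ : ℝ → ℝ) (Λ : ℝ) (h1 : ∀ x, |φ x| ≤ 1)
    (hs : ∀ x, φ x ≠ 0 → 1 / (K₀ : ℝ) ≤ x ∧ x ≤ K₀) (hL : ∀ x y, |φ x - φ y| ≤ Λ * |x - y|) :
    Tendsto (fun X : ℕ => (∑ Y ∈ Icc 1 X, |Aφ φ K₀ Y| / (Y : ℝ) ^ 2) / Real.log X) atTop (𝓝 0) := by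
  classical
  refine avg (fun Y => |Aφ φ K₀ Y|) (fun _ => abs_nonneg _) (C := 200 * K₀) (by positivity)
    (abs_Aφ_le K₀ hK φ h1) fun ε hε => ?_
  obtain ⟨β, K, J, P₀, Y₀, Φ, hβ1, hβ2, hK1, hJ, hΦ, H1⟩ :=
    dilate K₀ hK φ Λ h1 hs hL (half_pos hε)
  set c := (β - 1) / 4 with hc
  have hc0 : 0 < c := by rw [hc]; linarith
  obtain ⟨A, hA, H2⟩ := decouple (Bool × Fin (⌈J * K⌉₊ + 1)) K (ε * c / 4) hK1 (by positivity)
  refine ⟨A, hA, ?_⟩
  have hA0 : (0 : ℝ) < A := by exact_mod_cast (show 0 < A by omega)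
  obtain ⟨N₁, H3⟩ := eventually_atTop.1 (prime_pairs (a := 1 / (12 * A)) (ε := ε * c / 4) J hJ hK1
    (by positivity) (by positivity) hβ1.le hβ2)
  obtain ⟨P₁, H4⟩ := eventually_atTop.1 (theta_lower hβ1 hβ2)
  have hdiv := Nat.tendsto_div_const_atTop (show A ≠ 0 by omega)
  have h4 : Tendsto (fun T : ℕ => (4 : ℝ) ^ T) atTop atTop :=
    tendsto_pow_atTop_atTop_of_one_lt (by norm_num)
  filter_upwards [H2, hdiv.eventually (eventually_ge_atTop (P₀ + P₁ + 1)), eventually_ge_atTop Y₀,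
    h4.eventually_ge_atTop N₁, h4.eventually_ge_atTop (2 * K)] with T h2 hP hY hN₁ hK2 N hN1 hN2
  have hN0 : (0 : ℝ) < N := (Real.exp_pos _).trans_le hN1
  have hq := Real.quadratic_le_exp_of_nonneg (show (0 : ℝ) ≤ 4 ^ T by positivity)
  have h4T : (0 : ℝ) < 4 ^ T := by positivity
  have hN3 : (4 : ℝ) ^ T ≤ N := by nlinarith
  have hN4 : (4 : ℝ) ^ T * K ≤ N := by nlinarith
  have key := h2 N hN1 hN2 (col J ⌈J * K⌉₊ N) (wcol ⌈J * K⌉₊ Φ)
    (fun m p => if (p : ℝ) ≤ β * (2 ^ m : ℕ) then 1 else 0) (abs_wcol_le _ hΦ)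
    (fun m p => by split_ifs <;> norm_num)
  have hstep : ∀ m ∈ Icc (T / A) T, |Aφ φ K₀ (N / 2 ^ m)| * (2 ^ m : ℕ) / N ≤ ε / 2 +
      (|Edec N K (col J ⌈J * K⌉₊ N) (wcol ⌈J * K⌉₊ Φ)
        (fun p => if (p : ℝ) ≤ β * (2 ^ m : ℕ) then 1 else 0) m| / ((2 ^ m : ℕ) * N) + ε * c / 4) / c := by
    intro m hm
    obtain ⟨hm1, hm2⟩ := mem_Icc.1 hm
    have hm3 : m < 2 ^ m := Nat.lt_two_pow_self
    have hP0 : 0 < 2 ^ m := by positivity
    have hY1 : ((N / 2 ^ m : ℕ) : ℝ) * (2 ^ m : ℕ) ≤ N := by exact_mod_cast Nat.div_mul_le_self _ _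
    have hY2 : (N : ℝ) < ((N / 2 ^ m : ℕ) + 1) * (2 ^ m : ℕ) := by
      have := Nat.lt_mul_div_succ N hP0
      rw [mul_comm] at this
      exact_mod_cast this
    have hY3 : Y₀ ≤ N / 2 ^ m := by
      rw [Nat.le_div_iff_mul_le hP0]
      have h5 : 4 ^ T ≤ N := by exact_mod_cast hN3
      calc Y₀ * 2 ^ m ≤ 2 ^ T * 2 ^ T := Nat.mul_le_mul (hY.trans Nat.lt_two_pow_self.le)
            (Nat.pow_le_pow_right two_pos hm2)
        _ = 4 ^ T := (mul_pow 2 2 T).symm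
        _ ≤ N := h5
    have hlog : Real.log N ^ (1 / (12 * (A : ℝ))) ≤ (2 ^ m : ℕ) := by
      have h5 : Real.log N ≤ (2 : ℝ) ^ ((6 * T : ℕ) : ℝ) := by
        rw [Real.rpow_natCast, pow_mul]; norm_num
        exact (Real.log_le_iff_le_exp hN0).2 hN2
      refine (Real.rpow_le_rpow (Real.log_natCast_nonneg N) h5 (by positivity)).trans ?_
      rw [← Real.rpow_mul two_pos.le]; push_cast
      rw [← Real.rpow_natCast]
      refine Real.rpow_le_rpow_of_exponent_le one_le_two ?_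
      have h6 : T < A * (T / A + 1) := Nat.lt_mul_div_succ T (by omega)
      have h7 : T ≤ A * (2 * m) := h6.le.trans (Nat.mul_le_mul_left _ (by omega))
      have h8 : (T : ℝ) ≤ A * (2 * m) := by exact_mod_cast h7
      rw [mul_one_div, div_le_iff₀ (by positivity)]
      linarith
    have hPK : ((2 ^ m : ℕ) : ℝ) ^ 2 * K ≤ N := by
      refine le_trans (mul_le_mul_of_nonneg_right ?_ (by linarith)) hN4
      push_cast
      rw [← pow_mul, mul_comm, pow_mul, show (2 : ℝ) ^ 2 = 4 by norm_num]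
      exact pow_le_pow_right₀ (by norm_num) hm2
    refine one_scale hc0 hP0 hN0 (half_pos hε).le hY1 _ _ _ (fun p => by positivity)
      (H4 _ (by omega)) (fun p hp hw => H1 (2 ^ m) (N / 2 ^ m) p N (by omega) hY3 hp
        (by by_contra hc; exact hw (if_neg hc)) hY1 hY2) ?_
      (H3 N (hN₁.trans hN3) (2 ^ m) Φ hlog hPK hΦ)
    refine sum_congr rfl fun p _ => ?_
    congr 1
    rw [mul_sum, ← sum_sub_distrib]
    refine sum_congr rfl fun w hw => ?_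
    rw [mul_sum, ← sum_sub_distrib]
    refine sum_congr rfl fun w' hw' => ?_
    rw [wcol_col hK1 hN0 Φ hw hw']
    by_cases h5 : det w w' = p ∧ 0 < dot w w'
    · by_cases h6 : gp p ∣ w
      · rw [if_pos ⟨h5.1, h5.2, h6⟩, if_pos h5, if_pos h5, if_pos h6]; ring
      · rw [if_neg fun h => h6 h.2.2, if_pos h5, if_pos h5, if_neg h6]; ring
    · rw [if_neg fun h => h5 ⟨h.1, h.2.1⟩, if_neg h5, if_neg h5]; ring
  simp only [Nat.cast_pow, Nat.cast_ofNat] at hstep key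
  calc _ ≤ ∑ m ∈ Icc (T / A) T, (3 * ε / 4 * (1 / (m : ℝ)) + 1 / c *
        (|Edec N K (col J ⌈J * K⌉₊ N) (wcol ⌈J * K⌉₊ Φ)
          (fun p => if (p : ℝ) ≤ β * 2 ^ m then 1 else 0) m| / (m * 2 ^ m * N))) := by
        refine sum_le_sum fun m hm => (mul_le_mul_of_nonneg_left (hstep m hm) (by positivity)).trans
          (le_of_eq ?_)
        have : (m : ℝ) ≠ 0 := by
          have := (mem_Icc.1 hm).1
          exact_mod_cast (show m ≠ 0 by omega)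
        field_simp; ring
    _ ≤ _ := by
        rw [sum_add_distrib, ← mul_sum, ← mul_sum]
        have := mul_le_mul_of_nonneg_left key (show 0 ≤ 1 / c by positivity)
        rw [show ∀ x : ℝ, 1 / c * (ε * c / 4 * x) = ε / 4 * x from fun x => by field_simp] at this
        linarith

end Pool.Agent.P.MP_a1177c_nt.LC
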