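import Pool.Agent.P.MP_a1177c_nt.LC.LS4

/-!
The fourth moment of primes minus model over all characters to moduli of size `P`.
-/

namespace Pool.Agent.P.MP_a1177c_nt.LC

open Finset Filter MR MR.StructAux
open scoped ComplexConjugate Topology

namespace Mom4Aux

lemma card_dvd_le (n r : ℕ) : (((Ioc 0 n).filter fun x => r ∣ x).card : ℝ) ≤ n / r := by
  rw [Nat.Ioc_filter_dvd_card_eq_div]
  exact Nat.cast_div_le

lemma exists_big {w m D : ℕ} (h : Int.gcd (m : ℤ) (4 * WW w : ℕ) = 1) (h2 : ¬ m.Coprime D) :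
    ∃ r, w < r ∧ r ∣ m ∧ r ∣ D := by
  obtain ⟨p, hp, h3, h4⟩ := Nat.Prime.not_coprime_iff_dvd.1 h2
  rw [Int.gcd_natCast_natCast] at h
  refine ⟨p, ?_, h3, h4⟩
  by_contra hw
  have h5 : p ∣ 4 * WW w := by
    by_cases h6 : p = 2
    · rw [h6]; exact Dvd.dvd.mul_right (by norm_num) _
    · refine Dvd.dvd.mul_left (dvd_prod_of_mem _ (mem_filter.2 ⟨mem_Icc.2 ⟨?_, by omega⟩, hp⟩)) _
      have := hp.two_le
      omega
  exact hp.one_lt.ne' (Nat.eq_one_of_dvd_one (h ▸ Nat.dvd_gcd h3 h5))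

/-- Primes dividing the modulus. -/
lemma sumE1 {K a b : ℝ} {P N : ℕ} (hP : 0 < P) (ha : 1 ≤ a) (hK : 0 ≤ K) (hN : (N : ℝ) ≤ K * P) :
    ∑ D ∈ Ioc 0 N, ∑ m ∈ range (2 * P + 1), (if m.Coprime D then 0 else c1 a b P m) ≤
      K * ∑ m ∈ range (2 * P + 1), c1 a b P m := by
  rw [sum_comm, mul_sum]
  refine sum_le_sum fun m _ => ?_
  have h0 := c1_nonneg (a := a) b P m
  by_cases hc : c1 a b P m = 0
  · simp [hc]
  have h1 : a * P < ((m : ℤ) : ℝ) ∧ (m : ℤ).natAbs.Prime := by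
    by_contra h
    exact hc (by rw [c1, if_neg fun h' => h ⟨h'.1, h'.2.2.1⟩])
  have h2 : m.Prime := by simpa using h1.2
  have hP' : (0 : ℝ) < P := by exact_mod_cast hP
  have h3 : (P : ℝ) ≤ m := by
    have := h1.1
    push_cast at this
    nlinarith
  have h4 : ∑ D ∈ Ioc 0 N, (if m.Coprime D then 0 else c1 a b P m) =
      (((Ioc 0 N).filter fun x => m ∣ x).card : ℝ) * c1 a b P m := by
    rw [← nsmul_eq_mul, ← sum_const, sum_filter]
    refine sum_congr rfl fun D _ => ?_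
    by_cases h : m ∣ D
    · rw [if_pos h, if_neg fun h' => (h2.coprime_iff_not_dvd.1 h') h]
    · rw [if_neg h, if_pos (h2.coprime_iff_not_dvd.2 h)]
  rw [h4]
  refine mul_le_mul_of_nonneg_right ((card_dvd_le N m).trans ?_) h0
  rw [div_le_iff₀ (by linarith)]
  nlinarith

/-- Model integers that are not prime to the modulus. -/
lemma sumE2 {K a b : ℝ} {P N w : ℕ} (hw : 0 < w) (hK : 0 ≤ K)
    (hN : (N : ℝ) ≤ K * P) :
    ∑ D ∈ Ioc 0 N, ∑ m ∈ range (2 * P + 1), (if m.Coprime D then 0 else c2 (4 * WW w) a b P m) ≤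
      ((4 * WW w : ℕ) : ℝ) / (4 * WW w).totient * (2 * K * P ^ 2) / w := by
  set κ : ℝ := ((4 * WW w : ℕ) : ℝ) / (4 * WW w).totient with hκ
  have hκ0 : 0 ≤ κ := by positivity
  have hP0 : (0 : ℝ) ≤ P := Nat.cast_nonneg _
  have h1 : ∀ D ∈ Ioc 0 N, ∑ m ∈ range (2 * P + 1),
      (if m.Coprime D then 0 else c2 (4 * WW w) a b P m) ≤
      ∑ r ∈ Ioc w (w + 2 * P), if r ∣ D then κ * (2 * P / r) else 0 := by
    intro D _
    have h2 : ∀ m ∈ range (2 * P + 1), (if m.Coprime D then 0 else c2 (4 * WW w) a b P m) ≤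
        ∑ r ∈ Ioc w (w + 2 * P), if r ∣ D then (if 0 < m ∧ r ∣ m then κ else 0) else 0 := by
      intro m hm
      have h3 : ∀ r ∈ Ioc w (w + 2 * P),
          0 ≤ (if r ∣ D then (if 0 < m ∧ r ∣ m then κ else 0) else 0) := fun r _ => by
        split_ifs <;> simp [hκ0]
      by_cases h4 : m.Coprime D
      · rw [if_pos h4]; exact sum_nonneg h3
      rw [if_neg h4, c2]
      split_ifs with h5
      · obtain ⟨r, r1, r2, r3⟩ := exists_big h5.2.2.1 h4
        have h6 : 0 < m := by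
          have := h5.2.2.2
          omega
        have h7 : r ∈ Ioc w (w + 2 * P) := by
          have := Nat.le_of_dvd h6 r2
          have := mem_range.1 hm
          exact mem_Ioc.2 ⟨r1, by omega⟩
        refine le_trans ?_ (single_le_sum h3 h7)
        rw [if_pos r3, if_pos ⟨h6, r2⟩]
      · exact sum_nonneg h3
    refine (sum_le_sum h2).trans ?_
    rw [sum_comm]
    refine sum_le_sum fun r _ => ?_
    split_ifs with h3
    · rw [← sum_filter, sum_const, nsmul_eq_mul, mul_comm]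
      refine mul_le_mul_of_nonneg_left ?_ hκ0
      have h4 : (range (2 * P + 1)).filter (fun m => 0 < m ∧ r ∣ m) =
          (Ioc 0 (2 * P)).filter fun x => r ∣ x := by
        ext m
        simp only [mem_filter, mem_range, mem_Ioc]
        constructor
        · rintro ⟨a, b, c⟩; exact ⟨⟨b, by omega⟩, c⟩
        · rintro ⟨⟨a, b⟩, c⟩; exact ⟨by omega, a, c⟩
      rw [h4]
      simpa using card_dvd_le (2 * P) r
    · simp
  refine (sum_le_sum h1).trans ?_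
  rw [sum_comm]
  have h2 : ∀ r ∈ Ioc w (w + 2 * P), ∑ D ∈ Ioc 0 N, (if r ∣ D then κ * (2 * P / r) else 0) ≤
      κ * (2 * K * P ^ 2) * ((r : ℝ) ^ 2)⁻¹ := by
    intro r hr
    have hr0 : (0 : ℝ) < r := by
      have := (mem_Ioc.1 hr).1
      exact_mod_cast hw.trans this
    rw [← sum_filter, sum_const, nsmul_eq_mul]
    have h3 : (((Ioc 0 N).filter fun x => r ∣ x).card : ℝ) ≤ K * P / r :=
      (card_dvd_le N r).trans (div_le_div_of_nonneg_right hN hr0.le)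
    refine (mul_le_mul_of_nonneg_right h3 (by positivity)).trans (le_of_eq ?_)
    field_simp
  refine (sum_le_sum h2).trans ?_
  rw [← mul_sum, div_eq_mul_inv _ (w : ℝ)]
  refine mul_le_mul_of_nonneg_left ?_ (by positivity)
  refine (sum_Ioc_inv_sq_le_sub hw.ne' (Nat.le_add_right _ _)).trans ?_
  have : (0 : ℝ) ≤ ((w + 2 * P : ℕ) : ℝ)⁻¹ := by positivity
  linarith

lemma mod_four {q P : ℕ} {a b : ℝ} {m : ℕ} (h : cb q a b P m ≠ 0) : m % 4 = 1 := by
  by_contra hc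
  have : ¬ ((m : ℤ) % 4 = 1) := by omega
  refine h ?_
  rw [cb, c1, c2, if_neg fun h' => this h'.2.2.2, if_neg fun h' => this h'.2.2.2, sub_zero]

/-- The transform at an exceptional character. -/
lemma exc_le {q P D : ℕ} {a b : ℝ} (χ : DirichletCharacter ℂ D) (hχ : Exc χ) :
    ‖∑ m ∈ range (2 * P + 1), (cb q a b P m : ℂ) * χ m‖ ≤
      |∑ m ∈ range (2 * P + 1), c1 a b P m - ∑ m ∈ range (2 * P + 1), c2 q a b P m| +
      (∑ m ∈ range (2 * P + 1), (if m.Coprime D then 0 else c1 a b P m) +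
        ∑ m ∈ range (2 * P + 1), (if m.Coprime D then 0 else c2 q a b P m)) := by
  have h1 : ∑ m ∈ range (2 * P + 1), (cb q a b P m : ℂ) * χ m =
      ((∑ m ∈ range (2 * P + 1), cb q a b P m -
        ∑ m ∈ range (2 * P + 1), (if m.Coprime D then 0 else cb q a b P m) : ℝ) : ℂ) := by
    rw [← sum_sub_distrib, Complex.ofReal_sum]
    refine sum_congr rfl fun m _ => ?_
    by_cases h : m.Coprime D
    · rw [if_pos h, sub_zero]
      by_cases h0 : cb q a b P m = 0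
      · simp [h0]
      · rw [hχ m (mod_four h0) h, mul_one]
    · rw [if_neg h, sub_self, χ.map_nonunit (by rwa [ZMod.isUnit_iff_coprime])]
      simp
  rw [h1, Complex.norm_real, Real.norm_eq_abs, ← sum_sub_distrib (f := fun m : ℕ => c1 a b P m),
    ← sum_add_distrib]
  refine (abs_sub _ _).trans (add_le_add le_rfl ((abs_sum_le_sum_abs _ _).trans
    (sum_le_sum fun m _ => ?_)))
  split_ifs
  · simp
  · exact abs_cb_le _ _ _ _ _

lemma triv_le {q P D : ℕ} {a b : ℝ} (χ : DirichletCharacter ℂ D) :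
    ‖∑ m ∈ range (2 * P + 1), (cb q a b P m : ℂ) * χ m‖ ≤
      ∑ m ∈ range (2 * P + 1), cp q a b P m := by
  refine (norm_sum_le _ _).trans (sum_le_sum fun m _ => ?_)
  rw [norm_mul, Complex.norm_real, Real.norm_eq_abs]
  exact (mul_le_of_le_one_right (abs_nonneg _) (χ.norm_le_one _)).trans (abs_cb_le _ _ _ _ _)

lemma card_char {D : ℕ} (hD : 0 < D) :
    (univ : Finset (DirichletCharacter ℂ D)).card = D.totient := by
  have : NeZero D := ⟨hD.ne'⟩
  rw [card_univ, ← Nat.card_eq_fintype_card,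
    DirichletCharacter.card_eq_totient_of_hasEnoughRootsOfUnity]

open Classical in
/-- The model at the characters that are not exceptional. -/
lemma model_small {q : ℕ} (hq : 0 < q) (h4 : 4 ∣ q) {K η ε : ℝ} (hK : 1 ≤ K) (hε : 0 < ε) :
    ∀ᶠ P : ℕ in atTop, ∀ a b : ℝ, 1 ≤ a → b ≤ 2 →
    ∑ D ∈ Ioc ⌊η * P⌋₊ ⌊K * P⌋₊, (1 / (D.totient : ℝ)) *
      ∑ χ ∈ univ.filter (fun χ : DirichletCharacter ℂ D => ¬ Exc χ),
        ‖∑ m ∈ range (2 * P + 1), (c2 q a b P m : ℂ) * χ m‖ ^ 4 ≤ ε * (P : ℝ) ^ 4 := by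
  obtain ⟨C, hC, hc⟩ := c2_char_le
  have hq' : (1 : ℝ) ≤ q := by exact_mod_cast hq
  set c : ℝ := Real.exp 1 * (q * K) with hcdef
  have hc0 : 0 < c := by positivity
  have ht : Tendsto (fun P : ℕ => Real.log (c * P) ^ 4 / (1 * (c * P) + 0)) atTop (𝓝 0) :=
    (Real.tendsto_pow_log_div_mul_add_atTop 1 0 4 one_ne_zero).comp
      (tendsto_natCast_atTop_atTop.const_mul_atTop hc0)
  have hA : 0 < C ^ 4 * q ^ 6 * K ^ 3 * c := by positivity
  filter_upwards [ht.eventually_le_const (div_pos hε hA), eventually_ge_atTop 1] with P h1 hP a b ha hb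
  have hP' : (1 : ℝ) ≤ P := by exact_mod_cast hP
  rw [one_mul, add_zero, div_le_div_iff₀ (by positivity) hA] at h1
  have hN : (⌊K * P⌋₊ : ℝ) ≤ K * P := Nat.floor_le (by positivity)
  have h2 : ∀ D ∈ Ioc ⌊η * P⌋₊ ⌊K * P⌋₊, (1 / (D.totient : ℝ)) *
      ∑ χ ∈ univ.filter (fun χ : DirichletCharacter ℂ D => ¬ Exc χ),
        ‖∑ m ∈ range (2 * P + 1), (c2 q a b P m : ℂ) * χ m‖ ^ 4 ≤
        C ^ 4 * q ^ 4 * (q * (K * P)) ^ 2 * Real.log (c * P) ^ 4 := by
    intro D hD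
    have hD0 : 0 < D := lt_of_le_of_lt (Nat.zero_le _) (mem_Ioc.1 hD).1
    have hD1 : (1 : ℝ) ≤ D := by exact_mod_cast hD0
    have hD2 : (D : ℝ) ≤ K * P := le_trans (by exact_mod_cast (mem_Ioc.1 hD).2) hN
    have hφ : (0 : ℝ) < D.totient := by exact_mod_cast Nat.totient_pos.2 hD0
    have h3 : 1 + Real.log (q * D) ≤ Real.log (c * P) := by
      rw [hcdef, mul_assoc, Real.log_mul (Real.exp_pos 1).ne' (by positivity), Real.log_exp]
      refine add_le_add le_rfl (Real.log_le_log (by positivity) ?_)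
      rw [mul_assoc]
      exact mul_le_mul_of_nonneg_left hD2 (by positivity)
    have h5 : 0 ≤ 1 + Real.log (q * D) := by
      have := Real.log_nonneg (one_le_mul_of_one_le_of_one_le hq' hD1)
      linarith
    have h6 : (C * q * √(q * D) * (1 + Real.log (q * D))) ^ 4 ≤
        C ^ 4 * q ^ 4 * (q * (K * P)) ^ 2 * Real.log (c * P) ^ 4 := by
      have : √((q : ℝ) * D) ^ 4 = (q * D) ^ 2 := by
        rw [show (4 : ℕ) = 2 * 2 from rfl, pow_mul, Real.sq_sqrt (by positivity)]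
      rw [mul_pow, mul_pow, mul_pow, this]
      gcongr
    rw [one_div, inv_mul_le_iff₀ hφ]
    refine (sum_le_card_nsmul _ _ _ fun χ hχ => (pow_le_pow_left₀ (norm_nonneg _)
      (hc q D P a b χ hq h4 hD0 ha hb (mem_filter.1 hχ).2) 4).trans h6).trans ?_
    rw [nsmul_eq_mul]
    refine mul_le_mul_of_nonneg_right ?_ (by positivity)
    rw [← card_char hD0]
    exact_mod_cast card_filter_le _ _
  refine (sum_le_card_nsmul _ _ _ h2).trans ?_
  rw [nsmul_eq_mul, Nat.card_Ioc]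
  have h7 : ((⌊K * P⌋₊ - ⌊η * P⌋₊ : ℕ) : ℝ) ≤ K * P :=
    le_trans (by exact_mod_cast Nat.sub_le _ _) hN
  refine (mul_le_mul_of_nonneg_right h7 (by positivity)).trans ?_
  have h8 : Real.log (c * P) ^ 4 * (C ^ 4 * q ^ 6 * K ^ 3) ≤ ε * P :=
    le_of_mul_le_mul_right (by nlinarith) hc0
  calc K * P * (C ^ 4 * q ^ 4 * (q * (K * P)) ^ 2 * Real.log (c * P) ^ 4)
      = Real.log (c * P) ^ 4 * (C ^ 4 * q ^ 6 * K ^ 3) * P ^ 3 := by ring
    _ ≤ ε * P * P ^ 3 := by gcongr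
    _ = ε * P ^ 4 := by ring

lemma one_term {x y ρ φ D P η τ C : ℝ} (hx : 0 ≤ x) (hxy : x ≤ y) (hxC : x ≤ C * P) (hP : 0 < P)
    (hη : 0 < η) (hτ : 0 < τ) (hφ : 0 < φ) (hD : η * P ≤ D) (hρ : ρ = D / φ) :
    1 / φ * x ^ 4 ≤ C ^ 3 * P ^ 2 / η * (τ * P * ρ ^ 2 + C / τ * y) := by
  have hD0 : 0 < D := lt_of_lt_of_le (by positivity) hD
  have hρ0 : 0 < ρ := by rw [hρ]; positivity
  have hCP : 0 ≤ C * P := hx.trans hxC
  have hC : 0 ≤ C := nonneg_of_mul_nonneg_left hCP hP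
  have h1 : 1 / φ ≤ ρ / (η * P) := by
    rw [hρ, div_div, div_le_div_iff₀ hφ (by positivity)]
    nlinarith
  have h2 : ρ * x ≤ τ * P * ρ ^ 2 + C / τ * y := by
    have h3 : x ^ 2 / (τ * P) ≤ C / τ * y := by
      rw [div_le_iff₀ (by positivity)]
      have : C / τ * y * (τ * P) = C * P * y := by field_simp
      rw [this, sq]
      exact mul_le_mul hxC hxy hx hCP
    have h4 : ρ * x ≤ τ * P * ρ ^ 2 + x ^ 2 / (τ * P) := by
      have h5 : 0 < τ * P := by positivity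
      have h6 : τ * P * ρ ^ 2 + x ^ 2 / (τ * P) - ρ * x =
          ((τ * P * ρ - x) ^ 2 + τ * P * ρ * x) / (τ * P) := by field_simp; ring
      have h7 : 0 ≤ ((τ * P * ρ - x) ^ 2 + τ * P * ρ * x) / (τ * P) := by positivity
      linarith
    linarith
  calc 1 / φ * x ^ 4 ≤ ρ / (η * P) * ((C * P) ^ 3 * x) := by
        rw [show x ^ 4 = x ^ 3 * x by ring]
        gcongr
    _ = C ^ 3 * P ^ 2 / η * (ρ * x) := by field_simp
    _ ≤ _ := by gcongr

open Classical in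
/-- The exceptional characters. -/
lemma exc_small {K η ε : ℝ} (hK : 1 ≤ K) (hη : 0 < η) (hε : 0 < ε) : ∀ᶠ w : ℕ in atTop,
    ∀ a b : ℝ, 1 ≤ a → a ≤ b → b ≤ 2 → ∀ᶠ P : ℕ in atTop,
    ∑ D ∈ Ioc ⌊η * P⌋₊ ⌊K * P⌋₊, (1 / (D.totient : ℝ)) *
      ∑ χ ∈ univ.filter (fun χ : DirichletCharacter ℂ D => Exc χ),
      ‖∑ m ∈ range (2 * P + 1), (cb (4 * WW w) a b P m : ℂ) * χ m‖ ^ 4 ≤ ε * (P : ℝ) ^ 4 := by
  obtain ⟨C, hC, hcp⟩ := sum_cp_le
  obtain ⟨C', hC', hr⟩ := sum_ratio_sq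
  set A : ℝ := 2 * C ^ 3 * K / η with hA
  have hA0 : 0 < A := by positivity
  set τ : ℝ := ε / (4 * A * C') with hτ
  have hτ0 : 0 < τ := by positivity
  set δ : ℝ := ε * τ / (4 * A * C) with hδ
  have hδ0 : 0 < δ := by positivity
  filter_upwards [kappa_tendsto.eventually_le_const (half_pos hδ0), eventually_ge_atTop 1]
    with w hw hw1 a b ha hab hb
  have hq : 0 < 4 * WW w := Nat.mul_pos (by norm_num) (odd_WW w).pos
  set κ : ℝ := ((4 * WW w : ℕ) : ℝ) / (4 * WW w).totient with hκ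
  have hκ1 : 1 ≤ κ := by
    rw [hκ, le_div_iff₀ (by exact_mod_cast Nat.totient_pos.2 hq), one_mul]
    exact_mod_cast Nat.totient_le _
  have hw0 : (0 : ℝ) < w := by exact_mod_cast hw1
  have hκw : κ / w ≤ δ / 2 :=
    le_trans (div_le_div_of_nonneg_right (by nlinarith) hw0.le) hw
  have ht := ((sum_c1_tendsto ha hab hb).sub
    (sum_c2_tendsto hq (Dvd.intro _ rfl) ha hab hb)).abs
  rw [sub_self, abs_zero] at ht
  have ht2 : Tendsto (fun P : ℕ => C / (P : ℝ)) atTop (𝓝 0) :=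
    tendsto_const_div_atTop_nhds_zero_nat C
  filter_upwards [ht.eventually_le_const hδ0, ht2.eventually_le_const hδ0, hcp _ hq,
    eventually_ge_atTop 1] with P h1 h2 h3 hP
  have hP' : (0 : ℝ) < P := by exact_mod_cast hP
  rw [← sub_div, abs_div, abs_of_pos hP', div_le_iff₀ hP'] at h1
  rw [div_le_iff₀ hP'] at h2
  have h4 : ∑ m ∈ range (2 * P + 1), cp (4 * WW w) a b P m ≤ C * P := by
    have := h3 a b ha hb ((range (2 * P + 1)).map Nat.castEmbedding)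
    rwa [sum_map] at this
  have h5 : ∑ m ∈ range (2 * P + 1), c1 a b P m ≤ C * P :=
    le_trans (sum_le_sum fun m _ => le_add_of_nonneg_right (c2_nonneg _ _ _ _ _)) h4
  have hN : (⌊K * P⌋₊ : ℝ) ≤ K * P := Nat.floor_le (by positivity)
  set E : ℕ → ℝ := fun D => ∑ m ∈ range (2 * P + 1), (if m.Coprime D then 0 else c1 a b P m) +
    ∑ m ∈ range (2 * P + 1), (if m.Coprime D then 0 else c2 (4 * WW w) a b P m) with hE
  have hE0 : ∀ D, 0 ≤ E D := fun D => add_nonneg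
    (sum_nonneg fun m _ => by split_ifs; exacts [le_rfl, c1_nonneg _ _ _])
    (sum_nonneg fun m _ => by split_ifs; exacts [le_rfl, c2_nonneg _ _ _ _ _])
  have hEs : ∑ D ∈ Ioc 0 ⌊K * P⌋₊, E D ≤ 2 * δ * K * P ^ 2 := by
    rw [hE, sum_add_distrib]
    have a1 := sumE1 (b := b) hP ha (by linarith) hN
    have a2 := sumE2 (a := a) (b := b) hw1 (by linarith) hN
    have a3 : K * ∑ m ∈ range (2 * P + 1), c1 a b P m ≤ K * (δ * P * P) := by
      refine mul_le_mul_of_nonneg_left (h5.trans ?_) (by linarith)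
      exact mul_le_mul_of_nonneg_right h2 hP'.le
    have a4 : κ * (2 * K * P ^ 2) / w ≤ δ / 2 * (2 * K * P ^ 2) := by
      rw [mul_div_right_comm]
      exact mul_le_mul_of_nonneg_right hκw (by positivity)
    nlinarith
  have h6 : ∀ D ∈ Ioc ⌊η * P⌋₊ ⌊K * P⌋₊, (1 / (D.totient : ℝ)) *
      ∑ χ ∈ univ.filter (fun χ : DirichletCharacter ℂ D => Exc χ),
      ‖∑ m ∈ range (2 * P + 1), (cb (4 * WW w) a b P m : ℂ) * χ m‖ ^ 4 ≤
      2 * (C ^ 3 * P ^ 2 / η * (τ * P * ((D : ℝ) / D.totient) ^ 2 + C / τ * (δ * P + E D))) := by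
    intro D hD
    have hD0 : 0 < D := lt_of_le_of_lt (Nat.zero_le _) (mem_Ioc.1 hD).1
    have hD1 : η * P ≤ D := (Nat.lt_of_floor_lt (mem_Ioc.1 hD).1).le
    have hφ : (0 : ℝ) < D.totient := by exact_mod_cast Nat.totient_pos.2 hD0
    rw [mul_sum]
    refine (sum_le_card_nsmul _ _ _ fun χ hχ => one_term (norm_nonneg _)
      ((exc_le χ (mem_filter.1 hχ).2).trans (add_le_add h1 le_rfl)) ((triv_le χ).trans h4) hP' hη
      hτ0 hφ hD1 rfl).trans ?_
    rw [nsmul_eq_mul]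
    have := hE0 D
    exact mul_le_mul_of_nonneg_right (by exact_mod_cast card_Exc_le hD0) (by positivity)
  refine (sum_le_sum h6).trans ((sum_le_sum_of_subset_of_nonneg
    (Ioc_subset_Ioc_left (Nat.zero_le _)) fun D _ _ => ?_).trans ?_)
  · have := hE0 D
    positivity
  rw [← mul_sum, ← mul_sum, sum_add_distrib, ← mul_sum, ← mul_sum, sum_add_distrib, sum_const,
    nsmul_eq_mul, Nat.card_Ioc, Nat.sub_zero]
  have h7 : ∑ D ∈ Ioc 0 ⌊K * P⌋₊, ((D : ℝ) / D.totient) ^ 2 ≤ C' * (K * P) :=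
    (hr ⌊K * P⌋₊).trans (mul_le_mul_of_nonneg_left hN hC'.le)
  calc 2 * (C ^ 3 * P ^ 2 / η * (τ * P * ∑ D ∈ Ioc 0 ⌊K * P⌋₊, ((D : ℝ) / D.totient) ^ 2 +
        C / τ * ((⌊K * P⌋₊ : ℝ) * (δ * P) + ∑ D ∈ Ioc 0 ⌊K * P⌋₊, E D)))
      ≤ 2 * (C ^ 3 * P ^ 2 / η * (τ * P * (C' * (K * P)) +
        C / τ * (K * P * (δ * P) + 2 * δ * K * P ^ 2))) := by gcongr
    _ = (A * C' * τ + 3 * (A * C * δ / τ)) * P ^ 4 := by rw [hA]; field_simp; ring
    _ = ε * P ^ 4 := by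
        have a1 : A * C' * τ = ε / 4 := by rw [hτ]; field_simp
        have a2 : A * C * δ / τ = ε / 4 := by rw [hδ]; field_simp
        rw [a1, a2]; ring

end Mom4Aux

open Mom4Aux in
/-- The fourth moment of primes minus model. -/
theorem mom4 {K η ε : ℝ} (hK : 1 ≤ K) (hη : 0 < η) (hε : 0 < ε) : ∀ᶠ w : ℕ in atTop,
    ∀ a b : ℝ, 1 ≤ a → a ≤ b → b ≤ 2 → ∀ᶠ P : ℕ in atTop,
    ∑ D ∈ Ioc ⌊η * P⌋₊ ⌊K * P⌋₊, (1 / (D.totient : ℝ)) * ∑ χ : DirichletCharacter ℂ D,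
      ‖∑ m ∈ range (2 * P + 1), (cb (4 * WW w) a b P m : ℂ) * χ m‖ ^ 4 ≤ ε * (P : ℝ) ^ 4 := by
  classical
  have h32 : 0 < ε / 32 := by positivity
  filter_upwards [exc_small hK hη (half_pos hε)] with w hw a b ha hab hb
  have hq : 0 < 4 * WW w := Nat.mul_pos (by norm_num) (odd_WW w).pos
  filter_upwards [hw a b ha hab hb, ls4 hK hη h32 ha hab hb,
    model_small (η := η) hq (Dvd.intro _ rfl) hK h32] with P h1 h2 h3
  have h4 := h3 a b ha hb
  have h5 : ∀ D ∈ Ioc ⌊η * P⌋₊ ⌊K * P⌋₊, (1 / (D.totient : ℝ)) * ∑ χ : DirichletCharacter ℂ D,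
      ‖∑ m ∈ range (2 * P + 1), (cb (4 * WW w) a b P m : ℂ) * χ m‖ ^ 4 ≤
      (1 / (D.totient : ℝ)) * ∑ χ ∈ univ.filter (fun χ : DirichletCharacter ℂ D => Exc χ),
        ‖∑ m ∈ range (2 * P + 1), (cb (4 * WW w) a b P m : ℂ) * χ m‖ ^ 4 +
      (8 * ((1 / (D.totient : ℝ)) *
        ∑ χ ∈ univ.filter (fun χ : DirichletCharacter ℂ D => ¬ Exc χ),
          ‖∑ m ∈ range (2 * P + 1), (c1 a b P m : ℂ) * χ m‖ ^ 4) +
      8 * ((1 / (D.totient : ℝ)) *
        ∑ χ ∈ univ.filter (fun χ : DirichletCharacter ℂ D => ¬ Exc χ),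
          ‖∑ m ∈ range (2 * P + 1), (c2 (4 * WW w) a b P m : ℂ) * χ m‖ ^ 4)) := by
    intro D _
    rw [← sum_filter_add_sum_filter_not univ (fun χ : DirichletCharacter ℂ D => Exc χ), mul_add]
    refine add_le_add le_rfl ?_
    rw [← mul_add 8, ← mul_add, ← sum_add_distrib, mul_left_comm, mul_sum _ _ (8 : ℝ)]
    refine mul_le_mul_of_nonneg_left (sum_le_sum fun χ _ => ?_) (by positivity)
    have h6 : ∑ m ∈ range (2 * P + 1), (cb (4 * WW w) a b P m : ℂ) * χ m =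
        ∑ m ∈ range (2 * P + 1), (c1 a b P m : ℂ) * χ m -
        ∑ m ∈ range (2 * P + 1), (c2 (4 * WW w) a b P m : ℂ) * χ m := by
      rw [← sum_sub_distrib]
      refine sum_congr rfl fun m _ => ?_
      rw [cb]; push_cast; ring
    rw [h6]
    refine (pow_le_pow_left₀ (norm_nonneg _) (norm_sub_le _ _) 4).trans
      ((add_pow_le (norm_nonneg _) (norm_nonneg _) 4).trans (le_of_eq ?_))
    norm_num
  refine (sum_le_sum h5).trans ?_
  rw [sum_add_distrib, sum_add_distrib, ← mul_sum, ← mul_sum]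
  linarith

end Pool.Agent.P.MP_a1177c_nt.LC
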