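import Pool.Agent.P.MP_a1177c_nt.LC.UB
import Pool.Agent.P.MP_a1177c_nt.LC.Geo

namespace Pool.Agent.P.MP_a1177c_nt.LC

open Finset Filter MR MR.StructAux
open scoped ComplexConjugate Topology

namespace NearAux

/-- The ratio `|b| / φ(|b|)`. -/
noncomputable def rt (b : ℤ) : ℝ := (b.natAbs : ℝ) / b.natAbs.totient

lemma rt_nonneg (b : ℤ) : 0 ≤ rt b := by unfold rt; positivity

lemma rt_neg (b : ℤ) : rt (-b) = rt b := by simp [rt]

/-- Summation over a set of points whose rows are intervals. -/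
lemma sum_rows (h : G) (c : ℤ → ℝ) (hc : ∀ j, 0 ≤ c j) {A s : ℝ}
    (hub : ∀ (n : ℤ) (l : ℕ), ∑ j ∈ range l, c (n + j * (-h.im)) ≤ A * (l + s))
    (T : Finset G) (R : ℕ) (hR : ∀ w ∈ T, |w.im| ≤ R)
    (hconv : ∀ x₁ x₂ x y : ℤ, (⟨x₁, y⟩ : G) ∈ T → (⟨x₂, y⟩ : G) ∈ T → x₁ ≤ x → x ≤ x₂ →
      (⟨x, y⟩ : G) ∈ T) :
    ∑ w ∈ T, c (det h w) ≤ A * (T.card + (2 * R + 1) * s) := by
  classical
  have hmap : ∀ w ∈ T, w.im ∈ Icc (-(R : ℤ)) R := fun w hw => mem_Icc.2 (abs_le.1 (hR w hw))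
  have hrow : ∀ y : ℤ, ∑ w ∈ T.filter (fun w => w.im = y), c (det h w) ≤
      A * ((T.filter fun w => w.im = y).card + s) := by
    intro y
    set Ty := T.filter fun w => w.im = y with hTy
    rcases Ty.eq_empty_or_nonempty with he | hne
    · have := hub 0 0
      rw [he]
      simpa using this
    obtain ⟨w₀, hw₀, hmin⟩ := exists_min_image Ty (fun w => w.re) hne
    obtain ⟨hw₀T, hw₀y⟩ := mem_filter.1 hw₀
    let f : ℕ → G := fun j => ⟨w₀.re + j, y⟩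
    have hf : Function.Injective f := by
      intro i j hij
      have := congrArg Zsqrtd.re hij
      simp only [f] at this
      omega
    have hsub : Ty ⊆ (range Ty.card).image f := by
      intro w hw
      obtain ⟨hwT, hwy⟩ := mem_filter.1 hw
      have h0 : w₀.re ≤ w.re := hmin w hw
      obtain ⟨j, hj⟩ := Int.eq_ofNat_of_zero_le (sub_nonneg.2 h0)
      refine mem_image.2 ⟨j, mem_range.2 ?_, ?_⟩
      · have : (range (j + 1)).image f ⊆ Ty := by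
          intro z hz
          obtain ⟨i, hi, rfl⟩ := mem_image.1 hz
          have hi' := mem_range.1 hi
          refine mem_filter.2 ⟨hconv w₀.re w.re _ y ?_ ?_ (by omega) (by omega), rfl⟩
          · rw [← hw₀y]; exact hw₀T
          · rw [← hwy]; exact hwT
        have h2 := card_le_card this
        rw [card_image_of_injective _ hf, card_range] at h2
        omega
      · ext
        · simp only [f]; omega
        · simp only [f]; exact hwy.symm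
    calc ∑ w ∈ Ty, c (det h w) ≤ ∑ w ∈ (range Ty.card).image f, c (det h w) :=
          sum_le_sum_of_subset_of_nonneg hsub fun _ _ _ => hc _
      _ = ∑ j ∈ range Ty.card, c ((h.re * y - h.im * w₀.re) + j * (-h.im)) := by
          rw [sum_image fun i _ j _ hij => hf hij]
          refine sum_congr rfl fun j _ => ?_
          congr 1
          simp only [f, det]; ring
      _ ≤ _ := hub _ _
  rw [← sum_fiberwise_of_maps_to hmap]
  refine le_trans (sum_le_sum fun y _ => hrow y) ?_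
  rw [← mul_sum, sum_add_distrib, ← Nat.cast_sum, ← card_eq_sum_card_fiberwise hmap, sum_const,
    Int.card_Icc, nsmul_eq_mul]
  have : (((R : ℤ) + 1 - -(R : ℤ)).toNat : ℝ) = 2 * R + 1 := by
    have h1 : ((R : ℤ) + 1 - -(R : ℤ)).toNat = 2 * R + 1 := by omega
    rw [h1]; push_cast; ring
  rw [this]

/-- The disc with its centre. -/
noncomputable def D0 (X : ℝ) : Finset G := by classical exact insert 0 (disc ⌊X⌋₊)

lemma mem_D0 {X : ℝ} (hX : 0 ≤ X) {w : G} : w ∈ D0 X ↔ (nm w : ℝ) ≤ X := by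
  simp only [D0, mem_insert, mem_disc, Nat.le_floor_iff hX]
  constructor
  · rintro (rfl | h)
    · simpa using hX
    · exact h.2
  · intro h
    by_cases h0 : w = 0
    · exact Or.inl h0
    · exact Or.inr ⟨h0, h⟩

lemma disc_subset_D0 (X : ℝ) : disc ⌊X⌋₊ ⊆ D0 X := by
  classical
  intro w hw
  simp only [D0, mem_insert]
  exact Or.inr hw

lemma card_D0 {X : ℝ} (hX : 0 ≤ X) : ((D0 X).card : ℝ) ≤ 9 * X + 1 := by
  classical
  have h1 : (D0 X).card ≤ (disc ⌊X⌋₊).card + 1 := by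
    unfold D0
    convert card_insert_le _ _
  have h2 : ((D0 X).card : ℝ) ≤ (disc ⌊X⌋₊).card + 1 := by exact_mod_cast h1
  linarith [card_disc_floor_le hX]

lemma abs_le_floor {X : ℝ} {t : ℤ} (h : (t : ℝ) ^ 2 ≤ X) : |t| ≤ (⌊√X⌋₊ : ℕ) := by
  have h1 : |(t : ℝ)| ≤ √X := Real.abs_le_sqrt h
  have h2 : t.natAbs ≤ ⌊√X⌋₊ := Nat.le_floor (by rw [Nat.cast_natAbs]; push_cast; exact h1)
  rw [Int.abs_eq_natAbs]
  exact_mod_cast h2

lemma im_le {X : ℝ} {w : G} (h : (nm w : ℝ) ≤ X) : |w.im| ≤ (⌊√X⌋₊ : ℕ) :=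
  abs_le_floor (by rw [nm_real] at h; nlinarith [sq_nonneg (w.re : ℝ)])

lemma re_le {X : ℝ} {w : G} (h : (nm w : ℝ) ≤ X) : |w.re| ≤ (⌊√X⌋₊ : ℕ) :=
  abs_le_floor (by rw [nm_real] at h; nlinarith [sq_nonneg (w.im : ℝ)])

lemma nm_conv {X : ℝ} {x₁ x₂ x y : ℤ} (h1 : (nm (⟨x₁, y⟩ : G) : ℝ) ≤ X)
    (h2 : (nm (⟨x₂, y⟩ : G) : ℝ) ≤ X) (h3 : x₁ ≤ x) (h4 : x ≤ x₂) :
    (nm (⟨x, y⟩ : G) : ℝ) ≤ X := by
  rw [nm_real] at *
  simp only at *
  have h3' : (x₁ : ℝ) ≤ x := by exact_mod_cast h3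
  have h4' : (x : ℝ) ≤ x₂ := by exact_mod_cast h4
  rcases le_total 0 (x : ℝ) with h | h <;> nlinarith

lemma floor_sqrt_le {K : ℝ} (hK : 1 ≤ K) (s : ℝ) : (⌊√(K * s ^ 4)⌋₊ : ℝ) ≤ K * s ^ 2 := by
  refine (Nat.floor_le (Real.sqrt_nonneg _)).trans ?_
  refine Real.sqrt_le_iff.2 ⟨by positivity, ?_⟩
  have : 0 ≤ s ^ 4 := by positivity
  nlinarith [mul_nonneg (sub_nonneg.2 hK) (mul_nonneg (by linarith : (0 : ℝ) ≤ K) this)]

lemma sum_Icc_rt {C₁ : ℝ} (hC : ∀ B : ℕ, ∑ b ∈ Icc 1 B, ((b : ℝ) / b.totient) ^ 2 ≤ C₁ * B)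
    (R : ℕ) : ∑ y ∈ Icc (-(R : ℤ)) R, rt y ^ 2 ≤ 2 * (C₁ * R) := by
  classical
  have hmap : ∀ y ∈ Icc (-(R : ℤ)) R, y.natAbs ∈ Icc 0 R := fun y hy => by
    have := mem_Icc.1 hy
    exact mem_Icc.2 ⟨Nat.zero_le _, by omega⟩
  rw [← sum_fiberwise_of_maps_to hmap]
  have h1 : ∀ b ∈ Icc 0 R, ∑ y ∈ (Icc (-(R : ℤ)) R).filter (fun y => y.natAbs = b), rt y ^ 2 ≤
      2 * ((b : ℝ) / b.totient) ^ 2 := by
    intro b _
    have hsub : (Icc (-(R : ℤ)) R).filter (fun y => y.natAbs = b) ⊆ {(b : ℤ), -(b : ℤ)} := by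
      intro y hy
      have := (mem_filter.1 hy).2
      simp only [mem_insert, mem_singleton]
      omega
    have hc : (((Icc (-(R : ℤ)) R).filter (fun y => y.natAbs = b)).card : ℝ) ≤ 2 := by
      exact_mod_cast (card_le_card hsub).trans card_le_two
    rw [sum_congr rfl (g := fun _ => ((b : ℝ) / b.totient) ^ 2) fun y hy => by
      rw [rt, (mem_filter.1 hy).2], sum_const, nsmul_eq_mul]
    exact mul_le_mul_of_nonneg_right hc (by positivity)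
  refine le_trans (sum_le_sum h1) ?_
  rw [← mul_sum]
  refine mul_le_mul_of_nonneg_left (le_trans (le_of_eq ?_) (hC R)) (by norm_num)
  refine (sum_subset (fun b hb => ?_) fun b hb hb' => ?_).symm
  · exact mem_Icc.2 ⟨Nat.zero_le _, (mem_Icc.1 hb).2⟩
  · have h0 : b = 0 := by
      have := mem_Icc.1 hb
      by_contra h
      exact hb' (mem_Icc.2 ⟨by omega, this.2⟩)
    simp [h0]

lemma sum_disc_rt {C₁ : ℝ} (hC0 : 0 < C₁)
    (hC : ∀ B : ℕ, ∑ b ∈ Icc 1 B, ((b : ℝ) / b.totient) ^ 2 ≤ C₁ * B) {X : ℝ} (hX : 0 ≤ X) :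
    ∑ h ∈ disc ⌊X⌋₊, rt h.im ^ 2 ≤ 6 * C₁ * X := by
  classical
  set R := ⌊√X⌋₊ with hR
  let f : ℤ × ℤ → G := fun p => ⟨p.1, p.2⟩
  have hsub : disc ⌊X⌋₊ ⊆ (Icc (-(R : ℤ)) R ×ˢ Icc (-(R : ℤ)) R).image f := by
    intro w hw
    have h1 : (nm w : ℝ) ≤ X := (mem_D0 hX).1 (disc_subset_D0 X hw)
    exact mem_image.2 ⟨(w.re, w.im), mem_product.2
      ⟨mem_Icc.2 (abs_le.1 (re_le h1)), mem_Icc.2 (abs_le.1 (im_le h1))⟩, rfl⟩
  have h2 : (R : ℝ) ^ 2 ≤ X := by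
    have : (R : ℝ) ≤ √X := Nat.floor_le (Real.sqrt_nonneg _)
    calc (R : ℝ) ^ 2 ≤ √X ^ 2 := pow_le_pow_left₀ (Nat.cast_nonneg _) this 2
      _ = X := Real.sq_sqrt hX
  have h3 : (R : ℝ) ≤ (R : ℝ) ^ 2 := by exact_mod_cast Nat.le_self_pow (by norm_num) R
  calc ∑ h ∈ disc ⌊X⌋₊, rt h.im ^ 2
      ≤ ∑ h ∈ (Icc (-(R : ℤ)) R ×ˢ Icc (-(R : ℤ)) R).image f, rt h.im ^ 2 :=
        sum_le_sum_of_subset_of_nonneg hsub fun _ _ _ => by positivity
    _ ≤ ∑ p ∈ Icc (-(R : ℤ)) R ×ˢ Icc (-(R : ℤ)) R, rt (f p).im ^ 2 :=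
        sum_image_le_of_nonneg fun _ _ => by positivity
    _ = (2 * R + 1) * ∑ y ∈ Icc (-(R : ℤ)) R, rt y ^ 2 := by
        rw [sum_product]
        simp only [f]
        rw [sum_const, Int.card_Icc, nsmul_eq_mul]
        have h1 : ((R : ℤ) + 1 - -(R : ℤ)).toNat = 2 * R + 1 := by omega
        rw [h1]; push_cast; ring
    _ ≤ (2 * R + 1) * (2 * (C₁ * R)) :=
        mul_le_mul_of_nonneg_left (sum_Icc_rt hC R) (by positivity)
    _ ≤ 6 * C₁ * X := by nlinarith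

lemma card_axis {K s : ℝ} (hK : 1 ≤ K) (hs : 1 ≤ s) :
    (((disc ⌊K * s ^ 4⌋₊).filter fun h => h.im = 0).card : ℝ) ≤ 3 * K * s ^ 2 := by
  classical
  set R := ⌊√(K * s ^ 4)⌋₊ with hR
  have hX : 0 ≤ K * s ^ 4 := by positivity
  have hsub : ((disc ⌊K * s ^ 4⌋₊).filter fun h => h.im = 0) ⊆
      (Icc (-(R : ℤ)) R).image fun x => (⟨x, 0⟩ : G) := by
    intro w hw
    obtain ⟨h1, h2⟩ := mem_filter.1 hw
    have h3 : (nm w : ℝ) ≤ K * s ^ 4 := (mem_D0 hX).1 (disc_subset_D0 _ h1)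
    refine mem_image.2 ⟨w.re, mem_Icc.2 (abs_le.1 (re_le h3)), ?_⟩
    ext
    · rfl
    · exact h2.symm
  have h1 := (card_le_card hsub).trans card_image_le
  rw [Int.card_Icc] at h1
  have h2 : ((R : ℤ) + 1 - -(R : ℤ)).toNat = 2 * R + 1 := by omega
  rw [h2] at h1
  have h3 : (((disc ⌊K * s ^ 4⌋₊).filter fun h => h.im = 0).card : ℝ) ≤ 2 * R + 1 := by
    exact_mod_cast h1
  have h4 : (R : ℝ) ≤ K * s ^ 2 := floor_sqrt_le hK s
  have h5 : 1 ≤ K * s ^ 2 := one_le_mul_of_one_le_of_one_le hK (one_le_pow₀ hs)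
  linarith

lemma log_sq_le {s : ℝ} (hs : 1 ≤ s) : Real.log (s ^ 4) ^ 2 ≤ 64 * s := by
  have h0 : 0 < √s := Real.sqrt_pos.2 (by linarith)
  have h1 : Real.log (s ^ 4) = 8 * Real.log (√s) := by
    rw [Real.log_sqrt (by linarith), Real.log_pow]; push_cast; ring
  have h2 : Real.log (√s) ≤ √s := by linarith [Real.log_le_sub_one_of_pos h0]
  have h3 : 0 ≤ Real.log (√s) := Real.log_nonneg (Real.one_le_sqrt.2 hs)
  have h4 : √s ^ 2 = s := Real.sq_sqrt (by linarith)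
  rw [h1]
  nlinarith

/-- The contribution of the points on the real axis. -/
lemma sum_axis {K K' s : ℝ} (hK : 1 ≤ K) (hK' : 1 ≤ K') (hs : 1 ≤ s) (c : ℤ → ℝ)
    (hc : ∀ j, 0 ≤ c j) (hle : ∀ j, c j ≤ 3 * Real.log (s ^ 4)) :
    ∑ h ∈ (disc ⌊K' * s ^ 4⌋₊).filter (fun h => h.im = 0),
      (∑ h₁ ∈ disc ⌊K * s ^ 4⌋₊, c (det h h₁)) ^ 2 ≤ 139968 * K' * K ^ 2 * s ^ 11 := by
  have hL : 0 ≤ Real.log (s ^ 4) := Real.log_nonneg (one_le_pow₀ hs)
  have h1 : ∀ h : G, (∑ h₁ ∈ disc ⌊K * s ^ 4⌋₊, c (det h h₁)) ^ 2 ≤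
      46656 * K ^ 2 * s ^ 9 := by
    intro h
    have h2 : ∑ h₁ ∈ disc ⌊K * s ^ 4⌋₊, c (det h h₁) ≤
        9 * (K * s ^ 4) * (3 * Real.log (s ^ 4)) := by
      refine le_trans (sum_le_card_nsmul _ _ _ fun w _ => hle _) ?_
      rw [nsmul_eq_mul]
      exact mul_le_mul_of_nonneg_right (card_disc_floor_le (by positivity)) (by positivity)
    calc _ ≤ (9 * (K * s ^ 4) * (3 * Real.log (s ^ 4))) ^ 2 :=
          pow_le_pow_left₀ (sum_nonneg fun _ _ => hc _) h2 2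
      _ = 729 * K ^ 2 * s ^ 8 * Real.log (s ^ 4) ^ 2 := by ring
      _ ≤ 729 * K ^ 2 * s ^ 8 * (64 * s) :=
          mul_le_mul_of_nonneg_left (log_sq_le hs) (by positivity)
      _ = _ := by ring
  refine le_trans (sum_le_card_nsmul _ _ _ fun h _ => h1 h) ?_
  rw [nsmul_eq_mul]
  refine le_trans (mul_le_mul_of_nonneg_right (card_axis hK' hs) (by positivity)) ?_
  exact le_of_eq (by ring)

/-- The full sum over a disc. -/
lemma sum_disc_le {K s C₀ : ℝ} (hK : 1 ≤ K) (hs : 1 ≤ s) (hC : 0 < C₀) (h : G) (c : ℤ → ℝ)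
    (hc : ∀ j, 0 ≤ c j)
    (hub : ∀ (n : ℤ) (l : ℕ), ∑ j ∈ range l, c (n + j * (-h.im)) ≤ C₀ * rt h.im * (l + s)) :
    ∑ w ∈ disc ⌊K * s ^ 4⌋₊, c (det h w) ≤ 13 * C₀ * K * s ^ 4 * rt h.im := by
  have hX : 0 ≤ K * s ^ 4 := by positivity
  have h1 := sum_rows h c hc hub (D0 (K * s ^ 4)) ⌊√(K * s ^ 4)⌋₊
    (fun w hw => im_le ((mem_D0 hX).1 hw))
    (fun x₁ x₂ x y h1 h2 h3 h4 =>
      (mem_D0 hX).2 (nm_conv ((mem_D0 hX).1 h1) ((mem_D0 hX).1 h2) h3 h4))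
  refine le_trans (sum_le_sum_of_subset_of_nonneg (disc_subset_D0 _) fun _ _ _ => hc _)
    (h1.trans ?_)
  have h2 := card_D0 hX
  have h3 := floor_sqrt_le hK s
  have h4 : 1 ≤ K * s ^ 2 := one_le_mul_of_one_le_of_one_le hK (one_le_pow₀ hs)
  have h5 : 1 ≤ K * s ^ 4 := one_le_mul_of_one_le_of_one_le hK (one_le_pow₀ hs)
  have h6 : K * s ^ 3 ≤ K * s ^ 4 :=
    mul_le_mul_of_nonneg_left (pow_le_pow_right₀ hs (by norm_num)) (by linarith)
  have h7 : (2 * (⌊√(K * s ^ 4)⌋₊ : ℝ) + 1) * s ≤ 3 * (K * s ^ 2) * s :=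
    mul_le_mul_of_nonneg_right (by linarith) (by linarith)
  have h8 : ((D0 (K * s ^ 4)).card : ℝ) + (2 * (⌊√(K * s ^ 4)⌋₊ : ℝ) + 1) * s ≤
      13 * (K * s ^ 4) := by nlinarith
  calc _ ≤ C₀ * rt h.im * (13 * (K * s ^ 4)) :=
        mul_le_mul_of_nonneg_left h8 (mul_nonneg hC.le (rt_nonneg _))
    _ = _ := by ring

/-- The sum over a thin strip. -/
lemma sum_strip_le {K s C₀ η : ℝ} (hK : 1 ≤ K) (hs : 1 ≤ s) (hC : 0 < C₀) (hη : 0 < η)
    (hsη : 13 ≤ η * s) (h : G) (c : ℤ → ℝ) (hc : ∀ j, 0 ≤ c j)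
    (hub : ∀ (n : ℤ) (l : ℕ), ∑ j ∈ range l, c (n + j * (-h.im)) ≤ C₀ * rt h.im * (l + s))
    {h₁ : G} (h1 : cont h₁ = 1) (h2 : s ^ 4 / (2 * K) ≤ nm h₁) (h3 : (nm h₁ : ℝ) ≤ K * s ^ 4) :
    ∑ w ∈ (D0 (K * s ^ 4)).filter (fun w => |(det h₁ w : ℝ)| ≤ η * s ^ 4), c (det h w) ≤
      21 * C₀ * η * K * s ^ 4 * rt h.im := by
  classical
  have hX : 0 ≤ K * s ^ 4 := by positivity
  have hV : 0 ≤ η * s ^ 4 := by positivity
  set T := (D0 (K * s ^ 4)).filter (fun w => |(det h₁ w : ℝ)| ≤ η * s ^ 4) with hT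
  have e1 := sum_rows h c hc hub T ⌊√(K * s ^ 4)⌋₊
    (fun w hw => im_le ((mem_D0 hX).1 (mem_filter.1 hw).1))
    (fun x₁ x₂ x y h1 h2 h3 h4 => by
      obtain ⟨a1, a2⟩ := mem_filter.1 h1
      obtain ⟨b1, b2⟩ := mem_filter.1 h2
      refine mem_filter.2
        ⟨(mem_D0 hX).2 (nm_conv ((mem_D0 hX).1 a1) ((mem_D0 hX).1 b1) h3 h4), ?_⟩
      simp only [det] at a2 b2 ⊢
      push_cast at a2 b2 ⊢
      have h3' : (x₁ : ℝ) ≤ x := by exact_mod_cast h3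
      have h4' : (x : ℝ) ≤ x₂ := by exact_mod_cast h4
      rw [abs_le] at a2 b2 ⊢
      rcases le_total 0 (h₁.im : ℝ) with h | h
      · constructor <;> nlinarith [mul_le_mul_of_nonneg_left h3' h, mul_le_mul_of_nonneg_left h4' h]
      · constructor <;>
          nlinarith [mul_le_mul_of_nonpos_left h3' h, mul_le_mul_of_nonpos_left h4' h])
  have e2 : (T.card : ℝ) ≤ 5 * √(K * s ^ 4 / (s ^ 4 / (2 * K))) * (2 * (η * s ^ 4) + 1) := by
    have := sum_partners (X₀ := s ^ 4 / (2 * K)) (X := K * s ^ 4) (B := 2 * (η * s ^ 4) + 1)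
      (by positivity) h1 h2 h3 (T := T) (fun w hw => (mem_D0 hX).1 (mem_filter.1 hw).1)
      (fun j => if |(j : ℝ)| ≤ η * s ^ 4 then 1 else 0) (fun j => by positivity) (fun J => by
        rw [sum_boole]
        have hsub : J.filter (fun j : ℤ => |(j : ℝ)| ≤ η * s ^ 4) ⊆
            Icc (-(⌊η * s ^ 4⌋₊ : ℤ)) ⌊η * s ^ 4⌋₊ := by
          intro j hj
          have h4 := (mem_filter.1 hj).2
          have h5 : j.natAbs ≤ ⌊η * s ^ 4⌋₊ :=
            Nat.le_floor (by rw [Nat.cast_natAbs]; push_cast; exact h4)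
          exact mem_Icc.2 ⟨by omega, by omega⟩
        have h6 := card_le_card hsub
        rw [Int.card_Icc] at h6
        have h7 : ((⌊η * s ^ 4⌋₊ : ℤ) + 1 - -(⌊η * s ^ 4⌋₊ : ℤ)).toNat =
            2 * ⌊η * s ^ 4⌋₊ + 1 := by omega
        rw [h7] at h6
        have h8 : ((J.filter fun j : ℤ => |(j : ℝ)| ≤ η * s ^ 4).card : ℝ) ≤
            2 * (⌊η * s ^ 4⌋₊ : ℝ) + 1 := by exact_mod_cast h6
        linarith [Nat.floor_le hV])
    rw [sum_congr rfl (g := fun _ => (1 : ℝ)) fun w hw => if_pos (mem_filter.1 hw).2] at this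
    simpa using this
  have e3 : √(K * s ^ 4 / (s ^ 4 / (2 * K))) ≤ 2 * K := by
    refine Real.sqrt_le_iff.2 ⟨by linarith, ?_⟩
    have : K * s ^ 4 / (s ^ 4 / (2 * K)) = 2 * K ^ 2 := by field_simp
    rw [this]; nlinarith
  have e4 : (T.card : ℝ) ≤ 10 * K * (2 * (η * s ^ 4) + 1) :=
    e2.trans (mul_le_mul_of_nonneg_right (by linarith) (by positivity))
  have e5 := floor_sqrt_le hK s
  have e6 : 1 ≤ K * s ^ 2 := one_le_mul_of_one_le_of_one_le hK (one_le_pow₀ hs)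
  have e7 : (2 * (⌊√(K * s ^ 4)⌋₊ : ℝ) + 1) * s ≤ 3 * (K * s ^ 2) * s :=
    mul_le_mul_of_nonneg_right (by linarith) (by linarith)
  have e8 : K ≤ K * s ^ 3 := le_mul_of_one_le_right (by linarith) (one_le_pow₀ hs)
  have e9 : 13 * (K * s ^ 3) ≤ η * s * (K * s ^ 3) :=
    mul_le_mul_of_nonneg_right hsη (by positivity)
  have e10 : (T.card : ℝ) + (2 * (⌊√(K * s ^ 4)⌋₊ : ℝ) + 1) * s ≤ 21 * η * K * s ^ 4 := by
    nlinarith
  calc _ ≤ C₀ * rt h.im * (21 * η * K * s ^ 4) :=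
        e1.trans (mul_le_mul_of_nonneg_left e10 (mul_nonneg hC.le (rt_nonneg _)))
    _ = _ := by ring

lemma tendsto_root : Tendsto (fun P : ℕ => √(√(P : ℝ))) atTop atTop :=
  Real.tendsto_sqrt_atTop.comp (Real.tendsto_sqrt_atTop.comp tendsto_natCast_atTop_atTop)

lemma root_pow (P : ℕ) : √(√(P : ℝ)) ^ 4 = (P : ℝ) := by
  have h1 : √(√(P : ℝ)) ^ 2 = √(P : ℝ) := Real.sq_sqrt (Real.sqrt_nonneg _)
  have h2 : √(P : ℝ) ^ 2 = P := Real.sq_sqrt (Nat.cast_nonneg _)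
  calc √(√(P : ℝ)) ^ 4 = (√(√(P : ℝ)) ^ 2) ^ 2 := by ring
    _ = (P : ℝ) := by rw [h1, h2]

end NearAux

open NearAux

theorem near_all {K K' : ℝ} (hK : 1 ≤ K) (hK' : 1 ≤ K') : ∃ C : ℝ, 0 < C ∧ ∀ q : ℕ, 0 < q →
    ∀ᶠ P : ℕ in atTop, ∀ β : ℝ, β ≤ 2 →
      ∑ h ∈ disc ⌊K' * P⌋₊, (∑ h₁ ∈ disc ⌊K * P⌋₊, cp q 1 β P (det h h₁)) ^ 2 ≤
        C * (P : ℝ) ^ 3 := by
  classical
  obtain ⟨C₀, hC₀, hub⟩ := ub_ap
  obtain ⟨C₁, hC₁, hrat⟩ := sum_ratio_sq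
  refine ⟨139968 * K' * K ^ 2 + (13 * C₀ * K) ^ 2 * (6 * C₁ * K'), by positivity, fun q hq => ?_⟩
  filter_upwards [hub q hq, cp_le q, tendsto_root.eventually_ge_atTop 1] with P h1 h2 hs β hβ
  have hP := root_pow P
  set s := √(√(P : ℝ)) with hsdef
  set c : ℤ → ℝ := cp q 1 β P with hc
  have hc0 : ∀ j, 0 ≤ c j := cp_nonneg q 1 β P
  rw [← hP]
  rw [← sum_filter_add_sum_filter_not _ (fun h : G => h.im = 0)]
  have e1 := sum_axis hK hK' hs c hc0 (fun j => by rw [hP]; exact h2 1 β le_rfl hβ j)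
  have e2 : ∑ h ∈ (disc ⌊K' * s ^ 4⌋₊).filter (fun h => ¬ h.im = 0),
      (∑ h₁ ∈ disc ⌊K * s ^ 4⌋₊, c (det h h₁)) ^ 2 ≤
      (13 * C₀ * K * s ^ 4) ^ 2 * (6 * C₁ * (K' * s ^ 4)) := by
    calc _ ≤ ∑ h ∈ (disc ⌊K' * s ^ 4⌋₊).filter (fun h => ¬ h.im = 0),
          (13 * C₀ * K * s ^ 4) ^ 2 * rt h.im ^ 2 := by
          refine sum_le_sum fun h hh => ?_
          rw [← mul_pow]
          refine pow_le_pow_left₀ (sum_nonneg fun _ _ => hc0 _) ?_ 2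
          refine sum_disc_le hK hs hC₀ h c hc0 fun n l => ?_
          rw [← rt_neg]
          exact h1 1 β le_rfl hβ n _ l (neg_ne_zero.2 (mem_filter.1 hh).2)
      _ ≤ ∑ h ∈ disc ⌊K' * s ^ 4⌋₊, (13 * C₀ * K * s ^ 4) ^ 2 * rt h.im ^ 2 :=
          sum_le_sum_of_subset_of_nonneg (filter_subset _ _) fun _ _ _ => by positivity
      _ ≤ _ := by
          rw [← mul_sum]
          exact mul_le_mul_of_nonneg_left (sum_disc_rt hC₁ hrat (by positivity)) (by positivity)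
  have e3 : 139968 * K' * K ^ 2 * s ^ 11 ≤ 139968 * K' * K ^ 2 * s ^ 12 :=
    mul_le_mul_of_nonneg_left (pow_le_pow_right₀ hs (by norm_num)) (by positivity)
  calc _ ≤ 139968 * K' * K ^ 2 * s ^ 12 +
        (13 * C₀ * K * s ^ 4) ^ 2 * (6 * C₁ * (K' * s ^ 4)) := add_le_add (e1.trans e3) e2
    _ = _ := by ring

/-- The near diagonal terms. -/
theorem near_diag {K ε : ℝ} (hK : 1 ≤ K) (hε : 0 < ε) : ∃ η : ℝ, 0 < η ∧ ∀ q : ℕ, 0 < q →
    ∀ᶠ P : ℕ in atTop, ∀ β : ℝ, β ≤ 2 →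
      ∑ h ∈ disc ⌊2 * K * P⌋₊, ∑ h₁ ∈ An 0 (K * P), ∑ h₂ ∈ An 0 (K * P),
        (if |(det h₁ h₂ : ℝ)| ≤ η * P then cp q 1 β P (det h h₁) * cp q 1 β P (det h h₂) else 0) ≤
        ε * (P : ℝ) ^ 3 := by
  classical
  obtain ⟨C₀, hC₀, hub⟩ := ub_ap
  obtain ⟨C₁, hC₁, hrat⟩ := sum_ratio_sq
  have hK0 : 0 < K := by linarith
  set η : ℝ := ε / (2 * (3276 * C₀ ^ 2 * C₁ * K ^ 3)) with hη
  have hη0 : 0 < η := by positivity
  refine ⟨η, hη0, fun q hq => ?_⟩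
  filter_upwards [hub q hq, cp_le q, tendsto_root.eventually_ge_atTop 1,
    tendsto_root.eventually_ge_atTop (13 / η),
    tendsto_root.eventually_ge_atTop (2 * (139968 * (2 * K) * K ^ 2) / ε)] with
    P h1 h2 hs hs1 hs2 β hβ
  have hP := root_pow P
  set s := √(√(P : ℝ)) with hsdef
  set c : ℤ → ℝ := cp q 1 β P with hc
  have hc0 : ∀ j, 0 ≤ c j := cp_nonneg q 1 β P
  have hsup : ∀ j, c j ≠ 0 → s ^ 4 < j := fun j hj => by
    have := (support_cp hj).1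
    rwa [one_mul, ← hP] at this
  rw [← hP]
  rw [div_le_iff₀ hη0] at hs1
  rw [div_le_iff₀ hε] at hs2
  have hX : 0 ≤ K * s ^ 4 := by positivity
  rw [← sum_filter_add_sum_filter_not _ (fun h : G => h.im = 0)]
  have e0 := sum_axis hK (show 1 ≤ 2 * K by linarith) hs c hc0
    (fun j => by rw [hP]; exact h2 1 β le_rfl hβ j)
  have e1 : ∑ h ∈ (disc ⌊2 * K * s ^ 4⌋₊).filter (fun h => h.im = 0),
      ∑ h₁ ∈ An 0 (K * s ^ 4), ∑ h₂ ∈ An 0 (K * s ^ 4),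
        (if |(det h₁ h₂ : ℝ)| ≤ η * s ^ 4 then c (det h h₁) * c (det h h₂) else 0) ≤
      139968 * (2 * K) * K ^ 2 * s ^ 11 := by
    refine le_trans (sum_le_sum fun h _ => ?_) e0
    calc _ ≤ ∑ h₁ ∈ An 0 (K * s ^ 4), ∑ h₂ ∈ An 0 (K * s ^ 4), c (det h h₁) * c (det h h₂) := by
          refine sum_le_sum fun h₁ _ => sum_le_sum fun h₂ _ => ?_
          split_ifs
          · exact le_rfl
          · exact mul_nonneg (hc0 _) (hc0 _)
      _ = (∑ h₁ ∈ An 0 (K * s ^ 4), c (det h h₁)) ^ 2 := by rw [sq, sum_mul_sum]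
      _ ≤ _ := pow_le_pow_left₀ (sum_nonneg fun _ _ => hc0 _)
          (sum_le_sum_of_subset_of_nonneg (An_subset_disc _ _) fun _ _ _ => hc0 _) 2
  have e2 : ∑ h ∈ (disc ⌊2 * K * s ^ 4⌋₊).filter (fun h => ¬ h.im = 0),
      ∑ h₁ ∈ An 0 (K * s ^ 4), ∑ h₂ ∈ An 0 (K * s ^ 4),
        (if |(det h₁ h₂ : ℝ)| ≤ η * s ^ 4 then c (det h h₁) * c (det h h₂) else 0) ≤
      (13 * C₀ * K * s ^ 4) * (21 * C₀ * η * K * s ^ 4) * (6 * C₁ * (2 * K * s ^ 4)) := by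
    calc _ ≤ ∑ h ∈ (disc ⌊2 * K * s ^ 4⌋₊).filter (fun h => ¬ h.im = 0),
          (13 * C₀ * K * s ^ 4) * (21 * C₀ * η * K * s ^ 4) * rt h.im ^ 2 := by
          refine sum_le_sum fun h hh => ?_
          obtain ⟨hd, him⟩ := mem_filter.1 hh
          have hnm : (nm h : ℝ) ≤ 2 * K * s ^ 4 :=
            (mem_D0 (by positivity)).1 (disc_subset_D0 _ hd)
          have hubh : ∀ (n : ℤ) (l : ℕ), ∑ j ∈ range l, c (n + j * (-h.im)) ≤
              C₀ * rt h.im * (l + s) := fun n l => by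
            rw [← rt_neg]
            exact h1 1 β le_rfl hβ n _ l (neg_ne_zero.2 him)
          have hrt := rt_nonneg h.im
          calc _ ≤ ∑ h₁ ∈ An 0 (K * s ^ 4),
                c (det h h₁) * (21 * C₀ * η * K * s ^ 4 * rt h.im) := by
                refine sum_le_sum fun h₁ hh₁ => ?_
                obtain ⟨a1, -, a3⟩ := (mem_An le_rfl).1 hh₁
                by_cases hz : c (det h h₁) = 0
                · simp [hz]
                have a4 := hsup _ hz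
                have a5 : ((det h h₁ : ℤ) : ℝ) ^ 2 ≤ (nm h : ℝ) * nm h₁ := by
                  have := dot_sq_add_det_sq h h₁
                  have h' : (det h h₁) ^ 2 ≤ (nm h : ℤ) * nm h₁ := by
                    nlinarith [sq_nonneg (dot h h₁)]
                  exact_mod_cast h'
                have a6 : s ^ 4 / (2 * K) ≤ nm h₁ := by
                  rw [div_le_iff₀ (by positivity)]
                  have b1 : (s ^ 4) ^ 2 ≤ ((det h h₁ : ℤ) : ℝ) ^ 2 :=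
                    pow_le_pow_left₀ (by positivity) a4.le 2
                  have b2 : (nm h : ℝ) * nm h₁ ≤ 2 * K * s ^ 4 * nm h₁ :=
                    mul_le_mul_of_nonneg_right hnm (Nat.cast_nonneg _)
                  have b3 : 0 < s ^ 4 := by positivity
                  refine le_of_mul_le_mul_right ?_ b3
                  nlinarith
                rw [← sum_filter, ← mul_sum]
                refine mul_le_mul_of_nonneg_left (le_trans ?_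
                  (sum_strip_le hK hs hC₀ hη0 (by linarith) h c hc0 hubh a1 a6 a3)) (hc0 _)
                refine sum_le_sum_of_subset_of_nonneg (filter_subset_filter _ ?_)
                  fun _ _ _ => hc0 _
                exact (An_subset_disc _ _).trans (disc_subset_D0 _)
            _ = (∑ h₁ ∈ An 0 (K * s ^ 4), c (det h h₁)) *
                (21 * C₀ * η * K * s ^ 4 * rt h.im) := by rw [sum_mul]
            _ ≤ (13 * C₀ * K * s ^ 4 * rt h.im) * (21 * C₀ * η * K * s ^ 4 * rt h.im) := by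
                refine mul_le_mul_of_nonneg_right ?_ (by positivity)
                exact le_trans
                  (sum_le_sum_of_subset_of_nonneg (An_subset_disc _ _) fun _ _ _ => hc0 _)
                  (sum_disc_le hK hs hC₀ h c hc0 hubh)
            _ = _ := by ring
      _ ≤ ∑ h ∈ disc ⌊2 * K * s ^ 4⌋₊,
          (13 * C₀ * K * s ^ 4) * (21 * C₀ * η * K * s ^ 4) * rt h.im ^ 2 :=
          sum_le_sum_of_subset_of_nonneg (filter_subset _ _) fun _ _ _ => by positivity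
      _ ≤ _ := by
          rw [← mul_sum]
          exact mul_le_mul_of_nonneg_left (sum_disc_rt hC₁ hrat (by positivity)) (by positivity)
  have e3 : (13 * C₀ * K * s ^ 4) * (21 * C₀ * η * K * s ^ 4) * (6 * C₁ * (2 * K * s ^ 4)) =
      ε / 2 * (s ^ 4) ^ 3 := by
    rw [hη]; field_simp; ring
  have e4 : 139968 * (2 * K) * K ^ 2 * s ^ 11 ≤ ε / 2 * (s ^ 4) ^ 3 := by
    have : 139968 * (2 * K) * K ^ 2 ≤ s * ε / 2 := by linarith
    calc _ ≤ s * ε / 2 * s ^ 11 := mul_le_mul_of_nonneg_right this (by positivity)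
      _ = _ := by ring
  linarith

end Pool.Agent.P.MP_a1177c_nt.LC
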