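import Pool.Agent.P.MP_a1177c_nt.LC.Classes
import Pool.Agent.P.MP_a1177c_nt.LC.KernBil

namespace Pool.Agent.P.MP_a1177c_nt.LC

open Finset Filter MR MR.StructAux
open scoped ComplexConjugate Topology

namespace RoughAux

/-- Indicator of the integers `1 mod 4` prime to `q`. -/
noncomputable def uu (q : ℕ) (m : ℤ) : ℂ := if Int.gcd m q = 1 ∧ m % 4 = 1 then 1 else 0

lemma norm_uu (q : ℕ) (m : ℤ) : ‖uu q m‖ ≤ 1 := by
  unfold uu
  split_ifs <;> simp

lemma uu_congr {W : ℕ} {m m' : ℤ} (h : ((4 * W : ℕ) : ℤ) ∣ m - m') :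
    uu (4 * W) m = uu (4 * W) m' := by
  obtain ⟨c, hc⟩ := h
  have e : m = m' + ((4 * W : ℕ) : ℤ) * c := by linarith
  have e4 : m % 4 = m' % 4 := by
    have : m = m' + 4 * (W * c) := by rw [e]; push_cast; ring
    omega
  rw [uu, uu, e4, e, Int.gcd_add_mul_left_left]

lemma uu_mul {q : ℕ} {t : ℤ} (h4 : t % 4 = 1) (ht : Int.gcd t q = 1) (m : ℤ) :
    uu q (t * m) = uu q m := by
  have e4 : t * m % 4 = m % 4 := by rw [Int.mul_emod, h4, one_mul, Int.emod_emod]
  have e : Int.gcd (t * m) q = 1 ↔ Int.gcd m q = 1 := by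
    rw [← Int.isCoprime_iff_gcd_eq_one] at ht
    rw [← Int.isCoprime_iff_gcd_eq_one, ← Int.isCoprime_iff_gcd_eq_one, IsCoprime.mul_left_iff]
    exact and_iff_right ht
  simp only [uu, e4, e]

lemma shell_eq {N N₁ N₂ K : ℝ} {J a : ℕ} (hN : 0 < N) (hK : 1 ≤ K) (hJ : K ≤ J) (h1 : N / K ≤ N₁)
    (h2 : N₂ ≤ K * N) (g : G → ℂ) :
    ∑ w ∈ (An (N / K) (K * N)).filter (fun w => ⌈J * (nm w : ℝ) / N⌉₊ = a),
      (if w ∈ An N₁ N₂ then g w else 0) =
      ∑ w ∈ An (max N₁ ((a - 1) * N / J)) (min N₂ (a * N / J)), g w := by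
  have K0 : 0 < N / K := by positivity
  have J0 : (0 : ℝ) < J := by linarith
  rw [← sum_filter]
  refine sum_congr ?_ fun _ _ => rfl
  ext w
  rw [mem_filter, mem_filter, mem_An K0.le, mem_An (K0.le.trans h1),
    mem_An ((K0.le.trans h1).trans (le_max_left _ _)), max_lt_iff, le_min_iff, div_lt_iff₀ J0,
    le_div_iff₀ J0]
  constructor
  · rintro ⟨⟨-, rfl⟩, c1, c2, c3⟩
    have a1 := Nat.le_ceil (J * (nm w : ℝ) / N)
    have a2 := Nat.ceil_lt_add_one (show 0 ≤ J * (nm w : ℝ) / N by positivity)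
    rw [div_le_iff₀ hN] at a1
    rw [← sub_lt_iff_lt_add, lt_div_iff₀ hN] at a2
    exact ⟨c1, ⟨c2, by linarith⟩, c3, by linarith⟩
  · rintro ⟨c1, ⟨c2, c4⟩, c3, c5⟩
    refine ⟨⟨⟨c1, by linarith, by linarith⟩, ?_⟩, c1, c2, c3⟩
    have w0 : (0 : ℝ) < nm w := by linarith
    have a0 : a ≠ 0 := by
      rintro rfl
      simp only [Nat.cast_zero, zero_mul] at c5
      nlinarith
    rw [Nat.ceil_eq_iff a0, lt_div_iff₀ hN, div_le_iff₀ hN, Nat.cast_sub (by omega), Nat.cast_one]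
    exact ⟨by linarith, by linarith⟩

lemma ev_log {K a T : ℝ} (hK : 1 ≤ K) (ha : 0 < a) (hT : 0 < T) :
    ∀ᶠ N : ℝ in atTop, T * K * Real.log (K * N) ^ (a / 2) ≤ Real.log N ^ a := by
  filter_upwards [eventually_ge_atTop K, eventually_gt_atTop 1,
    ((tendsto_rpow_atTop (half_pos ha)).comp Real.tendsto_log_atTop).eventually_ge_atTop
      (T * K * 2 ^ (a / 2))] with N h1 h2 h3
  have l0 := Real.log_pos h2
  have l1 : Real.log (K * N) ≤ 2 * Real.log N := by
    rw [Real.log_mul (by linarith) (by linarith)]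
    linarith [Real.log_le_log (by linarith) h1]
  have l2 : Real.log (K * N) ^ (a / 2) ≤ 2 ^ (a / 2) * Real.log N ^ (a / 2) := by
    rw [← Real.mul_rpow zero_le_two l0.le]
    exact Real.rpow_le_rpow (Real.log_nonneg (by nlinarith)) l1 (half_pos ha).le
  have l3 : Real.log N ^ a = Real.log N ^ (a / 2) * Real.log N ^ (a / 2) := by
    rw [← Real.rpow_add l0, add_halves]
  simp only [Function.comp] at h3
  rw [l3]
  calc _ ≤ T * K * (2 ^ (a / 2) * Real.log N ^ (a / 2)) :=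
        mul_le_mul_of_nonneg_left l2 (by positivity)
    _ ≤ _ := by
        rw [← mul_assoc]
        exact mul_le_mul_of_nonneg_right h3 (by positivity)

end RoughAux

open RoughAux

/-- Cancellation for pairs whose determinant is counted with the model weight. -/
theorem rough {W : ℕ} (hW : Odd W) {K a ε : ℝ} (hK : 1 ≤ K) (ha : 0 < a) (hε : 0 < ε) :
    ∀ᶠ N : ℝ in atTop, ∀ (P : ℕ) (β N₁ N₂ N₃ N₄ : ℝ), Real.log N ^ a ≤ P → P ≤ N → 1 ≤ β → β ≤ 2 →
      N / K ≤ N₁ → N₂ ≤ K * N → N / K ≤ N₃ → N₄ ≤ K * N →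
      |∑ w ∈ An N₁ N₂, ∑ w' ∈ An N₃ N₄, lam w * lam w' * c2 (4 * W) 1 β P (det w w')| ≤
        ε * P * N := by
  classical
  have W0 : 0 < W := hW.pos
  have q0 : (0 : ℝ) < (4 * W : ℕ) := by positivity
  obtain ⟨J, T, C, hJ, T0, C0, hker⟩ :=
    kern_bil hK (show 0 < ε / (2 * ((4 * W : ℕ) : ℝ) ^ 3) by positivity)
  set ρ := ε / (2 * ((4 * W : ℕ) : ℝ) ^ 3 * C) with hρ
  have ρ0 : 0 < ρ := by positivity
  obtain ⟨P₀, hP₀⟩ := eventually_atTop.1 hker
  obtain ⟨N₀, hN₀⟩ := eventually_atTop.1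
    (mr_classes hW (half_pos ha) (show 0 < (ρ / K) ^ 2 by positivity))
  filter_upwards [eventually_ge_atTop (N₀ * K), eventually_gt_atTop K,
    ev_log hK ha (show (0 : ℝ) < T by exact_mod_cast T0),
    ((tendsto_rpow_atTop ha).comp Real.tendsto_log_atTop).eventually_ge_atTop (P₀ : ℝ)]
    with N n1 n2 n3 n4 P β N₁ N₂ N₃ N₄ p1 p2 b1 b2 h1 h2 h3 h4
  have N0 : 0 < N := by linarith
  have K0 : 0 < K := by linarith
  have J0 : (0 : ℝ) < J := by linarith
  have NK : 1 < N / K := by rwa [one_lt_div K0]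
  have l0 : 0 < Real.log N ^ a := Real.rpow_pos_of_pos (Real.log_pos (by linarith)) a
  have P0 : (0 : ℝ) < P := by linarith
  have sub : ∀ {X Y : ℝ}, N / K ≤ X → Y ≤ K * N → An X Y ⊆ An (N / K) (K * N) := by
    intro X Y hX hY w hw
    rw [mem_An (by linarith)] at hw ⊢
    exact ⟨hw.1, by linarith [hw.2.1], by linarith [hw.2.2]⟩
  set f : ℤ × ℤ → G → ℂ := fun b w =>
    if w ∈ An N₁ N₂ then (lam w : ℂ) * uu (4 * W) (det w ⟨b.1, b.2⟩) else 0 with hf
  set f' : ℤ × ℤ → G → ℂ := fun b w => if w ∈ An N₃ N₄ then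
    (if (w.re % (4 * W : ℕ), w.im % (4 * W : ℕ)) = b then (lam w : ℂ) else 0) else 0 with hf'
  have key : ∀ b, ‖∑ w ∈ An (N / K) (K * N), ∑ w' ∈ An (N / K) (K * N), f b w * f' b w' *
      (if (P : ℝ) < det w w' ∧ (det w w' : ℝ) ≤ β * P then 1 else 0)‖ ≤
      ε / ((4 * W : ℕ) : ℝ) ^ 3 * P * N := by
    intro b
    refine (hP₀ P (by exact_mod_cast n4.trans p1) β N (ρ * N) b1 b2 p2 (by positivity) _ _
      (fun w => ?_) (fun w => ?_) fun s => ?_).trans (le_of_eq ?_)
    · simp only [hf]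
      split_ifs
      · rw [norm_mul, norm_lam, one_mul]
        exact norm_uu _ _
      · simp
    · simp only [hf']
      split_ifs
      · exact (norm_lam w).le
      · simp
      · simp
    · simp only [hf, ite_mul, zero_mul, shell_eq N0 hK hJ h1 h2]
      set M₁ := max N₁ ((s - 1) * N / J) with hM₁
      set M₂ := min N₂ (s * N / J) with hM₂
      have m1 : N / K ≤ M₁ := h1.trans (le_max_left _ _)
      rcases lt_or_ge M₂ M₁ with c | c
      · have : An M₁ M₂ = ∅ := by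
          refine eq_empty_of_forall_notMem fun w hw => ?_
          rw [mem_An (by linarith)] at hw
          linarith [hw.2.1, hw.2.2]
        simp only [this, sum_empty, norm_zero]
        rw [sum_const, zero_pow two_ne_zero, smul_zero]
        positivity
      have m2 : M₂ ≤ K * N := (min_le_left _ _).trans h2
      refine (hN₀ M₂ ?_ M₁ M₂ _ (fun w => uu (4 * W) (det w ⟨b.1, b.2⟩)) ?_ c le_rfl ?_
        (fun w => norm_uu _ _) (fun w w' hw => uu_congr ?_) fun t w t1 t2 => ?_).trans ?_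
      · have : N₀ ≤ N / K := by rwa [le_div_iff₀ K0]
        linarith
      · have a1 : M₂ ≤ s * N / J := min_le_right _ _
        have a2 : (s - 1) * N / J ≤ M₁ := le_max_right _ _
        have a3 : N / J ≤ N / K := div_le_div_of_nonneg_left N0.le K0 hJ
        rw [sub_mul, sub_div, one_mul] at a2
        linarith
      · have a1 : (⌊T * N / P⌋₊ : ℝ) ≤ T * N / Real.log N ^ a :=
          (Nat.floor_le (by positivity)).trans (div_le_div_of_nonneg_left (by positivity) l0 p1)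
        have a2 : Real.log M₂ ^ (a / 2) ≤ Real.log (K * N) ^ (a / 2) :=
          Real.rpow_le_rpow (Real.log_nonneg (by linarith)) (Real.log_le_log (by linarith) m2)
            (half_pos ha).le
        refine (mul_le_mul a1 a2 (Real.rpow_nonneg (Real.log_nonneg (by linarith)) _)
          (by positivity)).trans (le_trans ?_ (m1.trans c))
        rw [div_mul_eq_mul_div, div_le_div_iff₀ l0 K0]
        nlinarith [mul_le_mul_of_nonneg_left n3 N0.le]
      · obtain ⟨d1, d2⟩ := (Zsqrtd.intCast_dvd ((4 * W : ℕ) : ℤ) (w - w')).1 (by exact_mod_cast hw)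
        have : det w ⟨b.1, b.2⟩ - det w' ⟨b.1, b.2⟩ = (w - w').re * b.2 - (w - w').im * b.1 := by
          simp only [det, Zsqrtd.re_sub, Zsqrtd.im_sub]
          ring
        rw [this]
        exact dvd_sub (d1.mul_right _) (d2.mul_right _)
      · have : det (t * w) ⟨b.1, b.2⟩ = t * det w ⟨b.1, b.2⟩ := by
          simp [det, Zsqrtd.re_mul, Zsqrtd.im_mul]
          ring
        simp only [this, uu_mul t1 t2]
      · rw [← mul_pow]
        refine pow_le_pow_left₀ (mul_nonneg (by positivity) (by linarith)) ?_ 2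
        rw [div_mul_eq_mul_div, div_le_iff₀ K0]
        nlinarith [mul_le_mul_of_nonneg_left m2 ρ0.le]
    · rw [hρ]
      field_simp
      ring
  have dec : ((∑ w ∈ An N₁ N₂, ∑ w' ∈ An N₃ N₄,
      lam w * lam w' * c2 (4 * W) 1 β P (det w w') : ℝ) : ℂ) =
      ((((4 * W : ℕ) : ℝ) / (4 * W).totient : ℝ) : ℂ) *
      ∑ b ∈ Ico (0 : ℤ) (4 * W : ℕ) ×ˢ Ico (0 : ℤ) (4 * W : ℕ),
        ∑ w ∈ An (N / K) (K * N), ∑ w' ∈ An (N / K) (K * N), f b w * f' b w' *
          (if (P : ℝ) < det w w' ∧ (det w w' : ℝ) ≤ β * P then 1 else 0) := by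
    rw [sum_comm (s := Ico (0 : ℤ) (4 * W : ℕ) ×ˢ Ico (0 : ℤ) (4 * W : ℕ)), mul_sum,
      ← sum_subset (sub h1 h2) fun w _ hw => by simp [hf, hw], Complex.ofReal_sum]
    refine sum_congr rfl fun w hw => ?_
    rw [sum_comm, mul_sum, ← sum_subset (sub h3 h4) fun w _ hw => by simp [hf', hw],
      Complex.ofReal_sum]
    refine sum_congr rfl fun w' hw' => ?_
    have q1 : (0 : ℤ) < (4 * W : ℕ) := by positivity
    rw [sum_eq_single (w'.re % (4 * W : ℕ), w'.im % (4 * W : ℕ)) (fun b _ hb => by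
      simp only [hf', if_neg (Ne.symm hb), ite_self, mul_zero, zero_mul]) fun h => (h (by
        simp only [mem_product, mem_Ico]
        exact ⟨⟨Int.emod_nonneg _ q1.ne', Int.emod_lt_of_pos _ q1⟩, Int.emod_nonneg _ q1.ne',
          Int.emod_lt_of_pos _ q1⟩)).elim]
    have e : uu (4 * W) (det w ⟨w'.re % (4 * W : ℕ), w'.im % (4 * W : ℕ)⟩) =
        uu (4 * W) (det w w') := by
      refine uu_congr ?_
      have : det w ⟨w'.re % (4 * W : ℕ), w'.im % (4 * W : ℕ)⟩ - det w w' =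
          w.re * (w'.im % (4 * W : ℕ) - w'.im) - w.im * (w'.re % (4 * W : ℕ) - w'.re) := by
        simp only [det]
        ring
      rw [this]
      exact dvd_sub ((Int.dvd_emod_sub_self).mul_left _) ((Int.dvd_emod_sub_self).mul_left _)
    simp only [hf, hf', if_pos hw, if_pos hw', if_true, e]
    rw [uu, c2, one_mul]
    by_cases c1 : (P : ℝ) < det w w' ∧ (det w w' : ℝ) ≤ β * P
    · by_cases c2 : Int.gcd (det w w') (4 * W : ℕ) = 1 ∧ det w w' % 4 = 1
      · rw [if_pos c1, if_pos c2, if_pos ⟨c1.1, c1.2, c2⟩]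
        push_cast
        ring
      · rw [if_neg c2, if_neg fun h => c2 h.2.2]
        simp
    · rw [if_neg c1, if_neg fun h => c1 ⟨h.1, h.2.1⟩]
      simp
  rw [← Real.norm_eq_abs, ← Complex.norm_real, dec, norm_mul, Complex.norm_real,
    Real.norm_of_nonneg (by positivity)]
  have t1 : (1 : ℝ) ≤ (4 * W).totient := by exact_mod_cast Nat.totient_pos.2 (by omega)
  refine (mul_le_mul (div_le_self q0.le t1) ((norm_sum_le _ _).trans (sum_le_sum fun b _ => key b))
    (norm_nonneg _) q0.le).trans (le_of_eq ?_)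
  rw [sum_const, card_product, Int.card_Ico, sub_zero, Int.toNat_natCast, nsmul_eq_mul,
    Nat.cast_mul (4 * W)]
  field_simp

end Pool.Agent.P.MP_a1177c_nt.LC
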