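import Pool.Agent.P.MP_a1177c_nt.LC.Rough
import Pool.Agent.P.MP_a1177c_nt.LC.BilinG

namespace Pool.Agent.P.MP_a1177c_nt.LC

open Finset Filter MR MR.StructAux
open scoped ComplexConjugate Topology

namespace StepAux

open Classical in
lemma sum_PS_eq {β : ℝ} (h2 : β ≤ 2) (P : ℕ) (m : ℤ) :
    ∑ p ∈ PS P, (if m = p then (if (p : ℝ) ≤ β * P then 1 else 0) * Real.log p else 0)
      = c1 1 β P m := by
  have hP : (0 : ℝ) ≤ P := Nat.cast_nonneg P
  unfold c1
  split_ifs with h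
  · obtain ⟨h3, h4, h5, h6⟩ := h
    have hm : 0 ≤ m := by
      have : (0 : ℝ) ≤ m := by linarith
      exact_mod_cast this
    obtain ⟨p, rfl⟩ := Int.eq_ofNat_of_zero_le hm
    simp only [Int.cast_natCast, Int.natAbs_natCast, one_mul] at h3 h4 h5 ⊢
    have hmem : p ∈ PS P := by
      refine mem_PS.2 ⟨⟨by exact_mod_cast h3, ?_⟩, h5, by omega⟩
      have : (p : ℝ) ≤ 2 * P := h4.trans (by gcongr)
      exact_mod_cast this
    rw [sum_eq_single p (fun q _ hq => if_neg fun e => hq (by exact_mod_cast e.symm))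
      (fun hn => absurd hmem hn), if_pos rfl, if_pos h4, one_mul]
  · refine sum_eq_zero fun p hp => ?_
    obtain ⟨⟨h3, -⟩, h5, h6⟩ := mem_PS.1 hp
    split_ifs with e h4
    · subst e
      refine absurd ⟨?_, ?_, ?_, by omega⟩ h
      · simpa using h3
      · simpa using h4
      · simpa using h5
    · simp
    · rfl

lemma cont_star (w : G) : cont (star w) = cont w := by simp [cont]

lemma cont_neg (w : G) : cont (-w) = cont w := by simp [cont]

lemma star_mem {X₀ X : ℝ} (h0 : 0 ≤ X₀) {w : G} (h : w ∈ An X₀ X) : star w ∈ An X₀ X := by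
  rw [mem_An h0] at h ⊢
  rwa [cont_star, nm_star]

lemma neg_star_mem {X₀ X : ℝ} (h0 : 0 ≤ X₀) {w : G} (h : w ∈ An X₀ X) : -star w ∈ An X₀ X := by
  rw [mem_An h0] at h ⊢
  rwa [cont_neg, cont_star, nm_neg, nm_star]

open Classical in
/-- The reflection that preserves the determinant and flips the scalar product. -/
lemma symm_sum {X₀ X : ℝ} (h0 : 0 ≤ X₀) (F : ℕ → ℕ → ℤ → ℝ) :
    ∑ w ∈ An X₀ X, ∑ w' ∈ An X₀ X, (if 0 < dot w w' then F (nm w) (nm w') (det w w') else 0)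
      = ∑ w ∈ An X₀ X, ∑ w' ∈ An X₀ X,
        (if dot w w' < 0 then F (nm w) (nm w') (det w w') else 0) := by
  refine sum_nbij' star star (fun w hw => star_mem h0 hw) (fun w hw => star_mem h0 hw)
    (fun w _ => star_star w) (fun w _ => star_star w) fun w _ => ?_
  refine sum_nbij' (fun w => -star w) (fun w => -star w) (fun w hw => neg_star_mem h0 hw)
    (fun w hw => neg_star_mem h0 hw) (fun w _ => by simp) (fun w _ => by simp) fun w' _ => ?_
  have e1 : dot (star w) (-star w') = -dot w w' := by simp [dot]; ring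
  have e2 : det (star w) (-star w') = det w w' := by simp [det]
  simp only [e1, e2, nm_neg, nm_star, Left.neg_neg_iff]

lemma ceil_eq_iff' {x : ℝ} (hx : 0 ≤ x) (i : ℕ) : ⌈x⌉₊ = i ↔ (i : ℝ) - 1 < x ∧ x ≤ i := by
  constructor
  · rintro rfl
    exact ⟨by linarith [Nat.ceil_lt_add_one hx], Nat.le_ceil x⟩
  · rintro ⟨h1, h2⟩
    refine le_antisymm (Nat.ceil_le.2 h2) ?_
    have : (i : ℝ) < ((⌈x⌉₊ + 1 : ℕ) : ℝ) := by push_cast; linarith [Nat.le_ceil x]
    exact Nat.lt_succ_iff.1 (by exact_mod_cast this)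

lemma filter_shell {N X₀ X : ℝ} (hN : 0 < N) (h0 : 0 ≤ X₀) {J : ℕ} (hJ : 0 < J) (i : ℕ) :
    (An X₀ X).filter (fun w => ⌈J * (nm w : ℝ) / N⌉₊ = i)
      = An (max X₀ ((i - 1) * N / J)) (min X (i * N / J)) := by
  have hJ' : (0 : ℝ) < J := by exact_mod_cast hJ
  ext w
  rw [mem_filter, mem_An h0, mem_An (le_max_of_le_left h0), ceil_eq_iff' (by positivity),
    max_lt_iff, le_min_iff, lt_div_iff₀ hN, div_le_iff₀ hN, div_lt_iff₀ hJ', le_div_iff₀ hJ',
    mul_comm (J : ℝ)]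
  tauto

open Classical in
/-- Splitting a weight that is constant on classes. -/
lemma abs_split {A : Finset G} (σ : G → ℕ) (M : ℕ) (hσ : ∀ w ∈ A, σ w < M) (Φ : ℕ → ℕ → ℝ)
    (hΦ : ∀ i j, |Φ i j| ≤ 1) (c : G → G → ℝ) {B : ℝ}
    (hB : ∀ i j, |∑ w ∈ A.filter (fun w => σ w = i), ∑ w' ∈ A.filter (fun w => σ w = j),
      c w w'| ≤ B) :
    |∑ w ∈ A, ∑ w' ∈ A, Φ (σ w) (σ w') * c w w'| ≤ M ^ 2 * B := by
  have e : ∑ w ∈ A, ∑ w' ∈ A, Φ (σ w) (σ w') * c w w' = ∑ i ∈ range M, ∑ j ∈ range M,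
      Φ i j * ∑ w ∈ A.filter (fun w => σ w = i), ∑ w' ∈ A.filter (fun w => σ w = j), c w w' := by
    rw [← sum_fiberwise_of_maps_to (s := A) (t := range M) (g := σ)
      (fun w hw => mem_range.2 (hσ w hw))]
    refine sum_congr rfl fun i _ => ?_
    simp only [mul_sum]
    rw [sum_comm (s := range M)]
    refine sum_congr rfl fun w hw => ?_
    rw [← sum_fiberwise_of_maps_to (s := A) (t := range M) (g := σ)
      (fun w hw => mem_range.2 (hσ w hw))]
    refine sum_congr rfl fun j _ => sum_congr rfl fun w' hw' => ?_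
    rw [(mem_filter.1 hw).2, (mem_filter.1 hw').2]
  rw [e]
  calc _ ≤ ∑ i ∈ range M, ∑ j ∈ range M, B := by
        refine (abs_sum_le_sum_abs _ _).trans (sum_le_sum fun i _ => ?_)
        refine (abs_sum_le_sum_abs _ _).trans (sum_le_sum fun j _ => ?_)
        rw [abs_mul]
        exact (mul_le_of_le_one_left (abs_nonneg _) (hΦ i j)).trans (hB i j)
    _ = M ^ 2 * B := by simp only [sum_const, card_range, nsmul_eq_mul]; ring

end StepAux

open StepAux in
open Classical in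
/-- Cancellation for pairs of prime determinant, with a weight that is constant on shells. -/
theorem prime_pairs {K a ε β : ℝ} (J : ℕ) (hJ : 0 < J) (hK : 1 ≤ K) (ha : 0 < a) (hε : 0 < ε)
    (h1 : 1 ≤ β) (h2 : β ≤ 2) : ∀ᶠ N : ℝ in atTop, ∀ (P : ℕ) (Φ : ℕ → ℕ → ℝ),
      Real.log N ^ a ≤ P → P ^ 2 * K ≤ N → (∀ i j, |Φ i j| ≤ 1) →
      |∑ p ∈ PS P, (if (p : ℝ) ≤ β * P then 1 else 0) * Real.log p *
        ∑ w ∈ An (N / K) (K * N), ∑ w' ∈ An (N / K) (K * N),
          if det w w' = p ∧ 0 < dot w w' then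
            lam w * lam w' * Φ ⌈J * (nm w : ℝ) / N⌉₊ ⌈J * (nm w' : ℝ) / N⌉₊ else 0| ≤ ε * P * N := by
  set M : ℕ := ⌈J * K⌉₊ + 1 with hM
  have hM0 : (0 : ℝ) < M := by positivity
  have hε' : 0 < ε / M ^ 2 := by positivity
  obtain ⟨w0, hw0⟩ := (bilin_global hK hε' h1 h2).exists
  obtain ⟨P0, hP0⟩ := eventually_atTop.1 hw0
  have hlog : Tendsto (fun N : ℝ => Real.log N ^ a) atTop atTop :=
    (tendsto_rpow_atTop ha).comp Real.tendsto_log_atTop
  filter_upwards [rough (odd_WW w0) hK ha hε', eventually_gt_atTop 0,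
    hlog.eventually_ge_atTop ((P0 + 2 : ℕ) : ℝ)] with N hR hN hL P Φ hP hPN hΦ
  have hK0 : 0 < K := by linarith
  have hP2 : P0 + 2 ≤ P := by exact_mod_cast hL.trans hP
  have hP2' : (2 : ℝ) ≤ P := by exact_mod_cast (by omega : 2 ≤ P)
  have hPK : (P : ℝ) ^ 2 ≤ N / K := by rwa [le_div_iff₀ hK0]
  have hPle : (P : ℝ) ≤ N := by nlinarith
  have h0 : 0 ≤ N / K := by positivity
  set A := An (N / K) (K * N) with hA
  set σ : G → ℕ := fun w => ⌈J * (nm w : ℝ) / N⌉₊ with hσ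
  have hσM : ∀ w ∈ A, σ w < M := fun w hw => by
    refine Nat.lt_succ_of_le (Nat.ceil_mono ?_)
    rw [div_le_iff₀ hN, mul_assoc]
    exact mul_le_mul_of_nonneg_left ((mem_An h0).1 hw).2.2 (Nat.cast_nonneg _)
  set F : ℕ → ℕ → ℤ → ℝ := fun n n' m =>
    Φ ⌈J * (n : ℝ) / N⌉₊ ⌈J * (n' : ℝ) / N⌉₊ *
      ((-1) ^ ArithmeticFunction.cardFactors n * (-1) ^ ArithmeticFunction.cardFactors n'
        * c1 1 β P m) with hF
  have e1 : ∑ p ∈ PS P, (if (p : ℝ) ≤ β * P then 1 else 0) * Real.log p *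
        ∑ w ∈ A, ∑ w' ∈ A, (if det w w' = p ∧ 0 < dot w w' then
            lam w * lam w' * Φ ⌈J * (nm w : ℝ) / N⌉₊ ⌈J * (nm w' : ℝ) / N⌉₊ else 0)
      = ∑ w ∈ A, ∑ w' ∈ A, (if 0 < dot w w' then F (nm w) (nm w') (det w w') else 0) := by
    simp only [mul_sum]
    rw [sum_comm]
    refine sum_congr rfl fun w _ => ?_
    rw [sum_comm]
    refine sum_congr rfl fun w' _ => ?_
    by_cases hd : 0 < dot w w'
    · rw [if_pos hd]
      simp only [hF, ← sum_PS_eq h2 P (det w w'), mul_sum, hd, and_true]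
      refine sum_congr rfl fun p _ => ?_
      by_cases e : det w w' = p
      · simp only [if_pos e, lam]; ring
      · simp only [if_neg e, mul_zero]
    · simp [hd]
  have e2 : ∑ w ∈ A, ∑ w' ∈ A, F (nm w) (nm w') (det w w')
      = 2 * ∑ w ∈ A, ∑ w' ∈ A, (if 0 < dot w w' then F (nm w) (nm w') (det w w') else 0) := by
    rw [two_mul]
    nth_rewrite 2 [symm_sum h0 F]
    rw [← hA]
    simp only [← sum_add_distrib]
    refine sum_congr rfl fun w hw => sum_congr rfl fun w' hw' => ?_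
    rcases lt_trichotomy (dot w w') 0 with h | h | h
    · rw [if_neg h.not_gt, if_pos h, zero_add]
    · have hc : c1 1 β P (det w w') = 0 := by
        unfold c1
        refine if_neg fun hc => ?_
        have a1 : ((det w w' : ℤ) : ℝ) ^ 2 = nm w * nm w' := by
          have := dot_sq_add_det_sq w w'
          rw [h] at this
          exact_mod_cast (by simpa using this : det w w' ^ 2 = (nm w : ℤ) * nm w')
        have a2 := ((mem_An h0).1 hw).2.1
        have a3 := ((mem_An h0).1 hw').2.1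
        have a4 : ((det w w' : ℤ) : ℝ) ≤ 2 * P := hc.2.1.trans (by gcongr)
        have a5 : (0 : ℝ) ≤ (det w w' : ℤ) := by linarith [hc.1]
        have a6 : (P : ℝ) ^ 2 * P ^ 2 < nm w * nm w' :=
          mul_lt_mul'' (hPK.trans_lt a2) (hPK.trans_lt a3) (by positivity) (by positivity)
        have a7 : ((det w w' : ℤ) : ℝ) ^ 2 ≤ (2 * P) ^ 2 := by gcongr
        have a8 : (4 : ℝ) * P ^ 2 ≤ P ^ 2 * P ^ 2 := by
          have : (4 : ℝ) ≤ P ^ 2 := by nlinarith
          gcongr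
        linarith
      simp [hF, hc]
    · rw [if_pos h, if_neg h.not_gt, add_zero]
  have b1 : |∑ w ∈ A, ∑ w' ∈ A, Φ (σ w) (σ w') *
      (lam w * lam w' * cb (4 * WW w0) 1 β P (det w w'))| ≤ M ^ 2 * (ε / M ^ 2 * P * N) := by
    refine abs_split σ M hσM Φ hΦ _ fun i j => ?_
    have := hP0 P (by omega) N hPle (fun w => if σ w = i then lam w else 0)
      (fun w => if σ w = j then lam w else 0)
      (fun w => by split_ifs <;> simp [abs_lam]) (fun w => by split_ifs <;> simp [abs_lam])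
    convert this using 2
    rw [sum_filter]
    refine sum_congr rfl fun w _ => ?_
    rw [sum_filter]
    split_ifs
    · refine sum_congr rfl fun w' _ => ?_
      split_ifs <;> simp
    · simp
  have b2 : |∑ w ∈ A, ∑ w' ∈ A, Φ (σ w) (σ w') *
      (lam w * lam w' * c2 (4 * WW w0) 1 β P (det w w'))| ≤ M ^ 2 * (ε / M ^ 2 * P * N) := by
    refine abs_split σ M hσM Φ hΦ _ fun i j => ?_
    rw [hA, hσ, filter_shell hN h0 hJ i, filter_shell hN h0 hJ j]
    exact hR P β _ _ _ _ hP hPle h1 h2 (le_max_left _ _) (min_le_left _ _) (le_max_left _ _)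
      (min_le_left _ _)
  have e3 : ∑ w ∈ A, ∑ w' ∈ A, F (nm w) (nm w') (det w w')
      = ∑ w ∈ A, ∑ w' ∈ A, Φ (σ w) (σ w') * (lam w * lam w' * cb (4 * WW w0) 1 β P (det w w'))
        + ∑ w ∈ A, ∑ w' ∈ A, Φ (σ w) (σ w') *
          (lam w * lam w' * c2 (4 * WW w0) 1 β P (det w w')) := by
    simp only [← sum_add_distrib]
    refine sum_congr rfl fun w _ => sum_congr rfl fun w' _ => ?_
    simp only [hF, hσ, cb, lam]; ring
  have e4 : (M : ℝ) ^ 2 * (ε / M ^ 2 * P * N) = ε * P * N := by field_simp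
  rw [e4] at b1 b2
  rw [e1]
  rw [e2] at e3
  rw [abs_le] at b1 b2 ⊢
  constructor <;> linarith [b1.1, b1.2, b2.1, b2.2]

end Pool.Agent.P.MP_a1177c_nt.LC
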