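import Pool.Agent.P.MP_a1177c_nt.LC.Blocks

namespace Pool.Agent.P.MP_a1177c_nt.LC

open Finset Filter MR MR.StructAux
open scoped ComplexConjugate Topology

namespace TKAux

open Classical in
/-- The terms not divisible by the conjugate prime, collected by the product. -/
lemma sum_good {p : ℕ} (hp : p.Prime) (h4 : p % 4 = 1) {Y N N₁ N₂ : ℝ} (hY : 0 < Y)
    (hYp : Y ≤ p) (hpY : p ≤ 2 * Y) (hN : 0 < N) (h1 : N / 2 ≤ N₁) (h2 : N₂ ≤ N) (f : G → ℂ) :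
    ∑ b ∈ (An (N₁ / Y) (N₂ / Y)).filter (fun b => ¬ star (gp p) ∣ b), f (gp p * b) =
      ∑ w ∈ An (N / 2) (2 * N),
        if gp p ∣ w ∧ p / Y * N₁ < nm w ∧ (nm w : ℝ) ≤ p / Y * N₂ then f w else 0 := by
  have hn := nm_gp hp h4
  have hπ := gp_ne_zero hp h4
  have hp0 : (0 : ℝ) < p := by exact_mod_cast hp.pos
  have hN1 : 0 < N₁ := by linarith
  have hθ1 : 1 ≤ (p : ℝ) / Y := (one_le_div hY).2 hYp
  have hθ2 : (p : ℝ) / Y ≤ 2 := (div_le_iff₀ hY).2 hpY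
  have hnm : ∀ b : G, (nm (gp p * b) : ℝ) = p * nm b := fun b => by
    rw [nm_mul, hn, Nat.cast_mul]
  have e1 : (p : ℝ) / Y * N₁ = p * (N₁ / Y) := by ring
  have e2 : (p : ℝ) / Y * N₂ = p * (N₂ / Y) := by ring
  rw [← sum_filter]
  refine sum_bij (fun b _ => gp p * b) (fun b hb => ?_) (fun b _ c _ h => mul_left_cancel₀ hπ h)
    (fun w hw => ?_) (fun _ _ => rfl)
  · obtain ⟨hb1, hb2⟩ := mem_filter.1 hb
    have hb0 := ne_of_mem_An hb1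
    obtain ⟨c1, c2, c3⟩ := (mem_An (by positivity)).1 hb1
    have d1 : (p : ℝ) / Y * N₁ < nm (gp p * b) := by
      rw [hnm, e1]; exact mul_lt_mul_of_pos_left c2 hp0
    have d2 : (nm (gp p * b) : ℝ) ≤ p / Y * N₂ := by
      rw [hnm, e2]; exact mul_le_mul_of_nonneg_left c3 hp0.le
    refine mem_filter.2 ⟨(mem_An (by positivity)).2 ⟨?_, ?_, ?_⟩, dvd_mul_right _ _, d1, d2⟩
    · have h5 := cont_mul_le (π := gp p) (g := b) (by rwa [hn]) hb2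
      have h6 := StructAux.cont_pos (mul_ne_zero hπ hb0)
      omega
    · nlinarith
    · have : (p : ℝ) / Y * N₂ ≤ p / Y * N := mul_le_mul_of_nonneg_left h2 (by positivity)
      nlinarith
  · obtain ⟨hw1, ⟨b, rfl⟩, d1, d2⟩ := mem_filter.1 hw
    obtain ⟨c1, -, -⟩ := (mem_An (by positivity)).1 hw1
    refine ⟨b, mem_filter.2 ⟨(mem_An (by positivity)).2 ⟨cont_of_mul c1, ?_, ?_⟩, ?_⟩, rfl⟩
    · rw [hnm, e1] at d1; exact lt_of_mul_lt_mul_left d1 hp0.le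
    · rw [hnm, e2] at d2; exact le_of_mul_le_mul_left d2 hp0
    · rintro ⟨c, rfl⟩
      have h5 : p ∣ cont (gp p * (star (gp p) * c)) := by
        refine dvd_cont ⟨c, ?_⟩
        rw [← mul_assoc, mul_star_eq, hn]; simp
      rw [c1] at h5
      exact hp.ne_one (Nat.dvd_one.1 h5)

open Classical in
/-- The terms divisible by the conjugate prime, in mean square. -/
lemma bad_mv {p : ℕ} (hp : p.Prime) (h4 : p % 4 = 1) {Y N N₁ N₂ : ℝ} (hY : 0 < Y)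
    (hYN : Y ≤ N) (h1 : N / 2 ≤ N₁) (h12 : N₁ ≤ N₂) (h2 : N₂ ≤ N) (K : ℕ) {a : G → ℂ}
    (ha : ∀ w, ‖a w‖ ≤ 1) :
    ∑ k ∈ Icc (-(K : ℤ)) K, ‖∑ b ∈ (An (N₁ / Y) (N₂ / Y)).filter (fun b => star (gp p) ∣ b),
      a (gp p * b) * chi k (gp p * b)‖ ^ 2 ≤ 4860 * (K + N / Y) * (N / Y / p) := by
  have hn := nm_gp hp h4
  have hπ := gp_ne_zero hp h4
  have hp0 : (0 : ℝ) < p := by exact_mod_cast hp.pos
  have hN : 0 < N := hY.trans_le hYN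
  have hN1 : 0 < N₁ := by linarith
  set T := (An (N₁ / Y) (N₂ / Y)).filter (fun b => star (gp p) ∣ b) with hT
  have e : ∀ k : ℤ, ‖∑ b ∈ T, a (gp p * b) * chi k (gp p * b)‖ =
      ‖∑ b ∈ T, a (gp p * b) * chi k b‖ := fun k => by
    have : ∑ b ∈ T, a (gp p * b) * chi k (gp p * b) =
        chi k (gp p) * ∑ b ∈ T, a (gp p * b) * chi k b := by
      rw [mul_sum]; exact sum_congr rfl fun b _ => by rw [chi_mul]; ring
    rw [this, norm_mul, norm_chi k hπ, one_mul]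
  simp_rw [e]
  have hX : 1 ≤ N / Y := (one_le_div hY).2 hYN
  have h := mv_chi (T := T) (X₀ := N / Y / 2) (X := N / Y) (by positivity) hX (fun w hw => by
    obtain ⟨c1, c2, c3⟩ := (mem_An (by positivity)).1 (mem_filter.1 hw).1
    refine ⟨c1, ?_, c3.trans (div_le_div_of_nonneg_right h2 hY.le)⟩
    have : N / Y / 2 ≤ N₁ / Y := by
      rw [div_right_comm]; exact div_le_div_of_nonneg_right h1 hY.le
    linarith) K (fun b => a (gp p * b))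
  have hs : √(N / Y / (N / Y / 2)) ≤ 2 := by
    rw [Real.sqrt_le_left (by norm_num)]
    rw [div_le_iff₀ (by positivity)]; linarith
  have hc : ∑ w ∈ T, ‖a (gp p * w)‖ ^ 2 ≤ 9 * (N / Y / p) := by
    have h3 : ∑ w ∈ T, ‖a (gp p * w)‖ ^ 2 ≤ T.card := by
      rw [card_eq_sum_ones, Nat.cast_sum]
      exact sum_le_sum fun w _ => by
        have := ha (gp p * w)
        push_cast
        nlinarith [norm_nonneg (a (gp p * w))]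
    have h5 : (T.card : ℝ) ≤ ((disc ⌊N₂ / Y⌋₊).filter fun b => star (gp p) ∣ b).card := by
      exact_mod_cast card_le_card (filter_subset_filter _ (An_subset_disc _ _))
    have h6 := card_disc_dvd_le ⌊N₂ / Y⌋₊ (d := star (gp p)) (star_ne_zero.2 hπ)
    rw [nm_star, hn] at h6
    have h7 : (⌊N₂ / Y⌋₊ : ℝ) ≤ N / Y :=
      (Nat.floor_le (by have : 0 < N₂ := by linarith
                        positivity)).trans (div_le_div_of_nonneg_right h2 hY.le)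
    have h8 : 9 * (⌊N₂ / Y⌋₊ : ℝ) / p ≤ 9 * (N / Y / p) := by
      rw [mul_div_assoc]; gcongr
    linarith
  refine h.trans ?_
  calc 270 * √(N / Y / (N / Y / 2)) * (K + N / Y) * ∑ w ∈ T, ‖a (gp p * w)‖ ^ 2
      ≤ 270 * 2 * (K + N / Y) * (9 * (N / Y / p)) := by gcongr
    _ = _ := by ring

/-- Weighted Cauchy-Schwarz inequality. -/
lemma norm_sum_sq_le {ι : Type*} (I : Finset ι) (q : ι → ℝ) (hq : ∀ i ∈ I, 0 < q i) (F : ι → ℂ) :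
    ‖∑ i ∈ I, F i‖ ^ 2 ≤ (∑ i ∈ I, 1 / q i) * ∑ i ∈ I, q i * ‖F i‖ ^ 2 := by
  have h1 : ‖∑ i ∈ I, F i‖ ^ 2 ≤ (∑ i ∈ I, ‖F i‖) ^ 2 :=
    pow_le_pow_left₀ (norm_nonneg _) (norm_sum_le _ _) 2
  refine h1.trans (sum_sq_le_sum_mul_sum_of_sq_le_mul I (fun i hi => (one_div_pos.2 (hq i hi)).le)
    (fun i hi => by have := hq i hi; positivity) fun i hi => le_of_eq ?_)
  have := hq i hi
  field_simp

lemma rpow_aux {P N x : ℝ} (hP : 1 ≤ P) (hPN : P ^ 10 ≤ N) (hx : 0 ≤ x) (hxN : x ≤ 3 * N) :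
    P ^ 2 * x ^ ((2 : ℝ) / 3) ≤ 3 * N := by
  have hN : 1 ≤ N := (one_le_pow₀ hP).trans hPN
  have h1 : (x ^ ((2 : ℝ) / 3)) ^ 3 = x ^ 2 := by
    rw [← Real.rpow_natCast, ← Real.rpow_mul hx, ← Real.rpow_natCast]; norm_num
  have h2 : P ^ 6 ≤ N := (pow_le_pow_right₀ hP (by norm_num)).trans hPN
  refine le_of_pow_le_pow_left₀ (n := 3) (by norm_num) (by positivity) ?_
  rw [mul_pow, h1, ← pow_mul]
  calc P ^ (2 * 3) * x ^ 2 ≤ N * (3 * N) ^ 2 := by gcongr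
    _ ≤ (3 * N) ^ 3 := by nlinarith [pow_pos (show 0 < N by linarith) 3]

open Classical in
/-- The coefficient of a point. -/
lemma coef_le {ι : Type*} (I : Finset ι) (D : ι → Prop) (θ : ι → ℝ) {J N₁ N₂ x L : ℝ}
    (hL : 0 ≤ L) (hN1 : 0 ≤ N₁) (h12 : N₁ ≤ N₂) (hθ : ∀ i ∈ I, 1 ≤ θ i ∧ θ i ≤ 1 + 1 / J) :
    (L * (if N₁ < x ∧ x ≤ N₂ then 1 else 0) -
        ∑ i ∈ I, if D i ∧ θ i * N₁ < x ∧ x ≤ θ i * N₂ then (1 : ℝ) else 0) ^ 2 ≤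
      2 * ((∑ i ∈ I, if D i then (1 : ℝ) else 0) - L) ^ 2 +
        3 * L ^ 2 * ((if N₁ < x ∧ x ≤ N₁ * (1 + 1 / J) then 1 else 0) +
          if N₂ < x ∧ x ≤ N₂ * (1 + 1 / J) then 1 else 0) := by
  set om := ∑ i ∈ I, if D i then (1 : ℝ) else 0 with hom
  set m := ∑ i ∈ I, if D i ∧ θ i * N₁ < x ∧ x ≤ θ i * N₂ then (1 : ℝ) else 0 with hm
  by_cases hB : (N₁ < x ∧ x ≤ N₁ * (1 + 1 / J)) ∨ (N₂ < x ∧ x ≤ N₂ * (1 + 1 / J))
  · have h1 : (1 : ℝ) ≤ (if N₁ < x ∧ x ≤ N₁ * (1 + 1 / J) then 1 else 0) +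
        if N₂ < x ∧ x ≤ N₂ * (1 + 1 / J) then 1 else 0 := by
      rcases hB with h | h
      · rw [if_pos h]; split_ifs <;> norm_num
      · rw [if_pos h]; split_ifs <;> norm_num
    have h2 : 0 ≤ m := sum_nonneg fun i _ => by split_ifs <;> norm_num
    have h3 : m ≤ om := sum_le_sum fun i _ => by
      by_cases h : D i ∧ θ i * N₁ < x ∧ x ≤ θ i * N₂
      · rw [if_pos h, if_pos h.1]
      · rw [if_neg h]; split_ifs <;> norm_num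
    have h4 : 3 * L ^ 2 * 1 ≤ 3 * L ^ 2 * ((if N₁ < x ∧ x ≤ N₁ * (1 + 1 / J) then 1 else 0) +
        if N₂ < x ∧ x ≤ N₂ * (1 + 1 / J) then 1 else 0) :=
      mul_le_mul_of_nonneg_left h1 (by positivity)
    refine le_trans ?_ (add_le_add le_rfl h4)
    have h5 : m ^ 2 ≤ om ^ 2 := pow_le_pow_left₀ h2 h3 2
    split_ifs
    · nlinarith [mul_nonneg hL h2, sq_nonneg (om - 2 * L)]
    · nlinarith [sq_nonneg (om - 2 * L), sq_nonneg L]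
  · rw [not_or] at hB
    rw [if_neg hB.1, if_neg hB.2]
    have hN2 : 0 ≤ N₂ := hN1.trans h12
    have key : ∀ i ∈ I, (θ i * N₁ < x ∧ x ≤ θ i * N₂) ↔ (N₁ < x ∧ x ≤ N₂) := fun i hi => by
      obtain ⟨t1, t2⟩ := hθ i hi
      have a1 : N₁ ≤ θ i * N₁ := le_mul_of_one_le_left hN1 t1
      have a2 : N₂ ≤ θ i * N₂ := le_mul_of_one_le_left hN2 t1
      have a3 : θ i * N₁ ≤ N₁ * (1 + 1 / J) := by rw [mul_comm]; gcongr
      have a4 : θ i * N₂ ≤ N₂ * (1 + 1 / J) := by rw [mul_comm]; gcongr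
      constructor
      · rintro ⟨b1, b2⟩
        refine ⟨a1.trans_lt b1, ?_⟩
        by_contra hc
        exact hB.2 ⟨not_le.1 hc, b2.trans a4⟩
      · rintro ⟨b1, b2⟩
        refine ⟨?_, b2.trans a2⟩
        by_contra hc
        exact hB.1 ⟨b1, (not_lt.1 hc).trans a3⟩
    by_cases hS : N₁ < x ∧ x ≤ N₂
    · have : m = om := sum_congr rfl fun i hi => by simp [key i hi, hS]
      rw [if_pos hS, this]
      nlinarith [sq_nonneg (om - L)]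
    · have : m = 0 := sum_eq_zero fun i hi => by
        rw [if_neg fun h => hS ((key i hi).1 h.2)]
      rw [if_neg hS, this]
      nlinarith [sq_nonneg (om - L)]

/-- The pairs (block, prime of the block). -/
def II (J t₀ t₁ : ℕ) : Finset (Σ _ : ℕ × ℕ, ℕ) := (VV J t₀ t₁).sigma fun v => blk v

lemma sum_II {M : Type*} [AddCommMonoid M] {J : ℕ} (hJ : 1 ≤ J) (t₀ t₁ : ℕ) (f : ℕ → M) :
    ∑ i ∈ II J t₀ t₁, f i.2 = ∑ p ∈ PR J t₀ t₁, f p := by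
  rw [sum_PR_eq hJ, II, sum_sigma]

lemma II_spec {J t₀ t₁ : ℕ} (hJ : 2 ≤ J) {i : Σ _ : ℕ × ℕ, ℕ} (hi : i ∈ II J t₀ t₁) :
    i.2 ∈ PR J t₀ t₁ ∧ i.2.Prime ∧ i.2 % 4 = 1 ∧ (J : ℝ) ≤ Yv i.1 ∧ (Yv i.1 : ℝ) ≤ i.2 ∧
      (i.2 : ℝ) ≤ Yv i.1 * (1 + 1 / J) ∧ (Yv i.1 : ℝ) ≤ (J * 2 ^ t₁ : ℕ) := by
  obtain ⟨hv, hp⟩ := mem_sigma.1 hi
  obtain ⟨⟨h1, h2⟩, h3, h4⟩ := mem_blk.1 hp
  obtain ⟨h5, h6, h7⟩ := Yv_bounds hv
  have hJ0 : (0 : ℝ) < J := by exact_mod_cast (by omega : 0 < J)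
  refine ⟨blk_subset_PR hv hp, h3, h4, ?_, by exact_mod_cast h1.le, ?_, ?_⟩
  · exact_mod_cast (Nat.le_mul_of_pos_right J (by positivity)).trans h6
  · have a1 : (i.2 : ℝ) ≤ Yv i.1 + 2 ^ i.1.2 := by exact_mod_cast h2
    have a2 : (J : ℝ) * 2 ^ i.1.2 ≤ Yv i.1 := by exact_mod_cast h6
    have a3 : (2 : ℝ) ^ i.1.2 ≤ Yv i.1 * (1 / J) := by
      rw [mul_one_div, le_div_iff₀ hJ0]; linarith
    linarith
  · exact_mod_cast (Nat.le_add_right _ _).trans h7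

lemma Mn_eq {J t₀ t₁ : ℕ} (hJ : 2 ≤ J) {g a : G → ℂ}
    (hm : ∀ p ∈ PR J t₀ t₁, ∀ β, β ≠ 0 → a (gp p * β) = g (gp p) * a β) (N₁ N₂ : ℝ) (k : ℤ) :
    Mn g a J t₀ t₁ N₁ N₂ k = ∑ i ∈ II J t₀ t₁, ∑ b ∈ An (N₁ / Yv i.1) (N₂ / Yv i.1),
      a (gp i.2 * b) * chi k (gp i.2 * b) := by
  have : Mn g a J t₀ t₁ N₁ N₂ k = ∑ i ∈ II J t₀ t₁, ∑ b ∈ An (N₁ / Yv i.1) (N₂ / Yv i.1),
      g (gp i.2) * chi k (gp i.2) * (a b * chi k b) := by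
    rw [Mn, II, sum_sigma]
    refine sum_congr rfl fun v _ => ?_
    rw [Qb, SA, sum_mul_sum]
  rw [this]
  refine sum_congr rfl fun i hi => sum_congr rfl fun b hb => ?_
  rw [hm _ (II_spec hJ hi).1 b (ne_of_mem_An hb), chi_mul]; ring

open Classical in
/-- The coefficient of `w` after collecting terms. -/
noncomputable def dd (J t₀ t₁ : ℕ) (N₁ N₂ : ℝ) (w : G) : ℝ :=
  LL J t₀ t₁ * (if N₁ < nm w ∧ (nm w : ℝ) ≤ N₂ then 1 else 0) -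
    ∑ i ∈ II J t₀ t₁, if gp i.2 ∣ w ∧ (i.2 : ℝ) / Yv i.1 * N₁ < nm w ∧
      (nm w : ℝ) ≤ (i.2 : ℝ) / Yv i.1 * N₂ then (1 : ℝ) else 0

open Classical in
lemma decomp {J t₀ t₁ : ℕ} (hJ : 2 ≤ J) {g a : G → ℂ}
    (hm : ∀ p ∈ PR J t₀ t₁, ∀ β, β ≠ 0 → a (gp p * β) = g (gp p) * a β) {N N₁ N₂ : ℝ}
    (hN : 0 < N) (h1 : N / 2 ≤ N₁) (h2 : N₂ ≤ N) (k : ℤ) :
    (LL J t₀ t₁ : ℂ) * SA a N₁ N₂ k - Mn g a J t₀ t₁ N₁ N₂ k =
      ∑ w ∈ An (N / 2) (2 * N), (a w * dd J t₀ t₁ N₁ N₂ w) * chi k w -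
      ∑ i ∈ II J t₀ t₁, ∑ b ∈ (An (N₁ / Yv i.1) (N₂ / Yv i.1)).filter
        (fun b => star (gp i.2) ∣ b), a (gp i.2 * b) * chi k (gp i.2 * b) := by
  have hJ0 : (0 : ℝ) < J := by exact_mod_cast (by omega : 0 < J)
  have hJ2 : (2 : ℝ) ≤ J := by exact_mod_cast hJ
  have e1 : SA a N₁ N₂ k = ∑ w ∈ An (N / 2) (2 * N),
      if N₁ < nm w ∧ (nm w : ℝ) ≤ N₂ then a w * chi k w else 0 := by
    rw [SA, ← sum_filter]
    refine sum_congr ?_ fun _ _ => rfl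
    ext w
    rw [mem_filter, mem_An (by linarith), mem_An (by linarith)]
    constructor
    · rintro ⟨c1, c2, c3⟩; exact ⟨⟨c1, by linarith, by linarith⟩, c2, c3⟩
    · rintro ⟨⟨c1, -, -⟩, c2, c3⟩; exact ⟨c1, c2, c3⟩
  have e2 : ∀ i ∈ II J t₀ t₁, ∑ b ∈ An (N₁ / Yv i.1) (N₂ / Yv i.1),
      a (gp i.2 * b) * chi k (gp i.2 * b) =
      ∑ b ∈ (An (N₁ / Yv i.1) (N₂ / Yv i.1)).filter
        (fun b => star (gp i.2) ∣ b), a (gp i.2 * b) * chi k (gp i.2 * b) +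
      ∑ w ∈ An (N / 2) (2 * N), if gp i.2 ∣ w ∧ (i.2 : ℝ) / Yv i.1 * N₁ < nm w ∧
        (nm w : ℝ) ≤ (i.2 : ℝ) / Yv i.1 * N₂ then a w * chi k w else 0 := fun i hi => by
    obtain ⟨-, c1, c2, c3, c4, c5, -⟩ := II_spec hJ hi
    have c6 : 1 / (J : ℝ) ≤ 1 := by rw [div_le_one hJ0]; linarith
    have c7 : (i.2 : ℝ) ≤ 2 * Yv i.1 := by nlinarith
    rw [← sum_good c1 c2 (hJ0.trans_le c3) c4 c7 hN h1 h2 (fun w => a w * chi k w),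
      sum_filter_add_sum_filter_not]
  rw [Mn_eq hJ hm, sum_congr rfl e2, sum_add_distrib, e1, sum_comm (s := II J t₀ t₁), mul_sum]
  have e3 : ∀ w : G, (a w * dd J t₀ t₁ N₁ N₂ w) * chi k w =
      (LL J t₀ t₁ : ℂ) * (if N₁ < nm w ∧ (nm w : ℝ) ≤ N₂ then a w * chi k w else 0) -
      ∑ i ∈ II J t₀ t₁, if gp i.2 ∣ w ∧ (i.2 : ℝ) / Yv i.1 * N₁ < nm w ∧
        (nm w : ℝ) ≤ (i.2 : ℝ) / Yv i.1 * N₂ then a w * chi k w else 0 := fun w => by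
    rw [dd]
    push_cast
    rw [mul_sub, sub_mul, mul_sum, sum_mul]
    congr 1
    · split_ifs <;> simp
      ring
    · refine sum_congr rfl fun i _ => ?_
      split_ifs <;> simp
  simp_rw [e3]
  rw [sum_sub_distrib]
  ring

lemma card_PR_le (J t₀ t₁ : ℕ) : ((PR J t₀ t₁).card : ℝ) ≤ (J * 2 ^ t₁ : ℕ) := by
  have : (PR J t₀ t₁).card ≤ J * 2 ^ t₁ :=
    (card_filter_le _ _).trans (by rw [Nat.card_Ioc]; omega)
  exact_mod_cast this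

lemma LL_nonneg (J t₀ t₁ : ℕ) : 0 ≤ LL J t₀ t₁ := sum_nonneg fun _ _ => by positivity

lemma LL_le_card (J t₀ t₁ : ℕ) : LL J t₀ t₁ ≤ (PR J t₀ t₁).card := by
  rw [LL, card_eq_sum_ones, Nat.cast_sum]
  refine sum_le_sum fun p hp => ?_
  have h : (1 : ℝ) ≤ p := by exact_mod_cast (mem_PR.1 hp).2.1.one_le
  push_cast
  rwa [div_le_one (by linarith)]

/-- The sum of the squares of the coefficients. -/
lemma sum_dd : ∃ C : ℝ, 0 < C ∧ ∀ (J t₀ t₁ : ℕ) (N N₁ N₂ : ℝ), 2 ≤ J →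
    ((J * 2 ^ t₁ : ℕ) : ℝ) ^ 10 ≤ N → N / 2 ≤ N₁ → N₁ ≤ N₂ → N₂ ≤ N →
    ∑ w ∈ An (N / 2) (2 * N), dd J t₀ t₁ N₁ N₂ w ^ 2 ≤
      C * (N * (LL J t₀ t₁ ^ 2 / J + LL J t₀ t₁ + 1)) := by
  classical
  obtain ⟨C₁, hC₁, hvar⟩ := tk_var
  obtain ⟨C₂, hC₂, hann⟩ := card_annulus
  refine ⟨24 + 6 * C₁ + 18 * C₂, by positivity, fun J t₀ t₁ N N₁ N₂ hJ hP h1 h12 h2 => ?_⟩
  have hJ0 : (0 : ℝ) < J := by exact_mod_cast (by omega : 0 < J)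
  have hJ2 : (2 : ℝ) ≤ J := by exact_mod_cast hJ
  set P : ℝ := ((J * 2 ^ t₁ : ℕ) : ℝ) with hPdef
  have hP1 : 1 ≤ P := by
    have : 1 ≤ J * 2 ^ t₁ := Nat.mul_pos (by omega) (by positivity)
    rw [hPdef]; exact_mod_cast this
  have hN : 1 ≤ N := (one_le_pow₀ hP1).trans hP
  set L := LL J t₀ t₁ with hLdef
  have hL0 : 0 ≤ L := LL_nonneg _ _ _
  have hcard := card_PR_le J t₀ t₁
  have hLP : L ≤ P := (LL_le_card _ _ _).trans hcard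
  have hJ1 : 1 / (J : ℝ) ≤ 1 / 2 := one_div_le_one_div_of_le (by norm_num) hJ2
  have hJ3 : 0 < 1 / (J : ℝ) := by positivity
  -- pointwise bound
  have hpt : ∀ w : G, dd J t₀ t₁ N₁ N₂ w ^ 2 ≤
      2 * ((((PR J t₀ t₁).filter fun p => gp p ∣ w).card : ℝ) - L) ^ 2 +
        3 * L ^ 2 * ((if N₁ < nm w ∧ (nm w : ℝ) ≤ N₁ * (1 + 1 / J) then 1 else 0) +
          if N₂ < nm w ∧ (nm w : ℝ) ≤ N₂ * (1 + 1 / J) then 1 else 0) := fun w => by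
    have h := coef_le (II J t₀ t₁) (fun i => gp i.2 ∣ w) (fun i => (i.2 : ℝ) / Yv i.1)
      (J := J) (x := nm w) hL0 (by linarith) h12 fun i hi => by
        obtain ⟨-, -, -, c3, c4, c5, -⟩ := II_spec hJ hi
        have c6 : (0 : ℝ) < Yv i.1 := hJ0.trans_le c3
        exact ⟨(one_le_div c6).2 c4, (div_le_iff₀ c6).2 (by linarith)⟩
    rw [sum_II (by omega) t₀ t₁ (fun p => if gp p ∣ w then (1 : ℝ) else 0),
      sum_boole (fun p => gp p ∣ w)] at h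
    rw [dd]
    convert h using 4
  -- the boundary
  have hbd : ∀ M : ℝ, 0 ≤ M → M ≤ N →
      L ^ 2 * ∑ w ∈ An (N / 2) (2 * N),
        (if M < nm w ∧ (nm w : ℝ) ≤ M * (1 + 1 / J) then (1 : ℝ) else 0) ≤
      4 * (N * (L ^ 2 / J)) + 3 * C₂ * N := fun M hM0 hMN => by
    have a1 : M ≤ M * (1 + 1 / J) := le_mul_of_one_le_right hM0 (by linarith)
    have a2 := hann M (M * (1 + 1 / J)) hM0 a1
    have a3 : ∑ w ∈ An (N / 2) (2 * N),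
        (if M < nm w ∧ (nm w : ℝ) ≤ M * (1 + 1 / J) then (1 : ℝ) else 0) ≤
        ((disc ⌊M * (1 + 1 / J)⌋₊).filter fun a => M < nm a).card := by
      rw [sum_boole]
      exact_mod_cast card_le_card fun w hw => by
        obtain ⟨b1, b2, b3⟩ := mem_filter.1 hw
        exact mem_filter.2 ⟨mem_disc.2 ⟨ne_of_mem_An b1, Nat.le_floor b3⟩, b2⟩
    have a4 := rpow_aux hP1 hP (x := M * (1 + 1 / J) + 1) (by linarith) (by nlinarith)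
    have a5 : L ^ 2 * (M * (1 + 1 / J) + 1) ^ ((2 : ℝ) / 3) ≤ 3 * N :=
      le_trans (mul_le_mul_of_nonneg_right (pow_le_pow_left₀ hL0 hLP 2)
        (Real.rpow_nonneg (by linarith) _)) a4
    have a6 : M * (L ^ 2 / J) ≤ N * (L ^ 2 / J) := by gcongr
    calc _ ≤ L ^ 2 * (4 * (M * (1 + 1 / J) - M) + C₂ * (M * (1 + 1 / J) + 1) ^ ((2 : ℝ) / 3)) :=
          mul_le_mul_of_nonneg_left (a3.trans a2) (by positivity)
      _ = 4 * (M * (L ^ 2 / J)) + C₂ * (L ^ 2 * (M * (1 + 1 / J) + 1) ^ ((2 : ℝ) / 3)) := by ring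
      _ ≤ _ := by nlinarith
  -- the variance
  have hv : ∑ w ∈ An (N / 2) (2 * N),
      ((((PR J t₀ t₁).filter fun p => gp p ∣ w).card : ℝ) - L) ^ 2 ≤ 8 * (N * L) + 3 * C₁ * N := by
    have a1 := hvar (PR J t₀ t₁) ⌊2 * N⌋₊ fun p hp => (mem_PR.1 hp).2
    have a2 : (⌊2 * N⌋₊ : ℝ) ≤ 2 * N := Nat.floor_le (by linarith)
    have a4 := rpow_aux hP1 hP (x := (⌊2 * N⌋₊ : ℝ) + 1) (by positivity) (by linarith)
    have a5 : ((PR J t₀ t₁).card : ℝ) ^ 2 * ((⌊2 * N⌋₊ : ℝ) + 1) ^ ((2 : ℝ) / 3) ≤ 3 * N :=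
      le_trans (mul_le_mul_of_nonneg_right (pow_le_pow_left₀ (by positivity) hcard 2)
        (by positivity)) a4
    refine (sum_le_sum_of_subset_of_nonneg (An_subset_disc _ _) fun _ _ _ => sq_nonneg _).trans
      (a1.trans ?_)
    have a6 : 4 * (⌊2 * N⌋₊ : ℝ) * L ≤ 4 * (2 * N) * L := by gcongr
    change 4 * (⌊2 * N⌋₊ : ℝ) * L + _ ≤ _
    nlinarith
  refine (sum_le_sum fun w _ => hpt w).trans ?_
  rw [sum_add_distrib, ← mul_sum, ← mul_sum, sum_add_distrib]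
  have b1 := hbd N₁ (by linarith) (by linarith)
  have b2 := hbd N₂ (by linarith) h2
  have b3 : 0 ≤ N * (L ^ 2 / J) := by positivity
  have b4 : 0 ≤ N * L := by positivity
  have b5 : 0 ≤ (6 * C₁ + 18 * C₂) * (N * (L ^ 2 / J) + N * L) := by positivity
  nlinarith

end TKAux

open TKAux in
/-- The bilinear decomposition in mean square. -/
theorem tk : ∃ C : ℝ, 0 < C ∧ ∀ (J t₀ t₁ K : ℕ) (N N₁ N₂ : ℝ) (g a : G → ℂ), 2 ≤ J →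
    ((J * 2 ^ t₁ : ℕ) : ℝ) ^ 10 ≤ N → N / 2 ≤ N₁ → N₁ ≤ N₂ → N₂ ≤ N → K ≤ N →
    (∀ w, ‖a w‖ ≤ 1) → (∀ p ∈ PR J t₀ t₁, ∀ β, β ≠ 0 → a (gp p * β) = g (gp p) * a β) →
    ∑ k ∈ Icc (-(K : ℤ)) K, ‖(LL J t₀ t₁ : ℂ) * SA a N₁ N₂ k - Mn g a J t₀ t₁ N₁ N₂ k‖ ^ 2 ≤
      C * (N ^ 2 * (LL J t₀ t₁ ^ 2 / J + LL J t₀ t₁ + 1) + LL J t₀ t₁ ^ 2 * K * N) := by
  classical
  obtain ⟨C, hC, hdd⟩ := sum_dd
  refine ⟨3240 * C + 19440, by positivity,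
    fun J t₀ t₁ K N N₁ N₂ g a hJ hP h1 h12 h2 hK ha hm => ?_⟩
  have hJ0 : (0 : ℝ) < J := by exact_mod_cast (by omega : 0 < J)
  have hJ2 : (2 : ℝ) ≤ J := by exact_mod_cast hJ
  have hP1 : (1 : ℝ) ≤ ((J * 2 ^ t₁ : ℕ) : ℝ) := by
    have : 1 ≤ J * 2 ^ t₁ := Nat.mul_pos (by omega) (by positivity)
    exact_mod_cast this
  have hN : 1 ≤ N := (one_le_pow₀ hP1).trans hP
  have hPN : ((J * 2 ^ t₁ : ℕ) : ℝ) ≤ N := (le_self_pow₀ hP1 (by norm_num)).trans hP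
  have hL0 := LL_nonneg J t₀ t₁
  have hd := hdd J t₀ t₁ N N₁ N₂ hJ hP h1 h12 h2
  set L := LL J t₀ t₁ with hLdef
  set A : ℤ → ℂ := fun k => ∑ w ∈ An (N / 2) (2 * N), (a w * dd J t₀ t₁ N₁ N₂ w) * chi k w
    with hA
  set F : (Σ _ : ℕ × ℕ, ℕ) → ℤ → ℂ := fun i k => ∑ b ∈ (An (N₁ / Yv i.1) (N₂ / Yv i.1)).filter
    (fun b => star (gp i.2) ∣ b), a (gp i.2 * b) * chi k (gp i.2 * b) with hF
  have e1 : ∑ i ∈ II J t₀ t₁, 1 / (i.2 : ℝ) = L :=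
    sum_II (by omega) t₀ t₁ fun p => 1 / (p : ℝ)
  -- first part
  have hA1 : ∑ k ∈ Icc (-(K : ℤ)) K, ‖A k‖ ^ 2 ≤ 1620 * C * (N ^ 2 * (L ^ 2 / J + L + 1)) := by
    have h := mv_chi (T := An (N / 2) (2 * N)) (X₀ := N / 2) (X := 2 * N) (by linarith)
      (by linarith) (fun w hw => by
        obtain ⟨c1, c2, c3⟩ := (mem_An (by linarith)).1 hw
        exact ⟨c1, c2.le, c3⟩) K (fun w => a w * dd J t₀ t₁ N₁ N₂ w)
    have hs : √(2 * N / (N / 2)) ≤ 2 := by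
      rw [Real.sqrt_le_left (by norm_num), div_le_iff₀ (by linarith)]; linarith
    have hc : ∑ w ∈ An (N / 2) (2 * N), ‖a w * dd J t₀ t₁ N₁ N₂ w‖ ^ 2 ≤
        C * (N * (L ^ 2 / J + L + 1)) := by
      refine le_trans (sum_le_sum fun w _ => ?_) hd
      rw [norm_mul, Complex.norm_real, mul_pow, Real.norm_eq_abs, sq_abs]
      exact mul_le_of_le_one_left (sq_nonneg _) (pow_le_one₀ (norm_nonneg _) (ha w))
    refine h.trans ?_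
    calc 270 * √(2 * N / (N / 2)) * (K + 2 * N) *
          ∑ w ∈ An (N / 2) (2 * N), ‖a w * dd J t₀ t₁ N₁ N₂ w‖ ^ 2
        ≤ 270 * 2 * (N + 2 * N) * (C * (N * (L ^ 2 / J + L + 1))) := by gcongr
      _ = _ := by ring
  -- second part
  have hF1 : ∑ k ∈ Icc (-(K : ℤ)) K, ‖∑ i ∈ II J t₀ t₁, F i k‖ ^ 2 ≤
      9720 * (N ^ 2 * (L ^ 2 / J) + L ^ 2 * K * N) := by
    have h3 : ∀ i ∈ II J t₀ t₁, (i.2 : ℝ) * ∑ k ∈ Icc (-(K : ℤ)) K, ‖F i k‖ ^ 2 ≤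
        9720 * (K + N / J) * N * (1 / (i.2 : ℝ)) := fun i hi => by
      obtain ⟨-, c1, c2, c3, c4, c5, c6⟩ := II_spec hJ hi
      have c7 : (0 : ℝ) < Yv i.1 := hJ0.trans_le c3
      have c8 : (0 : ℝ) < i.2 := c7.trans_le c4
      have c9 : 1 / (J : ℝ) ≤ 1 := by rw [div_le_one hJ0]; linarith
      have c10 : N / Yv i.1 ≤ N / J := div_le_div_of_nonneg_left (by linarith) hJ0 c3
      have c11 : N / Yv i.1 ≤ 2 * N * (1 / (i.2 : ℝ)) := by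
        rw [mul_one_div, div_le_div_iff₀ c7 c8]
        have : (i.2 : ℝ) ≤ 2 * Yv i.1 := by nlinarith
        nlinarith
      have h := bad_mv c1 c2 c7 (c6.trans hPN) h1 h12 h2 K ha
      calc (i.2 : ℝ) * ∑ k ∈ Icc (-(K : ℤ)) K, ‖F i k‖ ^ 2
          ≤ i.2 * (4860 * (K + N / Yv i.1) * (N / Yv i.1 / i.2)) :=
            mul_le_mul_of_nonneg_left h c8.le
        _ = 4860 * (K + N / Yv i.1) * (N / Yv i.1) := by field_simp
        _ ≤ 4860 * (K + N / J) * (2 * N * (1 / (i.2 : ℝ))) := by gcongr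
        _ = _ := by ring
    calc ∑ k ∈ Icc (-(K : ℤ)) K, ‖∑ i ∈ II J t₀ t₁, F i k‖ ^ 2
        ≤ ∑ k ∈ Icc (-(K : ℤ)) K, L * ∑ i ∈ II J t₀ t₁, (i.2 : ℝ) * ‖F i k‖ ^ 2 :=
          sum_le_sum fun k _ => by
            rw [← e1]
            exact norm_sum_sq_le (II J t₀ t₁) (fun i => (i.2 : ℝ)) (fun i hi => by
              exact_mod_cast (II_spec hJ hi).2.1.pos) _
      _ = L * ∑ i ∈ II J t₀ t₁, (i.2 : ℝ) * ∑ k ∈ Icc (-(K : ℤ)) K, ‖F i k‖ ^ 2 := by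
          rw [← mul_sum, sum_comm]; simp_rw [mul_sum]
      _ ≤ L * ∑ i ∈ II J t₀ t₁, 9720 * (K + N / J) * N * (1 / (i.2 : ℝ)) :=
          mul_le_mul_of_nonneg_left (sum_le_sum h3) hL0
      _ = _ := by rw [← mul_sum, e1]; ring
  calc ∑ k ∈ Icc (-(K : ℤ)) K, ‖(L : ℂ) * SA a N₁ N₂ k - Mn g a J t₀ t₁ N₁ N₂ k‖ ^ 2
      ≤ ∑ k ∈ Icc (-(K : ℤ)) K, (2 * ‖A k‖ ^ 2 + 2 * ‖∑ i ∈ II J t₀ t₁, F i k‖ ^ 2) :=
        sum_le_sum fun k _ => by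
          rw [hLdef, decomp hJ hm (by linarith) h1 h2 k]
          have h := norm_sub_le (A k) (∑ i ∈ II J t₀ t₁, F i k)
          have h' := pow_le_pow_left₀ (norm_nonneg _) h 2
          nlinarith [sq_nonneg (‖A k‖ - ‖∑ i ∈ II J t₀ t₁, F i k‖)]
    _ ≤ _ := by
        rw [sum_add_distrib, ← mul_sum, ← mul_sum]
        have b1 : 0 ≤ C * (L ^ 2 * K * N) := by positivity
        have b2 : 0 ≤ N ^ 2 * (L + 1) := by positivity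
        nlinarith

end Pool.Agent.P.MP_a1177c_nt.LC
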