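import Pool.Agent.P.MP_a1177c_nt.LC.Geo

namespace Pool.Agent.P.MP_a1177c_nt.LC

open Finset Filter MR MR.StructAux
open scoped ComplexConjugate Topology

namespace TwistAux

/-- The residue ring modulo `q`. -/
abbrev R (q : ℕ) := G ⧸ Ideal.span {(q : G)}

/-- The residue map. -/
abbrev mk (q : ℕ) : G →+* R q := Ideal.Quotient.mk _

lemma mk_eq {q : ℕ} {a b : G} : mk q a = mk q b ↔ (q : G) ∣ a - b := by
  rw [Ideal.Quotient.eq, Ideal.mem_span_singleton]

lemma finite_R {q : ℕ} (hq : 0 < q) : Finite (R q) := by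
  refine Finite.of_surjective
    (fun p : Fin q × Fin q => mk q (⟨(p.1 : ℕ), (p.2 : ℕ)⟩ : G)) fun x => ?_
  obtain ⟨a, rfl⟩ := Ideal.Quotient.mk_surjective x
  have hq' : (0 : ℤ) < q := by exact_mod_cast hq
  have h1 := Int.emod_nonneg a.re hq'.ne'
  have h2 := Int.emod_lt_of_pos a.re hq'
  have h3 := Int.emod_nonneg a.im hq'.ne'
  have h4 := Int.emod_lt_of_pos a.im hq'
  refine ⟨(⟨(a.re % q).toNat, by omega⟩, ⟨(a.im % q).toNat, by omega⟩), ?_⟩
  refine mk_eq.2 ?_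
  have : ((q : ℤ) : G) ∣ (⟨((a.re % q).toNat : ℕ), ((a.im % q).toNat : ℕ)⟩ : G) - a := by
    refine (Zsqrtd.intCast_dvd _ _).2 ⟨?_, ?_⟩
    · simp only [Zsqrtd.re_sub, Int.toNat_of_nonneg h1]
      exact (Int.emod_emod_of_dvd a.re dvd_rfl |> Int.ModEq.dvd |> dvd_sub_comm.1)
    · simp only [Zsqrtd.im_sub, Int.toNat_of_nonneg h3]
      exact (Int.emod_emod_of_dvd a.im dvd_rfl |> Int.ModEq.dvd |> dvd_sub_comm.1)
  simpa using this

lemma nm_modEq {q : ℕ} {a b : G} (h : (q : G) ∣ a - b) : nm a ≡ nm b [MOD q] := by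
  obtain ⟨c, hc⟩ := h
  have ha : a = b + q * c := by linear_combination hc
  rw [← Int.natCast_modEq_iff, nm_int, nm_int, ha]
  refine Int.ModEq.symm (Int.modEq_iff_dvd.2 ⟨2 * b.re * c.re + q * c.re ^ 2 + 2 * b.im * c.im
    + q * c.im ^ 2, ?_⟩)
  simp [Zsqrtd.re_mul, Zsqrtd.im_mul]
  ring

lemma cop_congr {q : ℕ} {a b : G} (h : (q : G) ∣ a - b) :
    (nm a).Coprime q ↔ (nm b).Coprime q := by
  rw [Nat.Coprime, Nat.Coprime, (nm_modEq h).gcd_eq]

lemma isUnit_iff {q : ℕ} {a : G} : IsUnit (mk q a) ↔ (nm a).Coprime q := by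
  constructor
  · intro h
    obtain ⟨x, hx⟩ := h.exists_right_inv
    obtain ⟨b, rfl⟩ := Ideal.Quotient.mk_surjective x
    have h1 : (q : G) ∣ a * b - 1 := mk_eq.1 (by rw [map_mul, map_one]; exact hx)
    have h2 := (cop_congr h1).2 (by simp)
    rw [nm_mul] at h2
    exact Nat.Coprime.coprime_mul_right h2
  · intro h
    obtain ⟨u, v, huv⟩ := Nat.isCoprime_iff_coprime.2 h
    refine IsUnit.of_mul_eq_one (mk q (star a * (u : G))) ?_
    rw [← map_mul, ← map_one (mk q)]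
    refine mk_eq.2 ⟨-(v : G), ?_⟩
    have h1 : ((u * (nm a : ℕ) + v * (q : ℕ) : ℤ) : G) = 1 := by rw [huv]; simp
    push_cast at h1
    rw [← mul_assoc, mul_star_eq]
    linear_combination h1

open Classical in
/-- The unit given by a Gaussian integer. -/
noncomputable def un (q : ℕ) (a : G) : (R q)ˣ := if h : IsUnit (mk q a) then h.unit else 1

lemma coe_un {q : ℕ} {a : G} (h : (nm a).Coprime q) : (un q a : R q) = mk q a := by
  rw [un, dif_pos (isUnit_iff.2 h), IsUnit.unit_spec]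

lemma un_mul {q : ℕ} {a b : G} (ha : (nm a).Coprime q) (hb : (nm b).Coprime q) :
    un q (a * b) = un q a * un q b := by
  refine Units.ext ?_
  rw [Units.val_mul, coe_un ha, coe_un hb, coe_un (by rw [nm_mul]; exact Nat.Coprime.mul_left ha hb),
    map_mul]

lemma un_one (q : ℕ) : un q 1 = 1 := by
  refine Units.ext ?_
  rw [coe_un (by simp), map_one, Units.val_one]

lemma un_congr {q : ℕ} {a b : G} (h : (q : G) ∣ a - b) : un q a = un q b := by
  have key : ∀ x y : G, mk q x = mk q y → un q x = un q y := fun x y hxy => by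
    unfold un
    generalize mk q x = X at hxy ⊢
    subst hxy
    rfl
  exact key a b (mk_eq.2 h)

lemma cop_int {q : ℕ} {t : ℤ} (h : Int.gcd t q = 1) : (nm (t : G)).Coprime q := by
  rw [nm_intCast]
  exact Nat.Coprime.pow_left 2 (by simpa [Int.gcd] using h)

lemma pow_apply {q : ℕ} {ξ : G → ℂ} (h : Twist q ξ) (a : G) (n : ℕ) : ξ (a ^ n) = ξ a ^ n := by
  induction n with
  | zero => simp [h.one]
  | succ n ih => rw [pow_succ, h.mul, ih, pow_succ]

open Classical in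
/-- A character of the unit group, extended by zero. -/
noncomputable def ext (q : ℕ) (ψ : AddChar (Additive (R q)ˣ) ℂ) (a : G) : ℂ :=
  if (nm a).Coprime q then ψ (Additive.ofMul (un q a)) else 0

/-- Characters that are trivial on integers `1 mod 4`. -/
def Good (q : ℕ) (ψ : AddChar (Additive (R q)ˣ) ℂ) : Prop :=
  ∀ t : ℤ, t % 4 = 1 → Int.gcd t q = 1 → ψ (Additive.ofMul (un q t)) = 1

lemma twist_ext {q : ℕ} {ψ : AddChar (Additive (R q)ˣ) ℂ} (h : Good q ψ) : Twist q (ext q ψ) where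
  mul a b := by
    unfold ext
    by_cases ha : (nm a).Coprime q
    · by_cases hb : (nm b).Coprime q
      · rw [if_pos ha, if_pos hb, if_pos (by rw [nm_mul]; exact Nat.Coprime.mul_left ha hb),
          un_mul ha hb, ofMul_mul, AddChar.map_add_eq_mul]
      · rw [if_neg hb, if_neg (by rw [nm_mul]; exact fun h => hb h.coprime_mul_left), mul_zero]
    · rw [if_neg ha, if_neg (by rw [nm_mul]; exact fun h => ha h.coprime_mul_right), zero_mul]
  one := by
    unfold ext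
    rw [if_pos (by simp), un_one, ofMul_one, AddChar.map_zero_eq_one]
  per a b hab := by
    unfold ext
    simp only [cop_congr hab, un_congr hab]
  zero a ha := by unfold ext; rw [if_neg ha]
  int t h1 h2 := by
    unfold ext
    rw [if_pos (cop_int h2), h t h1 h2]

/-- Fourier inversion on a finite abelian group. -/
lemma inversion {A : Type*} [AddCommGroup A] [Fintype A] (f : A → ℂ) (a : A) :
    f a = ∑ ψ : AddChar A ℂ, ((Fintype.card A : ℂ)⁻¹ * ∑ b, f b * ψ (-b)) * ψ a := by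
  classical
  have hc : (Fintype.card A : ℂ) ≠ 0 := by exact_mod_cast Fintype.card_ne_zero
  have h1 : ∀ ψ : AddChar A ℂ, ((Fintype.card A : ℂ)⁻¹ * ∑ b, f b * ψ (-b)) * ψ a =
      ∑ b, (Fintype.card A : ℂ)⁻¹ * f b * ψ (a - b) := fun ψ => by
    rw [mul_assoc, sum_mul, mul_sum]
    refine sum_congr rfl fun b _ => ?_
    rw [sub_eq_add_neg, AddChar.map_add_eq_mul]; ring
  simp only [h1]
  rw [sum_comm]
  simp only [← mul_sum, AddChar.sum_apply_eq_ite, sub_eq_zero]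
  rw [sum_eq_single a]
  · rw [if_pos rfl]; field_simp
  · intro b _ hb; rw [if_neg hb.symm, mul_zero]
  · simp

lemma norm_coeff_le {A : Type*} [AddCommGroup A] [Fintype A] (f : A → ℂ) (hf : ∀ a, ‖f a‖ ≤ 1)
    (ψ : AddChar A ℂ) : ‖(Fintype.card A : ℂ)⁻¹ * ∑ b, f b * ψ (-b)‖ ≤ 1 := by
  have hc : (0 : ℝ) < Fintype.card A := by exact_mod_cast Fintype.card_pos
  have h1 : ‖∑ b, f b * ψ (-b)‖ ≤ Fintype.card A := by
    refine (norm_sum_le _ _).trans ?_
    have : ∀ b ∈ (univ : Finset A), ‖f b * ψ (-b)‖ ≤ 1 := fun b _ => by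
      rw [norm_mul, AddChar.norm_apply, mul_one]; exact hf b
    simpa using sum_le_card_nsmul _ _ _ this
  rw [norm_mul, norm_inv, Complex.norm_natCast, inv_mul_le_iff₀ hc, mul_one]
  exact h1

lemma coeff_eq_zero {A : Type*} [AddCommGroup A] [Fintype A] (f : A → ℂ) (ψ : AddChar A ℂ) {s : A}
    (hf : ∀ a, f (s + a) = f a) (hs : ψ s ≠ 1) : ∑ b, f b * ψ (-b) = 0 := by
  have h1 : ∑ b, f b * ψ (-b) = ∑ b, f (s + b) * ψ (-(s + b)) :=
    (Equiv.sum_comp (Equiv.addLeft s) fun b => f b * ψ (-b)).symm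
  have h2 : ψ s * ∑ b, f (s + b) * ψ (-(s + b)) = ∑ b, f b * ψ (-b) := by
    rw [mul_sum]
    refine sum_congr rfl fun b _ => ?_
    rw [hf, mul_left_comm, ← AddChar.map_add_eq_mul]
    congr 2; abel
  rw [← h1] at h2
  have h3 : (ψ s - 1) * ∑ b, f b * ψ (-b) = 0 := by linear_combination h2
  exact (mul_eq_zero.1 h3).resolve_left (sub_ne_zero.2 hs)

end TwistAux

open TwistAux

theorem Twist.pow_eq_one {q : ℕ} (hq : 0 < q) {ξ : G → ℂ} (h : Twist q ξ) :
    ∃ m : ℕ, 0 < m ∧ ∀ a : G, (nm a).Coprime q → ξ a ^ m = 1 := by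
  have := finite_R hq
  refine ⟨Nat.card (R q)ˣ, Nat.card_pos, fun a ha => ?_⟩
  have h1 : ((un q a ^ Nat.card (R q)ˣ : (R q)ˣ) : R q) = 1 := by
    rw [pow_card_eq_one', Units.val_one]
  rw [Units.val_pow_eq_pow_val, coe_un ha, ← map_pow, ← map_one (TwistAux.mk q)] at h1
  rw [← pow_apply h, h.per _ _ (mk_eq.1 h1), h.one]

theorem Twist.norm_eq {q : ℕ} (hq : 0 < q) {ξ : G → ℂ} (h : Twist q ξ) {a : G}
    (ha : (nm a).Coprime q) : ‖ξ a‖ = 1 := by
  obtain ⟨m, hm, h1⟩ := h.pow_eq_one hq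
  have h2 : ‖ξ a‖ ^ m = 1 := by rw [← norm_pow, h1 a ha, norm_one]
  exact (pow_eq_one_iff_of_nonneg (norm_nonneg _) hm.ne').1 h2

theorem Twist.norm_le {q : ℕ} (hq : 0 < q) {ξ : G → ℂ} (h : Twist q ξ) (a : G) : ‖ξ a‖ ≤ 1 := by
  by_cases ha : (nm a).Coprime q
  · exact (h.norm_eq hq ha).le
  · rw [h.zero a ha, norm_zero]; exact zero_le_one

theorem gtw_mul {q : ℕ} {ξ : G → ℂ} (h : Twist q ξ) (r : ℕ) {a b : G} (ha : a ≠ 0) (hb : b ≠ 0) :
    gtw ξ r (a * b) = gtw ξ r a * gtw ξ r b := by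
  simp only [gtw, lam_mul ha hb, h.mul, ek_mul]
  push_cast; ring

theorem norm_gtw_le {q : ℕ} (hq : 0 < q) {ξ : G → ℂ} (h : Twist q ξ) (r : ℕ) (a : G) :
    ‖gtw ξ r a‖ ≤ 1 := by
  have h1 : ‖ek r a‖ ≤ 1 := by
    by_cases ha : a = 0
    · subst ha
      rw [ek, zpow_natCast, norm_pow]
      exact pow_le_one₀ (norm_nonneg _) (by simp [dir1])
    · exact (norm_ek _ ha).le
  rw [gtw, norm_mul, norm_mul, norm_lam, one_mul]
  exact mul_le_one₀ (h.norm_le hq a) (norm_nonneg _) h1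

/-- Expansion of invariant periodic functions in characters. -/
theorem twist_expand {q : ℕ} (hq : 0 < q) : ∃ (n : ℕ) (Ξ : Fin n → G → ℂ), (∀ i, Twist q (Ξ i)) ∧
    ∀ u : G → ℂ, (∀ a, ‖u a‖ ≤ 1) → (∀ a b : G, (q : G) ∣ a - b → u a = u b) →
      (∀ (t : ℤ) (a : G), t % 4 = 1 → Int.gcd t q = 1 → u (t * a) = u a) →
      ∃ c : Fin n → ℂ, (∀ i, ‖c i‖ ≤ 1) ∧ ∀ a : G, (nm a).Coprime q → u a = ∑ i, c i * Ξ i a := by
  classical
  have := finite_R hq
  have : Fintype (Additive (R q)ˣ) := Fintype.ofFinite _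
  let e := Fintype.equivFin (AddChar (Additive (R q)ˣ) ℂ)
  refine ⟨_, fun i => TwistAux.ext q (if Good q (e.symm i) then e.symm i else 1), fun i => ?_,
    fun u h1 h2 h3 => ?_⟩
  · refine twist_ext ?_
    split_ifs with hg
    · exact hg
    · intro t _ _; simp
  · let l : R q → G := Function.surjInv Ideal.Quotient.mk_surjective
    have hl : ∀ x, TwistAux.mk q (l x) = x := Function.surjInv_eq _
    let f : Additive (R q)ˣ → ℂ := fun x => u (l (Additive.toMul x : (R q)ˣ))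
    refine ⟨fun i => (Fintype.card (Additive (R q)ˣ) : ℂ)⁻¹ * ∑ b, f b * e.symm i (-b),
      fun i => norm_coeff_le f (fun _ => h1 _) _, fun a ha => ?_⟩
    have h4 : u a = f (Additive.ofMul (un q a)) :=
      h2 _ _ (mk_eq.1 (by rw [hl, toMul_ofMul, coe_un ha]))
    rw [h4, inversion f, ← e.symm.sum_comp]
    refine sum_congr rfl fun i _ => ?_
    beta_reduce
    by_cases hg : Good q (e.symm i)
    · rw [if_pos hg, TwistAux.ext, if_pos ha]
    · simp only [Good, not_forall] at hg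
      obtain ⟨t, ht1, ht2, ht3⟩ := hg
      rw [coeff_eq_zero f _ (fun x => ?_) ht3, mul_zero, zero_mul, zero_mul]
      refine Eq.trans (h2 _ _ (mk_eq.1 ?_)) (h3 t _ ht1 ht2)
      rw [hl, map_mul, hl, toMul_add, toMul_ofMul, Units.val_mul, coe_un (cop_int ht2)]

namespace TwistAux

/-- Hilbert 90 modulo an odd number. -/
lemma exists_h90 {W : ℕ} (hW : Odd W) {b : G} (hb : nm b ≡ 1 [MOD W]) :
    ∃ g : G, (nm g).Coprime W ∧ (W : G) ∣ b * star g - g := by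
  classical
  have hW0 : W ≠ 0 := by rintro rfl; simp at hW
  obtain ⟨k, hk⟩ : (W : ℤ) ∣ b.re ^ 2 + b.im ^ 2 - 1 := by
    have := (Int.natCast_modEq_iff.2 hb).symm.dvd
    rwa [nm_int] at this
  set A : ℕ := ∏ p ∈ W.primeFactors.filter (fun p : ℕ => ¬ (p : ℤ) ∣ 1 - b.re), p with hA
  refine ⟨⟨A * (1 + b.re) + b.im, A * b.im + 1 - b.re⟩, ?_, ⟨⟨A * k, k⟩, ?_⟩⟩
  · refine Nat.coprime_of_dvd fun p hp h1 h2 => ?_
    have hpz : Prime (p : ℤ) := Nat.prime_iff_prime_int.1 hp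
    have h3 : (p : ℤ) ∣ (A * (1 + b.re) + b.im) ^ 2 + (A * b.im + 1 - b.re) ^ 2 := by
      have := Int.natCast_dvd_natCast.2 h1
      rwa [nm_int] at this
    have h4 : (p : ℤ) ∣ W := Int.natCast_dvd_natCast.2 h2
    have h5 : ¬ (p : ℤ) ∣ 2 := fun h => by
      have h6 : p ∣ 2 := by exact_mod_cast h
      rw [(Nat.prime_dvd_prime_iff_eq hp Nat.prime_two).1 h6] at h2
      exact (Nat.not_even_iff_odd.2 hW) (even_iff_two_dvd.2 h2)
    have h6 : (p : ℤ) ∣ 2 * ((1 + b.re) * A ^ 2 + 2 * b.im * A + (1 - b.re)) := by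
      have : 2 * ((1 + b.re) * A ^ 2 + 2 * b.im * A + (1 - b.re)) =
          (A * (1 + b.re) + b.im) ^ 2 + (A * b.im + 1 - b.re) ^ 2 - W * (k * (A ^ 2 + 1)) := by
        linear_combination (-(A : ℤ) ^ 2 - 1) * hk
      rw [this]
      exact dvd_sub h3 (h4.mul_right _)
    have h7 := (hpz.dvd_or_dvd h6).resolve_left h5
    by_cases h8 : (p : ℤ) ∣ 1 - b.re
    · have h9 : (p : ℤ) ∣ b.im := by
        refine hpz.dvd_of_dvd_pow (n := 2) ?_
        have : b.im ^ 2 = W * k + (1 - b.re) * (1 + b.re) := by linear_combination hk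
        rw [this]
        exact dvd_add (h4.mul_right _) (h8.mul_right _)
      have h10 : (p : ℤ) ∣ 2 * A ^ 2 := by
        have : (2 * A ^ 2 : ℤ) = ((1 + b.re) * A ^ 2 + 2 * b.im * A + (1 - b.re)) +
          (1 - b.re) * (A ^ 2 - 1) - b.im * (2 * A) := by ring
        rw [this]
        exact dvd_sub (dvd_add h7 (h8.mul_right _)) (h9.mul_right _)
      have h11 : p ∣ A := by
        exact_mod_cast hpz.dvd_of_dvd_pow ((hpz.dvd_or_dvd h10).resolve_left h5)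
      obtain ⟨r, hr, hpr⟩ := (Prime.dvd_finsetProd_iff hp.prime _).1 h11
      obtain ⟨hr1, hr2⟩ := mem_filter.1 hr
      rw [← (Nat.prime_dvd_prime_iff_eq hp (Nat.prime_of_mem_primeFactors hr1)).1 hpr] at hr2
      exact hr2 h8
    · have h9 : p ∣ A :=
        dvd_prod_of_mem _ (mem_filter.2 ⟨Nat.mem_primeFactors.2 ⟨hp, h2, hW0⟩, h8⟩)
      have h10 : (p : ℤ) ∣ A := Int.natCast_dvd_natCast.2 h9
      refine h8 ?_
      have : 1 - b.re = ((1 + b.re) * A ^ 2 + 2 * b.im * A + (1 - b.re)) -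
          A * ((1 + b.re) * A + 2 * b.im) := by ring
      rw [this]
      exact dvd_sub h7 (h10.mul_right _)
  · ext
    · simp [Zsqrtd.re_mul]; linear_combination (A : ℤ) * hk
    · simp [Zsqrtd.im_mul]; linear_combination hk

lemma odd_sq_add {a : G} (h : (nm a).Coprime 2) : nm a % 4 = 1 := by
  have h1 : nm a % 2 = 1 := Nat.odd_iff.1 (Nat.coprime_two_right.1 h)
  have h2 := nm_int a
  have h3 : ∀ x : ℤ, x ^ 2 % 4 = 0 ∨ x ^ 2 % 4 = 1 := fun x => by
    have : x % 4 = 0 ∨ x % 4 = 1 ∨ x % 4 = 2 ∨ x % 4 = 3 := by omega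
    rcases this with h | h | h | h <;> simp [pow_two, Int.mul_emod, h]
  have := h3 a.re
  have := h3 a.im
  omega

/-- A real twist is trivial on `b = 1 mod 4` of norm `1 mod W`. -/
lemma key_one {W m : ℕ} (hW : Odd W) {ξ : G → ℂ} (h : Twist (4 * W) ξ)
    (hm : ∀ a : G, (nm a).Coprime (4 * W) → ξ a ^ (2 * m) = 1) {b : G} (hb : nm b ≡ 1 [MOD W])
    (h4 : (4 : G) ∣ b - 1) : ξ b ^ m = 1 := by
  obtain ⟨g, hg1, c, hc⟩ := exists_h90 hW hb
  obtain ⟨w, hw⟩ := hW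
  obtain ⟨d, hd⟩ := h4
  have hw' : (W : G) = 2 * w + 1 := by rw [hw]; push_cast; ring
  set g' : G := g + W ^ 2 * (1 - g) with hg'
  have h1 : (W : G) ∣ g' - g := ⟨W * (1 - g), by rw [hg']; ring⟩
  have h2 : ((4 : ℕ) : G) ∣ g' - 1 := ⟨(w ^ 2 + w) * (1 - g), by rw [hg', hw']; push_cast; ring⟩
  have h3 : (nm g').Coprime (4 * W) :=
    Nat.Coprime.mul_right ((cop_congr h2).2 (by simp)) ((cop_congr h1).2 hg1)
  have h5 : nm g' % 4 = 1 :=
    odd_sq_add (Nat.Coprime.coprime_dvd_right ⟨2 * W, by ring⟩ h3)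
  have h6 : ((4 * W : ℕ) : G) ∣ b * star g' - g' := by
    have hs : star g' = star g + W ^ 2 * (1 - star g) := by simp [hg']
    refine ⟨W * d - (w ^ 2 + w) * c, ?_⟩
    have hb' : b = 1 + 4 * d := by linear_combination hd
    rw [hs, hg']
    push_cast
    have e1 : b * (star g + (W : G) ^ 2 * (1 - star g)) - (g + (W : G) ^ 2 * (1 - g)) =
        (1 - (W : G) ^ 2) * (b * star g - g) + (W : G) ^ 2 * (b - 1) := by ring
    rw [e1, hc, hd, hw']
    ring
  have h7 : ξ (b * (nm g' : G)) = ξ (g' ^ 2) := by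
    refine h.per _ _ ?_
    have : b * (nm g' : G) - g' ^ 2 = (b * star g' - g') * g' := by
      rw [← mul_star_eq]; ring
    rw [this]
    exact h6.mul_right _
  have h8 : ξ (nm g' : G) = 1 := by
    have := h.int (nm g') (by omega) (by rw [Int.gcd_natCast_natCast]; exact h3)
    simpa using this
  rw [h.mul, h8, mul_one, pow_apply h] at h7
  rw [h7, ← pow_mul, hm g' h3]

/-- A real twist is trivial on elements of norm `1 mod 8 W`. -/
lemma key {W m : ℕ} (hW : Odd W) {ξ : G → ℂ} (h : Twist (4 * W) ξ) (hi : ξ ⟨0, 1⟩ = 1)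
    (hm : ∀ a : G, (nm a).Coprime (4 * W) → ξ a ^ (2 * m) = 1) {b : G}
    (hb : nm b ≡ 1 [MOD 8 * W]) : ξ b ^ m = 1 := by
  have hb1 : nm b ≡ 1 [MOD W] := hb.of_mul_left 8
  have hb2 : nm b % 8 = 1 := hb.of_mul_right W
  have hn : nm (⟨0, 1⟩ : G) = 1 := by decide
  have step : ∀ j : ℕ, (4 : G) ∣ (⟨0, 1⟩ : G) ^ j * b - 1 → ξ b ^ m = 1 := fun j hj => by
    have := key_one hW h hm (b := (⟨0, 1⟩ : G) ^ j * b)
      (by rw [nm_mul, nm_pow, hn, one_pow, one_mul]; exact hb1) hj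
    rwa [h.mul, pow_apply h, hi, one_pow, one_mul] at this
  have h2 := nm_int b
  have h3 : ∀ x : ℤ, (x % 4 = 0 ∧ x ^ 2 % 8 = 0) ∨ (x % 4 = 1 ∧ x ^ 2 % 8 = 1) ∨
      (x % 4 = 2 ∧ x ^ 2 % 8 = 4) ∨ (x % 4 = 3 ∧ x ^ 2 % 8 = 1) := fun x => by
    have : x % 8 = 0 ∨ x % 8 = 1 ∨ x % 8 = 2 ∨ x % 8 = 3 ∨ x % 8 = 4 ∨ x % 8 = 5 ∨ x % 8 = 6 ∨
      x % 8 = 7 := by omega
    have h5 : x ^ 2 % 8 = (x % 8 * (x % 8)) % 8 := by rw [pow_two, Int.mul_emod]
    rcases this with h | h | h | h | h | h | h | h <;> rw [h] at h5 <;> omega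
  have hr := h3 b.re
  have hs := h3 b.im
  have hd : ∀ z : G, (4 : ℤ) ∣ z.re → (4 : ℤ) ∣ z.im → (4 : G) ∣ z := fun z h1 h2 => by
    simpa using (Zsqrtd.intCast_dvd 4 z).2 ⟨h1, h2⟩
  have hc : (b.re % 4 = 1 ∧ b.im % 4 = 0) ∨ (b.re % 4 = 0 ∧ b.im % 4 = 3) ∨
      (b.re % 4 = 3 ∧ b.im % 4 = 0) ∨ (b.re % 4 = 0 ∧ b.im % 4 = 1) := by omega
  rcases hc with hc | hc | hc | hc
  · refine step 0 (hd _ ?_ ?_) <;> simp <;> omega
  · refine step 1 (hd _ ?_ ?_) <;> simp [Zsqrtd.re_mul, Zsqrtd.im_mul] <;> omega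
  · refine step 2 (hd _ ?_ ?_) <;> simp [pow_succ, Zsqrtd.re_mul, Zsqrtd.im_mul] <;> omega
  · refine step 3 (hd _ ?_ ?_) <;> simp [pow_succ, Zsqrtd.re_mul, Zsqrtd.im_mul] <;> omega

end TwistAux

/-- Real characters of this kind only depend on the norm. -/
theorem Twist.genus {W : ℕ} (hW : Odd W) {ξ : G → ℂ} (h : Twist (4 * W) ξ) (hi : ξ ⟨0, 1⟩ = 1) :
    ∃ m a : ℕ, 0 < m ∧ a.Coprime (8 * W) ∧ a % 4 = 1 ∧
      ∀ π : G, nm π ≡ a [MOD 8 * W] → (-ξ π) ^ m = -1 := by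
  classical
  have hW0 : 0 < W := hW.pos
  have hex : ∃ m : ℕ, 0 < m ∧ ∀ a : G, (nm a).Coprime (4 * W) → ξ a ^ (2 * m) = 1 := by
    obtain ⟨m, hm, h1⟩ := h.pow_eq_one (by omega)
    exact ⟨m, hm, fun a ha => by rw [mul_comm, pow_mul, h1 a ha, one_pow]⟩
  obtain ⟨hm0, hm⟩ := Nat.find_spec hex
  have hmin := fun k => Nat.find_min hex (m := k)
  set m := Nat.find hex
  obtain ⟨b, hb, hb1⟩ : ∃ b : G, (nm b).Coprime (4 * W) ∧ (-ξ b) ^ m = -1 := by
    rcases Nat.even_or_odd m with ⟨k, hk⟩ | ho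
    · have h1 := hmin k (by omega)
      simp only [not_and, not_forall] at h1
      obtain ⟨b, hb, hb1⟩ := h1 (by omega)
      have hk' : m = 2 * k := by omega
      refine ⟨b, hb, ?_⟩
      have h2 : (ξ b ^ (2 * k)) ^ 2 = 1 := by rw [← pow_mul, mul_comm, ← hk', hm b hb]
      rw [hk', (even_two_mul k).neg_pow]
      exact (sq_eq_one_iff.1 h2).resolve_left hb1
    · exact ⟨1, by simp, by rw [h.one, ho.neg_one_pow]⟩
  have ha4 : nm b % 4 = 1 := odd_sq_add (Nat.Coprime.coprime_dvd_right ⟨2 * W, by ring⟩ hb)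
  have ha8 : (nm b).Coprime (8 * W) := by
    have : 8 * W = 2 * (4 * W) := by ring
    rw [this]
    exact Nat.Coprime.mul_right (Nat.Coprime.coprime_dvd_right ⟨2 * W, by ring⟩ hb) hb
  refine ⟨m, nm b, hm0, ha8, ha4, fun π hπ => ?_⟩
  obtain ⟨t, -, ht⟩ := Nat.exists_mul_mod_eq_one_of_coprime ha8 (by omega)
  have ht1 : nm b * t ≡ 1 [MOD 8 * W] := by
    rw [Nat.ModEq, ht, Nat.mod_eq_of_lt (by omega)]
  have ht4 : t % 4 = 1 := by
    have h1 : nm b * t ≡ 1 [MOD 4] := ht1.of_dvd ⟨2 * W, by ring⟩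
    rw [Nat.ModEq, Nat.mul_mod, ha4] at h1
    omega
  have htc : t.Coprime (4 * W) := by
    have h1 : (nm b * t).Coprime (8 * W) := by rw [Nat.Coprime, ht1.gcd_eq]; simp
    exact Nat.Coprime.coprime_dvd_right ⟨2, by ring⟩ h1.coprime_mul_left
  have hξt : ξ (t : G) = 1 := by
    simpa using h.int t (by omega) (by rw [Int.gcd_natCast_natCast]; exact htc)
  have hξa : ξ (nm b : G) = 1 := by
    simpa using h.int (nm b) (by omega) (by rw [Int.gcd_natCast_natCast]; exact hb)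
  have h1 : ξ (π * star b * t) ^ m = 1 := by
    refine key hW h hi hm ?_
    rw [nm_mul, nm_mul, nm_star, nm_natCast]
    have h2 : nm π * nm b * t ^ 2 ≡ nm b * nm b * t ^ 2 [MOD 8 * W] :=
      (hπ.mul_right _).mul_right _
    have h3 : nm b * nm b * t ^ 2 = (nm b * t) ^ 2 := by ring
    rw [h3] at h2
    simpa using h2.trans (ht1.pow 2)
  have h2 : ξ b * ξ (star b) = 1 := by rw [← h.mul, mul_star_eq, hξa]
  rw [h.mul, h.mul, hξt, mul_one] at h1
  have h3 : ξ π ^ m = ξ b ^ m := by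
    have : ξ π ^ m = ξ b ^ m * (ξ π * ξ (star b)) ^ m := by
      rw [← mul_pow, mul_left_comm, h2, mul_one]
    rw [this, h1, mul_one]
  rw [neg_pow, h3, ← neg_pow, hb1]

end Pool.Agent.P.MP_a1177c_nt.LC
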